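import Pool.Agent.Helper64.IPC.Defs
/-! MODULE BIL: the bilinear form `bil f` of a matrix `f : St → St → ℝ`; joins of partitions. -/
namespace IPC
open IP Finset Real

theorem bil_add_left (f : St → St → ℝ) (v v' w : M) : bil f (v + v') w = bil f v w + bil f v' w := by
  classical
  unfold bil
  rw [Finsupp.sum_add_index']
  · intro σ
    simp only [zero_mul]
    exact Finset.sum_eq_zero fun _ _ => rfl
  · intro σ x y
    rw [← Finsupp.sum_add]
    refine Finset.sum_congr rfl fun τ _ => ?_
    dsimp only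
    ring

theorem bil_add_right (f : St → St → ℝ) (v w w' : M) : bil f v (w + w') = bil f v w + bil f v w' := by
  classical
  unfold bil
  rw [← Finsupp.sum_add]
  refine Finset.sum_congr rfl fun σ _ => ?_
  refine Finsupp.sum_add_index' ?_ ?_
  · intro τ
    simp only [mul_zero, zero_mul]
  · intro τ x y
    ring

theorem bil_smul_left (f : St → St → ℝ) (c : ℝ) (v w : M) : bil f (c • v) w = c * bil f v w := by
  classical
  unfold bil
  rw [Finsupp.sum_smul_index', Finsupp.mul_sum]
  · refine Finset.sum_congr rfl fun σ _ => ?_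
    dsimp only
    rw [Finsupp.mul_sum]
    refine Finset.sum_congr rfl fun τ _ => ?_
    dsimp only
    rw [smul_eq_mul]
    ring
  · intro σ
    simp only [zero_mul]
    exact Finset.sum_eq_zero fun _ _ => rfl

theorem bil_smul_right (f : St → St → ℝ) (c : ℝ) (v w : M) : bil f v (c • w) = c * bil f v w := by
  classical
  unfold bil
  rw [Finsupp.mul_sum]
  refine Finset.sum_congr rfl fun σ _ => ?_
  dsimp only
  rw [Finsupp.sum_smul_index', Finsupp.mul_sum]
  · refine Finset.sum_congr rfl fun τ _ => ?_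
    dsimp only
    rw [smul_eq_mul]
    ring
  · intro τ
    simp only [mul_zero, zero_mul]

theorem bil_zero_left (f : St → St → ℝ) (w : M) : bil f 0 w = 0 := by
  have h := bil_smul_left f 0 0 w
  rw [zero_smul, zero_mul] at h
  exact h

theorem bil_zero_right (f : St → St → ℝ) (v : M) : bil f v 0 = 0 := by
  have h := bil_smul_right f 0 v 0
  rw [zero_smul, zero_mul] at h
  exact h

theorem bil_single (f : St → St → ℝ) (σ τ : St) (x y : ℝ) :
    bil f (Finsupp.single σ x) (Finsupp.single τ y) = x * y * f σ τ := by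
  classical
  unfold bil
  rw [Finsupp.sum_single_index, Finsupp.sum_single_index]
  · ring
  · rw [Finsupp.sum_single_index]
    · ring
    · ring

theorem bil_sum_left {ι : Type*} (f : St → St → ℝ) (A : Finset ι) (v : ι → M) (w : M) :
    bil f (∑ i ∈ A, v i) w = ∑ i ∈ A, bil f (v i) w := by
  classical
  induction A using Finset.induction_on with
  | empty => rw [sum_empty, sum_empty, bil_zero_left]
  | insert i A hi ih => rw [sum_insert hi, sum_insert hi, bil_add_left, ih]

theorem bil_sum_right {ι : Type*} (f : St → St → ℝ) (A : Finset ι) (v : M) (w : ι → M) :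
    bil f v (∑ i ∈ A, w i) = ∑ i ∈ A, bil f v (w i) := by
  classical
  induction A using Finset.induction_on with
  | empty => rw [sum_empty, sum_empty, bil_zero_right]
  | insert i A hi ih => rw [sum_insert hi, sum_insert hi, bil_add_right, ih]

theorem bil_flip (f : St → St → ℝ) (v w : M) : bil f v w = bil (fun σ τ => f τ σ) w v := by
  classical
  induction v using Finsupp.induction_linear with
  | zero => rw [bil_zero_left, bil_zero_right]
  | add v v' h h' => rw [bil_add_left, bil_add_right, h, h']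
  | single σ x =>
    induction w using Finsupp.induction_linear with
    | zero => rw [bil_zero_left, bil_zero_right]
    | add v v' h h' => rw [bil_add_left, bil_add_right, h, h']
    | single τ y => rw [bil_single, bil_single]; ring

/-- as a finite sum over sets of states that contain the supports -/
theorem bil_eq_sum (f : St → St → ℝ) {v w : M} {A B : Finset St} (hv : v ∈ Sup (A : Set St))
    (hw : w ∈ Sup (B : Set St)) : bil f v w = ∑ σ ∈ A, ∑ τ ∈ B, v σ * w τ * f σ τ := by
  classical
  have hv' : v.support ⊆ A := by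
    intro σ hσ
    exact Finset.mem_coe.1 ((Finsupp.mem_supported ℝ v).1 hv hσ)
  have hw' : w.support ⊆ B := by
    intro σ hσ
    exact Finset.mem_coe.1 ((Finsupp.mem_supported ℝ w).1 hw hσ)
  unfold bil
  rw [Finsupp.sum_of_support_subset v hv']
  · refine Finset.sum_congr rfl fun σ _ => ?_
    rw [Finsupp.sum_of_support_subset w hw']
    intro τ _
    simp only [mul_zero, zero_mul]
  · intro σ _
    simp only [zero_mul]
    exact Finset.sum_eq_zero fun _ _ => rfl

theorem bil_tendsto (f : St → St → ℝ) {S S' : Set St} (hS : S.Finite) (hS' : S'.Finite) {ι : Type*}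
    (l : Filter ι) (v w : ι → M) (v' w' : M)
    (hv : ∀ i, v i ∈ Sup S) (hw : ∀ i, w i ∈ Sup S') (hv' : v' ∈ Sup S) (hw' : w' ∈ Sup S')
    (h1 : ∀ σ, Filter.Tendsto (fun i => v i σ) l (nhds (v' σ)))
    (h2 : ∀ σ, Filter.Tendsto (fun i => w i σ) l (nhds (w' σ))) :
    Filter.Tendsto (fun i => bil f (v i) (w i)) l (nhds (bil f v' w')) := by
  classical
  have e1 : (S : Set St) = (hS.toFinset : Set St) := by rw [Set.Finite.coe_toFinset]
  have e2 : (S' : Set St) = (hS'.toFinset : Set St) := by rw [Set.Finite.coe_toFinset]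
  rw [e1] at hv hv'
  rw [e2] at hw hw'
  rw [bil_eq_sum f hv' hw']
  have e : (fun i => bil f (v i) (w i)) = fun i => ∑ σ ∈ hS.toFinset, ∑ τ ∈ hS'.toFinset,
      v i σ * w i τ * f σ τ := by
    funext i
    rw [bil_eq_sum f (hv i) (hw i)]
  rw [e]
  exact tendsto_finsetSum _ fun σ _ => tendsto_finsetSum _ fun τ _ =>
    ((h1 σ).mul (h2 τ)).mul tendsto_const_nhds

/-- the form depends only on the values of `f` on the supports -/
theorem bil_congr {f f' : St → St → ℝ} {S S' : Set St} {v w : M} (hv : v ∈ Sup S) (hw : w ∈ Sup S')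
    (h : ∀ σ ∈ S, ∀ τ ∈ S', f σ τ = f' σ τ) : bil f v w = bil f' v w := by
  unfold bil
  refine Finset.sum_congr rfl fun σ hσ => ?_
  refine Finset.sum_congr rfl fun τ hτ => ?_
  dsimp only
  rw [h σ ((Finsupp.mem_supported ℝ v).1 hv hσ) τ ((Finsupp.mem_supported ℝ w).1 hw hτ)]

/-- images of both vectors under maps of the states -/
theorem bil_map {f f' : St → St → ℝ} {S S' : Set St} {g g' : St → St} {v w : M} (hv : v ∈ Sup S)
    (hw : w ∈ Sup S') (h : ∀ σ ∈ S, ∀ τ ∈ S', f (g σ) (g' τ) = f' σ τ) :
    bil f (Finsupp.lmapDomain ℝ ℝ g v) (Finsupp.lmapDomain ℝ ℝ g' w) = bil f' v w := by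
  have h0 : ∀ v w : M, bil f (Finsupp.lmapDomain ℝ ℝ g v) (Finsupp.lmapDomain ℝ ℝ g' w) =
      bil (fun σ τ => f (g σ) (g' τ)) v w := by
    intro v w
    induction v using Finsupp.induction_linear with
    | zero => rw [map_zero, bil_zero_left, bil_zero_left]
    | add v v' h h' => rw [map_add, bil_add_left, bil_add_left, h, h']
    | single σ x =>
      induction w using Finsupp.induction_linear with
      | zero => rw [map_zero, bil_zero_right, bil_zero_right]
      | add v v' h h' => rw [map_add, bil_add_right, bil_add_right, h, h']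
      | single τ y =>
        rw [Finsupp.lmapDomain_apply, Finsupp.lmapDomain_apply, Finsupp.mapDomain_single,
          Finsupp.mapDomain_single, bil_single, bil_single]
  rw [h0]
  exact bil_congr hv hw h

/-! ### joins of partitions -/

theorem sup_le_of {σ τ S : St} (h1 : ∀ x y, σ x y → S x y) (h2 : ∀ x y, τ x y → S x y) :
    ∀ x y, (σ ⊔ τ) x y → S x y := by
  have h : σ ⊔ τ ≤ S := by
    refine sup_le ?_ ?_
    · rw [Setoid.le_def]
      intro x y
      exact h1 x y
    · rw [Setoid.le_def]
      intro x y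
      exact h2 x y
  rw [Setoid.le_def] at h
  intro x y hxy
  exact h hxy

theorem sup_left {σ τ : St} {x y : ℕ} (h : σ x y) : (σ ⊔ τ) x y := by
  have h1 : σ ≤ σ ⊔ τ := le_sup_left
  rw [Setoid.le_def] at h1
  exact h1 h

theorem sup_right {σ τ : St} {x y : ℕ} (h : τ x y) : (σ ⊔ τ) x y := by
  have h1 : τ ≤ σ ⊔ τ := le_sup_right
  rw [Setoid.le_def] at h1
  exact h1 h

theorem bil_pr_one {j k u v : ℕ} (hu1 : u ≠ j) (hu2 : u ≠ k) (hv1 : v ≠ j) (hv2 : v ≠ k) (σ τ : St)
    (h : (pr j k σ ⊔ τ) u v) : (σ ⊔ pr j k τ) u v := by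
  classical
  set S : St := σ ⊔ pr j k τ with hS
  have hjk : S j k := sup_right (Or.inr (Or.inl ⟨Or.inl rfl, Or.inr rfl⟩))
  let z : ℕ := if hz : ∃ z, (z ≠ j ∧ z ≠ k) ∧ (τ j z ∨ τ k z) then hz.choose else j
  let f : ℕ → ℕ := fun x => if x = j ∨ x = k then z else x
  have hf : ∀ x, x ≠ j → x ≠ k → f x = x := fun x h1 h2 => if_neg (by tauto)
  have hfj : ∀ x, (x = j ∨ x = k) → f x = z := fun x h => if_pos h
  have hz0 : ∀ y, (y ≠ j ∧ y ≠ k) → (τ j y ∨ τ k y) → S z y := by
    intro y hy1 hy2
    have hz : ∃ z, (z ≠ j ∧ z ≠ k) ∧ (τ j z ∨ τ k z) := ⟨y, hy1, hy2⟩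
    have e : z = hz.choose := dif_pos hz
    obtain ⟨c1, c2⟩ := hz.choose_spec
    rw [← e] at c1 c2
    refine sup_right (Or.inr (Or.inr ⟨c1, hy1, ?_⟩))
    rcases c2 with c2 | c2 <;> rcases hy2 with hy2 | hy2
    · exact Or.inl (τ.trans (τ.symm c2) hy2)
    · exact Or.inr (Or.inl ⟨τ.symm c2, hy2⟩)
    · exact Or.inr (Or.inr ⟨τ.symm c2, hy2⟩)
    · exact Or.inl (τ.trans (τ.symm c2) hy2)
  have key : ∀ x y, (pr j k σ ⊔ τ) x y → (Setoid.comap f S) x y := by
    refine sup_le_of ?_ ?_
    · intro x y hxy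
      rw [Setoid.comap_rel]
      rcases hxy with rfl | ⟨h1, h2⟩ | ⟨h1, h2, h3⟩
      · exact S.refl _
      · rw [hfj x h1, hfj y h2]
      · rw [hf x h1.1 h1.2, hf y h2.1 h2.2]
        rcases h3 with h3 | ⟨h3, h4⟩ | ⟨h3, h4⟩
        · exact sup_left h3
        · exact S.trans (sup_left h3) (S.trans hjk (sup_left h4))
        · exact S.trans (sup_left h3) (S.trans (S.symm hjk) (sup_left h4))
    · intro x y hxy
      rw [Setoid.comap_rel]
      by_cases hx : x = j ∨ x = k
      · by_cases hy : y = j ∨ y = k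
        · rw [hfj x hx, hfj y hy]
        · rw [not_or] at hy
          rw [hfj x hx, hf y hy.1 hy.2]
          refine hz0 y hy ?_
          rcases hx with rfl | rfl
          · exact Or.inl hxy
          · exact Or.inr hxy
      · rw [not_or] at hx
        by_cases hy : y = j ∨ y = k
        · rw [hfj y hy, hf x hx.1 hx.2]
          refine S.symm (hz0 x hx ?_)
          rcases hy with rfl | rfl
          · exact Or.inl (τ.symm hxy)
          · exact Or.inr (τ.symm hxy)
        · rw [not_or] at hy
          rw [hf x hx.1 hx.2, hf y hy.1 hy.2]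
          exact sup_right (Or.inr (Or.inr ⟨hx, hy, Or.inl hxy⟩))
  have h1 := key u v h
  rw [Setoid.comap_rel, hf u hu1 hu2, hf v hv1 hv2] at h1
  exact h1

/-- `pr j k` is self-adjoint for connections between nodes different from `j`, `k` -/
theorem pr_sup {j k u v : ℕ} (hu1 : u ≠ j) (hu2 : u ≠ k) (hv1 : v ≠ j) (hv2 : v ≠ k) (σ τ : St) :
    (pr j k σ ⊔ τ) u v ↔ (σ ⊔ pr j k τ) u v := by
  constructor
  · exact bil_pr_one hu1 hu2 hv1 hv2 σ τ
  · intro h
    rw [sup_comm] at h ⊢
    exact bil_pr_one hu1 hu2 hv1 hv2 τ σ h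

/-- pullback under a surjective map commutes with the join -/
theorem sup_comap {f : ℕ → ℕ} (hf : Function.Surjective f) (σ τ : St) :
    Setoid.comap f σ ⊔ Setoid.comap f τ = Setoid.comap f (σ ⊔ τ) := by
  apply le_antisymm
  · refine sup_le ?_ ?_
    · rw [Setoid.le_def]
      intro x y h
      exact sup_left h
    · rw [Setoid.le_def]
      intro x y h
      exact sup_right h
  · obtain ⟨g, hg⟩ := hf.hasRightInverse
    have key : ∀ x y, (σ ⊔ τ) x y → (Setoid.comap g (Setoid.comap f σ ⊔ Setoid.comap f τ)) x y := by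
      refine sup_le_of ?_ ?_
      · intro x y h
        refine sup_left ?_
        show σ (f (g x)) (f (g y))
        rw [hg x, hg y]
        exact h
      · intro x y h
        refine sup_right ?_
        show τ (f (g x)) (f (g y))
        rw [hg x, hg y]
        exact h
    rw [Setoid.le_def]
    intro x y h
    have h1 : (Setoid.comap f σ ⊔ Setoid.comap f τ) (g (f x)) (g (f y)) := key _ _ h
    have h2 : ∀ x, (Setoid.comap f σ ⊔ Setoid.comap f τ) x (g (f x)) := by
      intro x
      refine sup_left ?_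
      show σ (f x) (f (g (f x)))
      rw [hg (f x)]
    exact Setoid.trans' _ (h2 x) (Setoid.trans' _ h1 (Setoid.symm' _ (h2 y)))

/-- relabelling of both partitions -/
theorem rel_sup (e : Equiv.Perm ℕ) (σ τ : St) : rel e σ ⊔ rel e τ = rel e (σ ⊔ τ) :=
  sup_comap e.symm.surjective σ τ
end IPC
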