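import Pool.Agent.Helper64.IPC.BB
import Pool.Agent.Helper64.IPC.Bil
/-! MODULE ARMA: the arm event on partitions.
`a + c = 2k` dangling ends.  Top state `σ ∈ W (a + m)`: strands `0..a-1` dangling, `a..a+m-1` glued; bottom state
`τ ∈ W (c + m)`: strands `0..c-1` dangling; the glued strands `a + i` (top) and `c + i` (bottom) are identified.
Common labels: `0..a-1` top dangling, `a..a+c-1` bottom dangling, `a+c..` glued.
`sh p q σ` = insertion of `q` singleton strands (both copies) at the position `p`.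
`arm a c σ τ`: the ends (copy 0) are pairwise not connected in `sh a c σ ⊔ sh 0 a τ`. -/
namespace IPC
open IP Finset

/-- node map -/
def shn (p q x : ℕ) : ℕ := if x < 2 * p + 4 then x else x + 2 * q
/-- left inverse of `shn p q` -/
def shu (p q x : ℕ) : ℕ := if x < 2 * p + 4 then x else x - 2 * q

/-- insertion of `q` singleton strands at the position `p` -/
def sh (p q : ℕ) (σ : St) : St where
  r x y := x = y ∨ ((x < 2 * p + 4 ∨ 2 * p + 2 * q + 4 ≤ x) ∧ (y < 2 * p + 4 ∨ 2 * p + 2 * q + 4 ≤ y) ∧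
    σ (shu p q x) (shu p q y))
  iseqv := by
    refine ⟨fun x => Or.inl rfl, ?_, ?_⟩
    · rintro x y (rfl | ⟨h1, h2, h3⟩)
      · exact Or.inl rfl
      · exact Or.inr ⟨h2, h1, σ.symm h3⟩
    · rintro x y z (rfl | ⟨h1, h2, h3⟩) (rfl | ⟨h1', h2', h3'⟩)
      · exact Or.inl rfl
      · exact Or.inr ⟨h1', h2', h3'⟩
      · exact Or.inr ⟨h1, h2, h3⟩
      · exact Or.inr ⟨h1, h2', σ.trans h3 h3'⟩

/-- the arm event -/
def arm (a c : ℕ) (σ τ : St) : Prop :=
  ∀ i j, i < j → j < a + c → ¬ (sh a c σ ⊔ sh 0 a τ) (2 * i + 4) (2 * j + 4)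

open Classical in
/-- indicator function of the arm event -/
noncomputable def arf (a c : ℕ) (σ τ : St) : ℝ := if arm a c σ τ then 1 else 0

theorem sh_iff (p q : ℕ) (σ : St) (x y : ℕ) : (sh p q σ) x y ↔
    (x = y ∨ ((x < 2 * p + 4 ∨ 2 * p + 2 * q + 4 ≤ x) ∧ (y < 2 * p + 4 ∨ 2 * p + 2 * q + 4 ≤ y) ∧
    σ (shu p q x) (shu p q y))) := Iff.rfl

theorem sh_cases (p q x : ℕ) : (∃ x', x = shn p q x' ∧ shu p q x = x' ∧
    (x < 2 * p + 4 ∨ 2 * p + 2 * q + 4 ≤ x)) ∨ (2 * p + 4 ≤ x ∧ x < 2 * p + 2 * q + 4) := by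
  by_cases h : x < 2 * p + 4 ∨ 2 * p + 2 * q + 4 ≤ x
  · left
    refine ⟨shu p q x, ?_, rfl, h⟩
    unfold shn shu
    split_ifs <;> omega
  · right
    omega

theorem shu_shn (p q x : ℕ) : shu p q (shn p q x) = x := by
  unfold shn shu
  split_ifs <;> omega

theorem shn_reg (p q x : ℕ) : shn p q x < 2 * p + 4 ∨ 2 * p + 2 * q + 4 ≤ shn p q x := by
  unfold shn
  split_ifs <;> omega

theorem shn_inj {p q x y : ℕ} (h : shn p q x = shn p q y) : x = y := by
  rw [← shu_shn p q x, h, shu_shn]

theorem sh_shn (p q : ℕ) (σ : St) (x y : ℕ) : (sh p q σ) (shn p q x) (shn p q y) ↔ σ x y := by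
  rw [sh_iff, shu_shn, shu_shn]
  constructor
  · rintro (h | ⟨_, _, h⟩)
    · rw [shn_inj h]
    · exact h
  · intro h
    exact Or.inr ⟨shn_reg p q x, shn_reg p q y, h⟩

theorem sh_zero (p : ℕ) (σ : St) : sh p 0 σ = σ := by
  apply Setoid.ext; intro x y
  have h : ∀ x, shu p 0 x = x := by
    intro x
    unfold shu
    split_ifs <;> omega
  rw [sh_iff, h, h]
  constructor
  · rintro (rfl | ⟨_, _, h⟩)
    · exact σ.refl _
    · exact h
  · intro h
    exact Or.inr ⟨by omega, by omega, h⟩

/-- the new nodes are singletons -/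
theorem sh_new {p q x : ℕ} (h : 2 * p + 4 ≤ x ∧ x < 2 * p + 2 * q + 4) (σ : St) (y : ℕ) :
    (sh p q σ) x y ↔ x = y := by
  rw [sh_iff]
  constructor
  · rintro (h' | ⟨h1, _⟩)
    · exact h'
    · omega
  · exact Or.inl

theorem sh_new' {p q x : ℕ} (h : 2 * p + 4 ≤ x ∧ x < 2 * p + 2 * q + 4) (σ : St) (y : ℕ) :
    (sh p q σ) y x ↔ y = x := by
  rw [Setoid.comm', sh_new h]
  exact eq_comm

theorem sh_pr (p q : ℕ) {x y : ℕ} (hxy : x ≠ y) (σ : St) :
    sh p q (pr x y σ) = pr (shn p q x) (shn p q y) (sh p q σ) := by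
  apply Setoid.ext; intro u v
  rcases sh_cases p q u with ⟨u', rfl, hu, hu2⟩ | hu
  · rcases sh_cases p q v with ⟨v', rfl, hv, hv2⟩ | hv
    · have e : ∀ a b, (shn p q a = shn p q b ↔ a = b) := fun a b => ⟨shn_inj, fun h => by rw [h]⟩
      rw [sh_shn, pr_iff, pr_iff]
      simp only [sh_shn, e, ne_eq]
    · rw [sh_new' hv]
      have h1 : v ≠ shn p q x := by
        have := shn_reg p q x
        omega
      have h2 : v ≠ shn p q y := by
        have := shn_reg p q y
        omega
      have h3 : shn p q u' ≠ v := by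
        have := shn_reg p q u'
        omega
      have h4 : shn p q x ≠ v := h1.symm
      have h5 : shn p q y ≠ v := h2.symm
      rw [pr_iff]
      simp only [sh_new' hv]
      constructor
      · intro h
        exact absurd h h3
      · rintro (h | ⟨_, h | h⟩ | ⟨_, _, h | ⟨_, h⟩ | ⟨_, h⟩⟩)
        · exact h
        · exact absurd h h1
        · exact absurd h h2
        · exact h
        · exact absurd h h5
        · exact absurd h h4
  · rw [sh_new hu]
    have h1 : u ≠ shn p q x := by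
      have := shn_reg p q x
      omega
    have h2 : u ≠ shn p q y := by
      have := shn_reg p q y
      omega
    rw [pr_iff]
    simp only [sh_new hu]
    constructor
    · intro h
      exact Or.inl h
    · rintro (h | ⟨h | h, _⟩ | ⟨_, _, h | ⟨h, _⟩ | ⟨h, _⟩⟩)
      · exact h
      · exact absurd h h1
      · exact absurd h h2
      · exact h
      · exact absurd h h1
      · exact absurd h h2

/-- exchange of the two groups of dangling ends -/
def arm_e (a c : ℕ) : Equiv.Perm ℕ where
  toFun x := if x < 4 ∨ 2 * (a + c) + 4 ≤ x then x else if x < 2 * a + 4 then x + 2 * c else x - 2 * a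
  invFun x := if x < 4 ∨ 2 * (a + c) + 4 ≤ x then x else if x < 2 * c + 4 then x + 2 * a else x - 2 * c
  left_inv x := by
    dsimp only
    split_ifs <;> omega
  right_inv x := by
    dsimp only
    split_ifs <;> omega

theorem arm_e_symm (a c x : ℕ) : (arm_e a c).symm x =
    if x < 4 ∨ 2 * (a + c) + 4 ≤ x then x else if x < 2 * c + 4 then x + 2 * a else x - 2 * c := rfl

theorem arm_e_top (a c : ℕ) (σ : St) : rel (arm_e a c) (sh a c σ) = sh 0 c σ := by
  apply Setoid.ext; intro x y
  rw [rel_iff', sh_iff, sh_iff]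
  have hinj : (arm_e a c).symm x = (arm_e a c).symm y ↔ x = y := Equiv.apply_eq_iff_eq _
  rw [hinj]
  have key : ∀ x, ((arm_e a c).symm x < 2 * a + 4 ∨ 2 * a + 2 * c + 4 ≤ (arm_e a c).symm x ↔
      (x < 2 * 0 + 4 ∨ 2 * 0 + 2 * c + 4 ≤ x)) ∧ ((x < 2 * 0 + 4 ∨ 2 * 0 + 2 * c + 4 ≤ x) →
      shu a c ((arm_e a c).symm x) = shu 0 c x) := by
    intro x
    rw [arm_e_symm]
    unfold shu
    constructor
    · split_ifs <;> omega
    · intro h
      split_ifs <;> omega
  constructor
  · rintro (h | ⟨h1, h2, h3⟩)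
    · exact Or.inl h
    · have k1 := (key x).1.1 h1
      have k2 := (key y).1.1 h2
      rw [(key x).2 k1, (key y).2 k2] at h3
      exact Or.inr ⟨k1, k2, h3⟩
  · rintro (h | ⟨h1, h2, h3⟩)
    · exact Or.inl h
    · refine Or.inr ⟨(key x).1.2 h1, (key y).1.2 h2, ?_⟩
      rw [(key x).2 h1, (key y).2 h2]
      exact h3

theorem arm_e_inv (a c : ℕ) (σ : St) : rel (arm_e a c) (rel (arm_e c a) σ) = σ := by
  rw [rel_rel]
  have : arm_e a c * arm_e c a = 1 := by
    apply Equiv.ext
    intro x
    show arm_e a c (arm_e c a x) = x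
    have h1 : ∀ a c x, arm_e a c x = if x < 4 ∨ 2 * (a + c) + 4 ≤ x then x else
      if x < 2 * a + 4 then x + 2 * c else x - 2 * a := fun _ _ _ => rfl
    rw [h1, h1]
    split_ifs <;> omega
  rw [this, rel_one]

theorem arm_e_bot (a c : ℕ) (τ : St) : rel (arm_e a c) (sh 0 a τ) = sh c a τ := by
  rw [← arm_e_top c a τ, arm_e_inv]

theorem arm_flip_one {a c : ℕ} {σ τ : St} (h : arm a c σ τ) : arm c a τ σ := by
  have h0 : ∀ i j, i ≠ j → i < a + c → j < a + c →
      ¬ (sh a c σ ⊔ sh 0 a τ) (2 * i + 4) (2 * j + 4) := by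
    intro i j hij hi hj hc
    rcases lt_or_gt_of_ne hij with h1 | h1
    · exact h i j h1 hj hc
    · exact h j i h1 hi (Setoid.symm' _ hc)
  intro i j hij hj hc
  rw [← arm_e_top a c σ, ← arm_e_bot a c τ, sup_comm, rel_sup, rel_iff'] at hc
  have hv : ∀ i, i < a + c → ∃ k, k < a + c ∧ (arm_e a c).symm (2 * i + 4) = 2 * k + 4 ∧
      k = if i < c then i + a else i - c := by
    intro i hi
    refine ⟨if i < c then i + a else i - c, ?_, ?_, rfl⟩
    · split_ifs <;> omega
    · rw [arm_e_symm]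
      split_ifs <;> omega
  obtain ⟨k, hk, ek, ek'⟩ := hv i (by omega)
  obtain ⟨l, hl, el, el'⟩ := hv j (by omega)
  rw [ek, el] at hc
  refine h0 k l ?_ hk hl hc
  rw [ek', el']
  split_ifs <;> omega

/-- exchange of top and bottom: relabel by the permutation of the labels that exchanges the two groups
of dangling ends -/
theorem arm_flip (a c : ℕ) (σ τ : St) : arm a c σ τ ↔ arm c a τ σ :=
  ⟨arm_flip_one, arm_flip_one⟩

/-- the generator at two glued strands moves from the top to the bottom (`pr_sup`, four times) -/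
theorem arm_glued {a c i : ℕ} (σ τ : St) :
    arm a c (pr (2 * (a + i) + 4) (2 * (a + i) + 6) (pr (2 * (a + i) + 5) (2 * (a + i) + 7) σ)) τ ↔
      arm a c σ (pr (2 * (c + i) + 4) (2 * (c + i) + 6) (pr (2 * (c + i) + 5) (2 * (c + i) + 7) τ)) := by
  have e1 : ∀ k, shn a c (2 * (a + i) + (k + 4)) = 2 * (a + c + i) + (k + 4) := by
    intro k
    unfold shn
    split_ifs <;> omega
  have e2 : ∀ k, shn 0 a (2 * (c + i) + (k + 4)) = 2 * (a + c + i) + (k + 4) := by
    intro k
    unfold shn
    split_ifs <;> omega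
  have a0 := e1 0
  have a1 := e1 1
  have a2 := e1 2
  have a3 := e1 3
  have b0 := e2 0
  have b1 := e2 1
  have b2 := e2 2
  have b3 := e2 3
  norm_num only at a0 a1 a2 a3 b0 b1 b2 b3
  unfold arm
  refine forall_congr' fun u => forall_congr' fun v => forall_congr' fun huv => forall_congr' fun hv => ?_
  rw [not_iff_not, sh_pr _ _ (by omega), sh_pr _ _ (by omega), sh_pr _ _ (by omega), sh_pr _ _ (by omega),
    a0, a1, a2, a3, b0, b1, b2, b3]
  have s1 := pr_sup (j := 2 * (a + c + i) + 4) (k := 2 * (a + c + i) + 6) (u := 2 * u + 4) (v := 2 * v + 4)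
    (by omega) (by omega) (by omega) (by omega)
    (pr (2 * (a + c + i) + 5) (2 * (a + c + i) + 7) (sh a c σ)) (sh 0 a τ)
  have s2 := pr_sup (j := 2 * (a + c + i) + 5) (k := 2 * (a + c + i) + 7) (u := 2 * u + 4) (v := 2 * v + 4)
    (by omega) (by omega) (by omega) (by omega)
    (sh a c σ) (pr (2 * (a + c + i) + 4) (2 * (a + c + i) + 6) (sh 0 a τ))
  rw [pr_disj (by omega) (by omega) (by omega) (by omega)] at s2
  exact s1.trans s2

/-- two dangling ends on the same side joined -/
theorem arm_dangling {a c i : ℕ} (hi : i + 1 < a) (σ τ : St) :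
    ¬ arm a c (pr (2 * i + 4) (2 * i + 6) (pr (2 * i + 5) (2 * i + 7) σ)) τ := by
  intro h
  refine h i (i + 1) (by omega) (by omega) (sup_left ?_)
  have e1 : shn a c (2 * i + 4) = 2 * i + 4 := by
    unfold shn
    rw [if_pos (by omega)]
  have e2 : shn a c (2 * i + 6) = 2 * (i + 1) + 4 := by
    unfold shn
    rw [if_pos (by omega)]
    omega
  have h2 : (sh a c (pr (2 * i + 4) (2 * i + 6) (pr (2 * i + 5) (2 * i + 7) σ)))
      (shn a c (2 * i + 4)) (shn a c (2 * i + 6)) := by
    rw [sh_shn]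
    exact Or.inr (Or.inl ⟨Or.inl rfl, Or.inr rfl⟩)
  rw [e1, e2] at h2
  exact h2

/-- the map of the nodes in the straightening -/
def arm_f (a c x : ℕ) : ℕ := if x < 2 * a + 4 then x else if x < 2 * a + 6 then x + 2 * c else x - 2

theorem arm_f_surj (a c : ℕ) : Function.Surjective (arm_f a c) := by
  intro y
  by_cases h : y < 2 * a + 4
  · exact ⟨y, if_pos h⟩
  · refine ⟨y + 2, ?_⟩
    unfold arm_f
    split_ifs <;> omega

theorem arm_ins_top (a c : ℕ) (σ : St) :
    Setoid.comap (arm_f a c) (sh a (c + 1) σ) = sh (a + 1) c (ins a σ) := by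
  apply Setoid.ext; intro x y
  rw [Setoid.comap_rel, sh_iff, sh_iff, ba_ins_iff]
  have reg : ∀ x, (x < 2 * a + 4 ∨ 2 * a + 2 * c + 8 ≤ x) →
      (arm_f a c x < 2 * a + 4 ∨ 2 * a + 2 * (c + 1) + 4 ≤ arm_f a c x) ∧
      shu a (c + 1) (arm_f a c x) = un a (shu (a + 1) c x) ∧
      (x < 2 * (a + 1) + 4 ∨ 2 * (a + 1) + 2 * c + 4 ≤ x) ∧
      (shu (a + 1) c x < 2 * a + 4 ∨ 2 * a + 8 ≤ shu (a + 1) c x) := by
    intro x h
    unfold shu un arm_f
    refine ⟨?_, ?_, ?_, ?_⟩
    · split_ifs <;> omega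
    · split_ifs <;> omega
    · omega
    · split_ifs <;> omega
  have hf : ∀ x, arm_f a c x = if x < 2 * a + 4 then x else if x < 2 * a + 6 then x + 2 * c else x - 2 :=
    fun _ => rfl
  have hs : ∀ x, shu (a + 1) c x = if x < 2 * (a + 1) + 4 then x else x - 2 * c := fun _ => rfl
  by_cases hx : x < 2 * a + 4 ∨ 2 * a + 2 * c + 8 ≤ x
  · obtain ⟨x1, x2, x3, x4⟩ := reg x hx
    by_cases hy : y < 2 * a + 4 ∨ 2 * a + 2 * c + 8 ≤ y
    · obtain ⟨y1, y2, y3, y4⟩ := reg y hy
      rw [x2, y2]
      constructor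
      · rintro (h | ⟨_, _, h⟩)
        · left
          rw [hf, hf] at h
          split_ifs at h <;> omega
        · exact Or.inr ⟨x3, y3, Or.inr (Or.inr (Or.inr ⟨x4, y4, h⟩))⟩
      · rintro (h | ⟨_, _, h | h | h | ⟨_, _, h⟩⟩)
        · exact Or.inl (by rw [h])
        · left
          congr 1
          rw [hs, hs] at h
          split_ifs at h <;> omega
        · exfalso
          rw [hs, hs] at h
          split_ifs at h <;> omega
        · exfalso
          rw [hs, hs] at h
          split_ifs at h <;> omega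
        · exact Or.inr ⟨x1, y1, h⟩
    · constructor
      · rintro (h | ⟨_, h, _⟩)
        · exfalso
          rw [hf, hf] at h
          split_ifs at h <;> omega
        · exfalso
          rw [hf] at h
          split_ifs at h <;> omega
      · rintro (h | ⟨_, h0, h | h | h | ⟨_, h, _⟩⟩)
        · exfalso; omega
        · exfalso
          rw [hs, hs] at h
          split_ifs at h <;> omega
        · exfalso
          rw [hs, hs] at h
          split_ifs at h <;> omega
        · exfalso
          rw [hs, hs] at h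
          split_ifs at h <;> omega
        · exfalso
          rw [hs] at h
          split_ifs at h <;> omega
  · constructor
    · rintro (h | ⟨h, _, _⟩)
      · by_cases hxy : x = y
        · exact Or.inl hxy
        · right
          rw [hf, hf] at h
          refine ⟨?_, ?_, ?_⟩
          · split_ifs at h <;> omega
          · split_ifs at h <;> omega
          · rw [hs, hs]
            have : x % 2 = y % 2 := by split_ifs at h <;> omega
            by_cases hp : x % 2 = 0
            · right; left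
              split_ifs at h ⊢ <;> omega
            · right; right; left
              split_ifs at h ⊢ <;> omega
      · exfalso
        rw [hf] at h
        split_ifs at h <;> omega
    · rintro (h | ⟨h0, h1, h | h | h | ⟨h, _, _⟩⟩)
      · exact Or.inl (by rw [h])
      · left
        congr 1
        rw [hs, hs] at h
        split_ifs at h <;> omega
      · left
        rw [hs, hs] at h
        rw [hf, hf]
        split_ifs at h ⊢ <;> omega
      · left
        rw [hs, hs] at h
        rw [hf, hf]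
        split_ifs at h ⊢ <;> omega
      · exfalso
        rw [hs] at h
        split_ifs at h <;> omega

theorem arm_ins_bot (a c : ℕ) (σ τ : St) :
    Setoid.comap (arm_f a c) (sh a (c + 1) σ) ⊔ Setoid.comap (arm_f a c) (sh 0 a τ) =
      sh (a + 1) c (ins a σ) ⊔ sh 0 (a + 1) τ := by
  have hf : ∀ x, arm_f a c x = if x < 2 * a + 4 then x else if x < 2 * a + 6 then x + 2 * c else x - 2 :=
    fun _ => rfl
  -- the nodes of the two arcs
  have arc : ∀ e, e < 2 → (sh (a + 1) c (ins a σ)) (2 * a + 4 + e) (2 * a + 2 * c + 6 + e) := by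
    intro e he
    rw [← arm_ins_top, Setoid.comap_rel]
    have : arm_f a c (2 * a + 4 + e) = arm_f a c (2 * a + 2 * c + 6 + e) := by
      rw [hf, hf]
      split_ifs <;> omega
    rw [this]
  rw [arm_ins_top]
  apply le_antisymm
  · refine sup_le le_sup_left ?_
    rw [Setoid.le_def]
    intro x y h
    rw [Setoid.comap_rel] at h
    set S := sh (a + 1) c (ins a σ) ⊔ sh 0 (a + 1) τ with hS
    -- normal form of a node
    have nf : ∀ x, ∃ x', S x x' ∧ arm_f a c x' = arm_f a c x ∧ (x' < 2 * a + 4 ∨ 2 * a + 6 ≤ x') := by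
      intro x
      by_cases h1 : 2 * a + 4 ≤ x ∧ x < 2 * a + 6
      · obtain ⟨e, he⟩ : ∃ e, x = 2 * a + 4 + e := ⟨x - (2 * a + 4), by omega⟩
        refine ⟨2 * a + 2 * c + 6 + e, ?_, ?_, by omega⟩
        · rw [he]
          exact sup_left (arc e (by omega))
        · rw [hf, hf, he]
          split_ifs <;> omega
      · exact ⟨x, S.refl x, rfl, by omega⟩
    obtain ⟨x', sx, fx, rx⟩ := nf x
    obtain ⟨y', sy, fy, ry⟩ := nf y
    rw [← fx, ← fy] at h
    refine S.trans sx (S.trans ?_ (S.symm sy))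
    refine sup_right ?_
    rw [sh_iff] at h ⊢
    have reg : ∀ x, (x < 2 * a + 4 ∨ 2 * a + 6 ≤ x) →
        (arm_f a c x < 2 * 0 + 4 ∨ 2 * 0 + 2 * a + 4 ≤ arm_f a c x) →
        (x < 2 * 0 + 4 ∨ 2 * 0 + 2 * (a + 1) + 4 ≤ x) ∧ shu 0 a (arm_f a c x) = shu 0 (a + 1) x := by
      intro x h1 h2
      rw [hf] at h2 ⊢
      unfold shu
      constructor
      · split_ifs at h2 <;> omega
      · split_ifs at h2 ⊢ <;> omega
    rcases h with h | ⟨h1, h2, h3⟩
    · left
      rw [hf, hf] at h
      split_ifs at h <;> omega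
    · obtain ⟨k1, k2⟩ := reg x' rx h1
      obtain ⟨l1, l2⟩ := reg y' ry h2
      rw [k2, l2] at h3
      exact Or.inr ⟨k1, l1, h3⟩
  · refine sup_le le_sup_left ?_
    rw [Setoid.le_def]
    intro x y h
    refine sup_right ?_
    rw [Setoid.comap_rel]
    rw [sh_iff] at h ⊢
    have reg : ∀ x, (x < 2 * 0 + 4 ∨ 2 * 0 + 2 * (a + 1) + 4 ≤ x) →
        (arm_f a c x < 2 * 0 + 4 ∨ 2 * 0 + 2 * a + 4 ≤ arm_f a c x) ∧
          shu 0 a (arm_f a c x) = shu 0 (a + 1) x := by
      intro x h1
      rw [hf]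
      unfold shu
      constructor
      · split_ifs <;> omega
      · split_ifs <;> omega
    rcases h with h | ⟨h1, h2, h3⟩
    · exact Or.inl (by rw [h])
    · rw [← (reg x h1).2, ← (reg y h2).2] at h3
      exact Or.inr ⟨(reg x h1).1, (reg y h2).1, h3⟩

/-- STRAIGHTENING: the last dangling top strand is joined by an arc with the first glued strand: the bottom end
of the glued strand becomes the dangling end.  The map of nodes: strand `a-1` ↦ strand `a+c` (old labels), then
close the gap; `sup_comap`. -/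
theorem arm_ins {a c : ℕ} (ha : 0 < a) (σ τ : St) :
    arm a c (ins (a - 1) σ) τ ↔ arm (a - 1) (c + 1) σ τ := by
  obtain ⟨a, rfl⟩ : ∃ a', a = a' + 1 := ⟨a - 1, by omega⟩
  rw [Nat.add_sub_cancel]
  have hf : ∀ x, arm_f a c x = if x < 2 * a + 4 then x else if x < 2 * a + 6 then x + 2 * c else x - 2 :=
    fun _ => rfl
  set S := sh a (c + 1) σ ⊔ sh 0 a τ with hS
  have e1 : sh (a + 1) c (ins a σ) ⊔ sh 0 (a + 1) τ = Setoid.comap (arm_f a c) S := by
    rw [← arm_ins_bot, sup_comap (arm_f_surj a c)]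
  -- the permutation of the dangling ends
  have hg : ∀ i, i < a + 1 + c → ∃ k, k < a + 1 + c ∧ arm_f a c (2 * i + 4) = 2 * k + 4 ∧
      k = if i < a then i else if i = a then a + c else i - 1 := by
    intro i hi
    refine ⟨if i < a then i else if i = a then a + c else i - 1, ?_, ?_, rfl⟩
    · split_ifs <;> omega
    · rw [hf]
      split_ifs <;> omega
  have hg' : ∀ k, k < a + 1 + c → ∃ i, i < a + 1 + c ∧ arm_f a c (2 * i + 4) = 2 * k + 4 ∧
      i = if k < a then k else if k = a + c then a else k + 1 := by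
    intro k hk
    refine ⟨if k < a then k else if k = a + c then a else k + 1, ?_, ?_, rfl⟩
    · split_ifs <;> omega
    · rw [hf]
      split_ifs <;> omega
  have sym : ∀ (S : St) (n : ℕ), (∀ i j, i < j → j < n → ¬ S (2 * i + 4) (2 * j + 4)) →
      ∀ i j, i ≠ j → i < n → j < n → ¬ S (2 * i + 4) (2 * j + 4) := by
    intro S n h i j hij hi hj hc
    rcases lt_or_gt_of_ne hij with h1 | h1
    · exact h i j h1 hj hc
    · exact h j i h1 hi (Setoid.symm' _ hc)
  unfold arm
  rw [e1, ← hS]
  constructor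
  · intro h i j hij hj hc
    obtain ⟨k, hk, ek, ek'⟩ := hg' i (by omega)
    obtain ⟨l, hl, el, el'⟩ := hg' j (by omega)
    refine sym _ _ h k l ?_ hk hl ?_
    · rw [ek', el']
      split_ifs <;> omega
    · rw [Setoid.comap_rel, ek, el]
      exact hc
  · intro h i j hij hj hc
    obtain ⟨k, hk, ek, ek'⟩ := hg i (by omega)
    obtain ⟨l, hl, el, el'⟩ := hg j (by omega)
    rw [Setoid.comap_rel, ek, el] at hc
    refine sym _ _ h k l ?_ (by omega) (by omega) hc
    rw [ek', el']
    split_ifs <;> omega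
end IPC
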