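import Pool.Agent.Lead.IP.Defs

/-!
Common framework for the exact formulas on the CYLINDER (namespace `IPC`), definitions.
`L` strands, `L` even or odd.  Numerical reference: team-store `ipc_ref.py` (all statements checked, L <= 5).

We work on the DOUBLE COVER of the cylinder.  A node is (label `j`, copy `e`), `e = 0, 1`, coded as the
natural number `2 j + e`.  Labels: `0` = a, `1` = c (auxiliary line), `i + 2` = strand `i`.  So
a = nodes 0, 1;  c = nodes 2, 3;  strand `i` = nodes `2 i + 4`, `2 i + 5`.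
A link pattern on the punctured disc with `L` points is a half-turn symmetric noncrossing perfect
matching of the `2L` points (order: copy 0 strands 0..L-1, copy 1 strands 0..L-1, cyclically).
`L` odd: the defect strand is the diameter.  Non-contractible loops (and the infinite path for `L` odd)
are the blocks that contain both copies of a strand.
A state is a partition of the nodes (`IP.St = Setoid Nat`).  `pr x y` joins the blocks of `x` and `y`,
takes `x`, `y` out and makes `{x, y}` a new block.  `rel e` is the relabelling by the permutation `e`.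
The generator `E_i` of the cylinder is `pr (i,0) (i+1,0) ∘ pr (i,1) (i+1,1)`.
-/

namespace IPC
open IP Finset

/-- join the blocks of `j`, `k`, take `j`, `k` out, new block `{j, k}` -/
def pr (j k : ℕ) (σ : St) : St where
  r x y := x = y ∨ ((x = j ∨ x = k) ∧ (y = j ∨ y = k)) ∨
    ((x ≠ j ∧ x ≠ k) ∧ (y ≠ j ∧ y ≠ k) ∧ (join j k σ) x y)
  iseqv := by
    refine ⟨fun x => Or.inl rfl, ?_, ?_⟩
    · rintro x y (rfl | h | ⟨h1, h2, h3⟩)
      · exact Or.inl rfl
      · exact Or.inr (Or.inl ⟨h.2, h.1⟩)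
      · exact Or.inr (Or.inr ⟨h2, h1, (join j k σ).symm h3⟩)
    · rintro x y z (rfl | h | ⟨h1, h2, h3⟩) (rfl | h' | ⟨h1', h2', h3'⟩)
      · exact Or.inl rfl
      · exact Or.inr (Or.inl h')
      · exact Or.inr (Or.inr ⟨h1', h2', h3'⟩)
      · exact Or.inr (Or.inl h)
      · exact Or.inr (Or.inl ⟨h.1, h'.2⟩)
      · exact absurd h.2 (by tauto)
      · exact Or.inr (Or.inr ⟨h1, h2, h3⟩)
      · exact absurd h'.1 (by tauto)
      · exact Or.inr (Or.inr ⟨h1, h2', (join j k σ).trans h3 h3'⟩)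

/-- relabelling: `rel e σ (e x) (e y) ↔ σ x y` -/
def rel (e : Equiv.Perm ℕ) (σ : St) : St := Setoid.comap e.symm σ

/-- exchange of the two copies -/
def fl : Equiv.Perm ℕ where
  toFun x := if x % 2 = 0 then x + 1 else x - 1
  invFun x := if x % 2 = 0 then x + 1 else x - 1
  left_inv x := by
    by_cases h : x % 2 = 0
    · simp only [h, if_true]
      rw [if_neg (by omega)]
      omega
    · simp only [h, if_false]
      rw [if_pos (by omega)]
      omega
  right_inv x := by
    by_cases h : x % 2 = 0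
    · simp only [h, if_true]
      rw [if_neg (by omega)]
      omega
    · simp only [h, if_false]
      rw [if_pos (by omega)]
      omega

/-- rotation of the cylinder by one strand: `(i,e) ↦ (i+1,e)`, `(L-1,e) ↦ (0,1-e)` (on nodes) -/
def rtn (L : ℕ) : Equiv.Perm ℕ where
  toFun x := if x < 4 ∨ 2 * L + 4 ≤ x then x else if x < 2 * L + 2 then x + 2 else 2 * L + 7 - x
  invFun x := if x < 4 ∨ 2 * L + 4 ≤ x then x else if 6 ≤ x then x - 2 else 2 * L + 7 - x
  left_inv x := by
    by_cases h : x < 4 ∨ 2 * L + 4 ≤ x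
    · simp only [h, if_true]
    · by_cases h1 : x < 2 * L + 2
      · simp only [h, h1, if_true, if_false]
        rw [if_neg (by omega), if_pos (by omega)]
        omega
      · simp only [h, h1, if_false]
        rw [if_neg (by omega), if_neg (by omega)]
        omega
  right_inv x := by
    by_cases h : x < 4 ∨ 2 * L + 4 ≤ x
    · simp only [h, if_true]
    · by_cases h1 : 6 ≤ x
      · simp only [h, h1, if_true, if_false]
        rw [if_neg (by omega), if_pos (by omega)]
        omega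
      · simp only [h, h1, if_false]
        rw [if_neg (by omega), if_neg (by omega)]
        omega

/-- reversal of the cylinder: `(i,e) ↦ (L-1-i,1-e)` (on nodes) -/
def rvn (L : ℕ) : Equiv.Perm ℕ where
  toFun x := if x < 4 ∨ 2 * L + 4 ≤ x then x else 2 * L + 7 - x
  invFun x := if x < 4 ∨ 2 * L + 4 ≤ x then x else 2 * L + 7 - x
  left_inv x := by
    by_cases h : x < 4 ∨ 2 * L + 4 ≤ x
    · simp only [h, if_true]
    · simp only [h, if_false]
      rw [if_neg (by omega)]
      omega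
  right_inv x := by
    by_cases h : x < 4 ∨ 2 * L + 4 ≤ x
    · simp only [h, if_true]
    · simp only [h, if_false]
      rw [if_neg (by omega)]
      omega

/-- node map of the insertion of two strands at the positions `i`, `i+1` -/
def sk (i x : ℕ) : ℕ := if x < 2 * i + 4 then x else x + 4
/-- left inverse of `sk i` -/
def un (i x : ℕ) : ℕ := if x < 2 * i + 4 then x else x - 4

/-- insertion of an arc at the strands `i`, `i+1` (in both copies):
new blocks `{2i+4, 2i+6}`, `{2i+5, 2i+7}` -/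
def ins (i : ℕ) (σ : St) : St where
  r x y := x = y ∨ (x + y = 4 * i + 10 ∧ 2 * i + 4 ≤ x ∧ 2 * i + 4 ≤ y ∧ x ≠ 2 * i + 5 ∧ y ≠ 2 * i + 5) ∨
    (x + y = 4 * i + 12 ∧ 2 * i + 5 ≤ x ∧ 2 * i + 5 ≤ y ∧ x ≠ 2 * i + 6 ∧ y ≠ 2 * i + 6) ∨
    ((x < 2 * i + 4 ∨ 2 * i + 8 ≤ x) ∧ (y < 2 * i + 4 ∨ 2 * i + 8 ≤ y) ∧ σ (un i x) (un i y))
  iseqv := by
    refine ⟨fun x => Or.inl rfl, ?_, ?_⟩
    · rintro x y (rfl | h | h | ⟨h1, h2, h3⟩)
      · exact Or.inl rfl
      · exact Or.inr (Or.inl (by omega))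
      · exact Or.inr (Or.inr (Or.inl (by omega)))
      · exact Or.inr (Or.inr (Or.inr ⟨h2, h1, σ.symm h3⟩))
    · rintro x y z (rfl | h | h | ⟨h1, h2, h3⟩) (rfl | h' | h' | ⟨h1', h2', h3'⟩)
      · exact Or.inl rfl
      · exact Or.inr (Or.inl h')
      · exact Or.inr (Or.inr (Or.inl h'))
      · exact Or.inr (Or.inr (Or.inr ⟨h1', h2', h3'⟩))
      · exact Or.inr (Or.inl h)
      · exact Or.inl (by omega)
      · exfalso; omega
      · exfalso; omega
      · exact Or.inr (Or.inr (Or.inl h))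
      · exfalso; omega
      · exact Or.inl (by omega)
      · exfalso; omega
      · exact Or.inr (Or.inr (Or.inr ⟨h1, h2, h3⟩))
      · exfalso; omega
      · exfalso; omega
      · exact Or.inr (Or.inr (Or.inr ⟨h1, h2', σ.trans h3 h3'⟩))

/-- perfect pairings of the nodes `< N` (all other nodes are singletons) -/
def PP (N : ℕ) : Set St := {σ | (∀ x < N, ∃ y < N, y ≠ x ∧ ∀ z, σ x z ↔ (z = x ∨ z = y)) ∧
  ∀ x, N ≤ x → ∀ z, σ x z ↔ z = x}

/-- states with `L` strands, during the action of the transfer matrix -/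
def PW (L : ℕ) : Set St := {σ | σ ∈ PP (2 * L + 4) ∧ rel fl σ = σ}

/-- states with `L` strands: pairings, invariant under the exchange of the copies, with blocks
`{a_0, c_0} = {0, 2}`, `{a_1, c_1} = {1, 3}` -/
def W (L : ℕ) : Set St := {σ | σ ∈ PW L ∧ σ 0 2}

/-- position of a strand node on the circle of `2L` points -/
def ps (L x : ℕ) : ℕ := if x % 2 = 0 then (x - 4) / 2 else (x - 4) / 2 + L

/-- noncrossing with respect to the positions `p`, nodes `m, ..., N-1` -/
def NCp (m N : ℕ) (p : ℕ → ℕ) : Set St := {σ | ∀ x y z w : ℕ, m ≤ x → m ≤ y → m ≤ z → m ≤ w →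
  x < N → y < N → z < N → w < N → p x < p y → p y < p z → p z < p w → σ x z → ¬ σ y w}

/-- noncrossing states with `L` strands -/
def NC (L : ℕ) : Set St := NCp 4 (2 * L + 4) (ps L)

/-- positions when the auxiliary line has crossed the strands `≥ k`; block length `2L+2`:
copy `e`: strands `0..k-1`, `a_e`, strands `k..L-1`, `c_e` -/
def pk (L k x : ℕ) : ℕ :=
  (if x % 2 = 0 then 0 else 2 * L + 2) +
    (if x < 2 then 2 * k else if x < 4 then 2 * L + 1 else 2 * ((x - 4) / 2) + 1)

/-- the top state: `(j,e)` is joined to `(L-1-j,1-e)` -/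
def top (L : ℕ) : St where
  r x y := x = y ∨ (x + y = 2 ∧ x ≠ 1) ∨ (x + y = 4 ∧ (x = 1 ∨ x = 3)) ∨
    (x + y = 2 * L + 7 ∧ 4 ≤ x ∧ 4 ≤ y)
  iseqv := by
    refine ⟨fun x => Or.inl rfl, ?_, ?_⟩
    · intro x y h
      omega
    · intro x y z h h'
      omega

noncomputable section

def Pr (j k : ℕ) : M →ₗ[ℝ] M := Finsupp.lmapDomain ℝ ℝ (pr j k)
def Rel (e : Equiv.Perm ℕ) : M →ₗ[ℝ] M := Finsupp.lmapDomain ℝ ℝ (rel e)
def In (i : ℕ) : M →ₗ[ℝ] M := Finsupp.lmapDomain ℝ ℝ (ins i)

/-- simultaneous generator at the node pairs `(x, y)` and `(x', y')` -/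
def G (x y x' y' : ℕ) : M →ₗ[ℝ] M := Pr x y ∘ₗ Pr x' y'
/-- simultaneous transposition -/
def gs (x y x' y' : ℕ) : Equiv.Perm ℕ := Equiv.swap x y * Equiv.swap x' y'

/-- braided R-matrix -/
def Rc (x y x' y' : ℕ) (u : ℝ) : M →ₗ[ℝ] M := s (-u) • LinearMap.id + Real.sin u • G x y x' y'
/-- labelled R-matrix -/
def Rh (x y x' y' : ℕ) (u : ℝ) : M →ₗ[ℝ] M := s (-u) • Rel (gs x y x' y') + Real.sin u • G x y x' y'

/-- the generator `E_i` of the cylinder (strands `i`, `i+1`) -/
def Es (i : ℕ) : M →ₗ[ℝ] M := G (2 * i + 4) (2 * i + 6) (2 * i + 5) (2 * i + 7)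
/-- braided R-matrix at the strands `i`, `i+1` -/
def Rs (i : ℕ) (u : ℝ) : M →ₗ[ℝ] M := Rc (2 * i + 4) (2 * i + 6) (2 * i + 5) (2 * i + 7) u

/-- the auxiliary line crosses strands; an entry `(y, y', β)` : `a_0` crosses the node `y`, `a_1` the
node `y'`, parameter `β`; the last entry of the list acts first -/
def row : List (ℕ × ℕ × ℝ) → M →ₗ[ℝ] M
  | [] => LinearMap.id
  | (y, y', β) :: l => Rh 0 y 1 y' (β + Real.pi / 6) ∘ₗ row l

/-- close the auxiliary line (`a_0` with `c_1`, `a_1` with `c_0`) and restore the blocks `{0,2}`, `{1,3}` -/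
def TtL (l : List (ℕ × ℕ × ℝ)) : M →ₗ[ℝ] M := Rel (Equiv.swap 2 3) ∘ₗ G 0 3 1 2 ∘ₗ row l

/-- list of the strands `0, ..., L-1` -/
def lst (L : ℕ) (b : ℕ → ℝ) : List (ℕ × ℕ × ℝ) := (List.range L).map fun i => (2 * i + 4, 2 * i + 5, b i)

/-- transfer matrix with `L` strands (not normalised) -/
def Tt (L : ℕ) (b : ℕ → ℝ) : M →ₗ[ℝ] M := TtL (lst L b)

def nrm (L : ℕ) (b : ℕ → ℝ) : ℝ := ∏ j ∈ range L, s (b j + Real.pi / 6)

/-- stochastic transfer matrix -/
def T (L : ℕ) (b : ℕ → ℝ) : M →ₗ[ℝ] M := (nrm L b)⁻¹ • Tt L b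

/-- parameters after rotation by one strand: `(b (L-1), b 0, ..., b (L-2))` -/
def rb (L : ℕ) (b : ℕ → ℝ) : ℕ → ℝ := fun j => if j < L then (if j = 0 then b (L - 1) else b (j - 1)) else b j
/-- parameters after reversal: `(-b (L-1), ..., -b 0)` -/
def vb (L : ℕ) (b : ℕ → ℝ) : ℕ → ℝ := fun j => if j < L then -b (L - 1 - j) else b j

/-- entry of the polynomial stationary vector at the top state -/
def f0 (L : ℕ) (b : ℕ → ℝ) : ℝ := ∏ j ∈ range L, ∏ i ∈ range j, s (b i - b j)

/-- factor of the recursion at the position `i`, `L` strands -/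
def KK (L i : ℕ) (b : ℕ → ℝ) : ℝ := Real.sqrt 3 / 2 *
  ∏ j ∈ (range L).filter (fun j => j ≠ i ∧ j ≠ i + 1), s (b j - b i) ^ 2

/-- put `x` in front -/
def cons (x : ℝ) (b : ℕ → ℝ) : ℕ → ℝ
  | 0 => x
  | j + 1 => b j

/-- bilinear form with matrix `f` -/
def bil (f : St → St → ℝ) (v w : M) : ℝ := v.sum fun σ x => w.sum fun τ y => x * y * f σ τ

open Classical in
/-- two-arm form: the two copies of strand `0` are connected
(`L` even: strand `0` is on a non-contractible loop; `L` odd: on the infinite path) -/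
def hf (σ τ : St) : ℝ := if (σ ⊔ τ) 4 5 then 1 else 0

/-- the hull (two-arm) form -/
def hull (v w : M) : ℝ := bil hf v w

end
end IPC
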