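import Pool.Agent.Helper64.IPC.Vsol
/-! MODULE RECUR: the recursion `L + 2 → L` strands.
If `b 1 = b 0 + π/3` then `s (b 0 - b 1) = 0` and `V_sw` gives `V = E_0 V` (`sin (-π/3) + s (π/3) = 0`), so
`V = In 0 V'` (`ins_comap`, `comap_W`); by `V_Tt`, `Tt_In`, `nrm_In` and `P_unique` (on the cube for the remaining
coordinates, then by `Sep`-continuation) `V' = κ • V L (b ∘ (+2))`; `κ` from the coordinate at
`ins 0 (top L) = rel (rtn (L+2)) (top (L+2))` (`ins_top`): `V_rb` gives it as `f0 (L+2)` at the parameters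
`(b 1, ..., b (L+1), b 0)`, equal to `KK (L+2) 0 b * f0 L (b ∘ (+2))` by `s (x + π/3) = s (-x)`, `s (π/3) = √3/2`.
`V_rec` for general `i` follows by rotation (`rt_ins` and its analogue, `rtn^(-i)` first). -/
namespace IPC
open IP Finset Real

/-- parameters with `x`, `x + π/3` in front -/
noncomputable def rc_ic (x : ℝ) (c : ℕ → ℝ) : ℕ → ℝ
  | 0 => x
  | 1 => x + π / 3
  | j + 2 => c j

theorem rc_ic_eq (b : ℕ → ℝ) (hb : b 1 = b 0 + π / 3) : rc_ic (b 0) (fun j => b (j + 2)) = b := by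
  funext j
  match j with
  | 0 => rfl
  | 1 => exact hb.symm
  | j + 2 => rfl

/-- the factor as a function of the remaining coordinates -/
noncomputable def rc_K (L : ℕ) (x : ℝ) (c : ℕ → ℝ) : ℝ :=
  Real.sqrt 3 / 2 * ∏ j ∈ range L, s (c j - x) ^ 2

theorem rc_prod_rem {L i : ℕ} (hi : i ≤ L) (b : ℕ → ℝ) (F : ℝ → ℝ) :
    ∏ j ∈ (range (L + 2)).filter (fun j => j ≠ i ∧ j ≠ i + 1), F (b j) =
      ∏ j ∈ range L, F (rem i b j) := by
  refine Finset.prod_nbij' (fun j => if j < i then j else j - 2)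
    (fun j => if j < i then j else j + 2) ?_ ?_ ?_ ?_ ?_
  · intro j hj
    simp only [mem_filter, mem_range] at hj ⊢
    split_ifs <;> omega
  · intro j hj
    simp only [mem_filter, mem_range] at hj ⊢
    split_ifs <;> omega
  · intro j hj
    simp only [mem_filter, mem_range] at hj ⊢
    split_ifs <;> omega
  · intro j hj
    simp only [mem_range] at hj ⊢
    split_ifs <;> omega
  · intro j hj
    simp only [mem_filter, mem_range] at hj
    by_cases h : j < i
    · simp [rem, h]
    · have h1 : ¬ (j - 2 < i) := by omega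
      have h2 : j - 2 + 2 = j := by omega
      simp [rem, h, h1, h2]

theorem rc_KK_eq {L i : ℕ} (hi : i ≤ L) (b : ℕ → ℝ) :
    KK (L + 2) i b = rc_K L (b i) (rem i b) := by
  unfold KK rc_K
  rw [rc_prod_rem hi b (fun y => s (y - b i) ^ 2)]

theorem rc_sqrt3 : Real.sin (π / 3) = Real.sqrt 3 / 2 := Real.sin_pi_div_three

theorem rc_sin_pos : 0 < Real.sin (π / 3) :=
  Real.sin_pos_of_pos_of_lt_pi (by positivity) (by linarith [Real.pi_pos])

theorem rc_s_pi_third : s (π / 3) = Real.sin (π / 3) := by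
  unfold s
  rw [← Real.sin_pi_sub]
  congr 1
  ring

theorem rc_s_add (x : ℝ) : s (x + π / 3) = s (-x) := by
  unfold s
  rw [← Real.sin_pi_sub]
  congr 1
  ring

theorem rc_s_neg : s (-(π / 3)) = 0 := by
  unfold s
  rw [add_neg_cancel, Real.sin_zero]

/-! linear maps -/

/-- left inverse of `In 0` -/
noncomputable def rc_De : M →ₗ[ℝ] M := Finsupp.lmapDomain ℝ ℝ (fun σ : St => Setoid.comap (sk 0) σ)

theorem rc_comap_ins (σ : St) : Setoid.comap (sk 0) (ins 0 σ) = σ := by
  ext x y
  rw [Setoid.comap_rel]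
  exact ins_sk 0 σ x y

theorem rc_De_In (v : M) : rc_De (In 0 v) = v := by
  unfold rc_De In
  rw [Finsupp.lmapDomain_apply, Finsupp.lmapDomain_apply, ← Finsupp.mapDomain_comp]
  have : (fun σ : St => Setoid.comap (sk 0) σ) ∘ ins 0 = id := by
    funext σ
    exact rc_comap_ins σ
  rw [this, Finsupp.mapDomain_id]

theorem rc_In_De_Es (v : M) : In 0 (rc_De (Es 0 v)) = Es 0 v := by
  unfold rc_De In Es G Pr
  simp only [LinearMap.comp_apply, Finsupp.lmapDomain_apply, ← Finsupp.mapDomain_comp]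
  congr 1
  funext σ
  exact ins_comap 0 σ

theorem rc_Sup {L : ℕ} {w : M} (h : In 0 w ∈ Sup (W (L + 2))) : w ∈ Sup (W L) := by
  unfold Sup at h ⊢
  rw [Finsupp.mem_supported] at h ⊢
  intro σ hσ
  rw [mem_coe, Finsupp.mem_support_iff] at hσ
  have h1 : ins 0 σ ∈ W (L + 2) := h (by
    rw [mem_coe, Finsupp.mem_support_iff, In_apply]
    exact hσ)
  have h2 := comap_W (i := 0) (Nat.zero_le L) h1 ((ins_block0 0 σ (2 * 0 + 6)).2 (Or.inr rfl))
  rwa [rc_comap_ins] at h2

theorem rc_Es_V (L : ℕ) (b : ℕ → ℝ) (hb : b 1 = b 0 + π / 3) :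
    Es 0 (V (L + 2) b) = V (L + 2) b := by
  have h := V_sw (L := L + 2) (i := 0) (by omega) b
  have hd : b 0 - b (0 + 1) = -(π / 3) := by
    rw [zero_add, hb]
    ring
  rw [hd, rc_s_neg, zero_smul, exch_Rs_apply, neg_neg, rc_s_pi_third, Real.sin_neg, neg_smul,
    ← sub_eq_add_neg, ← smul_sub] at h
  rcases smul_eq_zero.mp h.symm with h' | h'
  · exact absurd h' rc_sin_pos.ne'
  · exact (sub_eq_zero.mp h').symm

theorem rc_In_De_V (L : ℕ) (b : ℕ → ℝ) (hb : b 1 = b 0 + π / 3) :
    In 0 (rc_De (V (L + 2) b)) = V (L + 2) b := by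
  have h := rc_In_De_Es (V (L + 2) b)
  rwa [rc_Es_V L b hb] at h

/-- parameters before the rotation -/
noncomputable def rc_rot (L : ℕ) (b : ℕ → ℝ) : ℕ → ℝ :=
  fun j => if j < L then (if j + 1 = L then b 0 else b (j + 1)) else b j

theorem rc_rb_rot {L : ℕ} (hL : 0 < L) (b : ℕ → ℝ) : rb L (rc_rot L b) = b := by
  funext j
  unfold rb rc_rot
  by_cases h : j < L
  · by_cases h0 : j = 0
    · subst h0
      rw [if_pos h, if_pos rfl, if_pos (by omega), if_pos (by omega)]
    · rw [if_pos h, if_neg h0, if_pos (by omega), if_neg (by omega)]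
      congr 1
      omega
  · rw [if_neg h, if_neg h]

theorem rc_f0_ic (L : ℕ) (x : ℝ) (c : ℕ → ℝ) :
    f0 (L + 2) (rc_rot (L + 2) (rc_ic x c)) = rc_K L x c * f0 L c := by
  set b := rc_rot (L + 2) (rc_ic x c) with hb
  have hb0 : b 0 = x + π / 3 := by
    rw [hb]
    unfold rc_rot
    rw [if_pos (by omega), if_neg (by omega)]
    rfl
  have hbj : ∀ j < L, b (j + 1) = c j := by
    intro j hj
    rw [hb]
    unfold rc_rot
    rw [if_pos (by omega), if_neg (by omega)]
    rfl
  have hbL : b (L + 1) = x := by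
    rw [hb]
    unfold rc_rot
    rw [if_pos (by omega), if_pos rfl]
    rfl
  have h1 : f0 (L + 2) b = f0 (L + 1) b * ∏ i ∈ range (L + 1), s (b i - b (L + 1)) :=
    exch_f0_succ (L + 1) b
  have h2 : ∏ i ∈ range (L + 1), s (b i - b (L + 1)) =
      (∏ j ∈ range L, s (c j - x)) * s (π / 3) := by
    rw [prod_range_succ', hb0, hbL]
    congr 1
    · refine prod_congr rfl fun j hj => ?_
      rw [mem_range] at hj
      rw [hbj j hj]
    · congr 1
      ring
  have h3 : f0 (L + 1) b = (∏ j ∈ range L, s (c j - x)) * f0 L c := by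
    unfold f0
    rw [prod_range_succ']
    rw [range_zero, prod_empty, mul_one, ← prod_mul_distrib]
    refine prod_congr rfl fun j hj => ?_
    rw [mem_range] at hj
    rw [prod_range_succ', hb0, hbj j hj, mul_comm]
    congr 1
    · rw [show x + π / 3 - c j = (x - c j) + π / 3 by ring, rc_s_add]
      congr 1
      ring
    · refine prod_congr rfl fun i hi => ?_
      rw [mem_range] at hi
      rw [hbj i (by omega)]
  rw [h1, h2, h3, rc_s_pi_third, rc_sqrt3]
  unfold rc_K
  rw [show (∏ j ∈ range L, s (c j - x) ^ 2) = (∏ j ∈ range L, s (c j - x)) ^ 2 from prod_pow _ _ _]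
  ring

theorem rc_s_good (x : ℝ) : s (x + π / 6) = Real.cos x := by
  unfold s
  rw [show π / 3 + (x + π / 6) = x + π / 2 by ring, Real.sin_add_pi_div_two]

/-- the recursion for generic `x` and `c` in the cube -/
theorem rc_V_good (L : ℕ) {c : ℕ → ℝ} (hc : c ∈ Cube) {x : ℝ}
    (h1 : Real.cos x ≠ 0) (h2 : Real.cos (x + π / 3) ≠ 0) :
    V (L + 2) (rc_ic x c) = rc_K L x c • In 0 (V L c) := by
  set b := rc_ic x c with hbdef
  have hb : b 1 = b 0 + π / 3 := rfl
  set w := rc_De (V (L + 2) b) with hw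
  have hv : In 0 w = V (L + 2) b := rc_In_De_V L b hb
  have hT := V_Tt (L + 2) b
  rw [← hv, Tt_In L b hb w, nrm_In] at hT
  have hT2 := congrArg rc_De hT
  rw [map_smul, map_smul, rc_De_In, rc_De_In,
    mul_smul (s (b 0 + π / 6) * s (b 1 + π / 6)) (nrm L fun j => b (j + 2))] at hT2
  have hne : s (b 0 + π / 6) * s (b 1 + π / 6) ≠ 0 := by
    rw [rc_s_good, rc_s_good]
    exact mul_ne_zero h1 h2
  have hT3 : Tt L c w = nrm L c • w := smul_right_injective _ hne hT2
  have hws : w ∈ Sup (W L) := rc_Sup (by rw [hv]; exact V_Sup (L + 2) b)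
  have hP := P_unique L hc hws hT3
  rw [P_eq L hc, smul_smul] at hP
  set κ := tot w * (Z L c)⁻¹ with hκ
  -- the coordinate at the rotated top state
  have e1 : V (L + 2) b (ins 0 (top L)) = w (top L) := by
    rw [← hv, In_apply]
  have e2 : V (L + 2) b (ins 0 (top L)) = f0 (L + 2) (rc_rot (L + 2) b) := by
    conv_lhs => rw [← rc_rb_rot (L := L + 2) (by omega) b]
    rw [V_rb, ins_top, Rel_apply, V_top]
  have e3 : w (top L) = κ * f0 L c := by
    conv_lhs => rw [hP]
    rw [Finsupp.smul_apply, smul_eq_mul, V_top]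
  have e4 : κ = rc_K L x c := by
    have hf := (f0_pos L hc).ne'
    have h3 : κ * f0 L c = rc_K L x c * f0 L c := by
      rw [← e3, ← e1, e2, hbdef, rc_f0_ic]
    exact mul_right_cancel₀ hf h3
  rw [← hv]
  conv_lhs => rw [hP]
  rw [map_smul, e4]

theorem rc_good_dense : Dense {x : ℝ | Real.cos x ≠ 0 ∧ Real.cos (x + π / 3) ≠ 0} := by
  have hA : {x : ℝ | Real.cos x = 0}.Countable := by
    refine (Set.countable_range (fun k : ℤ => (2 * (k : ℝ) + 1) * π / 2)).mono ?_
    intro x hx
    obtain ⟨k, hk⟩ := Real.cos_eq_zero_iff.mp hx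
    exact ⟨k, hk.symm⟩
  have hB : {x : ℝ | Real.cos (x + π / 3) = 0}.Countable := by
    refine (Set.countable_range (fun k : ℤ => (2 * (k : ℝ) + 1) * π / 2 - π / 3)).mono ?_
    intro x hx
    obtain ⟨k, hk⟩ := Real.cos_eq_zero_iff.mp hx
    exact ⟨k, by simp only; linarith⟩
  have := (hA.union hB).dense_compl ℝ
  refine this.mono ?_
  intro x hx
  simp only [Set.mem_compl_iff, Set.mem_union, not_or] at hx
  exact hx

theorem rc_ic_continuous (c : ℕ → ℝ) : Continuous (fun x => rc_ic x c) := by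
  refine continuous_pi fun j => ?_
  match j with
  | 0 => exact continuous_id
  | 1 => exact continuous_id.add continuous_const
  | j + 2 => exact continuous_const

theorem rc_K_continuous (L : ℕ) (c : ℕ → ℝ) : Continuous (fun x => rc_K L x c) := by
  unfold rc_K
  refine continuous_const.mul (continuous_finsetProd _ fun j _ => ?_)
  exact (exch_s_continuous.comp (by fun_prop)).pow 2

theorem rc_V_cube (L : ℕ) {c : ℕ → ℝ} (hc : c ∈ Cube) (x : ℝ) (τ : St) :
    V (L + 2) (rc_ic x c) τ = rc_K L x c * In 0 (V L c) τ := by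
  have h1 : Continuous (fun x => V (L + 2) (rc_ic x c) τ) :=
    (V_continuous (L + 2) τ).comp (rc_ic_continuous c)
  have h2 : Continuous (fun x => rc_K L x c * In 0 (V L c) τ) :=
    (rc_K_continuous L c).mul continuous_const
  have h3 : Set.EqOn (fun x => V (L + 2) (rc_ic x c) τ) (fun x => rc_K L x c * In 0 (V L c) τ)
      {x : ℝ | Real.cos x ≠ 0 ∧ Real.cos (x + π / 3) ≠ 0} := by
    intro y hy
    simp only
    rw [rc_V_good L hc hy.1 hy.2, Finsupp.smul_apply, smul_eq_mul]
  exact congrFun (Continuous.ext_on rc_good_dense h1 h2 h3) x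

theorem rc_K_Sep (L : ℕ) (x : ℝ) : Sep L 2 (rc_K L x) := by
  constructor
  · intro c j hj
    have hj' : j ∈ range L := mem_range.mpr hj
    have e : (fun y => rc_K L x (Function.update c j y)) = fun y =>
        (Real.sqrt 3 / 2 * ∏ k ∈ (range L).erase j, s (c k - x) ^ 2) *
          (s (y + (-x)) * s (y + (-x))) := by
      funext y
      unfold rc_K
      rw [← Finset.mul_prod_erase _ _ hj', Function.update_self]
      have : ∏ k ∈ (range L).erase j, s (Function.update c j y k - x) ^ 2 =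
          ∏ k ∈ (range L).erase j, s (c k - x) ^ 2 := prod_congr rfl fun k hk => by
        rw [Function.update_of_ne (ne_of_mem_erase hk)]
      rw [this, ← sub_eq_add_neg]
      ring
    rw [e]
    exact ((TP.s_add (-x)).mul (TP.s_add (-x))).smul _
  · intro b b' h
    unfold rc_K
    congr 1
    refine prod_congr rfl fun k hk => ?_
    rw [h k (mem_range.mp hk)]

theorem rc_Sep_zero (L m : ℕ) : Sep L m (fun _ => 0) :=
  ⟨fun _ _ _ => TP.zero m, fun _ _ _ => rfl⟩

theorem rc_In_apply_notin (i : ℕ) (v : M) {τ : St} (h : τ ∉ Set.range (ins i)) : In i v τ = 0 := by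
  unfold In
  rw [Finsupp.lmapDomain_apply]
  exact Finsupp.mapDomain_of_notMem_range _ _ h

theorem rc_In_V_Sep (L : ℕ) (τ : St) : Sep L (L - 1) (fun c => In 0 (V L c) τ) := by
  by_cases h : τ ∈ Set.range (ins 0)
  · obtain ⟨σ, rfl⟩ := h
    simp only [In_apply]
    exact V_Sep L σ
  · simp only [rc_In_apply_notin 0 _ h]
    exact rc_Sep_zero _ _

theorem rc_ic_update (x y : ℝ) (c : ℕ → ℝ) (j : ℕ) :
    rc_ic x (Function.update c j y) = Function.update (rc_ic x c) (j + 2) y := by
  funext k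
  match k with
  | 0 => rw [Function.update_of_ne (by omega)]; rfl
  | 1 => rw [Function.update_of_ne (by omega)]; rfl
  | k + 2 =>
    show Function.update c j y k = Function.update (rc_ic x c) (j + 2) y (k + 2)
    by_cases hk : k = j
    · subst hk
      rw [Function.update_self, Function.update_self]
    · rw [Function.update_of_ne hk, Function.update_of_ne (by omega)]
      rfl

theorem rc_V_ic_Sep (L : ℕ) (x : ℝ) (τ : St) : Sep L (L + 1) (fun c => V (L + 2) (rc_ic x c) τ) := by
  have hV := V_Sep (L + 2) τ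
  constructor
  · intro c j hj
    simp only [rc_ic_update]
    exact hV.1 (rc_ic x c) (j + 2) (by omega)
  · intro b b' h
    refine hV.2 _ _ fun j hj => ?_
    match j with
    | 0 => rfl
    | 1 => rfl
    | j + 2 => exact h j (by omega)

theorem rc_V_all (L : ℕ) (c : ℕ → ℝ) (x : ℝ) :
    V (L + 2) (rc_ic x c) = rc_K L x c • In 0 (V L c) := by
  ext τ
  have h1 := rc_V_ic_Sep L x τ
  have h2 : Sep L (L + 1) (fun c => rc_K L x c * In 0 (V L c) τ) := by
    have h := (rc_K_Sep L x).mul (rc_In_V_Sep L τ)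
    rcases Nat.eq_zero_or_pos L with h0 | h0
    · subst h0
      exact ⟨fun _ _ hj => absurd hj (by omega), h.2⟩
    · rwa [show 2 + (L - 1) = L + 1 by omega] at h
  have h3 := (h1.sub h2).eq_zero (fun b hb => by
    rw [rc_V_cube L hb x τ, sub_self]) c
  rw [Finsupp.smul_apply, smul_eq_mul]
  linarith

theorem V_rec0 (L : ℕ) (b : ℕ → ℝ) (hb : b 1 = b 0 + π / 3) :
    V (L + 2) b = KK (L + 2) 0 b • In 0 (V L (fun j => b (j + 2))) := by
  have h := rc_V_all L (fun j => b (j + 2)) (b 0)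
  rw [rc_ic_eq b hb] at h
  rw [h, rc_KK_eq (Nat.zero_le L)]
  rfl

/-- the rotated `ins i` is `ins (i + 1)` -/
theorem rc_rt_ins {L i : ℕ} (hi : i + 1 ≤ L) (σ : St) :
    rel (rtn (L + 2)) (ins i σ) = ins (i + 1) (rel (rtn L) σ) := by
  have hf : ∀ x, (rtn (L + 2)).symm x =
      if x < 4 ∨ 2 * (L + 2) + 4 ≤ x then x else if 6 ≤ x then x - 2 else 2 * (L + 2) + 7 - x :=
    fun _ => rfl
  have hg : ∀ x, (rtn L).symm x =
      if x < 4 ∨ 2 * L + 4 ≤ x then x else if 6 ≤ x then x - 2 else 2 * L + 7 - x :=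
    fun _ => rfl
  have hu : ∀ x, (x < 2 * (i + 1) + 4 ∨ 2 * (i + 1) + 8 ≤ x) →
      (rtn L).symm (un (i + 1) x) = un i ((rtn (L + 2)).symm x) := by
    intro x hx
    rw [hf, hg]
    unfold un
    split_ifs <;> omega
  ext x y
  rw [rel_iff']
  have hx := hf x
  have hy := hf y
  have hxu := hu x
  have hyu := hu y
  have hinj : (rtn (L + 2)).symm x = (rtn (L + 2)).symm y ↔ x = y := Equiv.apply_eq_iff_eq _
  set x' := (rtn (L + 2)).symm x with hx'
  set y' := (rtn (L + 2)).symm y with hy'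
  have hx1 : (x' = 2 * i + 4 ↔ x = 2 * (i + 1) + 4) ∧ (x' = 2 * i + 5 ↔ x = 2 * (i + 1) + 5) ∧
      (x' = 2 * i + 6 ↔ x = 2 * (i + 1) + 6) ∧ (x' = 2 * i + 7 ↔ x = 2 * (i + 1) + 7) := by
    split_ifs at hx <;> omega
  have hy1 : (y' = 2 * i + 4 ↔ y = 2 * (i + 1) + 4) ∧ (y' = 2 * i + 5 ↔ y = 2 * (i + 1) + 5) ∧
      (y' = 2 * i + 6 ↔ y = 2 * (i + 1) + 6) ∧ (y' = 2 * i + 7 ↔ y = 2 * (i + 1) + 7) := by
    split_ifs at hy <;> omega
  clear hx hy
  constructor
  · rintro (h | h | h | ⟨h1, h2, h3⟩)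
    · exact Or.inl (hinj.1 h)
    · exact Or.inr (Or.inl (by omega))
    · exact Or.inr (Or.inr (Or.inl (by omega)))
    · refine Or.inr (Or.inr (Or.inr ⟨by omega, by omega, ?_⟩))
      rw [rel_iff', hxu (by omega), hyu (by omega)]
      exact h3
  · rintro (h | h | h | ⟨h1, h2, h3⟩)
    · exact Or.inl (hinj.2 h)
    · exact Or.inr (Or.inl (by omega))
    · exact Or.inr (Or.inr (Or.inl (by omega)))
    · refine Or.inr (Or.inr (Or.inr ⟨by omega, by omega, ?_⟩))
      rw [rel_iff', hxu (by omega), hyu (by omega)] at h3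
      exact h3

theorem rc_Rt_In {L i : ℕ} (hi : i + 1 ≤ L) (v : M) :
    Rel (rtn (L + 2)) (In i v) = In (i + 1) (Rel (rtn L) v) := by
  unfold Rel In
  simp only [Finsupp.lmapDomain_apply, ← Finsupp.mapDomain_comp]
  congr 1
  funext σ
  exact rc_rt_ins hi σ

theorem rc_prod_rb {L : ℕ} (hL : 0 < L) (c : ℕ → ℝ) (F : ℝ → ℝ) :
    ∏ j ∈ range L, F (rb L c j) = ∏ j ∈ range L, F (c j) := by
  obtain ⟨m, rfl⟩ : ∃ m, L = m + 1 := ⟨L - 1, by omega⟩
  rw [prod_range_succ', prod_range_succ]
  congr 1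
  · refine prod_congr rfl fun j hj => ?_
    rw [mem_range] at hj
    unfold rb
    rw [if_pos (by omega), if_neg (by omega), Nat.add_sub_cancel]

/-- recursion at the strands `i`, `i + 1` -/
theorem V_rec {L i : ℕ} (hi : i ≤ L) (b : ℕ → ℝ) (hb : b (i + 1) = b i + π / 3) :
    V (L + 2) b = KK (L + 2) i b • In i (V L (rem i b)) := by
  induction i generalizing b with
  | zero =>
    have h := V_rec0 L b hb
    have e : rem 0 b = fun j => b (j + 2) := by
      funext j
      simp [rem]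
    rw [e]
    exact h
  | succ i ih =>
    set b' := rc_rot (L + 2) b with hb'
    have hbb : rb (L + 2) b' = b := rc_rb_rot (by omega) b
    have h0 : ∀ j, j < L + 1 → b' j = b (j + 1) := by
      intro j hj
      rw [hb']
      unfold rc_rot
      rw [if_pos (by omega), if_neg (by omega)]
    have h1 : b' (L + 1) = b 0 := by
      rw [hb']
      unfold rc_rot
      rw [if_pos (by omega), if_pos rfl]
    have h2 := ih (by omega) b' (by
      rw [h0 (i + 1) (by omega), h0 i (by omega)]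
      exact hb)
    have h3 : V (L + 2) b = Rel (rtn (L + 2)) (V (L + 2) b') := by
      rw [← V_rb, hbb]
    have h4 : ∀ j < L, rb L (rem i b') j = rem (i + 1) b j := by
      intro j hj
      unfold rb rem
      rw [if_pos hj]
      by_cases hj0 : j = 0
      · subst hj0
        rw [if_pos rfl, if_neg (by omega), if_pos (by omega), show L - 1 + 2 = L + 1 by omega, h1]
      · rw [if_neg hj0]
        by_cases hji : j < i + 1
        · rw [if_pos (by omega), if_pos hji, h0 (j - 1) (by omega)]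
          congr 1
          omega
        · rw [if_neg (by omega), if_neg hji, h0 (j - 1 + 2) (by omega)]
          congr 1
          omega
    have h5 : V L (rem (i + 1) b) = Rel (rtn L) (V L (rem i b')) := by
      rw [← V_rb]
      exact (V_congr L h4).symm
    have h6 : KK (L + 2) i b' = KK (L + 2) (i + 1) b := by
      rw [rc_KK_eq (by omega), rc_KK_eq hi]
      unfold rc_K
      rw [h0 i (by omega), ← rc_prod_rb (by omega) (rem i b') (fun y => s (y - b (i + 1)) ^ 2)]
      congr 1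
      refine prod_congr rfl fun j hj => ?_
      rw [mem_range] at hj
      rw [h4 j hj]
    rw [h3, h2, map_smul, rc_Rt_In (by omega), h5, h6]

theorem Z_rec (L : ℕ) (b : ℕ → ℝ) (hb : b 1 = b 0 + π / 3) :
    Z (L + 2) b = KK (L + 2) 0 b * Z L (fun j => b (j + 2)) := by
  unfold Z
  rw [V_rec0 L b hb, map_smul, smul_eq_mul, tot_In]
end IPC
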