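import Pool.Agent.Helper64.IPC.BB
/-! MODULE BC: noncrossing pairings.
General lemma `pr_NCp`: `pr x y` preserves `NCp m N p` on pairings if the nodes `x`, `y` are cyclic
neighbours for the position function `p` (nothing strictly between, or everything between).
(The partners `x'` of `x`, `y'` of `y` get joined; an arc crossing `{x', y'}` would cross `{x, x'}` or `{y, y'}`.) -/
namespace IPC
open IP Finset

/-- `p` separates the nodes `m, ..., N-1` -/
def Inj (m N : ℕ) (p : ℕ → ℕ) : Prop := ∀ x y, m ≤ x → x < N → m ≤ y → y < N → p x = p y → x = y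

/-- `x`, `y` are cyclic neighbours -/
def Nb (m N : ℕ) (p : ℕ → ℕ) (x y : ℕ) : Prop :=
  (∀ z, m ≤ z → z < N → z ≠ x → z ≠ y → ((p z < p x ∧ p z < p y) ∨ (p x < p z ∧ p y < p z))) ∨
  (∀ z, m ≤ z → z < N → z ≠ x → z ≠ y → ((p x < p z ∧ p z < p y) ∨ (p y < p z ∧ p z < p x)))

/-- two elements of a block different from a third one are equal -/
theorem bc_uniq {N : ℕ} {σ : St} (hσ : σ ∈ PP N) {x u v : ℕ} (hx : x < N) (hu : σ u x) (hv : σ v x)
    (hux : u ≠ x) (hvx : v ≠ x) : u = v := by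
  obtain ⟨y, _, _, hy⟩ := hσ.1 x hx
  have h1 := (hy u).1 (σ.symm hu)
  have h2 := (hy v).1 (σ.symm hv)
  rcases h1 with h1 | h1
  · exact absurd h1 hux
  · rcases h2 with h2 | h2
    · exact absurd h2 hvx
    · rw [h1, h2]

/-- the same side of an arc -/
theorem bc_side {m N : ℕ} {p : ℕ → ℕ} {x y : ℕ} (hn : Nb m N p x y) {b d : ℕ} (hb : m ≤ b)
    (hb' : b < N) (hd : m ≤ d) (hd' : d < N) (hbx : b ≠ x) (hby : b ≠ y) (hdx : d ≠ x) (hdy : d ≠ y)
    (hbd : p b < p d) :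
    ((p b < p x ∧ p x < p d) ∧ (p b < p y ∧ p y < p d)) ∨
      ((p x < p b ∨ p d < p x) ∧ (p y < p b ∨ p d < p y)) := by
  rcases hn with hn | hn
  · have h1 := hn b hb hb' hbx hby
    have h2 := hn d hd hd' hdx hdy
    omega
  · have h1 := hn b hb hb' hbx hby
    have h2 := hn d hd hd' hdx hdy
    omega

/-- no arc crosses an arc through `x` and `y` -/
theorem bc_arc {m N : ℕ} {p : ℕ → ℕ} {x y : ℕ} (hx : m ≤ x) (hx' : x < N) (hy : m ≤ y)
    (hy' : y < N) (hn : Nb m N p x y) {σ : St} (h : σ ∈ NCp m N p) {a b c d : ℕ} (ha : m ≤ a)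
    (hb : m ≤ b) (hc : m ≤ c) (hd : m ≤ d) (ha' : a < N) (hb' : b < N) (hc' : c < N) (hd' : d < N)
    (hab : p a < p b) (hbc : p b < p c) (hcd : p c < p d) (hbx : b ≠ x) (hby : b ≠ y) (hdx : d ≠ x)
    (hdy : d ≠ y) (h1 : σ a x) (h2 : σ y c) (h3 : σ b d) : False := by
  rcases bc_side hn hb hb' hd hd' hbx hby hdx hdy (by omega) with h4 | h4
  · exact h a b x d ha hb hx hd ha' hb' hx' hd' hab h4.1.1 h4.1.2 h1 h3
  · rcases h4.2 with h5 | h5
    · exact h y b c d hy hb hc hd hy' hb' hc' hd' h5 hbc hcd h2 h3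
    · exact h b c d y hb hc hd hy hb' hc' hd' hy' hbc hcd h5 h3 (σ.symm h2)

/-- the other orientation -/
theorem bc_arc' {m N : ℕ} {p : ℕ → ℕ} {x y : ℕ} (hx : m ≤ x) (hx' : x < N) (hy : m ≤ y)
    (hy' : y < N) (hn : Nb m N p x y) {σ : St} (h : σ ∈ NCp m N p) {a b c d : ℕ} (ha : m ≤ a)
    (hb : m ≤ b) (hc : m ≤ c) (hd : m ≤ d) (ha' : a < N) (hb' : b < N) (hc' : c < N) (hd' : d < N)
    (hab : p a < p b) (hbc : p b < p c) (hcd : p c < p d) (hax : a ≠ x) (hay : a ≠ y) (hcx : c ≠ x)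
    (hcy : c ≠ y) (h1 : σ b x) (h2 : σ y d) (h3 : σ a c) : False := by
  rcases bc_side hn ha ha' hc hc' hax hay hcx hcy (by omega) with h4 | h4
  · exact h a y c d ha hy hc hd ha' hy' hc' hd' h4.2.1 h4.2.2 hcd h3 h2
  · rcases h4.1 with h5 | h5
    · exact h x a b c hx ha hb hc hx' ha' hb' hc' h5 hab hbc (σ.symm h1) h3
    · exact h a b c x ha hb hc hx ha' hb' hc' hx' hab hbc h5 h3 h1

theorem Nb_symm {m N : ℕ} {p : ℕ → ℕ} {x y : ℕ} (h : Nb m N p x y) : Nb m N p y x := by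
  rcases h with h | h
  · left
    intro z h1 h2 h3 h4
    have := h z h1 h2 h4 h3
    omega
  · right
    intro z h1 h2 h3 h4
    have := h z h1 h2 h4 h3
    omega

theorem pr_NCp {m N : ℕ} {p : ℕ → ℕ} (hp : Inj m N p) {x y : ℕ} (hx : m ≤ x) (hx' : x < N) (hy : m ≤ y)
    (hy' : y < N) (hxy : x ≠ y) (hn : Nb m N p x y) {σ : St} (hσ : σ ∈ PP N)
    (hm : ∀ z, m ≤ z → ∀ w, σ z w → m ≤ w) (h : σ ∈ NCp m N p) : pr x y σ ∈ NCp m N p := by
  intro a b c d ha hb hc hd ha' hb' hc' hd' hab hbc hcd hac hbd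
  rw [pr_iff] at hac hbd
  have hab' : a ≠ b := by rintro rfl; omega
  have hac' : a ≠ c := by rintro rfl; omega
  have had' : a ≠ d := by rintro rfl; omega
  have hbc' : b ≠ c := by rintro rfl; omega
  have hbd' : b ≠ d := by rintro rfl; omega
  have hcd' : c ≠ d := by rintro rfl; omega
  rcases hac with hac | hac | ⟨ha1, hc1, hac⟩
  · exact hac' hac
  · -- `{a, c} = {x, y}`
    rcases hbd with hbd | hbd | ⟨hb1, hd1, hbd⟩
    · exact hbd' hbd
    · omega
    · rcases hn with hn | hn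
      · have h1 := hn b hb hb' hb1.1 hb1.2
        rcases hac with ⟨rfl | rfl, rfl | rfl⟩ <;> omega
      · have h1 := hn d hd hd' hd1.1 hd1.2
        rcases hac with ⟨rfl | rfl, rfl | rfl⟩ <;> omega
  · rcases hbd with hbd | hbd | ⟨hb1, hd1, hbd⟩
    · exact hbd' hbd
    · rcases hn with hn | hn
      · have h1 := hn c hc hc' hc1.1 hc1.2
        rcases hbd with ⟨rfl | rfl, rfl | rfl⟩ <;> omega
      · have h1 := hn a ha ha' ha1.1 ha1.2
        rcases hbd with ⟨rfl | rfl, rfl | rfl⟩ <;> omega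
    · rcases hac with hac | hac | hac
      · rcases hbd with hbd | hbd | hbd
        · exact h a b c d ha hb hc hd ha' hb' hc' hd' hab hbc hcd hac hbd
        · exact bc_arc' hx hx' hy hy' hn h ha hb hc hd ha' hb' hc' hd' hab hbc hcd ha1.1 ha1.2
            hc1.1 hc1.2 hbd.1 hbd.2 hac
        · exact bc_arc' hy hy' hx hx' (Nb_symm hn) h ha hb hc hd ha' hb' hc' hd' hab hbc hcd ha1.2
            ha1.1 hc1.2 hc1.1 hbd.1 hbd.2 hac
      · rcases hbd with hbd | hbd | hbd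
        · exact bc_arc hx hx' hy hy' hn h ha hb hc hd ha' hb' hc' hd' hab hbc hcd hb1.1 hb1.2
            hd1.1 hd1.2 hac.1 hac.2 hbd
        · exact hab' (bc_uniq hσ hx' hac.1 hbd.1 ha1.1 hb1.1)
        · exact had' (bc_uniq hσ hx' hac.1 (σ.symm hbd.2) ha1.1 hd1.1)
      · rcases hbd with hbd | hbd | hbd
        · exact bc_arc hy hy' hx hx' (Nb_symm hn) h ha hb hc hd ha' hb' hc' hd' hab hbc hcd hb1.2
            hb1.1 hd1.2 hd1.1 hac.1 hac.2 hbd
        · exact had' (bc_uniq hσ hy' hac.1 (σ.symm hbd.2) ha1.2 hd1.2)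
        · exact hab' (bc_uniq hσ hy' hac.1 hbd.1 ha1.2 hb1.2)

/-- relabelling by a permutation that changes the positions in an order preserving way -/
theorem rel_NCp {m N : ℕ} {p q : ℕ → ℕ} {e : Equiv.Perm ℕ} (he : ∀ x, (m ≤ e x ∧ e x < N) ↔ (m ≤ x ∧ x < N))
    (ho : ∀ x y, m ≤ x → x < N → m ≤ y → y < N → (p x < p y ↔ q (e x) < q (e y))) {σ : St}
    (h : σ ∈ NCp m N p) : rel e σ ∈ NCp m N q := by
  intro a b c d ha hb hc hd ha' hb' hc' hd' hab hbc hcd hac hbd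
  obtain ⟨a, rfl⟩ := e.surjective a
  obtain ⟨b, rfl⟩ := e.surjective b
  obtain ⟨c, rfl⟩ := e.surjective c
  obtain ⟨d, rfl⟩ := e.surjective d
  rw [rel_iff] at hac hbd
  have h1 := (he a).1 ⟨ha, ha'⟩
  have h2 := (he b).1 ⟨hb, hb'⟩
  have h3 := (he c).1 ⟨hc, hc'⟩
  have h4 := (he d).1 ⟨hd, hd'⟩
  exact h a b c d h1.1 h2.1 h3.1 h4.1 h1.2 h2.2 h3.2 h4.2
    ((ho a b h1.1 h1.2 h2.1 h2.2).2 hab) ((ho b c h2.1 h2.2 h3.1 h3.2).2 hbc)
    ((ho c d h3.1 h3.2 h4.1 h4.2).2 hcd) hac hbd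

/-- change of the positions -/
theorem bc_congr {m N : ℕ} {p q : ℕ → ℕ}
    (ho : ∀ x y, m ≤ x → x < N → m ≤ y → y < N → (p x < p y ↔ q x < q y)) {σ : St}
    (h : σ ∈ NCp m N p) : σ ∈ NCp m N q := by
  intro a b c d ha hb hc hd ha' hb' hc' hd' hab hbc hcd hac hbd
  exact h a b c d ha hb hc hd ha' hb' hc' hd' ((ho a b ha ha' hb hb').2 hab)
    ((ho b c hb hb' hc hc').2 hbc) ((ho c d hc hc' hd hd').2 hcd) hac hbd

/-- cyclic rotation of the positions -/
theorem bc_up {m N T : ℕ} {p q : ℕ → ℕ} (hT : ∀ x, m ≤ x → x < N → p x ≤ T)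
    (hq : ∀ x, m ≤ x → x < N → q x = if p x = T then 0 else p x + 1) {σ : St}
    (h : σ ∈ NCp m N p) : σ ∈ NCp m N q := by
  intro a b c d ha hb hc hd ha' hb' hc' hd' hab hbc hcd hac hbd
  have ea := hq a ha ha'
  have eb := hq b hb hb'
  have ec := hq c hc hc'
  have ed := hq d hd hd'
  have ta := hT a ha ha'
  have tb := hT b hb hb'
  have tc := hT c hc hc'
  have td := hT d hd hd'
  by_cases h1 : p a = T
  · rw [if_pos h1] at ea
    have nb : ¬ p b = T := by intro h2; rw [if_pos h2] at eb; omega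
    rw [if_neg nb] at eb
    have nc : ¬ p c = T := by intro h2; rw [if_pos h2] at ec; omega
    rw [if_neg nc] at ec
    have nd : ¬ p d = T := by intro h2; rw [if_pos h2] at ed; omega
    rw [if_neg nd] at ed
    exact h b c d a hb hc hd ha hb' hc' hd' ha' (by omega) (by omega) (by omega) hbd (σ.symm hac)
  · rw [if_neg h1] at ea
    have nb : ¬ p b = T := by intro h2; rw [if_pos h2] at eb; omega
    rw [if_neg nb] at eb
    have nc : ¬ p c = T := by intro h2; rw [if_pos h2] at ec; omega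
    rw [if_neg nc] at ec
    have nd : ¬ p d = T := by intro h2; rw [if_pos h2] at ed; omega
    rw [if_neg nd] at ed
    exact h a b c d ha hb hc hd ha' hb' hc' hd' (by omega) (by omega) (by omega) hac hbd

theorem bc_down {m N T : ℕ} {p q : ℕ → ℕ} (hT : ∀ x, m ≤ x → x < N → p x ≤ T)
    (hq : ∀ x, m ≤ x → x < N → q x = if p x = 0 then T else p x - 1) {σ : St}
    (h : σ ∈ NCp m N p) : σ ∈ NCp m N q := by
  intro a b c d ha hb hc hd ha' hb' hc' hd' hab hbc hcd hac hbd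
  have ea := hq a ha ha'
  have eb := hq b hb hb'
  have ec := hq c hc hc'
  have ed := hq d hd hd'
  have ta := hT a ha ha'
  have tb := hT b hb hb'
  have tc := hT c hc hc'
  have td := hT d hd hd'
  by_cases h1 : p d = 0
  · rw [if_pos h1] at ed
    have nb : ¬ p b = 0 := by intro h2; rw [if_pos h2] at eb; omega
    rw [if_neg nb] at eb
    have nc : ¬ p c = 0 := by intro h2; rw [if_pos h2] at ec; omega
    rw [if_neg nc] at ec
    have na : ¬ p a = 0 := by intro h2; rw [if_pos h2] at ea; omega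
    rw [if_neg na] at ea
    exact h d a b c hd ha hb hc hd' ha' hb' hc' (by omega) (by omega) (by omega) (σ.symm hbd) hac
  · rw [if_neg h1] at ed
    have h0 : ∀ y, p y ≤ T → q y = (if p y = 0 then T else p y - 1) → q y ≤ T := by
      intro y h3 h4
      split_ifs at h4 <;> omega
    have hdT : q d ≤ T := by omega
    have nb : ¬ p b = 0 := by intro h2; rw [if_pos h2] at eb; omega
    rw [if_neg nb] at eb
    have nc : ¬ p c = 0 := by intro h2; rw [if_pos h2] at ec; omega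
    rw [if_neg nc] at ec
    have na : ¬ p a = 0 := by intro h2; rw [if_pos h2] at ea; omega
    rw [if_neg na] at ea
    exact h a b c d ha hb hc hd ha' hb' hc' hd' (by omega) (by omega) (by omega) hac hbd

theorem bc_rev {m N T : ℕ} {p q : ℕ → ℕ} (hT : ∀ x, m ≤ x → x < N → p x ≤ T)
    (hq : ∀ x, m ≤ x → x < N → q x = T - p x) {σ : St}
    (h : σ ∈ NCp m N p) : σ ∈ NCp m N q := by
  intro a b c d ha hb hc hd ha' hb' hc' hd' hab hbc hcd hac hbd
  have ea := hq a ha ha'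
  have eb := hq b hb hb'
  have ec := hq c hc hc'
  have ed := hq d hd hd'
  have ta := hT a ha ha'
  have tb := hT b hb hb'
  have tc := hT c hc hc'
  have td := hT d hd hd'
  exact h d c b a hd hc hb ha hd' hc' hb' ha' (by omega) (by omega) (by omega) (σ.symm hbd)
    (σ.symm hac)

theorem bc_ps_lt {L x : ℕ} (h : 4 ≤ x) (h' : x < 2 * L + 4) : ps L x ≤ 2 * L - 1 := by
  unfold ps
  split_ifs <;> omega

theorem bc_ps_inj (L : ℕ) : Inj 4 (2 * L + 4) (ps L) := by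
  intro x y hx hx' hy hy' h
  unfold ps at h
  split_ifs at h <;> omega

theorem bc_low_W {L : ℕ} {σ : St} (hσ : σ ∈ W L) : ∀ z, 4 ≤ z → ∀ w, σ z w → 4 ≤ w := by
  obtain ⟨h0, h1, h2, h3⟩ := W_blocks hσ
  intro z hz w hw
  by_contra hlt
  have hw' : w = 0 ∨ w = 1 ∨ w = 2 ∨ w = 3 := by omega
  rcases hw' with rfl | rfl | rfl | rfl
  · have := (h0 z).1 (σ.symm hw); omega
  · have := (h1 z).1 (σ.symm hw); omega
  · have := (h2 z).1 (σ.symm hw); omega
  · have := (h3 z).1 (σ.symm hw); omega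

theorem bc_low_pr {m x y : ℕ} (hx : m ≤ x) (hy : m ≤ y) {σ : St}
    (hm : ∀ z, m ≤ z → ∀ w, σ z w → m ≤ w) : ∀ z, m ≤ z → ∀ w, pr x y σ z w → m ≤ w := by
  intro z hz w hw
  rw [pr_iff] at hw
  rcases hw with rfl | hw | ⟨_, _, hw | hw | hw⟩
  · exact hz
  · omega
  · exact hm z hz w hw
  · exact hm y hy w hw.2
  · exact hm x hx w hw.2

theorem bc_nb_ps {L i : ℕ} (h : i + 1 < L) (e : ℕ) (he : e < 2) :
    Nb 4 (2 * L + 4) (ps L) (2 * i + 4 + e) (2 * i + 6 + e) := by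
  left
  intro z hz hz' h1 h2
  unfold ps
  have he' : e = 0 ∨ e = 1 := by omega
  rcases he' with rfl | rfl
  · rw [if_pos (show (2 * i + 4 + 0) % 2 = 0 by omega), if_pos (show (2 * i + 6 + 0) % 2 = 0 by omega)]
    split_ifs <;> omega
  · rw [if_neg (show ¬ (2 * i + 4 + 1) % 2 = 0 by omega), if_neg (show ¬ (2 * i + 6 + 1) % 2 = 0 by omega)]
    split_ifs <;> omega

theorem Es_NC {L i : ℕ} (h : i + 1 < L) {σ : St} (hσ : σ ∈ W L) (h2 : σ ∈ NC L) :
    pr (2 * i + 4) (2 * i + 6) (pr (2 * i + 5) (2 * i + 7) σ) ∈ NC L := by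
  have hP : σ ∈ PP (2 * L + 4) := hσ.1.1
  have h3 : pr (2 * i + 5) (2 * i + 7) σ ∈ NCp 4 (2 * L + 4) (ps L) :=
    pr_NCp (bc_ps_inj L) (by omega) (by omega) (by omega) (by omega) (by omega)
      (bc_nb_ps h 1 (by omega)) hP (bc_low_W hσ) h2
  exact pr_NCp (bc_ps_inj L) (by omega) (by omega) (by omega) (by omega) (by omega)
      (bc_nb_ps h 0 (by omega)) (pr_PP (by omega) (by omega) (by omega) hP)
      (bc_low_pr (by omega) (by omega) (bc_low_W hσ)) h3

theorem bc_rtn_apply (L x : ℕ) : rtn L x =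
    if x < 4 ∨ 2 * L + 4 ≤ x then x else if x < 2 * L + 2 then x + 2 else 2 * L + 7 - x := rfl

theorem bc_rtn_symm_apply (L x : ℕ) : (rtn L).symm x =
    if x < 4 ∨ 2 * L + 4 ≤ x then x else if 6 ≤ x then x - 2 else 2 * L + 7 - x := rfl

theorem bc_rvn_apply (L x : ℕ) : rvn L x = if x < 4 ∨ 2 * L + 4 ≤ x then x else 2 * L + 7 - x := rfl

theorem bc_rtn_ps {L x : ℕ} (h : 4 ≤ x) (h' : x < 2 * L + 4) :
    ps L (rtn L x) = if ps L x = 2 * L - 1 then 0 else ps L x + 1 := by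
  rw [bc_rtn_apply, if_neg (by omega)]
  by_cases h1 : x < 2 * L + 2
  · rw [if_pos h1]
    unfold ps
    by_cases h2 : x % 2 = 0
    · rw [if_pos (show (x + 2) % 2 = 0 by omega), if_pos h2, if_neg (by omega)]
      omega
    · rw [if_neg (show ¬ (x + 2) % 2 = 0 by omega), if_neg h2, if_neg (by omega)]
      omega
  · rw [if_neg h1]
    unfold ps
    by_cases h2 : x % 2 = 0
    · rw [if_neg (show ¬ (2 * L + 7 - x) % 2 = 0 by omega), if_pos h2, if_neg (by omega)]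
      omega
    · rw [if_pos (show (2 * L + 7 - x) % 2 = 0 by omega), if_neg h2, if_pos (by omega)]
      omega

theorem bc_rtns_ps {L x : ℕ} (h : 4 ≤ x) (h' : x < 2 * L + 4) :
    ps L ((rtn L).symm x) = if ps L x = 0 then 2 * L - 1 else ps L x - 1 := by
  rw [bc_rtn_symm_apply, if_neg (by omega)]
  by_cases h1 : 6 ≤ x
  · rw [if_pos h1]
    unfold ps
    by_cases h2 : x % 2 = 0
    · rw [if_pos (show (x - 2) % 2 = 0 by omega), if_pos h2, if_neg (by omega)]
      omega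
    · rw [if_neg (show ¬ (x - 2) % 2 = 0 by omega), if_neg h2, if_neg (by omega)]
      omega
  · rw [if_neg h1]
    unfold ps
    by_cases h2 : x % 2 = 0
    · rw [if_neg (show ¬ (2 * L + 7 - x) % 2 = 0 by omega), if_pos h2, if_pos (by omega)]
      omega
    · rw [if_pos (show (2 * L + 7 - x) % 2 = 0 by omega), if_neg h2, if_neg (by omega)]
      omega

theorem bc_rvn_ps {L x : ℕ} (h : 4 ≤ x) (h' : x < 2 * L + 4) :
    ps L (rvn L x) = (2 * L - 1) - ps L x := by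
  rw [bc_rvn_apply, if_neg (by omega)]
  unfold ps
  by_cases h2 : x % 2 = 0
  · rw [if_neg (show ¬ (2 * L + 7 - x) % 2 = 0 by omega), if_pos h2]
    omega
  · rw [if_pos (show (2 * L + 7 - x) % 2 = 0 by omega), if_neg h2]
    omega

theorem bc_range {N : ℕ} {e : Equiv.Perm ℕ} (h4 : ∀ x, 4 ≤ e x ↔ 4 ≤ x) (hN : ∀ x, e x < N ↔ x < N)
    (x : ℕ) : (4 ≤ e x ∧ e x < N) ↔ (4 ≤ x ∧ x < N) := by
  rw [h4, hN]

theorem bc_rtn_four (L x : ℕ) : 4 ≤ rtn L x ↔ 4 ≤ x := by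
  rw [bc_rtn_apply]
  split_ifs <;> omega

theorem bc_rtns_four (L x : ℕ) : 4 ≤ (rtn L).symm x ↔ 4 ≤ x := by
  have := bc_rtn_four L ((rtn L).symm x)
  rw [Equiv.apply_symm_apply] at this
  exact this.symm

theorem bc_rtns_lt (L x : ℕ) : (rtn L).symm x < 2 * L + 4 ↔ x < 2 * L + 4 := by
  have := rtn_lt L ((rtn L).symm x)
  rw [Equiv.apply_symm_apply] at this
  exact this.symm

theorem bc_rvn_four (L x : ℕ) : 4 ≤ rvn L x ↔ 4 ≤ x := by
  rw [bc_rvn_apply]
  split_ifs <;> omega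

theorem rt_NC {L : ℕ} {σ : St} (hσ : σ ∈ W L) (h2 : σ ∈ NC L) : rel (rtn L) σ ∈ NC L := by
  have h3 : σ ∈ NCp 4 (2 * L + 4) (fun x => ps L (rtn L x)) :=
    bc_up (p := ps L) (T := 2 * L - 1) (fun x h h' => bc_ps_lt h h')
      (fun x h h' => bc_rtn_ps h h') h2
  exact rel_NCp (p := fun x => ps L (rtn L x))
    (bc_range (bc_rtn_four L) (rtn_lt L)) (fun _ _ _ _ _ _ => Iff.rfl) h3

theorem rts_NC {L : ℕ} {σ : St} (hσ : σ ∈ W L) (h2 : σ ∈ NC L) : rel (rtn L).symm σ ∈ NC L := by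
  have h3 : σ ∈ NCp 4 (2 * L + 4) (fun x => ps L ((rtn L).symm x)) :=
    bc_down (p := ps L) (T := 2 * L - 1) (fun x h h' => bc_ps_lt h h')
      (fun x h h' => bc_rtns_ps h h') h2
  exact rel_NCp (p := fun x => ps L ((rtn L).symm x))
    (bc_range (bc_rtns_four L) (bc_rtns_lt L)) (fun _ _ _ _ _ _ => Iff.rfl) h3

theorem rv_NC {L : ℕ} {σ : St} (hσ : σ ∈ W L) (h2 : σ ∈ NC L) : rel (rvn L) σ ∈ NC L := by
  have h3 : σ ∈ NCp 4 (2 * L + 4) (fun x => ps L (rvn L x)) :=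
    bc_rev (p := ps L) (T := 2 * L - 1) (fun x h h' => bc_ps_lt h h')
      (fun x h h' => bc_rvn_ps h h') h2
  exact rel_NCp (p := fun x => ps L (rvn L x))
    (bc_range (bc_rvn_four L) (rvn_lt L)) (fun _ _ _ _ _ _ => Iff.rfl) h3

theorem top_NC (L : ℕ) : top L ∈ NC L := by
  intro a b c d ha hb hc hd ha' hb' hc' hd' hab hbc hcd hac hbd
  have h1 : a = c ∨ (a + c = 2 ∧ a ≠ 1) ∨ (a + c = 4 ∧ (a = 1 ∨ a = 3)) ∨
    (a + c = 2 * L + 7 ∧ 4 ≤ a ∧ 4 ≤ c) := hac
  have h2 : b = d ∨ (b + d = 2 ∧ b ≠ 1) ∨ (b + d = 4 ∧ (b = 1 ∨ b = 3)) ∨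
    (b + d = 2 * L + 7 ∧ 4 ≤ b ∧ 4 ≤ d) := hbd
  have h3 : a + c = 2 * L + 7 := by
    rcases h1 with rfl | h1 | h1 | h1
    · omega
    · omega
    · omega
    · exact h1.1
  have h4 : b + d = 2 * L + 7 := by
    rcases h2 with rfl | h2 | h2 | h2
    · omega
    · omega
    · omega
    · exact h2.1
  have e1 := bc_rvn_ps ha ha'
  have e2 := bc_rvn_ps hb hb'
  rw [bc_rvn_apply, if_neg (by omega), show 2 * L + 7 - a = c by omega] at e1
  rw [bc_rvn_apply, if_neg (by omega), show 2 * L + 7 - b = d by omega] at e2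
  have h5 := bc_ps_lt ha ha'
  have h6 := bc_ps_lt hb hb'
  omega

/-! steps of the transfer matrix; positions `pk L k` -/

theorem bc_pk_strand {L k x y : ℕ} (hx : 4 ≤ x) (hx' : x < 2 * L + 4) (hy : 4 ≤ y)
    (hy' : y < 2 * L + 4) : pk L k x < pk L k y ↔ ps L x < ps L y := by
  unfold pk ps
  rw [if_neg (show ¬ x < 2 by omega), if_neg (show ¬ x < 4 by omega),
    if_neg (show ¬ y < 2 by omega), if_neg (show ¬ y < 4 by omega)]
  split_ifs <;> omega

theorem bc_pk_inj {L k : ℕ} (hk : k ≤ L) : Inj 0 (2 * L + 4) (pk L k) := by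
  intro x y _ hx _ hy h
  unfold pk at h
  split_ifs at h <;> omega

theorem start_NC {L : ℕ} {σ : St} (hσ : σ ∈ W L) (h : σ ∈ NC L) : σ ∈ NCp 0 (2 * L + 4) (pk L L) := by
  intro a b c d _ _ _ _ ha' hb' hc' hd' hab hbc hcd hac hbd
  have hlow := bc_low_W hσ
  obtain ⟨h0, h1, h2, h3⟩ := W_blocks hσ
  have p0 : pk L L 0 = 2 * L := by simp [pk]
  have p1 : pk L L 1 = 4 * L + 2 := by simp [pk]; omega
  have p2 : pk L L 2 = 2 * L + 1 := by simp [pk]
  have p3 : pk L L 3 = 4 * L + 3 := by simp [pk]; omega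
  have key : ∀ u v w, σ u w → pk L L u < pk L L v → pk L L v < pk L L w → 4 ≤ u ∧ 4 ≤ w := by
    intro u v w huw hu hw
    by_cases h4 : 4 ≤ u
    · exact ⟨h4, hlow u h4 w huw⟩
    · exfalso
      have hu' : u = 0 ∨ u = 1 ∨ u = 2 ∨ u = 3 := by omega
      rcases hu' with rfl | rfl | rfl | rfl
      · rcases (h0 w).1 huw with rfl | rfl <;> omega
      · rcases (h1 w).1 huw with rfl | rfl <;> omega
      · rcases (h2 w).1 huw with rfl | rfl <;> omega
      · rcases (h3 w).1 huw with rfl | rfl <;> omega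
  have k1 := key a b c hac hab hbc
  have k2 := key b c d hbd hbc hcd
  exact h a b c d k1.1 k2.1 k1.2 k2.2 ha' hb' hc' hd' ((bc_pk_strand k1.1 ha' k2.1 hb').1 hab)
    ((bc_pk_strand k2.1 hb' k1.2 hc').1 hbc) ((bc_pk_strand k1.2 hc' k2.2 hd').1 hcd) hac hbd

theorem bc_gs_apply {k : ℕ} (x : ℕ) : gs 0 (2 * k + 4) 1 (2 * k + 5) x =
    if x = 0 then 2 * k + 4 else if x = 2 * k + 4 then 0 else if x = 1 then 2 * k + 5
      else if x = 2 * k + 5 then 1 else x := by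
  unfold gs
  rw [Equiv.Perm.mul_apply]
  by_cases h1 : x = 0
  · subst h1
    rw [Equiv.swap_apply_of_ne_of_ne (show (0 : ℕ) ≠ 1 by omega) (show (0 : ℕ) ≠ 2 * k + 5 by omega)]
    simp
  · rw [if_neg h1]
    by_cases h2 : x = 2 * k + 4
    · subst h2
      rw [Equiv.swap_apply_of_ne_of_ne (show (2 * k + 4 : ℕ) ≠ 1 by omega)
        (show (2 * k + 4 : ℕ) ≠ 2 * k + 5 by omega)]
      simp
    · rw [if_neg h2]
      by_cases h3 : x = 1
      · subst h3
        rw [Equiv.swap_apply_left, if_pos rfl, Equiv.swap_apply_of_ne_of_ne (by omega) (by omega)]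
      · rw [if_neg h3]
        by_cases h4 : x = 2 * k + 5
        · subst h4
          rw [Equiv.swap_apply_right, if_pos rfl, Equiv.swap_apply_of_ne_of_ne (by omega) (by omega)]
        · rw [if_neg h4, Equiv.swap_apply_of_ne_of_ne h3 h4, Equiv.swap_apply_of_ne_of_ne h1 h2]

theorem bc_gs_pk {L k : ℕ} (hk : k < L) {x : ℕ} (hx : x < 2 * L + 4) :
    pk L k (gs 0 (2 * k + 4) 1 (2 * k + 5) x) =
      if x = 0 ∨ x = 2 * k + 4 ∨ x = 1 ∨ x = 2 * k + 5 then pk L (k + 1) x - 1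
        else pk L (k + 1) x := by
  by_cases h1 : x = 0
  · subst h1
    rw [bc_gs_apply, if_pos rfl, if_pos (by omega)]
    unfold pk
    rw [if_pos (show (2 * k + 4) % 2 = 0 by omega), if_neg (show ¬ 2 * k + 4 < 2 by omega),
      if_neg (show ¬ 2 * k + 4 < 4 by omega), if_pos (show 0 % 2 = 0 by omega),
      if_pos (show 0 < 2 by omega)]
    omega
  by_cases h2 : x = 2 * k + 4
  · subst h2
    rw [bc_gs_apply, if_neg (by omega), if_pos rfl, if_pos (by omega)]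
    unfold pk
    rw [if_pos (show (2 * k + 4) % 2 = 0 by omega), if_neg (show ¬ 2 * k + 4 < 2 by omega),
      if_neg (show ¬ 2 * k + 4 < 4 by omega), if_pos (show 0 % 2 = 0 by omega),
      if_pos (show 0 < 2 by omega)]
    omega
  by_cases h3 : x = 1
  · subst h3
    rw [bc_gs_apply, if_neg (by omega), if_neg (by omega), if_pos rfl, if_pos (by omega)]
    unfold pk
    rw [if_neg (show ¬ (2 * k + 5) % 2 = 0 by omega), if_neg (show ¬ 2 * k + 5 < 2 by omega),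
      if_neg (show ¬ 2 * k + 5 < 4 by omega), if_neg (show ¬ 1 % 2 = 0 by omega),
      if_pos (show 1 < 2 by omega)]
    omega
  by_cases h4 : x = 2 * k + 5
  · subst h4
    rw [bc_gs_apply, if_neg (by omega), if_neg (by omega), if_neg (by omega), if_pos rfl,
      if_pos (by omega)]
    unfold pk
    rw [if_neg (show ¬ (2 * k + 5) % 2 = 0 by omega), if_neg (show ¬ 2 * k + 5 < 2 by omega),
      if_neg (show ¬ 2 * k + 5 < 4 by omega), if_neg (show ¬ 1 % 2 = 0 by omega),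
      if_pos (show 1 < 2 by omega)]
    omega
  rw [bc_gs_apply, if_neg h1, if_neg h2, if_neg h3, if_neg h4, if_neg (by omega)]
  unfold pk
  split_ifs <;> omega

theorem swap_NC {L k : ℕ} (hk : k < L) {σ : St} (hσ : σ ∈ PW L) (h : σ ∈ NCp 0 (2 * L + 4) (pk L (k + 1))) :
    rel (gs 0 (2 * k + 4) 1 (2 * k + 5)) σ ∈ NCp 0 (2 * L + 4) (pk L k) := by
  refine rel_NCp (p := pk L (k + 1)) ?_ ?_ h
  · intro x
    rw [bc_gs_apply]
    split_ifs <;> omega
  · intro x y _ hx _ hy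
    rw [bc_gs_pk hk hx, bc_gs_pk hk hy]
    have hcell : ∀ z, z < 2 * L + 4 → ¬ (z = 0 ∨ z = 2 * k + 4 ∨ z = 1 ∨ z = 2 * k + 5) →
        pk L (k + 1) z < 2 * k ∨ (2 * k + 2 < pk L (k + 1) z ∧
          pk L (k + 1) z < 2 * L + 2 * k + 2) ∨ 2 * L + 2 * k + 4 < pk L (k + 1) z := by
      intro z hz h1
      unfold pk
      split_ifs <;> omega
    have hcell2 : ∀ z, (z = 0 ∨ z = 2 * k + 4 ∨ z = 1 ∨ z = 2 * k + 5) →
        pk L (k + 1) z = 2 * k + 1 ∨ pk L (k + 1) z = 2 * k + 2 ∨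
          pk L (k + 1) z = 2 * L + 2 * k + 3 ∨ pk L (k + 1) z = 2 * L + 2 * k + 4 := by
      intro z h1
      unfold pk
      rcases h1 with rfl | rfl | rfl | rfl
      · simp; omega
      · rw [if_pos (by omega), if_neg (by omega), if_neg (by omega)]; omega
      · simp; omega
      · rw [if_neg (by omega), if_neg (by omega), if_neg (by omega)]; omega
    by_cases hx1 : x = 0 ∨ x = 2 * k + 4 ∨ x = 1 ∨ x = 2 * k + 5
    · rw [if_pos hx1]
      have cx := hcell2 x hx1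
      by_cases hy1 : y = 0 ∨ y = 2 * k + 4 ∨ y = 1 ∨ y = 2 * k + 5
      · rw [if_pos hy1]
        have cy := hcell2 y hy1
        omega
      · rw [if_neg hy1]
        have cy := hcell y hy hy1
        omega
    · rw [if_neg hx1]
      have cx := hcell x hx hx1
      by_cases hy1 : y = 0 ∨ y = 2 * k + 4 ∨ y = 1 ∨ y = 2 * k + 5
      · rw [if_pos hy1]
        have cy := hcell2 y hy1
        omega
      · rw [if_neg hy1]

theorem bc_nb_pk {L k : ℕ} (hk : k < L) (e : ℕ) (he : e < 2) :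
    Nb 0 (2 * L + 4) (pk L (k + 1)) e (2 * k + 4 + e) := by
  left
  intro z _ hz' h1 h2
  have he' : e = 0 ∨ e = 1 := by omega
  rcases he' with rfl | rfl
  · have p1 : pk L (k + 1) 0 = 2 * k + 2 := by simp [pk]; omega
    have p2 : pk L (k + 1) (2 * k + 4 + 0) = 2 * k + 1 := by
      unfold pk
      rw [if_pos (by omega), if_neg (by omega), if_neg (by omega)]
      omega
    rw [p1, p2]
    unfold pk
    split_ifs <;> omega
  · have p1 : pk L (k + 1) 1 = 2 * L + 2 * k + 4 := by simp [pk]; omega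
    have p2 : pk L (k + 1) (2 * k + 4 + 1) = 2 * L + 2 * k + 3 := by
      unfold pk
      rw [if_neg (by omega), if_neg (by omega), if_neg (by omega)]
      omega
    rw [p1, p2]
    unfold pk
    split_ifs <;> omega

theorem gen_NC {L k : ℕ} (hk : k < L) {σ : St} (hσ : σ ∈ PW L) (h : σ ∈ NCp 0 (2 * L + 4) (pk L (k + 1))) :
    pr 0 (2 * k + 4) (pr 1 (2 * k + 5) σ) ∈ NCp 0 (2 * L + 4) (pk L k) := by
  have hP : σ ∈ PP (2 * L + 4) := hσ.1
  have h1 : pr 1 (2 * k + 5) σ ∈ NCp 0 (2 * L + 4) (pk L (k + 1)) :=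
    pr_NCp (bc_pk_inj (by omega)) (by omega) (by omega) (by omega) (by omega) (by omega)
      (bc_nb_pk hk 1 (by omega)) hP (fun _ _ _ _ => Nat.zero_le _) h
  have h2 : pr 0 (2 * k + 4) (pr 1 (2 * k + 5) σ) ∈ NCp 0 (2 * L + 4) (pk L (k + 1)) :=
    pr_NCp (bc_pk_inj (by omega)) (by omega) (by omega) (by omega) (by omega) (by omega)
      (bc_nb_pk hk 0 (by omega)) (pr_PP (by omega) (by omega) (by omega) hP)
      (fun _ _ _ _ => Nat.zero_le _) h1
  have hfl0 : fl 0 = 1 := by decide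
  have hfl1 : fl (2 * k + 4) = 2 * k + 5 := by
    change (if (2 * k + 4) % 2 = 0 then 2 * k + 4 + 1 else 2 * k + 4 - 1) = 2 * k + 5
    rw [if_pos (by omega)]
  have h3 : pr 0 (2 * k + 4) (pr 1 (2 * k + 5) σ) ∈ PW L :=
    prpr_PW (by omega) (by omega) (by omega) (by omega) hfl0 hfl1 hσ
  have h4 := swap_NC hk h3 h2
  have h5 : rel (gs 0 (2 * k + 4) 1 (2 * k + 5)) (pr 0 (2 * k + 4) (pr 1 (2 * k + 5) σ)) =
      pr 0 (2 * k + 4) (pr 1 (2 * k + 5) σ) := by
    unfold gs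
    rw [← rel_rel, pr_disj (by omega) (by omega) (by omega) (by omega), swap_pr,
      pr_disj (by omega) (by omega) (by omega) (by omega), swap_pr]
  rw [h5] at h4
  exact h4

theorem close_NC {L : ℕ} {σ : St} (hσ : σ ∈ PW L) (h : σ ∈ NCp 0 (2 * L + 4) (pk L 0)) :
    rel (Equiv.swap 2 3) (pr 0 3 (pr 1 2 σ)) ∈ NC L := by
  have hP : σ ∈ PP (2 * L + 4) := hσ.1
  have p0 : pk L 0 0 = 0 := by simp [pk]
  have p1 : pk L 0 1 = 2 * L + 2 := by simp [pk]
  have p2 : pk L 0 2 = 2 * L + 1 := by simp [pk]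
  have p3 : pk L 0 3 = 4 * L + 3 := by simp [pk]; omega
  have n1 : Nb 0 (2 * L + 4) (pk L 0) 1 2 := by
    left
    intro z _ hz h1 h2
    rw [p1, p2]
    unfold pk
    split_ifs <;> omega
  have n2 : Nb 0 (2 * L + 4) (pk L 0) 0 3 := by
    right
    intro z _ hz h1 h2
    rw [p0, p3]
    unfold pk
    split_ifs <;> omega
  have h1 : pr 1 2 σ ∈ NCp 0 (2 * L + 4) (pk L 0) :=
    pr_NCp (bc_pk_inj (by omega)) (by omega) (by omega) (by omega) (by omega) (by omega)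
      n1 hP (fun _ _ _ _ => Nat.zero_le _) h
  have h2 : pr 0 3 (pr 1 2 σ) ∈ NCp 0 (2 * L + 4) (pk L 0) :=
    pr_NCp (bc_pk_inj (by omega)) (by omega) (by omega) (by omega) (by omega) (by omega)
      n2 (pr_PP (by omega) (by omega) (by omega) hP) (fun _ _ _ _ => Nat.zero_le _) h1
  intro a b c d ha hb hc hd ha' hb' hc' hd' hab hbc hcd hac hbd
  have hsw : ∀ z, 4 ≤ z → (Equiv.swap 2 3).symm z = z := by
    intro z hz
    rw [Equiv.symm_swap, Equiv.swap_apply_of_ne_of_ne (by omega) (by omega)]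
  rw [rel_iff', hsw a ha, hsw c hc] at hac
  rw [rel_iff', hsw b hb, hsw d hd] at hbd
  exact h2 a b c d (by omega) (by omega) (by omega) (by omega) ha' hb' hc' hd'
    ((bc_pk_strand ha ha' hb hb').2 hab) ((bc_pk_strand hb hb' hc hc').2 hbc)
    ((bc_pk_strand hc hc' hd hd').2 hcd) hac hbd
end IPC
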