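import Pool.Agent.Helper64.IPC.ArmA
import Pool.Agent.Helper64.IPC.BC
/-! MODULE ARMA, part 2: mirror image, no glued strands, `k = 1`. -/
namespace IPC
open IP Finset

theorem am_sh_iff (p q : ℕ) (σ : St) (x y : ℕ) : (sh p q σ) x y ↔
    (x = y ∨ ((x < 2 * p + 4 ∨ 2 * p + 2 * q + 4 ≤ x) ∧ (y < 2 * p + 4 ∨ 2 * p + 2 * q + 4 ≤ y) ∧
    σ (shu p q x) (shu p q y))) := Iff.rfl

theorem am_rtn_pow (L k : ℕ) (hk : k ≤ L) (x : ℕ) : ((rtn L) ^ k) x =
    if x < 4 ∨ 2 * L + 4 ≤ x then x else if x + 2 * k < 2 * L + 4 then x + 2 * k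
    else x + 2 * k + 1 - 2 * L - 2 * (x % 2) := by
  induction k with
  | zero =>
    rw [pow_zero, Equiv.Perm.one_apply]
    split_ifs <;> omega
  | succ k ih =>
    rw [pow_succ', Equiv.Perm.mul_apply, ih (by omega), bb_rtn_val]
    by_cases h1 : x < 4 ∨ 2 * L + 4 ≤ x
    · rw [if_pos h1, if_pos h1, if_pos h1]
    · rw [if_neg h1, if_neg h1]
      by_cases h2 : x + 2 * k < 2 * L + 4
      · rw [if_pos h2]
        split_ifs <;> omega
      · rw [if_neg h2]
        split_ifs <;> omega

/-- the node map of the mirror image, top state -/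
theorem am_mir (a m x : ℕ) : ((rtn (a + m)) ^ a * rvn (a + m)) x =
    if x < 4 ∨ 2 * (a + m) + 4 ≤ x then x else if x < 2 * a + 4 then 2 * a + 6 + 2 * (x % 2) - x
    else 4 * a + 2 * m + 7 - x := by
  rw [Equiv.Perm.mul_apply, am_rtn_pow (a + m) a (by omega), bb_rvn_val]
  by_cases h1 : x < 4 ∨ 2 * (a + m) + 4 ≤ x
  · rw [if_pos h1, if_pos h1, if_pos h1]
  · rw [if_neg h1, if_neg h1]
    split_ifs <;> omega

/-- the common node map -/
def amF (a c m x : ℕ) : ℕ := if x < 4 ∨ 2 * (a + c + m) + 4 ≤ x then x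
  else if x < 2 * a + 4 then 2 * a + 6 + 2 * (x % 2) - x
  else if x < 2 * a + 2 * c + 4 then 4 * a + 2 * c + 6 + 2 * (x % 2) - x
  else 4 * a + 4 * c + 2 * m + 7 - x

theorem am_FF (a c m x : ℕ) : amF a c m (amF a c m x) = x := by
  unfold amF
  by_cases h1 : x < 4 ∨ 2 * (a + c + m) + 4 ≤ x
  · rw [if_pos h1, if_pos h1]
  · rw [if_neg h1]
    by_cases h2 : x < 2 * a + 4
    · rw [if_pos h2, if_neg (by omega), if_pos (by omega)]
      omega
    · rw [if_neg h2]
      by_cases h3 : x < 2 * a + 2 * c + 4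
      · rw [if_pos h3, if_neg (by omega), if_neg (by omega), if_pos (by omega)]
        omega
      · rw [if_neg h3, if_neg (by omega), if_neg (by omega), if_neg (by omega)]
        omega

def amE (a c m : ℕ) : Equiv.Perm ℕ where
  toFun := amF a c m
  invFun := amF a c m
  left_inv := am_FF a c m
  right_inv := am_FF a c m

theorem amE_apply (a c m x : ℕ) : amE a c m x = amF a c m x := rfl

theorem am_top (a c m : ℕ) (σ : St) : sh a c (rel ((rtn (a + m)) ^ a * rvn (a + m)) σ) =
    rel (amE a c m) (sh a c σ) := by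
  apply Setoid.ext
  intro x y
  obtain ⟨x, rfl⟩ := (amE a c m).surjective x
  obtain ⟨y, rfl⟩ := (amE a c m).surjective y
  have hc : ∀ x, (amE a c m x < 2 * a + 4 ∨ 2 * a + 2 * c + 4 ≤ amE a c m x) ↔
      (x < 2 * a + 4 ∨ 2 * a + 2 * c + 4 ≤ x) := by
    intro x
    rw [amE_apply]
    unfold amF
    split_ifs <;> omega
  have hs : ∀ x, (x < 2 * a + 4 ∨ 2 * a + 2 * c + 4 ≤ x) →
      shu a c (amE a c m x) = ((rtn (a + m)) ^ a * rvn (a + m)) (shu a c x) := by
    intro x hx
    rw [am_mir, amE_apply]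
    unfold amF shu
    by_cases h1 : x < 2 * a + 4
    · simp only [h1, if_true]
      split_ifs <;> omega
    · simp only [h1, if_false]
      split_ifs <;> omega
  rw [rel_iff, am_sh_iff, am_sh_iff, (amE a c m).injective.eq_iff, hc, hc]
  constructor
  · rintro (h | ⟨h1, h2, h3⟩)
    · exact Or.inl h
    · rw [hs x h1, hs y h2, rel_iff] at h3
      exact Or.inr ⟨h1, h2, h3⟩
  · rintro (h | ⟨h1, h2, h3⟩)
    · exact Or.inl h
    · refine Or.inr ⟨h1, h2, ?_⟩
      rw [hs x h1, hs y h2, rel_iff]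
      exact h3

theorem am_bot (a c m : ℕ) (τ : St) : sh 0 a (rel ((rtn (c + m)) ^ c * rvn (c + m)) τ) =
    rel (amE a c m) (sh 0 a τ) := by
  apply Setoid.ext
  intro x y
  obtain ⟨x, rfl⟩ := (amE a c m).surjective x
  obtain ⟨y, rfl⟩ := (amE a c m).surjective y
  have hc : ∀ x, (amE a c m x < 2 * 0 + 4 ∨ 2 * 0 + 2 * a + 4 ≤ amE a c m x) ↔
      (x < 2 * 0 + 4 ∨ 2 * 0 + 2 * a + 4 ≤ x) := by
    intro x
    rw [amE_apply]
    unfold amF
    split_ifs <;> omega
  have hs : ∀ x, (x < 2 * 0 + 4 ∨ 2 * 0 + 2 * a + 4 ≤ x) →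
      shu 0 a (amE a c m x) = ((rtn (c + m)) ^ c * rvn (c + m)) (shu 0 a x) := by
    intro x hx
    rw [am_mir]
    by_cases h1 : x < 4
    · have e1 : amE a c m x = x := by
        rw [amE_apply]
        unfold amF
        rw [if_pos (Or.inl h1)]
      have e2 : shu 0 a x = x := by
        unfold shu
        rw [if_pos (by omega)]
      rw [e1, e2, if_pos (Or.inl h1)]
    · have e2 : shu 0 a x = x - 2 * a := by
        unfold shu
        rw [if_neg (by omega)]
      have h3 := (hc x).2 hx
      have e3 : 4 ≤ amE a c m x := by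
        rw [amE_apply]
        unfold amF
        split_ifs <;> omega
      have e1 : shu 0 a (amE a c m x) = amE a c m x - 2 * a := by
        unfold shu
        rw [if_neg (by omega)]
      rw [e1, e2, amE_apply]
      unfold amF
      split_ifs <;> omega
  rw [rel_iff, am_sh_iff, am_sh_iff, (amE a c m).injective.eq_iff, hc, hc]
  constructor
  · rintro (h | ⟨h1, h2, h3⟩)
    · exact Or.inl h
    · rw [hs x h1, hs y h2, rel_iff] at h3
      exact Or.inr ⟨h1, h2, h3⟩
  · rintro (h | ⟨h1, h2, h3⟩)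
    · exact Or.inl h
    · refine Or.inr ⟨h1, h2, ?_⟩
      rw [hs x h1, hs y h2, rel_iff]
      exact h3

/-- relabelling of the dangling ends by the common map -/
def amG (a c i : ℕ) : ℕ := if i < a then a - 1 - i else if i < a + c then 2 * a + c - 1 - i else i

theorem am_FG (a c m i : ℕ) (hi : i < a + c) : amE a c m (2 * i + 4) = 2 * amG a c i + 4 := by
  rw [amE_apply]
  unfold amF amG
  split_ifs <;> omega

/-- MIRROR: reversal of the dangling strands (same copy) and of the glued strands (other copy) -/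
theorem arm_mirror {a c m : ℕ} {σ τ : St} (_hσ : σ ∈ W (a + m)) (_hτ : τ ∈ W (c + m)) :
    arm a c (rel ((rtn (a + m)) ^ a * rvn (a + m)) σ) (rel ((rtn (c + m)) ^ c * rvn (c + m)) τ) ↔
      arm a c σ τ := by
  unfold arm
  rw [am_top, am_bot, rel_sup]
  have hG : ∀ i, i < a + c → amG a c i < a + c ∧ amG a c (amG a c i) = i := by
    intro i hi
    unfold amG
    split_ifs <;> omega
  have key : ∀ i j, i < a + c → j < a + c →
      ((rel (amE a c m) (sh a c σ ⊔ sh 0 a τ)) (2 * i + 4) (2 * j + 4) ↔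
        (sh a c σ ⊔ sh 0 a τ) (2 * amG a c i + 4) (2 * amG a c j + 4)) := by
    intro i j hi hj
    have h1 : 2 * i + 4 = amE a c m (2 * amG a c i + 4) := by
      rw [am_FG a c m _ (hG i hi).1, (hG i hi).2]
    have h2 : 2 * j + 4 = amE a c m (2 * amG a c j + 4) := by
      rw [am_FG a c m _ (hG j hj).1, (hG j hj).2]
    rw [h1, h2, rel_iff]
  constructor
  · intro h i j hij hj hc
    have hi : i < a + c := by omega
    have hGi := hG i hi
    have hGj := hG j hj
    have hne : amG a c i ≠ amG a c j := by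
      intro he
      rw [he] at hGi
      omega
    have hc2 : (rel (amE a c m) (sh a c σ ⊔ sh 0 a τ)) (2 * amG a c i + 4) (2 * amG a c j + 4) := by
      rw [key _ _ hGi.1 hGj.1, hGi.2, hGj.2]
      exact hc
    rcases lt_or_gt_of_ne hne with h1 | h1
    · exact h _ _ h1 hGj.1 hc2
    · exact h _ _ h1 hGi.1 (Setoid.symm' _ hc2)
  · intro h i j hij hj hc
    have hi : i < a + c := by omega
    have hGi := hG i hi
    have hGj := hG j hj
    have hne : amG a c i ≠ amG a c j := by
      intro he
      rw [he] at hGi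
      omega
    rw [key _ _ hi hj] at hc
    rcases lt_or_gt_of_ne hne with h1 | h1
    · exact h _ _ h1 hGj.1 hc
    · exact h _ _ h1 hGi.1 (Setoid.symm' _ hc)

theorem am_shn_or (p q x : ℕ) : shn p q x < 2 * p + 4 ∨ 2 * p + 2 * q + 4 ≤ shn p q x := by
  unfold shn
  split_ifs <;> omega

theorem am_shu_shn (p q x : ℕ) : shu p q (shn p q x) = x := by
  unfold shn shu
  by_cases h : x < 2 * p + 4
  · rw [if_pos h, if_pos h]
  · rw [if_neg h, if_neg (by omega)]
    omega

theorem am_shn_shu (p q x : ℕ) (hx : x < 2 * p + 4 ∨ 2 * p + 2 * q + 4 ≤ x) : shn p q (shu p q x) = x := by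
  unfold shn shu
  by_cases h : x < 2 * p + 4
  · rw [if_pos h, if_pos h]
  · rw [if_neg h, if_neg (by omega)]
    omega

/-- partner function after the insertion of singletons -/
theorem am_partner (p q : ℕ) {σ : St} {P : ℕ → ℕ} (hP : ∀ x, P (P x) = x)
    (h3 : ∀ x z, σ x z ↔ (z = x ∨ z = P x)) : ∃ P' : Equiv.Perm ℕ, (∀ x, P' (P' x) = x) ∧
    (∀ x, 2 * p + 4 ≤ x → x < 2 * p + 2 * q + 4 → P' x = x) ∧
    (∀ x, (x < 2 * p + 4 ∨ 2 * p + 2 * q + 4 ≤ x) → P' x = shn p q (P (shu p q x))) ∧
    ∀ x z, (sh p q σ) x z ↔ (z = x ∨ z = P' x) := by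
  classical
  have hinv : Function.Involutive (fun x => if x < 2 * p + 4 ∨ 2 * p + 2 * q + 4 ≤ x then
      shn p q (P (shu p q x)) else x) := by
    intro x
    by_cases h : x < 2 * p + 4 ∨ 2 * p + 2 * q + 4 ≤ x
    · simp only [h, if_true, am_shn_or, am_shu_shn, hP]
      exact am_shn_shu p q x h
    · simp only [h, if_false]
  refine ⟨hinv.toPerm, hinv, ?_, ?_, ?_⟩
  · intro x h1 h2
    show (if x < 2 * p + 4 ∨ 2 * p + 2 * q + 4 ≤ x then shn p q (P (shu p q x)) else x) = x
    rw [if_neg (by omega)]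
  · intro x h
    show (if x < 2 * p + 4 ∨ 2 * p + 2 * q + 4 ≤ x then shn p q (P (shu p q x)) else x) = _
    rw [if_pos h]
  · intro x z
    show _ ↔ (z = x ∨ z = (if x < 2 * p + 4 ∨ 2 * p + 2 * q + 4 ≤ x then shn p q (P (shu p q x)) else x))
    rw [am_sh_iff, h3]
    by_cases h : x < 2 * p + 4 ∨ 2 * p + 2 * q + 4 ≤ x
    · rw [if_pos h]
      constructor
      · rintro (h1 | ⟨_, h1, h2 | h2⟩)
        · exact Or.inl h1.symm
        · left
          rw [← am_shn_shu p q x h, ← h2, am_shn_shu p q z h1]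
        · right
          rw [← h2, am_shn_shu p q z h1]
      · rintro (h1 | h1)
        · exact Or.inl h1.symm
        · right
          refine ⟨h, ?_, ?_⟩
          · rw [h1]
            exact am_shn_or p q _
          · right
            rw [h1, am_shu_shn]
    · rw [if_neg h]
      constructor
      · rintro (h1 | ⟨h1, _⟩)
        · exact Or.inl h1.symm
        · exact absurd h1 h
      · rintro (h1 | h1) <;> exact Or.inl h1.symm

theorem am_sh_fl (p q : ℕ) (σ : St) : sh p q (rel fl σ) = rel fl (sh p q σ) := by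
  apply Setoid.ext
  intro x y
  obtain ⟨x, rfl⟩ := fl.surjective x
  obtain ⟨y, rfl⟩ := fl.surjective y
  have hc : ∀ x, (fl x < 2 * p + 4 ∨ 2 * p + 2 * q + 4 ≤ fl x) ↔
      (x < 2 * p + 4 ∨ 2 * p + 2 * q + 4 ≤ x) := by
    intro x
    rw [bb_fl_val]
    split_ifs <;> omega
  have hs : ∀ x, (x < 2 * p + 4 ∨ 2 * p + 2 * q + 4 ≤ x) → shu p q (fl x) = fl (shu p q x) := by
    intro x hx
    rw [bb_fl_val, bb_fl_val]
    unfold shu
    by_cases h : x < 2 * p + 4
    · simp only [h, if_true]
      split_ifs <;> omega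
    · simp only [h, if_false]
      split_ifs <;> omega
  rw [rel_iff, am_sh_iff, am_sh_iff, fl.injective.eq_iff, hc, hc]
  constructor
  · rintro (h | ⟨h1, h2, h3⟩)
    · exact Or.inl h
    · rw [hs x h1, hs y h2, rel_iff] at h3
      exact Or.inr ⟨h1, h2, h3⟩
  · rintro (h | ⟨h1, h2, h3⟩)
    · exact Or.inl h
    · refine Or.inr ⟨h1, h2, ?_⟩
      rw [hs x h1, hs y h2, rel_iff]
      exact h3

section ends
variable {P Q : Equiv.Perm ℕ}

theorem am_semQ (hP : ∀ x, P (P x) = x) (hQ : ∀ x, Q (Q x) = x) (k : ℤ) (x : ℕ) :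
    Q (((Q * P) ^ k) x) = ((Q * P) ^ (-k)) (Q x) := by
  have h1 : P * P = 1 := by
    ext x
    rw [Equiv.Perm.mul_apply, hP, Equiv.Perm.one_apply]
  have h2 : Q * Q = 1 := by
    ext x
    rw [Equiv.Perm.mul_apply, hQ, Equiv.Perm.one_apply]
  have h3 : (Q * P)⁻¹ = P * Q := by
    rw [inv_eq_iff_mul_eq_one, mul_assoc, ← mul_assoc P, h1, one_mul, h2]
  have h4 : SemiconjBy Q (Q * P) (Q * P)⁻¹ := by
    unfold SemiconjBy
    rw [h3, ← mul_assoc, h2, one_mul, mul_assoc, h2, mul_one]
  have h5 := h4.zpow_right k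
  unfold SemiconjBy at h5
  rw [inv_zpow'] at h5
  have h6 := DFunLike.congr_fun h5 x
  rwa [Equiv.Perm.mul_apply, Equiv.Perm.mul_apply] at h6

theorem am_semP (hP : ∀ x, P (P x) = x) (hQ : ∀ x, Q (Q x) = x) (k : ℤ) (x : ℕ) :
    P (((Q * P) ^ k) x) = ((Q * P) ^ (-k)) (P x) := by
  have h1 : P * P = 1 := by
    ext x
    rw [Equiv.Perm.mul_apply, hP, Equiv.Perm.one_apply]
  have h2 : Q * Q = 1 := by
    ext x
    rw [Equiv.Perm.mul_apply, hQ, Equiv.Perm.one_apply]
  have h3 : (Q * P)⁻¹ = P * Q := by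
    rw [inv_eq_iff_mul_eq_one, mul_assoc, ← mul_assoc P, h1, one_mul, h2]
  have h4 : SemiconjBy P (Q * P) (Q * P)⁻¹ := by
    unfold SemiconjBy
    rw [h3, mul_assoc]
  have h5 := h4.zpow_right k
  unfold SemiconjBy at h5
  rw [inv_zpow'] at h5
  have h6 := DFunLike.congr_fun h5 x
  rwa [Equiv.Perm.mul_apply, Equiv.Perm.mul_apply] at h6

theorem am_Pu (hP : ∀ x, P (P x) = x) (hQ : ∀ x, Q (Q x) = x) {u : ℕ} (hu : Q u = u) (k : ℤ) :
    P (((Q * P) ^ k) u) = ((Q * P) ^ (-k - 1)) u := by
  rw [am_semP hP hQ, sub_eq_add_neg, zpow_add, Equiv.Perm.mul_apply]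
  congr 1
  rw [zpow_neg_one, eq_comm, Equiv.Perm.inv_eq_iff_eq, Equiv.Perm.mul_apply, hP, hu]

/-- a component of the union of two matchings has at most two ends -/
theorem am_ends (hP : ∀ x, P (P x) = x) (hQ : ∀ x, Q (Q x) = x) {u v w : ℕ} (hu : Q u = u)
    (hv : Q v = v) (hw : P w = w) {k l : ℤ} (h1 : v = ((Q * P) ^ k) u) (h2 : w = ((Q * P) ^ l) u) :
    v = u := by
  set R := Q * P with hR
  have e1 : (R ^ (2 * k)) u = u := by
    have h3 : (R ^ (-k)) u = (R ^ k) u := by
      rw [← h1, ← hv, h1, am_semQ hP hQ, hu]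
    have h4 : (R ^ k) ((R ^ (-k)) u) = (R ^ k) ((R ^ k) u) := by rw [h3]
    rw [← Equiv.Perm.mul_apply, ← Equiv.Perm.mul_apply, ← zpow_add, ← zpow_add, add_neg_cancel,
      zpow_zero, Equiv.Perm.one_apply] at h4
    rw [two_mul]
    exact h4.symm
  have e2 : (R ^ (2 * l + 1)) u = u := by
    have h3 : (R ^ (-l - 1)) u = (R ^ l) u := by
      rw [← h2, ← hw, h2, am_Pu hP hQ hu]
    have h4 : (R ^ (l + 1)) ((R ^ (-l - 1)) u) = (R ^ (l + 1)) ((R ^ l) u) := by rw [h3]
    rw [← Equiv.Perm.mul_apply, ← Equiv.Perm.mul_apply, ← zpow_add, ← zpow_add] at h4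
    have h5 : l + 1 + (-l - 1) = 0 := by ring
    have h6 : l + 1 + l = 2 * l + 1 := by ring
    rw [h5, h6, zpow_zero, Equiv.Perm.one_apply] at h4
    exact h4.symm
  have e3 := Equiv.Perm.zpow_apply_eq_self_of_apply_eq_self e2 k
  have e4 := Equiv.Perm.zpow_apply_eq_self_of_apply_eq_self e1 (-l)
  rw [← zpow_mul] at e3 e4
  rw [h1]
  have h7 : k = (2 * l + 1) * k + 2 * k * -l := by ring
  rw [h7, zpow_add, Equiv.Perm.mul_apply, e4, e3]

theorem am_exists (hP : ∀ x, P (P x) = x) (hQ : ∀ x, Q (Q x) = x) {u N : ℕ} (hu : Q u = u) (huN : u < N)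
    (hPN : ∀ x < N, P x < N) (hQN : ∀ x < N, Q x < N) :
    ∃ k : ℕ, ((Q * P) ^ k) u < N ∧
      ((Q (((Q * P) ^ k) u) = ((Q * P) ^ k) u ∧ ((Q * P) ^ k) u ≠ u) ∨ P (((Q * P) ^ k) u) = ((Q * P) ^ k) u) := by
  classical
  have hN : ∀ k : ℕ, ((Q * P) ^ k) u < N := by
    intro k
    induction k with
    | zero => exact huN
    | succ k ih =>
      rw [pow_succ', Equiv.Perm.mul_apply, Equiv.Perm.mul_apply]
      exact hQN _ (hPN _ ih)
  have hex : ∃ n : ℕ, 0 < n ∧ ((Q * P) ^ n) u = u := by
    obtain ⟨i, j, hij, he⟩ := Finite.exists_ne_map_eq_of_infinite (fun k : ℕ => (⟨((Q * P) ^ k) u, hN k⟩ : Fin N))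
    have he' : ((Q * P) ^ i) u = ((Q * P) ^ j) u := congrArg Fin.val he
    have key : ∀ i j : ℕ, i < j → ((Q * P) ^ i) u = ((Q * P) ^ j) u → ∃ n : ℕ, 0 < n ∧ ((Q * P) ^ n) u = u := by
      intro i j hij he
      refine ⟨j - i, by omega, ?_⟩
      have h1 : j = i + (j - i) := by omega
      rw [h1, pow_add, Equiv.Perm.mul_apply] at he
      exact (((Q * P) ^ i).injective he).symm
    rcases lt_or_gt_of_ne hij with h | h
    · exact key i j h he'
    · exact key j i h he'.symm
  obtain ⟨hn0, hn⟩ := Nat.find_spec hex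
  have hmin := fun m hm => Nat.find_min hex (m := m) hm
  set n := Nat.find hex
  rcases Nat.even_or_odd' n with ⟨k, hk | hk⟩
  · refine ⟨k, hN k, Or.inl ⟨?_, ?_⟩⟩
    · rw [← zpow_natCast, am_semQ hP hQ, hu]
      have h1 : ((Q * P) ^ (-(k : ℤ))) (((Q * P) ^ n) u) = ((Q * P) ^ (k : ℤ)) u := by
        rw [← Equiv.Perm.mul_apply, ← zpow_natCast (Q * P) n, ← zpow_add, hk]
        congr 2
        push_cast
        ring
      rw [hn] at h1
      exact h1
    · intro h
      exact hmin k (by omega) ⟨by omega, h⟩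
  · refine ⟨k, hN k, Or.inr ?_⟩
    rw [← zpow_natCast, am_Pu hP hQ hu]
    have h1 : ((Q * P) ^ (-(k : ℤ) - 1)) (((Q * P) ^ n) u) = ((Q * P) ^ (k : ℤ)) u := by
      rw [← Equiv.Perm.mul_apply, ← zpow_natCast (Q * P) n, ← zpow_add, hk]
      congr 2
      push_cast
      ring
    rw [hn] at h1
    exact h1

end ends

/-- two-arm event: `k = 1` is the hull event -/
theorem arm_one {L : ℕ} {σ τ : St} (hσ : σ ∈ W (L + 1)) (hτ : τ ∈ W (L + 1)) :
    arm 1 1 σ τ ↔ (σ ⊔ τ) 4 5 := by
  obtain ⟨P0, hP0, p1, p2, p3⟩ := bb_partner hσ.1.1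
  obtain ⟨Q0, hQ0, q1, q2, q3⟩ := bb_partner hτ.1.1
  obtain ⟨P, hP, hPg, hPn, hPr⟩ := am_partner 1 1 hP0 p3
  obtain ⟨Q, hQ, hQg, hQn, hQr⟩ := am_partner 0 1 hQ0 q3
  set A : St := sh 1 1 σ ⊔ sh 0 1 τ with hA
  have harm : arm 1 1 σ τ ↔ ¬ A 4 6 := by
    unfold arm
    constructor
    · intro h
      exact h 0 1 (by omega) (by omega)
    · intro h i j hij hj
      have h1 : i = 0 := by omega
      have h2 : j = 1 := by omega
      subst h1 h2
      exact h
  have hAP : ∀ x, A x (P x) := fun x => sup_left ((hPr x _).2 (Or.inr rfl))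
  have hAQ : ∀ x, A x (Q x) := fun x => sup_right ((hQr x _).2 (Or.inr rfl))
  have hQ4 : Q 4 = 4 := hQg 4 (by omega) (by omega)
  have hQ5 : Q 5 = 5 := hQg 5 (by omega) (by omega)
  have hP6 : P 6 = 6 := hPg 6 (by omega) (by omega)
  -- component of 4
  have hC : ∀ x, A 4 x → ∃ k : ℤ, x = ((Q * P) ^ k) 4 := by
    have h1 : ∀ x y, A x y → (Setoid.ker (fun x => ∃ k : ℤ, x = ((Q * P) ^ k) 4)) x y := by
      apply sup_le_of
      · intro x y h
        rw [Setoid.ker_def]
        rcases (hPr x y).1 h with rfl | rfl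
        · rfl
        · apply propext
          constructor
          · rintro ⟨k, rfl⟩
            exact ⟨-k - 1, am_Pu hP hQ hQ4 k⟩
          · rintro ⟨k, hk⟩
            refine ⟨-k - 1, ?_⟩
            rw [← am_Pu hP hQ hQ4 k, ← hk, hP]
      · intro x y h
        rw [Setoid.ker_def]
        rcases (hQr x y).1 h with rfl | rfl
        · rfl
        · apply propext
          constructor
          · rintro ⟨k, rfl⟩
            refine ⟨-k, ?_⟩
            rw [am_semQ hP hQ, hQ4]
          · rintro ⟨k, hk⟩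
            refine ⟨-k, ?_⟩
            have h2 := am_semQ hP hQ k 4
            rw [hQ4, ← hk, hQ] at h2
            exact h2
    intro x hx
    have h2 := h1 4 x hx
    rw [Setoid.ker_def] at h2
    rw [← h2]
    exact ⟨0, by rw [zpow_zero, Equiv.Perm.one_apply]⟩
  -- the collapse
  have hcol : ∀ x y, A x y → (Setoid.comap (fun x => if x < 6 then x else x - 2) (σ ⊔ τ)) x y := by
    apply sup_le_of
    · intro x y h
      rw [Setoid.comap_rel]
      rw [am_sh_iff] at h
      rcases h with rfl | ⟨_, _, h⟩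
      · exact Setoid.refl' _ _
      · exact sup_left h
    · intro x y h
      rw [Setoid.comap_rel]
      rw [am_sh_iff] at h
      rcases h with rfl | ⟨h1, h2, h⟩
      · exact Setoid.refl' _ _
      · have e : ∀ x, (x < 2 * 0 + 4 ∨ 2 * 0 + 2 * 1 + 4 ≤ x) → shu 0 1 x = if x < 6 then x else x - 2 := by
          intro x hx
          unfold shu
          split_ifs <;> omega
        rw [e x h1, e y h2] at h
        exact sup_right h
  have hfl : A 4 6 → A 5 7 := by
    intro h
    have h1 : rel fl A = A := by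
      rw [hA, ← rel_sup, ← am_sh_fl, ← am_sh_fl, hσ.1.2, hτ.1.2]
    have h2 := (rel_iff fl A 4 6).2 h
    rw [h1] at h2
    exact h2
  rw [harm]
  constructor
  · intro h
    obtain ⟨k, hk, hk2⟩ := am_exists (N := 2 * L + 8) hP hQ hQ4 (by omega) (by
      intro x hx
      by_cases hg : x < 2 * 1 + 4 ∨ 2 * 1 + 2 * 1 + 4 ≤ x
      · rw [hPn x hg]
        have h1 : shu 1 1 x < 2 * (L + 1) + 4 := by
          unfold shu
          split_ifs <;> omega
        have h2 := (p1 _ h1).1
        unfold shn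
        split_ifs <;> omega
      · rw [hPg x (by omega) (by omega)]
        exact hx) (by
      intro x hx
      by_cases hg : x < 2 * 0 + 4 ∨ 2 * 0 + 2 * 1 + 4 ≤ x
      · rw [hQn x hg]
        have h1 : shu 0 1 x < 2 * (L + 1) + 4 := by
          unfold shu
          split_ifs <;> omega
        have h2 := (q1 _ h1).1
        unfold shn
        split_ifs <;> omega
      · rw [hQg x (by omega) (by omega)]
        exact hx)
    have hA4 : ∀ k : ℕ, A 4 (((Q * P) ^ k) 4) := by
      intro k
      induction k with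
      | zero => exact Setoid.refl' _ _
      | succ k ih =>
        rw [pow_succ', Equiv.Perm.mul_apply, Equiv.Perm.mul_apply]
        exact Setoid.trans' _ (Setoid.trans' _ ih (hAP _)) (hAQ _)
    have h4 := hA4 k
    set x := ((Q * P) ^ k) 4 with hx
    rcases hk2 with ⟨h5, h6⟩ | h5
    · by_cases hg : x < 2 * 0 + 4 ∨ 2 * 0 + 2 * 1 + 4 ≤ x
      · exfalso
        rw [hQn x hg] at h5
        have h1 : shu 0 1 x < 2 * (L + 1) + 4 := by
          unfold shu
          split_ifs <;> omega
        have h2 := (q1 _ h1).2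
        apply h2
        rw [← am_shu_shn 0 1 (Q0 (shu 0 1 x)), h5]
      · have h7 : x = 5 := by omega
        rw [h7] at h4
        exact hcol 4 5 h4
    · by_cases hg : x < 2 * 1 + 4 ∨ 2 * 1 + 2 * 1 + 4 ≤ x
      · exfalso
        rw [hPn x hg] at h5
        have h1 : shu 1 1 x < 2 * (L + 1) + 4 := by
          unfold shu
          split_ifs <;> omega
        have h2 := (p1 _ h1).2
        apply h2
        rw [← am_shu_shn 1 1 (P0 (shu 1 1 x)), h5]
      · have h7 : x = 6 ∨ x = 7 := by omega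
        rcases h7 with h7 | h7
        · rw [h7] at h4
          exact absurd h4 h
        · rw [h7] at h4
          exact hcol 4 7 h4
  · intro h h46
    have h57 := hfl h46
    have hlift : ∀ x y, (σ ⊔ τ) x y → (Setoid.comap (shn 1 1) A) x y := by
      apply sup_le_of
      · intro x y h
        rw [Setoid.comap_rel]
        apply sup_left
        rw [am_sh_iff]
        exact Or.inr ⟨am_shn_or 1 1 x, am_shn_or 1 1 y, by rw [am_shu_shn, am_shu_shn]; exact h⟩
      · intro x y h
        rw [Setoid.comap_rel]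
        have h1 : A (shn 0 1 x) (shn 0 1 y) := by
          apply sup_right
          rw [am_sh_iff]
          exact Or.inr ⟨am_shn_or 0 1 x, am_shn_or 0 1 y, by rw [am_shu_shn, am_shu_shn]; exact h⟩
        have h2 : ∀ x, A (shn 1 1 x) (shn 0 1 x) := by
          intro x
          by_cases h4 : x = 4
          · subst h4
            exact h46
          · by_cases h5 : x = 5
            · subst h5
              exact h57
            · have e : shn 1 1 x = shn 0 1 x := by
                unfold shn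
                split_ifs <;> omega
              rw [e]
        exact Setoid.trans' _ (Setoid.trans' _ (h2 x) h1) (Setoid.symm' _ (h2 y))
    have h45 : A 4 5 := hlift 4 5 h
    obtain ⟨k, hk⟩ := hC 5 h45
    obtain ⟨l, hl⟩ := hC 6 h46
    have := am_ends hP hQ hQ4 hQ5 hP6 hk hl
    omega

theorem am_eq_top {L : ℕ} {τ : St} (h : τ ∈ W L)
    (h3 : ∀ x y : ℕ, 4 ≤ x → x < 2 * L + 4 → x + y = 2 * L + 7 → τ x y) : τ = top L := by
  have hW := W_blocks h
  ext x z
  rcases lt_or_ge x 4 with hx | hx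
  · have hx' : x = 0 ∨ x = 1 ∨ x = 2 ∨ x = 3 := by omega
    show τ x z ↔ (x = z ∨ (x + z = 2 ∧ x ≠ 1) ∨ (x + z = 4 ∧ (x = 1 ∨ x = 3)) ∨
      (x + z = 2 * L + 7 ∧ 4 ≤ x ∧ 4 ≤ z))
    rcases hx' with rfl | rfl | rfl | rfl
    · rw [hW.1]; omega
    · rw [hW.2.1]; omega
    · rw [hW.2.2.1]; omega
    · rw [hW.2.2.2]; omega
  rcases lt_or_ge x (2 * L + 4) with hx2 | hx2
  · obtain ⟨y, hy, hyx, hyz⟩ := h.1.1.1 x hx2
    have h5 := h3 x (2 * L + 7 - x) hx hx2 (by omega)
    have hy2 : y = 2 * L + 7 - x := by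
      rcases (hyz _).1 h5 with h6 | h6
      · omega
      · exact h6.symm
    show τ x z ↔ (x = z ∨ (x + z = 2 ∧ x ≠ 1) ∨ (x + z = 4 ∧ (x = 1 ∨ x = 3)) ∨
      (x + z = 2 * L + 7 ∧ 4 ≤ x ∧ 4 ≤ z))
    rw [hyz]
    omega
  · show τ x z ↔ (x = z ∨ (x + z = 2 ∧ x ≠ 1) ∨ (x + z = 4 ∧ (x = 1 ∨ x = 3)) ∨
      (x + z = 2 * L + 7 ∧ 4 ≤ x ∧ 4 ≤ z))
    rw [h.1.1.2 x hx2]
    omega

/-- the only noncrossing state without arcs between strands of the copy 0 is the top state -/
theorem am_top_iff {L : ℕ} {σ : St} (hσ : σ ∈ W L) (hσ2 : σ ∈ NC L) :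
    (∀ i j, i < j → j < L → ¬ σ (2 * i + 4) (2 * j + 4)) ↔ σ = top L := by
  constructor
  swap
  · rintro rfl i j hij hj h
    rw [bb_top_iff] at h
    omega
  intro h
  obtain ⟨P, hP, h1, h2, h3⟩ := bb_partner hσ.1.1
  have hlow := bc_low_W hσ
  have hg : ∀ i, i < L → ∃ g, g < L ∧ P (2 * i + 4) = 2 * g + 5 := by
    intro i hi
    have h4 := h1 (2 * i + 4) (by omega)
    have h5 : σ (2 * i + 4) (P (2 * i + 4)) := (h3 _ _).2 (Or.inr rfl)
    have h6 := hlow _ (by omega) _ h5
    rcases Nat.even_or_odd' (P (2 * i + 4)) with ⟨k, hk | hk⟩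
    · exfalso
      have e : P (2 * i + 4) = 2 * (k - 2) + 4 := by omega
      have hne : k - 2 ≠ i := by
        intro he
        rw [he] at e
        exact h4.2 e
      rw [e] at h5
      rcases lt_or_gt_of_ne hne with h7 | h7
      · exact h (k - 2) i h7 hi (σ.symm h5)
      · exact h i (k - 2) h7 (by omega) h5
    · exact ⟨k - 2, by omega, by omega⟩
  choose! g hg1 hg2 using hg
  have anti : ∀ i j, i < j → j < L → g j < g i := by
    intro i j hij hj
    have hi : i < L := by omega
    by_contra hc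
    have hne : g i ≠ g j := by
      intro he
      have h4 : P (2 * i + 4) = P (2 * j + 4) := by rw [hg2 i hi, hg2 j hj, he]
      have h5 := congrArg P h4
      rw [hP, hP] at h5
      omega
    have hlt : g i < g j := by omega
    have k1 := hg1 i hi
    have k2 := hg1 j hj
    refine hσ2 (2 * i + 4) (2 * j + 4) (2 * g i + 5) (2 * g j + 5) (by omega) (by omega) (by omega)
      (by omega) (by omega) (by omega) (by omega) (by omega) ?_ ?_ ?_ ?_ ?_
    · unfold ps
      rw [if_pos (by omega), if_pos (by omega)]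
      omega
    · unfold ps
      rw [if_pos (by omega), if_neg (by omega)]
      omega
    · unfold ps
      rw [if_neg (by omega), if_neg (by omega)]
      omega
    · rw [h3, hg2 i hi]
      exact Or.inr rfl
    · rw [h3, hg2 j hj]
      exact Or.inr rfl
  have up : ∀ i, i < L → g i + i + 1 ≤ L := by
    intro i
    induction i with
    | zero =>
      intro hi
      have := hg1 0 hi
      omega
    | succ i ih =>
      intro hi
      have h4 := ih (by omega)
      have h5 := anti i (i + 1) (by omega) hi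
      omega
  have dn : ∀ k, k < L → L ≤ g (L - 1 - k) + (L - 1 - k) + 1 := by
    intro k
    induction k with
    | zero =>
      intro hk
      omega
    | succ k ih =>
      intro hk
      have h4 := ih (by omega)
      have h5 := anti (L - 1 - (k + 1)) (L - 1 - k) (by omega) (by omega)
      omega
  have hgv : ∀ i, i < L → g i + i + 1 = L := by
    intro i hi
    have h4 := up i hi
    have h5 := dn (L - 1 - i) (by omega)
    have e : L - 1 - (L - 1 - i) = i := by omega
    rw [e] at h5
    omega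
  apply am_eq_top hσ
  have h4 : ∀ x y : ℕ, 4 ≤ x → x % 2 = 0 → x < 2 * L + 4 → x + y = 2 * L + 7 → σ x y := by
    intro x y hx hx2 hx3 hxy
    have h5 := hg2 ((x - 4) / 2) (by omega)
    have h6 := hgv ((x - 4) / 2) (by omega)
    have e : 2 * ((x - 4) / 2) + 4 = x := by omega
    rw [e] at h5
    rw [h3, h5]
    right
    omega
  intro x y hx hx3 hxy
  rcases Nat.mod_two_eq_zero_or_one x with h6 | h6
  · exact h4 x y hx h6 hx3 hxy
  · exact σ.symm (h4 y x (by omega) (by omega) (by omega) (by omega))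

/-- no glued strands -/
theorem arm_zero {a c : ℕ} {σ τ : St} (hσ : σ ∈ W a) (hσ2 : σ ∈ NC a) (hτ : τ ∈ W c) (hτ2 : τ ∈ NC c) :
    arm a c σ τ ↔ (σ = top a ∧ τ = top c) := by
  rw [← am_top_iff hσ hσ2, ← am_top_iff hτ hτ2]
  have hl1 := W_blocks hσ
  have hl2 := W_blocks hτ
  have low1 := bc_low_W hσ
  have low2 := bc_low_W hτ
  -- the join
  have hsup : ∀ x y, (sh a c σ ⊔ sh 0 a τ) x y →
      (Setoid.ker (fun x => if x < 4 then (0 : ℕ) else if x < 2 * a + 4 then 1 else 2)) x y ∧
      (4 ≤ x → x < 2 * a + 4 → σ x y) ∧ (2 * a + 4 ≤ x → x < 2 * a + 2 * c + 4 → τ (x - 2 * a) (y - 2 * a)) := by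
    have hS : ∀ x y, (sh a c σ ⊔ sh 0 a τ) x y →
      (Setoid.ker (fun x => if x < 4 then (0 : ℕ) else if x < 2 * a + 4 then 1 else 2) ⊓
        Setoid.ker (fun x => if x < 4 ∨ 2 * a + 4 ≤ x then (⊥ : Set ℕ) else {y | σ x y}) ⊓
        Setoid.ker (fun x => if x < 2 * a + 4 then (⊥ : Set ℕ) else {y | τ (x - 2 * a) y})) x y := by
      apply sup_le_of
      · intro x y h
        rw [am_sh_iff] at h
        rcases h with rfl | ⟨h1, h2, h3⟩
        · exact Setoid.refl' _ _
        · unfold shu at h3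
          rcases h1 with h1 | h1
          · rw [if_pos h1] at h3
            rcases h2 with h2 | h2
            · rw [if_pos h2] at h3
              have h5 : x < 4 ↔ y < 4 := by
                constructor
                · intro hx
                  by_contra hy
                  exact absurd (low1 y (by omega) x (σ.symm h3)) (by omega)
                · intro hy
                  by_contra hx
                  exact absurd (low1 x (by omega) y h3) (by omega)
              refine ⟨⟨?_, ?_⟩, ?_⟩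
              · rw [Setoid.ker_def]
                split_ifs <;> first | rfl | omega
              · rw [Setoid.ker_def]
                by_cases hx : x < 4
                · rw [if_pos (Or.inl hx), if_pos (Or.inl (h5.1 hx))]
                · rw [if_neg (by omega), if_neg (by omega)]
                  ext z
                  exact ⟨fun h => σ.trans (σ.symm h3) h, fun h => σ.trans h3 h⟩
              · rw [Setoid.ker_def, if_pos h1, if_pos h2]
            · exfalso
              rw [if_neg (by omega)] at h3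
              have h6 := (hσ.1.1.2 (y - 2 * c) (by omega) x).1 (σ.symm h3)
              omega
          · rw [if_neg (by omega)] at h3
            have h6 := (hσ.1.1.2 (x - 2 * c) (by omega) _).1 h3
            rcases h2 with h2 | h2
            · exfalso
              rw [if_pos h2] at h6
              omega
            · rw [if_neg (by omega)] at h6
              have h7 : x = y := by omega
              subst h7
              exact Setoid.refl' _ _
      · intro x y h
        rw [am_sh_iff] at h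
        rcases h with rfl | ⟨h1, h2, h3⟩
        · exact Setoid.refl' _ _
        · unfold shu at h3
          by_cases hx : x < 4
          · rw [if_pos (by omega)] at h3
            have hy : y < 4 := by
              by_contra hy
              rw [if_neg (by omega)] at h3
              exact absurd (low2 (y - 2 * a) (by omega) x (τ.symm h3)) (by omega)
            refine ⟨⟨?_, ?_⟩, ?_⟩
            · rw [Setoid.ker_def]
              split_ifs <;> rfl
            · rw [Setoid.ker_def, if_pos (Or.inl hx), if_pos (Or.inl hy)]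
            · rw [Setoid.ker_def, if_pos (by omega), if_pos (by omega)]
          · rw [if_neg (by omega)] at h3
            have hy : ¬ y < 4 := by
              intro hy
              rw [if_pos (by omega)] at h3
              exact absurd (low2 (x - 2 * a) (by omega) y h3) (by omega)
            rw [if_neg (by omega)] at h3
            refine ⟨⟨?_, ?_⟩, ?_⟩
            · rw [Setoid.ker_def]
              split_ifs <;> first | rfl | omega
            · rw [Setoid.ker_def, if_pos (by omega), if_pos (by omega)]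
            · rw [Setoid.ker_def, if_neg (by omega), if_neg (by omega)]
              ext z
              exact ⟨fun h => τ.trans (τ.symm h3) h, fun h => τ.trans h3 h⟩
    intro x y h
    obtain ⟨⟨h1, h2⟩, h3⟩ := hS x y h
    refine ⟨h1, ?_, ?_⟩
    · intro hx hx2
      rw [Setoid.ker_def, if_neg (by omega)] at h2
      have h1' := h1
      rw [Setoid.ker_def, if_neg (by omega), if_pos hx2] at h1'
      have hy : 4 ≤ y ∧ y < 2 * a + 4 := by
        split_ifs at h1' <;> first | omega | exact ⟨by omega, by omega⟩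
      rw [if_neg (by omega)] at h2
      have h4 : y ∈ {z | σ y z} := σ.refl y
      rw [← h2] at h4
      exact h4
    · intro hx hx2
      rw [Setoid.ker_def, if_neg (by omega)] at h3
      have h1' := h1
      rw [Setoid.ker_def, if_neg (by omega), if_neg (by omega)] at h1'
      have hy : 2 * a + 4 ≤ y := by
        split_ifs at h1' <;> omega
      rw [if_neg (by omega)] at h3
      have h4 : y - 2 * a ∈ {z | τ (y - 2 * a) z} := τ.refl _
      rw [← h3] at h4
      exact h4
  constructor
  · intro h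
    constructor
    · intro i j hij hj hc
      apply h i j hij (by omega)
      apply sup_left
      rw [am_sh_iff]
      refine Or.inr ⟨Or.inl (by omega), Or.inl (by omega), ?_⟩
      unfold shu
      rw [if_pos (by omega), if_pos (by omega)]
      exact hc
    · intro i j hij hj hc
      apply h (a + i) (a + j) (by omega) (by omega)
      apply sup_right
      rw [am_sh_iff]
      refine Or.inr ⟨Or.inr (by omega), Or.inr (by omega), ?_⟩
      unfold shu
      rw [if_neg (by omega), if_neg (by omega)]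
      have e1 : 2 * (a + i) + 4 - 2 * a = 2 * i + 4 := by omega
      have e2 : 2 * (a + j) + 4 - 2 * a = 2 * j + 4 := by omega
      rw [e1, e2]
      exact hc
  · rintro ⟨h1, h2⟩ i j hij hj hc
    obtain ⟨k1, k2, k3⟩ := hsup _ _ hc
    by_cases hi : i < a
    · have k4 := k2 (by omega) (by omega)
      by_cases hj2 : j < a
      · exact h1 i j hij hj2 k4
      · have k5 := (hσ.1.1.2 (2 * j + 4) (by omega) _).1 (σ.symm k4)
        omega
    · have k4 := k3 (by omega) (by omega)
      have e1 : 2 * i + 4 - 2 * a = 2 * (i - a) + 4 := by omega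
      have e2 : 2 * j + 4 - 2 * a = 2 * (j - a) + 4 := by omega
      rw [e1, e2] at k4
      exact h2 (i - a) (j - a) (by omega) (by omega) k4
end IPC
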