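import Pool.Agent.Helper64.IPC.ArmB2
/-! MODULE ARMB: the arm form evaluated at the polynomial solutions.
Definitions `cat`, `AF`: ArmB0; first part (AF_congr, AF_flip, AF_continuous, AF_glued, AF_perm, AF_dangling,
AF_vanish, AF_cycle, AF_TP): ArmB1; second part (AF_mirror, AF_rec, AF_zero): ArmB2. -/
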