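import Pool.Agent.Helper64.IPC.ArmA2
import Pool.Agent.Helper64.IPC.Recur
/-! MODULE ARMB0: definitions of ArmB (`cat`, `AF`).
`AF a c m x x' b`: top state with parameters `x 0..x (a-1)` (dangling), `b 0..b (m-1)` (glued); bottom state with
parameters `-x' 0..-x' (c-1)`, `-b 0..-b (m-1)`. -/
namespace IPC
open IP Finset Real

/-- concatenation of `x 0, ..., x (a-1)` and `b` -/
def cat (a : ℕ) (x b : ℕ → ℝ) : ℕ → ℝ := fun j => if j < a then x j else b (j - a)

/-- the arm form -/
noncomputable def AF (a c m : ℕ) (x x' b : ℕ → ℝ) : ℝ :=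
  bil (arf a c) (V (a + m) (cat a x b)) (V (c + m) (fun j => -cat c x' b j))
end IPC
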