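import Pool.Agent.Helper64.IPC.ArmB0
import Pool.Agent.Lead.IP.TrigC
/-! MODULE ARMB1: elementary properties of the arm form `AF` (first part of ArmB). -/
namespace IPC
open IP Finset Real

/-! ### general tools -/

theorem armb1_univ (v : M) : v ∈ Sup Set.univ := by
  rw [Sup, Finsupp.supported_univ]
  exact Submodule.mem_top

/-- a map of the states applied to the left vector -/
theorem armb1_left (f : St → St → ℝ) (g : St → St) (v w : M) :
    bil f (Finsupp.lmapDomain ℝ ℝ g v) w = bil (fun σ τ => f (g σ) τ) v w := by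
  have h := bil_map (f := f) (f' := fun σ τ => f (g σ) τ) (g := g) (g' := id) (armb1_univ v)
    (armb1_univ w) (fun _ _ _ _ => rfl)
  rw [← h]
  congr 1
  rw [Finsupp.lmapDomain_apply, Finsupp.mapDomain_id]

theorem armb1_right (f : St → St → ℝ) (g : St → St) (v w : M) :
    bil f v (Finsupp.lmapDomain ℝ ℝ g w) = bil (fun σ τ => f σ (g τ)) v w := by
  have h := bil_map (f := f) (f' := fun σ τ => f σ (g τ)) (g := id) (g' := g) (armb1_univ v)
    (armb1_univ w) (fun _ _ _ _ => rfl)
  rw [← h]
  congr 1
  rw [Finsupp.lmapDomain_apply, Finsupp.mapDomain_id]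

theorem armb1_Es_left (f : St → St → ℝ) (i : ℕ) (v w : M) : bil f (Es i v) w =
    bil (fun σ τ => f (pr (2 * i + 4) (2 * i + 6) (pr (2 * i + 5) (2 * i + 7) σ)) τ) v w := by
  show bil f (Finsupp.lmapDomain ℝ ℝ _ (Finsupp.lmapDomain ℝ ℝ _ v)) w = _
  rw [armb1_left, armb1_left]

theorem armb1_Es_right (f : St → St → ℝ) (i : ℕ) (v w : M) : bil f v (Es i w) =
    bil (fun σ τ => f σ (pr (2 * i + 4) (2 * i + 6) (pr (2 * i + 5) (2 * i + 7) τ))) v w := by
  show bil f v (Finsupp.lmapDomain ℝ ℝ _ (Finsupp.lmapDomain ℝ ℝ _ w)) = _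
  rw [armb1_right, armb1_right]

theorem armb1_Rs_apply (i : ℕ) (u : ℝ) (v : M) : Rs i u v = s (-u) • v + Real.sin u • Es i v := rfl

/-- continuous functions that vanish off a countable set vanish -/
theorem armb1_ext {g : ℝ → ℝ} (hg : Continuous g) {S : Set ℝ} (hS : S.Countable)
    (h : ∀ t, t ∉ S → g t = 0) (t : ℝ) : g t = 0 := by
  have hd : Dense Sᶜ := hS.dense_compl ℝ
  have := Continuous.ext_on hd hg (continuous_const (y := (0 : ℝ))) (fun t ht => h t ht)
  exact congrFun this t

theorem armb1_countable (α β : ℝ) (hβ : β ≠ 0) : {t : ℝ | s (α + t * β) = 0}.Countable := by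
  have h := countable_sin_zero' (π / 3 + α) β (Or.inl hβ)
  refine h.mono fun t ht => ?_
  have h1 : s (α + t * β) = 0 := ht
  unfold s at h1
  show Real.sin (π / 3 + α + t * β) = 0
  rw [add_assoc]
  exact h1

/-- invariance under adjacent transpositions implies invariance under transpositions -/
theorem armb1_swap {m : ℕ} {F : (ℕ → ℝ) → ℝ} (hF : ∀ i, i + 1 < m → ∀ b, F (sw i b) = F b) (i : ℕ) :
    ∀ d, i + d + 1 < m → ∀ b, F (fun k => b (Equiv.swap i (i + d + 1) k)) = F b := by
  intro d
  induction d with
  | zero => intro h b; exact hF i h b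
  | succ d ih =>
    intro h b
    have e : (fun k => b (Equiv.swap i (i + (d + 1) + 1) k)) =
        sw (i + d + 1) (fun k => (sw (i + d + 1) b) (Equiv.swap i (i + d + 1) k)) := by
      funext k
      show _ = b (Equiv.swap (i + d + 1) (i + d + 1 + 1) (Equiv.swap i (i + d + 1)
        (Equiv.swap (i + d + 1) (i + d + 1 + 1) k)))
      have h1 := Equiv.swap_mul_swap_mul_swap (x := i) (y := i + d + 1) (z := i + d + 1 + 1)
        (by omega) (by omega)
      rw [← Equiv.Perm.mul_apply, ← Equiv.Perm.mul_apply, h1, Equiv.swap_comm]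
      rfl
    rw [e, hF _ (by omega), ih (by omega), hF _ (by omega)]

/-- invariance under adjacent transpositions implies invariance under permutations -/
theorem armb1_perm (m : ℕ) {F : (ℕ → ℝ) → ℝ} (hF : ∀ i, i + 1 < m → ∀ b, F (sw i b) = F b)
    (e : Equiv.Perm ℕ) (he : ∀ j, m ≤ j → e j = j) (b : ℕ → ℝ) : F (fun j => b (e j)) = F b := by
  have key : ∀ n, n ≤ m → ∀ e : Equiv.Perm ℕ, (∀ j, n ≤ j → e j = j) → ∀ b,
      F (fun j => b (e j)) = F b := by
    intro n
    induction n with
    | zero =>
      intro _ e he b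
      congr 1
      funext j
      rw [he j (Nat.zero_le j)]
    | succ n ih =>
      intro hn e he b
      set k := e n with hk
      have hkn : k ≤ n := by
        by_contra hc
        have h1 : e k = k := he k (by omega)
        have h2 := e.injective (h1.trans hk)
        omega
      have h1 : ∀ j, n ≤ j → (Equiv.swap k n * e) j = j := by
        intro j hj
        rcases Nat.eq_or_lt_of_le hj with h2 | h2
        · rw [← h2, Equiv.Perm.mul_apply, ← hk, Equiv.swap_apply_left]
        · rw [Equiv.Perm.mul_apply, he j (by omega), Equiv.swap_apply_of_ne_of_ne (by omega) (by omega)]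
      have h3 := ih (by omega) (Equiv.swap k n * e) h1 (fun j => b (Equiv.swap k n j))
      have h4 : (fun j => (fun j => b (Equiv.swap k n j)) ((Equiv.swap k n * e) j)) =
          fun j => b (e j) := by
        funext j
        show b (Equiv.swap k n (Equiv.swap k n (e j))) = b (e j)
        rw [Equiv.swap_apply_self]
      rw [h4] at h3
      rw [h3]
      rcases Nat.eq_or_lt_of_le hkn with h2 | h2
      · rw [h2]
        simp only [Equiv.swap_self, Equiv.refl_apply]
      · have h5 := armb1_swap hF k (n - k - 1) (by omega) b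
        have h6 : k + (n - k - 1) + 1 = n := by omega
        rw [h6] at h5
        exact h5
  exact key m le_rfl e he b

/-! ### the arm form -/

theorem armb1_neg_cat (a : ℕ) (x b : ℕ → ℝ) : (fun j => -cat a x b j) =
    cat a (fun j => -x j) (fun j => -b j) := by
  funext j
  unfold cat
  split_ifs <;> rfl

theorem armb1_cat_sw_glued (a i : ℕ) (x b : ℕ → ℝ) : cat a x (sw i b) = sw (a + i) (cat a x b) := by
  funext j
  unfold cat sw
  dsimp only
  by_cases h1 : j < a
  · have h2 : Equiv.swap (a + i) (a + i + 1) j = j :=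
      Equiv.swap_apply_of_ne_of_ne (by omega) (by omega)
    rw [h2, if_pos h1, if_pos h1]
  · rw [if_neg h1]
    by_cases h2 : j = a + i
    · subst h2
      rw [Equiv.swap_apply_left, if_neg (by omega), show a + i - a = i by omega,
        Equiv.swap_apply_left, show a + i + 1 - a = i + 1 by omega]
    · by_cases h3 : j = a + i + 1
      · subst h3
        rw [Equiv.swap_apply_right, if_neg (by omega), show a + i + 1 - a = i + 1 by omega,
          Equiv.swap_apply_right, show a + i - a = i by omega]
      · rw [Equiv.swap_apply_of_ne_of_ne h2 h3, if_neg h1,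
          Equiv.swap_apply_of_ne_of_ne (by omega) (by omega)]

theorem armb1_cat_sw_dangling {a i : ℕ} (h : i + 1 < a) (x b : ℕ → ℝ) :
    cat a (sw i x) b = sw i (cat a x b) := by
  funext j
  unfold cat sw
  dsimp only
  by_cases h2 : j = i
  · subst h2
    rw [Equiv.swap_apply_left, if_pos (by omega), if_pos h]
  · by_cases h3 : j = i + 1
    · subst h3
      rw [Equiv.swap_apply_right, if_pos h, if_pos (by omega)]
    · rw [Equiv.swap_apply_of_ne_of_ne h2 h3]

theorem armb1_neg_sw (i : ℕ) (b : ℕ → ℝ) : (fun j => -sw i b j) = sw i (fun j => -b j) := rfl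

theorem AF_congr (a c m : ℕ) {x y x' y' b b' : ℕ → ℝ} (h : ∀ j < a, x j = y j) (h' : ∀ j < c, x' j = y' j)
    (hb : ∀ j < m, b j = b' j) : AF a c m x x' b = AF a c m y y' b' := by
  unfold AF
  rw [V_congr (a + m) (b := cat a x b) (b' := cat a y b'),
    V_congr (c + m) (b := fun j => -cat c x' b j) (b' := fun j => -cat c y' b' j)]
  · intro j hj
    show -cat c x' b j = -cat c y' b' j
    unfold cat
    split_ifs with h1
    · rw [h' j h1]
    · rw [hb (j - c) (by omega)]
  · intro j hj
    unfold cat
    split_ifs with h1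
    · rw [h j h1]
    · rw [hb (j - a) (by omega)]

/-- `arm_flip`, `bil_flip` -/
theorem AF_flip (a c m : ℕ) (x x' b : ℕ → ℝ) : AF a c m x x' b =
    AF c a m (fun j => -x' j) (fun j => -x j) (fun j => -b j) := by
  unfold AF
  rw [bil_flip, armb1_neg_cat c x' b, armb1_neg_cat a (fun j => -x j) (fun j => -b j)]
  simp only [neg_neg]
  congr 1
  funext σ τ
  classical
  unfold arf
  simp only [arm_flip a c τ σ]

theorem armb1_cat_continuous (a j : ℕ) :
    Continuous (fun q : (ℕ → ℝ) × (ℕ → ℝ) => cat a q.1 q.2 j) := by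
  unfold cat
  split_ifs
  · exact (continuous_apply j).comp continuous_fst
  · exact (continuous_apply (j - a)).comp continuous_snd

theorem AF_continuous (a c m : ℕ) :
    Continuous (fun q : (ℕ → ℝ) × (ℕ → ℝ) × (ℕ → ℝ) => AF a c m q.1 q.2.1 q.2.2) := by
  rw [continuous_iff_continuousAt]
  intro q
  have h1 : Continuous fun q : (ℕ → ℝ) × (ℕ → ℝ) × (ℕ → ℝ) => cat a q.1 q.2.2 :=
    continuous_pi fun j => (armb1_cat_continuous a j).comp
      (continuous_fst.prodMk (continuous_snd.comp continuous_snd))
  have h2 : Continuous fun q : (ℕ → ℝ) × (ℕ → ℝ) × (ℕ → ℝ) => (fun j => -cat c q.2.1 q.2.2 j) :=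
    continuous_pi fun j => ((armb1_cat_continuous c j).comp
      ((continuous_fst.comp continuous_snd).prodMk (continuous_snd.comp continuous_snd))).neg
  exact bil_tendsto (arf a c) (W_finite (a + m)) (W_finite (c + m)) (nhds q)
    (fun q => V (a + m) (cat a q.1 q.2.2)) (fun q => V (c + m) (fun j => -cat c q.2.1 q.2.2 j))
    _ _ (fun _ => V_Sup _ _) (fun _ => V_Sup _ _) (V_Sup _ _) (V_Sup _ _)
    (fun σ => ((V_continuous (a + m) σ).comp h1).continuousAt)
    (fun σ => ((V_continuous (c + m) σ).comp h2).continuousAt)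

theorem armb1_AF_continuous (a c m : ℕ) (x x' : ℕ → ℝ) : Continuous (AF a c m x x') := by
  have h1 : Continuous (fun b : ℕ → ℝ => ((x, x', b) : (ℕ → ℝ) × (ℕ → ℝ) × (ℕ → ℝ))) :=
    continuous_const.prodMk (continuous_const.prodMk continuous_id)
  have h2 := (AF_continuous a c m).comp h1
  exact h2

/-- the generator at two glued strands -/
theorem armb1_Es_glued (a c i : ℕ) (v w : M) :
    bil (arf a c) (Es (a + i) v) w = bil (arf a c) v (Es (c + i) w) := by
  rw [armb1_Es_left, armb1_Es_right]
  congr 1
  funext σ τ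
  classical
  unfold arf
  simp only [arm_glued]

theorem armb1_Es_dangling {a i : ℕ} (c : ℕ) (h : i + 1 < a) (v w : M) :
    bil (arf a c) (Es i v) w = 0 := by
  rw [armb1_Es_left]
  have h0 : (fun σ τ => arf a c (pr (2 * i + 4) (2 * i + 6) (pr (2 * i + 5) (2 * i + 7) σ)) τ) =
      fun _ _ => 0 := by
    funext σ τ
    classical
    unfold arf
    rw [if_neg (arm_dangling h σ τ)]
  rw [h0]
  unfold bil
  simp

/-- `V_sw` above and below, `arm_glued`, `unitarity`; first for `s (b i - b (i+1)) ≠ 0 ≠ s (b (i+1) - b i)`,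
then continuity -/
theorem AF_glued {a c m i : ℕ} (h : i + 1 < m) (x x' b : ℕ → ℝ) :
    AF a c m x x' (sw i b) = AF a c m x x' b := by
  -- the polynomial identity
  have key : ∀ b : ℕ → ℝ, s (b i - b (i + 1)) * s (-(b i - b (i + 1))) * AF a c m x x' (sw i b) =
      s (b i - b (i + 1)) * s (-(b i - b (i + 1))) * AF a c m x x' b := by
    intro b
    set β := b i - b (i + 1) with hβ
    have hv := V_sw (L := a + m) (i := a + i) (by omega) (cat a x b)
    have hw := V_sw (L := c + m) (i := c + i) (by omega) (fun j => -cat c x' b j)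
    have e1 : cat a x b (a + i) - cat a x b (a + i + 1) = β := by
      unfold cat
      rw [if_neg (by omega), if_neg (by omega), show a + i - a = i by omega,
        show a + i + 1 - a = i + 1 by omega]
    have e2 : (fun j => -cat c x' b j) (c + i) - (fun j => -cat c x' b j) (c + i + 1) = -β := by
      show -cat c x' b (c + i) - -cat c x' b (c + i + 1) = -β
      unfold cat
      rw [if_neg (by omega), if_neg (by omega), show c + i - c = i by omega,
        show c + i + 1 - c = i + 1 by omega, hβ]
      ring
    rw [e1, ← armb1_cat_sw_glued] at hv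
    rw [e2, ← armb1_neg_sw, ← armb1_cat_sw_glued] at hw
    set v := V (a + m) (cat a x b) with hvd
    set w := V (c + m) (fun j => -cat c x' b j) with hwd
    have h1 : s β * s (-β) * AF a c m x x' (sw i b) =
        bil (arf a c) (Rs (a + i) β v) (Rs (c + i) (-β) w) := by
      rw [← hv, ← hw, bil_smul_left, bil_smul_right]
      unfold AF
      ring
    have hmove : ∀ (u : ℝ) (v w : M), bil (arf a c) (Rs (a + i) u v) w =
        bil (arf a c) v (Rs (c + i) u w) := by
      intro u v w
      rw [armb1_Rs_apply, armb1_Rs_apply, bil_add_left, bil_add_right, bil_smul_left, bil_smul_left,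
        bil_smul_right, bil_smul_right, armb1_Es_glued]
    have hD : D4 (2 * (c + i) + 4) (2 * (c + i) + 6) (2 * (c + i) + 5) (2 * (c + i) + 7) := by
      unfold D4
      omega
    have hun : Rs (c + i) β (Rs (c + i) (-β) w) = (s β * s (-β)) • w := unitarity hD β w
    rw [h1, hmove, hun, bil_smul_right]
    rfl
  -- a line through `b`
  set bt : ℝ → ℕ → ℝ := fun t => Function.update b i (b i + t) with hbt
  have hbtc : Continuous bt := continuous_const.update i (continuous_const.add continuous_id)
  have hswc : Continuous fun t => sw i (bt t) :=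
    continuous_pi fun j => (continuous_apply (Equiv.swap i (i + 1) j)).comp hbtc
  have hc1 := (armb1_AF_continuous a c m x x').comp hswc
  have hc2 := (armb1_AF_continuous a c m x x').comp hbtc
  have hc := hc1.sub hc2
  have hd : ∀ t, bt t i - bt t (i + 1) = b i - b (i + 1) + t := by
    intro t
    show Function.update b i (b i + t) i - Function.update b i (b i + t) (i + 1) = _
    rw [Function.update_self, Function.update_of_ne (by omega)]
    ring
  have h2 := armb1_ext hc (S := {t : ℝ | s (b i - b (i + 1) + t * 1) = 0} ∪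
      {t : ℝ | s (-(b i - b (i + 1)) + t * (-1)) = 0})
    ((armb1_countable _ 1 one_ne_zero).union (armb1_countable _ (-1) (by norm_num))) (by
      intro t ht
      rw [Set.mem_union, not_or] at ht
      have h3 : s (b i - b (i + 1) + t) ≠ 0 := fun h4 => ht.1 (by
        show s (b i - b (i + 1) + t * 1) = 0
        rw [mul_one]; exact h4)
      have h4 : s (-(b i - b (i + 1) + t)) ≠ 0 := fun h4 => ht.2 (by
        show s (-(b i - b (i + 1)) + t * (-1)) = 0
        rw [mul_neg_one, ← neg_add]; exact h4)
      have h5 := key (bt t)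
      rw [hd] at h5
      have h6 := mul_left_cancel₀ (mul_ne_zero h3 h4) h5
      exact sub_eq_zero.mpr h6) 0
  have h3 : bt 0 = b := by
    show Function.update b i (b i + 0) = b
    rw [add_zero, Function.update_eq_self]
  have h4 : AF a c m x x' (sw i (bt 0)) - AF a c m x x' (bt 0) = 0 := h2
  rw [h3] at h4
  exact sub_eq_zero.mp h4

theorem AF_perm (a c m : ℕ) (e : Equiv.Perm ℕ) (he : ∀ j, m ≤ j → e j = j) (x x' b : ℕ → ℝ) :
    AF a c m x x' (fun j => b (e j)) = AF a c m x x' b :=
  armb1_perm m (F := fun b => AF a c m x x' b) (fun _ hi b => AF_glued hi x x' b) e he b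

/-- `V_sw`, `arm_dangling` -/
theorem AF_dangling {a c m i : ℕ} (h : i + 1 < a) (x x' b : ℕ → ℝ) :
    s (x i - x (i + 1)) * AF a c m (sw i x) x' b = s (x (i + 1) - x i) * AF a c m x x' b := by
  have hv := V_sw (L := a + m) (i := i) (by omega) (cat a x b)
  have e1 : cat a x b i - cat a x b (i + 1) = x i - x (i + 1) := by
    unfold cat
    rw [if_pos (by omega), if_pos h]
  rw [e1, ← armb1_cat_sw_dangling h] at hv
  unfold AF
  rw [← bil_smul_left, hv, armb1_Rs_apply, bil_add_left, bil_smul_left, bil_smul_left,
    armb1_Es_dangling c h, mul_zero, add_zero, neg_sub]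

/-- move `x j` next to `x 0` with `AF_dangling` -/
theorem AF_vanish {a c m j : ℕ} (hj : 0 < j) (hja : j < a) (x x' b : ℕ → ℝ) (h : x 0 = x j - π / 3)
    (hg : ∀ i, 0 < i → i < a → i ≠ j → s (x j - x i) ≠ 0) : AF a c m x x' b = 0 := by
  induction j generalizing x with
  | zero => omega
  | succ j ih =>
    rcases Nat.eq_zero_or_pos j with h0 | h0
    · subst h0
      have h1 := AF_dangling (c := c) (m := m) (i := 0) hja x x' b
      rw [Nat.zero_add] at h h1
      have h2 : s (x 0 - x 1) = 0 := by
        rw [h, show x 1 - π / 3 - x 1 = -(π / 3) by ring]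
        exact rc_s_neg
      have h3 : s (x 1 - x 0) ≠ 0 := by
        rw [h, show x 1 - (x 1 - π / 3) = π / 3 by ring, rc_s_pi_third]
        exact rc_sin_pos.ne'
      rw [h2, zero_mul] at h1
      exact (mul_eq_zero.mp h1.symm).resolve_left h3
    · have y0 : sw j x 0 = x 0 := by
        show x (Equiv.swap j (j + 1) 0) = x 0
        rw [Equiv.swap_apply_of_ne_of_ne (by omega) (by omega)]
      have yj : sw j x j = x (j + 1) := by
        show x (Equiv.swap j (j + 1) j) = _
        rw [Equiv.swap_apply_left]
      have h1 := ih h0 (by omega) (sw j x) (by rw [y0, yj, h]) (by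
        intro i hi hia hij
        rw [yj]
        show s (x (j + 1) - x (Equiv.swap j (j + 1) i)) ≠ 0
        by_cases h3 : i = j + 1
        · subst h3
          rw [Equiv.swap_apply_right]
          exact hg j h0 (by omega) (by omega)
        · rw [Equiv.swap_apply_of_ne_of_ne hij h3]
          exact hg i hi hia h3)
      have h2 := AF_dangling (c := c) (m := m) (i := j) hja x x' b
      rw [h1, mul_zero] at h2
      exact (mul_eq_zero.mp h2.symm).resolve_left (hg j h0 (by omega) (by omega))

/-- move `x 0` to the last position -/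
theorem AF_cycle {a c m : ℕ} (ha : 0 < a) (x x' b : ℕ → ℝ)
    (_hg : ∀ i, 0 < i → i < a → s (x 0 - x i) ≠ 0) :
    (∏ i ∈ Ico 1 a, s (x i - x 0)) * AF a c m x x' b =
      (∏ i ∈ Ico 1 a, s (x 0 - x i)) * AF a c m (fun j => if j + 1 < a then x (j + 1) else x 0) x' b := by
  have key : ∀ k, k + 1 ≤ a → (∏ i ∈ Ico 1 (k + 1), s (x i - x 0)) * AF a c m x x' b =
      (∏ i ∈ Ico 1 (k + 1), s (x 0 - x i)) *
        AF a c m (fun j => if j < k then x (j + 1) else if j = k then x 0 else x j) x' b := by
    intro k
    induction k with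
    | zero =>
      intro _
      simp only [Nat.zero_add, Ico_self, prod_empty, one_mul, Nat.not_lt_zero, if_false]
      congr 1
      funext j
      split_ifs with h1
      · rw [h1]
      · rfl
    | succ k ih =>
      intro hk
      have h1 := ih (by omega)
      set y : ℕ → ℝ := fun j => if j < k then x (j + 1) else if j = k then x 0 else x j with hy
      have yk : y k = x 0 := by simp [hy]
      have yk1 : y (k + 1) = x (k + 1) := by simp [hy]
      have h2 := AF_dangling (c := c) (m := m) (i := k) (by omega : k + 1 < a) y x' b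
      rw [yk, yk1] at h2
      have h3 : sw k y = fun j => if j < k + 1 then x (j + 1) else if j = k + 1 then x 0 else x j := by
        funext j
        show y (Equiv.swap k (k + 1) j) = _
        by_cases c1 : j = k
        · subst c1
          rw [Equiv.swap_apply_left, yk1, if_pos (by omega)]
        · by_cases c2 : j = k + 1
          · subst c2
            rw [Equiv.swap_apply_right, yk, if_neg (by omega), if_pos rfl]
          · rw [Equiv.swap_apply_of_ne_of_ne c1 c2, hy]
            simp only [c1, c2, if_false]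
            by_cases c3 : j < k
            · rw [if_pos c3, if_pos (by omega)]
            · rw [if_neg c3, if_neg (by omega)]
      rw [h3] at h2
      rw [Finset.prod_Ico_succ_top (show 1 ≤ k + 1 by omega) (fun i => s (x i - x 0)),
        Finset.prod_Ico_succ_top (show 1 ≤ k + 1 by omega) (fun i => s (x 0 - x i))]
      calc (∏ i ∈ Ico 1 (k + 1), s (x i - x 0)) * s (x (k + 1) - x 0) * AF a c m x x' b
          = s (x (k + 1) - x 0) * ((∏ i ∈ Ico 1 (k + 1), s (x i - x 0)) * AF a c m x x' b) := by ring
        _ = (∏ i ∈ Ico 1 (k + 1), s (x 0 - x i)) * (s (x (k + 1) - x 0) * AF a c m y x' b) := by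
            rw [h1]; ring
        _ = _ := by rw [← h2]; ring
  have h1 := key (a - 1) (by omega)
  rw [show a - 1 + 1 = a by omega] at h1
  rw [h1]
  congr 1
  refine AF_congr a c m ?_ (fun _ _ => rfl) (fun _ _ => rfl)
  intro j hj
  by_cases h2 : j + 1 < a
  · rw [if_pos h2, if_pos (by omega)]
  · rw [if_neg h2, if_neg (by omega), if_pos (by omega)]

theorem AF_TP {a c m : ℕ} (ha : 0 < a) (x x' b : ℕ → ℝ) :
    TP (a + m - 1) (fun t => AF a c m (Function.update x 0 t) x' b) := by
  classical
  have e1 : (fun t => AF a c m (Function.update x 0 t) x' b) = fun t =>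
      ∑ σ ∈ (W_finite (a + m)).toFinset, ∑ τ ∈ (W_finite (c + m)).toFinset,
        (V (c + m) (fun j => -cat c x' b j) τ * arf a c σ τ) *
          V (a + m) (Function.update (cat a x b) 0 t) σ := by
    funext t
    have h1 : cat a (Function.update x 0 t) b = Function.update (cat a x b) 0 t := by
      funext j
      by_cases hj : j = 0
      · subst hj
        rw [Function.update_self]
        unfold cat
        rw [if_pos ha, Function.update_self]
      · rw [Function.update_of_ne hj]
        unfold cat
        rw [Function.update_of_ne hj]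
    unfold AF
    rw [h1, bil_eq_sum (arf a c) (A := (W_finite (a + m)).toFinset) (B := (W_finite (c + m)).toFinset)
      (by rw [Set.Finite.coe_toFinset]; exact V_Sup _ _) (by rw [Set.Finite.coe_toFinset]; exact V_Sup _ _)]
    refine Finset.sum_congr rfl fun σ _ => Finset.sum_congr rfl fun τ _ => ?_
    ring
  rw [e1]
  exact TP.sum _ fun σ _ => TP.sum _ fun τ _ =>
    TP.smul _ ((V_Sep (a + m) σ).1 (cat a x b) 0 (by omega))
end IPC
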