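import Pool.Agent.Helper64.IPC.ArmB1
/-! MODULE ARMB, part 2: mirror symmetry, recursion, no glued strands. -/
namespace IPC
open IP Finset Real

/-- one rotation of the parameters, `n` times -/
theorem armb2_rb_pow (L : ℕ) (n : ℕ) (b : ℕ → ℝ) :
    V L ((rb L)^[n] b) = Rel ((rtn L) ^ n) (V L b) := by
  induction n with
  | zero =>
    rw [Function.iterate_zero, id, pow_zero]
    unfold Rel
    have : (rel (1 : Equiv.Perm ℕ)) = id := by
      funext σ
      exact rel_one σ
    rw [this, Finsupp.lmapDomain_id]
    rfl
  | succ n ih =>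
    rw [Function.iterate_succ_apply', V_rb, ih, pow_succ']
    unfold Rel
    rw [← LinearMap.comp_apply, ← Finsupp.lmapDomain_comp]
    congr 2

/-- the value of the rotated parameters -/
theorem armb2_rb_iter {L n : ℕ} (hn : n ≤ L) (b : ℕ → ℝ) (j : ℕ) (hj : j < L) :
    (rb L)^[n] b j = if j < n then b (L - n + j) else b (j - n) := by
  induction n generalizing j with
  | zero => simp
  | succ n ih =>
    rw [Function.iterate_succ_apply']
    have hr : ∀ f : ℕ → ℝ, rb L f j = if j = 0 then f (L - 1) else f (j - 1) := fun f => if_pos hj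
    rw [hr]
    by_cases h0 : j = 0
    · subst h0
      rw [if_pos rfl, ih (by omega) _ (by omega), if_neg (by omega), if_pos (by omega)]
      congr 1
      omega
    · rw [if_neg h0, ih (by omega) _ (by omega)]
      by_cases h1 : j < n + 1
      · rw [if_pos (by omega), if_pos h1]
        congr 1
        omega
      · rw [if_neg (by omega), if_neg h1]
        congr 1
        omega

theorem armb2_V_mirror (a m : ℕ) (w : ℕ → ℝ) (w' : ℕ → ℝ)
    (h : ∀ j < a + m, w' j = if j < a then -w (a - 1 - j) else -w (a + (m - 1 - (j - a)))) :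
    V (a + m) w' = Rel ((rtn (a + m)) ^ a * rvn (a + m)) (V (a + m) w) := by
  have h1 : V (a + m) w' = V (a + m) ((rb (a + m))^[a] (vb (a + m) w)) := by
    apply V_congr
    intro j hj
    rw [h j hj, armb2_rb_iter (by omega) _ _ hj]
    unfold vb
    by_cases hja : j < a
    · rw [if_pos hja, if_pos hja, if_pos (by omega)]
      congr 2
      omega
    · rw [if_neg hja, if_neg hja, if_pos (by omega)]
      congr 2
      omega
  rw [h1, armb2_rb_pow, V_vb]
  unfold Rel
  rw [← LinearMap.comp_apply, ← Finsupp.lmapDomain_comp]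
  congr 2

/-- reversal of the first `m` numbers -/
def armb2_rev (m : ℕ) : Equiv.Perm ℕ where
  toFun j := if j < m then m - 1 - j else j
  invFun j := if j < m then m - 1 - j else j
  left_inv j := by
    by_cases h : j < m
    · simp only [h, if_true]
      rw [if_pos (by omega)]
      omega
    · simp only [h, if_false]
  right_inv j := by
    by_cases h : j < m
    · simp only [h, if_true]
      rw [if_pos (by omega)]
      omega
    · simp only [h, if_false]

theorem armb2_rev_apply (m j : ℕ) : armb2_rev m j = if j < m then m - 1 - j else j := rfl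

/-- `V_vb`, `V_rb` (a times / c times), `arm_mirror`, `AF_perm` -/
theorem AF_mirror (a c m : ℕ) (x x' b : ℕ → ℝ) : AF a c m x x' b =
    AF a c m (fun j => -x (a - 1 - j)) (fun j => -x' (c - 1 - j)) (fun j => -b j) := by
  rw [← AF_perm a c m (armb2_rev m) (fun j hj => if_neg (by omega)) _ _ (fun j => -b j)]
  unfold AF
  have e1 : V (a + m) (cat a (fun j => -x (a - 1 - j)) (fun j => -b (armb2_rev m j))) =
      Rel ((rtn (a + m)) ^ a * rvn (a + m)) (V (a + m) (cat a x b)) := by
    apply armb2_V_mirror
    intro j hj
    simp only [armb2_rev_apply, cat]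
    by_cases hja : j < a
    · rw [if_pos hja, if_pos hja, if_pos (by omega)]
    · have h1 : j - a < m := by omega
      have h2 : ¬ (a + (m - 1 - (j - a)) < a) := by omega
      rw [if_neg hja, if_neg hja, if_neg h2, if_pos h1]
      congr 2
      omega
  have e2 : V (c + m) (fun j => -cat c (fun j => -x' (c - 1 - j)) (fun j => -b (armb2_rev m j)) j) =
      Rel ((rtn (c + m)) ^ c * rvn (c + m)) (V (c + m) (fun j => -cat c x' b j)) := by
    apply armb2_V_mirror
    intro j hj
    simp only [armb2_rev_apply, cat]
    by_cases hja : j < c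
    · rw [if_pos hja, if_pos hja, if_pos (by omega)]
    · have h1 : j - c < m := by omega
      have h2 : ¬ (c + (m - 1 - (j - c)) < c) := by omega
      rw [if_neg hja, if_neg hja, if_neg h2, if_pos h1]
      congr 3
      omega
  rw [e1, e2]
  unfold Rel
  rw [bil_map (f' := arf a c) (V_Sup _ _) (V_Sup _ _)]
  intro σ hσ τ hτ
  unfold arf
  have := arm_mirror hσ hτ
  by_cases hh : arm a c σ τ
  · rw [if_pos hh, if_pos (this.2 hh)]
  · rw [if_neg hh, if_neg (fun h => hh (this.1 h))]

/-- `V_rec` with `i = a - 1`, `arm_ins` -/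
theorem AF_rec {a c m : ℕ} (ha : 0 < a) (x x' b : ℕ → ℝ) (h : b 0 = x (a - 1) + π / 3) :
    AF a c (m + 1) x x' b = KK (a + m + 1) (a - 1) (cat a x b) *
      AF (a - 1) (c + 1) m x (fun j => if j < c then x' j else b 0) (fun j => b (j + 1)) := by
  obtain ⟨a, rfl⟩ : ∃ a', a = a' + 1 := ⟨a - 1, by omega⟩
  simp only [Nat.add_sub_cancel] at h ⊢
  unfold AF
  have h1 : V (a + 1 + (m + 1)) (cat (a + 1) x b) =
      KK (a + 1 + m + 1) a (cat (a + 1) x b) • In a (V (a + m) (cat a x (fun j => b (j + 1)))) := by
    have e1 : a + 1 + (m + 1) = (a + m) + 2 := by omega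
    have e2 : a + 1 + m + 1 = (a + m) + 2 := by omega
    rw [e1, e2, V_rec (i := a) (by omega)]
    · congr 2
      congr 1
      funext j
      unfold rem cat
      by_cases hj : j < a
      · rw [if_pos hj, if_pos hj, if_pos (by omega)]
      · rw [if_neg hj, if_neg hj, if_neg (by omega)]
        congr 1
        omega
    · unfold cat
      rw [if_neg (by omega), if_pos (by omega)]
      rw [← h]
      congr 1
      omega
  have h2 : V (c + (m + 1)) (fun j => -cat c x' b j) =
      V (c + 1 + m) (fun j => -cat (c + 1) (fun j => if j < c then x' j else b 0) (fun j => b (j + 1)) j) := by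
    have e1 : c + (m + 1) = c + 1 + m := by omega
    rw [e1]
    congr 1
    funext j
    unfold cat
    by_cases hj : j < c
    · simp only [if_pos hj, if_pos (show j < c + 1 by omega)]
    · by_cases hj2 : j < c + 1
      · simp only [if_neg hj, if_pos hj2]
        congr 2
        omega
      · simp only [if_neg hj, if_neg hj2]
        congr 2
        omega
  rw [h1, h2, bil_smul_left]
  congr 1
  unfold In
  have h3 := bil_map (f := arf (a + 1) c) (f' := arf a (c + 1)) (g := ins a) (g' := id)
    (V_Sup (a + m) (cat a x (fun j => b (j + 1))))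
    (V_Sup (c + 1 + m) (fun j => -cat (c + 1) (fun j => if j < c then x' j else b 0) (fun j => b (j + 1)) j))
    (by
      intro σ _ τ _
      unfold arf
      have := arm_ins (a := a + 1) (c := c) (by omega) σ τ
      simp only [Nat.add_sub_cancel] at this
      rw [id]
      by_cases hh : arm a (c + 1) σ τ
      · rw [if_pos hh, if_pos (this.2 hh)]
      · rw [if_neg hh, if_neg (fun h => hh (this.1 h))])
  rw [Finsupp.lmapDomain_id] at h3
  exact h3

/-- `arm_zero`, `V_top` -/
theorem AF_zero (a c : ℕ) (x x' b : ℕ → ℝ) : AF a c 0 x x' b = f0 a x * f0 c (fun j => -x' j) := by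
  classical
  unfold AF
  rw [Nat.add_zero, Nat.add_zero]
  have h1 : V a (cat a x b) = V a x := V_congr a fun j hj => if_pos hj
  have h2 : V c (fun j => -cat c x' b j) = V c (fun j => -x' j) := by
    apply V_congr
    intro j hj
    unfold cat
    rw [if_pos hj]
  rw [h1, h2]
  have h3 : bil (arf a c) (V a x) (V c (fun j => -x' j)) =
      bil (fun σ τ => if σ = top a ∧ τ = top c then 1 else 0) (V a x) (V c (fun j => -x' j)) := by
    apply bil_congr (V_NCSup a x) (V_NCSup c (fun j => -x' j))
    intro σ hσ τ hτ
    have := arm_zero hσ.1 hσ.2 hτ.1 hτ.2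
    unfold arf
    by_cases hh : σ = top a ∧ τ = top c
    · rw [if_pos (this.2 hh), if_pos hh]
    · rw [if_neg (fun h => hh (this.1 h)), if_neg hh]
  rw [h3, ← V_top a x, ← V_top c (fun j => -x' j)]
  unfold bil
  rw [Finsupp.sum, Finset.sum_eq_single (top a)]
  · rw [Finsupp.sum, Finset.sum_eq_single (top c)]
    · simp
    · intro τ _ hτ
      dsimp only
      rw [if_neg (fun h => hτ h.2), mul_zero]
    · intro hτ
      rw [Finsupp.notMem_support_iff.1 hτ]
      ring
  · intro σ _ hσ
    rw [Finsupp.sum]
    apply Finset.sum_eq_zero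
    intro τ _
    dsimp only
    rw [if_neg (fun h => hσ h.1), mul_zero]
  · intro hσ
    rw [Finsupp.sum]
    apply Finset.sum_eq_zero
    intro τ _
    rw [Finsupp.notMem_support_iff.1 hσ]
    ring
end IPC
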