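import Pool.Agent.Helper64.IPC.ArmC1
/-! MODULE ARMC: the arm form in closed form, for every function `G` with the properties `ArmFun k G`. -/
namespace IPC
open IP Finset Real

/-- the difference of the two sides -/
noncomputable def ac_D (G : ℕ → (ℕ → ℝ) → (ℕ → ℝ) → ℂ) (a c m : ℕ) (x x' b : ℕ → ℝ) : ℂ :=
  (AF a c m x x' b : ℂ) - f0 a x * f0 c (fun j => -x' j) * G m (cat a x x') b

/-! ### elementary facts -/

theorem ac_sin3 {v : ℝ} (h : Real.sin (3 * v) ≠ 0) (n : ℤ) : Real.sin (v + n * (π / 3)) ≠ 0 := by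
  intro h0
  apply h
  have e : 3 * v = 3 * (v + n * (π / 3)) - n * π := by ring
  rw [e, Real.sin_sub_int_mul_pi, Real.sin_three_mul, h0]
  ring

theorem ac_sin {v : ℝ} (h : Real.sin (3 * v) ≠ 0) : Real.sin v ≠ 0 := by
  have := ac_sin3 h 0
  simpa using this

theorem ac_s {v : ℝ} (h : Real.sin (3 * v) ≠ 0) : s v ≠ 0 := by
  have := ac_sin3 h 1
  unfold s
  rw [Int.cast_one, one_mul] at this
  first
    | exact this
    | (rw [add_comm]; exact this)

theorem ac_s_add (x : ℝ) : s (x + π / 3) = s (-x) := by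
  unfold s
  rw [← Real.sin_pi_sub]
  congr 1
  ring

theorem ac_s_sub (x : ℝ) : s (x - π / 3) = Real.sin x := by
  unfold s
  congr 1
  ring

theorem ac_f0_congr {a : ℕ} {x y : ℕ → ℝ} (h : ∀ j < a, x j = y j) : f0 a x = f0 a y := by
  unfold f0
  refine prod_congr rfl fun j hj => prod_congr rfl fun i hi => ?_
  rw [mem_range] at hj hi
  rw [h j hj, h i (hi.trans hj)]

theorem ac_f0_head (a : ℕ) (x : ℕ → ℝ) :
    f0 (a + 1) x = (∏ i ∈ range a, s (x 0 - x (i + 1))) * f0 a (fun i => x (i + 1)) := by
  unfold f0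
  rw [Finset.prod_range_succ', Finset.prod_range_zero, mul_one, ← Finset.prod_mul_distrib]
  refine prod_congr rfl fun j _ => ?_
  rw [Finset.prod_range_succ', mul_comm]

theorem ac_f0_last (a : ℕ) (x : ℕ → ℝ) :
    f0 (a + 1) x = f0 a x * ∏ i ∈ range a, s (x i - x a) := by
  unfold f0
  rw [Finset.prod_range_succ]

theorem ac_f0_rev (a : ℕ) (x : ℕ → ℝ) : f0 a (fun j => -x (a - 1 - j)) = f0 a x := by
  induction a with
  | zero => unfold f0; simp
  | succ a ih =>
    rw [ac_f0_head, ac_f0_last, ← ih, mul_comm]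
    congr 1
    · apply ac_f0_congr
      intro j _
      congr 2
      omega
    · rw [← Finset.prod_range_reflect]
      refine prod_congr rfl fun j hj => ?_
      rw [mem_range] at hj
      have e1 : a + 1 - 1 - 0 = a := by omega
      have e2 : a + 1 - 1 - (a - 1 - j + 1) = j := by omega
      rw [e1, e2]
      congr 1
      ring

theorem ac_f0_cycle (a : ℕ) (x : ℕ → ℝ) :
    (∏ i ∈ range a, s (x (i + 1) - x 0)) * f0 (a + 1) x =
      (∏ i ∈ range a, s (x 0 - x (i + 1))) *
        f0 (a + 1) (fun j => if j + 1 < a + 1 then x (j + 1) else x 0) := by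
  rw [ac_f0_head, ac_f0_last]
  have e1 : f0 a (fun j => if j + 1 < a + 1 then x (j + 1) else x 0) = f0 a (fun i => x (i + 1)) := by
    apply ac_f0_congr
    intro j hj
    rw [if_pos (by omega)]
  have e2 : ∏ i ∈ range a, s ((if i + 1 < a + 1 then x (i + 1) else x 0) -
      (if a + 1 < a + 1 then x (a + 1) else x 0)) = ∏ i ∈ range a, s (x (i + 1) - x 0) := by
    refine prod_congr rfl fun i hi => ?_
    rw [mem_range] at hi
    rw [if_pos (by omega), if_neg (by omega)]
  rw [e1, e2]
  ring

theorem ac_prod_Ico (a : ℕ) (f : ℕ → ℝ) : ∏ i ∈ Ico 1 (a + 1), f i = ∏ i ∈ range a, f (i + 1) := by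
  rw [Finset.prod_Ico_eq_prod_range]
  refine prod_congr (by simp) fun i _ => ?_
  rw [add_comm]

theorem ac_prod_rem {m j : ℕ} (hj : j < m + 1) (f : ℕ → ℝ) :
    ∏ l ∈ (range (m + 1)).filter (fun l => l ≠ j), f l =
      ∏ l ∈ range m, f (if l < j then l else l + 1) := by
  symm
  refine Finset.prod_nbij' (fun l => if l < j then l else l + 1) (fun l => if l < j then l else l - 1)
    ?_ ?_ ?_ ?_ ?_
  · intro l hl
    rw [mem_range] at hl
    rw [mem_filter, mem_range]
    split_ifs with h <;> constructor <;> omega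
  · intro l hl
    rw [mem_filter, mem_range] at hl
    rw [mem_range]
    split_ifs with h <;> omega
  · intro l hl
    rw [mem_range] at hl
    by_cases h : l < j
    · rw [if_pos h, if_pos h]
    · rw [if_neg h, if_neg (by omega)]
      omega
  · intro l hl
    rw [mem_filter, mem_range] at hl
    by_cases h : l < j
    · rw [if_pos h, if_pos h]
    · rw [if_neg h, if_neg (by omega)]
      omega
  · intro l _
    rfl

theorem ac_cat_lt {a i : ℕ} (h : i < a) (x y : ℕ → ℝ) : cat a x y i = x i := by
  unfold cat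
  rw [if_pos h]

theorem ac_cat_ge {a i : ℕ} (h : a ≤ i) (x y : ℕ → ℝ) : cat a x y i = y (i - a) := by
  unfold cat
  rw [if_neg (by omega)]

/-! ### genericity -/

theorem ac_FG_Gn {n : ℕ} {u : ℕ → ℝ} (h : FG n u) : Gn n u := fun i j _ _ h3 h4 h5 => h i j h3 h4 h5

theorem ac_FG_of_Gn {n n' : ℕ} {u v : ℕ → ℝ} (hg : Gn n u) (e : ℕ → ℕ)
    (he : ∀ i, i < n' → 0 < e i ∧ e i < n)
    (hinj : ∀ i j, i < n' → j < n' → e i = e j → i = j)
    (hv : ∀ i, i < n' → v i = u (e i)) : FG n' v := by
  intro i j hi hj hij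
  rw [hv i hi, hv j hj]
  exact hg _ _ (he i hi).1 (he j hj).1 (he i hi).2 (he j hj).2 fun h => hij (hinj i j hi hj h)

theorem ac_Gn_map {n : ℕ} {u v : ℕ → ℝ} (hg : Gn n u) (e : ℕ → ℕ)
    (he : ∀ i, 0 < i → i < n → 0 < e i ∧ e i < n)
    (hinj : ∀ i j, 0 < i → 0 < j → i < n → j < n → e i = e j → i = j)
    (hv : ∀ i, 0 < i → i < n → v i = u (e i)) : Gn n v := by
  intro i j hi hj hi' hj' hij
  rw [hv i hi hi', hv j hj hj']
  exact hg _ _ (he i hi hi').1 (he j hj hj').1 (he i hi hi').2 (he j hj hj').2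
    fun h => hij (hinj i j hi hj hi' hj' h)

theorem ac_Gn_neg {n : ℕ} {u v : ℕ → ℝ} (hg : Gn n u) (hv : ∀ i, 0 < i → i < n → v i = -u i) : Gn n v := by
  intro i j hi hj hi' hj' hij
  rw [hv i hi hi', hv j hj hj']
  have := hg j i hj hi hj' hi' (Ne.symm hij)
  have e : -u i - -u j = u j - u i := by ring
  rwa [e]

/-! ### cyclic permutations -/

/-- the cycle `0 ↦ j ↦ j - 1 ↦ ... ↦ 0` -/
def ac_cyc (j : ℕ) : Equiv.Perm ℕ where
  toFun i := if i = 0 then j else if i ≤ j then i - 1 else i
  invFun i := if i = j then 0 else if i < j then i + 1 else i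
  left_inv i := by
    dsimp only
    by_cases h : i = 0
    · simp [h]
    · rw [if_neg h]
      by_cases h2 : i ≤ j
      · rw [if_pos h2, if_neg (by omega), if_pos (by omega)]
        omega
      · rw [if_neg h2, if_neg (by omega), if_neg (by omega)]
  right_inv i := by
    dsimp only
    by_cases h : i = j
    · simp [h]
    · rw [if_neg h]
      by_cases h2 : i < j
      · rw [if_pos h2, if_neg (by omega), if_pos (by omega)]
        omega
      · rw [if_neg h2, if_neg (by omega), if_neg (by omega)]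

theorem ac_cyc_zero (j : ℕ) : ac_cyc j 0 = j := by
  show (if (0 : ℕ) = 0 then j else if 0 ≤ j then 0 - 1 else 0) = j
  rw [if_pos rfl]

theorem ac_cyc_succ (j l : ℕ) : ac_cyc j (l + 1) = if l < j then l else l + 1 := by
  show (if l + 1 = 0 then j else if l + 1 ≤ j then l + 1 - 1 else l + 1) = _
  rw [if_neg (by omega)]
  by_cases h : l < j
  · rw [if_pos h, if_pos (by omega)]
    omega
  · rw [if_neg h, if_neg (by omega)]

theorem ac_cyc_symm (j i : ℕ) : (ac_cyc j).symm i = if i = j then 0 else if i < j then i + 1 else i := rfl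

/-! ### the difference -/

section
variable {k : ℕ} {G : ℕ → (ℕ → ℝ) → (ℕ → ℝ) → ℂ}

theorem ac_G_rec (hk : 0 < k) (hG : ArmFun k G) {m j : ℕ} (hj : j < m + 1) (y b : ℕ → ℝ)
    (hg : Gn (2 * k + (m + 1)) (cat (2 * k) y b)) (hb : b j = y 0 + π / 3) :
    G (m + 1) y b = ((Real.sqrt 3 / 2 * (∏ i ∈ Ico 1 (2 * k), s (y i - y 0)) *
      ∏ l ∈ range m, s ((if l < j then b l else b (l + 1)) - y 0) ^ 2 : ℝ) : ℂ) *
      G m (Function.update y 0 (b j)) (fun l => if l < j then b l else b (l + 1)) := by
  have h1 := hG.permb (m + 1) (ac_cyc j) (by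
    intro i hi
    show (if i = 0 then j else if i ≤ j then i - 1 else i) = i
    rw [if_neg (by omega), if_neg (by omega)]) y b
  have h2 := hG.recur m y (fun i => b (ac_cyc j i)) (by
    refine ac_Gn_map hg (fun i => if i < 2 * k then i else 2 * k + ac_cyc j (i - 2 * k)) ?_ ?_ ?_
    · intro i h0 h1
      split_ifs with h
      · exact ⟨h0, by omega⟩
      · refine ⟨by omega, ?_⟩
        have : ac_cyc j (i - 2 * k) < m + 1 := by
          show (if i - 2 * k = 0 then j else if i - 2 * k ≤ j then i - 2 * k - 1 else i - 2 * k) < m + 1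
          split_ifs <;> omega
        omega
    · intro i i' h0 h0' h1 h1' h
      split_ifs at h with h2 h3 h3
      · exact h
      · omega
      · omega
      · have : i - 2 * k = i' - 2 * k := (ac_cyc j).injective (by omega)
        omega
    · intro i h0 h1
      by_cases h : i < 2 * k
      · rw [if_pos h, ac_cat_lt h, ac_cat_lt h]
      · rw [if_neg h, ac_cat_ge (by omega), ac_cat_ge (by omega)]
        congr 2
        omega) (by rw [ac_cyc_zero]; exact hb)
  have e : ∀ l, b (ac_cyc j (l + 1)) = if l < j then b l else b (l + 1) := by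
    intro l
    rw [ac_cyc_succ]
    split_ifs <;> rfl
  rw [← h1, h2]
  rw [ac_cyc_zero]
  simp only [e]

/-- `b j = x 0 + π/3` -/
theorem ac_P1 (hk : 0 < k) (hG : ArmFun k G) {m : ℕ}
    (IH : ∀ a c, a + c = 2 * k → ∀ x x' b, FG (2 * k + m) (cat (2 * k) (cat a x x') b) →
      ac_D G a c m x x' b = 0) {a c j : ℕ} (h : a + c = 2 * k) (ha : 0 < a) (hj : j < m + 1)
    (x x' b : ℕ → ℝ) (hg : Gn (2 * k + (m + 1)) (cat (2 * k) (cat a x x') b)) (hb : b j = x 0 + π / 3) :
    ac_D G a c (m + 1) x x' b = 0 := by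
  obtain ⟨a, rfl⟩ : ∃ a', a = a' + 1 := ⟨a - 1, by omega⟩
  have h1 := AF_rec_plus ha hj x x' b (by rwa [h]) hb
  set b1 : ℕ → ℝ := fun l => if l < j then b l else b (l + 1) with hb1
  set x3 : ℕ → ℝ := fun i => if i < c then x' i else b j with hx3
  have ea : a + 1 - 1 = a := rfl
  rw [ea] at h1
  have h2 := IH a (c + 1) (by omega) (fun i => x (i + 1)) x3 b1 (by
    refine ac_FG_of_Gn hg (fun i => if i < 2 * k - 1 then i + 1 else if i = 2 * k - 1 then 2 * k + j else
      if i < 2 * k + j then i else i + 1) ?_ ?_ ?_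
    · intro i hi
      split_ifs <;> constructor <;> omega
    · intro i i' hi hi' h
      split_ifs at h <;> omega
    · intro i hi
      by_cases c1 : i < 2 * k - 1
      · rw [if_pos c1, ac_cat_lt (a := 2 * k) (i := i) (by omega),
          ac_cat_lt (a := 2 * k) (i := i + 1) (by omega)]
        by_cases c2 : i < a
        · rw [ac_cat_lt c2, ac_cat_lt (a := a + 1) (i := i + 1) (by omega)]
        · rw [ac_cat_ge (a := a) (i := i) (by omega), ac_cat_ge (a := a + 1) (i := i + 1) (by omega), hx3]
          dsimp only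
          rw [if_pos (by omega)]
          congr 1
          omega
      · rw [if_neg c1]
        by_cases c2 : i = 2 * k - 1
        · rw [if_pos c2, ac_cat_lt (a := 2 * k) (i := i) (by omega), ac_cat_ge (a := a) (i := i) (by omega),
            ac_cat_ge (a := 2 * k) (i := 2 * k + j) (by omega), hx3]
          dsimp only
          rw [if_neg (by omega)]
          congr 1
          omega
        · rw [if_neg c2, ac_cat_ge (a := 2 * k) (i := i) (by omega), hb1]
          dsimp only
          by_cases c3 : i < 2 * k + j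
          · rw [if_pos c3, if_pos (by omega), ac_cat_ge (a := 2 * k) (i := i) (by omega)]
          · rw [if_neg c3, if_neg (by omega), ac_cat_ge (a := 2 * k) (i := i + 1) (by omega)]
            congr 1
            omega)
  have hy0 : cat (a + 1) x x' 0 = x 0 := ac_cat_lt (by omega) _ _
  have h3 := ac_G_rec hk hG hj (cat (a + 1) x x') b hg (by rw [hy0]; exact hb)
  rw [hy0] at h3
  have h4 : G m (Function.update (cat (a + 1) x x') 0 (b j)) b1 = G m (cat a (fun i => x (i + 1)) x3) b1 := by
    rw [← hG.permy m (ac_cyc (2 * k - 1)).symm (by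
      intro i hi
      rw [ac_cyc_symm, if_neg (by omega), if_neg (by omega)]) (Function.update (cat (a + 1) x x') 0 (b j)) b1]
    apply hG.congr m _ _ _ _ _ (fun _ _ => rfl)
    intro i hi
    rw [ac_cyc_symm]
    by_cases c1 : i = 2 * k - 1
    · rw [if_pos c1, Function.update_self, ac_cat_ge (by omega), hx3]
      dsimp only
      rw [if_neg (by omega)]
    · rw [if_neg c1, if_pos (by omega), Function.update_of_ne (by omega)]
      by_cases c2 : i < a
      · rw [ac_cat_lt c2, ac_cat_lt (by omega)]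
      · rw [ac_cat_ge (by omega), ac_cat_ge (by omega), hx3]
        dsimp only
        rw [if_pos (by omega)]
        congr 1
        omega
  -- the factors
  have p1 : ∏ i ∈ Ico 1 (2 * k), s (cat (a + 1) x x' i - x 0) =
      (∏ i ∈ range a, s (x (i + 1) - x 0)) * ∏ i ∈ range c, s (x' i - x 0) := by
    have e : 2 * k = (a + c) + 1 := by omega
    rw [e, ac_prod_Ico, Finset.prod_range_add]
    congr 1
    · refine prod_congr rfl fun i hi => ?_
      rw [mem_range] at hi
      rw [ac_cat_lt (by omega)]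
    · refine prod_congr rfl fun i hi => ?_
      rw [ac_cat_ge (by omega)]
      congr 3
      omega
  have p2 : f0 (c + 1) (fun j => -x3 j) = f0 c (fun j => -x' j) * ∏ i ∈ range c, s (x' i - x 0) := by
    rw [ac_f0_last]
    congr 1
    · apply ac_f0_congr
      intro i hi
      rw [hx3]
      dsimp only
      rw [if_pos hi]
    · refine prod_congr rfl fun i hi => ?_
      rw [mem_range] at hi
      rw [hx3]
      dsimp only
      rw [if_pos hi, if_neg (by omega), hb]
      have : -x' i - -(x 0 + π / 3) = (x 0 - x' i) + π / 3 := by ring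
      rw [this, ac_s_add]
      congr 1
      ring
  have p3 : ∏ l ∈ (range (m + 1)).filter (fun l => l ≠ j), s (b l - x 0) ^ 2 =
      ∏ l ∈ range m, s (b1 l - x 0) ^ 2 := by
    rw [ac_prod_rem hj]
    refine prod_congr rfl fun l _ => ?_
    rw [hb1]
    dsimp only
    split_ifs <;> rfl
  have p4 := ac_f0_head a x
  unfold ac_D at h2 ⊢
  rw [sub_eq_zero] at h2 ⊢
  rw [h1, h3, h4, p1, p3, p4, Complex.ofReal_mul, h2, p2, Finset.prod_mul_distrib, ac_prod_Ico, ac_prod_Ico]
  push_cast
  ring

/-- the mirror image -/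
theorem ac_mirror (hG : ArmFun k G) {m a c : ℕ} (h : a + c = 2 * k) (x x' b : ℕ → ℝ) :
    ac_D G a c m x x' b =
      ac_D G a c m (fun j => -x (a - 1 - j)) (fun j => -x' (c - 1 - j)) (fun j => -b j) := by
  have e1 : f0 c (fun j => - -x' (c - 1 - j)) = f0 c (fun j => -x' j) := ac_f0_rev c (fun j => -x' j)
  have e2 : G m (cat a (fun j => -x (a - 1 - j)) (fun j => -x' (c - 1 - j))) (fun j => -b j) =
      G m (cat a x x') b := by
    rw [← hG.neg m (cat a x x') b]
    let e : ℕ → ℕ := fun j => if j < a then a - 1 - j else if j < 2 * k then a + (c - 1 - (j - a)) else j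
    have he : Function.Involutive e := by
      intro j
      simp only [e]
      split_ifs <;> omega
    rw [← hG.permy m he.toPerm (by
      intro i hi
      show e i = i
      simp only [e]
      rw [if_neg (by omega), if_neg (by omega)]) (fun j => -cat a x x' j) (fun j => -b j)]
    apply hG.congr m _ _ _ _ _ (fun _ _ => rfl)
    intro i hi
    show _ = -cat a x x' (e i)
    simp only [e]
    by_cases c1 : i < a
    · rw [if_pos c1, ac_cat_lt c1, ac_cat_lt (by omega)]
    · rw [if_neg c1, if_pos hi, ac_cat_ge (by omega), ac_cat_ge (by omega)]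
      congr 2
      omega
  unfold ac_D
  rw [← AF_mirror, e1, e2, ac_f0_rev]

/-- the first dangling parameter moved to the last position -/
theorem ac_cycle (hG : ArmFun k G) {m a c : ℕ} (h : a + c = 2 * k) (ha : 0 < a) (x x' b : ℕ → ℝ)
    (hg : ∀ i, 0 < i → i < a → s (x 0 - x i) ≠ 0) (h0 : ac_D G a c m x x' b = 0) :
    ac_D G a c m (fun j => if j + 1 < a then x (j + 1) else x 0) x' b = 0 := by
  obtain ⟨a, rfl⟩ : ∃ a', a = a' + 1 := ⟨a - 1, by omega⟩
  have h1 := AF_cycle (c := c) (m := m) ha x x' b hg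
  have h2 := ac_f0_cycle a x
  have h3 : G m (cat (a + 1) (fun j => if j + 1 < a + 1 then x (j + 1) else x 0) x') b =
      G m (cat (a + 1) x x') b := by
    rw [← hG.permy m (ac_cyc a).symm (by
      intro i hi
      rw [ac_cyc_symm, if_neg (by omega), if_neg (by omega)]) (cat (a + 1) x x') b]
    apply hG.congr m _ _ _ _ _ (fun _ _ => rfl)
    intro i hi
    rw [ac_cyc_symm]
    by_cases c1 : i = a
    · rw [if_pos c1, ac_cat_lt (by omega), if_neg (by omega), ac_cat_lt (by omega)]
    · rw [if_neg c1]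
      by_cases c2 : i < a
      · rw [if_pos c2, ac_cat_lt (by omega), if_pos (by omega), ac_cat_lt (by omega)]
      · rw [if_neg c2, ac_cat_ge (by omega), ac_cat_ge (by omega)]
  have hne : ∏ i ∈ range a, s (x 0 - x (i + 1)) ≠ 0 := by
    rw [Finset.prod_ne_zero_iff]
    intro i hi
    rw [mem_range] at hi
    exact hg (i + 1) (by omega) (by omega)
  rw [ac_prod_Ico, ac_prod_Ico] at h1
  unfold ac_D at h0 ⊢
  rw [sub_eq_zero] at h0 ⊢
  rw [h3]
  have hneC : ((∏ i ∈ range a, s (x 0 - x (i + 1)) : ℝ) : ℂ) ≠ 0 := Complex.ofReal_ne_zero.2 hne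
  apply mul_left_cancel₀ hneC
  have h1C := congrArg (fun z : ℝ => (z : ℂ)) h1
  have h2C := congrArg (fun z : ℝ => (z : ℂ)) h2
  simp only [Complex.ofReal_mul] at h1C h2C
  rw [← h1C, h0]
  linear_combination (((f0 c (fun j => -x' j) : ℝ) : ℂ) * G m (cat (a + 1) x x') b) * h2C

/-- `x 0 = b j + π/3` -/
theorem ac_P2 (hk : 0 < k) (hG : ArmFun k G) {m : ℕ}
    (IH : ∀ a c, a + c = 2 * k → ∀ x x' b, FG (2 * k + m) (cat (2 * k) (cat a x x') b) →
      ac_D G a c m x x' b = 0) {a c j : ℕ} (h : a + c = 2 * k) (ha : 0 < a) (hj : j < m + 1)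
    (x x' b : ℕ → ℝ) (hg : Gn (2 * k + (m + 1)) (cat (2 * k) (cat a x x') b)) (hb : x 0 = b j + π / 3) :
    ac_D G a c (m + 1) x x' b = 0 := by
  rw [ac_mirror hG h]
  set Xt : ℕ → ℝ := fun j => if j = 0 then -x 0 else -x (a - j) with hXt
  set X' : ℕ → ℝ := fun j => -x' (c - 1 - j) with hX'
  have hXt0 : Xt 0 = -x 0 := by rw [hXt]; dsimp only; rw [if_pos rfl]
  have hXti : ∀ i, 0 < i → Xt i = -x (a - i) := by
    intro i hi
    rw [hXt]
    dsimp only
    rw [if_neg (by omega)]
  have h1 : ac_D G a c (m + 1) Xt X' (fun j => -b j) = 0 := by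
    refine ac_P1 hk hG IH h ha hj _ _ _ ?_ (by rw [hXt0, hb]; ring)
    have hg' : Gn (2 * k + (m + 1)) (fun i => -cat (2 * k) (cat a x x') b i) :=
      ac_Gn_neg hg fun i _ _ => rfl
    refine ac_Gn_map hg' (fun i => if i < a then a - i else if i < 2 * k then a + (c - 1 - (i - a)) else i)
      ?_ ?_ ?_
    · intro i h0 h1
      split_ifs <;> constructor <;> omega
    · intro i i' h0 h0' h1 h1' hh
      split_ifs at hh <;> omega
    · intro i h0 h1
      by_cases c1 : i < a
      · rw [if_pos c1, ac_cat_lt (a := 2 * k) (i := i) (by omega), ac_cat_lt (a := a) (i := i) (by omega),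
          ac_cat_lt (a := 2 * k) (i := a - i) (by omega), ac_cat_lt (a := a) (i := a - i) (by omega), hXti i h0]
      · rw [if_neg c1]
        by_cases c2 : i < 2 * k
        · rw [if_pos c2, ac_cat_lt (a := 2 * k) (i := i) (by omega), ac_cat_ge (a := a) (i := i) (by omega),
            ac_cat_lt (a := 2 * k) (i := a + (c - 1 - (i - a))) (by omega),
            ac_cat_ge (a := a) (i := a + (c - 1 - (i - a))) (by omega), hX']
          dsimp only
          congr 2
          omega
        · rw [if_neg c2, ac_cat_ge (by omega), ac_cat_ge (by omega)]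
  have h2 := ac_cycle hG h ha Xt X' (fun j => -b j) (by
    intro i hi hia
    rw [hXt0, hXti i hi, hb]
    have e : -(b j + π / 3) - -x (a - i) = (x (a - i) - b j) - π / 3 := by ring
    rw [e, ac_s_sub]
    apply ac_sin
    have := hg (a - i) (2 * k + j) (by omega) (by omega) (by omega) (by omega) (by omega)
    rw [ac_cat_lt (a := 2 * k) (i := a - i) (by omega), ac_cat_lt (a := a) (i := a - i) (by omega),
      ac_cat_ge (a := 2 * k) (i := 2 * k + j) (by omega)] at this
    have e2 : 2 * k + j - 2 * k = j := by omega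
    rwa [e2] at this) h1
  have h3 : ac_D G a c (m + 1) (fun j => if j + 1 < a then Xt (j + 1) else Xt 0) X' (fun j => -b j) =
      ac_D G a c (m + 1) (fun j => -x (a - 1 - j)) X' (fun j => -b j) := by
    have hx : ∀ i < a, (if i + 1 < a then Xt (i + 1) else Xt 0) = -x (a - 1 - i) := by
      intro i hi
      by_cases c1 : i + 1 < a
      · rw [if_pos c1, hXti (i + 1) (by omega)]
        congr 2
        omega
      · rw [if_neg c1, hXt0]
        congr 2
        omega
    unfold ac_D
    rw [AF_congr a c (m + 1) hx (fun _ _ => rfl) (fun _ _ => rfl), ac_f0_congr hx,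
      hG.congr (m + 1) _ (cat a (fun j => -x (a - 1 - j)) X') _ (fun j => -b j) (by
        intro i hi
        by_cases c1 : i < a
        · rw [ac_cat_lt c1, ac_cat_lt c1]
          exact hx i c1
        · rw [ac_cat_ge (by omega), ac_cat_ge (by omega)]) (fun _ _ => rfl)]
  rw [← h3]
  exact h2

/-- `x 0 = x i - π/3` -/
theorem ac_P3 {m a c i : ℕ} (h : a + c = 2 * k) (hi : 0 < i) (hia : i < a)
    (x x' b : ℕ → ℝ) (hg : Gn (2 * k + (m + 1)) (cat (2 * k) (cat a x x') b)) (hx : x 0 = x i - π / 3) :
    ac_D G a c (m + 1) x x' b = 0 := by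
  obtain ⟨a, rfl⟩ : ∃ a', a = a' + 1 := ⟨a - 1, by omega⟩
  have h1 : AF (a + 1) c (m + 1) x x' b = 0 := by
    refine AF_vanish hi hia x x' b hx ?_
    intro l hl hla hli
    apply ac_s
    have := hg i l hi hl (by omega) (by omega) (Ne.symm hli)
    rwa [ac_cat_lt (a := 2 * k) (i := i) (by omega), ac_cat_lt (a := a + 1) (i := i) hia,
      ac_cat_lt (a := 2 * k) (i := l) (by omega), ac_cat_lt (a := a + 1) (i := l) hla] at this
  have h2 : f0 (a + 1) x = 0 := by
    rw [ac_f0_head]
    have : ∏ l ∈ range a, s (x 0 - x (l + 1)) = 0 := by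
      apply Finset.prod_eq_zero (i := i - 1) (mem_range.2 (by omega))
      have e : i - 1 + 1 = i := by omega
      rw [e, hx]
      have e2 : x i - π / 3 - x i = 0 - π / 3 := by ring
      rw [e2, ac_s_sub, Real.sin_zero]
    rw [this, zero_mul]
  unfold ac_D
  rw [h1, h2]
  simp

theorem ac_cat_update {a : ℕ} (ha : 0 < a) (x y : ℕ → ℝ) (t : ℝ) :
    cat a (Function.update x 0 t) y = Function.update (cat a x y) 0 t := by
  funext i
  by_cases h : i = 0
  · subst h
    rw [ac_cat_lt ha, Function.update_self, Function.update_self]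
  · rw [Function.update_of_ne h]
    by_cases h2 : i < a
    · rw [ac_cat_lt h2, ac_cat_lt h2, Function.update_of_ne h]
    · rw [ac_cat_ge (by omega), ac_cat_ge (by omega)]

theorem ac_Gn_update {n : ℕ} {u : ℕ → ℝ} (hg : Gn n u) (t : ℝ) : Gn n (Function.update u 0 t) := by
  intro i j hi hj hi' hj' hij
  rw [Function.update_of_ne (by omega), Function.update_of_ne (by omega)]
  exact hg i j hi hj hi' hj' hij

theorem ac_f0_TP (a : ℕ) (x : ℕ → ℝ) : TP a (fun t => f0 (a + 1) (Function.update x 0 t)) := by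
  have h := (TP.prod (range a) (m := fun _ => 1) (F := fun i t => s (t - x (i + 1)))
    (fun i _ => (TP.s_add (-x (i + 1))).tb_congr fun t => by rw [sub_eq_add_neg])).smul
    (f0 a (fun i => x (i + 1)))
  have e : ∑ _i ∈ range a, 1 = a := by simp
  rw [e] at h
  refine h.tb_congr fun t => ?_
  rw [ac_f0_head, Function.update_self, mul_comm]
  rfl

theorem ac_TPC (hG : ArmFun k G) {m a c : ℕ} (h : a + 1 + c = 2 * k)
    (x x' b : ℕ → ℝ) (hg : Gn (2 * k + (m + 1)) (cat (2 * k) (cat (a + 1) x x') b)) :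
    TPC (a + (m + 1)) (fun t => ac_D G (a + 1) c (m + 1) (Function.update x 0 t) x' b) := by
  have h1 := TPC.of_TP (AF_TP (c := c) (m := m + 1) (Nat.succ_pos a) x x' b)
  have e : a + 1 + (m + 1) - 1 = a + (m + 1) := by omega
  rw [Nat.succ_eq_add_one, e] at h1
  have h2 := ((TPC.of_TP (ac_f0_TP a x)).mul (hG.tpc (m + 1) (cat (a + 1) x x') b hg)).const_mul
    ((f0 c (fun j => -x' j) : ℝ) : ℂ)
  have h3 := h1.sub h2
  have e2 : (fun t => ac_D G (a + 1) c (m + 1) (Function.update x 0 t) x' b) = fun t : ℝ =>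
      ((AF (a + 1) c (m + 1) (Function.update x 0 t) x' b : ℝ) : ℂ) -
      ((f0 c (fun j => -x' j) : ℝ) : ℂ) * (((f0 (a + 1) (Function.update x 0 t) : ℝ) : ℂ) *
        G (m + 1) (Function.update (cat (a + 1) x x') 0 t) b) := by
    funext t
    unfold ac_D
    rw [ac_cat_update (Nat.succ_pos a)]
    ring
  rw [e2]
  exact h3

/-- the induction step, `0 < a` -/
theorem ac_step (hk : 0 < k) (hG : ArmFun k G) {m : ℕ}
    (IH : ∀ a c, a + c = 2 * k → ∀ x x' b, FG (2 * k + m) (cat (2 * k) (cat a x x') b) →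
      ac_D G a c m x x' b = 0) {a c : ℕ} (h : a + c = 2 * k) (ha : 0 < a)
    (x x' b : ℕ → ℝ) (hg : Gn (2 * k + (m + 1)) (cat (2 * k) (cat a x x') b)) :
    ac_D G a c (m + 1) x x' b = 0 := by
  obtain ⟨a, rfl⟩ : ∃ a', a = a' + 1 := ⟨a - 1, by omega⟩
  set u : ℕ → ℝ := cat (2 * k) (cat (a + 1) x x') b with hu
  let f : ℕ × Bool → ℝ := fun z => u z.1 + (if z.2 then π / 3 else -(π / 3))
  let S : Finset (ℕ × Bool) := (Ico (2 * k) (2 * k + (m + 1)) ×ˢ (univ : Finset Bool)) ∪
    (Ico 1 (a + 1) ×ˢ {false})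
  have hS : ∀ z ∈ S, 0 < z.1 ∧ z.1 < 2 * k + (m + 1) := by
    intro z hz
    rcases Finset.mem_union.1 hz with hz | hz
    · have := (mem_Ico.1 (mem_product.1 hz).1)
      omega
    · have := (mem_Ico.1 (mem_product.1 hz).1)
      omega
  have hsin : ∀ z ∈ S, ∀ w ∈ S, z ≠ w → Real.sin (f z - f w) ≠ 0 := by
    rintro ⟨i, p⟩ hz ⟨i', q⟩ hw hne
    have hi := hS _ hz
    have hi' := hS _ hw
    by_cases hii : i = i'
    · subst hii
      have h3 : Real.sin (2 * (π / 3)) ≠ 0 := by
        have : 2 * (π / 3) = π - π / 3 := by ring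
        rw [this, Real.sin_pi_sub, Real.sin_pi_div_three]
        positivity
      cases p <;> cases q
      · exact absurd rfl hne
      · show Real.sin (u i + -(π / 3) - (u i + π / 3)) ≠ 0
        have : u i + -(π / 3) - (u i + π / 3) = -(2 * (π / 3)) := by ring
        rw [this, Real.sin_neg]
        exact neg_ne_zero.2 h3
      · show Real.sin (u i + π / 3 - (u i + -(π / 3))) ≠ 0
        have : u i + π / 3 - (u i + -(π / 3)) = 2 * (π / 3) := by ring
        rw [this]
        exact h3
      · exact absurd rfl hne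
    · have h3 := hg i i' hi.1 hi'.1 hi.2 hi'.2 hii
      cases p <;> cases q
      · show Real.sin (u i + -(π / 3) - (u i' + -(π / 3))) ≠ 0
        have := ac_sin3 h3 0
        convert this using 2
        push_cast
        ring
      · show Real.sin (u i + -(π / 3) - (u i' + π / 3)) ≠ 0
        have := ac_sin3 h3 (-2)
        convert this using 2
        push_cast
        ring
      · show Real.sin (u i + π / 3 - (u i' + -(π / 3))) ≠ 0
        have := ac_sin3 h3 2
        convert this using 2
        push_cast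
        ring
      · show Real.sin (u i + π / 3 - (u i' + π / 3)) ≠ 0
        have := ac_sin3 h3 0
        convert this using 2
        push_cast
        ring
  have hfI : Set.InjOn f S := by
    intro z hz w hw hzw
    by_contra hne
    exact hsin z (Finset.mem_coe.1 hz) w (Finset.mem_coe.1 hw) hne (by rw [hzw, sub_self, Real.sin_zero])
  have hcard : a + (m + 1) < (S.image f).card := by
    rw [card_image_of_injOn hfI, card_union_of_disjoint, card_product, card_product, Nat.card_Ico,
      Nat.card_Ico, card_singleton]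
    · have : (univ : Finset Bool).card = 2 := by decide
      rw [this]
      omega
    · rw [Finset.disjoint_left]
      intro z hz hz'
      have h1 := (mem_Ico.1 (mem_product.1 hz).1)
      have h2 := (mem_Ico.1 (mem_product.1 hz').1)
      omega
  have hall := (ac_TPC hG h x x' b hg).eq_zero (S.image f) hcard
    (by
      intro t ht t' ht' htt
      obtain ⟨z, hz, rfl⟩ := mem_image.mp ht
      obtain ⟨w, hw, rfl⟩ := mem_image.mp ht'
      exact hsin z hz w hw fun hh => htt (by rw [hh]))
    (by
      intro t ht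
      obtain ⟨⟨i, p⟩, hz, rfl⟩ := mem_image.mp ht
      have hgt : Gn (2 * k + (m + 1))
          (cat (2 * k) (cat (a + 1) (Function.update x 0 (f (i, p))) x') b) := by
        rw [ac_cat_update (Nat.succ_pos a), ac_cat_update (by omega)]
        exact ac_Gn_update hg _
      rcases Finset.mem_union.1 hz with hz' | hz'
      · have hi := (mem_Ico.1 (mem_product.1 hz').1)
        have hui : u i = b (i - 2 * k) := ac_cat_ge hi.1 _ _
        cases p
        · refine ac_P1 hk hG IH h ha (j := i - 2 * k) (by omega) _ _ _ hgt ?_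
          rw [Function.update_self]
          show b (i - 2 * k) = u i + -(π / 3) + π / 3
          rw [hui]
          ring
        · refine ac_P2 hk hG IH h ha (j := i - 2 * k) (by omega) _ _ _ hgt ?_
          rw [Function.update_self]
          show u i + π / 3 = b (i - 2 * k) + π / 3
          rw [hui]
      · have hi := (mem_Ico.1 (mem_product.1 hz').1)
        have hp : p = false := mem_singleton.1 (mem_product.1 hz').2
        subst hp
        have hui : u i = x i := by
          rw [hu, ac_cat_lt (by omega), ac_cat_lt (by omega)]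
        refine ac_P3 h (i := i) (by omega) (by omega) _ _ _ hgt ?_
        rw [Function.update_self, Function.update_of_ne (by omega)]
        show u i + -(π / 3) = x i - π / 3
        rw [hui]
        ring)
  have := hall (x 0)
  rwa [Function.update_eq_self] at this

theorem ac_all (hk : 0 < k) (hG : ArmFun k G) (m : ℕ) : ∀ a c, a + c = 2 * k → ∀ x x' b,
    FG (2 * k + m) (cat (2 * k) (cat a x x') b) → ac_D G a c m x x' b = 0 := by
  induction m with
  | zero =>
    intro a c _ x x' b _
    unfold ac_D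
    rw [AF_zero, hG.zero]
    push_cast
    ring
  | succ m IH =>
    intro a c h x x' b hg
    rcases Nat.eq_zero_or_pos a with ha | ha
    · subst ha
      have hc : c = 2 * k := by omega
      subst hc
      have h1 := ac_step hk hG IH (a := 2 * k) (c := 0) (by omega) (by omega) (fun j => -x' j) (fun j => -x j)
        (fun j => -b j) (by
          refine ac_Gn_neg (ac_FG_Gn hg) ?_
          intro i _ hi
          by_cases c1 : i < 2 * k
          · rw [ac_cat_lt c1, ac_cat_lt c1, ac_cat_lt c1, ac_cat_ge (by omega)]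
            rfl
          · rw [ac_cat_ge (by omega), ac_cat_ge (by omega)])
      have e1 : G (m + 1) (cat (2 * k) (fun j => -x' j) (fun j => -x j)) (fun j => -b j) =
          G (m + 1) (cat 0 x x') b := by
        rw [← hG.neg (m + 1) (cat 0 x x') b]
        apply hG.congr (m + 1) _ _ _ _ _ (fun _ _ => rfl)
        intro i hi
        rw [ac_cat_lt hi, ac_cat_ge (by omega)]
        rfl
      have e2 : ∀ z : ℕ → ℝ, f0 0 z = 1 := by
        intro z
        unfold f0
        simp
      unfold ac_D at h1 ⊢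
      rw [e1, e2] at h1
      rw [AF_flip, e2, ← h1]
      ring
    · exact ac_step hk hG IH h ha x x' b (ac_FG_Gn hg)

end

/-- THE CLOSED FORM.  Induction on `m`; `m = 0`: `AF_zero`.  `m + 1`, `0 < a`: both sides are trigonometric
polynomials of degree `a + m` in `t = x 0`; they agree at `t = b j - π/3` (`AF_rec_plus`, `recur`, `permb`, `permy`,
induction), `t = b j + π/3` (the same after `AF_mirror` and `neg`) and `t = x i - π/3`, `0 < i < a` (`AF_vanish`; the factor
`s (x 0 - x i)` of `f0`): `2 (m + 1) + a - 1 > a + m` points.  `a = 0`: `AF_flip`, `neg`. -/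
theorem arm_form {k : ℕ} (hk : 0 < k) {G : ℕ → (ℕ → ℝ) → (ℕ → ℝ) → ℂ} (hG : ArmFun k G) (m a c : ℕ)
    (h : a + c = 2 * k) (x x' b : ℕ → ℝ) (hg : FG (2 * k + m) (cat (2 * k) (cat a x x') b)) :
    (AF a c m x x' b : ℂ) = f0 a x * f0 c (fun j => -x' j) * G m (cat a x x') b :=
  sub_eq_zero.1 (ac_all hk hG m a c h x x' b hg)
end IPC
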