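import Pool.Agent.Helper64.IPC.SDefs
import Pool.Agent.Lead.IP.Trig
/-! MODULE TPC: complex valued trigonometric polynomials of one variable.
(Adapt the proofs of `IP.TP` in `Pool/Agent/Lead/IP/Trig.lean`.) -/
namespace IPC
open IP Finset Real

/-- complex valued trigonometric polynomials with frequencies `-m, -m+2, ..., m` -/
def TPC (m : ℕ) (F : ℝ → ℂ) : Prop :=
  ∃ P : Polynomial ℂ, P.natDegree ≤ m ∧
    ∀ x : ℝ, F x = Complex.exp (-(m * x * Complex.I)) * P.eval (Complex.exp (2 * x * Complex.I))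

theorem TPC.of_TP {m : ℕ} {F : ℝ → ℝ} (hF : TP m F) : TPC m (fun x => (F x : ℂ)) := hF

theorem TPC.add {m : ℕ} {F G : ℝ → ℂ} (hF : TPC m F) (hG : TPC m G) :
    TPC m (fun x => F x + G x) := by
  obtain ⟨P, hP, hP'⟩ := hF
  obtain ⟨Q, hQ, hQ'⟩ := hG
  refine ⟨P + Q, (Polynomial.natDegree_add_le _ _).trans (max_le hP hQ), fun x => ?_⟩
  dsimp only
  rw [hP', hQ', Polynomial.eval_add]; ring

theorem TPC.sub {m : ℕ} {F G : ℝ → ℂ} (hF : TPC m F) (hG : TPC m G) :
    TPC m (fun x => F x - G x) := by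
  obtain ⟨P, hP, hP'⟩ := hF
  obtain ⟨Q, hQ, hQ'⟩ := hG
  refine ⟨P - Q, (Polynomial.natDegree_sub_le _ _).trans (max_le hP hQ), fun x => ?_⟩
  dsimp only
  rw [hP', hQ', Polynomial.eval_sub]; ring

theorem TPC.const_mul {m : ℕ} {F : ℝ → ℂ} (c : ℂ) (hF : TPC m F) :
    TPC m (fun x => c * F x) := by
  obtain ⟨P, hP, hP'⟩ := hF
  refine ⟨Polynomial.C c * P, (Polynomial.natDegree_C_mul_le _ _).trans hP, fun x => ?_⟩
  dsimp only
  rw [hP', Polynomial.eval_mul, Polynomial.eval_C]; ring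

theorem TPC.mul {m k : ℕ} {F G : ℝ → ℂ} (hF : TPC m F) (hG : TPC k G) :
    TPC (m + k) (fun x => F x * G x) := by
  obtain ⟨P, hP, hP'⟩ := hF
  obtain ⟨Q, hQ, hQ'⟩ := hG
  refine ⟨P * Q, Polynomial.natDegree_mul_le.trans (Nat.add_le_add hP hQ), fun x => ?_⟩
  dsimp only
  rw [hP', hQ', Polynomial.eval_mul]
  have : Complex.exp (-(((m + k : ℕ) : ℂ) * x * Complex.I)) =
      Complex.exp (-(m * x * Complex.I)) * Complex.exp (-(k * x * Complex.I)) := by
    rw [← Complex.exp_add]; congr 1; push_cast; ring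
  rw [this]; ring

theorem TPC.conj {m : ℕ} {F : ℝ → ℂ} (hF : TPC m F) :
    TPC m (fun x => (starRingEnd ℂ) (F x)) := by
  obtain ⟨P, hP, hP'⟩ := hF
  have hQ : (P.map (starRingEnd ℂ)).natDegree ≤ m := (Polynomial.natDegree_map_le).trans hP
  refine ⟨Polynomial.reflect m (P.map (starRingEnd ℂ)), ?_, fun x => ?_⟩
  · rw [Polynomial.natDegree_le_iff_coeff_eq_zero]
    intro N hN
    rw [Polynomial.coeff_reflect, Polynomial.revAt_eq_self_of_lt hN]
    exact Polynomial.coeff_eq_zero_of_natDegree_lt (lt_of_le_of_lt hQ hN)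
  · dsimp only
    rw [hP', map_mul]
    have h1 : (starRingEnd ℂ) (Complex.exp (-(m * x * Complex.I))) =
        Complex.exp (m * x * Complex.I) := by
      rw [← Complex.exp_conj]
      simp
    have h2 : (starRingEnd ℂ) (P.eval (Complex.exp (2 * x * Complex.I))) =
        (P.map (starRingEnd ℂ)).eval (Complex.exp (-(2 * x * Complex.I))) := by
      rw [← Polynomial.eval₂_id, Polynomial.hom_eval₂, Polynomial.eval_map]
      congr 1
      rw [← Complex.exp_conj]
      have h2c : (starRingEnd ℂ) 2 = 2 := Complex.conj_ofNat 2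
      simp [h2c]
    have hne : Complex.exp (-(2 * (x : ℂ) * Complex.I)) ≠ 0 := Complex.exp_ne_zero _
    let _inst : Invertible (Complex.exp (-(2 * (x : ℂ) * Complex.I))) := invertibleOfNonzero hne
    have h3 := Polynomial.eval₂_reflect_mul_pow (RingHom.id ℂ) (Complex.exp (-(2 * (x : ℂ) * Complex.I)))
      m (P.map (starRingEnd ℂ)) hQ
    rw [Polynomial.eval₂_id, Polynomial.eval₂_id] at h3
    have h4 : ⅟ (Complex.exp (-(2 * (x : ℂ) * Complex.I))) = Complex.exp (2 * x * Complex.I) := by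
      rw [invOf_eq_inv, ← Complex.exp_neg, neg_neg]
    rw [h4] at h3
    rw [h1, h2, ← h3]
    have h5 : Complex.exp (m * x * Complex.I) * Complex.exp (-(2 * (x : ℂ) * Complex.I)) ^ m =
        Complex.exp (-(m * x * Complex.I)) := by
      rw [← Complex.exp_nat_mul, ← Complex.exp_add]; congr 1; ring
    rw [← h5]; ring

/-- more than `m` roots modulo `π` -/
theorem TPC.eq_zero {m : ℕ} {F : ℝ → ℂ} (hF : TPC m F) (t : Finset ℝ) (ht : m < t.card)
    (hd : ∀ x ∈ t, ∀ y ∈ t, x ≠ y → Real.sin (x - y) ≠ 0) (h0 : ∀ x ∈ t, F x = 0) :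
    ∀ x, F x = 0 := by
  obtain ⟨P, hP, hP'⟩ := hF
  have hinj : Set.InjOn (fun x : ℝ => Complex.exp (2 * x * Complex.I)) (t : Set ℝ) := by
    intro x hx y hy hxy
    by_contra hne
    refine hd x hx y hy hne ?_
    have h1 : Complex.exp (2 * x * Complex.I) = Complex.exp (2 * y * Complex.I) := hxy
    rw [Complex.exp_eq_exp_iff_exists_int] at h1
    obtain ⟨n, hn⟩ := h1
    have h2 : ((x : ℂ) - y) = n * π := by
      have h3 : (2 * Complex.I) * ((x : ℂ) - y) = (2 * Complex.I) * (n * π) := by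
        linear_combination hn
      exact mul_left_cancel₀ (by simp [Complex.I_ne_zero]) h3
    have h4 : x - y = n * π := by exact_mod_cast h2
    rw [h4]; exact Real.sin_int_mul_pi n
  have hz : P = 0 := by
    by_contra hne
    have h1 : (t.image fun x : ℝ => Complex.exp (2 * x * Complex.I)).card ≤ P.natDegree := by
      have h2 : (t.image fun x : ℝ => Complex.exp (2 * x * Complex.I)) ⊆ P.roots.toFinset := by
        intro z hz
        obtain ⟨x, hx, rfl⟩ := Finset.mem_image.mp hz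
        rw [Multiset.mem_toFinset, Polynomial.mem_roots hne, Polynomial.IsRoot.def]
        have h3 := hP' x
        rw [h0 x hx] at h3
        exact (mul_eq_zero.mp h3.symm).resolve_left (Complex.exp_ne_zero _)
      exact (Finset.card_le_card h2).trans ((Multiset.toFinset_card_le _).trans (Polynomial.card_roots' P))
    rw [Finset.card_image_of_injOn hinj] at h1
    omega
  intro x
  rw [hP', hz]; simp

end IPC
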