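import Pool.Agent.Helper64.IPC.ArmB
import Pool.Agent.Helper64.IPC.TPC
/-! Definitions for MODULE ARMC: genericity, the properties `ArmFun k G`. -/
namespace IPC
open IP Finset Real

/-- full genericity of `n` parameters -/
def FG (n : ℕ) (u : ℕ → ℝ) : Prop := ∀ i j, i < n → j < n → i ≠ j → Real.sin (3 * (u i - u j)) ≠ 0
/-- genericity of all parameters except the first -/
def Gn (n : ℕ) (u : ℕ → ℝ) : Prop :=
  ∀ i j, 0 < i → 0 < j → i < n → j < n → i ≠ j → Real.sin (3 * (u i - u j)) ≠ 0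

/-- the properties that determine the arm function; `y`: `2k` parameters, `b`: `m` parameters -/
structure ArmFun (k : ℕ) (G : ℕ → (ℕ → ℝ) → (ℕ → ℝ) → ℂ) : Prop where
  zero : ∀ y b, G 0 y b = 1
  congr : ∀ (m : ℕ) (y y' b b' : ℕ → ℝ), (∀ j < 2 * k, y j = y' j) → (∀ j < m, b j = b' j) → G m y b = G m y' b'
  permy : ∀ (m : ℕ) (e : Equiv.Perm ℕ), (∀ j, 2 * k ≤ j → e j = j) → ∀ y b, G m (fun j => y (e j)) b = G m y b
  permb : ∀ (m : ℕ) (e : Equiv.Perm ℕ), (∀ j, m ≤ j → e j = j) → ∀ y b, G m y (fun j => b (e j)) = G m y b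
  neg : ∀ (m : ℕ) y b, G m (fun j => -y j) (fun j => -b j) = G m y b
  tpc : ∀ (m : ℕ) (y b : ℕ → ℝ), Gn (2 * k + m) (cat (2 * k) y b) → TPC m (fun t => G m (Function.update y 0 t) b)
  recur : ∀ (m : ℕ) (y b : ℕ → ℝ), Gn (2 * k + (m + 1)) (cat (2 * k) y b) → b 0 = y 0 + π / 3 →
    G (m + 1) y b = ((Real.sqrt 3 / 2 * (∏ i ∈ Ico 1 (2 * k), s (y i - y 0)) *
      ∏ j ∈ range m, s (b (j + 1) - y 0) ^ 2 : ℝ) : ℂ) * G m (Function.update y 0 (b 0)) (fun j => b (j + 1))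

end IPC
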