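import Pool.Agent.Helper64.IPC.ArmC0
/-! MODULE ARMC, part 1: the recursion of `AF`. -/
namespace IPC
open IP Finset Real

/-- the cycle `0 ↦ j`, `i ↦ i - 1` for `1 ≤ i ≤ j` -/
def armc_cyc (j : ℕ) : Equiv.Perm ℕ where
  toFun l := if l = 0 then j else if l ≤ j then l - 1 else l
  invFun l := if l = j then 0 else if l < j then l + 1 else l
  left_inv l := by
    dsimp only
    by_cases h0 : l = 0
    · rw [if_pos h0, if_pos rfl, h0]
    · rw [if_neg h0]
      by_cases h1 : l ≤ j
      · rw [if_pos h1, if_neg (by omega), if_pos (by omega)]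
        omega
      · rw [if_neg h1, if_neg (by omega), if_neg (by omega)]
  right_inv l := by
    dsimp only
    by_cases h0 : l = j
    · rw [if_pos h0, if_pos rfl, h0]
    · rw [if_neg h0]
      by_cases h1 : l < j
      · rw [if_pos h1, if_neg (by omega), if_pos (by omega)]
        omega
      · rw [if_neg h1, if_neg (by omega), if_neg (by omega)]

theorem armc_cyc_apply (j l : ℕ) :
    armc_cyc j l = if l = 0 then j else if l ≤ j then l - 1 else l := rfl

theorem armc_cyc_zero (j : ℕ) : armc_cyc j 0 = j := by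
  rw [armc_cyc_apply, if_pos rfl]

theorem armc_cyc_succ (j l : ℕ) : armc_cyc j (l + 1) = if l < j then l else l + 1 := by
  rw [armc_cyc_apply, if_neg (by omega)]
  by_cases h : l < j
  · rw [if_pos (by omega), if_pos h]
    omega
  · rw [if_neg (by omega), if_neg h]

theorem armc_prod (m j : ℕ) (hj : j < m + 1) (f : ℕ → ℝ) :
    ∏ l ∈ (range (m + 1)).filter (fun l => l ≠ j), f l = ∏ l ∈ range m, f (if l < j then l else l + 1) := by
  symm
  apply Finset.prod_nbij (fun l => if l < j then l else l + 1)
  · intro l hl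
    have hl' := Finset.mem_range.1 hl
    rw [Finset.mem_filter, Finset.mem_range]
    by_cases h : l < j
    · rw [if_pos h]
      omega
    · rw [if_neg h]
      omega
  · intro l _ l' _ he
    dsimp only at he
    by_cases h : l < j
    · by_cases h' : l' < j
      · rw [if_pos h, if_pos h'] at he
        exact he
      · rw [if_pos h, if_neg h'] at he
        omega
    · by_cases h' : l' < j
      · rw [if_neg h, if_pos h'] at he
        omega
      · rw [if_neg h, if_neg h'] at he
        omega
  · intro l hl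
    have hl' := Finset.mem_filter.1 (Finset.mem_coe.1 hl)
    have h1 := Finset.mem_range.1 hl'.1
    have h2 := hl'.2
    by_cases h : l < j
    · refine ⟨l, Finset.mem_coe.2 (Finset.mem_range.2 (by omega)), ?_⟩
      dsimp only
      rw [if_pos h]
    · refine ⟨l - 1, Finset.mem_coe.2 (Finset.mem_range.2 (by omega)), ?_⟩
      dsimp only
      rw [if_neg (by omega)]
      omega
  · intro l _
    rfl

/-- `KK` for the parameters after the cycle -/
theorem armc_KK {a m : ℕ} (ha : 0 < a) (x b : ℕ → ℝ) :
    KK (a + m + 1) (a - 1) (cat a x b) =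
      Real.sqrt 3 / 2 * ((∏ i ∈ range (a - 1), s (x i - x (a - 1)) ^ 2) *
        ∏ l ∈ range m, s (b (l + 1) - x (a - 1)) ^ 2) := by
  obtain ⟨a, rfl⟩ : ∃ a', a = a' + 1 := ⟨a - 1, by omega⟩
  rw [Nat.add_sub_cancel]
  unfold KK
  congr 1
  have h0 : cat (a + 1) x b a = x a := if_pos (by omega)
  rw [h0]
  have hsplit : (range (a + 1 + m + 1)).filter (fun j => j ≠ a ∧ j ≠ a + 1) =
      range a ∪ (range m).image (fun l => a + 2 + l) := by
    ext l
    simp only [Finset.mem_filter, Finset.mem_range, Finset.mem_union, Finset.mem_image]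
    constructor
    · intro h
      by_cases hl : l < a
      · exact Or.inl hl
      · right
        exact ⟨l - (a + 2), by omega, by omega⟩
    · rintro (h | ⟨l', h, rfl⟩)
      · omega
      · omega
  have hdisj : Disjoint (range a) ((range m).image (fun l => a + 2 + l)) := by
    rw [Finset.disjoint_left]
    intro l hl hl2
    rw [Finset.mem_range] at hl
    rw [Finset.mem_image] at hl2
    obtain ⟨l', _, h⟩ := hl2
    omega
  rw [hsplit, Finset.prod_union hdisj, Finset.prod_image (by intro l _ l' _ h; dsimp only at h; omega)]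
  congr 1
  · apply Finset.prod_congr rfl
    intro l hl
    rw [Finset.mem_range] at hl
    have : cat (a + 1) x b l = x l := if_pos (by omega)
    rw [this]
  · apply Finset.prod_congr rfl
    intro l hl
    have : cat (a + 1) x b (a + 2 + l) = b (l + 1) := by
      unfold cat
      rw [if_neg (by omega)]
      congr 1
      omega
    rw [this]

theorem armc_prod_Ico (a : ℕ) (f : ℕ → ℝ) : ∏ i ∈ Ico 1 a, f i = ∏ i ∈ range (a - 1), f (i + 1) := by
  rw [Finset.prod_Ico_eq_prod_range]
  apply Finset.prod_congr rfl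
  intro i _
  rw [add_comm]

/-- genericity: the two sines do not vanish -/
theorem armc_s_ne {t u : ℝ} (h : Real.sin (3 * (t - u)) ≠ 0) :
    s (t - π / 3 - u) ≠ 0 ∧ s (u - (t - π / 3)) ≠ 0 := by
  constructor
  · intro h0
    apply h
    unfold s at h0
    have h1 : Real.sin (t - u) = 0 := by
      rw [← h0]
      congr 1
      ring
    rw [Real.sin_three_mul, h1]
    ring
  · intro h0
    apply h
    unfold s at h0
    obtain ⟨n, hn⟩ := Real.sin_eq_zero_iff.1 h0
    have h1 : 3 * (t - u) = ((2 - 3 * n : ℤ) : ℝ) * π := by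
      push_cast
      linear_combination 3 * hn
    rw [h1]
    exact Real.sin_int_mul_pi _

/-- the recursion of `AF` at `b j = x 0 + π/3` (`AF_perm`, `AF_cycle`, `AF_rec`) -/
theorem AF_rec_plus {a c m j : ℕ} (ha : 0 < a) (hj : j < m + 1) (x x' b : ℕ → ℝ)
    (hg : Gn (a + c + (m + 1)) (cat (a + c) (cat a x x') b)) (h : b j = x 0 + π / 3) :
    AF a c (m + 1) x x' b =
      (Real.sqrt 3 / 2 * (∏ i ∈ Ico 1 a, s (x 0 - x i) * s (x i - x 0)) *
        ∏ l ∈ (range (m + 1)).filter (fun l => l ≠ j), s (b l - x 0) ^ 2) *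
      AF (a - 1) (c + 1) m (fun i => x (i + 1)) (fun i => if i < c then x' i else b j)
        (fun i => if i < j then b i else b (i + 1)) := by
  have hx0 : x 0 = b j - π / 3 := by linarith
  have hgen : ∀ i, 0 < i → i < a → Real.sin (3 * (b j - x i)) ≠ 0 := by
    intro i hi hia
    have h1 := hg (a + c + j) i (by omega) hi (by omega) (by omega) (by omega)
    have e1 : cat (a + c) (cat a x x') b (a + c + j) = b j := by
      unfold cat
      rw [if_neg (by omega)]
      congr 1
      omega
    have e2 : cat (a + c) (cat a x x') b i = x i := by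
      unfold cat
      rw [if_pos (by omega), if_pos hia]
    rw [e1, e2] at h1
    exact h1
  have hs1 : ∀ i, 0 < i → i < a → s (x 0 - x i) ≠ 0 := by
    intro i hi hia
    rw [hx0]
    exact (armc_s_ne (hgen i hi hia)).1
  have hs2 : ∀ i, 0 < i → i < a → s (x i - x 0) ≠ 0 := by
    intro i hi hia
    rw [hx0]
    exact (armc_s_ne (hgen i hi hia)).2
  rw [← AF_perm a c (m + 1) (armc_cyc j) (fun l hl => by
    rw [armc_cyc_apply, if_neg (by omega), if_neg (by omega)]) x x' b]
  have hc := AF_cycle (c := c) (m := m + 1) ha x x' (fun l => b (armc_cyc j l)) hs1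
  have hr := AF_rec (c := c) (m := m) ha (fun l => if l + 1 < a then x (l + 1) else x 0) x'
    (fun l => b (armc_cyc j l)) (by
      rw [armc_cyc_zero, if_neg (by omega)]
      exact h)
  rw [armc_KK ha] at hr
  have hlast : (if a - 1 + 1 < a then x (a - 1 + 1) else x 0) = x 0 := if_neg (by omega)
  have hP1 : ∏ i ∈ range (a - 1), s ((if i + 1 < a then x (i + 1) else x 0) - x 0) ^ 2 =
      (∏ i ∈ Ico 1 a, s (x i - x 0)) ^ 2 := by
    rw [armc_prod_Ico, ← Finset.prod_pow]
    apply Finset.prod_congr rfl
    intro i hi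
    rw [Finset.mem_range] at hi
    rw [if_pos (by omega)]
  have hP2 : ∏ l ∈ range m, s (b (armc_cyc j (l + 1)) - x 0) ^ 2 =
      ∏ l ∈ (range (m + 1)).filter (fun l => l ≠ j), s (b l - x 0) ^ 2 := by
    rw [armc_prod m j hj (fun l => s (b l - x 0) ^ 2)]
    apply Finset.prod_congr rfl
    intro l _
    rw [armc_cyc_succ]
  rw [hlast, hP1, hP2] at hr
  have hAF : AF (a - 1) (c + 1) m (fun l => if l + 1 < a then x (l + 1) else x 0)
      (fun l => if l < c then x' l else b (armc_cyc j 0)) (fun l => b (armc_cyc j (l + 1))) =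
      AF (a - 1) (c + 1) m (fun i => x (i + 1)) (fun i => if i < c then x' i else b j)
        (fun i => if i < j then b i else b (i + 1)) := by
    apply AF_congr
    · intro l hl
      rw [if_pos (by omega)]
    · intro l _
      rw [armc_cyc_zero]
    · intro l _
      rw [armc_cyc_succ]
      by_cases hl : l < j
      · rw [if_pos hl, if_pos hl]
      · rw [if_neg hl, if_neg hl]
  rw [hAF] at hr
  rw [hr] at hc
  have hne : (∏ i ∈ Ico 1 a, s (x i - x 0)) ≠ 0 := by
    rw [Finset.prod_ne_zero_iff]
    intro i hi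
    rw [Finset.mem_Ico] at hi
    exact hs2 i (by omega) hi.2
  apply mul_left_cancel₀ hne
  rw [hc, Finset.prod_mul_distrib]
  ring

end IPC
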