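import Pool.Agent.Helper64.IPC.SDefs
/-! MODULE SCHUR: the Schur functions `SG h m` (exponents `h 0 < h 1 < ...`, `m` variables); `SS = SG hh`
(exponents 0,1,3,4,6,7,...), `SD = SG hd` (exponents 0,2,3,5,6,8,...).
Newton interpolation `z_i^h = Σ_{l ≤ i} H_{h-l}(z_0..z_l) ∏_{r<l} (z_i - z_r)` gives
`det (z_i^{h_j}) = Vandermonde * SG h m z`.
Recursions (`1 + w + w² = 0`, `z_1 = w z_0`): in `det (z_i^{h_j})` the rows `0`, `1` span, modulo the other columns ...:
for `h = hh` the exponents are `0, 1 mod 3`; `z_0^{3k} = 1 * z_0^{3k}`, `(w z_0)^{3k} = z_0^{3k}`, `(w z_0)^{3k+1} = w z_0^{3k+1}`.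
Subtract the rows: row `1` minus row `0` has only the exponents `3k+1`, row `1` minus `w` row `0` only the exponents `3k`.
With `u = z_0^3`: column operations `col (3k+3) - u col (3k)` (same for `3k+1`) give rows `2, ...` equal to
`z_i^{3k} (z_i^3 - u)`.  Result: `(1, z_0)`-block times `∏ (z_i^3 - z_0^3)` times the determinant of size `m`. -/
namespace IPC
open IP Finset Real

/-! ### complete homogeneous functions -/

/-- complete homogeneous symmetric function of degree `k` in `z 0, ..., z (l-1)` -/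
def schE : ℕ → ℕ → (ℕ → ℂ) → ℂ
  | 0, _, _ => 1
  | _ + 1, 0, _ => 0
  | k + 1, l + 1, z => schE (k + 1) l z + z l * schE k (l + 1) z

/-- complete homogeneous symmetric function of degree `k` in `z 0, ..., z (l-1), x` -/
noncomputable def schX : ℕ → ℕ → (ℕ → ℂ) → ℂ → ℂ
  | 0, _, _, _ => 1
  | k + 1, l, z, x => schE (k + 1) l z + x * schX k l z x

theorem schE_zero (l : ℕ) (z : ℕ → ℂ) : schE 0 l z = 1 := by
  rw [schE]

theorem schE_s0 (k : ℕ) (z : ℕ → ℂ) : schE (k + 1) 0 z = 0 := by
  rw [schE]

theorem schE_succ (k l : ℕ) (z : ℕ → ℂ) :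
    schE (k + 1) (l + 1) z = schE (k + 1) l z + z l * schE k (l + 1) z := by
  rw [schE]

theorem HH_zero (l : ℕ) (z : ℕ → ℂ) : HH 0 l z = 1 := by
  rw [HH]

theorem HH_s0 (k : ℕ) (z : ℕ → ℂ) : HH (k + 1) 0 z = z 0 ^ (k + 1) := by
  rw [HH]

theorem HH_ss (k l : ℕ) (z : ℕ → ℂ) :
    HH (k + 1) (l + 1) z = HH (k + 1) l z + z (l + 1) * HH k (l + 1) z := by
  rw [HH]

theorem HH_eq (k l : ℕ) (z : ℕ → ℂ) : HH k l z = schE k (l + 1) z := by
  induction k generalizing l with
  | zero => rw [HH_zero, schE_zero]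
  | succ k ih =>
    induction l with
    | zero =>
      have h0 : ∀ n, schE n 1 z = z 0 ^ n := by
        intro n
        induction n with
        | zero => rw [schE_zero, pow_zero]
        | succ n ihn =>
          have : schE (n + 1) (0 + 1) z = schE (n + 1) 0 z + z 0 * schE n (0 + 1) z :=
            schE_succ n 0 z
          rw [zero_add] at this
          rw [this, schE_s0, ihn]
          ring
      rw [HH_s0]
      exact (h0 (k + 1)).symm
    | succ l ihl =>
      rw [HH_ss, ihl, ih (l + 1), schE_succ k (l + 1)]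

theorem schX_self (k l : ℕ) (z : ℕ → ℂ) : schX k l z (z l) = schE k (l + 1) z := by
  induction k with
  | zero => rw [schE_zero]; rfl
  | succ k ih =>
    rw [show schX (k + 1) l z (z l) = schE (k + 1) l z + z l * schX k l z (z l) from rfl, ih,
      schE_succ]

theorem schX_step (k l : ℕ) (z : ℕ → ℂ) (x : ℂ) :
    schX (k + 1) l z x = schE (k + 1) (l + 1) z + (x - z l) * schX k (l + 1) z x := by
  induction k with
  | zero =>
    rw [show schX (0 + 1) l z x = schE (0 + 1) l z + x * schX 0 l z x from rfl, schE_succ,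
      schE_zero]
    rw [show schX 0 l z x = 1 from rfl, show schX 0 (l + 1) z x = 1 from rfl]
    ring
  | succ k ih =>
    rw [show schX (k + 1 + 1) l z x = schE (k + 1 + 1) l z + x * schX (k + 1) l z x from rfl, ih,
      schE_succ (k + 1) l,
      show schX (k + 1) (l + 1) z x = schE (k + 1) (l + 1) z + x * schX k (l + 1) z x from rfl]
    ring

theorem schX_zero (k : ℕ) (z : ℕ → ℂ) (x : ℂ) : schX k 0 z x = x ^ k := by
  induction k with
  | zero => rw [pow_zero]; rfl
  | succ k ih =>
    rw [show schX (k + 1) 0 z x = schE (k + 1) 0 z + x * schX k 0 z x from rfl, ih, schE_s0]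
    ring

theorem sch_newton (h n : ℕ) (z : ℕ → ℂ) (x : ℂ) : x ^ h =
    ∑ l ∈ range n, (if l ≤ h then HH (h - l) l z else 0) * ∏ r ∈ range l, (x - z r) +
      (if n ≤ h then schX (h - n) n z x else 0) * ∏ r ∈ range n, (x - z r) := by
  induction n with
  | zero => simp [schX_zero]
  | succ n ih =>
    rw [Finset.sum_range_succ, Finset.prod_range_succ]
    rw [ih]
    have key : (if n ≤ h then schX (h - n) n z x else 0) = (if n ≤ h then HH (h - n) n z else 0) +
        (if n + 1 ≤ h then schX (h - (n + 1)) (n + 1) z x else 0) * (x - z n) := by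
      by_cases h1 : n + 1 ≤ h
      · rw [if_pos (by omega : n ≤ h), if_pos (by omega : n ≤ h), if_pos h1]
        have h2 : h - n = (h - (n + 1)) + 1 := by omega
        rw [h2, schX_step, HH_eq]
        ring
      · rw [if_neg h1, zero_mul, add_zero]
        by_cases h3 : n ≤ h
        · rw [if_pos h3, if_pos h3]
          have h4 : h - n = 0 := by omega
          rw [h4, HH_zero]
          rfl
        · rw [if_neg h3, if_neg h3]
    rw [key]
    ring

theorem newton (h i : ℕ) (z : ℕ → ℂ) : z i ^ h =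
    ∑ l ∈ range (i + 1), (if l ≤ h then HH (h - l) l z else 0) * ∏ r ∈ range l, (z i - z r) := by
  have h1 := sch_newton h (i + 1) z (z i)
  have h2 : ∏ r ∈ range (i + 1), (z i - z r) = 0 := by
    rw [Finset.prod_range_succ, sub_self, mul_zero]
  rw [h2, mul_zero, add_zero] at h1
  exact h1

/-! ### determinant -/

theorem sch_prod_zero {i l : ℕ} (h : i < l) (z : ℕ → ℂ) : ∏ r ∈ range l, (z i - z r) = 0 :=
  Finset.prod_eq_zero (mem_range.2 h) (sub_self _)

theorem SG_det (h : ℕ → ℕ) (m : ℕ) (z : ℕ → ℂ) : Matrix.det (Matrix.of fun i j : Fin m => z i ^ h j) =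
    (∏ j ∈ range m, ∏ i ∈ range j, (z j - z i)) * SG h m z := by
  have h1 : (Matrix.of fun i j : Fin m => z i ^ h j) =
      (Matrix.of fun i l : Fin m => ∏ r ∈ range (l : ℕ), (z i - z r)) *
        (Matrix.of fun l j : Fin m => if (l : ℕ) ≤ h j then HH (h j - l) l z else 0) := by
    ext i j
    rw [Matrix.mul_apply]
    simp only [Matrix.of_apply]
    rw [newton (h j) i z]
    rw [Fin.sum_univ_eq_sum_range (fun l => (∏ r ∈ range l, (z i - z r)) *
      (if l ≤ h j then HH (h j - l) l z else 0)) m]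
    have h2 : range ((i : ℕ) + 1) ⊆ range m := by
      intro x hx
      rw [mem_range] at hx ⊢
      omega
    rw [← Finset.sum_subset h2]
    · exact Finset.sum_congr rfl fun l _ => mul_comm _ _
    · intro l _ hl
      rw [mem_range, not_lt] at hl
      rw [sch_prod_zero (by omega), zero_mul]
  rw [h1, Matrix.det_mul]
  congr 1
  rw [Matrix.det_of_isLowerTriangular]
  · simp only [Matrix.of_apply]
    rw [Fin.prod_univ_eq_prod_range (fun i => ∏ r ∈ range i, (z i - z r)) m]
  · intro i j hij
    exact sch_prod_zero hij z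

theorem HH_congr (k l : ℕ) {z z' : ℕ → ℂ} (hz : ∀ j ≤ l, z j = z' j) : HH k l z = HH k l z' := by
  induction k generalizing l with
  | zero => rw [HH_zero, HH_zero]
  | succ k ih =>
    induction l with
    | zero =>
      rw [HH_s0, HH_s0, hz 0 le_rfl]
    | succ l ihl =>
      rw [HH_ss, HH_ss, ihl (fun j hj => hz j (by omega)), ih (l + 1) hz, hz (l + 1) le_rfl]

theorem SG_congr (h : ℕ → ℕ) (m : ℕ) {z z' : ℕ → ℂ} (hz : ∀ j < m, z j = z' j) : SG h m z = SG h m z' := by
  unfold SG
  congr 1
  ext l j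
  simp only [Matrix.of_apply]
  split_ifs
  · exact HH_congr _ _ fun r hr => hz r (by omega)
  · rfl

theorem HH_continuous (k l : ℕ) : Continuous (HH k l) := by
  induction k generalizing l with
  | zero =>
    have : HH 0 l = fun _ => 1 := funext fun z => HH_zero l z
    rw [this]
    exact continuous_const
  | succ k ih =>
    induction l with
    | zero =>
      have : HH (k + 1) 0 = fun z : ℕ → ℂ => z 0 ^ (k + 1) := funext fun z => HH_s0 k z
      rw [this]
      exact (continuous_apply 0).pow _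
    | succ l ihl =>
      have : HH (k + 1) (l + 1) = fun z => HH (k + 1) l z + z (l + 1) * HH k (l + 1) z :=
        funext fun z => HH_ss k l z
      rw [this]
      exact ihl.add ((continuous_apply (l + 1)).mul (ih (l + 1)))

theorem SG_continuous (h : ℕ → ℕ) (m : ℕ) : Continuous (SG h m) := by
  unfold SG
  apply Continuous.matrix_det
  refine continuous_pi fun l => continuous_pi fun j => ?_
  simp only [Matrix.of_apply]
  split_ifs
  · exact HH_continuous _ _
  · exact continuous_const

/-! ### generic perturbation -/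

/-- two continuous functions agree at `z` if they agree for the generic points `z + t c` -/
theorem sch_generic {F G : (ℕ → ℂ) → ℂ} (hF : Continuous F) (hG : Continuous G) (m : ℕ)
    (z c : ℕ → ℂ) (hc : ∀ i < m, ∀ j < m, i ≠ j → c i ≠ c j)
    (h : ∀ t : ℂ, (∀ i < m, ∀ j < m, i ≠ j → z i + t * c i ≠ z j + t * c j) →
      F (fun j => z j + t * c j) = G (fun j => z j + t * c j)) : F z = G z := by
  -- finitely many bad parameters
  have hbad : {t : ℂ | ∃ i < m, ∃ j < m, i ≠ j ∧ z i + t * c i = z j + t * c j}.Finite := by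
    have : {t : ℂ | ∃ i < m, ∃ j < m, i ≠ j ∧ z i + t * c i = z j + t * c j} ⊆
        ⋃ p ∈ (range m ×ˢ range m), {(z p.2 - z p.1) / (c p.1 - c p.2)} := by
      rintro t ⟨i, hi, j, hj, hij, ht⟩
      simp only [Set.mem_iUnion, Set.mem_singleton_iff]
      refine ⟨(i, j), Finset.mem_product.2 ⟨mem_range.2 hi, mem_range.2 hj⟩, ?_⟩
      rw [eq_div_iff (sub_ne_zero.2 (hc i hi j hj hij))]
      linear_combination ht
    refine Set.Finite.subset ?_ this
    exact Set.Finite.biUnion (Finset.finite_toSet _) fun _ _ => Set.finite_singleton _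
  have hline : Continuous fun t : ℂ => (fun j => z j + t * c j : ℕ → ℂ) :=
    continuous_pi fun j => continuous_const.add (continuous_id.mul continuous_const)
  have hclosed : IsClosed {t : ℂ | F (fun j => z j + t * c j) = G (fun j => z j + t * c j)} :=
    isClosed_eq (hF.comp hline) (hG.comp hline)
  have hdense : Dense ({t : ℂ | ∃ i < m, ∃ j < m, i ≠ j ∧ z i + t * c i = z j + t * c j}ᶜ) :=
    hbad.countable.dense_compl ℂ
  have hsub : {t : ℂ | ∃ i < m, ∃ j < m, i ≠ j ∧ z i + t * c i = z j + t * c j}ᶜ ⊆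
      {t : ℂ | F (fun j => z j + t * c j) = G (fun j => z j + t * c j)} := by
    intro t ht
    apply h t
    intro i hi j hj hij he
    exact ht ⟨i, hi, j, hj, hij, he⟩
  have h0 : (0 : ℂ) ∈ {t : ℂ | F (fun j => z j + t * c j) = G (fun j => z j + t * c j)} := by
    have := hclosed.closure_subset_iff.2 hsub
    exact this (hdense 0)
  simpa using h0

theorem sch_vand_ne {m : ℕ} {z : ℕ → ℂ} (hz : ∀ i < m, ∀ j < m, i ≠ j → z i ≠ z j) :
    (∏ j ∈ range m, ∏ i ∈ range j, (z j - z i)) ≠ 0 := by
  refine Finset.prod_ne_zero_iff.2 fun j hj => Finset.prod_ne_zero_iff.2 fun i hi => ?_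
  rw [mem_range] at hi hj
  exact sub_ne_zero.2 (hz j hj i (by omega) (by omega))

theorem SG_id (m : ℕ) (z : ℕ → ℂ) : SG (fun j => j) m z = 1 := by
  unfold SG
  rw [Matrix.det_of_isUpperTriangular]
  · refine Finset.prod_eq_one fun i _ => ?_
    simp only [Matrix.of_apply]
    rw [if_pos le_rfl, Nat.sub_self, HH_zero]
  · intro i j hij
    simp only [Matrix.of_apply]
    rw [if_neg]
    have : (j : ℕ) < i := hij
    omega

theorem sch_vand (m : ℕ) (z : ℕ → ℂ) : Matrix.det (Matrix.of fun i j : Fin m => z i ^ (j : ℕ)) =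
    ∏ j ∈ range m, ∏ i ∈ range j, (z j - z i) := by
  have := SG_det (fun j => j) m z
  rw [SG_id, mul_one] at this
  exact this

theorem SG_perm (h : ℕ → ℕ) (m : ℕ) (e : Equiv.Perm ℕ) (he : ∀ j, m ≤ j → e j = j) (z : ℕ → ℂ) :
    SG h m (fun j => z (e j)) = SG h m z := by
  have hlt : ∀ j, j < m ↔ e j < m := by
    intro j
    constructor
    · intro hj
      by_contra hcon
      rw [not_lt] at hcon
      have := e.injective (he _ hcon)
      omega
    · intro hj
      by_contra hcon
      rw [not_lt] at hcon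
      rw [he j hcon] at hj
      omega
  have hce : Continuous fun z : ℕ → ℂ => SG h m (fun j => z (e j)) :=
    (SG_continuous h m).comp (continuous_pi fun j => continuous_apply (e j))
  refine sch_generic (F := fun z => SG h m (fun j => z (e j))) (G := SG h m) hce
    (SG_continuous h m) m z (fun j => (j : ℂ)) ?_ ?_
  · intro i _ j _ hij hc
    exact hij (by exact_mod_cast hc)
  intro t ht
  set y : ℕ → ℂ := fun j => z j + t * (j : ℂ) with hy
  have hy1 : ∀ i < m, ∀ j < m, i ≠ j → y i ≠ y j := ht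
  have hy2 : ∀ i < m, ∀ j < m, i ≠ j → y (e i) ≠ y (e j) := by
    intro i hi j hj hij
    exact hy1 _ ((hlt i).1 hi) _ ((hlt j).1 hj) fun h => hij (e.injective h)
  let e' : Equiv.Perm (Fin m) :=
    { toFun := fun i => ⟨e i, (hlt i).1 i.2⟩
      invFun := fun i => ⟨e.symm i, by
        rw [hlt, Equiv.apply_symm_apply]; exact i.2⟩
      left_inv := fun i => by ext; simp
      right_inv := fun i => by ext; simp }
  have hsub : ∀ g : ℕ → ℕ, Matrix.det (Matrix.of fun i j : Fin m => y (e i) ^ g j) =
      (Equiv.Perm.sign e' : ℂ) * Matrix.det (Matrix.of fun i j : Fin m => y i ^ g j) := by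
    intro g
    have h1 : (Matrix.of fun i j : Fin m => y (e i) ^ g j) =
        (Matrix.of fun i j : Fin m => y i ^ g j).submatrix e' id := by
      ext i j
      rfl
    rw [h1, Matrix.det_permute]
  have h1 := hsub h
  have h2 := hsub (fun j => j)
  rw [SG_det h m y, SG_det h m (fun j => y (e j))] at h1
  rw [sch_vand m y, sch_vand m (fun j => y (e j))] at h2
  have hV := sch_vand_ne hy2
  rw [h2] at hV h1
  apply mul_left_cancel₀ hV
  rw [h1]
  ring

/-! ### degree -/

theorem sch_poly_X (k l : ℕ) (z : ℕ → ℂ) : ∃ P : Polynomial ℂ, P.natDegree ≤ k ∧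
    ∀ x, schX k l z x = P.eval x := by
  induction k with
  | zero => exact ⟨1, by simp, fun x => by simp [schX]⟩
  | succ k ih =>
    obtain ⟨P, hP, hPx⟩ := ih
    refine ⟨Polynomial.C (schE (k + 1) l z) + Polynomial.X * P, ?_, fun x => ?_⟩
    · refine (Polynomial.natDegree_add_le _ _).trans (max_le (by simp) ?_)
      refine Polynomial.natDegree_mul_le.trans ?_
      rw [Polynomial.natDegree_X]
      omega
    · simp [schX, hPx]

theorem sch_HH_update (k l : ℕ) (z : ℕ → ℂ) (x : ℂ) :
    HH k l (Function.update z l x) = schX k l z x := by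
  have hE : ∀ k l' (z z' : ℕ → ℂ), (∀ j < l', z j = z' j) → schE k l' z = schE k l' z' := by
    intro k
    induction k with
    | zero => intro l' z z' _; rw [schE_zero, schE_zero]
    | succ k ih =>
      intro l'
      induction l' with
      | zero => intro z z' _; rw [schE_s0, schE_s0]
      | succ l' ihl =>
        intro z z' hz
        rw [schE_succ, schE_succ, ihl z z' (fun j hj => hz j (by omega)),
          ih (l' + 1) z z' hz, hz l' (by omega)]
  have hX : ∀ k (z z' : ℕ → ℂ), (∀ j < l, z j = z' j) → ∀ x, schX k l z x = schX k l z' x := by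
    intro k
    induction k with
    | zero => intro z z' _ x; rfl
    | succ k ih =>
      intro z z' hz x
      rw [show schX (k + 1) l z x = schE (k + 1) l z + x * schX k l z x from rfl,
        show schX (k + 1) l z' x = schE (k + 1) l z' + x * schX k l z' x from rfl,
        hE (k + 1) l z z' hz, ih z z' hz x]
  rw [HH_eq, ← schX_self, Function.update_self]
  apply hX
  intro j hj
  rw [Function.update_of_ne (by omega)]

theorem SG_poly {h : ℕ → ℕ} (hm : StrictMono h) (m : ℕ) {i : ℕ} (hi : i < m) (z : ℕ → ℂ) :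
    ∃ P : Polynomial ℂ, P.natDegree ≤ h (m - 1) - (m - 1) ∧
      ∀ x, SG h m (Function.update z i x) = P.eval x := by
  obtain ⟨n, rfl⟩ : ∃ n, m = n + 1 := ⟨m - 1, by omega⟩
  rw [Nat.add_sub_cancel]
  -- move the variable to the last position
  let e : Equiv.Perm ℕ := Equiv.swap i n
  have he : ∀ j, n + 1 ≤ j → e j = j := by
    intro j hj
    exact Equiv.swap_apply_of_ne_of_ne (by omega) (by omega)
  have hmove : ∀ x, SG h (n + 1) (Function.update z i x) =
      SG h (n + 1) (Function.update (fun j => z (e j)) n x) := by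
    intro x
    rw [← SG_perm h (n + 1) e he (Function.update z i x)]
    congr 1
    funext j
    by_cases hj : j = n
    · subst hj
      rw [Function.update_self]
      simp [e]
    · rw [Function.update_of_ne hj]
      have : e j ≠ i := by
        intro hc
        apply hj
        have h1 : e n = i := Equiv.swap_apply_right i n
        exact e.injective (hc.trans h1.symm)
      rw [Function.update_of_ne this]
  set y : ℕ → ℂ := fun j => z (e j) with hy
  choose p hp hpx using fun k => sch_poly_X k n y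
  let Mp : Matrix (Fin (n + 1)) (Fin (n + 1)) (Polynomial ℂ) := Matrix.of fun l j =>
    if (l : ℕ) = n then (if n ≤ h j then p (h j - n) else 0)
    else Polynomial.C (if (l : ℕ) ≤ h j then HH (h j - l) l y else 0)
  refine ⟨Mp.det, ?_, fun x => ?_⟩
  · rw [Matrix.det_apply]
    refine Polynomial.natDegree_sum_le_of_forall_le _ _ fun σ _ => ?_
    refine (Polynomial.natDegree_smul_le _ _).trans ?_
    refine (Polynomial.natDegree_prod_le _ _).trans ?_
    have h1 : ∀ j : Fin (n + 1), (Mp (σ j) j).natDegree ≤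
        if j = σ.symm (Fin.last n) then h n - n else 0 := by
      intro j
      simp only [Mp, Matrix.of_apply]
      by_cases hj : ((σ j : Fin (n + 1)) : ℕ) = n
      · have hj' : j = σ.symm (Fin.last n) := by
          rw [Equiv.eq_symm_apply]
          exact Fin.ext hj
        rw [if_pos hj, if_pos hj']
        split_ifs with h2
        · refine (hp _).trans ?_
          have h3 : h j ≤ h n := hm.monotone (by omega)
          omega
        · simp
      · rw [if_neg hj, Polynomial.natDegree_C]
        exact Nat.zero_le _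
    refine (Finset.sum_le_sum fun j _ => h1 j).trans ?_
    rw [Finset.sum_ite_eq']
    simp
  · rw [hmove x]
    have h1 : (Mp.det).eval x = (Mp.map (Polynomial.evalRingHom x)).det :=
      RingHom.map_det (Polynomial.evalRingHom x) Mp
    rw [h1]
    unfold SG
    congr 1
    ext l j
    simp only [Matrix.of_apply, Matrix.map_apply, Mp, Polynomial.coe_evalRingHom]
    by_cases hl : (l : ℕ) = n
    · rw [if_pos hl]
      by_cases h2 : n ≤ h j
      · rw [if_pos (by omega), if_pos h2, hl, sch_HH_update, hpx]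
      · rw [if_neg (by omega), if_neg h2, Polynomial.eval_zero]
    · rw [if_neg hl, Polynomial.eval_C]
      split_ifs
      · apply HH_congr
        intro r hr
        rw [Function.update_of_ne (by omega)]
      · rfl

theorem hh_mono : StrictMono hh := by
  refine strictMono_nat_of_lt_succ fun n => ?_
  unfold hh
  omega
theorem hd_mono : StrictMono hd := by
  refine strictMono_nat_of_lt_succ fun n => ?_
  unfold hd
  omega
theorem hh_deg (m : ℕ) : hh (m - 1) - (m - 1) = (m - 1) / 2 := by
  unfold hh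
  omega
theorem hd_deg (m : ℕ) : hd (m - 1) - (m - 1) = m / 2 := by
  unfold hd
  rcases Nat.even_or_odd' m with ⟨k, rfl | rfl⟩
  · rcases k with _ | k
    · rfl
    · have : 2 * (k + 1) - 1 = 2 * k + 1 := by omega
      rw [this]
      omega
  · have : 2 * k + 1 - 1 = 2 * k := by omega
    rw [this]
    omega

/-! ### recursions -/

/-- equivalence used for the block decomposition -/
def sch_eBl (m : ℕ) : Fin 2 ⊕ Fin m ≃ Fin (m + 2) := finSumFinEquiv.trans (finCongr (by omega))

theorem sch_eBl_inl (m : ℕ) (i : Fin 2) : ((sch_eBl m (Sum.inl i) : Fin (m + 2)) : ℕ) = i := by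
  simp [sch_eBl]
theorem sch_eBl_inr (m : ℕ) (i : Fin m) :
    ((sch_eBl m (Sum.inr i) : Fin (m + 2)) : ℕ) = i + 2 := by
  simp [sch_eBl]

theorem sch_det_rec {h : ℕ → ℕ} (hh3 : ∀ j, h (j + 2) = h j + 3) (m : ℕ) (z : ℕ → ℂ)
    (hz : z 1 ^ 3 = z 0 ^ 3) :
    Matrix.det (Matrix.of fun i j : Fin (m + 2) => z i ^ h j) =
      (z 0 ^ h 0 * z 1 ^ h 1 - z 0 ^ h 1 * z 1 ^ h 0) *
        ((∏ k ∈ range m, (z (k + 2) ^ 3 - z 0 ^ 3)) *
          Matrix.det (Matrix.of fun i j : Fin m => z (i + 2) ^ h j)) := by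
  set c : ℂ := z 0 ^ 3 with hc
  set Mx : Matrix (Fin (m + 2)) (Fin (m + 2)) ℂ := Matrix.of fun i j => z i ^ h j with hM
  set U : Matrix (Fin (m + 2)) (Fin (m + 2)) ℂ := Matrix.of fun k j =>
    (if (k : ℕ) = j then 1 else 0) + (if (k : ℕ) + 2 = j then -c else 0) with hU
  have hUd : U.det = 1 := by
    rw [Matrix.det_of_isUpperTriangular]
    · refine prod_eq_one fun j _ => ?_
      simp [hU]
    · intro k j hkj
      have hkj' : (j : ℕ) < k := hkj
      simp only [hU, Matrix.of_apply]
      rw [if_neg (by omega), if_neg (by omega), add_zero]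
  let g : ℕ → ℂ → ℂ := fun j x => if j < 2 then x ^ h j else (x ^ 3 - c) * x ^ h (j - 2)
  have hMU : Mx * U = Matrix.of fun i j : Fin (m + 2) => g j (z i) := by
    ext i j
    rw [Matrix.mul_apply]
    simp only [hM, hU, Matrix.of_apply, mul_add, Finset.sum_add_distrib]
    have e1 : ∑ k : Fin (m + 2), z i ^ h k * (if (k : ℕ) = j then (1 : ℂ) else 0) =
        z i ^ h j := by
      rw [Finset.sum_eq_single j]
      · simp
      · intro k _ hk
        rw [if_neg (fun h => hk (Fin.ext h)), mul_zero]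
      · intro h; exact absurd (mem_univ _) h
    rw [e1]
    by_cases hj : (j : ℕ) < 2
    · simp only [g, if_pos hj]
      rw [Finset.sum_eq_zero, add_zero]
      intro k _
      rw [if_neg (by omega), mul_zero]
    · simp only [g, if_neg hj]
      have hj2 : (j : ℕ) - 2 < m + 2 := by omega
      rw [Finset.sum_eq_single (⟨(j : ℕ) - 2, hj2⟩ : Fin (m + 2))]
      · rw [if_pos (show (j : ℕ) - 2 + 2 = j by omega)]
        have : h j = h ((j : ℕ) - 2) + 3 := by
          rw [← hh3]
          congr 1
          omega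
        rw [this, pow_add]
        ring
      · intro k _ hk
        rw [if_neg, mul_zero]
        intro h'
        apply hk
        apply Fin.ext
        simp only
        omega
      · intro h; exact absurd (mem_univ _) h
  have h1 : Mx.det = (Matrix.of fun i j : Fin (m + 2) => g j (z i)).det := by
    rw [← hMU, Matrix.det_mul, hUd, mul_one]
  have h2 : ((Matrix.of fun i j : Fin (m + 2) => g j (z i)).submatrix (sch_eBl m) (sch_eBl m)) =
      Matrix.fromBlocks (Matrix.of fun i j : Fin 2 => g j (z i)) 0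
        (Matrix.of fun (i : Fin m) (j : Fin 2) => g j (z (i + 2)))
        (Matrix.of fun i j : Fin m => (z (i + 2) ^ 3 - c) *
          (Matrix.of fun i j : Fin m => z (i + 2) ^ h j) i j) := by
    ext i j
    rcases i with i | i <;> rcases j with j | j
    · simp only [Matrix.submatrix_apply, Matrix.of_apply, Matrix.fromBlocks_apply₁₁, sch_eBl_inl]
    · simp only [Matrix.submatrix_apply, Matrix.of_apply, Matrix.fromBlocks_apply₁₂, sch_eBl_inl,
        sch_eBl_inr, Matrix.zero_apply, g]
      rw [if_neg (by omega)]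
      have hz0 : z i ^ 3 - c = 0 := by
        fin_cases i
        · simp [hc]
        · simp [hc, hz]
      rw [hz0, zero_mul]
    · simp only [Matrix.submatrix_apply, Matrix.of_apply, Matrix.fromBlocks_apply₂₁, sch_eBl_inl,
        sch_eBl_inr]
    · simp only [Matrix.submatrix_apply, Matrix.of_apply, Matrix.fromBlocks_apply₂₂, sch_eBl_inr, g]
      rw [if_neg (by omega), Nat.add_sub_cancel]
  have h3 : (Matrix.of fun i j : Fin (m + 2) => g j (z i)).det =
      (Matrix.of fun i j : Fin 2 => g j (z i)).det *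
      (Matrix.of fun i j : Fin m => (z (i + 2) ^ 3 - c) *
          (Matrix.of fun i j : Fin m => z (i + 2) ^ h j) i j).det := by
    rw [← Matrix.det_submatrix_equiv_self (sch_eBl m), h2, Matrix.det_fromBlocks_zero₁₂]
  have h4 := Matrix.det_mul_column (fun i : Fin m => z (i + 2) ^ 3 - c)
    (Matrix.of fun i j : Fin m => z (i + 2) ^ h j)
  have h5 : (Matrix.of fun i j : Fin 2 => g j (z i)).det =
      z 0 ^ h 0 * z 1 ^ h 1 - z 0 ^ h 1 * z 1 ^ h 0 := by
    rw [Matrix.det_fin_two]
    simp only [Matrix.of_apply, g, Fin.val_zero, Fin.val_one, zero_lt_two, one_lt_two, if_true]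
  rw [h1, h3, h5]
  congr 1
  refine h4.trans ?_
  rw [Fin.prod_univ_eq_prod_range (fun i => z (i + 2) ^ 3 - c) m]

theorem sch_vand_rec (m : ℕ) (z : ℕ → ℂ) :
    (∏ j ∈ range (m + 2), ∏ i ∈ range j, (z j - z i)) =
      (z 1 - z 0) * ((∏ k ∈ range m, ((z (k + 2) - z 0) * (z (k + 2) - z 1))) *
        ∏ j ∈ range m, ∏ i ∈ range j, (z (j + 2) - z (i + 2))) := by
  rw [prod_range_succ' _ (m + 1), prod_range_succ' _ m]
  have h1 : ∀ j, ∏ i ∈ range (j + 1 + 1), (z (j + 1 + 1) - z i) =
      ((z (j + 2) - z 0) * (z (j + 2) - z 1)) * ∏ i ∈ range j, (z (j + 2) - z (i + 2)) := by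
    intro j
    rw [prod_range_succ' _ (j + 1), prod_range_succ' _ j]
    ring
  rw [prod_congr rfl fun j _ => h1 j, prod_mul_distrib]
  simp only [zero_add, prod_range_zero, mul_one, range_one, prod_singleton]
  ring

/-- general form of the recursions -/
theorem sch_rec {h : ℕ → ℕ} (hh3 : ∀ j, h (j + 2) = h j + 3) {q : (ℕ → ℂ) → ℂ}
    (hq : Continuous q) {w : ℂ} (hw : w ^ 2 + w + 1 = 0)
    (hq2 : ∀ z : ℕ → ℂ, z 1 = w * z 0 →
      z 0 ^ h 0 * z 1 ^ h 1 - z 0 ^ h 1 * z 1 ^ h 0 = (z 1 - z 0) * q z)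
    (m : ℕ) (z : ℕ → ℂ) (hz : z 1 = w * z 0) :
    SG h (m + 2) z = q z * (∏ k ∈ range m, (z (k + 2) - w ^ 2 * z 0)) *
      SG h m (fun j => z (j + 2)) := by
  have hw3 : w ^ 3 = 1 := by linear_combination (w - 1) * hw
  let c : ℕ → ℂ := fun j => if j = 0 then 1 else if j = 1 then w else (j : ℂ)
  have hwim : w.im ≠ 0 := by
    intro him
    have h1 := congrArg Complex.re hw
    simp only [Complex.add_re, Complex.one_re, Complex.zero_re, pow_two, Complex.mul_re, him] at h1
    nlinarith [sq_nonneg (w.re + 1 / 2)]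
  have hwj : ∀ j : ℕ, w ≠ (j : ℂ) := by
    intro j hj
    apply hwim
    rw [hj]
    exact Complex.natCast_im j
  have hcne : ∀ i < m + 2, ∀ j < m + 2, i ≠ j → c i ≠ c j := by
    intro i _ j _ hij
    simp only [c]
    have hw1 : w ≠ 1 := by
      have := hwj 1
      simpa using this
    split_ifs with h1 h2 h3 h4 h5 h6 h7 h8
    · omega
    · exact hw1.symm
    · intro hc
      have : (j : ℂ) = ((1 : ℕ) : ℂ) := by rw [← hc]; simp
      exact h3 (by exact_mod_cast this)
    · exact hw1
    · omega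
    · exact hwj j
    · intro hc
      have : (i : ℂ) = ((1 : ℕ) : ℂ) := by rw [hc]; simp
      exact h4 (by exact_mod_cast this)
    · exact (hwj i).symm
    · intro hc
      exact hij (by exact_mod_cast hc)
  have hcG : Continuous fun z : ℕ → ℂ => q z * (∏ k ∈ range m, (z (k + 2) - w ^ 2 * z 0)) *
      SG h m (fun j => z (j + 2)) := by
    refine (hq.mul (continuous_finsetProd _ fun k _ => ?_)).mul
      ((SG_continuous h m).comp (continuous_pi fun j => continuous_apply (j + 2)))
    exact (continuous_apply (k + 2)).sub (continuous_const.mul (continuous_apply 0))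
  refine sch_generic (F := SG h (m + 2)) (SG_continuous h (m + 2)) hcG (m + 2) z c hcne ?_
  intro t ht
  set y : ℕ → ℂ := fun j => z j + t * c j with hy
  have hy1 : y 1 = w * y 0 := by
    have c0 : c 0 = 1 := by simp [c]
    have c1 : c 1 = w := by simp [c]
    change z 1 + t * c 1 = w * (z 0 + t * c 0)
    rw [c0, c1, hz]
    ring
  have hd := sch_det_rec hh3 m y (by rw [hy1, mul_pow, hw3, one_mul])
  rw [SG_det, hq2 y hy1] at hd
  have hdet2 := SG_det h m (fun j => y (j + 2))
  have hdet2' : Matrix.det (Matrix.of fun i j : Fin m => y (i + 2) ^ h j) =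
      (∏ j ∈ range m, ∏ i ∈ range j, (y (j + 2) - y (i + 2))) * SG h m (fun j => y (j + 2)) :=
    hdet2
  rw [hdet2'] at hd
  have hprod : ∏ k ∈ range m, (y (k + 2) ^ 3 - y 0 ^ 3) =
      (∏ k ∈ range m, ((y (k + 2) - y 0) * (y (k + 2) - y 1))) *
        ∏ k ∈ range m, (y (k + 2) - w ^ 2 * y 0) := by
    rw [← prod_mul_distrib]
    refine prod_congr rfl fun k _ => ?_
    rw [hy1]
    linear_combination ((y (k + 2)) ^ 2 * y 0 - y (k + 2) * (y 0) ^ 2) * hw
      + ((y 0) ^ 3 - y (k + 2) * (y 0) ^ 2) * hw3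
  rw [hprod] at hd
  have hV := sch_vand_ne (m := m + 2) (z := y) ht
  apply mul_left_cancel₀ hV
  rw [hd]
  rw [sch_vand_rec]
  ring

theorem SS_rec (m : ℕ) (z : ℕ → ℂ) (w : ℂ) (hw : w ^ 2 + w + 1 = 0) (h : z 1 = w * z 0) :
    SS (m + 2) z = (∏ k ∈ range m, (z (k + 2) - w ^ 2 * z 0)) * SS m (fun j => z (j + 2)) := by
  unfold SS
  rw [sch_rec (h := hh) (q := fun _ => 1) (fun j => by unfold hh; omega) continuous_const hw
    (fun z hz => by
      rw [show hh 0 = 0 from rfl, show hh 1 = 1 from rfl]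
      ring) m z h, one_mul]

theorem SD_rec (m : ℕ) (z : ℕ → ℂ) (w : ℂ) (hw : w ^ 2 + w + 1 = 0) (h : z 1 = w * z 0) :
    SD (m + 2) z = -w ^ 2 * z 0 * (∏ k ∈ range m, (z (k + 2) - w ^ 2 * z 0)) * SD m (fun j => z (j + 2)) := by
  unfold SD
  rw [sch_rec (h := hd) (q := fun z => -w ^ 2 * z 0) (fun j => by unfold hd; omega)
    (continuous_const.mul (continuous_apply 0)) hw
    (fun z hz => by
      rw [show hd 0 = 0 from rfl, show hd 1 = 2 from rfl, hz]
      linear_combination ((z 0) ^ 2 * (w - 1)) * hw) m z h]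

/-! ### values at one -/

theorem sch_choose_ones (k l : ℕ) : HH k l (fun _ => 1) = ((k + l).choose l : ℂ) := by
  induction k generalizing l with
  | zero => rw [HH_zero]; simp
  | succ k ih =>
    induction l with
    | zero => rw [HH_s0]; simp
    | succ l ihl =>
      rw [HH_ss, ihl, ih (l + 1), one_mul,
        show k + 1 + (l + 1) = (k + 1 + l) + 1 by ring, Nat.choose_succ_succ,
        show k + (l + 1) = k + 1 + l by ring]
      push_cast
      ring

theorem sch_ones_aux (h : ℕ → ℕ) (m : ℕ) :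
    (∏ l ∈ range m, ((l.factorial : ℕ) : ℂ)) * SG h m (fun _ => 1) =
      ∏ j ∈ range m, ∏ i ∈ range j, (((h j : ℕ) : ℂ) - ((h i : ℕ) : ℂ)) := by
  have h1 := Matrix.det_eval_matrixOfPolynomials_eq_det_vandermonde
    (fun i : Fin m => ((h i : ℕ) : ℂ)) (fun l : Fin m => descPochhammer ℂ l)
    (fun l => descPochhammer_natDegree ℂ l) (fun l => monic_descPochhammer ℂ l)
  have h2 : (Matrix.vandermonde fun i : Fin m => ((h i : ℕ) : ℂ)).det =
      ∏ j ∈ range m, ∏ i ∈ range j, (((h j : ℕ) : ℂ) - ((h i : ℕ) : ℂ)) := by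
    rw [← sch_vand m (fun j => ((h j : ℕ) : ℂ))]
    rfl
  have h3 : (Matrix.of fun i j : Fin m => (descPochhammer ℂ j).eval ((h i : ℕ) : ℂ)) =
      Matrix.of fun i j : Fin m => (((j : ℕ).factorial : ℕ) : ℂ) *
        (Matrix.of fun i l : Fin m => ((h i).choose l : ℂ)) i j := by
    ext i j
    simp only [Matrix.of_apply]
    rw [descPochhammer_eval_eq_descFactorial, Nat.descFactorial_eq_factorial_mul_choose]
    push_cast
    rfl
  have h4 : SG h m (fun _ => 1) = (Matrix.of fun i l : Fin m => ((h i).choose l : ℂ)).det := by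
    rw [← Matrix.det_transpose]
    unfold SG
    congr 1
    ext l j
    simp only [Matrix.of_apply, Matrix.transpose_apply]
    split_ifs with h5
    · rw [sch_choose_ones, Nat.sub_add_cancel h5]
    · rw [Nat.choose_eq_zero_of_lt (by omega)]
      simp
  rw [← h2, h1, h3, h4]
  have h5 := Matrix.det_mul_row (fun j : Fin m => (((j : ℕ).factorial : ℕ) : ℂ))
    (Matrix.of fun i l : Fin m => ((h i).choose l : ℂ))
  rw [h5, Fin.prod_univ_eq_prod_range (fun l => ((l.factorial : ℕ) : ℂ)) m]

/-- limit of `det (z_i^{h_j}) / Vandermonde` at `z = (1, ..., 1)`: e.g. all `z_j = q^j`, `q → 1`, or `HH k l 1 = binom(k+l, l)` -/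
theorem SG_ones (h : ℕ → ℕ) (m : ℕ) : SG h m (fun _ => 1) = cG h m := by
  have h1 := sch_ones_aux h m
  have h2 := sch_ones_aux (fun j => j) m
  rw [SG_id, mul_one] at h2
  have h3 : (∏ l ∈ range m, ((l.factorial : ℕ) : ℂ)) ≠ 0 :=
    Finset.prod_ne_zero_iff.2 fun l _ => by
      exact_mod_cast l.factorial_ne_zero
  have h4 : (cG h m : ℂ) * (∏ j ∈ range m, ∏ i ∈ range j, ((j : ℂ) - (i : ℂ))) =
      ∏ j ∈ range m, ∏ i ∈ range j, (((h j : ℕ) : ℂ) - ((h i : ℕ) : ℂ)) := by
    unfold cG
    push_cast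
    rw [← prod_mul_distrib]
    refine prod_congr rfl fun j _ => ?_
    rw [← prod_mul_distrib]
    refine prod_congr rfl fun i hi => ?_
    rw [mem_range] at hi
    rw [div_mul_cancel₀]
    rw [sub_ne_zero]
    intro hc
    have : j = i := by exact_mod_cast hc
    omega
  rw [← h2] at h4
  apply mul_left_cancel₀ h3
  rw [h1, ← h4, mul_comm]

theorem cG_pos {h : ℕ → ℕ} (hm : StrictMono h) (m : ℕ) : 0 < cG h m := by
  unfold cG
  refine Finset.prod_pos fun j _ => Finset.prod_pos fun i hi => ?_
  rw [mem_range] at hi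
  refine div_pos ?_ ?_
  · have := hm hi
    have : (h i : ℝ) < h j := by exact_mod_cast this
    linarith
  · have : (i : ℝ) < j := by exact_mod_cast hi
    linarith

theorem SG_zero (h : ℕ → ℕ) (z : ℕ → ℂ) : SG h 0 z = 1 := by
  unfold SG
  exact Matrix.det_isEmpty
theorem SS_one (z : ℕ → ℂ) : SS 1 z = 1 := by
  simp [SS, SG, hh, HH_zero]
theorem SD_one (z : ℕ → ℂ) : SD 1 z = 1 := by
  simp [SD, SG, hd, HH_zero]
theorem SS_two (z : ℕ → ℂ) : SS 2 z = 1 := by
  unfold SS SG
  rw [Matrix.det_fin_two]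
  simp [hh, HH_zero]
end IPC
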