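import Pool.Agent.Helper64.IPC.TPC
import Pool.Agent.Helper64.IPC.Defs
import Pool.Agent.Helper64.IPC.Schur
/-! MODULE SCHURF: the normalised functions `FF m` (2m variables) and `FZ L` (L variables) on the real line.
`z_k - w² z_0 = 2 i e^{i (b_k + b_0 - π/3)} s (b_k - b_0)` for `z = e^{2ib}`, `w = e^{2πi/3}`. -/
namespace IPC
open IP Finset Real

/-- closed form of `Z L` -/
noncomputable def FZ (L : ℕ) (b : ℕ → ℝ) : ℂ := ((Real.sqrt 3 / 2) ^ (L / 2) : ℝ) * (4 : ℂ)⁻¹ ^ (e4 L) *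
  Complex.exp (-((L : ℂ) - 1) * (∑ j ∈ range L, (b j : ℂ)) * Complex.I) * SS L (ee b) * SD L (ee b)

/-! ### auxiliary facts -/

theorem sf_ee_perm (e : Equiv.Perm ℕ) (y : ℕ → ℝ) : ee (fun j => y (e j)) = fun j => ee y (e j) := rfl

theorem sf_sum_perm {n : ℕ} (e : Equiv.Perm ℕ) (he : ∀ j, n ≤ j → e j = j) (y : ℕ → ℝ) :
    ∑ j ∈ range n, (y (e j) : ℂ) = ∑ j ∈ range n, (y j : ℂ) := by
  have hlt : ∀ j, j < n ↔ e j < n := by
    intro j
    constructor
    · intro hj
      by_contra hcon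
      rw [not_lt] at hcon
      have := e.injective (he _ hcon)
      omega
    · intro hj
      by_contra hcon
      rw [not_lt] at hcon
      rw [he j hcon] at hj
      omega
  refine Finset.sum_bij (fun j _ => e j) ?_ ?_ ?_ ?_
  · intro j hj
    rw [mem_range] at hj ⊢
    exact (hlt j).1 hj
  · intro i _ j _ h
    exact e.injective h
  · intro j hj
    rw [mem_range] at hj
    refine ⟨e.symm j, ?_, e.apply_symm_apply j⟩
    rw [mem_range, hlt, e.apply_symm_apply]
    exact hj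
  · intro j _
    rfl

theorem sf_ee_congr {n : ℕ} {y y' : ℕ → ℝ} (h : ∀ j < n, y j = y' j) :
    ∀ j < n, ee y j = ee y' j := by
  intro j hj
  unfold ee
  rw [h j hj]

theorem sf_ee_continuous : Continuous ee := by
  refine continuous_pi fun j => ?_
  unfold ee
  exact Complex.continuous_exp.comp ((continuous_const.mul
    (Complex.continuous_ofReal.comp (continuous_apply j))).mul continuous_const)

theorem sf_ee_update (y : ℕ → ℝ) (i : ℕ) (x : ℝ) :
    ee (Function.update y i x) = Function.update (ee y) i (Complex.exp (2 * x * Complex.I)) := by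
  funext j
  unfold ee
  by_cases hj : j = i
  · subst hj
    rw [Function.update_self, Function.update_self]
  · rw [Function.update_of_ne hj, Function.update_of_ne hj]

theorem sf_sum_update {n i : ℕ} (hi : i < n) (y : ℕ → ℝ) (x : ℝ) :
    ∑ j ∈ range n, ((Function.update y i x j : ℝ) : ℂ) =
      x + ∑ j ∈ (range n).erase i, (y j : ℂ) := by
  rw [← Finset.add_sum_erase _ _ (mem_range.2 hi), Function.update_self]
  congr 1
  refine Finset.sum_congr rfl fun j hj => ?_
  rw [Function.update_of_ne (Finset.ne_of_mem_erase hj)]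

/-- the cube root of unity -/
noncomputable def sf_w : ℂ := Complex.exp (2 * π * Complex.I / 3)

theorem sf_w_eq : sf_w ^ 2 + sf_w + 1 = 0 := by
  have h3 : sf_w ^ 3 = 1 := by
    rw [sf_w, ← Complex.exp_nat_mul]
    have : ((3 : ℕ) : ℂ) * (2 * π * Complex.I / 3) = 2 * π * Complex.I := by push_cast; ring
    rw [this, Complex.exp_two_pi_mul_I]
  have h1 : sf_w ≠ 1 := by
    intro h
    rw [sf_w, Complex.exp_eq_one_iff] at h
    obtain ⟨n, hn⟩ := h
    have h2 : (2 * π * Complex.I) * (1 : ℂ) = (2 * π * Complex.I) * (3 * n) := by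
      linear_combination 3 * hn
    have h4 := mul_left_cancel₀ Complex.two_pi_I_ne_zero h2
    have h5 : (1 : ℤ) = 3 * n := by exact_mod_cast h4
    omega
  have h4 : (sf_w - 1) * (sf_w ^ 2 + sf_w + 1) = 0 := by
    linear_combination h3
  exact (mul_eq_zero.1 h4).resolve_left (sub_ne_zero.2 h1)

theorem sf_ee_one {b : ℕ → ℝ} (h : b 1 = b 0 + π / 3) : ee b 1 = sf_w * ee b 0 := by
  unfold ee sf_w
  rw [h, ← Complex.exp_add]
  congr 1
  push_cast
  ring

theorem sf_w2 : sf_w ^ 2 = Complex.exp (-(2 * π * Complex.I / 3)) := by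
  rw [sf_w, ← Complex.exp_nat_mul]
  have : ((2 : ℕ) : ℂ) * (2 * π * Complex.I / 3) =
      -(2 * π * Complex.I / 3) + 2 * π * Complex.I := by push_cast; ring
  rw [this, Complex.exp_add, Complex.exp_two_pi_mul_I, mul_one]

theorem sf_factor (x y : ℝ) :
    Complex.exp (2 * x * Complex.I) - sf_w ^ 2 * Complex.exp (2 * y * Complex.I) =
      2 * Complex.I * Complex.exp ((x + y - π / 3) * Complex.I) * ((s (x - y) : ℝ) : ℂ) := by
  rw [sf_w2, ← Complex.exp_add]
  unfold s
  rw [Complex.ofReal_sin, Complex.sin]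
  push_cast
  have e1 : Complex.exp (2 * x * Complex.I) = Complex.exp ((x + y - π / 3) * Complex.I) *
      Complex.exp ((π / 3 + (x - y)) * Complex.I) := by
    rw [← Complex.exp_add]
    congr 1
    ring
  have e2 : Complex.exp (-(2 * π * Complex.I / 3) + 2 * y * Complex.I) =
      Complex.exp ((x + y - π / 3) * Complex.I) *
      Complex.exp (-(π / 3 + (x - y)) * Complex.I) := by
    rw [← Complex.exp_add]
    congr 1
    ring
  rw [e1, e2]
  have hI : Complex.I * Complex.I = -1 := Complex.I_mul_I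
  linear_combination (-Complex.exp ((x + y - π / 3) * Complex.I) *
    (Complex.exp (-(π / 3 + (x - y)) * Complex.I) -
      Complex.exp ((π / 3 + (x - y)) * Complex.I))) * hI

theorem sf_prod (n : ℕ) (b : ℕ → ℝ) :
    ∏ k ∈ range n, (ee b (k + 2) - sf_w ^ 2 * ee b 0) =
      (2 * Complex.I) ^ n * Complex.exp ((∑ k ∈ range n, (b (k + 2) : ℂ) +
        n * (b 0 - π / 3)) * Complex.I) *
        ((∏ k ∈ range n, s (b (k + 2) - b 0) : ℝ) : ℂ) := by
  induction n with
  | zero => simp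
  | succ n ih =>
    rw [prod_range_succ, ih, sum_range_succ, prod_range_succ]
    have h1 : ee b (n + 2) - sf_w ^ 2 * ee b 0 = 2 * Complex.I *
        Complex.exp ((b (n + 2) + b 0 - π / 3) * Complex.I) * ((s (b (n + 2) - b 0) : ℝ) : ℂ) :=
      sf_factor (b (n + 2)) (b 0)
    rw [h1]
    have h2 : Complex.exp ((∑ k ∈ range n, (b (k + 2) : ℂ) + (b (n + 2) : ℂ) +
        ((n + 1 : ℕ) : ℂ) * (b 0 - π / 3)) * Complex.I) =
        Complex.exp ((∑ k ∈ range n, (b (k + 2) : ℂ) + n * (b 0 - π / 3)) * Complex.I) *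
        Complex.exp ((b (n + 2) + b 0 - π / 3) * Complex.I) := by
      rw [← Complex.exp_add]
      congr 1
      push_cast
      ring
    rw [h2]
    push_cast
    ring

theorem sf_neg_one_pow (n : ℕ) : Complex.exp (-(n * π * Complex.I)) = (-1) ^ n := by
  rw [← Complex.exp_pi_mul_I, ← Complex.exp_nat_mul]
  have h : Complex.exp (-(n * π * Complex.I)) * Complex.exp (n * (π * Complex.I)) ^ 2 =
      Complex.exp (n * (π * Complex.I)) := by
    rw [← Complex.exp_nat_mul, ← Complex.exp_add]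
    congr 1
    push_cast
    ring
  have h2 : Complex.exp (n * (π * Complex.I)) ^ 2 = 1 := by
    rw [← Complex.exp_nat_mul]
    have : ((2 : ℕ) : ℂ) * (n * (π * Complex.I)) = n * (2 * π * Complex.I) := by push_cast; ring
    rw [this, Complex.exp_nat_mul, Complex.exp_two_pi_mul_I, one_pow]
  rw [h2, mul_one] at h
  exact h

/-! ### the functions `FF` -/

theorem FF_perm (m : ℕ) (e : Equiv.Perm ℕ) (he : ∀ j, 2 * m ≤ j → e j = j) (y : ℕ → ℝ) :
    FF m (fun j => y (e j)) = FF m y := by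
  unfold FF
  rw [sf_sum_perm e he y, sf_ee_perm]
  unfold SS
  rw [SG_perm hh (2 * m) e he (ee y)]

theorem FF_congr (m : ℕ) {y y' : ℕ → ℝ} (h : ∀ j < 2 * m, y j = y' j) : FF m y = FF m y' := by
  unfold FF SS
  rw [SG_congr hh (2 * m) (sf_ee_congr h)]
  congr 3
  congr 2
  refine Finset.sum_congr rfl fun j hj => ?_
  rw [h j (mem_range.1 hj)]

theorem sf_exp_continuous (c : ℂ) (n : ℕ) :
    Continuous fun y : ℕ → ℝ => Complex.exp (c * (∑ j ∈ range n, (y j : ℂ)) * Complex.I) := by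
  refine Complex.continuous_exp.comp ((continuous_const.mul ?_).mul continuous_const)
  exact continuous_finsetSum _ fun j _ => Complex.continuous_ofReal.comp (continuous_apply j)

theorem FF_continuous (m : ℕ) : Continuous (FF m) := by
  unfold FF
  exact (continuous_const.mul (sf_exp_continuous _ _)).mul
    ((SG_continuous hh (2 * m)).comp sf_ee_continuous)

theorem FF_TPC (m : ℕ) {i : ℕ} (hi : i < 2 * (m + 1)) (y : ℕ → ℝ) :
    TPC m (fun x => FF (m + 1) (Function.update y i x)) := by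
  obtain ⟨P, hP, hPx⟩ := SG_poly hh_mono (2 * (m + 1)) hi (ee y)
  rw [hh_deg] at hP
  refine ⟨Polynomial.C ((4 : ℂ)⁻¹ ^ ((m + 1) * (m + 1 - 1) / 2) *
    Complex.exp (-(m : ℂ) * (∑ j ∈ (range (2 * (m + 1))).erase i, (y j : ℂ)) * Complex.I)) * P,
    (Polynomial.natDegree_C_mul_le _ _).trans (by omega), fun x => ?_⟩
  unfold FF SS
  beta_reduce
  rw [sf_ee_update, hPx, sf_sum_update hi, Polynomial.eval_mul, Polynomial.eval_C]
  have h1 : Complex.exp (-(((m + 1 : ℕ) : ℂ) - 1) *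
      (x + ∑ j ∈ (range (2 * (m + 1))).erase i, (y j : ℂ)) * Complex.I) =
      Complex.exp (-(m * x * Complex.I)) *
      Complex.exp (-(m : ℂ) * (∑ j ∈ (range (2 * (m + 1))).erase i, (y j : ℂ)) * Complex.I) := by
    rw [← Complex.exp_add]
    congr 1
    push_cast
    ring
  rw [h1]
  ring

theorem FF_rec (m : ℕ) (y : ℕ → ℝ) (h : y 1 = y 0 + π / 3) :
    FF (m + 1) y = ((∏ k ∈ range (2 * m), s (y (k + 2) - y 0) : ℝ) : ℂ) * FF m (fun j => y (j + 2)) := by
  unfold FF
  have h1 := SS_rec (2 * m) (ee y) sf_w sf_w_eq (sf_ee_one h)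
  rw [show 2 * (m + 1) = 2 * m + 2 by ring, h1, sf_prod]
  have h2 : (fun j => ee y (j + 2)) = ee (fun j => y (j + 2)) := rfl
  rw [h2]
  have h3 : ∑ j ∈ range (2 * m + 2), (y j : ℂ) =
      ∑ j ∈ range (2 * m), (y (j + 2) : ℂ) + (2 * y 0 + π / 3) := by
    rw [sum_range_succ', sum_range_succ', zero_add, h]
    push_cast
    ring
  rw [h3]
  set A : ℂ := ∑ j ∈ range (2 * m), (y (j + 2) : ℂ) with hA
  have h4 : (m + 1) * (m + 1 - 1) / 2 = m * (m - 1) / 2 + m := by
    rw [Nat.add_sub_cancel]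
    rcases m with _ | m
    · rfl
    · rw [Nat.add_sub_cancel]
      have : (m + 1 + 1) * (m + 1) = (m + 1) * m + (m + 1) * 2 := by ring
      rw [this, Nat.add_mul_div_right _ _ (by norm_num)]
  have h5 : (2 * Complex.I) ^ (2 * m) = (-4) ^ m := by
    rw [pow_mul]
    congr 1
    rw [mul_pow, Complex.I_sq]
    ring
  have h6 : Complex.exp (-(((m + 1 : ℕ) : ℂ) - 1) * (A + (2 * y 0 + π / 3)) * Complex.I) *
      Complex.exp ((A + ((2 * m : ℕ) : ℂ) * (y 0 - π / 3)) * Complex.I) =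
      (-1) ^ m * Complex.exp (-((m : ℂ) - 1) * A * Complex.I) := by
    rw [← sf_neg_one_pow, ← Complex.exp_add, ← Complex.exp_add]
    congr 1
    push_cast
    ring
  have h7 : ((4 : ℂ)⁻¹) ^ m * ((-4) ^ m * (-1) ^ m) = 1 := by
    rw [← mul_pow, ← mul_pow]
    norm_num
  rw [h4, pow_add, h5]
  calc _ = ((4 : ℂ)⁻¹ ^ (m * (m - 1) / 2) * (4 : ℂ)⁻¹ ^ m * (-4) ^ m) *
        (Complex.exp (-(((m + 1 : ℕ) : ℂ) - 1) * (A + (2 * y 0 + π / 3)) * Complex.I) *
          Complex.exp ((A + ((2 * m : ℕ) : ℂ) * (y 0 - π / 3)) * Complex.I)) *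
        ((∏ k ∈ range (2 * m), s (y (k + 2) - y 0) : ℝ) : ℂ) * SS (2 * m) (ee fun j => y (j + 2)) := by
        ring
    _ = ((4 : ℂ)⁻¹ ^ m * ((-4) ^ m * (-1) ^ m)) * (4 : ℂ)⁻¹ ^ (m * (m - 1) / 2) *
          Complex.exp (-((m : ℂ) - 1) * A * Complex.I) *
        ((∏ k ∈ range (2 * m), s (y (k + 2) - y 0) : ℝ) : ℂ) * SS (2 * m) (ee fun j => y (j + 2)) := by
        rw [h6]; ring
    _ = _ := by
        rw [h7]
        ring

theorem sf_SG_zero_var (h : ℕ → ℕ) (z : ℕ → ℂ) : SG h 0 z = 1 := SG_zero h z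

theorem FF_zero_var (y : ℕ → ℝ) : FF 0 y = 1 := by
  unfold FF SS
  rw [show 2 * 0 = 0 from rfl, SG_zero]
  simp
theorem FF_one (y : ℕ → ℝ) : FF 1 y = 1 := by
  unfold FF
  rw [show 2 * 1 = 2 from rfl, SS_two]
  simp

theorem sf_ee_zero : ee (fun _ => 0) = fun _ => 1 := by
  funext j
  simp [ee]

theorem FF_zero (m : ℕ) : FF m (fun _ => 0) = (((4 : ℝ)⁻¹ ^ (m * (m - 1) / 2) * cG hh (2 * m) : ℝ) : ℂ) := by
  unfold FF SS
  rw [sf_ee_zero, SG_ones]
  simp

/-- inversion of all variables -/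
theorem sf_inv (h : ℕ → ℕ) (n T : ℕ) (hT : ∀ j < n, h j + h (n - 1 - j) = T) (z : ℕ → ℂ)
    (hz : ∀ j, z j ≠ 0) :
    (∏ j ∈ range n, z j ^ T) * Matrix.det (Matrix.of fun i j : Fin n => (z i)⁻¹ ^ h j) =
      ((Equiv.Perm.sign (Fin.revPerm (n := n)) : ℤ) : ℂ) *
        Matrix.det (Matrix.of fun i j : Fin n => z i ^ h j) := by
  rw [← Fin.prod_univ_eq_prod_range (fun j => z j ^ T) n]
  rw [← Matrix.det_mul_column (fun i : Fin n => z i ^ T)
    (Matrix.of fun i j : Fin n => (z i)⁻¹ ^ h j)]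
  rw [← Matrix.det_permute' (Fin.revPerm (n := n)) (Matrix.of fun i j : Fin n => z i ^ h j)]
  congr 1
  ext i j
  simp only [Matrix.of_apply, Matrix.submatrix_apply, id]
  have h1 : ((Fin.revPerm j : Fin n) : ℕ) = n - 1 - j := by
    rw [Fin.revPerm_apply, Fin.val_rev]
    omega
  rw [h1]
  have h2 := hT j j.2
  have h3 : z i ^ T = z i ^ h (n - 1 - j) * z i ^ h j := by
    rw [← pow_add, ← h2, add_comm]
  rw [h3, mul_assoc, ← mul_pow, mul_inv_cancel₀ (hz i), one_pow, mul_one]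

/-- the exponents `hh` of `2 m` variables are symmetric: `3 m - 2 - hh (2 m - 1 - j) = hh j` -/
theorem FF_neg (m : ℕ) (y : ℕ → ℝ) : FF m (fun j => -y j) = FF m y := by
  -- generic points of a line
  let L : ℝ → ℕ → ℝ := fun t j => y j + t * j
  have hL : Continuous L := continuous_pi fun j => continuous_const.add (continuous_id.mul continuous_const)
  let bad : Set ℝ := ⋃ p : (ℕ × ℕ) × ℤ,
    {t | p.1.1 ≠ p.1.2 ∧ t = (p.2 * π - (y p.1.1 - y p.1.2)) / ((p.1.1 : ℝ) - p.1.2)}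
  have hbad : bad.Countable := by
    refine Set.countable_iUnion fun p => ?_
    refine (Set.countable_singleton ((p.2 * π - (y p.1.1 - y p.1.2)) / ((p.1.1 : ℝ) - p.1.2))).mono ?_
    rintro t ⟨_, ht⟩
    exact ht
  have hclosed : IsClosed {t : ℝ | FF m (fun j => -(L t j)) = FF m (L t)} := by
    refine isClosed_eq ((FF_continuous m).comp ?_) ((FF_continuous m).comp hL)
    exact continuous_pi fun j => ((continuous_apply j).comp hL).neg
  have hsub : badᶜ ⊆ {t : ℝ | FF m (fun j => -(L t j)) = FF m (L t)} := by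
    intro t ht
    have hgen : ∀ i < 2 * m, ∀ j < 2 * m, i ≠ j → ee (L t) i ≠ ee (L t) j := by
      intro i _ j _ hij heq
      apply ht
      unfold ee at heq
      rw [Complex.exp_eq_exp_iff_exists_int] at heq
      obtain ⟨n, hn⟩ := heq
      have h2 : ((L t i : ℂ) - (L t j : ℂ)) = n * π := by
        have h3 : (2 * Complex.I) * ((L t i : ℂ) - (L t j : ℂ)) = (2 * Complex.I) * (n * π) := by
          linear_combination hn
        exact mul_left_cancel₀ (by simp [Complex.I_ne_zero]) h3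
      have h4 : L t i - L t j = n * π := by exact_mod_cast h2
      refine Set.mem_iUnion.2 ⟨((i, j), n), hij, ?_⟩
      have h5 : ((i : ℝ) - j) ≠ 0 := by
        rw [sub_ne_zero]
        exact_mod_cast hij
      rw [eq_div_iff h5]
      simp only [L] at h4
      linear_combination h4
    set z : ℕ → ℂ := ee (L t) with hz
    have hz0 : ∀ j, z j ≠ 0 := fun j => Complex.exp_ne_zero _
    have hzi : ee (fun j => -(L t j)) = fun j => (z j)⁻¹ := by
      funext j
      rw [hz]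
      unfold ee
      rw [← Complex.exp_neg]
      congr 1
      push_cast
      ring
    rcases Nat.eq_zero_or_pos m with hm | hm
    · subst hm
      exact (FF_zero_var _).trans (FF_zero_var _).symm
    have i1 := sf_inv hh (2 * m) (3 * m - 2) (by
      intro j hj
      unfold hh
      omega) z hz0
    have i2 := sf_inv (fun j => j) (2 * m) (2 * m - 1) (by
      intro j hj
      change j + (2 * m - 1 - j) = 2 * m - 1
      omega) z hz0
    rw [SG_det hh (2 * m) z, SG_det hh (2 * m) (fun j => (z j)⁻¹)] at i1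
    have i3 := sch_vand (2 * m) z
    have i4 := sch_vand (2 * m) (fun j => (z j)⁻¹)
    rw [i3, i4] at i2
    have hV := sch_vand_ne hgen
    have hsign : ((Equiv.Perm.sign (Fin.revPerm (n := 2 * m)) : ℤ) : ℂ) ≠ 0 := by
      rcases Int.units_eq_one_or (Equiv.Perm.sign (Fin.revPerm (n := 2 * m))) with h | h <;>
        rw [h] <;> simp
    -- i1 : P^(3m-2) * (V(1/z) * SS(1/z)) = σ * (V(z) * SS(z)),  i2 : P^(2m-1) * V(1/z) = σ V(z)
    have h6 : (∏ j ∈ range (2 * m), z j ^ (3 * m - 2)) =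
        (∏ j ∈ range (2 * m), z j ^ (2 * m - 1)) * ∏ j ∈ range (2 * m), z j ^ (m - 1) := by
      rw [← prod_mul_distrib]
      refine prod_congr rfl fun j _ => ?_
      rw [← pow_add]
      congr 1
      omega
    have h7 : (∏ j ∈ range (2 * m), z j ^ (m - 1)) * SG hh (2 * m) (fun j => (z j)⁻¹) =
        SG hh (2 * m) z := by
      apply mul_left_cancel₀ (mul_ne_zero hsign hV)
      calc _ = (((Equiv.Perm.sign (Fin.revPerm (n := 2 * m)) : ℤ) : ℂ) *
            (∏ j ∈ range (2 * m), ∏ i ∈ range j, (z j - z i))) *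
            ((∏ j ∈ range (2 * m), z j ^ (m - 1)) * SG hh (2 * m) (fun j => (z j)⁻¹)) := rfl
        _ = ((∏ j ∈ range (2 * m), z j ^ (2 * m - 1)) *
            (∏ j ∈ range (2 * m), ∏ i ∈ range j, ((z j)⁻¹ - (z i)⁻¹))) *
            ((∏ j ∈ range (2 * m), z j ^ (m - 1)) * SG hh (2 * m) (fun j => (z j)⁻¹)) := by
            rw [i2]
        _ = (∏ j ∈ range (2 * m), z j ^ (3 * m - 2)) *
            ((∏ j ∈ range (2 * m), ∏ i ∈ range j, ((z j)⁻¹ - (z i)⁻¹)) *
              SG hh (2 * m) (fun j => (z j)⁻¹)) := by rw [h6]; ring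
        _ = _ := by rw [i1]; ring
    change FF m (fun j => -(L t j)) = FF m (L t)
    unfold FF SS
    rw [hzi, ← hz, ← h7]
    have h8 : ∏ j ∈ range (2 * m), z j ^ (m - 1) =
        Complex.exp (2 * ((m : ℂ) - 1) * (∑ j ∈ range (2 * m), (L t j : ℂ)) * Complex.I) := by
      have h9 : ∀ j, z j ^ (m - 1) = Complex.exp (((m : ℂ) - 1) * (2 * (L t j) * Complex.I)) := by
        intro j
        rw [hz]
        unfold ee
        rw [← Complex.exp_nat_mul, Nat.cast_sub hm]
        simp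
      simp_rw [h9]
      rw [← Complex.exp_sum]
      congr 1
      rw [← Finset.mul_sum, ← Finset.sum_mul, ← Finset.mul_sum]
      ring
    rw [h8]
    have h10 : Complex.exp (-((m : ℂ) - 1) * (∑ j ∈ range (2 * m), ((-(L t j) : ℝ) : ℂ)) *
        Complex.I) = Complex.exp (-((m : ℂ) - 1) * (∑ j ∈ range (2 * m), (L t j : ℂ)) * Complex.I) *
        Complex.exp (2 * ((m : ℂ) - 1) * (∑ j ∈ range (2 * m), (L t j : ℂ)) * Complex.I) := by
      rw [← Complex.exp_add]
      congr 1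
      push_cast
      rw [Finset.sum_neg_distrib]
      ring
    rw [h10]
    ring
  have h0 : (0 : ℝ) ∈ {t : ℝ | FF m (fun j => -(L t j)) = FF m (L t)} := by
    have := hclosed.closure_subset_iff.2 hsub
    exact this (hbad.dense_compl ℝ 0)
  simpa [L] using h0

/-! ### the functions `FZ` -/

theorem FZ_perm (L : ℕ) (e : Equiv.Perm ℕ) (he : ∀ j, L ≤ j → e j = j) (b : ℕ → ℝ) :
    FZ L (fun j => b (e j)) = FZ L b := by
  unfold FZ
  rw [sf_sum_perm e he b, sf_ee_perm]
  unfold SS SD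
  rw [SG_perm hh L e he (ee b), SG_perm hd L e he (ee b)]

theorem FZ_congr (L : ℕ) {b b' : ℕ → ℝ} (h : ∀ j < L, b j = b' j) : FZ L b = FZ L b' := by
  unfold FZ SS SD
  rw [SG_congr hh L (sf_ee_congr h), SG_congr hd L (sf_ee_congr h)]
  have : ∑ j ∈ range L, (b j : ℂ) = ∑ j ∈ range L, (b' j : ℂ) := by
    refine Finset.sum_congr rfl fun j hj => ?_
    rw [h j (mem_range.1 hj)]
  rw [this]

theorem FZ_continuous (L : ℕ) : Continuous (FZ L) := by
  unfold FZ
  exact (((continuous_const.mul (sf_exp_continuous _ _)).mul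
    ((SG_continuous hh L).comp sf_ee_continuous))).mul
    ((SG_continuous hd L).comp sf_ee_continuous)

theorem FZ_TPC (L : ℕ) {i : ℕ} (hi : i < L) (b : ℕ → ℝ) :
    TPC (L - 1) (fun x => FZ L (Function.update b i x)) := by
  obtain ⟨P, hP, hPx⟩ := SG_poly hh_mono L hi (ee b)
  obtain ⟨Q, hQ, hQx⟩ := SG_poly hd_mono L hi (ee b)
  rw [hh_deg] at hP
  rw [hd_deg] at hQ
  have hcast : ((L - 1 : ℕ) : ℂ) = (L : ℂ) - 1 := by
    rw [Nat.cast_sub (by omega)]; simp
  refine ⟨Polynomial.C (((Real.sqrt 3 / 2) ^ (L / 2) : ℝ) * (4 : ℂ)⁻¹ ^ (e4 L) *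
    Complex.exp (-((L : ℂ) - 1) * (∑ j ∈ (range L).erase i, (b j : ℂ)) * Complex.I)) * (P * Q),
    (Polynomial.natDegree_C_mul_le _ _).trans (Polynomial.natDegree_mul_le.trans (by omega)),
    fun x => ?_⟩
  unfold FZ SS SD
  beta_reduce
  rw [sf_ee_update, hPx, hQx, sf_sum_update hi, Polynomial.eval_mul, Polynomial.eval_C,
    Polynomial.eval_mul]
  have h1 : Complex.exp (-((L : ℂ) - 1) *
      (x + ∑ j ∈ (range L).erase i, (b j : ℂ)) * Complex.I) =
      Complex.exp (-(((L - 1 : ℕ) : ℂ) * x * Complex.I)) *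
      Complex.exp (-((L : ℂ) - 1) * (∑ j ∈ (range L).erase i, (b j : ℂ)) * Complex.I) := by
    rw [← Complex.exp_add, hcast]
    congr 1
    ring
  rw [h1]
  ring

theorem FZ_rec (L : ℕ) (b : ℕ → ℝ) (h : b 1 = b 0 + π / 3) :
    FZ (L + 2) b = (KK (L + 2) 0 b : ℂ) * FZ L (fun j => b (j + 2)) := by
  unfold FZ
  have h1 := SS_rec L (ee b) sf_w sf_w_eq (sf_ee_one h)
  have h1' := SD_rec L (ee b) sf_w sf_w_eq (sf_ee_one h)
  rw [h1, h1', sf_prod]
  have h2 : (fun j => ee b (j + 2)) = ee (fun j => b (j + 2)) := rfl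
  rw [h2]
  have h3 : ∑ j ∈ range (L + 2), (b j : ℂ) =
      ∑ j ∈ range L, (b (j + 2) : ℂ) + (2 * b 0 + π / 3) := by
    rw [sum_range_succ', sum_range_succ', zero_add, h]
    push_cast
    ring
  rw [h3]
  set A : ℂ := ∑ j ∈ range L, (b (j + 2) : ℂ) with hA
  have h4 : e4 (L + 2) = e4 L + L := by
    unfold e4
    rcases L with _ | L
    · rfl
    · rw [show L + 1 + 2 - 1 = L + 2 by omega, Nat.add_sub_cancel,
        show (L + 2) ^ 2 = L ^ 2 + (L + 1) * 4 by ring, Nat.add_mul_div_right _ _ (by norm_num)]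
  have h4' : (L + 2) / 2 = L / 2 + 1 := by omega
  have h5 : (2 * Complex.I) ^ L * (2 * Complex.I) ^ L = (-4) ^ L := by
    rw [← mul_pow]
    congr 1
    linear_combination 4 * Complex.I_sq
  have hww : -sf_w ^ 2 * ee b 0 = Complex.exp ((2 * b 0 + π / 3) * Complex.I) := by
    have e1 : (-1 : ℂ) = Complex.exp (π * Complex.I) := Complex.exp_pi_mul_I.symm
    rw [neg_mul, neg_eq_neg_one_mul, e1, sf_w2]
    unfold ee
    rw [← Complex.exp_add, ← Complex.exp_add]
    congr 1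
    ring
  have h6 : Complex.exp (-(((L + 2 : ℕ) : ℂ) - 1) * (A + (2 * b 0 + π / 3)) * Complex.I) *
      (Complex.exp ((A + (L : ℂ) * (b 0 - π / 3)) * Complex.I) *
      Complex.exp ((A + (L : ℂ) * (b 0 - π / 3)) * Complex.I)) *
      Complex.exp ((2 * b 0 + π / 3) * Complex.I) =
      (-1) ^ L * Complex.exp (-((L : ℂ) - 1) * A * Complex.I) := by
    rw [← sf_neg_one_pow, ← Complex.exp_add, ← Complex.exp_add, ← Complex.exp_add,
      ← Complex.exp_add]
    congr 1
    push_cast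
    ring
  have h7 : ((4 : ℂ)⁻¹) ^ L * ((-4) ^ L * (-1) ^ L) = 1 := by
    rw [← mul_pow, ← mul_pow]
    norm_num
  have h8 : (KK (L + 2) 0 b : ℂ) = ((Real.sqrt 3 / 2 : ℝ) : ℂ) *
      (((∏ k ∈ range L, s (b (k + 2) - b 0) : ℝ) : ℂ) *
        ((∏ k ∈ range L, s (b (k + 2) - b 0) : ℝ) : ℂ)) := by
    unfold KK
    rw [← Complex.ofReal_mul, ← Complex.ofReal_mul]
    congr 2
    rw [← prod_mul_distrib]
    symm
    refine prod_bij (fun k _ => k + 2) ?_ ?_ ?_ ?_
    · intro k hk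
      rw [mem_range] at hk
      simp only [mem_filter, mem_range]
      omega
    · intro k _ l _ hkl
      omega
    · intro k hk
      simp only [mem_filter, mem_range] at hk
      exact ⟨k - 2, mem_range.2 (by omega), by omega⟩
    · intro k _
      ring
  rw [h4, h4', pow_add, pow_add, pow_one, hww, h8]
  push_cast
  set S1 : ℂ := ∏ k ∈ range L, ((s (b (k + 2) - b 0) : ℝ) : ℂ) with hS1
  calc _ = ((((Real.sqrt 3 : ℝ) : ℂ) / 2) ^ (L / 2) * (((Real.sqrt 3 : ℝ) : ℂ) / 2)) *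
        ((4 : ℂ)⁻¹ ^ e4 L * (4 : ℂ)⁻¹ ^ L) * ((2 * Complex.I) ^ L * (2 * Complex.I) ^ L) *
        (Complex.exp (-(((L + 2 : ℕ) : ℂ) - 1) * (A + (2 * b 0 + π / 3)) * Complex.I) *
          (Complex.exp ((A + (L : ℂ) * (b 0 - π / 3)) * Complex.I) *
          Complex.exp ((A + (L : ℂ) * (b 0 - π / 3)) * Complex.I)) *
          Complex.exp ((2 * b 0 + π / 3) * Complex.I)) * (S1 * S1) *
        SS L (ee fun j => b (j + 2)) * SD L (ee fun j => b (j + 2)) := by
        push_cast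
        ring
    _ = ((4 : ℂ)⁻¹ ^ L * ((-4) ^ L * (-1) ^ L)) *
        ((((Real.sqrt 3 : ℝ) : ℂ) / 2) ^ (L / 2) * (((Real.sqrt 3 : ℝ) : ℂ) / 2)) *
        ((4 : ℂ)⁻¹ ^ e4 L) * Complex.exp (-((L : ℂ) - 1) * A * Complex.I) * (S1 * S1) *
        SS L (ee fun j => b (j + 2)) * SD L (ee fun j => b (j + 2)) := by
        rw [h6, h5]; ring
    _ = _ := by
        rw [h7]
        ring

theorem FZ_zero_var (b : ℕ → ℝ) : FZ 0 b = 1 := by
  unfold FZ SS SD
  rw [SG_zero, SG_zero]
  simp [e4]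
theorem FZ_one (b : ℕ → ℝ) : FZ 1 b = 1 := by
  unfold FZ
  rw [SS_one, SD_one]
  simp [e4]
theorem FZ_zero (L : ℕ) : FZ L (fun _ => 0) =
    (((Real.sqrt 3 / 2) ^ (L / 2) * (4 : ℝ)⁻¹ ^ (e4 L) * (cG hh L * cG hd L) : ℝ) : ℂ) := by
  unfold FZ SS SD
  rw [sf_ee_zero, SG_ones, SG_ones]
  simp
  ring
end IPC
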