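import Pool.Agent.Helper64.IPC.Recur
import Pool.Agent.Helper64.IPC.SchurF
import Pool.Agent.Lead.IP.TrigC
/-! MODULE ZFORM: `Z L b = FZ L b`.  Induction `L → L + 2` (`Z 0 = Z 1 = 1`); interpolation in `b 0` for generic
`b 1, ..., b (L+1)` at the `2 (L+1) > L + 1` points `b 0 = b j ± π/3` (`Z_rec`, `FZ_rec`, symmetries `Z_perm`, `FZ_perm`; degree
`L+1`); then continuity. -/
namespace IPC
open IP Finset Real

/-- the difference of the two sides -/
noncomputable def zc_D (L : ℕ) (b : ℕ → ℝ) : ℂ := (Z L b : ℂ) - FZ L b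

theorem zc_D_perm (L : ℕ) (e : Equiv.Perm ℕ) (he : ∀ j, L ≤ j → e j = j) (b : ℕ → ℝ) :
    zc_D L (fun j => b (e j)) = zc_D L b := by
  unfold zc_D
  rw [Z_perm L e he, FZ_perm L e he]

theorem zc_D_congr (L : ℕ) {b b' : ℕ → ℝ} (h : ∀ j < L, b j = b' j) : zc_D L b = zc_D L b' := by
  unfold zc_D
  rw [Z_congr L h, FZ_congr L h]

theorem zc_D_swap (L : ℕ) {i j : ℕ} (hi : i < L) (hj : j < L) (b : ℕ → ℝ) :
    zc_D L (fun k => b (Equiv.swap i j k)) = zc_D L b := by
  refine zc_D_perm L _ ?_ b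
  intro k hk
  exact Equiv.swap_apply_of_ne_of_ne (by omega) (by omega)

theorem zc_D_TPC (L : ℕ) {i : ℕ} (hi : i < L) (b : ℕ → ℝ) :
    TPC (L - 1) (fun x => zc_D L (Function.update b i x)) :=
  (TPC.of_TP ((Z_Sep L).1 b i hi)).sub (FZ_TPC L hi b)

theorem zc_pair01 {L : ℕ} (ih : ∀ b, zc_D L b = 0) {b : ℕ → ℝ} (hb : b 1 = b 0 + π / 3) :
    zc_D (L + 2) b = 0 := by
  have h := ih (fun j => b (j + 2))
  unfold zc_D at h ⊢
  rw [Z_rec L b hb, FZ_rec L b hb, Complex.ofReal_mul, ← mul_sub, h, mul_zero]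

theorem zc_pair {L : ℕ} (ih : ∀ b, zc_D L b = 0) {j : ℕ} (h1 : 1 ≤ j) (h2 : j ≤ L + 1) {b : ℕ → ℝ}
    (hb : b j = b 0 + π / 3) : zc_D (L + 2) b = 0 := by
  rw [← zc_D_swap (L + 2) (i := 1) (j := j) (by omega) (by omega) b]
  apply zc_pair01 ih
  rw [Equiv.swap_apply_left, Equiv.swap_apply_of_ne_of_ne (by omega) (by omega)]
  exact hb

theorem zc_pair' {L : ℕ} (ih : ∀ b, zc_D L b = 0) {j : ℕ} (h1 : 1 ≤ j) (h2 : j ≤ L + 1) {b : ℕ → ℝ}
    (hb : b 0 = b j + π / 3) : zc_D (L + 2) b = 0 := by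
  rw [← zc_D_swap (L + 2) (i := 0) (j := j) (by omega) (by omega) b]
  apply zc_pair ih h1 h2
  rw [Equiv.swap_apply_right, Equiv.swap_apply_left]
  exact hb

theorem zc_sin_ne_of_lt {x : ℝ} (h : x ≠ 0) (h1 : -π < x) (h2 : x < π) : Real.sin x ≠ 0 := by
  rw [Ne, Real.sin_eq_zero_iff_of_lt_of_lt h1 h2]
  exact h

/-- the induction step on a set of generic points -/
theorem zc_generic {L : ℕ} (ih : ∀ b, zc_D L b = 0) {b : ℕ → ℝ}
    (hpos : ∀ j, j ≤ L + 1 → 0 < b j) (hlt : ∀ j, j ≤ L + 1 → b j < π / 12)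
    (hinj : ∀ i j, i ≤ L + 1 → j ≤ L + 1 → b i = b j → i = j) : zc_D (L + 2) b = 0 := by
  have hpi := Real.pi_pos
  -- the nodes
  let f : ℕ × Bool → ℝ := fun z => b (z.1 + 1) + (if z.2 then π / 3 else -(π / 3))
  let S : Finset (ℕ × Bool) := range (L + 1) ×ˢ (univ : Finset Bool)
  have hfI : Set.InjOn f S := by
    rintro ⟨i, p⟩ hi ⟨j, q⟩ hj h
    have hi' : i < L + 1 := mem_range.mp (Finset.mem_product.mp (Finset.mem_coe.mp hi)).1
    have hj' : j < L + 1 := mem_range.mp (Finset.mem_product.mp (Finset.mem_coe.mp hj)).1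
    have a1 := hpos (i + 1) (by omega)
    have a2 := hlt (i + 1) (by omega)
    have a3 := hpos (j + 1) (by omega)
    have a4 := hlt (j + 1) (by omega)
    have a5 := hinj (i + 1) (j + 1) (by omega) (by omega)
    simp only [f] at h
    cases p <;> cases q <;> simp only [if_true, if_false, Bool.false_eq_true] at h <;>
      first
        | (exfalso; linarith)
        | (have : i + 1 = j + 1 := a5 (by linarith)
           have : i = j := by omega
           rw [this])
  have htb : ∀ x ∈ S.image f, -(π / 2) < x ∧ x < π / 2 := by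
    intro x hx
    obtain ⟨⟨i, p⟩, hz, rfl⟩ := mem_image.mp hx
    have hi' : i < L + 1 := mem_range.mp (Finset.mem_product.mp hz).1
    have a1 := hpos (i + 1) (by omega)
    have a2 := hlt (i + 1) (by omega)
    simp only [f]
    cases p <;> simp only [if_true, if_false, Bool.false_eq_true] <;>
      refine ⟨?_, ?_⟩ <;> linarith
  have hcard : L + 1 < (S.image f).card := by
    rw [card_image_of_injOn hfI, card_product, card_range]
    have : (univ : Finset Bool).card = 2 := by decide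
    rw [this]
    omega
  have hTP : TPC (L + 1) (fun x => zc_D (L + 2) (Function.update b 0 x)) :=
    zc_D_TPC (L + 2) (by omega) b
  have hall := hTP.eq_zero (S.image f) hcard
    (by
      intro x hx y hy hxy
      have h1 := htb x hx
      have h2 := htb y hy
      exact zc_sin_ne_of_lt (sub_ne_zero.mpr hxy) (by linarith) (by linarith))
    (by
      intro x hx
      obtain ⟨⟨i, p⟩, hz, rfl⟩ := mem_image.mp hx
      have hi' : i < L + 1 := mem_range.mp (Finset.mem_product.mp hz).1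
      cases p
      · refine zc_pair ih (j := i + 1) (by omega) (by omega) ?_
        rw [Function.update_self, Function.update_of_ne (by omega)]
        simp only [f, if_false, Bool.false_eq_true]
        ring
      · refine zc_pair' ih (j := i + 1) (by omega) (by omega) ?_
        rw [Function.update_self, Function.update_of_ne (by omega)]
        simp only [f, if_true])
  have := hall (b 0)
  rwa [Function.update_eq_self] at this

theorem zc_TP_re {m : ℕ} {F : ℝ → ℂ} (hF : TPC m F) : TP m (fun x => (F x).re) := by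
  have h : TPC m (fun x => (1 / 2 : ℂ) * (F x + (starRingEnd ℂ) (F x))) := (hF.add hF.conj).const_mul _
  have e : (fun x => (1 / 2 : ℂ) * (F x + (starRingEnd ℂ) (F x))) = fun x => (((F x).re : ℝ) : ℂ) := by
    funext x
    rw [Complex.add_conj]
    push_cast
    ring
  rw [e] at h
  exact h

theorem zc_TP_im {m : ℕ} {F : ℝ → ℂ} (hF : TPC m F) : TP m (fun x => (F x).im) := by
  have h := zc_TP_re (hF.const_mul (-Complex.I))
  have e : (fun x => (-Complex.I * F x).re) = fun x => (F x).im := by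
    funext x
    simp
  rwa [e] at h

theorem zc_Sep_re (L : ℕ) : Sep L (L - 1) (fun b => (zc_D L b).re) :=
  ⟨fun b _ hj => zc_TP_re (zc_D_TPC L hj b), fun _ _ h => congrArg Complex.re (zc_D_congr L h)⟩

theorem zc_Sep_im (L : ℕ) : Sep L (L - 1) (fun b => (zc_D L b).im) :=
  ⟨fun b _ hj => zc_TP_im (zc_D_TPC L hj b), fun _ _ h => congrArg Complex.im (zc_D_congr L h)⟩

theorem zc_step {L : ℕ} (ih : ∀ b, zc_D L b = 0) : ∀ b, zc_D (L + 2) b = 0 := by
  set N : ℝ := L + 3 with hN
  have hNpos : 0 < N := by positivity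
  have hpi := Real.pi_pos
  set δ : ℝ := π / 12 / N with hδ
  have hδpos : 0 < δ := by positivity
  have hδN : N * δ = π / 12 := by rw [hδ]; field_simp
  have hbox : ∀ b : ℕ → ℝ, (∀ j : ℕ, |b j - ((j : ℝ) + 1) * δ| < δ / 2) → zc_D (L + 2) b = 0 := by
    intro b hb
    have hup : ∀ j : ℕ, b j < ((j : ℝ) + 1) * δ + δ / 2 := fun j => by
      have := (abs_lt.mp (hb j)).2; linarith
    have hdn : ∀ j : ℕ, ((j : ℝ) + 1) * δ - δ / 2 < b j := fun j => by
      have := (abs_lt.mp (hb j)).1; linarith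
    have hmono : ∀ i j : ℕ, i < j → b i < b j := by
      intro i j hij
      have h1 : (i : ℝ) + 1 ≤ j := by exact_mod_cast hij
      have h2 : ((i : ℝ) + 1) * δ ≤ (j : ℝ) * δ := mul_le_mul_of_nonneg_right h1 hδpos.le
      have := hup i
      have := hdn j
      linarith [add_mul (j : ℝ) 1 δ]
    refine zc_generic ih ?_ ?_ ?_
    · intro j _
      have h1 := hdn j
      have h2 : (0 : ℝ) ≤ (j : ℝ) * δ := by positivity
      linarith [add_mul (j : ℝ) 1 δ]
    · intro j hj
      have h1 := hup j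
      have h2 : (j : ℝ) + 2 ≤ N := by
        rw [hN]
        have : (j : ℝ) ≤ L + 1 := by exact_mod_cast hj
        linarith
      have h3 : ((j : ℝ) + 2) * δ ≤ N * δ := mul_le_mul_of_nonneg_right h2 hδpos.le
      rw [hδN] at h3
      linarith [add_mul (j : ℝ) 1 δ, add_mul (j : ℝ) 2 δ]
    · intro i j _ _ hij
      rcases lt_trichotomy i j with h | h | h
      · exact absurd hij (hmono i j h).ne
      · exact h
      · exact absurd hij (hmono j i h).ne'
  have hre := (zc_Sep_re (L + 2)).eq_zero_box (fun j => ((j : ℝ) + 1) * δ) (half_pos hδpos)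
    (fun b hb => by rw [hbox b hb, Complex.zero_re])
  have him := (zc_Sep_im (L + 2)).eq_zero_box (fun j => ((j : ℝ) + 1) * δ) (half_pos hδpos)
    (fun b hb => by rw [hbox b hb, Complex.zero_im])
  intro b
  exact Complex.ext (hre b) (him b)

theorem zc_D_all (L : ℕ) : (∀ b, zc_D L b = 0) ∧ ∀ b, zc_D (L + 1) b = 0 := by
  induction L with
  | zero =>
    constructor
    · intro b
      unfold zc_D Z
      rw [V_zero, FZ_zero_var, tot_single, Complex.ofReal_one, sub_self]
    · intro b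
      unfold zc_D Z
      rw [zero_add, V_one, FZ_one, tot_single, Complex.ofReal_one, sub_self]
  | succ L ih => exact ⟨ih.2, zc_step ih.1⟩

theorem Z_form (L : ℕ) (b : ℕ → ℝ) : (Z L b : ℂ) = FZ L b :=
  sub_eq_zero.mp ((zc_D_all L).1 b)

theorem Z_zero (L : ℕ) : Z L (fun _ => 0) =
    (Real.sqrt 3 / 2) ^ (L / 2) * (4 : ℝ)⁻¹ ^ (e4 L) * (cG hh L * cG hd L) := by
  have h := Z_form L (fun _ => 0)
  rw [FZ_zero] at h
  exact Complex.ofReal_injective h
end IPC
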