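import Pool.Agent.Helper64.IPC.ArmC
import Pool.Agent.Helper64.IPC.Zform
/-! MODULE ARMD: the two-arm case `k = 1` and its exact value. -/
namespace IPC
open IP Finset Real

/-- the arm function for `k = 1`: Schur function with every glued parameter doubled -/
noncomputable def G1 (m : ℕ) (y b : ℕ → ℝ) : ℂ := FF (m + 1) (cons (y 0) (cons (y 1) (dbl b)))

/-! ### the arm function `G1` -/

theorem ad_perm_lt {m : ℕ} {e : Equiv.Perm ℕ} (he : ∀ j, m ≤ j → e j = j) {j : ℕ} (hj : j < m) : e j < m := by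
  by_contra h
  rw [not_lt] at h
  have := e.injective (he _ h)
  omega

/-- the permutation of the doubled variables -/
def ad_dp (e : Equiv.Perm ℕ) : Equiv.Perm ℕ where
  toFun j := if j < 2 then j else 2 + (2 * e ((j - 2) / 2) + (j - 2) % 2)
  invFun j := if j < 2 then j else 2 + (2 * e.symm ((j - 2) / 2) + (j - 2) % 2)
  left_inv j := by
    by_cases h : j < 2
    · simp only [h, if_true]
    · simp only [h, if_false]
      rw [if_neg (by omega)]
      have h1 : (2 + (2 * e ((j - 2) / 2) + (j - 2) % 2) - 2) / 2 = e ((j - 2) / 2) := by omega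
      have h2 : (2 + (2 * e ((j - 2) / 2) + (j - 2) % 2) - 2) % 2 = (j - 2) % 2 := by omega
      rw [h1, h2, Equiv.symm_apply_apply]
      omega
  right_inv j := by
    by_cases h : j < 2
    · simp only [h, if_true]
    · simp only [h, if_false]
      rw [if_neg (by omega)]
      have h1 : (2 + (2 * e.symm ((j - 2) / 2) + (j - 2) % 2) - 2) / 2 = e.symm ((j - 2) / 2) := by omega
      have h2 : (2 + (2 * e.symm ((j - 2) / 2) + (j - 2) % 2) - 2) % 2 = (j - 2) % 2 := by omega
      rw [h1, h2, Equiv.apply_symm_apply]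
      omega

theorem ad_cons2 (x y : ℝ) (b : ℕ → ℝ) (j : ℕ) : cons x (cons y (dbl b)) j =
    if j = 0 then x else if j = 1 then y else b ((j - 2) / 2) := by
  rcases j with _ | _ | j
  · rfl
  · rfl
  · rw [if_neg (by omega), if_neg (by omega)]
    rfl

theorem ad_prod (g : ℕ → ℝ) (m : ℕ) : ∏ l ∈ range (2 * m), g (l / 2) = ∏ j ∈ range m, g j ^ 2 := by
  induction m with
  | zero => rfl
  | succ m ih =>
    rw [show 2 * (m + 1) = 2 * m + 1 + 1 by ring, prod_range_succ, prod_range_succ, ih, prod_range_succ,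
      show (2 * m) / 2 = m by omega, show (2 * m + 1) / 2 = m by omega]
    ring

theorem ad_s : s (π / 3) = Real.sqrt 3 / 2 := by
  unfold s
  rw [show π / 3 + π / 3 = π - π / 3 by ring, Real.sin_pi_sub, Real.sin_pi_div_three]

theorem G1_ArmFun : ArmFun 1 G1 where
  zero y b := FF_one _
  congr m y y' b b' hy hb := by
    unfold G1
    refine FF_congr _ fun j hj => ?_
    rw [ad_cons2, ad_cons2]
    by_cases h0 : j = 0
    · rw [if_pos h0, if_pos h0, hy 0 (by omega)]
    · by_cases h1 : j = 1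
      · rw [if_neg h0, if_pos h1, if_neg h0, if_pos h1, hy 1 (by omega)]
      · rw [if_neg h0, if_neg h1, if_neg h0, if_neg h1, hb _ (by omega)]
  permy m e he y b := by
    unfold G1
    rw [← FF_perm (m + 1) e (fun j hj => he j (by omega)) (cons (y 0) (cons (y 1) (dbl b)))]
    refine FF_congr _ fun j _ => ?_
    show cons (y (e 0)) (cons (y (e 1)) (dbl b)) j = cons (y 0) (cons (y 1) (dbl b)) (e j)
    rw [ad_cons2, ad_cons2]
    have h0 : e 0 < 2 := ad_perm_lt he (by omega)
    have h1 : e 1 < 2 := ad_perm_lt he (by omega)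
    by_cases hj0 : j = 0
    · subst hj0
      rw [if_pos rfl]
      by_cases h : e 0 = 0
      · rw [if_pos h, h]
      · rw [if_neg h, if_pos (by omega), show e 0 = 1 by omega]
    · by_cases hj1 : j = 1
      · subst hj1
        rw [if_neg hj0, if_pos rfl]
        by_cases h : e 1 = 0
        · rw [if_pos h, h]
        · rw [if_neg h, if_pos (by omega), show e 1 = 1 by omega]
      · have h2 : e j = j := he j (by omega)
        rw [h2, if_neg hj0, if_neg hj1, if_neg hj0, if_neg hj1]
  permb m e he y b := by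
    unfold G1
    rw [← FF_perm (m + 1) (ad_dp e) ?_ (cons (y 0) (cons (y 1) (dbl b)))]
    · refine FF_congr _ fun j _ => ?_
      rw [ad_cons2, ad_cons2]
      show _ = if (if j < 2 then j else 2 + (2 * e ((j - 2) / 2) + (j - 2) % 2)) = 0 then _ else _
      by_cases h0 : j = 0
      · subst h0
        simp
      · by_cases h1 : j = 1
        · subst h1
          rw [if_neg (by omega), if_pos rfl, if_neg (by rw [if_pos (by omega)]; omega)]
          show _ = if (if 1 < 2 then 1 else 2 + (2 * e ((1 - 2) / 2) + (1 - 2) % 2)) = 1 then _ else _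
          rw [if_pos (by rw [if_pos (by omega)])]
        · rw [if_neg h0, if_neg h1, if_neg (by rw [if_neg (by omega)]; omega)]
          show _ = if (if j < 2 then j else 2 + (2 * e ((j - 2) / 2) + (j - 2) % 2)) = 1 then _ else _
          rw [if_neg (by rw [if_neg (by omega)]; omega)]
          show _ = b (((if j < 2 then j else 2 + (2 * e ((j - 2) / 2) + (j - 2) % 2)) - 2) / 2)
          rw [if_neg (by omega)]
          congr 1
          omega
    · intro j hj
      show (if j < 2 then j else 2 + (2 * e ((j - 2) / 2) + (j - 2) % 2)) = j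
      rw [if_neg (by omega), he ((j - 2) / 2) (by omega)]
      omega
  neg m y b := by
    unfold G1
    rw [← FF_neg]
    refine FF_congr _ fun j _ => ?_
    rw [ad_cons2, ad_cons2]
    split_ifs <;> ring
  tpc m y b _ := by
    have h := FF_TPC m (i := 0) (by omega) (cons (y 0) (cons (y 1) (dbl b)))
    have e : (fun t => G1 m (Function.update y 0 t) b) =
        fun x => FF (m + 1) (Function.update (cons (y 0) (cons (y 1) (dbl b))) 0 x) := by
      funext t
      unfold G1
      refine FF_congr _ fun j _ => ?_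
      rw [Function.update_self, Function.update_of_ne (by omega), ad_cons2]
      by_cases h0 : j = 0
      · subst h0
        rw [if_pos rfl, Function.update_self]
      · rw [if_neg h0, Function.update_of_ne h0, ad_cons2, if_neg h0]
    rw [e]
    exact h
  recur m y b _ hb := by
    unfold G1
    rw [← FF_perm (m + 1 + 1) (Equiv.swap 1 2) (fun j hj => by
      rw [Equiv.swap_apply_of_ne_of_ne (by omega) (by omega)]) (cons (y 0) (cons (y 1) (dbl b)))]
    have v : ∀ j, (fun j => cons (y 0) (cons (y 1) (dbl b)) (Equiv.swap 1 2 j)) j =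
        if j = 0 then y 0 else if j = 1 then b 0 else if j = 2 then y 1 else b ((j - 2) / 2) := by
      intro j
      show cons (y 0) (cons (y 1) (dbl b)) (Equiv.swap 1 2 j) = _
      by_cases h1 : j = 1
      · subst h1
        rw [Equiv.swap_apply_left, ad_cons2]
        simp
      · by_cases h2 : j = 2
        · subst h2
          rw [Equiv.swap_apply_right, ad_cons2]
          simp
        · rw [Equiv.swap_apply_of_ne_of_ne h1 h2, ad_cons2, if_neg h1]
          by_cases h0 : j = 0
          · rw [if_pos h0, if_pos h0]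
          · rw [if_neg h0, if_neg h0, if_neg h1, if_neg h2]
    have v0 : (fun j => cons (y 0) (cons (y 1) (dbl b)) (Equiv.swap 1 2 j)) 0 = y 0 := v 0
    have v1 : (fun j => cons (y 0) (cons (y 1) (dbl b)) (Equiv.swap 1 2 j)) 1 = b 0 := v 1
    rw [FF_rec (m + 1) _ (v1.trans (hb.trans (congrArg (fun z => z + π / 3) v0.symm)))]
    congr 1
    · congr 1
      have e1 : ∀ k ∈ range (2 * (m + 1)), s ((fun j => cons (y 0) (cons (y 1) (dbl b)) (Equiv.swap 1 2 j)) (k + 2) -
          (fun j => cons (y 0) (cons (y 1) (dbl b)) (Equiv.swap 1 2 j)) 0) =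
          (if k = 0 then s (y 1 - y 0) else s (b (k / 2) - y 0)) := by
        intro k _
        rw [v, v]
        by_cases h0 : k = 0
        · subst h0
          simp
        · rw [if_neg (by omega), if_neg (by omega), if_neg (by omega), if_pos rfl, if_neg h0]
          congr 3
      rw [prod_congr rfl e1, show 2 * (m + 1) = 2 * m + 1 + 1 by ring, prod_range_succ', prod_range_succ']
      have e2 : ∀ k ∈ range (2 * m), (if k + 1 + 1 = 0 then s (y 1 - y 0) else s (b ((k + 1 + 1) / 2) - y 0)) =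
          (fun j => s (b (j + 1) - y 0)) (k / 2) := by
        intro k _
        rw [if_neg (by omega)]
        have : (k + 1 + 1) / 2 = k / 2 + 1 := by omega
        rw [this]
      rw [prod_congr rfl e2, ad_prod (fun j => s (b (j + 1) - y 0))]
      have e3 : (if 0 + 1 = 0 then s (y 1 - y 0) else s (b ((0 + 1) / 2) - y 0)) = Real.sqrt 3 / 2 := by
        rw [if_neg (by omega), show (0 + 1) / 2 = 0 by omega, hb, show y 0 + π / 3 - y 0 = π / 3 by ring, ad_s]
      rw [e3, if_pos rfl]
      have e4 : ∏ i ∈ Ico 1 (2 * 1), s (y i - y 0) = s (y 1 - y 0) := by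
        rw [show 2 * 1 = 1 + 1 by ring, Nat.Ico_succ_singleton, prod_singleton]
      rw [e4]
      ring
    · rw [← FF_perm (m + 1) (Equiv.swap 0 1) (fun j hj => by
        rw [Equiv.swap_apply_of_ne_of_ne (by omega) (by omega)])]
      refine FF_congr _ fun j _ => ?_
      show (fun j => cons (y 0) (cons (y 1) (dbl b)) (Equiv.swap 1 2 j)) (Equiv.swap 0 1 j + 2) = _
      rw [v, ad_cons2, Function.update_self, Function.update_of_ne (by omega)]
      by_cases h0 : j = 0
      · subst h0
        rw [Equiv.swap_apply_left]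
        simp
      · by_cases h1 : j = 1
        · subst h1
          rw [Equiv.swap_apply_right]
          simp
        · rw [Equiv.swap_apply_of_ne_of_ne h0 h1, if_neg (by omega), if_neg (by omega), if_neg (by omega),
            if_neg h0, if_neg h1]
          congr 1
          omega

/-! ### generic parameters are dense -/

theorem ad_sin_ne (d r : ℝ) (hr : r ≠ 0) : ∀ᶠ t in nhdsWithin (0 : ℝ) {0}ᶜ, Real.sin (3 * (d + t * r)) ≠ 0 := by
  by_cases hd : Real.sin (3 * d) = 0
  · have hc : Real.cos (3 * d) ≠ 0 := by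
      intro h
      have := Real.sin_sq_add_cos_sq (3 * d)
      rw [hd, h] at this
      norm_num at this
    have h1 : ∀ᶠ t in nhdsWithin (0 : ℝ) {0}ᶜ, |3 * (t * r)| < π := by
      have hcont : Filter.Tendsto (fun t : ℝ => |3 * (t * r)|) (nhds 0) (nhds |3 * (0 * r)|) :=
        (Continuous.abs (by fun_prop)).tendsto 0
      have h2 : |3 * (0 * r)| < π := by
        rw [zero_mul, mul_zero, abs_zero]
        exact Real.pi_pos
      exact (hcont.eventually (gt_mem_nhds h2)).filter_mono nhdsWithin_le_nhds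
    have h2 : ∀ᶠ t in nhdsWithin (0 : ℝ) {0}ᶜ, t ≠ 0 := by
      filter_upwards [self_mem_nhdsWithin] with t ht
      exact ht
    filter_upwards [h1, h2] with t ht1 ht2
    rw [show 3 * (d + t * r) = 3 * d + 3 * (t * r) by ring, Real.sin_add, hd, zero_mul, zero_add]
    refine mul_ne_zero hc ?_
    intro h
    rw [Real.sin_eq_zero_iff_of_lt_of_lt (abs_lt.1 ht1).1 (abs_lt.1 ht1).2] at h
    have : t * r ≠ 0 := mul_ne_zero ht2 hr
    apply this
    linarith
  · have hcont : Filter.Tendsto (fun t : ℝ => Real.sin (3 * (d + t * r))) (nhds 0)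
        (nhds (Real.sin (3 * (d + 0 * r)))) := (by fun_prop : Continuous
          (fun t : ℝ => Real.sin (3 * (d + t * r)))).tendsto 0
    rw [zero_mul, add_zero] at hcont
    exact (hcont.eventually_ne hd).filter_mono nhdsWithin_le_nhds

/-- the path `u + t (0, 1, 2, ...)` is generic for small `t ≠ 0` -/
theorem FG_dense (n : ℕ) (u : ℕ → ℝ) : ∀ᶠ t in nhdsWithin (0 : ℝ) {0}ᶜ, FG n (fun j => u j + t * j) := by
  have h : ∀ᶠ t in nhdsWithin (0 : ℝ) {0}ᶜ, ∀ p ∈ range n ×ˢ range n, p.1 ≠ p.2 →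
      Real.sin (3 * ((u p.1 - u p.2) + t * ((p.1 : ℝ) - p.2))) ≠ 0 := by
    rw [Filter.eventually_all_finset]
    rintro ⟨i, j⟩ _
    by_cases hij : i = j
    · exact Filter.Eventually.of_forall fun t h => absurd hij h
    · have hr : (i : ℝ) - j ≠ 0 := by
        rw [sub_ne_zero]
        exact_mod_cast hij
      filter_upwards [ad_sin_ne (u i - u j) ((i : ℝ) - j) hr] with t ht _
      exact ht
  filter_upwards [h] with t ht i j hi hj hij
  have h1 := ht (i, j) (mem_product.2 ⟨mem_range.2 hi, mem_range.2 hj⟩) hij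
  dsimp only at h1 ⊢
  rw [show u i + t * (i : ℝ) - (u j + t * (j : ℝ)) = (u i - u j) + t * ((i : ℝ) - j) by ring]
  exact h1

theorem cat_path {k a : ℕ} (h : a ≤ 2 * k) (x x' b : ℕ → ℝ) (t : ℝ) :
    cat (2 * k) (cat a (fun j => x j + t * j) (fun j => x' j + t * ((a : ℝ) + j)))
      (fun j => b j + t * ((2 * k : ℝ) + j)) = fun j => cat (2 * k) (cat a x x') b j + t * j := by
  funext j
  unfold cat
  by_cases h1 : j < 2 * k
  · rw [if_pos h1, if_pos h1]
    by_cases h2 : j < a
    · rw [if_pos h2, if_pos h2]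
    · rw [if_neg h2, if_neg h2]
      rw [not_lt] at h2
      show x' (j - a) + t * ((a : ℝ) + ((j - a : ℕ) : ℝ)) = _
      rw [Nat.cast_sub h2]
      ring
  · rw [if_neg h1, if_neg h1]
    rw [not_lt] at h1
    show b (j - 2 * k) + t * ((2 * k : ℝ) + ((j - 2 * k : ℕ) : ℝ)) = _
    rw [Nat.cast_sub h1]
    push_cast
    ring

/-- limits along the generic path -/
theorem AF_path (a c m : ℕ) (x x' b : ℕ → ℝ) (α β γ : ℕ → ℝ) :
    Filter.Tendsto (fun t : ℝ => AF a c m (fun j => x j + t * α j) (fun j => x' j + t * β j)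
      (fun j => b j + t * γ j)) (nhds 0) (nhds (AF a c m x x' b)) := by
  have hc : Continuous (fun t : ℝ => ((fun j => x j + t * α j, fun j => x' j + t * β j,
      fun j => b j + t * γ j) : (ℕ → ℝ) × (ℕ → ℝ) × (ℕ → ℝ))) := by
    refine Continuous.prodMk ?_ (Continuous.prodMk ?_ ?_) <;>
    exact continuous_pi fun j => by fun_prop
  have h := ((AF_continuous a c m).comp hc).tendsto 0
  have e : (((fun j => x j + (0 : ℝ) * α j, fun j => x' j + (0 : ℝ) * β j,
      fun j => b j + (0 : ℝ) * γ j) : (ℕ → ℝ) × (ℕ → ℝ) × (ℕ → ℝ))) = (x, x', b) := by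
    simp
  have h2 : ((fun q : (ℕ → ℝ) × (ℕ → ℝ) × (ℕ → ℝ) => AF a c m q.1 q.2.1 q.2.2) ∘ fun t : ℝ =>
      ((fun j => x j + t * α j, fun j => x' j + t * β j, fun j => b j + t * γ j) :
        (ℕ → ℝ) × (ℕ → ℝ) × (ℕ → ℝ))) 0 = AF a c m x x' b := by
    show AF a c m (((fun j => x j + (0 : ℝ) * α j, fun j => x' j + (0 : ℝ) * β j,
      fun j => b j + (0 : ℝ) * γ j) : (ℕ → ℝ) × (ℕ → ℝ) × (ℕ → ℝ))).1 _ _ = _
    simp
  rw [h2] at h
  exact h

/-- the closed form holds at all parameters if `G` is continuous along the generic path -/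
theorem arm_form_limit {k : ℕ} (hk : 0 < k) {G : ℕ → (ℕ → ℝ) → (ℕ → ℝ) → ℂ} (hG : ArmFun k G) (m a c : ℕ)
    (h : a + c = 2 * k) (x x' b : ℕ → ℝ) {g : ℂ}
    (hl : Filter.Tendsto (fun t : ℝ => (f0 a (fun j => x j + t * j) : ℂ) *
      f0 c (fun j => -(x' j + t * ((a : ℝ) + j))) *
      G m (cat a (fun j => x j + t * j) (fun j => x' j + t * ((a : ℝ) + j)))
        (fun j => b j + t * ((2 * k : ℝ) + j))) (nhdsWithin (0 : ℝ) {0}ᶜ) (nhds g)) :
    (AF a c m x x' b : ℂ) = g := by
  have h1 := (AF_path a c m x x' b (fun j => (j : ℝ)) (fun j => (a : ℝ) + j)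
    (fun j => (2 * k : ℝ) + j)).mono_left (nhdsWithin_le_nhds (s := {0}ᶜ))
  have h2 : Filter.Tendsto (fun t : ℝ => (AF a c m (fun j => x j + t * j) (fun j => x' j + t * ((a : ℝ) + j))
      (fun j => b j + t * ((2 * k : ℝ) + j)) : ℂ)) (nhdsWithin (0 : ℝ) {0}ᶜ)
      (nhds (AF a c m x x' b : ℂ)) := (Complex.continuous_ofReal.tendsto _).comp h1
  refine tendsto_nhds_unique (h2.congr' ?_) hl
  filter_upwards [FG_dense (2 * k + m) (cat (2 * k) (cat a x x') b)] with t ht
  refine arm_form hk hG m a c h _ _ _ ?_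
  rw [cat_path (by omega)]
  exact ht

theorem ad_f0_one (x : ℕ → ℝ) : f0 1 x = 1 := by
  unfold f0
  rw [prod_range_one]
  rfl

/-- generic parameters first, then continuity -/
theorem AF_one (m : ℕ) (x x' b : ℕ → ℝ) :
    (AF 1 1 m x x' b : ℂ) = FF (m + 1) (cons (x 0) (cons (x' 0) (dbl b))) := by
  refine arm_form_limit (k := 1) one_pos G1_ArmFun m 1 1 rfl x x' b ?_
  have h : ∀ t : ℝ, (f0 1 (fun j => x j + t * j) : ℂ) * f0 1 (fun j => -(x' j + t * (((1 : ℕ) : ℝ) + j))) *
      G1 m (cat 1 (fun j => x j + t * j) (fun j => x' j + t * (((1 : ℕ) : ℝ) + j)))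
        (fun j => b j + t * ((2 * (1 : ℕ) : ℝ) + j)) =
      FF (m + 1) (fun j => cons (x 0) (cons (x' 0) (dbl b)) j +
        t * (if j = 0 then 0 else if j = 1 then 1 else 2 + ((j - 2) / 2 : ℕ))) := by
    intro t
    rw [ad_f0_one, ad_f0_one, Complex.ofReal_one, one_mul, one_mul]
    unfold G1
    refine FF_congr _ fun j _ => ?_
    rw [ad_cons2, ad_cons2]
    by_cases h0 : j = 0
    · rw [if_pos h0, if_pos h0, if_pos h0]
      unfold cat
      simp
    · by_cases h1 : j = 1
      · rw [if_neg h0, if_pos h1, if_neg h0, if_pos h1, if_neg h0, if_pos h1]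
        unfold cat
        simp
      · rw [if_neg h0, if_neg h1, if_neg h0, if_neg h1, if_neg h0, if_neg h1]
        push_cast
        ring
  simp only [h]
  have hc : Continuous (fun t : ℝ => FF (m + 1) (fun j => cons (x 0) (cons (x' 0) (dbl b)) j +
        t * (if j = 0 then 0 else if j = 1 then 1 else 2 + ((j - 2) / 2 : ℕ)))) :=
    (FF_continuous (m + 1)).comp (continuous_pi fun j => by fun_prop)
  have h2 := hc.tendsto 0
  simp only [zero_mul, add_zero] at h2
  exact h2.mono_left nhdsWithin_le_nhds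

/-- general `k`: the value in terms of the arm form at the homogeneous point -/
theorem arm_value (k m : ℕ) :
    bil (arf k k) (P (k + m) (fun _ => 0)) (P (k + m) (fun _ => 0)) =
      AF k k m (fun _ => 0) (fun _ => 0) (fun _ => 0) / Z (k + m) (fun _ => 0) ^ 2 := by
  have h0 : (fun _ => (0 : ℝ)) ∈ Cube := by
    intro j
    rw [abs_zero]
    positivity
  have hz := Z_ne (k + m) h0
  unfold AF
  have e1 : cat k (fun _ => (0 : ℝ)) (fun _ => 0) = fun _ => 0 := by
    funext j
    unfold cat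
    rw [ite_self]
  have e2 : (fun j => -(fun _ => (0 : ℝ)) j) = (fun _ : ℕ => (0 : ℝ)) := by
    funext j
    exact neg_zero
  rw [e1, e2, P_eq (k + m) h0, bil_smul_left, bil_smul_right]
  field_simp

theorem ad_exp {L : ℕ} (hL : 1 ≤ L) : L * (L - 1) / 2 = 2 * e4 L + L / 2 := by
  unfold e4
  rcases Nat.even_or_odd' L with ⟨n, rfl | rfl⟩
  · obtain ⟨k, rfl⟩ : ∃ k, n = k + 1 := ⟨n - 1, by omega⟩
    have h1 : 2 * (k + 1) - 1 = 2 * k + 1 := by omega
    rw [h1]
    have h2 : 2 * (k + 1) * (2 * k + 1) / 2 = (k + 1) * (2 * k + 1) := by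
      rw [mul_assoc]
      exact Nat.mul_div_cancel_left _ (by norm_num)
    have h3 : (2 * k + 1) ^ 2 / 4 = k * (k + 1) := by
      rw [show (2 * k + 1) ^ 2 = 1 + 4 * (k * (k + 1)) by ring, Nat.add_mul_div_left _ _ (by norm_num)]
      norm_num
    rw [h2, h3, show 2 * (k + 1) / 2 = k + 1 by omega]
    ring
  · have h1 : 2 * n + 1 - 1 = 2 * n := by omega
    rw [h1]
    have h2 : (2 * n + 1) * (2 * n) / 2 = (2 * n + 1) * n := by
      rw [show (2 * n + 1) * (2 * n) = 2 * ((2 * n + 1) * n) by ring]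
      exact Nat.mul_div_cancel_left _ (by norm_num)
    have h3 : (2 * n) ^ 2 / 4 = n ^ 2 := by
      rw [show (2 * n) ^ 2 = 4 * n ^ 2 by ring]
      exact Nat.mul_div_cancel_left _ (by norm_num)
    rw [h2, h3, show (2 * n + 1) / 2 = n by omega]
    ring

/-- `P_2(L) = A_L / A_HT(L)^2`: 1, 1/2, 7/9, 21/50, ... -/
theorem two_arm_value {L : ℕ} (hL : 1 ≤ L) :
    bil (arf 1 1) (P L (fun _ => 0)) (P L (fun _ => 0)) = RB L := by
  obtain ⟨m, rfl⟩ : ∃ m, L = 1 + m := ⟨L - 1, by omega⟩
  rw [arm_value]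
  have h1 : AF 1 1 m (fun _ => 0) (fun _ => 0) (fun _ => 0) =
      (4 : ℝ)⁻¹ ^ ((1 + m) * (1 + m - 1) / 2) * cG hh (2 * (1 + m)) := by
    have h := AF_one m (fun _ => 0) (fun _ => 0) (fun _ => 0)
    have e : cons 0 (cons 0 (dbl (fun _ => (0 : ℝ)))) = fun _ => 0 := by
      funext j
      rw [ad_cons2]
      simp
    rw [e, FF_zero, Complex.ofReal_inj] at h
    rw [h, show m + 1 = 1 + m by ring]
  rw [h1, Z_zero, ad_exp hL]
  unfold RB
  have hp1 := cG_pos hh_mono (1 + m)
  have hp2 := cG_pos hd_mono (1 + m)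
  have h3 : Real.sqrt 3 ^ 2 = 3 := Real.sq_sqrt (by norm_num)
  have h4 : (Real.sqrt 3 / 2) ^ ((1 + m) / 2) ≠ 0 := by positivity
  have h5 : ((Real.sqrt 3 / 2) ^ ((1 + m) / 2)) ^ 2 = (3 : ℝ) ^ ((1 + m) / 2) * (4 : ℝ)⁻¹ ^ ((1 + m) / 2) := by
    rw [← pow_mul, mul_comm ((1 + m) / 2) 2, pow_mul, div_pow, h3, ← mul_pow]
    norm_num
  have h6 : (4 : ℝ)⁻¹ ^ (2 * e4 (1 + m) + (1 + m) / 2) =
      ((4 : ℝ)⁻¹ ^ (e4 (1 + m))) ^ 2 * (4 : ℝ)⁻¹ ^ ((1 + m) / 2) := by
    rw [pow_add, ← pow_mul, mul_comm (e4 (1 + m)) 2]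
  rw [h6, mul_pow, mul_pow, h5]
  have h7 : (4 : ℝ)⁻¹ ^ e4 (1 + m) ≠ 0 := by positivity
  have h8 : (4 : ℝ)⁻¹ ^ ((1 + m) / 2) ≠ 0 := by positivity
  field_simp
end IPC
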