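import Pool.Agent.Helper64.IPC.SDefs
/-! MODULE ASYM: `RB L ~ L^(-1/4)`.
`RB L = cG hh (2L) / (3^(L/2) (cG hh L * cG hd L)^2)` = 1, 1/2, 7/9, 21/50, 429/625, 1859/4900, 54587/86436, ...
The quotient `RB (L+2) / RB L` is a rational function of `L` times
`(c(3n) c(n) / c(2n)^2)^2`, where `c(n)` is the normalised central binomial coefficient and
`n = (L+1)/2` for odd `L`, `n = L/2` for even `L`; the monotone bounds
`pi/4 (4n+1) <= W n (2n+1) <= pi/4 (4n+1+1/(8n))` for the Wallis product `W n = 1/(c(n)^2 (2n+1))`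
give rational bounds for the quotient. -/
namespace IPC
open IP Finset Real Filter Topology

/-- one step quotient of `cG` -/
noncomputable def asyA (h : ℕ → ℕ) (m : ℕ) : ℝ := ∏ i ∈ range m, ((h m : ℝ) - h i) / ((m : ℝ) - i)

theorem asy_cG_succ (h : ℕ → ℕ) (m : ℕ) : cG h (m + 1) = cG h m * asyA h m := by
  unfold cG asyA
  rw [prod_range_succ]

theorem asy_fact (m : ℕ) : ∏ i ∈ range m, ((m : ℝ) - i) = (m.factorial : ℝ) := by
  have h := Finset.prod_range_reflect (fun j : ℕ => ((j : ℝ) + 1)) m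
  rw [← Finset.prod_range_add_one_eq_factorial]
  push_cast
  rw [← h]
  refine prod_congr rfl fun i hi => ?_
  rw [mem_range] at hi
  rw [show m - 1 - i = m - (i + 1) by omega, Nat.cast_sub (by omega)]
  push_cast
  ring

/-- product of the values `g 1, ..., g m` -/
noncomputable def asyP (g : ℕ → ℕ) (m : ℕ) : ℝ := ∏ j ∈ range m, (g (j + 1) : ℝ)

theorem asy_A (h g : ℕ → ℕ) (m : ℕ) (hg : ∀ i < m, h m = h i + g (m - i)) :
    asyA h m = asyP g m / m.factorial := by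
  unfold asyA
  rw [prod_div_distrib, asy_fact]
  congr 1
  unfold asyP
  rw [← Finset.prod_range_reflect (fun j : ℕ => (g (j + 1) : ℝ))]
  refine prod_congr rfl fun i hi => ?_
  rw [mem_range] at hi
  rw [hg i hi, show m - 1 - i + 1 = m - i by omega]
  push_cast
  ring

theorem asy_hh_even (k : ℕ) : asyA hh (2 * k) = asyP hd (2 * k) / (2 * k).factorial := by
  apply asy_A
  intro i hi
  unfold hh hd
  omega
theorem asy_hh_odd (k : ℕ) : asyA hh (2 * k + 1) = asyP hh (2 * k + 1) / (2 * k + 1).factorial := by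
  apply asy_A
  intro i hi
  unfold hh
  omega
theorem asy_hd_even (k : ℕ) : asyA hd (2 * k) = asyP hh (2 * k) / (2 * k).factorial := by
  apply asy_A
  intro i hi
  unfold hh hd
  omega
theorem asy_hd_odd (k : ℕ) : asyA hd (2 * k + 1) = asyP hd (2 * k + 1) / (2 * k + 1).factorial := by
  apply asy_A
  intro i hi
  unfold hd
  omega

theorem asy_P_succ (g : ℕ → ℕ) (m : ℕ) : asyP g (m + 1) = asyP g m * g (m + 1) := by
  unfold asyP
  rw [prod_range_succ]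

theorem asy_hh1 (k : ℕ) : (hh (2 * k + 1) : ℝ) = 3 * k + 1 := by
  have : hh (2 * k + 1) = 3 * k + 1 := by unfold hh; omega
  rw [this]; push_cast; ring
theorem asy_hh2 (k : ℕ) : (hh (2 * k + 1 + 1) : ℝ) = 3 * k + 3 := by
  have : hh (2 * k + 1 + 1) = 3 * k + 3 := by unfold hh; omega
  rw [this]; push_cast; ring
theorem asy_hd1 (k : ℕ) : (hd (2 * k + 1) : ℝ) = 3 * k + 2 := by
  have : hd (2 * k + 1) = 3 * k + 2 := by unfold hd; omega
  rw [this]; push_cast; ring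
theorem asy_hd2 (k : ℕ) : (hd (2 * k + 1 + 1) : ℝ) = 3 * k + 3 := by
  have : hd (2 * k + 1 + 1) = 3 * k + 3 := by unfold hd; omega
  rw [this]; push_cast; ring

/-- `PH (2k) PD (2k)` -/
noncomputable def asyQ (k : ℕ) : ℝ := 3 ^ k * k.factorial * (3 * k).factorial

theorem asyQ_pos (k : ℕ) : 0 < asyQ k := by
  unfold asyQ
  positivity

theorem asyQ_succ (k : ℕ) : asyQ (k + 1) = asyQ k * ((3 * k + 1) * (3 * k + 2) * (3 * k + 3) * (3 * k + 3)) := by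
  unfold asyQ
  rw [show 3 * (k + 1) = 3 * k + 1 + 1 + 1 by ring, Nat.factorial_succ, Nat.factorial_succ,
    Nat.factorial_succ, Nat.factorial_succ]
  push_cast
  ring

theorem asy_Q (k : ℕ) : asyP hh (2 * k) * asyP hd (2 * k) = asyQ k := by
  induction k with
  | zero => simp [asyP, asyQ]
  | succ k ih =>
    rw [show 2 * (k + 1) = 2 * k + 1 + 1 by ring, asy_P_succ, asy_P_succ, asy_P_succ, asy_P_succ,
      asy_hh1, asy_hh2, asy_hd1, asy_hd2, asyQ_succ, ← ih]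
    ring

theorem asy_AA_even (k : ℕ) : asyA hh (2 * k) * asyA hh (2 * k + 1) =
    asyQ k * (3 * k + 1) / ((2 * k).factorial * (2 * k + 1).factorial) := by
  rw [asy_hh_even, asy_hh_odd, asy_P_succ, asy_hh1, ← asy_Q]
  field_simp
theorem asy_BB_even (k : ℕ) : asyA hd (2 * k) * asyA hd (2 * k + 1) =
    asyQ k * (3 * k + 2) / ((2 * k).factorial * (2 * k + 1).factorial) := by
  rw [asy_hd_even, asy_hd_odd, asy_P_succ, asy_hd1, ← asy_Q]
  field_simp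
theorem asy_AA_odd (k : ℕ) : asyA hh (2 * k + 1) * asyA hh (2 * k + 2) =
    asyQ k * ((3 * k + 1) * (3 * k + 2) * (3 * k + 3)) / ((2 * k + 1).factorial * (2 * k + 2).factorial) := by
  rw [asy_hh_odd, show 2 * k + 2 = 2 * (k + 1) by ring, asy_hh_even, show 2 * (k + 1) = 2 * k + 1 + 1 by ring,
    asy_P_succ, asy_P_succ, asy_P_succ, asy_hh1, asy_hd1, asy_hd2, ← asy_Q]
  field_simp
theorem asy_BB_odd (k : ℕ) : asyA hd (2 * k + 1) * asyA hd (2 * k + 2) =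
    asyQ k * ((3 * k + 1) * (3 * k + 2) * (3 * k + 3)) / ((2 * k + 1).factorial * (2 * k + 2).factorial) := by
  rw [asy_hd_odd, show 2 * k + 2 = 2 * (k + 1) by ring, asy_hd_even, show 2 * (k + 1) = 2 * k + 1 + 1 by ring,
    asy_P_succ, asy_P_succ, asy_P_succ, asy_hd1, asy_hh1, asy_hh2, ← asy_Q]
  field_simp

theorem asy_RB_step (L : ℕ) : RB (L + 2) = RB L *
    ((asyA hh (2 * L) * asyA hh (2 * L + 1)) * (asyA hh (2 * L + 2) * asyA hh (2 * L + 3)) /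
      (3 * ((asyA hh L * asyA hh (L + 1)) * (asyA hd L * asyA hd (L + 1))) ^ 2)) := by
  unfold RB
  rw [show 2 * (L + 2) = 2 * L + 1 + 1 + 1 + 1 by ring, show (L + 2) / 2 = L / 2 + 1 by omega,
    asy_cG_succ, asy_cG_succ, asy_cG_succ, asy_cG_succ, show L + 2 = L + 1 + 1 by ring, asy_cG_succ hh,
    asy_cG_succ hh L, asy_cG_succ hd, asy_cG_succ hd L, pow_succ, div_mul_div_comm]
  congr 1 <;> ring

/-- `W k (2k+1)`, the inverse square of the normalised central binomial coefficient -/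
noncomputable def asyW (k : ℕ) : ℝ := Wallis.W k * (2 * k + 1)

theorem asyW_eq (k : ℕ) : asyW k = 2 ^ (4 * k) * (k.factorial : ℝ) ^ 4 / ((2 * k).factorial : ℝ) ^ 2 := by
  unfold asyW
  rw [Wallis.W_eq_factorial_ratio]
  field_simp

theorem asyW_pos (k : ℕ) : 0 < asyW k := by
  rw [asyW_eq]
  positivity

noncomputable def asyX (n : ℕ) : ℝ := asyW (2 * n) ^ 2 / (asyW (3 * n) * asyW n)

theorem asyX_eq (n : ℕ) : asyX n = ((6 * n).factorial : ℝ) ^ 2 * ((2 * n).factorial : ℝ) ^ 10 /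
    (((4 * n).factorial : ℝ) ^ 4 * ((3 * n).factorial : ℝ) ^ 4 * (n.factorial : ℝ) ^ 4) := by
  unfold asyX
  rw [asyW_eq, asyW_eq, asyW_eq, show 2 * (2 * n) = 4 * n by ring, show 2 * (3 * n) = 6 * n by ring,
    show 4 * (2 * n) = 8 * n by ring, show 4 * (3 * n) = 12 * n by ring,
    show (2 : ℝ) ^ (8 * n) = (2 ^ n) ^ 8 by rw [← pow_mul, mul_comm],
    show (2 : ℝ) ^ (12 * n) = (2 ^ n) ^ 12 by rw [← pow_mul, mul_comm],
    show (2 : ℝ) ^ (4 * n) = (2 ^ n) ^ 4 by rw [← pow_mul, mul_comm]]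
  field_simp

theorem asy_even (k : ℕ) : RB (2 * k + 2) = RB (2 * k) *
    (3 * (6 * (k : ℝ) + 1) ^ 2 * (2 * k + 1) ^ 4 /
      ((4 * k + 1) ^ 3 * (4 * k + 3) * (3 * k + 1) * (3 * k + 2)) * asyX k) := by
  rw [asy_RB_step, asy_AA_even, asy_BB_even, show 2 * (2 * k) + 2 = 2 * (2 * k + 1) by ring,
    show 2 * (2 * k) + 3 = 2 * (2 * k + 1) + 1 by ring, asy_AA_even, asy_AA_even, asyX_eq]
  congr 1
  unfold asyQ
  rw [show 3 * (2 * k + 1) = 6 * k + 1 + 1 + 1 by ring, show 3 * (2 * k) = 6 * k by ring,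
    show 2 * (2 * k + 1) + 1 = 4 * k + 1 + 1 + 1 by ring, show 2 * (2 * k + 1) = 4 * k + 1 + 1 by ring,
    show 2 * (2 * k) + 1 = 4 * k + 1 by ring, show 2 * (2 * k) = 4 * k by ring]
  simp only [Nat.factorial_succ]
  rw [show (3 : ℝ) ^ (2 * k + 1) = (3 ^ k) ^ 2 * 3 by rw [pow_succ, ← pow_mul, mul_comm k],
    show (3 : ℝ) ^ (2 * k) = (3 ^ k) ^ 2 by rw [← pow_mul, mul_comm k]]
  push_cast
  field_simp
  ring

theorem asy_odd (k : ℕ) : RB (2 * k + 3) = RB (2 * k + 1) *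
    (3 * (6 * ((k : ℝ) + 1) + 1) * (4 * (k + 1) - 1) /
      (4 * (6 * (k + 1) - 1) * (4 * (k + 1) + 1)) * asyX (k + 1)) := by
  rw [show 2 * k + 3 = 2 * k + 1 + 2 by ring, asy_RB_step, show 2 * k + 1 + 1 = 2 * k + 2 by ring,
    asy_AA_odd, asy_BB_odd, asy_AA_even,
    show 2 * (2 * k + 1) + 2 = 2 * (2 * k + 2) by ring,
    show 2 * (2 * k + 1) + 3 = 2 * (2 * k + 2) + 1 by ring, asy_AA_even, asyX_eq]
  congr 1
  unfold asyQ
  rw [show 3 * (2 * k + 2) = 6 * k + 3 + 1 + 1 + 1 by ring, show 3 * (2 * k + 1) = 6 * k + 3 by ring,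
    show 6 * (k + 1) = 6 * k + 3 + 1 + 1 + 1 by ring,
    show 2 * (2 * k + 2) + 1 = 4 * k + 2 + 1 + 1 + 1 by ring, show 2 * (2 * k + 2) = 4 * k + 2 + 1 + 1 by ring,
    show 2 * (2 * k + 1) + 1 = 4 * k + 2 + 1 by ring, show 2 * (2 * k + 1) = 4 * k + 2 by ring,
    show 4 * (k + 1) = 4 * k + 2 + 1 + 1 by ring, show 3 * (k + 1) = 3 * k + 1 + 1 + 1 by ring,
    show 2 * (k + 1) = 2 * k + 1 + 1 by ring, show 2 * k + 2 = 2 * k + 1 + 1 by ring]
  have g : ∀ m : ℕ, ((m + 1).factorial : ℝ) = (m + 1) * m.factorial := by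
    intro m
    rw [Nat.factorial_succ]
    push_cast
    ring
  rw [g (6 * k + 3 + 1 + 1), g (6 * k + 3 + 1), g (6 * k + 3), g (4 * k + 2 + 1 + 1), g (4 * k + 2 + 1),
    g (4 * k + 2), g (3 * k + 1 + 1), g (3 * k + 1), g (3 * k), g (2 * k + 1), g k]
  rw [show (3 : ℝ) ^ (2 * k + 1 + 1) = (3 ^ k) ^ 2 * 9 by rw [pow_succ, pow_succ, ← pow_mul, mul_comm k]; ring,
    show (3 : ℝ) ^ (2 * k + 1) = (3 ^ k) ^ 2 * 3 by rw [pow_succ, ← pow_mul, mul_comm k]]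
  push_cast
  have h1 : (6 * ((k : ℝ) + 1) - 1) ≠ 0 := by
    have : (0 : ℝ) ≤ k := Nat.cast_nonneg k
    nlinarith
  field_simp
  ring

theorem asyW_succ (k : ℕ) : asyW (k + 1) = asyW k * ((2 * k + 2) ^ 2 / (2 * k + 1) ^ 2) := by
  unfold asyW
  rw [Wallis.W_succ]
  push_cast
  field_simp
  ring

theorem asyW_tendsto (f : ℕ → ℝ) (hf : Tendsto (fun k : ℕ => (2 * (k : ℝ) + 1) / f k) atTop (𝓝 (1 / 2))) :
    Tendsto (fun k => asyW k / f k) atTop (𝓝 (π / 4)) := by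
  have h := Wallis.tendsto_W_nhds_pi_div_two.mul hf
  rw [show π / 2 * (1 / 2) = π / 4 by ring] at h
  refine h.congr fun k => ?_
  unfold asyW
  ring

theorem asyW_lower (k : ℕ) : π / 4 * (4 * k + 1) ≤ asyW k := by
  have hanti : Antitone (fun k : ℕ => asyW k / (4 * (k : ℝ) + 1)) := by
    apply antitone_nat_of_succ_le
    intro k
    rw [asyW_succ]
    have h := asyW_pos k
    have hk : (0 : ℝ) ≤ k := Nat.cast_nonneg k
    have e : asyW k * ((2 * (k : ℝ) + 2) ^ 2 / (2 * k + 1) ^ 2) / (4 * ((k + 1 : ℕ) : ℝ) + 1) =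
        asyW k * ((2 * (k : ℝ) + 2) ^ 2 / ((2 * k + 1) ^ 2 * (4 * ((k + 1 : ℕ) : ℝ) + 1))) := by
      field_simp
    rw [e, div_eq_mul_one_div (asyW k)]
    refine mul_le_mul_of_nonneg_left ?_ h.le
    rw [div_le_div_iff₀ (by positivity) (by positivity)]
    push_cast
    nlinarith
  have hlim : Tendsto (fun k : ℕ => asyW k / (4 * (k : ℝ) + 1)) atTop (𝓝 (π / 4)) := by
    apply asyW_tendsto
    have h0 : Tendsto (fun n : ℕ => ((n : ℝ))⁻¹) atTop (𝓝 0) := tendsto_inv_atTop_nhds_zero_nat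
    have h : Tendsto (fun n : ℕ => (2 + ((n : ℝ))⁻¹) / (4 + ((n : ℝ))⁻¹)) atTop
        (𝓝 ((2 + 0) / (4 + 0))) := (h0.const_add 2).div (h0.const_add 4) (by norm_num)
    rw [show ((2 : ℝ) + 0) / (4 + 0) = 1 / 2 by norm_num] at h
    refine h.congr' ?_
    filter_upwards [eventually_ge_atTop 1] with n hn
    have hn' : (0 : ℝ) < n := by exact_mod_cast hn
    field_simp
  have h := hanti.le_of_tendsto hlim k
  rwa [le_div_iff₀ (by positivity)] at h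

theorem asyW_upper (k : ℕ) (hk : 1 ≤ k) : asyW k ≤ π / 4 * ((32 * (k : ℝ) ^ 2 + 8 * k + 1) / (8 * k)) := by
  obtain ⟨j, rfl⟩ : ∃ j, k = j + 1 := ⟨k - 1, by omega⟩
  let f : ℕ → ℝ := fun k => (32 * (k : ℝ) ^ 2 + 8 * k + 1) / (8 * k)
  have hmono : Monotone (fun j : ℕ => asyW (j + 1) / f (j + 1)) := by
    apply monotone_nat_of_le_succ
    intro j
    rw [asyW_succ (j + 1)]
    have h := asyW_pos (j + 1)
    have hj : (0 : ℝ) ≤ j := Nat.cast_nonneg j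
    simp only [f]
    push_cast
    have e : asyW (j + 1) * ((2 * ((j : ℝ) + 1) + 2) ^ 2 / (2 * (j + 1) + 1) ^ 2) /
        ((32 * ((j : ℝ) + 1 + 1) ^ 2 + 8 * (j + 1 + 1) + 1) / (8 * (j + 1 + 1))) =
        asyW (j + 1) * (((2 * ((j : ℝ) + 1) + 2) ^ 2 * (8 * (j + 1 + 1))) / ((2 * (j + 1) + 1) ^ 2 *
        (32 * ((j : ℝ) + 1 + 1) ^ 2 + 8 * (j + 1 + 1) + 1))) := by
      field_simp
    rw [e, div_div_eq_mul_div, mul_div_assoc]
    refine mul_le_mul_of_nonneg_left ?_ h.le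
    rw [div_le_div_iff₀ (by positivity) (by positivity), ← sub_nonneg]
    ring_nf
    positivity
  have hlim : Tendsto (fun j : ℕ => asyW (j + 1) / f (j + 1)) atTop (𝓝 (π / 4)) := by
    refine (asyW_tendsto f ?_).comp (tendsto_add_atTop_nat 1)
    have h0 : Tendsto (fun n : ℕ => ((n : ℝ))⁻¹) atTop (𝓝 0) := tendsto_inv_atTop_nhds_zero_nat
    have h : Tendsto (fun n : ℕ => 8 * (2 + ((n : ℝ))⁻¹) / (32 + 8 * ((n : ℝ))⁻¹ + ((n : ℝ))⁻¹ * ((n : ℝ))⁻¹)) atTop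
        (𝓝 (8 * (2 + 0) / (32 + 8 * 0 + 0 * 0))) :=
      ((h0.const_add 2).const_mul 8).div (((h0.const_mul 8).const_add 32).add (h0.mul h0)) (by norm_num)
    rw [show (8 * ((2 : ℝ) + 0) / (32 + 8 * 0 + 0 * 0)) = 1 / 2 by norm_num] at h
    refine h.congr' ?_
    filter_upwards [eventually_ge_atTop 1] with n hn
    have hn' : (0 : ℝ) < n := by exact_mod_cast hn
    simp only [f]
    field_simp
  have h := hmono.ge_of_tendsto hlim j
  rwa [div_le_iff₀ (by simp only [f]; positivity)] at h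

theorem asyX_le (n : ℕ) (hn : 1 ≤ n) : asyX n ≤
    ((128 * (n : ℝ) ^ 2 + 16 * n + 1) / (16 * n)) ^ 2 / ((12 * n + 1) * (4 * n + 1)) := by
  have hn' : (0 : ℝ) < n := by exact_mod_cast hn
  have h1 := asyW_upper (2 * n) (by omega)
  have h2 := asyW_lower (3 * n)
  have h3 := asyW_lower n
  have p1 := asyW_pos (2 * n)
  have hp := pi_pos
  push_cast at h1 h2
  unfold asyX
  calc asyW (2 * n) ^ 2 / (asyW (3 * n) * asyW n)
      ≤ (π / 4 * ((32 * (2 * (n : ℝ)) ^ 2 + 8 * (2 * n) + 1) / (8 * (2 * n)))) ^ 2 /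
        ((π / 4 * (4 * (3 * n) + 1)) * (π / 4 * (4 * n + 1))) := by
        apply div_le_div₀ (by positivity) (pow_le_pow_left₀ p1.le h1 2) (by positivity)
        exact mul_le_mul h2 h3 (by positivity) (asyW_pos _).le
    _ = _ := by
        field_simp
        ring

theorem asyX_ge (n : ℕ) (hn : 1 ≤ n) : (8 * (n : ℝ) + 1) ^ 2 * (192 * n ^ 2) /
    ((288 * (n : ℝ) ^ 2 + 24 * n + 1) * (32 * (n : ℝ) ^ 2 + 8 * n + 1)) ≤ asyX n := by
  have hn' : (0 : ℝ) < n := by exact_mod_cast hn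
  have h1 := asyW_lower (2 * n)
  have h2 := asyW_upper (3 * n) (by omega)
  have h3 := asyW_upper n hn
  have p2 := asyW_pos (3 * n)
  have p3 := asyW_pos n
  have hp := pi_pos
  push_cast at h1 h2
  unfold asyX
  calc (8 * (n : ℝ) + 1) ^ 2 * (192 * n ^ 2) /
    ((288 * (n : ℝ) ^ 2 + 24 * n + 1) * (32 * (n : ℝ) ^ 2 + 8 * n + 1))
      = (π / 4 * (4 * (2 * n) + 1)) ^ 2 / ((π / 4 * ((32 * (3 * (n : ℝ)) ^ 2 + 8 * (3 * n) + 1) / (8 * (3 * n)))) *
        (π / 4 * ((32 * (n : ℝ) ^ 2 + 8 * n + 1) / (8 * n)))) := by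
        field_simp
        ring
    _ ≤ asyW (2 * n) ^ 2 / (asyW (3 * n) * asyW n) := by
        apply div_le_div₀ (by positivity) (pow_le_pow_left₀ (by positivity) h1 2) (by positivity)
        exact mul_le_mul h2 h3 p3.le (by positivity)

theorem asy_odd_le (n : ℕ) (hn : 1 ≤ n) : 3 * (6 * (n : ℝ) + 1) * (4 * n - 1) /
      (4 * (6 * n - 1) * (4 * n + 1)) * asyX n ≤ (8 * (n : ℝ) ^ 2 - 2 * n + 1) / (8 * n ^ 2) := by
  have h := asyX_le n hn
  obtain ⟨t, ht, e⟩ : ∃ t : ℝ, 0 ≤ t ∧ (n : ℝ) = t + 1 :=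
    ⟨n - 1, by simpa using (by exact_mod_cast hn : (1 : ℝ) ≤ n), by ring⟩
  rw [e] at h ⊢
  have q : 0 < 3 * (6 * (t + 1) + 1) * (4 * (t + 1) - 1) / (4 * (6 * (t + 1) - 1) * (4 * (t + 1) + 1)) := by
    have : 0 < 4 * (t + 1) - 1 := by linarith
    have : 0 < 6 * (t + 1) - 1 := by linarith
    positivity
  refine (mul_le_mul_of_nonneg_left h q.le).trans ?_
  have e1 : 4 * (t + 1) - 1 = 4 * t + 3 := by ring
  have e2 : 6 * (t + 1) - 1 = 6 * t + 5 := by ring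
  rw [e1, e2, div_pow, div_div, div_mul_div_comm, div_le_div_iff₀ (by positivity) (by positivity), ← sub_nonneg]
  ring_nf
  positivity

theorem asy_odd_ge (n : ℕ) (hn : 1 ≤ n) : (4 * (n : ℝ) - 1) / (4 * n) ≤ 3 * (6 * (n : ℝ) + 1) * (4 * n - 1) /
      (4 * (6 * n - 1) * (4 * n + 1)) * asyX n := by
  have h := asyX_ge n hn
  obtain ⟨t, ht, e⟩ : ∃ t : ℝ, 0 ≤ t ∧ (n : ℝ) = t + 1 :=
    ⟨n - 1, by simpa using (by exact_mod_cast hn : (1 : ℝ) ≤ n), by ring⟩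
  rw [e] at h ⊢
  have q : 0 < 3 * (6 * (t + 1) + 1) * (4 * (t + 1) - 1) / (4 * (6 * (t + 1) - 1) * (4 * (t + 1) + 1)) := by
    have : 0 < 4 * (t + 1) - 1 := by linarith
    have : 0 < 6 * (t + 1) - 1 := by linarith
    positivity
  refine le_trans ?_ (mul_le_mul_of_nonneg_left h q.le)
  have e1 : 4 * (t + 1) - 1 = 4 * t + 3 := by ring
  have e2 : 6 * (t + 1) - 1 = 6 * t + 5 := by ring
  rw [e1, e2, div_mul_div_comm, div_le_div_iff₀ (by positivity) (by positivity), ← sub_nonneg]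
  ring_nf
  positivity

theorem asy_even_le (n : ℕ) (hn : 1 ≤ n) : 3 * (6 * (n : ℝ) + 1) ^ 2 * (2 * n + 1) ^ 4 /
      ((4 * n + 1) ^ 3 * (4 * n + 3) * (3 * n + 1) * (3 * n + 2)) * asyX n ≤
      (8 * (2 * (n : ℝ) + 1) ^ 2 - 4 * (2 * n + 1) + 3) / (8 * (2 * n + 1) ^ 2) := by
  have h := asyX_le n hn
  obtain ⟨t, ht, e⟩ : ∃ t : ℝ, 0 ≤ t ∧ (n : ℝ) = t + 1 :=
    ⟨n - 1, by simpa using (by exact_mod_cast hn : (1 : ℝ) ≤ n), by ring⟩
  rw [e] at h ⊢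
  refine (mul_le_mul_of_nonneg_left h (by positivity)).trans ?_
  rw [div_pow, div_div, div_mul_div_comm, div_le_div_iff₀ (by positivity) (by positivity), ← sub_nonneg]
  ring_nf
  positivity

theorem asy_even_ge (n : ℕ) (hn : 1 ≤ n) : (4 * (2 * (n : ℝ) + 1) ^ 2 - 2 * (2 * n + 1) - 1) / (4 * (2 * n + 1) ^ 2) ≤
      3 * (6 * (n : ℝ) + 1) ^ 2 * (2 * n + 1) ^ 4 /
      ((4 * n + 1) ^ 3 * (4 * n + 3) * (3 * n + 1) * (3 * n + 2)) * asyX n := by
  have h := asyX_ge n hn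
  obtain ⟨t, ht, e⟩ : ∃ t : ℝ, 0 ≤ t ∧ (n : ℝ) = t + 1 :=
    ⟨n - 1, by simpa using (by exact_mod_cast hn : (1 : ℝ) ≤ n), by ring⟩
  rw [e] at h ⊢
  refine le_trans ?_ (mul_le_mul_of_nonneg_left h (by positivity))
  rw [div_mul_div_comm, div_le_div_iff₀ (by positivity) (by positivity), ← sub_nonneg]
  ring_nf
  positivity

theorem asy_cG_pos (h : ℕ → ℕ) (hh : ∀ i j, i < j → h i < h j) (m : ℕ) : 0 < cG h m := by
  unfold cG
  refine prod_pos fun j _ => prod_pos fun i hi => ?_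
  rw [mem_range] at hi
  have h1 : (h i : ℝ) < h j := by exact_mod_cast hh i j hi
  have h2 : (i : ℝ) < j := by exact_mod_cast hi
  exact div_pos (by linarith) (by linarith)

theorem RB_pos (L : ℕ) : 0 < RB L := by
  have h1 : ∀ m, 0 < cG hh m := asy_cG_pos hh (by intro i j h; unfold hh; omega)
  have h2 : ∀ m, 0 < cG hd m := asy_cG_pos hd (by intro i j h; unfold hd; omega)
  unfold RB
  have := h1 (2 * L)
  have := h1 L
  have := h2 L
  positivity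

theorem asy_RB_one : RB 1 = 1 := by
  simp [RB, cG, prod_range_succ, hh, hd]
theorem asy_RB_two : RB 2 = 1 / 2 := by
  simp [RB, cG, prod_range_succ, hh, hd]
  norm_num

theorem asy_odd4 (k : ℕ) : (2 * (k : ℝ) + 3) * RB (2 * k + 1) ^ 4 ≤ 3 ∧ 1 ≤ (4 * (k : ℝ) + 1) * RB (2 * k + 1) ^ 4 := by
  induction k with
  | zero => norm_num [asy_RB_one]
  | succ k ih =>
    obtain ⟨i1, i2⟩ := ih
    rw [show 2 * (k + 1) + 1 = 2 * k + 3 by ring, asy_odd, mul_pow]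
    have h1 := asy_odd_le (k + 1) (by omega)
    have h2 := asy_odd_ge (k + 1) (by omega)
    push_cast at h1 h2 ⊢
    set r := 3 * (6 * ((k : ℝ) + 1) + 1) * (4 * (k + 1) - 1) /
      (4 * (6 * (k + 1) - 1) * (4 * (k + 1) + 1)) * asyX (k + 1) with hr
    have hk : (0 : ℝ) ≤ k := Nat.cast_nonneg k
    have hR := pow_pos (RB_pos (2 * k + 1)) 4
    have l0 : 0 < (4 * ((k : ℝ) + 1) - 1) / (4 * (k + 1)) := by
      rw [show 4 * ((k : ℝ) + 1) - 1 = 4 * k + 3 by ring]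
      positivity
    have h3 := pow_le_pow_left₀ (l0.le.trans h2) h1 4
    have h4 := pow_le_pow_left₀ l0.le h2 4
    have h5 : ((8 * ((k : ℝ) + 1) ^ 2 - 2 * (k + 1) + 1) / (8 * (k + 1) ^ 2)) ^ 4 ≤ (2 * k + 3) / (2 * k + 5) := by
      rw [div_pow, div_le_div_iff₀ (by positivity) (by positivity), ← sub_nonneg]
      ring_nf
      positivity
    have h6 : (4 * (k : ℝ) + 1) / (4 * k + 5) ≤ ((4 * ((k : ℝ) + 1) - 1) / (4 * (k + 1))) ^ 4 := by
      rw [div_pow, div_le_div_iff₀ (by positivity) (by positivity), ← sub_nonneg]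
      ring_nf
      positivity
    have h7 := h3.trans h5
    have h8 := h6.trans h4
    rw [le_div_iff₀ (by positivity)] at h7
    rw [div_le_iff₀ (by positivity)] at h8
    constructor
    · calc (2 * ((k : ℝ) + 1) + 3) * (RB (2 * k + 1) ^ 4 * r ^ 4) = RB (2 * k + 1) ^ 4 * (r ^ 4 * (2 * k + 5)) := by ring
        _ ≤ RB (2 * k + 1) ^ 4 * (2 * k + 3) := mul_le_mul_of_nonneg_left h7 hR.le
        _ ≤ 3 := by linarith
    · calc (1 : ℝ) ≤ RB (2 * k + 1) ^ 4 * (4 * k + 1) := by linarith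
        _ ≤ RB (2 * k + 1) ^ 4 * (r ^ 4 * (4 * k + 5)) := mul_le_mul_of_nonneg_left h8 hR.le
        _ = (4 * ((k : ℝ) + 1) + 1) * (RB (2 * k + 1) ^ 4 * r ^ 4) := by ring

theorem asy_even4 (k : ℕ) : (2 * (k : ℝ) + 3) * RB (2 * k + 2) ^ 4 ≤ 3 / 16 ∧
    1 / 16 ≤ (2 * (k : ℝ) + 1) * RB (2 * k + 2) ^ 4 := by
  induction k with
  | zero => norm_num [asy_RB_two]
  | succ k ih =>
    obtain ⟨i1, i2⟩ := ih
    have h0 := asy_even (k + 1)
    rw [show 2 * (k + 1) = 2 * k + 2 by ring] at h0 ⊢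
    rw [h0, mul_pow]
    have h1 := asy_even_le (k + 1) (by omega)
    have h2 := asy_even_ge (k + 1) (by omega)
    set r := 3 * (6 * ((k + 1 : ℕ) : ℝ) + 1) ^ 2 * (2 * ((k + 1 : ℕ) : ℝ) + 1) ^ 4 /
      ((4 * ((k + 1 : ℕ) : ℝ) + 1) ^ 3 * (4 * ((k + 1 : ℕ) : ℝ) + 3) * (3 * ((k + 1 : ℕ) : ℝ) + 1) *
        (3 * ((k + 1 : ℕ) : ℝ) + 2)) * asyX (k + 1) with hr
    push_cast at h1 h2 ⊢
    have hk : (0 : ℝ) ≤ k := Nat.cast_nonneg k
    have hR := pow_pos (RB_pos (2 * k + 2)) 4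
    have l0 : 0 < (4 * (2 * ((k : ℝ) + 1) + 1) ^ 2 - 2 * (2 * (k + 1) + 1) - 1) / (4 * (2 * (k + 1) + 1) ^ 2) := by
      refine div_pos ?_ (by positivity)
      nlinarith
    have h3 := pow_le_pow_left₀ (l0.le.trans h2) h1 4
    have h4 := pow_le_pow_left₀ l0.le h2 4
    have h5 : ((8 * (2 * ((k : ℝ) + 1) + 1) ^ 2 - 4 * (2 * (k + 1) + 1) + 3) / (8 * (2 * (k + 1) + 1) ^ 2)) ^ 4 ≤
        (2 * k + 3) / (2 * k + 5) := by
      rw [div_pow, div_le_div_iff₀ (by positivity) (by positivity), ← sub_nonneg]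
      ring_nf
      positivity
    have h6 : (2 * (k : ℝ) + 1) / (2 * k + 3) ≤
        ((4 * (2 * ((k : ℝ) + 1) + 1) ^ 2 - 2 * (2 * (k + 1) + 1) - 1) / (4 * (2 * (k + 1) + 1) ^ 2)) ^ 4 := by
      rw [div_pow, div_le_div_iff₀ (by positivity) (by positivity), ← sub_nonneg]
      ring_nf
      positivity
    have h7 := h3.trans h5
    have h8 := h6.trans h4
    rw [le_div_iff₀ (by positivity)] at h7
    rw [div_le_iff₀ (by positivity)] at h8
    constructor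
    · calc (2 * ((k : ℝ) + 1) + 3) * (RB (2 * k + 2) ^ 4 * r ^ 4) = RB (2 * k + 2) ^ 4 * (r ^ 4 * (2 * k + 5)) := by ring
        _ ≤ RB (2 * k + 2) ^ 4 * (2 * k + 3) := mul_le_mul_of_nonneg_left h7 hR.le
        _ ≤ 3 / 16 := by linarith
    · calc (1 / 16 : ℝ) ≤ RB (2 * k + 2) ^ 4 * (2 * k + 1) := by linarith
        _ ≤ RB (2 * k + 2) ^ 4 * (r ^ 4 * (2 * k + 3)) := mul_le_mul_of_nonneg_left h8 hR.le
        _ = (2 * ((k : ℝ) + 1) + 1) * (RB (2 * k + 2) ^ 4 * r ^ 4) := by ring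

theorem asy_four (L : ℕ) (hL : 1 ≤ L) : 1 / 16 ≤ (L : ℝ) * RB L ^ 4 ∧ (L : ℝ) * RB L ^ 4 ≤ 16 := by
  have hR := pow_pos (RB_pos L) 4
  rcases Nat.even_or_odd' L with ⟨k, rfl | rfl⟩
  · obtain ⟨j, rfl⟩ : ∃ j, k = j + 1 := ⟨k - 1, by omega⟩
    rw [show 2 * (j + 1) = 2 * j + 2 by ring] at hR ⊢
    obtain ⟨h1, h2⟩ := asy_even4 j
    push_cast
    constructor <;> nlinarith
  · obtain ⟨h1, h2⟩ := asy_odd4 k
    push_cast
    have hk : (0 : ℝ) ≤ k := Nat.cast_nonneg k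
    constructor <;> nlinarith

theorem RB_bounds : ∃ c C : ℝ, 0 < c ∧ 0 < C ∧ ∀ L : ℕ, 1 ≤ L →
    c * (L : ℝ) ^ (-(1 / 4) : ℝ) ≤ RB L ∧ RB L ≤ C * (L : ℝ) ^ (-(1 / 4) : ℝ) := by
  refine ⟨1 / 2, 2, by norm_num, by norm_num, fun L hL => ?_⟩
  obtain ⟨h1, h2⟩ := asy_four L hL
  have hL' : (0 : ℝ) < L := by exact_mod_cast hL
  have hp : (0 : ℝ) < (L : ℝ) ^ (-(1 / 4) : ℝ) := rpow_pos_of_pos hL' _
  have e : ((L : ℝ) ^ (-(1 / 4) : ℝ)) ^ 4 = (L : ℝ)⁻¹ := by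
    rw [← rpow_natCast, ← rpow_mul hL'.le, ← rpow_neg_one]
    norm_num
  have hR := RB_pos L
  constructor
  · rw [← pow_le_pow_iff_left₀ (by positivity) hR.le (four_ne_zero), mul_pow, e]
    rw [← div_eq_mul_inv, div_le_iff₀ hL']
    linarith
  · rw [← pow_le_pow_iff_left₀ hR.le (by positivity) (four_ne_zero), mul_pow, e]
    rw [← div_eq_mul_inv, le_div_iff₀ hL']
    linarith
end IPC
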