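import Pool.Agent.Helper64.IPC.Defs
/-! MODULE BA: identities between the maps `pr`, `rel`, `ins` on partitions (elementary case analysis). -/
namespace IPC
open IP Finset

theorem pr_iff (j k : ℕ) (σ : St) (x y : ℕ) : (pr j k σ) x y ↔
    (x = y ∨ ((x = j ∨ x = k) ∧ (y = j ∨ y = k)) ∨
    ((x ≠ j ∧ x ≠ k) ∧ (y ≠ j ∧ y ≠ k) ∧ (σ x y ∨ (σ x j ∧ σ k y) ∨ (σ x k ∧ σ j y)))) := Iff.rfl
theorem rel_iff (e : Equiv.Perm ℕ) (σ : St) (x y : ℕ) : (rel e σ) (e x) (e y) ↔ σ x y := by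
  unfold rel
  rw [Setoid.comap_rel, Equiv.symm_apply_apply, Equiv.symm_apply_apply]
theorem rel_iff' (e : Equiv.Perm ℕ) (σ : St) (x y : ℕ) : (rel e σ) x y ↔ σ (e.symm x) (e.symm y) := Iff.rfl

theorem rel_rel (e f : Equiv.Perm ℕ) (σ : St) : rel e (rel f σ) = rel (e * f) σ := by
  apply Setoid.ext; intro x y
  simp only [rel_iff']
  rfl
theorem rel_one (σ : St) : rel 1 σ = σ := by
  apply Setoid.ext; intro x y
  simp only [rel_iff']
  rfl
theorem rel_inj (e : Equiv.Perm ℕ) {σ τ : St} (h : rel e σ = rel e τ) : σ = τ := by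
  have := congrArg (rel e⁻¹) h
  rwa [rel_rel, rel_rel, inv_mul_cancel, rel_one, rel_one] at this
theorem pr_comm (j k : ℕ) (σ : St) : pr j k σ = pr k j σ := by
  apply Setoid.ext; intro x y
  rw [pr_iff, pr_iff, or_comm (a := x = j), or_comm (a := y = j), and_comm (a := x ≠ j),
    and_comm (a := y ≠ j), or_comm (a := σ x j ∧ σ k y)]
theorem pr_pr (j k : ℕ) (σ : St) : pr j k (pr j k σ) = pr j k σ := by
  apply Setoid.ext; intro x y
  have hs : ∀ a b, σ a b → σ b a := fun a b h => σ.symm h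
  have ht : ∀ a b c, σ a b → σ b c → σ a c := fun a b c h h' => σ.trans h h'
  have hr : ∀ a, σ a a := fun a => σ.refl a
  simp only [pr_iff]
  grind
theorem pr_swap (j k : ℕ) (σ : St) : pr j k (rel (Equiv.swap j k) σ) = pr j k σ := by
  apply Setoid.ext; intro x y
  have hs : ∀ a b, σ a b → σ b a := fun a b h => σ.symm h
  have ht : ∀ a b c, σ a b → σ b c → σ a c := fun a b c h h' => σ.trans h h'
  have hr : ∀ a, σ a a := fun a => σ.refl a
  simp only [pr_iff, rel_iff', Equiv.symm_swap, Equiv.swap_apply_def]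
  grind
theorem swap_pr (j k : ℕ) (σ : St) : rel (Equiv.swap j k) (pr j k σ) = pr j k σ := by
  apply Setoid.ext; intro x y
  have hs : ∀ a b, σ a b → σ b a := fun a b h => σ.symm h
  have ht : ∀ a b c, σ a b → σ b c → σ a c := fun a b c h h' => σ.trans h h'
  have hr : ∀ a, σ a a := fun a => σ.refl a
  simp only [pr_iff, rel_iff', Equiv.symm_swap, Equiv.swap_apply_def]
  grind
theorem rel_pr (e : Equiv.Perm ℕ) (j k : ℕ) (σ : St) : rel e (pr j k σ) = pr (e j) (e k) (rel e σ) := by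
  apply Setoid.ext; intro x y
  obtain ⟨x, rfl⟩ := e.surjective x
  obtain ⟨y, rfl⟩ := e.surjective y
  simp only [pr_iff, rel_iff, e.injective.eq_iff, e.injective.ne_iff]
/-- the key relation -/
theorem pr_adj {j k l : ℕ} (hjk : j ≠ k) (hkl : k ≠ l) (hjl : j ≠ l) (σ : St) :
    pr j k (pr k l σ) = rel (Equiv.swap j l) (pr k l σ) := by
  apply Setoid.ext; intro x y
  have hs : ∀ a b, σ a b → σ b a := fun a b h => σ.symm h
  have ht : ∀ a b c, σ a b → σ b c → σ a c := fun a b c h h' => σ.trans h h'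
  have hr : ∀ a, σ a a := fun a => σ.refl a
  simp only [pr_iff, rel_iff', Equiv.symm_swap, Equiv.swap_apply_def]
  grind
theorem ba_pr_disj_aux {j k l m : ℕ} (h1 : j ≠ l) (h2 : j ≠ m) (h3 : k ≠ l) (h4 : k ≠ m) (σ : St)
    (x y : ℕ) (h : (pr j k (pr l m σ)) x y) : (pr l m (pr j k σ)) x y := by
  have hs : ∀ a b, σ a b → σ b a := fun a b h => σ.symm h
  have ht : ∀ a b c, σ a b → σ b c → σ a c := fun a b c h h' => σ.trans h h'
  rw [pr_iff] at h
  rcases h with h | h | ⟨hx, hy, h⟩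
  · exact Or.inl h
  · refine Or.inr (Or.inr ⟨by omega, by omega, Or.inl (Or.inr (Or.inl h))⟩)
  · have hj : ∀ z, (pr l m σ) z j ↔ z = j ∨ ((z ≠ l ∧ z ≠ m) ∧
        (σ z j ∨ (σ z l ∧ σ m j) ∨ (σ z m ∧ σ l j))) := by
      intro z; rw [pr_iff]; constructor
      · rintro (h | h | h)
        · exact Or.inl h
        · omega
        · exact Or.inr ⟨h.1, h.2.2⟩
      · rintro (h | h)
        · exact Or.inl h
        · exact Or.inr (Or.inr ⟨h.1, ⟨h1, h2⟩, h.2⟩)
    have hk : ∀ z, (pr l m σ) z k ↔ z = k ∨ ((z ≠ l ∧ z ≠ m) ∧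
        (σ z k ∨ (σ z l ∧ σ m k) ∨ (σ z m ∧ σ l k))) := by
      intro z; rw [pr_iff]; constructor
      · rintro (h | h | h)
        · exact Or.inl h
        · omega
        · exact Or.inr ⟨h.1, h.2.2⟩
      · rintro (h | h)
        · exact Or.inl h
        · exact Or.inr (Or.inr ⟨h.1, ⟨h3, h4⟩, h.2⟩)
    have hj' : ∀ z, (pr l m σ) j z ↔ z = j ∨ ((z ≠ l ∧ z ≠ m) ∧
        (σ j z ∨ (σ j l ∧ σ m z) ∨ (σ j m ∧ σ l z))) := by
      intro z; rw [pr_iff]; constructor
      · rintro (h | h | h)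
        · exact Or.inl h.symm
        · omega
        · exact Or.inr ⟨h.2.1, h.2.2⟩
      · rintro (h | h)
        · exact Or.inl h.symm
        · exact Or.inr (Or.inr ⟨⟨h1, h2⟩, h.1, h.2⟩)
    have hk' : ∀ z, (pr l m σ) k z ↔ z = k ∨ ((z ≠ l ∧ z ≠ m) ∧
        (σ k z ∨ (σ k l ∧ σ m z) ∨ (σ k m ∧ σ l z))) := by
      intro z; rw [pr_iff]; constructor
      · rintro (h | h | h)
        · exact Or.inl h.symm
        · omega
        · exact Or.inr ⟨h.2.1, h.2.2⟩
      · rintro (h | h)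
        · exact Or.inl h.symm
        · exact Or.inr (Or.inr ⟨⟨h3, h4⟩, h.1, h.2⟩)
    rw [hj, hk, hj', hk', pr_iff] at h
    simp only [pr_iff]
    grind
theorem pr_disj {j k l m : ℕ} (h1 : j ≠ l) (h2 : j ≠ m) (h3 : k ≠ l) (h4 : k ≠ m) (σ : St) :
    pr j k (pr l m σ) = pr l m (pr j k σ) := by
  apply Setoid.ext; intro x y
  exact ⟨ba_pr_disj_aux h1 h2 h3 h4 σ x y,
    ba_pr_disj_aux h1.symm h3.symm h2.symm h4.symm σ x y⟩
/-- relabellings that agree up to the exchange of the two elements of a block -/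
theorem rel_swap_block {j k : ℕ} {σ : St} (h : ∀ z, σ j z ↔ (z = j ∨ z = k)) :
    rel (Equiv.swap j k) σ = σ := by
  apply Setoid.ext; intro x y
  have hs : ∀ a b, σ a b → σ b a := fun a b h => σ.symm h
  have ht : ∀ a b c, σ a b → σ b c → σ a c := fun a b c h h' => σ.trans h h'
  have hr : ∀ a, σ a a := fun a => σ.refl a
  simp only [rel_iff', Equiv.symm_swap, Equiv.swap_apply_def]
  grind

theorem sk_inj (i : ℕ) {x y : ℕ} (h : sk i x = sk i y) : x = y := by
  unfold sk at h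
  split_ifs at h <;> omega

theorem ba_ins_iff (i : ℕ) (σ : St) (x y : ℕ) : (ins i σ) x y ↔
    (x = y ∨ (x + y = 4 * i + 10 ∧ 2 * i + 4 ≤ x ∧ 2 * i + 4 ≤ y ∧ x ≠ 2 * i + 5 ∧ y ≠ 2 * i + 5) ∨
    (x + y = 4 * i + 12 ∧ 2 * i + 5 ≤ x ∧ 2 * i + 5 ≤ y ∧ x ≠ 2 * i + 6 ∧ y ≠ 2 * i + 6) ∨
    ((x < 2 * i + 4 ∨ 2 * i + 8 ≤ x) ∧ (y < 2 * i + 4 ∨ 2 * i + 8 ≤ y) ∧ σ (un i x) (un i y))) := Iff.rfl

theorem ba_un_sk (i x : ℕ) : un i (sk i x) = x := by
  unfold un sk
  split_ifs <;> omega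
theorem ba_sk_or (i x : ℕ) : sk i x < 2 * i + 4 ∨ 2 * i + 8 ≤ sk i x := by
  unfold sk
  split_ifs <;> omega
/-- every node is an old node or one of the four new ones -/
theorem ba_cases (i x : ℕ) : (∃ z, x = sk i z) ∨ x = 2 * i + 4 ∨ x = 2 * i + 5 ∨ x = 2 * i + 6 ∨ x = 2 * i + 7 := by
  rcases lt_or_ge x (2 * i + 4) with h | h
  · left
    refine ⟨x, ?_⟩
    unfold sk
    rw [if_pos h]
  · rcases lt_or_ge x (2 * i + 8) with h' | h'
    · right; omega
    · left
      refine ⟨x - 4, ?_⟩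
      unfold sk
      rw [if_neg (by omega)]
      omega
/-- `ins` by its values: the new blocks and the old ones -/
theorem ins_sk (i : ℕ) (σ : St) (x y : ℕ) : (ins i σ) (sk i x) (sk i y) ↔ σ x y := by
  have h1 := ba_sk_or i x
  have h2 := ba_sk_or i y
  rw [ba_ins_iff, ba_un_sk, ba_un_sk]
  constructor
  · rintro (h | h | h | ⟨_, _, h⟩)
    · rw [sk_inj i h]
    · exfalso; omega
    · exfalso; omega
    · exact h
  · intro h
    exact Or.inr (Or.inr (Or.inr ⟨h1, h2, h⟩))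
theorem ins_block0 (i : ℕ) (σ : St) (z : ℕ) : (ins i σ) (2 * i + 4) z ↔ (z = 2 * i + 4 ∨ z = 2 * i + 6) := by
  rw [ba_ins_iff]
  constructor
  · rintro (h | h | h | ⟨h, _, _⟩) <;> omega
  · rintro (rfl | rfl)
    · exact Or.inl rfl
    · right; left; omega
theorem ins_block1 (i : ℕ) (σ : St) (z : ℕ) : (ins i σ) (2 * i + 5) z ↔ (z = 2 * i + 5 ∨ z = 2 * i + 7) := by
  rw [ba_ins_iff]
  constructor
  · rintro (h | h | h | ⟨h, _, _⟩) <;> omega
  · rintro (rfl | rfl)
    · exact Or.inl rfl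
    · right; right; left; omega

/-- a state which has the two new blocks and the old relation is the insertion -/
theorem ba_eq_ins (i : ℕ) (σ τ : St) (h0 : ∀ z, τ (2 * i + 4) z ↔ (z = 2 * i + 4 ∨ z = 2 * i + 6))
    (h1 : ∀ z, τ (2 * i + 5) z ↔ (z = 2 * i + 5 ∨ z = 2 * i + 7))
    (h2 : ∀ x y, τ (sk i x) (sk i y) ↔ σ x y) : τ = ins i σ := by
  have h3 : ∀ z, τ (2 * i + 6) z ↔ (z = 2 * i + 4 ∨ z = 2 * i + 6) := by
    intro z
    have h := (h0 (2 * i + 6)).mpr (Or.inr rfl)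
    rw [← h0 z]
    exact ⟨fun h' => τ.trans h h', fun h' => τ.trans (τ.symm h) h'⟩
  have h4 : ∀ z, τ (2 * i + 7) z ↔ (z = 2 * i + 5 ∨ z = 2 * i + 7) := by
    intro z
    have h := (h1 (2 * i + 7)).mpr (Or.inr rfl)
    rw [← h1 z]
    exact ⟨fun h' => τ.trans h h', fun h' => τ.trans (τ.symm h) h'⟩
  have g3 : ∀ z, (ins i σ) (2 * i + 6) z ↔ (z = 2 * i + 4 ∨ z = 2 * i + 6) := by
    intro z
    have h := (ins_block0 i σ (2 * i + 6)).mpr (Or.inr rfl)
    rw [← ins_block0 i σ z]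
    exact ⟨fun h' => (ins i σ).trans h h', fun h' => (ins i σ).trans ((ins i σ).symm h) h'⟩
  have g4 : ∀ z, (ins i σ) (2 * i + 7) z ↔ (z = 2 * i + 5 ∨ z = 2 * i + 7) := by
    intro z
    have h := (ins_block1 i σ (2 * i + 7)).mpr (Or.inr rfl)
    rw [← ins_block1 i σ z]
    exact ⟨fun h' => (ins i σ).trans h h', fun h' => (ins i σ).trans ((ins i σ).symm h) h'⟩
  apply Setoid.ext; intro x y
  rcases ba_cases i x with ⟨x, rfl⟩ | rfl | rfl | rfl | rfl
  · rcases ba_cases i y with ⟨y, rfl⟩ | rfl | rfl | rfl | rfl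
    · rw [h2, ins_sk]
    · rw [Setoid.comm', h0, Setoid.comm' (ins i σ), ins_block0]
    · rw [Setoid.comm', h1, Setoid.comm' (ins i σ), ins_block1]
    · rw [Setoid.comm', h3, Setoid.comm' (ins i σ), g3]
    · rw [Setoid.comm', h4, Setoid.comm' (ins i σ), g4]
  · rw [h0, ins_block0]
  · rw [h1, ins_block1]
  · rw [h3, g3]
  · rw [h4, g4]

theorem pr_ins0 (i : ℕ) (σ : St) : pr (2 * i + 4) (2 * i + 6) (ins i σ) = ins i σ := by
  apply Setoid.ext; intro x y
  have h0 := ins_block0 i σ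
  have hs : ∀ a b, (ins i σ) a b → (ins i σ) b a := fun a b h => (ins i σ).symm h
  have ht : ∀ a b c, (ins i σ) a b → (ins i σ) b c → (ins i σ) a c := fun a b c h h' => (ins i σ).trans h h'
  have hr : ∀ a, (ins i σ) a a := fun a => (ins i σ).refl a
  simp only [pr_iff]
  grind
theorem pr_ins1 (i : ℕ) (σ : St) : pr (2 * i + 5) (2 * i + 7) (ins i σ) = ins i σ := by
  apply Setoid.ext; intro x y
  have h0 := ins_block1 i σ
  have hs : ∀ a b, (ins i σ) a b → (ins i σ) b a := fun a b h => (ins i σ).symm h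
  have ht : ∀ a b c, (ins i σ) a b → (ins i σ) b c → (ins i σ) a c := fun a b c h h' => (ins i σ).trans h h'
  have hr : ∀ a, (ins i σ) a a := fun a => (ins i σ).refl a
  simp only [pr_iff]
  grind
theorem pr_ins (i : ℕ) {j k : ℕ} (h : j ≠ k) (σ : St) : pr (sk i j) (sk i k) (ins i σ) = ins i (pr j k σ) := by
  have hj := ba_sk_or i j
  have hk := ba_sk_or i k
  apply ba_eq_ins
  · intro z
    have h0 := ins_block0 i σ
    have hs : ∀ a b, (ins i σ) a b → (ins i σ) b a := fun a b h => (ins i σ).symm h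
    simp only [pr_iff]
    constructor
    · rintro (h | h | ⟨h1, h2, h3 | ⟨h3, h4⟩ | ⟨h3, h4⟩⟩)
      · exact Or.inl h.symm
      · exfalso; omega
      · exact (h0 z).mp h3
      · exfalso
        have := (h0 _).mp h3
        omega
      · exfalso
        have := (h0 _).mp h3
        omega
    · rintro (h | h)
      · exact Or.inl h.symm
      · right; right
        refine ⟨by omega, by omega, Or.inl ?_⟩
        rw [h0]; exact Or.inr h
  · intro z
    have h0 := ins_block1 i σ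
    have hs : ∀ a b, (ins i σ) a b → (ins i σ) b a := fun a b h => (ins i σ).symm h
    simp only [pr_iff]
    constructor
    · rintro (h | h | ⟨h1, h2, h3 | ⟨h3, h4⟩ | ⟨h3, h4⟩⟩)
      · exact Or.inl h.symm
      · exfalso; omega
      · exact (h0 z).mp h3
      · exfalso
        have := (h0 _).mp h3
        omega
      · exfalso
        have := (h0 _).mp h3
        omega
    · rintro (h | h)
      · exact Or.inl h.symm
      · right; right
        refine ⟨by omega, by omega, Or.inl ?_⟩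
        rw [h0]; exact Or.inr h
  · intro x y
    have e : ∀ a b : ℕ, sk i a = sk i b ↔ a = b := fun a b => ⟨sk_inj i, fun h => by rw [h]⟩
    simp only [pr_iff, ins_sk, e, ne_eq]
theorem swap_ins (i j k : ℕ) (σ : St) : rel (Equiv.swap (sk i j) (sk i k)) (ins i σ) =
    ins i (rel (Equiv.swap j k) σ) := by
  have hj := ba_sk_or i j
  have hk := ba_sk_or i k
  have key : ∀ x, x ≠ sk i j → x ≠ sk i k → Equiv.swap (sk i j) (sk i k) x = x := fun x h1 h2 =>
    Equiv.swap_apply_of_ne_of_ne h1 h2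
  have key2 : ∀ x z, (z = 2 * i + 4 ∨ z = 2 * i + 5 ∨ z = 2 * i + 6 ∨ z = 2 * i + 7) →
      (Equiv.swap (sk i j) (sk i k) x = z ↔ x = z) := by
    intro x z hz
    constructor
    · intro h
      have h' : x = Equiv.swap (sk i j) (sk i k) z := by
        rw [← h, Equiv.swap_apply_self]
      rw [h', key z (by omega) (by omega)]
    · rintro rfl
      exact key x (by omega) (by omega)
  apply ba_eq_ins
  · intro z
    rw [rel_iff', Equiv.symm_swap, key (2 * i + 4) (by omega) (by omega), ins_block0,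
      key2 z _ (by omega), key2 z _ (by omega)]
  · intro z
    rw [rel_iff', Equiv.symm_swap, key (2 * i + 5) (by omega) (by omega), ins_block1,
      key2 z _ (by omega), key2 z _ (by omega)]
  · intro x y
    have e : ∀ a, Equiv.swap (sk i j) (sk i k) (sk i a) = sk i (Equiv.swap j k a) := by
      intro a
      by_cases h1 : a = j
      · subst h1; rw [Equiv.swap_apply_left, Equiv.swap_apply_left]
      · by_cases h2 : a = k
        · subst h2; rw [Equiv.swap_apply_right, Equiv.swap_apply_right]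
        · rw [Equiv.swap_apply_of_ne_of_ne h1 h2, Equiv.swap_apply_of_ne_of_ne
            (fun h => h1 (sk_inj i h)) (fun h => h2 (sk_inj i h))]
    rw [rel_iff', rel_iff', Equiv.symm_swap, Equiv.symm_swap, e, e, ins_sk]
/-- every state in the image of both `pr` is an insertion -/
theorem ins_comap (i : ℕ) (σ : St) :
    ins i (Setoid.comap (sk i) (pr (2 * i + 4) (2 * i + 6) (pr (2 * i + 5) (2 * i + 7) σ))) =
      pr (2 * i + 4) (2 * i + 6) (pr (2 * i + 5) (2 * i + 7) σ) := by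
  symm
  apply ba_eq_ins
  · intro z
    rw [pr_iff]
    constructor
    · rintro (h | h | ⟨h, _⟩) <;> omega
    · rintro (h | h)
      · exact Or.inl h.symm
      · exact Or.inr (Or.inl ⟨Or.inl rfl, Or.inr h⟩)
  · intro z
    rw [pr_disj (by omega) (by omega) (by omega) (by omega), pr_iff]
    constructor
    · rintro (h | h | ⟨h, _⟩) <;> omega
    · rintro (h | h)
      · exact Or.inl h.symm
      · exact Or.inr (Or.inl ⟨Or.inl rfl, Or.inr h⟩)
  · intro x y
    rfl
theorem ins_inj (i : ℕ) {σ τ : St} (h : ins i σ = ins i τ) : σ = τ := by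
  apply Setoid.ext; intro x y
  rw [← ins_sk i σ, ← ins_sk i τ, h]

theorem ba_rtn_symm (L x : ℕ) : (rtn L).symm x =
    if x < 4 ∨ 2 * L + 4 ≤ x then x else if 6 ≤ x then x - 2 else 2 * L + 7 - x := rfl
theorem ba_rvn_symm (L x : ℕ) : (rvn L).symm x =
    if x < 4 ∨ 2 * L + 4 ≤ x then x else 2 * L + 7 - x := rfl
theorem ba_fl_symm (x : ℕ) : fl.symm x = if x % 2 = 0 then x + 1 else x - 1 := rfl

/-- `ins 1` is the rotated `ins 0` -/
theorem rt_ins {L : ℕ} (hL : 1 ≤ L) (σ : St) : rel (rtn (L + 2)) (ins 0 σ) = ins 1 (rel (rtn L) σ) := by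
  apply ba_eq_ins
  · intro z
    have h4 : (rtn (L + 2)).symm (2 * 1 + 4) = 2 * 0 + 4 := by
      rw [ba_rtn_symm]
      split_ifs <;> omega
    rw [rel_iff', h4, ins_block0, ba_rtn_symm]
    split_ifs <;> omega
  · intro z
    have h4 : (rtn (L + 2)).symm (2 * 1 + 5) = 2 * 0 + 5 := by
      rw [ba_rtn_symm]
      split_ifs <;> omega
    rw [rel_iff', h4, ins_block1, ba_rtn_symm]
    split_ifs <;> omega
  · have e : ∀ x, (rtn (L + 2)).symm (sk 1 x) = sk 0 ((rtn L).symm x) := by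
      intro x
      simp only [ba_rtn_symm, sk]
      split_ifs <;> omega
    intro x y
    rw [rel_iff', rel_iff', e, e, ins_sk]
/-- reversal of `ins 0`: the arc comes back to the positions `0`, `1` by two rotations -/
theorem rv_ins (L : ℕ) (σ : St) :
    rel (rtn (L + 2)) (rel (rtn (L + 2)) (rel (rvn (L + 2)) (ins 0 σ))) = ins 0 (rel (rvn L) σ) := by
  apply ba_eq_ins
  · intro z
    have h4 : (rvn (L + 2)).symm ((rtn (L + 2)).symm ((rtn (L + 2)).symm (2 * 0 + 4))) = 2 * 0 + 6 := by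
      simp only [ba_rtn_symm, ba_rvn_symm]
      split_ifs <;> omega
    have h5 : ∀ y, (ins 0 σ) (2 * 0 + 6) y ↔ (y = 2 * 0 + 4 ∨ y = 2 * 0 + 6) := by
      intro y
      have h := (ins_block0 0 σ (2 * 0 + 6)).mpr (Or.inr rfl)
      rw [← ins_block0 0 σ y]
      exact ⟨fun h' => (ins 0 σ).trans h h', fun h' => (ins 0 σ).trans ((ins 0 σ).symm h) h'⟩
    rw [rel_iff', rel_iff', rel_iff', h4, h5]
    simp only [ba_rtn_symm, ba_rvn_symm]
    split_ifs <;> omega
  · intro z
    have h4 : (rvn (L + 2)).symm ((rtn (L + 2)).symm ((rtn (L + 2)).symm (2 * 0 + 5))) = 2 * 0 + 7 := by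
      simp only [ba_rtn_symm, ba_rvn_symm]
      split_ifs <;> omega
    have h5 : ∀ y, (ins 0 σ) (2 * 0 + 7) y ↔ (y = 2 * 0 + 5 ∨ y = 2 * 0 + 7) := by
      intro y
      have h := (ins_block1 0 σ (2 * 0 + 7)).mpr (Or.inr rfl)
      rw [← ins_block1 0 σ y]
      exact ⟨fun h' => (ins 0 σ).trans h h', fun h' => (ins 0 σ).trans ((ins 0 σ).symm h) h'⟩
    rw [rel_iff', rel_iff', rel_iff', h4, h5]
    simp only [ba_rtn_symm, ba_rvn_symm]
    split_ifs <;> omega
  · have e : ∀ x, (rvn (L + 2)).symm ((rtn (L + 2)).symm ((rtn (L + 2)).symm (sk 0 x))) =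
        sk 0 ((rvn L).symm x) := by
      intro x
      simp only [ba_rtn_symm, ba_rvn_symm, sk]
      split_ifs <;> omega
    intro x y
    rw [rel_iff', rel_iff', rel_iff', rel_iff', e, e, ins_sk]
theorem rel_fl_ins (i : ℕ) (σ : St) : rel fl (ins i σ) = ins i (rel fl σ) := by
  apply ba_eq_ins
  · intro z
    have h4 : fl.symm (2 * i + 4) = 2 * i + 5 := by
      rw [ba_fl_symm]
      split_ifs <;> omega
    rw [rel_iff', h4, ins_block1, ba_fl_symm]
    split_ifs <;> omega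
  · intro z
    have h4 : fl.symm (2 * i + 5) = 2 * i + 4 := by
      rw [ba_fl_symm]
      split_ifs <;> omega
    rw [rel_iff', h4, ins_block0, ba_fl_symm]
    split_ifs <;> omega
  · have e : ∀ x, fl.symm (sk i x) = sk i (fl.symm x) := by
      intro x
      simp only [ba_fl_symm, sk]
      split_ifs <;> omega
    intro x y
    rw [rel_iff', rel_iff', e, e, ins_sk]
end IPC
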