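import Pool.Agent.Helper64.IPC.BA
/-! MODULE BB: pairings (`PP N`, `PW L`, `W L`), finiteness, the special states. -/
namespace IPC
open IP Finset

theorem bb_partner {N : ℕ} {σ : St} (hσ : σ ∈ PP N) :
    ∃ P : ℕ → ℕ, (∀ x, P (P x) = x) ∧ (∀ x, x < N → P x < N ∧ P x ≠ x) ∧ (∀ x, N ≤ x → P x = x) ∧
      ∀ x z, σ x z ↔ (z = x ∨ z = P x) := by
  classical
  obtain ⟨h1, h2⟩ := hσ
  choose p hp1 hp2 hp3 using h1
  refine ⟨fun x => if h : x < N then p x h else x, ?_, ?_, ?_, ?_⟩
  · intro x
    by_cases h : x < N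
    · have h3 : p x h < N := hp1 x h
      simp only [h, h3, dif_pos]
      have h4 : σ x (p x h) := (hp3 x h _).2 (Or.inr rfl)
      rcases (hp3 (p x h) h3 x).1 (σ.symm h4) with h5 | h5
      · exact absurd h5.symm (hp2 x h)
      · exact h5.symm
    · simp only [h, dif_neg, not_false_eq_true]
  · intro x h
    simp only [h, dif_pos]
    exact ⟨hp1 x h, hp2 x h⟩
  · intro x h
    simp only [not_lt.2 h, dif_neg, not_false_eq_true]
  · intro x z
    by_cases h : x < N
    · simp only [h, dif_pos]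
      exact hp3 x h z
    · simp only [h, dif_neg, not_false_eq_true, or_self]
      exact h2 x (not_lt.1 h) z

theorem bb_PP_of {N : ℕ} {σ : St} {P : ℕ → ℕ} (h1 : ∀ x, x < N → P x < N ∧ P x ≠ x)
    (h2 : ∀ x, N ≤ x → P x = x) (h3 : ∀ x z, σ x z ↔ (z = x ∨ z = P x)) : σ ∈ PP N := by
  refine ⟨fun x hx => ⟨P x, (h1 x hx).1, (h1 x hx).2, h3 x⟩, fun x hx z => ?_⟩
  rw [h3 x z, h2 x hx, or_self]

theorem bb_pr_block {j k : ℕ} {σ : St} (h : ∀ z, σ j z ↔ (z = j ∨ z = k)) : pr j k σ = σ := by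
  have hjk : σ j k := (h k).2 (Or.inr rfl)
  apply Setoid.ext
  intro x y
  rw [pr_iff]
  constructor
  · rintro (h1 | ⟨h1, h2⟩ | ⟨_, _, h1 | h1 | h1⟩)
    · rw [h1]
    · have h3 : σ j x := (h x).2 h1
      have h4 : σ j y := (h y).2 h2
      exact σ.trans (σ.symm h3) h4
    · exact h1
    · exact σ.trans (σ.trans h1.1 hjk) h1.2
    · exact σ.trans (σ.trans h1.1 (σ.symm hjk)) h1.2
  · intro h1
    by_cases hx : x = j ∨ x = k
    · right; left
      refine ⟨hx, ?_⟩
      have h3 : σ j x := (h x).2 hx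
      exact (h y).1 (σ.trans h3 h1)
    · by_cases hy : y = j ∨ y = k
      · exfalso
        have h3 : σ j y := (h y).2 hy
        exact hx ((h x).1 (σ.trans h3 (σ.symm h1)))
      · right; right
        push Not at hx hy
        exact ⟨hx, hy, Or.inl h1⟩

theorem PP_finite (N : ℕ) : (PP N).Finite := by
  apply Set.Finite.of_finite_image (f := fun σ : St => fun (a b : Fin N) => (σ a b : Prop))
  · exact Set.toFinite _
  · intro σ hσ τ hτ h
    have h' : ∀ a b : Fin N, (σ a b ↔ τ a b) := fun a b => by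
      have := congrFun (congrFun h a) b
      exact iff_of_eq this
    apply Setoid.ext
    intro x y
    by_cases hx : x < N
    · by_cases hy : y < N
      · exact h' ⟨x, hx⟩ ⟨y, hy⟩
      · have h1 : ¬ σ x y := fun h2 => by
          have := (hσ.2 y (not_lt.1 hy) x).1 (σ.symm h2)
          omega
        have h3 : ¬ τ x y := fun h2 => by
          have := (hτ.2 y (not_lt.1 hy) x).1 (τ.symm h2)
          omega
        exact ⟨fun h => absurd h h1, fun h => absurd h h3⟩
    · rw [hσ.2 x (not_lt.1 hx) y, hτ.2 x (not_lt.1 hx) y]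

theorem PW_finite (L : ℕ) : (PW L).Finite := (PP_finite (2 * L + 4)).subset fun _ h => h.1
theorem W_finite (L : ℕ) : (W L).Finite := (PW_finite L).subset fun _ h => h.1

theorem pr_PP {N j k : ℕ} (hj : j < N) (hk : k < N) (hjk : j ≠ k) {σ : St} (hσ : σ ∈ PP N) :
    pr j k σ ∈ PP N := by
  obtain ⟨P, hP, h1, h2, h3⟩ := bb_partner hσ
  have hjj := hP j
  have hkk := hP k
  have hj' := h1 j hj
  have hk' := h1 k hk
  apply bb_PP_of (P := fun x => if x = j then k else if x = k then j else if x = P j then P k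
    else if x = P k then P j else P x)
  · intro x hx
    have hx' := h1 x hx
    have hxx := hP x
    split_ifs with a1 a2 a3 a4
    · exact ⟨hk, by omega⟩
    · exact ⟨hj, by omega⟩
    · refine ⟨hk'.1, fun h => ?_⟩
      rw [a3] at h
      have := congrArg P h
      rw [hkk, hjj] at this
      exact hjk this.symm
    · refine ⟨hj'.1, fun h => ?_⟩
      rw [a4] at h
      have := congrArg P h
      rw [hkk, hjj] at this
      exact hjk this
    · exact hx'
  · intro x hx
    have hx' := h2 x hx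
    have hxx := hP x
    rw [if_neg (by omega), if_neg (by omega), if_neg (by omega), if_neg (by omega)]
    exact hx'
  · intro x z
    rw [pr_iff, h3, h3, h3, h3, h3]
    have hxx := hP x
    by_cases a1 : x = j
    · subst a1
      simp only [if_true, true_or, true_and, ne_eq, not_true_eq_false, false_and, or_false]
      constructor
      · rintro (h | h | h)
        · exact Or.inl h.symm
        · exact Or.inl h
        · exact Or.inr h
      · rintro (h | h)
        · exact Or.inl h.symm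
        · exact Or.inr (Or.inr h)
    · by_cases a2 : x = k
      · subst a2
        simp only [a1, if_true, if_false, or_true, true_and, ne_eq, not_true_eq_false, and_false,
          false_and, or_false]
        constructor
        · rintro (h | h | h)
          · exact Or.inl h.symm
          · exact Or.inr h
          · exact Or.inl h
        · rintro (h | h)
          · exact Or.inl h.symm
          · exact Or.inr (Or.inl h)
      · by_cases a3 : x = P j
        · have b1 : P x = j := by rw [a3, hjj]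
          have b2 : k ≠ P x := by rw [b1]; exact fun h => hjk h.symm
          have b3 : P k ≠ j := fun h => by
            have := congrArg P h
            rw [hkk] at this
            exact a2 (by rw [a3, this])
          rw [if_neg a1, if_neg a2, if_pos a3]
          constructor
          · rintro (h | ⟨h, _⟩ | ⟨_, ⟨c1, c2⟩, h | h | h⟩)
            · exact Or.inl h.symm
            · omega
            · rcases h with h | h
              · exact Or.inl h
              · rw [b1] at h; exact absurd h c1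
            · rcases h.2 with h5 | h5
              · exact absurd h5 c2
              · exact Or.inr h5
            · rcases h.1 with h5 | h5
              · exact absurd h5.symm a2
              · exact absurd h5 b2
          · rintro (h | h)
            · exact Or.inl h.symm
            · right; right
              refine ⟨⟨a1, a2⟩, ⟨?_, ?_⟩, Or.inr (Or.inl ⟨Or.inr b1.symm, Or.inr h⟩)⟩
              · rw [h]; exact b3
              · rw [h]; exact hk'.2
        · by_cases a4 : x = P k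
          · have b1 : P x = k := by rw [a4, hkk]
            have b2 : j ≠ P x := by rw [b1]; exact hjk
            have b3 : P j ≠ k := fun h => by
              have := congrArg P h
              rw [hjj] at this
              exact a1 (by rw [a4, this])
            rw [if_neg a1, if_neg a2, if_neg a3, if_pos a4]
            constructor
            · rintro (h | ⟨h, _⟩ | ⟨_, ⟨c1, c2⟩, h | h | h⟩)
              · exact Or.inl h.symm
              · omega
              · rcases h with h | h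
                · exact Or.inl h
                · rw [b1] at h; exact absurd h c2
              · rcases h.1 with h5 | h5
                · exact absurd h5.symm a1
                · exact absurd h5 b2
              · rcases h.2 with h5 | h5
                · exact absurd h5 c1
                · exact Or.inr h5
            · rintro (h | h)
              · exact Or.inl h.symm
              · right; right
                refine ⟨⟨a1, a2⟩, ⟨?_, ?_⟩, Or.inr (Or.inr ⟨Or.inr b1.symm, Or.inr h⟩)⟩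
                · rw [h]; exact hj'.2
                · rw [h]; exact b3
          · have b1 : j ≠ P x := fun h => a3 (by rw [h, hxx])
            have b2 : k ≠ P x := fun h => a4 (by rw [h, hxx])
            rw [if_neg a1, if_neg a2, if_neg a3, if_neg a4]
            constructor
            · rintro (h | ⟨h, _⟩ | ⟨_, ⟨c1, c2⟩, h | h | h⟩)
              · exact Or.inl h.symm
              · omega
              · exact h
              · rcases h.1 with h5 | h5
                · exact absurd h5.symm a1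
                · exact absurd h5 b1
              · rcases h.1 with h5 | h5
                · exact absurd h5.symm a2
                · exact absurd h5 b2
            · rintro (h | h)
              · exact Or.inl h.symm
              · right; right
                refine ⟨⟨a1, a2⟩, ⟨?_, ?_⟩, Or.inl (Or.inr h)⟩
                · rw [h]; exact b1.symm
                · rw [h]; exact b2.symm

theorem rel_PP {N : ℕ} {e : Equiv.Perm ℕ} (he : ∀ x, e x < N ↔ x < N) {σ : St} (hσ : σ ∈ PP N) :
    rel e σ ∈ PP N := by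
  obtain ⟨P, hP, h1, h2, h3⟩ := bb_partner hσ
  have he' : ∀ x, e.symm x < N ↔ x < N := fun x => by
    rw [← he (e.symm x), Equiv.apply_symm_apply]
  apply bb_PP_of (P := fun x => e (P (e.symm x)))
  · intro x hx
    have := h1 (e.symm x) ((he' x).2 hx)
    refine ⟨(he _).2 this.1, fun h => this.2 ?_⟩
    rw [← Equiv.symm_apply_apply e (P (e.symm x))]
    rw [h]
  · intro x hx
    have h4 : N ≤ e.symm x := by
      have := he' x
      omega
    rw [h2 _ h4, Equiv.apply_symm_apply]
  · intro x z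
    rw [rel_iff', h3]
    rw [Equiv.symm_apply_eq e (x := z) (y := P (e.symm x)), Equiv.symm_apply_eq, Equiv.apply_symm_apply]

theorem bb_fl_fl (x : ℕ) : fl (fl x) = x := by
  show (if (if x % 2 = 0 then x + 1 else x - 1) % 2 = 0 then (if x % 2 = 0 then x + 1 else x - 1) + 1 else
    (if x % 2 = 0 then x + 1 else x - 1) - 1) = x
  split_ifs <;> omega

theorem bb_fl_val (x : ℕ) : fl x = if x % 2 = 0 then x + 1 else x - 1 := rfl
theorem bb_fls_val (x : ℕ) : fl.symm x = if x % 2 = 0 then x + 1 else x - 1 := rfl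

theorem bb_fl_lt (L x : ℕ) : fl x < 2 * L + 4 ↔ x < 2 * L + 4 := by
  rw [bb_fl_val]
  split_ifs <;> omega

/-- simultaneous generator; `fl` exchanges `x, x'` and `y, y'` -/
theorem prpr_PW {L x y x' y' : ℕ} (hx : x < 2 * L + 4) (hy : y < 2 * L + 4) (hxy : x ≠ y) (hxy' : x ≠ y')
    (hx' : fl x = x') (hy' : fl y = y') {σ : St} (hσ : σ ∈ PW L) : pr x y (pr x' y' σ) ∈ PW L := by
  have h1 : fl x' = x := by rw [← hx', bb_fl_fl]
  have h2 : fl y' = y := by rw [← hy', bb_fl_fl]
  have h3 : x' ≠ y' := fun h => hxy (by rw [← h1, ← h2, h])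
  have h4 : x' ≠ y := fun h => hxy' (by rw [← h1, ← hy', h])
  have h5 : x' ≠ x := by
    rw [← hx', bb_fl_val]
    split_ifs <;> omega
  have h6 : y' ≠ y := by
    rw [← hy', bb_fl_val]
    split_ifs <;> omega
  have hx2 : x' < 2 * L + 4 := by rw [← hx']; exact (bb_fl_lt L x).2 hx
  have hy2 : y' < 2 * L + 4 := by rw [← hy']; exact (bb_fl_lt L y).2 hy
  refine ⟨pr_PP hx hy hxy (pr_PP hx2 hy2 h3 hσ.1), ?_⟩
  rw [rel_pr, rel_pr, hσ.2, hx', hy', h1, h2]
  exact pr_disj h5 h4 hxy'.symm h6 σ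

theorem rel_PW {L : ℕ} {e : Equiv.Perm ℕ} (he : ∀ x, e x < 2 * L + 4 ↔ x < 2 * L + 4)
    (hf : ∀ x, e (fl x) = fl (e x)) {σ : St} (hσ : σ ∈ PW L) : rel e σ ∈ PW L := by
  refine ⟨rel_PP he hσ.1, ?_⟩
  have h1 : fl * e = e * fl := by
    ext x
    rw [Equiv.Perm.mul_apply, Equiv.Perm.mul_apply, hf]
  rw [rel_rel, h1, ← rel_rel, hσ.2]

theorem bb_fl_rel {L : ℕ} {σ : St} (hσ : σ ∈ PW L) (x y : ℕ) : σ (fl x) (fl y) ↔ σ x y := by
  have h := rel_iff fl σ x y
  rw [hσ.2] at h
  exact h

theorem W_blocks {L : ℕ} {σ : St} (hσ : σ ∈ W L) :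
    (∀ z, σ 0 z ↔ (z = 0 ∨ z = 2)) ∧ (∀ z, σ 1 z ↔ (z = 1 ∨ z = 3)) ∧
    (∀ z, σ 2 z ↔ (z = 2 ∨ z = 0)) ∧ (∀ z, σ 3 z ↔ (z = 3 ∨ z = 1)) := by
  obtain ⟨P, hP, h1, h2, h3⟩ := bb_partner hσ.1.1
  have h02 : σ 0 2 := hσ.2
  have h13 : σ 1 3 := (bb_fl_rel hσ.1 0 2).2 h02
  have p0 : P 0 = 2 := by
    have := (h3 0 2).1 h02
    omega
  have p1 : P 1 = 3 := by
    have := (h3 1 3).1 h13
    omega
  have p2 : P 2 = 0 := by rw [← p0, hP]
  have p3 : P 3 = 1 := by rw [← p1, hP]
  refine ⟨fun z => ?_, fun z => ?_, fun z => ?_, fun z => ?_⟩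
  · rw [h3, p0]
  · rw [h3, p1]
  · rw [h3, p2]
  · rw [h3, p3]

/-- closing of the auxiliary line -/
theorem close_W {L : ℕ} {σ : St} (hσ : σ ∈ PW L) :
    rel (Equiv.swap 2 3) (pr 0 3 (pr 1 2 σ)) ∈ W L := by
  have h1 : pr 0 3 (pr 1 2 σ) ∈ PW L :=
    prpr_PW (by omega) (by omega) (by omega) (by omega) (by rw [bb_fl_val, if_pos (by omega)])
      (by rw [bb_fl_val, if_neg (by omega)]) hσ
  refine ⟨rel_PW ?_ ?_ h1, ?_⟩
  · intro x
    rw [Equiv.swap_apply_def]
    split_ifs <;> omega
  · intro x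
    rw [Equiv.swap_apply_def, Equiv.swap_apply_def, bb_fl_val, bb_fl_val]
    split_ifs <;> first | omega | contradiction
  · show (rel (Equiv.swap 2 3) (pr 0 3 (pr 1 2 σ))) 0 2
    rw [rel_iff']
    have a1 : (Equiv.swap 2 3).symm 0 = 0 := by decide
    have a2 : (Equiv.swap 2 3).symm 2 = 3 := by decide
    rw [a1, a2, pr_iff]
    exact Or.inr (Or.inl ⟨Or.inl rfl, Or.inr rfl⟩)

theorem W_pr {L : ℕ} {σ : St} (hσ : σ ∈ W L) : pr 0 2 (pr 1 3 σ) = σ := by
  have h := W_blocks hσ
  rw [bb_pr_block h.2.1, bb_pr_block h.1]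

theorem Es_W {L i : ℕ} (h : i + 1 < L) {σ : St} (hσ : σ ∈ W L) :
    pr (2 * i + 4) (2 * i + 6) (pr (2 * i + 5) (2 * i + 7) σ) ∈ W L := by
  refine ⟨prpr_PW (by omega) (by omega) (by omega) (by omega) ?_ ?_ hσ.1, ?_⟩
  · rw [bb_fl_val, if_pos (by omega)]
  · rw [bb_fl_val, if_pos (by omega)]
  · show (pr (2 * i + 4) (2 * i + 6) (pr (2 * i + 5) (2 * i + 7) σ)) 0 2
    rw [pr_iff]
    right; right
    refine ⟨by omega, by omega, Or.inl ?_⟩
    rw [pr_iff]
    right; right
    exact ⟨by omega, by omega, Or.inl hσ.2⟩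

theorem bb_rtn_val (L x : ℕ) : rtn L x =
    if x < 4 ∨ 2 * L + 4 ≤ x then x else if x < 2 * L + 2 then x + 2 else 2 * L + 7 - x := rfl
theorem bb_rtns_val (L x : ℕ) : (rtn L).symm x =
    if x < 4 ∨ 2 * L + 4 ≤ x then x else if 6 ≤ x then x - 2 else 2 * L + 7 - x := rfl
theorem bb_rvn_val (L x : ℕ) : rvn L x = if x < 4 ∨ 2 * L + 4 ≤ x then x else 2 * L + 7 - x := rfl
theorem bb_rvns_val (L x : ℕ) : (rvn L).symm x = if x < 4 ∨ 2 * L + 4 ≤ x then x else 2 * L + 7 - x := rfl

theorem rtn_lt (L x : ℕ) : rtn L x < 2 * L + 4 ↔ x < 2 * L + 4 := by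
  rw [bb_rtn_val]
  split_ifs <;> omega
theorem rvn_lt (L x : ℕ) : rvn L x < 2 * L + 4 ↔ x < 2 * L + 4 := by
  rw [bb_rvn_val]
  split_ifs <;> omega
theorem rtn_fl (L x : ℕ) : rtn L (fl x) = fl (rtn L x) := by
  rw [bb_rtn_val, bb_rtn_val, bb_fl_val, bb_fl_val]
  split_ifs <;> omega
theorem rvn_fl (L x : ℕ) : rvn L (fl x) = fl (rvn L x) := by
  rw [bb_rvn_val, bb_rvn_val, bb_fl_val, bb_fl_val]
  split_ifs <;> omega
theorem rt_W {L : ℕ} {σ : St} (hσ : σ ∈ W L) : rel (rtn L) σ ∈ W L := by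
  refine ⟨rel_PW (rtn_lt L) (rtn_fl L) hσ.1, ?_⟩
  exact hσ.2
theorem rts_W {L : ℕ} {σ : St} (hσ : σ ∈ W L) : rel (rtn L).symm σ ∈ W L := by
  refine ⟨rel_PW ?_ ?_ hσ.1, ?_⟩
  · intro x
    rw [bb_rtns_val]
    split_ifs <;> omega
  · intro x
    rw [Equiv.symm_apply_eq, rtn_fl, Equiv.apply_symm_apply]
  · exact hσ.2
theorem rv_W {L : ℕ} {σ : St} (hσ : σ ∈ W L) : rel (rvn L) σ ∈ W L := by
  refine ⟨rel_PW (rvn_lt L) (rvn_fl L) hσ.1, ?_⟩
  exact hσ.2

theorem bb_ins_iff (i : ℕ) (σ : St) (x y : ℕ) : (ins i σ) x y ↔ (x = y ∨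
    (x + y = 4 * i + 10 ∧ 2 * i + 4 ≤ x ∧ 2 * i + 4 ≤ y ∧ x ≠ 2 * i + 5 ∧ y ≠ 2 * i + 5) ∨
    (x + y = 4 * i + 12 ∧ 2 * i + 5 ≤ x ∧ 2 * i + 5 ≤ y ∧ x ≠ 2 * i + 6 ∧ y ≠ 2 * i + 6) ∨
    ((x < 2 * i + 4 ∨ 2 * i + 8 ≤ x) ∧ (y < 2 * i + 4 ∨ 2 * i + 8 ≤ y) ∧ σ (un i x) (un i y))) := Iff.rfl

theorem bb_ins_partner (i : ℕ) {σ : St} {P : ℕ → ℕ} (h3 : ∀ x z, σ x z ↔ (z = x ∨ z = P x)) (x z : ℕ) :
    (ins i σ) x z ↔ (z = x ∨ z = if x < 2 * i + 4 ∨ 2 * i + 8 ≤ x then sk i (P (un i x)) else
      if x < 2 * i + 6 then x + 2 else x - 2) := by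
  rw [bb_ins_iff]
  by_cases h4 : x < 2 * i + 4 ∨ 2 * i + 8 ≤ x
  · rw [if_pos h4, h3]
    have h7 : sk i (un i x) = x := by
      unfold sk un
      split_ifs <;> omega
    constructor
    · rintro (h5 | h5 | h5 | h5)
      · exact Or.inl h5.symm
      · exfalso; clear h7 h3; omega
      · exfalso; clear h7 h3; omega
      · have h8 : sk i (un i z) = z := by
          have := h5.2.1
          clear h7 h3 h5 h4
          unfold sk un
          split_ifs <;> omega
        rcases h5.2.2 with h6 | h6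
        · left
          rw [← h7, ← h8, h6]
        · right
          rw [← h6, h8]
    · rintro (h5 | h5)
      · exact Or.inl h5.symm
      · right; right; right
        refine ⟨h4, ?_, Or.inr ?_⟩
        · rw [h5]
          clear h7 h3 h5 h4
          unfold sk
          split_ifs <;> omega
        · rw [h5]
          clear h7 h3 h5 h4
          unfold sk un
          split_ifs <;> omega
  · rw [if_neg h4]
    constructor
    · rintro (h5 | h5 | h5 | h5)
      · exact Or.inl h5.symm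
      · right
        split_ifs <;> omega
      · right
        split_ifs <;> omega
      · exact absurd h5.1 h4
    · rintro (h5 | h5)
      · exact Or.inl h5.symm
      · by_cases h6 : x < 2 * i + 6
        · rw [if_pos h6] at h5
          have : x = 2 * i + 4 ∨ x = 2 * i + 5 := by omega
          rcases this with rfl | rfl
          · right; left; omega
          · right; right; left; omega
        · rw [if_neg h6] at h5
          have : x = 2 * i + 6 ∨ x = 2 * i + 7 := by omega
          rcases this with rfl | rfl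
          · right; left; omega
          · right; right; left; omega

theorem ins_W {L i : ℕ} (h : i ≤ L) {σ : St} (hσ : σ ∈ W L) : ins i σ ∈ W (L + 2) := by
  obtain ⟨P, hP, h1, h2, h3⟩ := bb_partner hσ.1.1
  refine ⟨⟨?_, ?_⟩, ?_⟩
  · apply bb_PP_of (P := fun x => if x < 2 * i + 4 ∨ 2 * i + 8 ≤ x then sk i (P (un i x)) else
      if x < 2 * i + 6 then x + 2 else x - 2)
    · intro x hx
      by_cases h4 : x < 2 * i + 4 ∨ 2 * i + 8 ≤ x
      · rw [if_pos h4]
        have h5 : un i x < 2 * L + 4 := by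
          unfold un
          split_ifs <;> omega
        have h6 := h1 _ h5
        have h7 : sk i (un i x) = x := by
          unfold sk un
          split_ifs <;> omega
        constructor
        · have := h6.1
          unfold sk
          split_ifs <;> omega
        · intro h8
          rw [← h7] at h8
          exact h6.2 (by
            have h9 := sk_inj i h8
            rwa [h7] at h9)
      · rw [if_neg h4]
        split_ifs <;> omega
    · intro x hx
      rw [if_pos (by omega)]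
      have h5 : 2 * L + 4 ≤ un i x := by
        unfold un
        split_ifs <;> omega
      rw [h2 _ h5]
      unfold sk un
      split_ifs <;> omega
    · exact bb_ins_partner i h3
  · rw [rel_fl_ins, hσ.1.2]
  · show (ins i σ) 0 2
    rw [bb_ins_iff]
    right; right; right
    refine ⟨by omega, by omega, ?_⟩
    have a1 : un i 0 = 0 := by unfold un; rw [if_pos (by omega)]
    have a2 : un i 2 = 2 := by unfold un; rw [if_pos (by omega)]
    rw [a1, a2]
    exact hσ.2

theorem comap_W {L i : ℕ} (h : i ≤ L) {σ : St} (hσ : σ ∈ W (L + 2)) (h2 : σ (2 * i + 4) (2 * i + 6)) :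
    Setoid.comap (sk i) σ ∈ W L := by
  obtain ⟨P, hP, h1, h2', h3⟩ := bb_partner hσ.1.1
  have h4 : σ (2 * i + 5) (2 * i + 7) := by
    have := (bb_fl_rel hσ.1 (2 * i + 4) (2 * i + 6)).2 h2
    rwa [bb_fl_val, bb_fl_val, if_pos (by omega), if_pos (by omega)] at this
  have p0 : P (2 * i + 4) = 2 * i + 6 := by
    have := (h3 _ _).1 h2
    omega
  have p1 : P (2 * i + 5) = 2 * i + 7 := by
    have := (h3 _ _).1 h4
    omega
  have p2 : P (2 * i + 6) = 2 * i + 4 := by rw [← p0, hP]
  have p3 : P (2 * i + 7) = 2 * i + 5 := by rw [← p1, hP]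
  have hsk : ∀ x, sk i x < 2 * i + 4 ∨ 2 * i + 8 ≤ sk i x := fun x => by
    unfold sk
    split_ifs <;> omega
  have hPs : ∀ x, P (sk i x) < 2 * i + 4 ∨ 2 * i + 8 ≤ P (sk i x) := by
    intro x
    by_contra hc
    have h5 := hP (sk i x)
    have h6 := hsk x
    have h7 : P (sk i x) = 2 * i + 4 ∨ P (sk i x) = 2 * i + 5 ∨ P (sk i x) = 2 * i + 6 ∨
      P (sk i x) = 2 * i + 7 := by omega
    rcases h7 with h7 | h7 | h7 | h7
    · rw [h7, p0] at h5; omega
    · rw [h7, p1] at h5; omega
    · rw [h7, p2] at h5; omega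
    · rw [h7, p3] at h5; omega
  have hun : ∀ y, (y < 2 * i + 4 ∨ 2 * i + 8 ≤ y) → sk i (un i y) = y := fun y hy => by
    unfold sk un
    split_ifs <;> omega
  have hus : ∀ x, un i (sk i x) = x := fun x => by
    unfold sk un
    split_ifs <;> omega
  refine ⟨⟨?_, ?_⟩, ?_⟩
  · apply bb_PP_of (P := fun x => un i (P (sk i x)))
    · intro x hx
      have h5 : sk i x < 2 * (L + 2) + 4 := by
        unfold sk
        split_ifs <;> omega
      have h6 := h1 _ h5
      have h7 := hPs x
      constructor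
      · have := h6.1
        unfold un
        split_ifs <;> omega
      · intro h8
        apply h6.2
        rw [← hun _ h7, h8]
    · intro x hx
      have h5 : 2 * (L + 2) + 4 ≤ sk i x := by
        unfold sk
        split_ifs <;> omega
      rw [h2' _ h5, hus]
    · intro x z
      show σ (sk i x) (sk i z) ↔ _
      rw [h3]
      constructor
      · rintro (h5 | h5)
        · exact Or.inl (sk_inj i h5)
        · right
          rw [← h5, hus]
      · rintro (h5 | h5)
        · left; rw [h5]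
        · right; rw [h5, hun _ (hPs x)]
  · apply Setoid.ext
    intro x y
    rw [rel_iff']
    show σ (sk i (fl.symm x)) (sk i (fl.symm y)) ↔ σ (sk i x) (sk i y)
    have h5 : ∀ x, sk i (fl.symm x) = fl (sk i x) := fun x => by
      rw [bb_fls_val, bb_fl_val]
      unfold sk
      split_ifs <;> omega
    rw [h5, h5]
    exact bb_fl_rel hσ.1 _ _
  · show σ (sk i 0) (sk i 2)
    have a1 : sk i 0 = 0 := by unfold sk; rw [if_pos (by omega)]
    have a2 : sk i 2 = 2 := by unfold sk; rw [if_pos (by omega)]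
    rw [a1, a2]
    exact hσ.2

theorem bb_top_iff (L x y : ℕ) : (top L) x y ↔ (x = y ∨ (x + y = 2 ∧ x ≠ 1) ∨
    (x + y = 4 ∧ (x = 1 ∨ x = 3)) ∨ (x + y = 2 * L + 7 ∧ 4 ≤ x ∧ 4 ≤ y)) := Iff.rfl


/-- partner in `top L` -/
def bb_tp (L x : ℕ) : ℕ := if 2 * L + 4 ≤ x then x else if 4 ≤ x then 2 * L + 7 - x else
      if x = 0 then 2 else if x = 1 then 3 else if x = 2 then 0 else 1

theorem bb_tp_ge {L x : ℕ} (h : 2 * L + 4 ≤ x) : bb_tp L x = x := if_pos h
theorem bb_tp_mid {L x : ℕ} (h : x < 2 * L + 4) (h4 : 4 ≤ x) : bb_tp L x = 2 * L + 7 - x := by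
  unfold bb_tp
  rw [if_neg (not_le.2 h), if_pos h4]
theorem bb_tp_0 (L : ℕ) : bb_tp L 0 = 2 := by
  unfold bb_tp
  rw [if_neg (by omega), if_neg (by omega), if_pos rfl]
theorem bb_tp_1 (L : ℕ) : bb_tp L 1 = 3 := by
  unfold bb_tp
  rw [if_neg (by omega), if_neg (by omega), if_neg (by omega), if_pos rfl]
theorem bb_tp_2 (L : ℕ) : bb_tp L 2 = 0 := by
  unfold bb_tp
  rw [if_neg (by omega), if_neg (by omega), if_neg (by omega), if_neg (by omega), if_pos rfl]
theorem bb_tp_3 (L : ℕ) : bb_tp L 3 = 1 := by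
  unfold bb_tp
  rw [if_neg (by omega), if_neg (by omega), if_neg (by omega), if_neg (by omega), if_neg (by omega)]

theorem bb_tp_ind {p : ℕ → Prop} (L : ℕ) (h1 : ∀ x, 2 * L + 4 ≤ x → p x)
    (h2 : ∀ x, 4 ≤ x → x < 2 * L + 4 → p x) (h : p 0 ∧ p 1 ∧ p 2 ∧ p 3) : ∀ x, p x := by
  intro x
  by_cases a1 : 2 * L + 4 ≤ x
  · exact h1 x a1
  · by_cases a2 : 4 ≤ x
    · exact h2 x a2 (not_le.1 a1)
    · have : x = 0 ∨ x = 1 ∨ x = 2 ∨ x = 3 := by omega
      rcases this with rfl | rfl | rfl | rfl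
      · exact h.1
      · exact h.2.1
      · exact h.2.2.1
      · exact h.2.2.2

theorem bb_top_tp (L x z : ℕ) : (top L) x z ↔ (z = x ∨ z = bb_tp L x) := by
  rw [bb_top_iff]
  revert x
  refine bb_tp_ind L ?_ ?_ ?_
  · intro x hx
    rw [bb_tp_ge hx]; omega
  · intro x h4 hx
    rw [bb_tp_mid hx h4]; omega
  · rw [bb_tp_0, bb_tp_1, bb_tp_2, bb_tp_3]
    refine ⟨?_, ?_, ?_, ?_⟩ <;> omega

theorem bb_rel_partner {σ τ : St} {P Q : ℕ → ℕ} {e : Equiv.Perm ℕ}
    (h1 : ∀ x z, σ x z ↔ (z = x ∨ z = P x)) (h2 : ∀ x z, τ x z ↔ (z = x ∨ z = Q x))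
    (h3 : ∀ x, e (P x) = Q (e x)) : rel e σ = τ := by
  apply Setoid.ext
  intro x z
  rw [rel_iff', h1, h2, Equiv.symm_apply_eq e (x := z) (y := P (e.symm x)), h3, Equiv.symm_apply_eq,
    Equiv.apply_symm_apply]

theorem bb_fl_tp (L : ℕ) : ∀ x, fl (bb_tp L x) = bb_tp L (fl x) := by
  refine bb_tp_ind L ?_ ?_ ?_
  · intro x hx
    rw [bb_tp_ge hx, bb_tp_ge]
    rw [bb_fl_val]
    split_ifs <;> omega
  · intro x h4 hx
    have h5 : fl x < 2 * L + 4 ∧ 4 ≤ fl x := by
      rw [bb_fl_val]
      split_ifs <;> omega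
    rw [bb_tp_mid hx h4, bb_tp_mid h5.1 h5.2, bb_fl_val, bb_fl_val]
    split_ifs <;> omega
  · rw [show fl 0 = 1 from rfl, show fl 1 = 0 from rfl, show fl 2 = 3 from rfl, show fl 3 = 2 from rfl,
      bb_tp_0, bb_tp_1, bb_tp_2, bb_tp_3]
    exact ⟨rfl, rfl, rfl, rfl⟩

theorem top_W (L : ℕ) : top L ∈ W L := by
  refine ⟨⟨?_, ?_⟩, ?_⟩
  · apply bb_PP_of (P := bb_tp L)
    · refine bb_tp_ind L ?_ ?_ ?_
      · intro x hx h
        omega
      · intro x h4 hx _
        rw [bb_tp_mid hx h4]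
        omega
      · rw [bb_tp_0, bb_tp_1, bb_tp_2, bb_tp_3]
        refine ⟨?_, ?_, ?_, ?_⟩ <;> omega
    · exact fun x hx => bb_tp_ge hx
    · exact bb_top_tp L
  · exact bb_rel_partner (bb_top_tp L) (bb_top_tp L) (bb_fl_tp L)
  · exact (bb_top_tp L 0 2).2 (Or.inr (bb_tp_0 L).symm)

theorem W_zero {σ : St} (h : σ ∈ W 0) : σ = top 0 := by
  obtain ⟨h0, h1, h2, h3⟩ := W_blocks h
  apply Setoid.ext
  intro x y
  rw [bb_top_iff]
  by_cases hx : 4 ≤ x
  · rw [h.1.1.2 x (by omega) y]
    omega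
  · have : x = 0 ∨ x = 1 ∨ x = 2 ∨ x = 3 := by omega
    rcases this with rfl | rfl | rfl | rfl
    · rw [h0]; omega
    · rw [h1]; omega
    · rw [h2]; omega
    · rw [h3]; omega

theorem W_one {σ : St} (h : σ ∈ W 1) : σ = top 1 := by
  obtain ⟨h0, h1, h2, h3⟩ := W_blocks h
  obtain ⟨P, hP, g1, g2, g3⟩ := bb_partner h.1.1
  have k1 := g1 4 (by omega)
  have k2 := g1 5 (by omega)
  have k3 : σ 4 (P 4) := (g3 4 _).2 (Or.inr rfl)
  have hP4 : P 4 = 5 := by
    have c0 : P 4 ≠ 0 := fun hc => by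
      rw [hc] at k3
      have := (h0 4).1 (σ.symm k3)
      omega
    have c1 : P 4 ≠ 1 := fun hc => by
      rw [hc] at k3
      have := (h1 4).1 (σ.symm k3)
      omega
    have c2 : P 4 ≠ 2 := fun hc => by
      rw [hc] at k3
      have := (h2 4).1 (σ.symm k3)
      omega
    have c3 : P 4 ≠ 3 := fun hc => by
      rw [hc] at k3
      have := (h3 4).1 (σ.symm k3)
      omega
    omega
  have hP5 : P 5 = 4 := by rw [← hP4, hP]
  apply Setoid.ext
  intro x y
  rw [bb_top_iff]
  by_cases hx : 6 ≤ x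
  · rw [h.1.1.2 x (by omega) y]
    omega
  · have : x = 0 ∨ x = 1 ∨ x = 2 ∨ x = 3 ∨ x = 4 ∨ x = 5 := by omega
    rcases this with rfl | rfl | rfl | rfl | rfl | rfl
    · rw [h0]; omega
    · rw [h1]; omega
    · rw [h2]; omega
    · rw [h3]; omega
    · rw [g3, hP4]; omega
    · rw [g3, hP5]; omega

/-- `top L` is not in the image of a generator `E_i`, `i + 1 < L` -/
theorem Es_ne_top {L i : ℕ} (h : i + 1 < L) (σ : St) :
    pr (2 * i + 4) (2 * i + 6) (pr (2 * i + 5) (2 * i + 7) σ) ≠ top L := by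
  intro hc
  have h1 : (pr (2 * i + 4) (2 * i + 6) (pr (2 * i + 5) (2 * i + 7) σ)) (2 * i + 4) (2 * i + 6) := by
    rw [pr_iff]
    exact Or.inr (Or.inl ⟨Or.inl rfl, Or.inr rfl⟩)
  rw [hc, bb_top_iff] at h1
  omega

theorem rv_top (L : ℕ) : rel (rvn L) (top L) = top L := by
  refine bb_rel_partner (bb_top_tp L) (bb_top_tp L) ?_
  refine bb_tp_ind L ?_ ?_ ?_
  · intro x hx
    have h1 : rvn L x = x := by rw [bb_rvn_val, if_pos (Or.inr hx)]
    rw [bb_tp_ge hx, h1, bb_tp_ge hx]
  · intro x h4 hx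
    have h1 : rvn L x = 2 * L + 7 - x := by rw [bb_rvn_val, if_neg (by omega)]
    rw [bb_tp_mid hx h4, h1, bb_tp_mid (by omega) (by omega), bb_rvn_val, if_neg (by omega)]
  · have h : ∀ y, y < 4 → rvn L y = y := fun y hy => by rw [bb_rvn_val, if_pos (Or.inl hy)]
    rw [h 0 (by omega), h 1 (by omega), h 2 (by omega), h 3 (by omega), bb_tp_0, bb_tp_1, bb_tp_2,
      bb_tp_3]
    exact ⟨h _ (by omega), h _ (by omega), h _ (by omega), h _ (by omega)⟩

theorem bb_un0 {x : ℕ} (h : x < 4) : un 0 x = x := by unfold un; rw [if_pos (by omega)]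
theorem bb_un0' {x : ℕ} (h : 8 ≤ x) : un 0 x = x - 4 := by unfold un; rw [if_neg (by omega)]
theorem bb_sk0 {x : ℕ} (h : x < 4) : sk 0 x = x := by unfold sk; rw [if_pos (by omega)]
theorem bb_sk0' {x : ℕ} (h : 4 ≤ x) : sk 0 x = x + 4 := by unfold sk; rw [if_neg (by omega)]

theorem ins_top (L : ℕ) : ins 0 (top L) = rel (rtn (L + 2)) (top (L + 2)) := by
  symm
  refine bb_rel_partner (bb_top_tp (L + 2)) (bb_ins_partner 0 (bb_top_tp L)) ?_
  refine bb_tp_ind (L + 2) ?_ ?_ ?_
  · intro x hx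
    have h1 : rtn (L + 2) x = x := by rw [bb_rtn_val, if_pos (Or.inr hx)]
    rw [bb_tp_ge hx, h1, if_pos (Or.inr (by omega)), bb_un0' (by omega), bb_tp_ge (by omega),
      bb_sk0' (by omega)]
    omega
  · intro x h4 hx
    rw [bb_tp_mid hx h4]
    by_cases h5 : x < 2 * (L + 2) + 2
    · have h1 : rtn (L + 2) x = x + 2 := by rw [bb_rtn_val, if_neg (by omega), if_pos h5]
      rw [h1]
      by_cases h6 : x < 6
      · have h7 : rtn (L + 2) (2 * (L + 2) + 7 - x) = x := by
          rw [bb_rtn_val, if_neg (by omega), if_neg (by omega)]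
          omega
        rw [h7, if_neg (by omega), if_neg (by omega)]
        omega
      · have h7 : rtn (L + 2) (2 * (L + 2) + 7 - x) = 2 * (L + 2) + 7 - x + 2 := by
          rw [bb_rtn_val, if_neg (by omega), if_pos (by omega)]
        rw [h7, if_pos (Or.inr (by omega)), bb_un0' (by omega), bb_tp_mid (by omega) (by omega),
          bb_sk0' (by omega)]
        omega
    · have h1 : rtn (L + 2) x = 2 * (L + 2) + 7 - x := by
        rw [bb_rtn_val, if_neg (by omega), if_neg (by omega)]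
      rw [h1, if_neg (by omega), if_pos (by omega)]
      rw [bb_rtn_val, if_neg (by omega), if_pos (by omega)]
  · have h : ∀ y, y < 4 → rtn (L + 2) y = y := fun y hy => by rw [bb_rtn_val, if_pos (Or.inl hy)]
    rw [h 0 (by omega), h 1 (by omega), h 2 (by omega), h 3 (by omega), bb_tp_0, bb_tp_1, bb_tp_2,
      bb_tp_3, h _ (by omega), h _ (by omega), h _ (by omega), h _ (by omega), if_pos (by omega),
      if_pos (by omega), if_pos (by omega), if_pos (by omega), bb_un0 (by omega), bb_un0 (by omega),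
      bb_un0 (by omega), bb_un0 (by omega), bb_tp_0, bb_tp_1, bb_tp_2, bb_tp_3,
      bb_sk0 (by omega), bb_sk0 (by omega), bb_sk0 (by omega), bb_sk0 (by omega)]
    exact ⟨rfl, rfl, rfl, rfl⟩
end IPC
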