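import Pool.Agent.Helper64.IPC.Transfer
/-! MODULE DOEBLIN: the stationary vector on the cube.
On the cube all weights are positive.  In `Tt` choose the generator at the strands `L-1, L-3, ...` and the
swap at `L-2, L-4, ...`: every state of `W L` is sent to the same state.  (Strand `L-1` acts first: generator:
new blocks `{a_e, L-1}`; swap at `L-2`: blocks `{(L-2,e), (L-1,e)}`, these are never touched again, and so on.
`L` even: all strands are paired `(0,1), (2,3), ...`.  `L` odd: pairs `(1,2), (3,4), ...` and, because the state is a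
pairing in `W L`, the two copies of strand `0` form a block.)  Doeblin's condition in one step.
Compare `IP.DoeblinA/B` (same statements for the strip, proofs can be adapted). -/
namespace IPC
open IP Finset Real Filter Topology

theorem doe_cos_pos {b : ℕ → ℝ} (hb : b ∈ Cube) (j : ℕ) : 0 < s (b j + π / 6) := by
  have h := hb j
  rw [abs_lt] at h
  unfold s
  have : π / 3 + (b j + π / 6) = b j + π / 2 := by ring
  rw [this, Real.sin_add_pi_div_two]
  exact Real.cos_pos_of_mem_Ioo ⟨by linarith [Real.pi_pos], by linarith [Real.pi_pos]⟩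

theorem doe_sin_pos {x : ℝ} (h : |x| < π / 6) : 0 < Real.sin (x + π / 6) := by
  rw [abs_lt] at h
  exact Real.sin_pos_of_pos_of_lt_pi (by linarith) (by linarith [Real.pi_pos])

theorem doe_s_neg_pos {x : ℝ} (h : |x| < π / 6) : 0 < s (-(x + π / 6)) := by
  rw [abs_lt] at h
  unfold s
  exact Real.sin_pos_of_pos_of_lt_pi (by linarith) (by linarith [Real.pi_pos])

theorem nrm_pos (L : ℕ) {b : ℕ → ℝ} (hb : b ∈ Cube) : 0 < nrm L b :=
  Finset.prod_pos fun j _ => doe_cos_pos hb j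

theorem tot_T (L : ℕ) {b : ℕ → ℝ} (hb : b ∈ Cube) (v : M) : tot (T L b v) = tot v := by
  have h := (nrm_pos L hb).ne'
  simp only [T, LinearMap.smul_apply, map_smul, tot_Tt, smul_eq_mul]
  rw [← mul_assoc, inv_mul_cancel₀ h, one_mul]

theorem doe_T_Sup (L : ℕ) (b : ℕ → ℝ) {v : M} (hv : v ∈ Sup (W L)) : T L b v ∈ Sup (W L) :=
  Submodule.smul_mem _ _ (Tt_Sup L b hv)

/-! ### nonnegative vectors -/

/-- nonnegative vectors -/
def doe_Nng (v : M) : Prop := ∀ σ, 0 ≤ v σ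

theorem doe_Nng.add {v w : M} (hv : doe_Nng v) (hw : doe_Nng w) : doe_Nng (v + w) := fun σ => by
  simpa using add_nonneg (hv σ) (hw σ)

theorem doe_Nng.smul {c : ℝ} (hc : 0 ≤ c) {v : M} (hv : doe_Nng v) : doe_Nng (c • v) := fun σ => by
  simpa using mul_nonneg hc (hv σ)

theorem doe_NN_zero : doe_Nng 0 := fun σ => by simp

theorem doe_NN_single (σ : St) {c : ℝ} (hc : 0 ≤ c) : doe_Nng (Finsupp.single σ c) := fun τ => by
  classical
  rw [Finsupp.single_apply]
  split_ifs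
  · exact hc
  · exact le_rfl

theorem doe_NN_map (f : St → St) {v : M} (hv : doe_Nng v) :
    doe_Nng (Finsupp.lmapDomain ℝ ℝ f v) := fun σ => by
  classical
  rw [Finsupp.lmapDomain_apply, Finsupp.mapDomain, Finsupp.sum_apply]
  refine Finset.sum_nonneg fun τ _ => ?_
  change 0 ≤ (Finsupp.single (f τ) (v τ)) σ
  exact doe_NN_single _ (hv τ) σ

theorem doe_NN_Rh (x y x' y' : ℕ) {u : ℝ} (h1 : 0 ≤ s (-u)) (h2 : 0 ≤ Real.sin u) {v : M}
    (hv : doe_Nng v) : doe_Nng (Rh x y x' y' u v) := by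
  rw [lin_Rh_apply]
  exact ((doe_NN_map _ hv).smul h1).add ((doe_NN_map _ (doe_NN_map _ hv)).smul h2)

/-- all parameters of the list are in the good range -/
def doe_ok (l : List (ℕ × ℕ × ℝ)) : Prop := ∀ q ∈ l, |q.2.2| < π / 6

theorem doe_ok_tail {q : ℕ × ℕ × ℝ} {l : List (ℕ × ℕ × ℝ)} (h : doe_ok (q :: l)) : doe_ok l :=
  fun r hr => h r (List.mem_cons_of_mem _ hr)

theorem doe_ok_head {q : ℕ × ℕ × ℝ} {l : List (ℕ × ℕ × ℝ)} (h : doe_ok (q :: l)) : |q.2.2| < π / 6 :=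
  h q List.mem_cons_self

theorem doe_ok_lst (L : ℕ) {b : ℕ → ℝ} (hb : b ∈ Cube) : doe_ok (lst L b) := by
  intro q hq
  rw [lst, List.mem_map] at hq
  obtain ⟨i, _, rfl⟩ := hq
  exact hb i

theorem doe_NN_row : ∀ {l : List (ℕ × ℕ × ℝ)}, doe_ok l → ∀ {v : M}, doe_Nng v → doe_Nng (row l v) := by
  intro l
  induction l with
  | nil => intro _ v hv; simpa [row] using hv
  | cons q l ih =>
    intro hl v hv
    obtain ⟨y, y', β⟩ := q
    have h1 := doe_ok_head hl
    show doe_Nng (Rh 0 y 1 y' (β + π / 6) (row l v))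
    exact doe_NN_Rh _ _ _ _ (doe_s_neg_pos h1).le (doe_sin_pos h1).le (ih (doe_ok_tail hl) hv)

theorem doe_Tt_apply (L : ℕ) (b : ℕ → ℝ) (v : M) :
    Tt L b v = Rel (Equiv.swap 2 3) (Pr 0 3 (Pr 1 2 (row (lst L b) v))) := rfl

theorem doe_NN_Tt (L : ℕ) {b : ℕ → ℝ} (hb : b ∈ Cube) {v : M} (hv : doe_Nng v) :
    doe_Nng (Tt L b v) := by
  rw [doe_Tt_apply]
  exact doe_NN_map _ (doe_NN_map _ (doe_NN_map _ (doe_NN_row (doe_ok_lst L hb) hv)))

theorem doe_NN_T (L : ℕ) {b : ℕ → ℝ} (hb : b ∈ Cube) {v : M} (hv : doe_Nng v) :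
    doe_Nng (T L b v) := by
  simp only [T, LinearMap.smul_apply]
  exact (doe_NN_Tt L hb hv).smul (inv_nonneg.mpr (nrm_pos L hb).le)

/-! ### the Doeblin path -/

/-- state reached by the choice: generator if the number of strands already crossed is even,
swap if it is odd -/
def doe_path : List (ℕ × ℕ × ℝ) → St → St
  | [], σ => σ
  | (y, y', _) :: l, σ => if l.length % 2 = 0 then pr 0 y (pr 1 y' (doe_path l σ))
      else rel (gs 0 y 1 y') (doe_path l σ)

/-- weight of this choice -/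
noncomputable def doe_w : List (ℕ × ℕ × ℝ) → ℝ
  | [] => 1
  | (_, _, β) :: l => (if l.length % 2 = 0 then Real.sin (β + π / 6) else s (-(β + π / 6))) * doe_w l

theorem doe_w_pos : ∀ {l : List (ℕ × ℕ × ℝ)}, doe_ok l → 0 < doe_w l := by
  intro l
  induction l with
  | nil => intro _; simp [doe_w]
  | cons q l ih =>
    intro hl
    obtain ⟨y, y', β⟩ := q
    have h1 := doe_ok_head hl
    simp only [doe_w]
    refine mul_pos ?_ (ih (doe_ok_tail hl))
    split_ifs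
    · exact doe_sin_pos h1
    · exact doe_s_neg_pos h1

theorem doe_row_ge {l : List (ℕ × ℕ × ℝ)} (hl : doe_ok l) (σ : St) {c : ℝ} (hc : 0 ≤ c) :
    doe_Nng (row l (Finsupp.single σ c) - Finsupp.single (doe_path l σ) (doe_w l * c)) := by
  induction l with
  | nil => simpa [row, doe_path, doe_w] using doe_NN_zero
  | cons q l ih =>
    obtain ⟨y, y', β⟩ := q
    have h1 := doe_ok_head hl
    have h2 := ih (doe_ok_tail hl)
    have ha := (doe_s_neg_pos h1).le
    have hb := (doe_sin_pos h1).le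
    have hw : 0 ≤ doe_w l * c := mul_nonneg (doe_w_pos (doe_ok_tail hl)).le hc
    have h3 := doe_NN_Rh 0 y 1 y' ha hb h2
    have h4 : ∀ (τ : St) (d : ℝ), Rh 0 y 1 y' (β + π / 6) (Finsupp.single τ d) =
        Finsupp.single (rel (gs 0 y 1 y') τ) (s (-(β + π / 6)) * d) +
          Finsupp.single (pr 0 y (pr 1 y' τ)) (Real.sin (β + π / 6) * d) := by
      intro τ d
      rw [lin_Rh_apply, lin_G_apply, Rel_single, Pr_single, Pr_single, Finsupp.smul_single,
        Finsupp.smul_single, smul_eq_mul, smul_eq_mul]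
    rw [map_sub, h4] at h3
    show doe_Nng (Rh 0 y 1 y' (β + π / 6) (row l (Finsupp.single σ c)) - _)
    simp only [doe_path, doe_w]
    split_ifs with hk
    · have := h3.add (doe_NN_single (rel (gs 0 y 1 y') (doe_path l σ)) (mul_nonneg ha hw))
      convert this using 1
      rw [mul_assoc]
      abel
    · have := h3.add (doe_NN_single (pr 0 y (pr 1 y' (doe_path l σ))) (mul_nonneg hb hw))
      convert this using 1
      rw [mul_assoc]
      abel

/-- closing -/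
def doe_cl (σ : St) : St := rel (Equiv.swap 2 3) (pr 0 3 (pr 1 2 σ))

/-- Doeblin's state -/
def doe_D (L : ℕ) (b : ℕ → ℝ) : St := doe_cl (doe_path (lst L b) (top L))

/-! #### all states are sent to the same state -/

theorem doe_pr_far {j k x : ℕ} {σ : St} (hj : ¬ σ x j) (hk : ¬ σ x k) (z : ℕ) :
    (pr j k σ) x z ↔ σ x z := by
  rw [pr_iff]
  constructor
  · rintro (h | h | h)
    · rw [← h]
    · exfalso
      rcases h.1 with h | h
      · exact hj (by rw [h])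
      · exact hk (by rw [h])
    · rcases h.2.2 with h | h | h
      · exact h
      · exact absurd h.1 hj
      · exact absurd h.1 hk
  · intro h
    right; right
    refine ⟨⟨?_, ?_⟩, ⟨?_, ?_⟩, Or.inl h⟩
    · rintro rfl; exact hj (σ.refl _)
    · rintro rfl; exact hk (σ.refl _)
    · rintro rfl; exact hj h
    · rintro rfl; exact hk h

theorem doe_pr_self {j k : ℕ} (σ : St) (z : ℕ) : (pr j k σ) j z ↔ (z = j ∨ z = k) := by
  rw [pr_iff]
  constructor
  · rintro (h | h | h)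
    · exact Or.inl h.symm
    · exact h.2
    · exact absurd rfl h.1.1
  · intro h
    exact Or.inr (Or.inl ⟨Or.inl rfl, h⟩)

theorem doe_pr_self' {j k : ℕ} (σ : St) (z : ℕ) : (pr j k σ) k z ↔ (z = j ∨ z = k) := by
  rw [pr_iff]
  constructor
  · rintro (h | h | h)
    · exact Or.inr h.symm
    · exact h.2
    · exact absurd rfl h.1.2
  · intro h
    exact Or.inr (Or.inl ⟨Or.inr rfl, h⟩)

/-- nodes on which the path has forgotten the initial state: `m` strands crossed, the last one `K` -/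
def doe_A (m K x : ℕ) : Prop := 2 * K + 4 ≤ x ∨ (m % 2 = 1 ∧ x < 2)

/-- the blocks of the nodes of `doe_A` coincide and are contained in `doe_A` -/
def doe_Ag (m K : ℕ) (σ τ : St) : Prop :=
  ∀ x, doe_A m K x → ∀ z, (σ x z ↔ τ x z) ∧ (σ x z → doe_A m K z)

theorem doe_gen {m K : ℕ} (hm : m % 2 = 0) {σ τ : St} (h : doe_Ag m (K + 1) σ τ) :
    doe_Ag (m + 1) K (pr 0 (2 * K + 4) (pr 1 (2 * K + 5) σ)) (pr 0 (2 * K + 4) (pr 1 (2 * K + 5) τ)) := by
  have hfar : ∀ x, 2 * K + 6 ≤ x → ∀ z, (σ x z → 2 * K + 6 ≤ z) ∧ (τ x z → 2 * K + 6 ≤ z) := by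
    intro x hx z
    have h1 := h x (Or.inl (by omega)) z
    have h2 : σ x z → 2 * K + 6 ≤ z := by
      intro h3
      rcases h1.2 h3 with h4 | h4
      · omega
      · omega
    exact ⟨h2, fun h3 => h2 (h1.1.2 h3)⟩
  have key : ∀ ρ : St, (∀ x, 2 * K + 6 ≤ x → ∀ z, ρ x z → 2 * K + 6 ≤ z) →
      (∀ x, 2 * K + 6 ≤ x → ∀ z, (pr 0 (2 * K + 4) (pr 1 (2 * K + 5) ρ)) x z ↔ ρ x z) ∧
      (∀ z, (pr 0 (2 * K + 4) (pr 1 (2 * K + 5) ρ)) 0 z ↔ (z = 0 ∨ z = 2 * K + 4)) ∧
      (∀ z, (pr 0 (2 * K + 4) (pr 1 (2 * K + 5) ρ)) (2 * K + 4) z ↔ (z = 0 ∨ z = 2 * K + 4)) ∧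
      (∀ z, (pr 0 (2 * K + 4) (pr 1 (2 * K + 5) ρ)) 1 z ↔ (z = 1 ∨ z = 2 * K + 5)) ∧
      (∀ z, (pr 0 (2 * K + 4) (pr 1 (2 * K + 5) ρ)) (2 * K + 5) z ↔ (z = 1 ∨ z = 2 * K + 5)) := by
    intro ρ hρ
    refine ⟨?_, fun z => doe_pr_self _ z, fun z => doe_pr_self' _ z, ?_, ?_⟩
    · intro x hx z
      have n1 : ¬ ρ x 1 := fun h1 => by have := hρ x hx 1 h1; omega
      have n2 : ¬ ρ x (2 * K + 5) := fun h1 => by have := hρ x hx _ h1; omega
      have n3 : ¬ ρ x 0 := fun h1 => by have := hρ x hx 0 h1; omega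
      have n4 : ¬ ρ x (2 * K + 4) := fun h1 => by have := hρ x hx _ h1; omega
      rw [doe_pr_far, doe_pr_far n1 n2]
      · rwa [doe_pr_far n1 n2]
      · rwa [doe_pr_far n1 n2]
    · intro z
      rw [doe_pr_far, doe_pr_self]
      · rw [doe_pr_self]; omega
      · rw [doe_pr_self]; omega
    · intro z
      rw [doe_pr_far, doe_pr_self']
      · rw [doe_pr_self']; omega
      · rw [doe_pr_self']; omega
  obtain ⟨a1, a2, a3, a4, a5⟩ := key σ fun x hx z => (hfar x hx z).1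
  obtain ⟨b1, b2, b3, b4, b5⟩ := key τ fun x hx z => (hfar x hx z).2
  intro x hx z
  have hc : 2 * K + 6 ≤ x ∨ x = 0 ∨ x = 2 * K + 4 ∨ x = 1 ∨ x = 2 * K + 5 := by
    rcases hx with hx | hx
    · omega
    · omega
  unfold doe_A
  rcases hc with hc | rfl | rfl | rfl | rfl
  · rw [a1 x hc, b1 x hc]
    refine ⟨(h x (Or.inl (by omega)) z).1, fun h1 => ?_⟩
    have := (hfar x hc z).1 h1
    left; omega
  · rw [a2, b2]
    refine ⟨Iff.rfl, ?_⟩
    rintro (rfl | rfl)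
    · right; omega
    · left; omega
  · rw [a3, b3]
    refine ⟨Iff.rfl, ?_⟩
    rintro (rfl | rfl)
    · right; omega
    · left; omega
  · rw [a4, b4]
    refine ⟨Iff.rfl, ?_⟩
    rintro (rfl | rfl)
    · right; omega
    · left; omega
  · rw [a5, b5]
    refine ⟨Iff.rfl, ?_⟩
    rintro (rfl | rfl)
    · right; omega
    · left; omega

theorem doe_gs_symm (K x : ℕ) : (gs 0 (2 * K + 4) 1 (2 * K + 5)).symm x =
    if x = 0 then 2 * K + 4 else if x = 2 * K + 4 then 0 else if x = 1 then 2 * K + 5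
      else if x = 2 * K + 5 then 1 else x := by
  rw [Equiv.symm_apply_eq]
  split_ifs with c1 c2 c3 c4
  · rw [bc_gs_apply, if_neg (by omega), if_pos rfl, c1]
  · rw [bc_gs_apply, if_pos rfl, c2]
  · rw [bc_gs_apply, if_neg (by omega), if_neg (by omega), if_neg (by omega), if_pos rfl, c3]
  · rw [bc_gs_apply, if_neg (by omega), if_neg (by omega), if_pos rfl, c4]
  · rw [bc_gs_apply, if_neg c1, if_neg c2, if_neg c3, if_neg c4]

theorem doe_sw {m K : ℕ} (hm : m % 2 = 1) {σ τ : St} (h : doe_Ag m (K + 1) σ τ) :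
    doe_Ag (m + 1) K (rel (gs 0 (2 * K + 4) 1 (2 * K + 5)) σ) (rel (gs 0 (2 * K + 4) 1 (2 * K + 5)) τ) := by
  have h1 : ∀ x, doe_A m (K + 1) ((gs 0 (2 * K + 4) 1 (2 * K + 5)).symm x) ↔ doe_A (m + 1) K x := by
    intro x
    rw [doe_gs_symm]
    unfold doe_A
    have hm1 : ¬ (m + 1) % 2 = 1 := by omega
    simp only [hm, hm1, true_and, false_and, or_false]
    split_ifs with c1 c2 c3 c4
    · subst c1; constructor <;> intro h5 <;> omega
    · subst c2; constructor <;> intro h5 <;> omega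
    · subst c3; constructor <;> intro h5 <;> omega
    · subst c4; constructor <;> intro h5 <;> omega
    · constructor <;> intro h5 <;> omega
  intro x hx z
  rw [rel_iff', rel_iff', ← h1 z]
  exact h _ ((h1 x).2 hx) _

/-- the strands `K, ..., K+m-1` -/
def doe_lk (b : ℕ → ℝ) (K m : ℕ) : List (ℕ × ℕ × ℝ) :=
  (List.range' K m).map fun i => (2 * i + 4, 2 * i + 5, b i)

theorem doe_lk_succ (b : ℕ → ℝ) (K m : ℕ) :
    doe_lk b K (m + 1) = (2 * K + 4, 2 * K + 5, b K) :: doe_lk b (K + 1) m := by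
  simp [doe_lk, List.range'_succ]

theorem doe_lk_length (b : ℕ → ℝ) (K m : ℕ) : (doe_lk b K m).length = m := by
  simp [doe_lk]

theorem doe_lst (b : ℕ → ℝ) (L : ℕ) : lst L b = doe_lk b 0 L := by
  simp [lst, doe_lk, List.range_eq_range']

theorem doe_agree {L : ℕ} (b : ℕ → ℝ) {σ τ : St} (hσ : σ ∈ PP (2 * L + 4)) (hτ : τ ∈ PP (2 * L + 4))
    (m : ℕ) : ∀ K, K + m = L → doe_Ag m K (doe_path (doe_lk b K m) σ) (doe_path (doe_lk b K m) τ) := by
  induction m with
  | zero =>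
    intro K hK x hx z
    have h0 : doe_lk b K 0 = [] := rfl
    rw [h0]
    show (σ x z ↔ τ x z) ∧ (σ x z → doe_A 0 K z)
    have hx' : 2 * L + 4 ≤ x := by
      rcases hx with hx | hx <;> omega
    rw [hσ.2 x hx', hτ.2 x hx']
    refine ⟨Iff.rfl, ?_⟩
    rintro rfl
    exact hx
  | succ m ih =>
    intro K hK
    have h := ih (K + 1) (by omega)
    rw [doe_lk_succ]
    simp only [doe_path, doe_lk_length]
    split_ifs with hm
    · exact doe_gen hm h
    · exact doe_sw (by omega) h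

theorem doe_path_PP {N : ℕ} (hN : 2 ≤ N) {l : List (ℕ × ℕ × ℝ)}
    (hl : ∀ q ∈ l, 2 ≤ q.1 ∧ q.1 < N ∧ 2 ≤ q.2.1 ∧ q.2.1 < N) {σ : St} (hσ : σ ∈ PP N) :
    doe_path l σ ∈ PP N := by
  induction l with
  | nil => exact hσ
  | cons q l ih =>
    obtain ⟨y, y', β⟩ := q
    have h1 := hl _ List.mem_cons_self
    simp only at h1
    have h2 := ih fun r hr => hl r (List.mem_cons_of_mem _ hr)
    simp only [doe_path]
    split_ifs
    · exact pr_PP (by omega) (by omega) (by omega) (pr_PP (by omega) (by omega) (by omega) h2)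
    · refine rel_PP ?_ h2
      intro x
      have h3 : ∀ (a c : ℕ), a < N → c < N → ∀ z, Equiv.swap a c z < N ↔ z < N := by
        intro a c ha hc z
        rw [Equiv.swap_apply_def]
        split_ifs <;> omega
      rw [gs, Equiv.Perm.mul_apply, h3 0 y (by omega) (by omega), h3 1 y' (by omega) (by omega)]

theorem doe_ext {N a c : ℕ} {σ τ : St} (hσ : σ ∈ PP N) (hτ : τ ∈ PP N) (ha : a < N)
    (h : ∀ x, x ≠ a → x ≠ c → ∀ z, σ x z ↔ τ x z) : σ = τ := by
  have key : ∀ {σ τ : St}, σ ∈ PP N → τ ∈ PP N → (∀ x, x ≠ a → x ≠ c → ∀ z, σ x z ↔ τ x z) →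
      (σ a c → τ a c) := by
    intro σ τ hσ hτ h h1
    by_contra h2
    obtain ⟨y, hy, hya, hyb⟩ := hτ.1 a ha
    have h3 : τ a y := (hyb y).2 (Or.inr rfl)
    have h4 : y ≠ c := by rintro rfl; exact h2 h3
    have h5 : σ y a := (h y hya h4 a).2 (τ.symm h3)
    obtain ⟨w, _, hwa, hwb⟩ := hσ.1 a ha
    have h6 := (hwb y).1 (σ.symm h5)
    have h7 := (hwb c).1 h1
    rcases h6 with h6 | h6
    · exact hya h6
    · rcases h7 with h7 | h7
      · subst h7
        exact h2 (τ.refl _)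
      · exact h4 (by rw [h6, h7])
  have hac : σ a c ↔ τ a c := ⟨key hσ hτ h, key hτ hσ fun x h1 h2 z => (h x h1 h2 z).symm⟩
  apply Setoid.ext
  intro x z
  by_cases hx : x = a ∨ x = c
  · by_cases hz : z = a ∨ z = c
    · rcases hx with rfl | rfl <;> rcases hz with rfl | rfl
      · exact ⟨fun _ => τ.refl _, fun _ => σ.refl _⟩
      · exact hac
      · exact ⟨fun h => τ.symm (hac.1 (σ.symm h)), fun h => σ.symm (hac.2 (τ.symm h))⟩
      · exact ⟨fun _ => τ.refl _, fun _ => σ.refl _⟩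
    · push Not at hz
      exact ⟨fun h1 => τ.symm ((h z hz.1 hz.2 x).1 (σ.symm h1)),
        fun h1 => σ.symm ((h z hz.1 hz.2 x).2 (τ.symm h1))⟩
  · push Not at hx
    exact h x hx.1 hx.2 z

theorem doe_cl_eq {m : ℕ} (hm : m % 2 = 0) {σ τ : St} (h : doe_Ag m 0 σ τ) : doe_cl σ = doe_cl τ := by
  unfold doe_cl
  congr 1
  have key : ∀ ρ : St, (∀ x, 4 ≤ x → ∀ z, ρ x z → 4 ≤ z) →
      (∀ x, 4 ≤ x → ∀ z, (pr 0 3 (pr 1 2 ρ)) x z ↔ ρ x z) ∧
      (∀ z, (pr 0 3 (pr 1 2 ρ)) 0 z ↔ (z = 0 ∨ z = 3)) ∧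
      (∀ z, (pr 0 3 (pr 1 2 ρ)) 3 z ↔ (z = 0 ∨ z = 3)) ∧
      (∀ z, (pr 0 3 (pr 1 2 ρ)) 1 z ↔ (z = 1 ∨ z = 2)) ∧
      (∀ z, (pr 0 3 (pr 1 2 ρ)) 2 z ↔ (z = 1 ∨ z = 2)) := by
    intro ρ hρ
    refine ⟨?_, fun z => doe_pr_self _ z, fun z => doe_pr_self' _ z, ?_, ?_⟩
    · intro x hx z
      have n1 : ¬ ρ x 1 := fun h1 => by have := hρ x hx 1 h1; omega
      have n2 : ¬ ρ x 2 := fun h1 => by have := hρ x hx _ h1; omega
      have n3 : ¬ ρ x 0 := fun h1 => by have := hρ x hx 0 h1; omega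
      have n4 : ¬ ρ x 3 := fun h1 => by have := hρ x hx _ h1; omega
      rw [doe_pr_far, doe_pr_far n1 n2]
      · rwa [doe_pr_far n1 n2]
      · rwa [doe_pr_far n1 n2]
    · intro z
      rw [doe_pr_far, doe_pr_self]
      · rw [doe_pr_self]; omega
      · rw [doe_pr_self]; omega
    · intro z
      rw [doe_pr_far, doe_pr_self']
      · rw [doe_pr_self']; omega
      · rw [doe_pr_self']; omega
  have hfar : ∀ x, 4 ≤ x → ∀ z, (σ x z ↔ τ x z) ∧ (σ x z → 4 ≤ z) := by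
    intro x hx z
    have h1 := h x (Or.inl (by omega)) z
    refine ⟨h1.1, fun h3 => ?_⟩
    rcases h1.2 h3 with h4 | h4
    · omega
    · omega
  obtain ⟨a1, a2, a3, a4, a5⟩ := key σ fun x hx z => (hfar x hx z).2
  obtain ⟨b1, b2, b3, b4, b5⟩ := key τ fun x hx z h1 => (hfar x hx z).2 ((hfar x hx z).1.2 h1)
  apply Setoid.ext
  intro x z
  have hc : 4 ≤ x ∨ x = 0 ∨ x = 3 ∨ x = 1 ∨ x = 2 := by omega
  rcases hc with hc | rfl | rfl | rfl | rfl
  · rw [a1 x hc, b1 x hc]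
    exact (hfar x hc z).1
  · rw [a2, b2]
  · rw [a3, b3]
  · rw [a4, b4]
  · rw [a5, b5]

theorem doe_fin_eq {L : ℕ} (b : ℕ → ℝ) {σ τ : St} (hσ : σ ∈ W L) (hτ : τ ∈ W L) :
    doe_cl (doe_path (lst L b) σ) = doe_cl (doe_path (lst L b) τ) := by
  have h := doe_agree b hσ.1.1 hτ.1.1 L 0 (by omega)
  rw [← doe_lst] at h
  by_cases hL : L % 2 = 0
  · exact doe_cl_eq hL h
  · have hl : ∀ q ∈ lst L b, 2 ≤ q.1 ∧ q.1 < 2 * L + 4 ∧ 2 ≤ q.2.1 ∧ q.2.1 < 2 * L + 4 := by
      intro q hq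
      rw [lst, List.mem_map] at hq
      obtain ⟨i, hi, rfl⟩ := hq
      rw [List.mem_range] at hi
      refine ⟨?_, ?_, ?_, ?_⟩ <;> simp only <;> omega
    have h1 := doe_path_PP (by omega) hl hσ.1.1
    have h2 := doe_path_PP (by omega) hl hτ.1.1
    have h3 : doe_path (lst L b) σ = doe_path (lst L b) τ := by
      refine doe_ext (a := 2) (c := 3) h1 h2 (by omega) ?_
      intro x hx hx' z
      have h4 : doe_A L 0 x := by
        unfold doe_A
        omega
      exact (h x h4 z).1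
    rw [h3]

/-- Doeblin's constant -/
noncomputable def doe_dl (L : ℕ) (b : ℕ → ℝ) : ℝ := (nrm L b)⁻¹ * doe_w (lst L b)

theorem doe_dl_pos (L : ℕ) {b : ℕ → ℝ} (hb : b ∈ Cube) : 0 < doe_dl L b :=
  mul_pos (inv_pos.mpr (nrm_pos L hb)) (doe_w_pos (doe_ok_lst L hb))

theorem doe_T_ge (L : ℕ) {b : ℕ → ℝ} (hb : b ∈ Cube) {σ : St} (hσ : σ ∈ W L) :
    doe_Nng (T L b (Finsupp.single σ 1) - Finsupp.single (doe_D L b) (doe_dl L b)) := by
  have h0 := doe_row_ge (doe_ok_lst L hb) σ zero_le_one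
  rw [mul_one] at h0
  have h1 := doe_NN_map (rel (Equiv.swap 2 3)) (doe_NN_map (pr 0 3) (doe_NN_map (pr 1 2) h0))
  have h2 := h1.smul (inv_nonneg.mpr (nrm_pos L hb).le)
  convert h2 using 1
  show (nrm L b)⁻¹ • Tt L b (Finsupp.single σ 1) - _ = (nrm L b)⁻¹ •
    (Rel (Equiv.swap 2 3) (Pr 0 3 (Pr 1 2 (_ - _))))
  rw [doe_Tt_apply, map_sub, map_sub, map_sub, smul_sub, Pr_single, Pr_single, Rel_single,
    Finsupp.smul_single, smul_eq_mul]
  rw [doe_D, doe_dl, ← doe_fin_eq b hσ (top_W L)]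
  rfl

/-! ### expansion in the finite set `W L` -/

/-- the finite set of states -/
noncomputable def doe_WF (L : ℕ) : Finset St := (W_finite L).toFinset

theorem doe_mem_WF {L : ℕ} {σ : St} : σ ∈ doe_WF L ↔ σ ∈ W L := by simp [doe_WF]

theorem doe_expand {L : ℕ} {v : M} (hv : v ∈ Sup (W L)) :
    v = ∑ τ ∈ doe_WF L, v τ • (Finsupp.single τ (1 : ℝ) : M) := by
  classical
  ext σ
  rw [Finsupp.finsetSum_apply]
  simp only [Finsupp.smul_apply, Finsupp.single_apply, smul_eq_mul, mul_ite, mul_one, mul_zero]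
  rw [Finset.sum_ite_eq']
  split_ifs with h
  · rfl
  · have : σ ∉ W L := fun h' => h (doe_mem_WF.mpr h')
    by_contra hne
    exact this (hv (by simpa using hne))

theorem doe_Sup_zero {A : Set St} {v : M} (hv : v ∈ Sup A) {σ : St} (h : σ ∉ A) : v σ = 0 := by
  by_contra hne
  exact h (hv (by simpa using hne))

theorem doe_tot_eq {L : ℕ} {v : M} (hv : v ∈ Sup (W L)) : tot v = ∑ τ ∈ doe_WF L, v τ := by
  conv_lhs => rw [doe_expand hv]
  rw [map_sum]
  refine Finset.sum_congr rfl fun τ _ => ?_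
  rw [map_smul, tot_single, smul_eq_mul, mul_one]

/-- l1 norm on `Sup (W L)` -/
noncomputable def doe_nm (L : ℕ) (v : M) : ℝ := ∑ τ ∈ doe_WF L, |v τ|

theorem doe_nm_nonneg (L : ℕ) (v : M) : 0 ≤ doe_nm L v := Finset.sum_nonneg fun _ _ => abs_nonneg _

theorem doe_abs_le_nm {L : ℕ} {v : M} (hv : v ∈ Sup (W L)) (σ : St) : |v σ| ≤ doe_nm L v := by
  by_cases h : σ ∈ W L
  · exact Finset.single_le_sum (f := fun τ => |v τ|) (fun _ _ => abs_nonneg _) (doe_mem_WF.mpr h)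
  · rw [doe_Sup_zero hv h, abs_zero]; exact doe_nm_nonneg L v

theorem doe_single_Sup {A : Set St} {σ : St} (h : σ ∈ A) (c : ℝ) : Finsupp.single σ c ∈ Sup A :=
  Finsupp.single_mem_supported ℝ c h

theorem doe_D_W (L : ℕ) {b : ℕ → ℝ} (hb : b ∈ Cube) : doe_D L b ∈ W L := by
  by_contra h
  have h1 := doe_T_ge L hb (top_W L) (doe_D L b)
  rw [Finsupp.sub_apply, Finsupp.single_eq_same,
    doe_Sup_zero (doe_T_Sup L b (doe_single_Sup (top_W L) 1)) h] at h1
  have := doe_dl_pos L hb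
  linarith

/-- the contraction -/
theorem doe_nm_T (L : ℕ) {b : ℕ → ℝ} (hb : b ∈ Cube) {v : M} (hv : v ∈ Sup (W L)) (h0 : tot v = 0) :
    doe_nm L (T L b v) ≤ (1 - doe_dl L b) * doe_nm L v := by
  classical
  set q : St → M := fun τ => T L b (Finsupp.single τ 1) - Finsupp.single (doe_D L b) (doe_dl L b)
    with hq
  have hqS : ∀ τ ∈ doe_WF L, q τ ∈ Sup (W L) := fun τ hτ =>
    Submodule.sub_mem _ (doe_T_Sup L b (doe_single_Sup (doe_mem_WF.mp hτ) 1))
      (doe_single_Sup (doe_D_W L hb) _)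
  have hqt : ∀ τ ∈ doe_WF L, ∑ σ ∈ doe_WF L, q τ σ = 1 - doe_dl L b := by
    intro τ hτ
    rw [← doe_tot_eq (hqS τ hτ)]
    simp only [hq, map_sub, tot_T L hb, tot_single]
  have hTv : T L b v = ∑ τ ∈ doe_WF L, v τ • q τ := by
    have h1 : T L b v = ∑ τ ∈ doe_WF L, v τ • T L b (Finsupp.single τ 1) := by
      conv_lhs => rw [doe_expand hv]
      rw [map_sum]
      exact Finset.sum_congr rfl fun τ _ => map_smul _ _ _
    have h2 : ∑ τ ∈ doe_WF L, v τ • q τ = ∑ τ ∈ doe_WF L, v τ • T L b (Finsupp.single τ 1) -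
        (∑ τ ∈ doe_WF L, v τ) • Finsupp.single (doe_D L b) (doe_dl L b) := by
      rw [Finset.sum_smul, ← Finset.sum_sub_distrib]
      exact Finset.sum_congr rfl fun τ _ => smul_sub _ _ _
    rw [h1, h2, ← doe_tot_eq hv, h0, zero_smul, sub_zero]
  rw [doe_nm, doe_nm, hTv]
  calc ∑ σ ∈ doe_WF L, |(∑ τ ∈ doe_WF L, v τ • q τ) σ|
      ≤ ∑ σ ∈ doe_WF L, ∑ τ ∈ doe_WF L, |v τ| * q τ σ := by
        refine Finset.sum_le_sum fun σ _ => ?_
        rw [Finsupp.finsetSum_apply]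
        refine (Finset.abs_sum_le_sum_abs _ _).trans (Finset.sum_le_sum fun τ hτ => ?_)
        rw [Finsupp.smul_apply, smul_eq_mul, abs_mul,
          abs_of_nonneg (doe_T_ge L hb (doe_mem_WF.mp hτ) σ)]
    _ = ∑ τ ∈ doe_WF L, |v τ| * (1 - doe_dl L b) := by
        rw [Finset.sum_comm]
        refine Finset.sum_congr rfl fun τ hτ => ?_
        rw [← Finset.mul_sum, hqt τ hτ]
    _ = (1 - doe_dl L b) * ∑ τ ∈ doe_WF L, |v τ| := by
        rw [← Finset.sum_mul, mul_comm]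

theorem doe_dl_le (L : ℕ) {b : ℕ → ℝ} (hb : b ∈ Cube) : doe_dl L b ≤ 1 := by
  classical
  have h := doe_T_ge L hb (top_W L)
  have h1 : tot (T L b (Finsupp.single (top L) 1) - Finsupp.single (doe_D L b) (doe_dl L b)) =
      1 - doe_dl L b := by
    simp only [map_sub, tot_T L hb, tot_single]
  have h2 : (T L b (Finsupp.single (top L) 1) - Finsupp.single (doe_D L b) (doe_dl L b)) ∈
      Sup (W L) :=
    Submodule.sub_mem _ (doe_T_Sup L b (doe_single_Sup (top_W L) 1))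
      (doe_single_Sup (doe_D_W L hb) _)
  rw [doe_tot_eq h2] at h1
  have h3 := Finset.sum_nonneg (s := doe_WF L) fun τ _ => h τ
  linarith

theorem doe_pow_T_Sup (L : ℕ) (b : ℕ → ℝ) {v : M} (hv : v ∈ Sup (W L)) (N : ℕ) :
    ((T L b) ^ N) v ∈ Sup (W L) := by
  induction N with
  | zero => simpa using hv
  | succ N ih => rw [pow_succ', Module.End.mul_apply]; exact doe_T_Sup L b ih

theorem doe_tot_pow_T (L : ℕ) {b : ℕ → ℝ} (hb : b ∈ Cube) (v : M) (N : ℕ) :
    tot (((T L b) ^ N) v) = tot v := by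
  induction N with
  | zero => simp
  | succ N ih => rw [pow_succ', Module.End.mul_apply, tot_T L hb, ih]

theorem doe_nm_pow_T (L : ℕ) {b : ℕ → ℝ} (hb : b ∈ Cube) {v : M} (hv : v ∈ Sup (W L))
    (h0 : tot v = 0) (N : ℕ) : doe_nm L (((T L b) ^ N) v) ≤ (1 - doe_dl L b) ^ N * doe_nm L v := by
  induction N with
  | zero => simp
  | succ N ih =>
    rw [pow_succ', Module.End.mul_apply]
    refine (doe_nm_T L hb (doe_pow_T_Sup L b hv N) (by rw [doe_tot_pow_T L hb, h0])).trans ?_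
    rw [pow_succ', mul_assoc]
    exact mul_le_mul_of_nonneg_left ih (by linarith [doe_dl_le L hb])

theorem doe_tendsto_zero (L : ℕ) {b : ℕ → ℝ} (hb : b ∈ Cube) {v : M} (hv : v ∈ Sup (W L))
    (h0 : tot v = 0) (σ : St) : Tendsto (fun N : ℕ => ((T L b) ^ N) v σ) atTop (𝓝 0) := by
  have h1 : Tendsto (fun N : ℕ => (1 - doe_dl L b) ^ N * doe_nm L v) atTop (𝓝 0) := by
    have := (tendsto_pow_atTop_nhds_zero_of_lt_one (r := 1 - doe_dl L b)
      (by linarith [doe_dl_le L hb]) (by linarith [doe_dl_pos L hb])).mul_const (doe_nm L v)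
    simpa using this
  refine squeeze_zero_norm (fun N => ?_) h1
  rw [Real.norm_eq_abs]
  exact (doe_abs_le_nm (doe_pow_T_Sup L b hv N) σ).trans (doe_nm_pow_T L hb hv h0 N)

theorem doe_fixed_zero (L : ℕ) {b : ℕ → ℝ} (hb : b ∈ Cube) {v : M} (hv : v ∈ Sup (W L))
    (h0 : tot v = 0) (h : T L b v = v) : v = 0 := by
  have hp : ∀ N : ℕ, ((T L b) ^ N) v = v := by
    intro N
    induction N with
    | zero => simp
    | succ N ih => rw [pow_succ', Module.End.mul_apply, ih, h]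
  ext σ
  have h1 := doe_tendsto_zero L hb hv h0 σ
  simp only [hp] at h1
  exact tendsto_nhds_unique tendsto_const_nhds h1

theorem doe_exists_fixed (L : ℕ) {b : ℕ → ℝ} (hb : b ∈ Cube) :
    ∃ v : M, v ∈ Sup (W L) ∧ T L b v = v ∧ tot v = 1 := by
  classical
  have : Finite (W L) := (W_finite L).to_subtype
  have : Module.Finite ℝ (Sup (W L)) :=
    Module.Finite.equiv (Finsupp.supportedEquivFinsupp (R := ℝ) (M := ℝ) (W L)).symm
  let A : Sup (W L) →ₗ[ℝ] Sup (W L) :=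
    ((T L b) - LinearMap.id).restrict (p := Sup (W L)) (q := Sup (W L))
      (fun v hv => Submodule.sub_mem _ (doe_T_Sup L b hv) hv)
  have hns : ¬ Function.Surjective A := by
    intro hs
    obtain ⟨w, hw⟩ := hs ⟨Finsupp.single (top L) 1, doe_single_Sup (top_W L) 1⟩
    have h1 : (A w : M) = Finsupp.single (top L) 1 := by rw [hw]
    have h2 : tot (A w : M) = 0 := by
      change tot (T L b (w : M) - (w : M)) = 0
      rw [map_sub, tot_T L hb, sub_self]
    rw [h1, tot_single] at h2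
    exact one_ne_zero h2
  have hni : ¬ Function.Injective A := by
    intro h
    have h2 : Function.Surjective A := by
      have h3 := @LinearMap.surjective_of_injective ℝ (Sup (W L)) _ _ _ _ A h
      exact h3
    exact hns h2
  have hex : ∃ w, A w = 0 ∧ w ≠ 0 := by
    by_contra hcon
    push Not at hcon
    apply hni
    intro x y hxy
    have h0 : A (x - y) = 0 := by
      apply Subtype.ext
      have h5 : (A x : M) = (A y : M) := by rw [hxy]
      have h6 : T L b (x : M) - (x : M) = T L b (y : M) - (y : M) := h5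
      change T L b ((x : M) - (y : M)) - ((x : M) - (y : M)) = 0
      rw [map_sub, sub_sub_sub_comm, h6, sub_self]
    exact sub_eq_zero.mp (hcon _ h0)
  obtain ⟨w, hw, hw0⟩ := hex
  have hfix : T L b (w : M) = w := by
    have h1 : (A w : M) = 0 := by rw [hw]; rfl
    have h2 : T L b (w : M) - (w : M) = 0 := h1
    exact sub_eq_zero.mp h2
  have ht : tot (w : M) ≠ 0 := fun h0 => hw0 (Subtype.ext (doe_fixed_zero L hb w.2 h0 hfix))
  refine ⟨(tot (w : M))⁻¹ • (w : M), Submodule.smul_mem _ _ w.2, ?_, ?_⟩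
  · rw [map_smul, hfix]
  · rw [map_smul, smul_eq_mul, inv_mul_cancel₀ ht]

theorem doe_pow_T_NC (L : ℕ) (b : ℕ → ℝ) {v : M} (hv : v ∈ Sup (W L ∩ NC L)) (N : ℕ) :
    ((T L b) ^ N) v ∈ Sup (W L ∩ NC L) := by
  induction N with
  | zero => simpa using hv
  | succ N ih =>
    rw [pow_succ', Module.End.mul_apply]
    exact Submodule.smul_mem _ _ (Tt_NCSup L b ih)

theorem doe_pow_T_NN (L : ℕ) {b : ℕ → ℝ} (hb : b ∈ Cube) {v : M} (hv : doe_Nng v) (N : ℕ) :
    doe_Nng (((T L b) ^ N) v) := by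
  induction N with
  | zero => simpa using hv
  | succ N ih => rw [pow_succ', Module.End.mul_apply]; exact doe_NN_T L hb ih

theorem stat_exists (L : ℕ) {b : ℕ → ℝ} (hb : b ∈ Cube) :
    ∃ p : M, p ∈ Sup (W L ∩ NC L) ∧ (∀ σ, 0 ≤ p σ) ∧ tot p = 1 ∧ T L b p = p ∧
      (∀ v ∈ Sup (W L), T L b v = v → v = tot v • p) ∧
      (∀ v ∈ Sup (W L), ∀ σ, Tendsto (fun N : ℕ => ((T L b) ^ N) v σ) atTop (𝓝 (tot v * p σ))) := by
  obtain ⟨p, hpS, hpf, hpt⟩ := doe_exists_fixed L hb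
  have hp : ∀ N : ℕ, ((T L b) ^ N) p = p := by
    intro N
    induction N with
    | zero => simp
    | succ N ih => rw [pow_succ', Module.End.mul_apply, ih, hpf]
  have hconv : ∀ v ∈ Sup (W L), ∀ σ,
      Tendsto (fun N : ℕ => ((T L b) ^ N) v σ) atTop (𝓝 (tot v * p σ)) := by
    intro v hv σ
    have hw : v - tot v • p ∈ Sup (W L) := Submodule.sub_mem _ hv (Submodule.smul_mem _ _ hpS)
    have hw0 : tot (v - tot v • p) = 0 := by
      rw [map_sub, map_smul, hpt, smul_eq_mul, mul_one, sub_self]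
    have h1 := (doe_tendsto_zero L hb hw hw0 σ).add_const (tot v * p σ)
    rw [zero_add] at h1
    refine h1.congr fun N => ?_
    rw [map_sub, map_smul, hp, Finsupp.sub_apply, Finsupp.smul_apply, smul_eq_mul]
    ring
  have hbot := fun σ => hconv (Finsupp.single (top L) 1) (doe_single_Sup (top_W L) 1) σ
  simp only [tot_single, one_mul] at hbot
  refine ⟨p, ?_, ?_, hpt, hpf, ?_, hconv⟩
  · intro σ hσ
    by_contra hn
    have h1 : ∀ N : ℕ, ((T L b) ^ N) (Finsupp.single (top L) 1) σ = 0 := fun N =>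
      doe_Sup_zero (doe_pow_T_NC L b (doe_single_Sup (show top L ∈ W L ∩ NC L from
        ⟨top_W L, top_NC L⟩) 1) N) hn
    have h2 := hbot σ
    simp only [h1] at h2
    have h3 : p σ = 0 := (tendsto_nhds_unique tendsto_const_nhds h2).symm
    rw [Finset.mem_coe, Finsupp.mem_support_iff] at hσ
    exact hσ h3
  · intro σ
    exact ge_of_tendsto' (hbot σ) fun N => doe_pow_T_NN L hb (doe_NN_single _ zero_le_one) N σ
  · intro v hv hvf
    have hw : v - tot v • p ∈ Sup (W L) := Submodule.sub_mem _ hv (Submodule.smul_mem _ _ hpS)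
    have hw0 : tot (v - tot v • p) = 0 := by
      rw [map_sub, map_smul, hpt, smul_eq_mul, mul_one, sub_self]
    have := doe_fixed_zero L hb hw hw0 (by rw [map_sub, map_smul, hvf, hpf])
    exact sub_eq_zero.mp this

open Classical in
/-- the stationary vector -/
noncomputable def P (L : ℕ) (b : ℕ → ℝ) : M :=
  if hb : b ∈ Cube then (stat_exists L hb).choose else 0

theorem doe_P_spec (L : ℕ) {b : ℕ → ℝ} (hb : b ∈ Cube) :
    P L b ∈ Sup (W L ∩ NC L) ∧ (∀ σ, 0 ≤ P L b σ) ∧ tot (P L b) = 1 ∧ T L b (P L b) = P L b ∧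
      (∀ v ∈ Sup (W L), T L b v = v → v = tot v • P L b) ∧
      (∀ v ∈ Sup (W L), ∀ σ,
        Tendsto (fun N : ℕ => ((T L b) ^ N) v σ) atTop (𝓝 (tot v * P L b σ))) := by
  have : P L b = (stat_exists L hb).choose := by simp only [P, dif_pos hb]
  rw [this]
  exact (stat_exists L hb).choose_spec

theorem P_NCSup (L : ℕ) (b : ℕ → ℝ) : P L b ∈ Sup (W L ∩ NC L) := by
  by_cases hb : b ∈ Cube
  · exact (doe_P_spec L hb).1
  · simp only [P, dif_neg hb]; exact Submodule.zero_mem _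

theorem P_Sup (L : ℕ) (b : ℕ → ℝ) : P L b ∈ Sup (W L) :=
  fun _ hσ => (P_NCSup L b hσ).1

theorem P_nonneg (L : ℕ) (b : ℕ → ℝ) (σ : St) : 0 ≤ P L b σ := by
  by_cases hb : b ∈ Cube
  · exact (doe_P_spec L hb).2.1 σ
  · simp only [P, dif_neg hb]; exact le_rfl

theorem tot_P (L : ℕ) {b : ℕ → ℝ} (hb : b ∈ Cube) : tot (P L b) = 1 := (doe_P_spec L hb).2.2.1

theorem doe_T_P (L : ℕ) {b : ℕ → ℝ} (hb : b ∈ Cube) : T L b (P L b) = P L b :=
  (doe_P_spec L hb).2.2.2.1

theorem doe_T_eq_iff (L : ℕ) {b : ℕ → ℝ} (hb : b ∈ Cube) (v w : M) :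
    T L b v = w ↔ Tt L b v = nrm L b • w := by
  have h := (nrm_pos L hb).ne'
  simp only [T, LinearMap.smul_apply]
  constructor
  · rintro rfl
    rw [smul_smul, mul_inv_cancel₀ h, one_smul]
  · intro h1
    rw [h1, smul_smul, inv_mul_cancel₀ h, one_smul]

theorem Tt_P (L : ℕ) {b : ℕ → ℝ} (hb : b ∈ Cube) : Tt L b (P L b) = nrm L b • P L b :=
  (doe_T_eq_iff L hb _ _).mp (doe_T_P L hb)

theorem P_unique (L : ℕ) {b : ℕ → ℝ} (hb : b ∈ Cube) {v : M} (hv : v ∈ Sup (W L))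
    (h : Tt L b v = nrm L b • v) : v = tot v • P L b :=
  (doe_P_spec L hb).2.2.2.2.1 v hv ((doe_T_eq_iff L hb _ _).mpr h)

theorem P_tendsto (L : ℕ) {b : ℕ → ℝ} (hb : b ∈ Cube) {v : M} (hv : v ∈ Sup (W L)) (σ : St) :
    Tendsto (fun N : ℕ => ((T L b) ^ N) v σ) atTop (𝓝 (tot v * P L b σ)) :=
  (doe_P_spec L hb).2.2.2.2.2 v hv σ

theorem doe_nrm_congr (L : ℕ) {b b' : ℕ → ℝ} (h : ∀ j < L, b j = b' j) : nrm L b = nrm L b' := by
  unfold nrm
  exact Finset.prod_congr rfl fun j hj => by rw [h j (Finset.mem_range.mp hj)]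

theorem P_congr (L : ℕ) {b b' : ℕ → ℝ} (hb : b ∈ Cube) (hb' : b' ∈ Cube)
    (h : ∀ j < L, b j = b' j) : P L b = P L b' := by
  have h1 : Tt L b' (P L b) = nrm L b' • P L b := by
    rw [← Tt_congr L h, ← doe_nrm_congr L h]
    exact Tt_P L hb
  have h2 := P_unique L hb' (P_Sup L b) h1
  rw [tot_P L hb, one_smul] at h2
  exact h2
end IPC
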