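import Pool.Agent.Helper64.IPC.Doeblin
/-! MODULE DOEBLINC: the stationary vector is continuous on the cube (compare `IP.DoeblinB`).
Idea: with `w = P L b' - P L b` one has `w = T L b w + (T L b' - T L b) (P L b')`, hence by the
contraction `doe_nm_T` the norm of `w` is at most `(doe_dl L b)⁻¹ ∑ nm ((T L b' - T L b) τ)`, and the
coefficients of `T L b` are continuous in `b`. -/
namespace IPC
open IP Finset Real Filter Topology

/-- the row of the strands `K, ..., K+m-1`, with a fixed operator applied afterwards -/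
theorem doec_row (m : ℕ) : ∀ (K : ℕ) (F : M →ₗ[ℝ] M) (v : M) (σ : St),
    Continuous (fun b : ℕ → ℝ => F (row (doe_lk b K m) v) σ) := by
  induction m with
  | zero =>
    intro K F v σ
    have h : (fun b : ℕ → ℝ => F (row (doe_lk b K 0) v) σ) = fun _ => F v σ := rfl
    rw [h]
    exact continuous_const
  | succ m ih =>
    intro K F v σ
    have h : (fun b : ℕ → ℝ => F (row (doe_lk b K (m + 1)) v) σ) = fun b : ℕ → ℝ =>
        s (-(b K + π / 6)) *
          (F ∘ₗ Rel (gs 0 (2 * K + 4) 1 (2 * K + 5))) (row (doe_lk b (K + 1) m) v) σ +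
        Real.sin (b K + π / 6) *
          (F ∘ₗ G 0 (2 * K + 4) 1 (2 * K + 5)) (row (doe_lk b (K + 1) m) v) σ := by
      funext b
      rw [doe_lk_succ]
      show F (Rh 0 (2 * K + 4) 1 (2 * K + 5) (b K + π / 6) (row (doe_lk b (K + 1) m) v)) σ = _
      rw [lin_Rh_apply, map_add, map_smul, map_smul, Finsupp.add_apply, Finsupp.smul_apply,
        Finsupp.smul_apply, smul_eq_mul, smul_eq_mul]
      rfl
    rw [h]
    have hb : Continuous (fun b : ℕ → ℝ => b K + π / 6) := (continuous_apply K).add_const _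
    have h1 : Continuous (fun b : ℕ → ℝ => s (-(b K + π / 6))) := by
      unfold s
      exact Real.continuous_sin.comp (continuous_const.add hb.neg)
    have h2 : Continuous (fun b : ℕ → ℝ => Real.sin (b K + π / 6)) := Real.continuous_sin.comp hb
    exact (h1.mul (ih _ _ v σ)).add (h2.mul (ih _ _ v σ))

theorem doec_Tt (L : ℕ) (v : M) (σ : St) : Continuous (fun b => Tt L b v σ) := by
  have h := doec_row L 0 (Rel (Equiv.swap 2 3) ∘ₗ G 0 3 1 2) v σ
  refine h.congr fun b => ?_
  rw [← doe_lst]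
  rfl

theorem doec_nrm (L : ℕ) : Continuous (nrm L) := by
  unfold nrm
  refine continuous_finsetProd _ fun j _ => ?_
  have hb : Continuous (fun b : ℕ → ℝ => b j + π / 6) := (continuous_apply j).add_const _
  unfold s
  exact Real.continuous_sin.comp (continuous_const.add hb)

theorem doec_T (L : ℕ) {b : ℕ → ℝ} (hb : b ∈ Cube) (v : M) (σ : St) :
    ContinuousAt (fun b => T L b v σ) b := by
  have h : (fun b => T L b v σ) = fun b => (nrm L b)⁻¹ * Tt L b v σ := by
    funext b
    simp only [T, LinearMap.smul_apply, Finsupp.smul_apply, smul_eq_mul]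
  rw [h]
  exact ((doec_nrm L).continuousAt.inv₀ (nrm_pos L hb).ne').mul (doec_Tt L v σ).continuousAt

theorem doec_P_le_one (L : ℕ) {b : ℕ → ℝ} (hb : b ∈ Cube) (τ : St) : P L b τ ≤ 1 := by
  by_cases h : τ ∈ W L
  · have h1 := doe_tot_eq (P_Sup L b)
    rw [tot_P L hb] at h1
    rw [h1]
    exact Finset.single_le_sum (f := fun τ => P L b τ) (fun σ _ => P_nonneg L b σ) (doe_mem_WF.mpr h)
  · rw [doe_Sup_zero (P_Sup L b) h]; exact zero_le_one

theorem doec_nm_add_le (L : ℕ) (v w : M) : doe_nm L (v + w) ≤ doe_nm L v + doe_nm L w := by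
  unfold doe_nm
  rw [← Finset.sum_add_distrib]
  exact Finset.sum_le_sum fun σ _ => by rw [Finsupp.add_apply]; exact abs_add_le _ _

/-- perturbation bound -/
theorem doec_P_sub_le (L : ℕ) {b b' : ℕ → ℝ} (hb : b ∈ Cube) (hb' : b' ∈ Cube) (σ : St) :
    |P L b' σ - P L b σ| ≤ (doe_dl L b)⁻¹ *
      ∑ τ ∈ doe_WF L, ∑ ρ ∈ doe_WF L,
        |T L b' (Finsupp.single τ 1) ρ - T L b (Finsupp.single τ 1) ρ| := by
  set w : M := P L b' - P L b with hw
  have hwS : w ∈ Sup (W L) := Submodule.sub_mem _ (P_Sup L b') (P_Sup L b)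
  have hw0 : tot w = 0 := by rw [hw, map_sub, tot_P L hb, tot_P L hb', sub_self]
  set e : M := T L b' (P L b') - T L b (P L b') with he
  have h1 : w = T L b w + e := by
    rw [hw, he, map_sub, doe_T_P L hb, doe_T_P L hb']
    abel
  have h2 : doe_nm L w ≤ (1 - doe_dl L b) * doe_nm L w + doe_nm L e := by
    calc doe_nm L w = doe_nm L (T L b w + e) := by rw [← h1]
      _ ≤ doe_nm L (T L b w) + doe_nm L e := doec_nm_add_le L _ _
      _ ≤ _ := by linarith [doe_nm_T L hb hwS hw0]
  have h3 : doe_nm L e ≤ ∑ τ ∈ doe_WF L, ∑ ρ ∈ doe_WF L,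
      |T L b' (Finsupp.single τ 1) ρ - T L b (Finsupp.single τ 1) ρ| := by
    have h4 : ∀ ρ, e ρ = ∑ τ ∈ doe_WF L, P L b' τ *
        (T L b' (Finsupp.single τ 1) ρ - T L b (Finsupp.single τ 1) ρ) := by
      intro ρ
      have h5 : e = ∑ τ ∈ doe_WF L, P L b' τ •
          (T L b' (Finsupp.single τ 1) - T L b (Finsupp.single τ 1)) := by
        rw [he]
        conv_lhs => rw [doe_expand (P_Sup L b')]
        rw [map_sum, map_sum, ← Finset.sum_sub_distrib]
        refine Finset.sum_congr rfl fun τ _ => ?_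
        rw [map_smul, map_smul, smul_sub]
      rw [h5, Finsupp.finsetSum_apply]
      refine Finset.sum_congr rfl fun τ _ => ?_
      rw [Finsupp.smul_apply, Finsupp.sub_apply, smul_eq_mul]
    unfold doe_nm
    rw [Finset.sum_comm]
    refine Finset.sum_le_sum fun ρ _ => ?_
    rw [h4]
    refine (Finset.abs_sum_le_sum_abs _ _).trans (Finset.sum_le_sum fun τ _ => ?_)
    rw [abs_mul, abs_of_nonneg (P_nonneg L b' τ)]
    exact mul_le_of_le_one_left (abs_nonneg _) (doec_P_le_one L hb' τ)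
  have h6 : doe_dl L b * doe_nm L w ≤ ∑ τ ∈ doe_WF L, ∑ ρ ∈ doe_WF L,
      |T L b' (Finsupp.single τ 1) ρ - T L b (Finsupp.single τ 1) ρ| := by linarith
  have h7 : |P L b' σ - P L b σ| ≤ doe_nm L w := by
    have := doe_abs_le_nm hwS σ
    rwa [hw, Finsupp.sub_apply, ← hw] at this
  refine h7.trans ?_
  have hd := doe_dl_pos L hb
  rw [inv_mul_eq_div, le_div_iff₀ hd]
  linarith

theorem P_continuousOn (L : ℕ) (σ : St) : ContinuousOn (fun b => P L b σ) Cube := by
  intro b hb
  have h1 : Tendsto (fun b' : ℕ → ℝ => (doe_dl L b)⁻¹ *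
      ∑ τ ∈ doe_WF L, ∑ ρ ∈ doe_WF L,
        |T L b' (Finsupp.single τ 1) ρ - T L b (Finsupp.single τ 1) ρ|) (𝓝 b) (𝓝 0) := by
    have h2 : ContinuousAt (fun b' : ℕ → ℝ => (doe_dl L b)⁻¹ *
      ∑ τ ∈ doe_WF L, ∑ ρ ∈ doe_WF L,
        |T L b' (Finsupp.single τ 1) ρ - T L b (Finsupp.single τ 1) ρ|) b := by
      refine ContinuousAt.mul continuousAt_const ?_
      refine tendsto_finsetSum _ fun τ _ => tendsto_finsetSum _ fun ρ _ => ?_
      exact ((doec_T L hb (Finsupp.single τ 1) ρ).sub continuousAt_const).abs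
    have h3 := h2.tendsto
    simpa using h3
  refine tendsto_iff_norm_sub_tendsto_zero.mpr ?_
  refine squeeze_zero' (Eventually.of_forall fun _ => norm_nonneg _) ?_
    (h1.mono_left nhdsWithin_le_nhds)
  filter_upwards [self_mem_nhdsWithin] with b' hb'
  rw [Real.norm_eq_abs]
  exact doec_P_sub_le L hb hb' σ
end IPC
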