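import Pool.Agent.Helper64.IPC.DoeblinC
/-! MODULE EXCH: exchange relations, rotation and reversal of the stationary vector, `phi`.
All from `P_unique` and `Tt_sw`, `Tt_rt`, `Tt_rv` (`G02`).  `phi` is symmetric: `top L` is never in the image
of `E_i`, `i + 1 < L` (`Es_ne_top`), so `s d * P L (sw i b) (top L) = s (-d) * P L b (top L)`, `d = b i - b (i+1)`,
and `f0` satisfies the same. -/
namespace IPC
open IP Finset Real

theorem sw_Cube {b : ℕ → ℝ} (i : ℕ) (hb : b ∈ Cube) : sw i b ∈ Cube := fun _ => hb _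
theorem comp_Cube {b : ℕ → ℝ} (e : ℕ → ℕ) (hb : b ∈ Cube) : (fun j => b (e j)) ∈ Cube := fun _ => hb _
theorem neg_Cube {b : ℕ → ℝ} (hb : b ∈ Cube) : (fun j => -b j) ∈ Cube := fun j => by
  rw [abs_neg]; exact hb j
theorem rb_Cube {b : ℕ → ℝ} (L : ℕ) (hb : b ∈ Cube) : rb L b ∈ Cube := fun j => by
  unfold rb; split_ifs <;> exact hb _
theorem vb_Cube {b : ℕ → ℝ} (L : ℕ) (hb : b ∈ Cube) : vb L b ∈ Cube := fun j => by
  unfold vb
  split_ifs
  · rw [abs_neg]; exact hb _
  · exact hb _

theorem exch_s_sub_pos {b : ℕ → ℝ} (hb : b ∈ Cube) (i j : ℕ) : 0 < s (b i - b j) := by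
  have h1 := abs_lt.1 (hb i)
  have h2 := abs_lt.1 (hb j)
  exact Real.sin_pos_of_pos_of_lt_pi (by linarith [h1.1, h2.2]) (by linarith [h1.2, h2.1, Real.pi_pos])

theorem P_sw {L i : ℕ} (h : i + 1 < L) {b : ℕ → ℝ} (hb : b ∈ Cube) :
    s (b i - b (i + 1)) • P L (sw i b) = Rs i (b i - b (i + 1)) (P L b) := by
  have h1 : Rs i (b i - b (i + 1)) (P L b) ∈ Sup (W L) := Rs_Sup h _ (P_Sup L b)
  have h2 : Tt L (sw i b) (Rs i (b i - b (i + 1)) (P L b)) =
      nrm L (sw i b) • Rs i (b i - b (i + 1)) (P L b) := by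
    rw [← Tt_sw h, Tt_P L hb, map_smul, nrm_sw h]
  have h3 := P_unique L (sw_Cube i hb) h1 h2
  unfold Rs at h3 ⊢
  rw [tot_Rc, tot_P L hb, mul_one] at h3
  exact h3.symm

theorem P_rb (L : ℕ) {b : ℕ → ℝ} (hb : b ∈ Cube) : P L (rb L b) = Rel (rtn L) (P L b) := by
  have h2 : Tt L (rb L b) (Rel (rtn L) (P L b)) = nrm L (rb L b) • Rel (rtn L) (P L b) := by
    rw [← Tt_rt L b (G02 (P_Sup L b)), Tt_P L hb, map_smul, nrm_rb]
  have h3 := P_unique L (rb_Cube L hb) (rt_Sup (P_Sup L b)) h2
  rw [tot_Rel, tot_P L hb, one_smul] at h3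
  exact h3.symm

theorem P_vb (L : ℕ) {b : ℕ → ℝ} (hb : b ∈ Cube) : P L (vb L b) = Rel (rvn L) (P L b) := by
  have h2 : Tt L (vb L b) (Rel (rvn L) (P L b)) = nrm L (vb L b) • Rel (rvn L) (P L b) := by
    rw [← Tt_rv L b (G02 (P_Sup L b)), Tt_P L hb, map_smul, nrm_vb]
  have h3 := P_unique L (vb_Cube L hb) (rv_Sup (P_Sup L b)) h2
  rw [tot_Rel, tot_P L hb, one_smul] at h3
  exact h3.symm

theorem f0_pos (L : ℕ) {b : ℕ → ℝ} (hb : b ∈ Cube) : 0 < f0 L b := by
  unfold f0
  exact prod_pos fun j _ => prod_pos fun i _ => exch_s_sub_pos hb i j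

theorem exch_f0_succ (L : ℕ) (b : ℕ → ℝ) :
    f0 (L + 1) b = f0 L b * ∏ i ∈ range L, s (b i - b L) := by
  unfold f0
  rw [prod_range_succ]

theorem exch_f0_congr (L : ℕ) {b b' : ℕ → ℝ} (h : ∀ j < L, b j = b' j) : f0 L b = f0 L b' := by
  unfold f0
  refine prod_congr rfl fun j hj => prod_congr rfl fun i hi => ?_
  rw [mem_range] at hi hj
  rw [h i (by omega), h j hj]

theorem exch_sw_left (i : ℕ) (b : ℕ → ℝ) : sw i b i = b (i + 1) := by
  unfold sw
  rw [Equiv.swap_apply_left]

theorem exch_sw_right (i : ℕ) (b : ℕ → ℝ) : sw i b (i + 1) = b i := by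
  unfold sw
  rw [Equiv.swap_apply_right]

theorem exch_sw_ne {i j : ℕ} (h1 : j ≠ i) (h2 : j ≠ i + 1) (b : ℕ → ℝ) : sw i b j = b j := by
  unfold sw
  rw [Equiv.swap_apply_of_ne_of_ne h1 h2]

theorem f0_sw {L i : ℕ} (h : i + 1 < L) (b : ℕ → ℝ) :
    s (b i - b (i + 1)) * f0 L (sw i b) = s (-(b i - b (i + 1))) * f0 L b := by
  induction L, h using Nat.le_induction with
  | base =>
    rw [exch_f0_succ, exch_f0_succ, exch_f0_succ, exch_f0_succ, prod_range_succ, prod_range_succ,
      exch_sw_left, exch_sw_right]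
    have h1 : f0 i (sw i b) = f0 i b :=
      exch_f0_congr i fun j hj => exch_sw_ne (by omega) (by omega) b
    have h2 : ∀ y : ℝ, ∏ x ∈ range i, s (sw i b x - y) = ∏ x ∈ range i, s (b x - y) := fun y =>
      prod_congr rfl fun j hj => by
        rw [mem_range] at hj
        rw [exch_sw_ne (by omega) (by omega) b]
    rw [h1, h2, h2, show b (i + 1) - b i = -(b i - b (i + 1)) by ring]
    ring
  | succ m hm ih =>
    have hm' : i + 1 < m := hm
    rw [exch_f0_succ, exch_f0_succ]
    have h1 : sw i b m = b m := exch_sw_ne (by omega) (by omega) b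
    have h2 : ∏ x ∈ range m, s (sw i b x - b m) = ∏ x ∈ range m, s (b x - b m) := by
      unfold sw
      refine Equiv.Perm.prod_comp (Equiv.swap i (i + 1)) (range m) (fun x => s (b x - b m)) ?_
      intro x hx
      rw [mem_coe, mem_range]
      by_contra hc
      exact hx (Equiv.swap_apply_of_ne_of_ne (by omega) (by omega))
    rw [h1, h2]
    linear_combination (∏ x ∈ range m, s (b x - b m)) * ih

theorem f0_vb (L : ℕ) (b : ℕ → ℝ) : f0 L (vb L b) = f0 L b := by
  unfold f0
  rw [prod_sigma', prod_sigma']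
  refine prod_nbij' (fun x => ⟨L - 1 - x.2, L - 1 - x.1⟩) (fun x => ⟨L - 1 - x.2, L - 1 - x.1⟩)
    ?_ ?_ ?_ ?_ ?_
  · rintro ⟨j, i⟩ hx
    simp only [mem_sigma, mem_range] at hx ⊢
    omega
  · rintro ⟨j, i⟩ hx
    simp only [mem_sigma, mem_range] at hx ⊢
    omega
  · rintro ⟨j, i⟩ hx
    simp only [mem_sigma, mem_range] at hx ⊢
    rw [show L - 1 - (L - 1 - j) = j by omega, show L - 1 - (L - 1 - i) = i by omega]
  · rintro ⟨j, i⟩ hx
    simp only [mem_sigma, mem_range] at hx ⊢
    rw [show L - 1 - (L - 1 - j) = j by omega, show L - 1 - (L - 1 - i) = i by omega]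
  · rintro ⟨j, i⟩ hx
    simp only [mem_sigma, mem_range] at hx ⊢
    unfold vb
    rw [if_pos (by omega : i < L), if_pos (by omega : j < L)]
    congr 1
    ring

/-- the top entry divided by `f0` -/
noncomputable def phi (L : ℕ) (b : ℕ → ℝ) : ℝ := P L b (top L) / f0 L b

theorem P_top (L : ℕ) {b : ℕ → ℝ} (hb : b ∈ Cube) : P L b (top L) = f0 L b * phi L b := by
  unfold phi
  rw [mul_div_cancel₀ _ (f0_pos L hb).ne']

theorem exch_Es_top {L i : ℕ} (h : i + 1 < L) (v : M) : Es i v (top L) = 0 := by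
  unfold Es G Pr
  rw [LinearMap.comp_apply, Finsupp.lmapDomain_apply, Finsupp.lmapDomain_apply,
    ← Finsupp.mapDomain_comp]
  refine Finsupp.mapDomain_of_notMem_range _ _ ?_
  rintro ⟨σ, hσ⟩
  exact Es_ne_top h σ hσ

theorem exch_Rs_apply (i : ℕ) (u : ℝ) (v : M) : Rs i u v = s (-u) • v + Real.sin u • Es i v := rfl

theorem phi_sw {L i : ℕ} (h : i + 1 < L) {b : ℕ → ℝ} (hb : b ∈ Cube) : phi L (sw i b) = phi L b := by
  have h1 := congrArg (fun v : M => v (top L)) (P_sw h hb)
  simp only [exch_Rs_apply, Finsupp.add_apply, Finsupp.smul_apply, smul_eq_mul] at h1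
  rw [exch_Es_top h, mul_zero, add_zero] at h1
  have h2 := f0_sw h b
  have h3 := f0_pos L hb
  have h4 := f0_pos L (sw_Cube i hb)
  have h5 := exch_s_sub_pos hb i (i + 1)
  unfold phi
  rw [div_eq_div_iff h4.ne' h3.ne']
  have h6 : s (b i - b (i + 1)) * (P L (sw i b) (top L) * f0 L b) =
      s (b i - b (i + 1)) * (P L b (top L) * f0 L (sw i b)) := by
    linear_combination f0 L b * h1 - P L b (top L) * h2
  exact mul_left_cancel₀ h5.ne' h6

theorem exch_phi_swap (L : ℕ) (m : ℕ) (hm : m < L) (r k : ℕ) (hk : k + (r + 1) = m) {b : ℕ → ℝ}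
    (hb : b ∈ Cube) : phi L (fun j => b (Equiv.swap k m j)) = phi L b := by
  induction r generalizing k b with
  | zero =>
    obtain rfl : m = k + 1 := by omega
    exact phi_sw hm hb
  | succ r ih =>
    have e : (fun j => b (Equiv.swap k m j)) =
        sw k (fun j => sw k b (Equiv.swap (k + 1) m j)) := by
      funext j
      unfold sw
      have h0 : Equiv.swap k (k + 1) * Equiv.swap (k + 1) m * Equiv.swap k (k + 1) =
          Equiv.swap k m := by
        have h1 := Equiv.mul_swap_eq_swap_mul (Equiv.swap k (k + 1)) (k + 1) m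
        rw [Equiv.swap_apply_right, Equiv.swap_apply_of_ne_of_ne (by omega) (by omega)] at h1
        rw [h1, mul_assoc, Equiv.swap_mul_self, mul_one]
      rw [← h0]
      rfl
    rw [e, phi_sw (by omega) (comp_Cube _ (sw_Cube _ hb)), ih (k + 1) (by omega) (sw_Cube _ hb),
      phi_sw (by omega) hb]

/-- `phi` is symmetric -/
theorem phi_perm (L : ℕ) (e : Equiv.Perm ℕ) (he : ∀ j, L ≤ j → e j = j) {b : ℕ → ℝ} (hb : b ∈ Cube) :
    phi L (fun j => b (e j)) = phi L b := by
  have key : ∀ m, m ≤ L → ∀ e : Equiv.Perm ℕ, (∀ j, m ≤ j → e j = j) → ∀ b : ℕ → ℝ, b ∈ Cube →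
      phi L (fun j => b (e j)) = phi L b := by
    intro m
    induction m with
    | zero =>
      intro _ e he b hb
      have : (fun j => b (e j)) = b := by
        funext j
        rw [he j (Nat.zero_le j)]
      rw [this]
    | succ m ih =>
      intro hm e he b hb
      have hkm : e m ≤ m := by
        by_contra hc
        have h1 := he (e m) (by omega)
        have h2 := e.injective h1
        omega
      rcases Nat.lt_or_ge (e m) m with hlt | hge
      · set e' : Equiv.Perm ℕ := Equiv.swap (e m) m * e with he'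
        have h1 : ∀ j, m ≤ j → e' j = j := by
          intro j hj
          rcases Nat.eq_or_lt_of_le hj with rfl | hj'
          · rw [he', Equiv.Perm.mul_apply, Equiv.swap_apply_left]
          · rw [he', Equiv.Perm.mul_apply, he j (by omega)]
            exact Equiv.swap_apply_of_ne_of_ne (by omega) (by omega)
        have h2 := ih (by omega) e' h1 (fun j => b (Equiv.swap (e m) m j)) (comp_Cube _ hb)
        have h3 : (fun j => b (Equiv.swap (e m) m (e' j))) = fun j => b (e j) := by
          funext j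
          rw [he', Equiv.Perm.mul_apply, Equiv.swap_apply_self]
        rw [h3] at h2
        rw [h2]
        exact exch_phi_swap L m (by omega) (m - e m - 1) (e m) (by omega) hb
      · refine ih (by omega) e (fun j hj => ?_) b hb
        rcases Nat.eq_or_lt_of_le hj with rfl | hj'
        · omega
        · exact he j hj'
  exact key L le_rfl e he b hb

theorem phi_congr (L : ℕ) {b b' : ℕ → ℝ} (hb : b ∈ Cube) (hb' : b' ∈ Cube)
    (h : ∀ j < L, b j = b' j) : phi L b = phi L b' := by
  unfold phi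
  rw [P_congr L hb hb' h, exch_f0_congr L h]

/-- the rotation as a permutation -/
def exch_rot (L : ℕ) : Equiv.Perm ℕ where
  toFun j := if j < L then (if j = 0 then L - 1 else j - 1) else j
  invFun j := if j < L then (if j = L - 1 then 0 else j + 1) else j
  left_inv j := by
    dsimp only
    split_ifs <;> omega
  right_inv j := by
    dsimp only
    by_cases h1 : j < L
    · by_cases h2 : j = L - 1
      · rw [if_pos h1, if_pos h2, if_pos (by omega), if_pos rfl]
        omega
      · rw [if_pos h1, if_neg h2, if_pos (by omega), if_neg (by omega)]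
        omega
    · rw [if_neg h1, if_neg h1]

/-- the reversal as a permutation -/
def exch_rev (L : ℕ) : Equiv.Perm ℕ where
  toFun j := if j < L then L - 1 - j else j
  invFun j := if j < L then L - 1 - j else j
  left_inv j := by
    dsimp only
    split_ifs <;> omega
  right_inv j := by
    dsimp only
    split_ifs <;> omega

theorem phi_rb (L : ℕ) {b : ℕ → ℝ} (hb : b ∈ Cube) : phi L (rb L b) = phi L b := by
  have e : rb L b = fun j => b (exch_rot L j) := by
    funext j
    show (if j < L then (if j = 0 then b (L - 1) else b (j - 1)) else b j) =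
      b (if j < L then (if j = 0 then L - 1 else j - 1) else j)
    split_ifs <;> rfl
  rw [e]
  refine phi_perm L (exch_rot L) (fun j hj => ?_) hb
  show (if j < L then (if j = 0 then L - 1 else j - 1) else j) = j
  rw [if_neg (by omega)]

theorem phi_vb (L : ℕ) {b : ℕ → ℝ} (hb : b ∈ Cube) : phi L (vb L b) = phi L b := by
  unfold phi
  rw [P_vb L hb, f0_vb]
  congr 1
  have h := Rel_apply (rvn L) (P L b) (top L)
  rw [rv_top] at h
  exact h

theorem phi_neg (L : ℕ) {b : ℕ → ℝ} (hb : b ∈ Cube) : phi L (fun j => -b j) = phi L b := by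
  have h1 : phi L (fun j => -b j) = phi L (vb L (fun j => b (exch_rev L j))) := by
    refine phi_congr L (neg_Cube hb) (vb_Cube L (comp_Cube _ hb)) fun j hj => ?_
    show -b j = if j < L then -b (exch_rev L (L - 1 - j)) else b (exch_rev L j)
    rw [if_pos hj]
    show -b j = -b (if L - 1 - j < L then L - 1 - (L - 1 - j) else L - 1 - j)
    rw [if_pos (by omega), show L - 1 - (L - 1 - j) = j by omega]
  rw [h1, phi_vb L (comp_Cube _ hb)]
  refine phi_perm L (exch_rev L) (fun j hj => ?_) hb
  show (if j < L then L - 1 - j else j) = j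
  rw [if_neg (by omega)]

theorem exch_s_continuous : Continuous s := by
  unfold s
  fun_prop

theorem exch_f0_continuous (L : ℕ) : Continuous (f0 L) := by
  unfold f0
  exact continuous_finsetProd _ fun j _ => continuous_finsetProd _ fun i _ =>
      exch_s_continuous.comp (by fun_prop)

theorem phi_continuousOn (L : ℕ) : ContinuousOn (phi L) Cube := by
  unfold phi
  exact (P_continuousOn L (top L)).div (exch_f0_continuous L).continuousOn
    fun b hb => (f0_pos L hb).ne'

/-- the divided difference operator -/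
theorem Es_P {L i : ℕ} (h : i + 1 < L) {b : ℕ → ℝ} (hb : b ∈ Cube) (l : M →ₗ[ℝ] ℝ) :
    Real.sin (b i - b (i + 1)) * l (Es i (P L b)) =
      s (b i - b (i + 1)) * l (P L (sw i b)) - s (-(b i - b (i + 1))) * l (P L b) := by
  have h1 := congrArg l (P_sw h hb)
  rw [exch_Rs_apply] at h1
  simp only [map_add, map_smul, smul_eq_mul] at h1
  linarith
end IPC
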