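import Pool.Agent.Helper64.IPC.BC
import Pool.Agent.Lead.IP.Lin
/-! MODULE LIN: linear maps, R-matrices, Yang-Baxter equation, crossing, sliding of arcs.
Trigonometric identities for `s x = sin (π/3 + x)`: `IP.s_zero_sub`, `IP.s_add_pi_third`, `IP.s_neg_sub`, ....
All relations of `G` follow from those of `Pr` because `Pr x y` and `Pr x' y'` commute (all nodes distinct). -/
namespace IPC
open IP Finset Real

theorem Pr_single (j k : ℕ) (σ : St) (c : ℝ) : Pr j k (Finsupp.single σ c) = Finsupp.single (pr j k σ) c := by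
  simp [Pr]
theorem Rel_single (e : Equiv.Perm ℕ) (σ : St) (c : ℝ) : Rel e (Finsupp.single σ c) = Finsupp.single (rel e σ) c := by
  simp [Rel]
theorem In_single (i : ℕ) (σ : St) (c : ℝ) : In i (Finsupp.single σ c) = Finsupp.single (ins i σ) c := by
  simp [In]
theorem Rel_apply (e : Equiv.Perm ℕ) (v : M) (σ : St) : Rel e v (rel e σ) = v σ := by
  unfold Rel
  rw [Finsupp.lmapDomain_apply]
  exact Finsupp.mapDomain_apply (fun _ _ h => rel_inj e h) v σ
theorem In_apply (i : ℕ) (v : M) (σ : St) : In i v (ins i σ) = v σ := by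
  unfold In
  rw [Finsupp.lmapDomain_apply]
  exact Finsupp.mapDomain_apply (fun _ _ h => ins_inj i h) v σ
theorem tot_Pr (j k : ℕ) (v : M) : tot (Pr j k v) = tot v := by
  induction v using Finsupp.induction_linear with
  | zero => simp
  | add a b ha hb => simp only [map_add, ha, hb]
  | single σ c => simp [Pr_single]
theorem tot_Rel (e : Equiv.Perm ℕ) (v : M) : tot (Rel e v) = tot v := by
  induction v using Finsupp.induction_linear with
  | zero => simp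
  | add a b ha hb => simp only [map_add, ha, hb]
  | single σ c => simp [Rel_single]
theorem tot_In (i : ℕ) (v : M) : tot (In i v) = tot v := by
  induction v using Finsupp.induction_linear with
  | zero => simp
  | add a b ha hb => simp only [map_add, ha, hb]
  | single σ c => simp [In_single]

theorem Rel_Rel (e f : Equiv.Perm ℕ) (v : M) : Rel e (Rel f v) = Rel (e * f) v := by
  induction v using Finsupp.induction_linear with
  | zero => simp
  | add a b ha hb => simp only [map_add, ha, hb]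
  | single σ c => simp [Rel_single, rel_rel]
theorem Rel_one (v : M) : Rel 1 v = v := by
  induction v using Finsupp.induction_linear with
  | zero => simp
  | add a b ha hb => simp only [map_add, ha, hb]
  | single σ c => simp [Rel_single, rel_one]
theorem Pr_comm (j k : ℕ) (v : M) : Pr j k v = Pr k j v := by
  induction v using Finsupp.induction_linear with
  | zero => simp
  | add a b ha hb => simp only [map_add, ha, hb]
  | single σ c => rw [Pr_single, Pr_single, pr_comm]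
theorem Pr_Pr (j k : ℕ) (v : M) : Pr j k (Pr j k v) = Pr j k v := by
  induction v using Finsupp.induction_linear with
  | zero => simp
  | add a b ha hb => simp only [map_add, ha, hb]
  | single σ c => simp [Pr_single, pr_pr]
theorem Pr_swap (j k : ℕ) (v : M) : Pr j k (Rel (Equiv.swap j k) v) = Pr j k v := by
  induction v using Finsupp.induction_linear with
  | zero => simp
  | add a b ha hb => simp only [map_add, ha, hb]
  | single σ c => simp [Pr_single, Rel_single, pr_swap]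
theorem swap_Pr (j k : ℕ) (v : M) : Rel (Equiv.swap j k) (Pr j k v) = Pr j k v := by
  induction v using Finsupp.induction_linear with
  | zero => simp
  | add a b ha hb => simp only [map_add, ha, hb]
  | single σ c => simp [Pr_single, Rel_single, swap_pr]
theorem Rel_Pr (e : Equiv.Perm ℕ) (j k : ℕ) (v : M) : Rel e (Pr j k v) = Pr (e j) (e k) (Rel e v) := by
  induction v using Finsupp.induction_linear with
  | zero => simp
  | add a b ha hb => simp only [map_add, ha, hb]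
  | single σ c => simp [Pr_single, Rel_single, rel_pr]
theorem Pr_adj {j k l : ℕ} (hjk : j ≠ k) (hkl : k ≠ l) (hjl : j ≠ l) (v : M) :
    Pr j k (Pr k l v) = Rel (Equiv.swap j l) (Pr k l v) := by
  induction v using Finsupp.induction_linear with
  | zero => simp
  | add a b ha hb => simp only [map_add, ha, hb]
  | single σ c => simp [Pr_single, Rel_single, pr_adj hjk hkl hjl]
theorem Pr_disj {j k l m : ℕ} (h1 : j ≠ l) (h2 : j ≠ m) (h3 : k ≠ l) (h4 : k ≠ m) (v : M) :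
    Pr j k (Pr l m v) = Pr l m (Pr j k v) := by
  induction v using Finsupp.induction_linear with
  | zero => simp
  | add a b ha hb => simp only [map_add, ha, hb]
  | single σ c => simp [Pr_single, pr_disj h1 h2 h3 h4]

/-- the four nodes `x, y, x', y'` are distinct -/
def D4 (x y x' y' : ℕ) : Prop := x ≠ y ∧ x ≠ x' ∧ x ≠ y' ∧ y ≠ x' ∧ y ≠ y' ∧ x' ≠ y'
/-- six distinct nodes -/
def D6 (x y z x' y' z' : ℕ) : Prop := [x, y, z, x', y', z'].Nodup
/-- the nodes of two quadruples are disjoint -/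
def Dj (x y x' y' z w z' w' : ℕ) : Prop := [x, y, x', y'].Disjoint [z, w, z', w']

theorem lin_G_apply (x y x' y' : ℕ) (v : M) : G x y x' y' v = Pr x y (Pr x' y' v) := rfl
theorem lin_Rc_apply (x y x' y' : ℕ) (u : ℝ) (v : M) :
    Rc x y x' y' u v = s (-u) • v + Real.sin u • G x y x' y' v := rfl
theorem lin_Rh_apply (x y x' y' : ℕ) (u : ℝ) (v : M) :
    Rh x y x' y' u v = s (-u) • Rel (gs x y x' y') v + Real.sin u • G x y x' y' v := rfl
theorem lin_gs_Rel (x y x' y' : ℕ) (v : M) :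
    Rel (gs x y x' y') v = Rel (Equiv.swap x y) (Rel (Equiv.swap x' y') v) := by
  rw [Rel_Rel, gs]
theorem lin_gs_flip {x y x' y' : ℕ} (h : D4 x y x' y') : gs x y x' y' = gs x' y' x y := by
  obtain ⟨h1, h2, h3, h4, h5, h6⟩ := h
  have hn : [x, y, x', y'].Nodup := by simp [h1, h2, h3, h4, h5, h6]
  exact (Equiv.Perm.disjoint_swap_swap hn).commute.eq
/-- a relabelling that fixes the two nodes -/
theorem lin_Rel_Pr_fix {e : Equiv.Perm ℕ} {j k : ℕ} (hj : e j = j) (hk : e k = k) (v : M) :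
    Rel e (Pr j k v) = Pr j k (Rel e v) := by
  rw [Rel_Pr, hj, hk]
theorem lin_D6 {x y z x' y' z' : ℕ} (h : D6 x y z x' y' z') :
    x ≠ y ∧ x ≠ z ∧ x ≠ x' ∧ x ≠ y' ∧ x ≠ z' ∧ y ≠ z ∧ y ≠ x' ∧ y ≠ y' ∧ y ≠ z' ∧
      z ≠ x' ∧ z ≠ y' ∧ z ≠ z' ∧ x' ≠ y' ∧ x' ≠ z' ∧ y' ≠ z' := by
  unfold D6 at h
  simp only [List.nodup_cons, List.mem_cons, List.not_mem_nil, or_false, not_or, List.nodup_nil,
    and_true, not_false_eq_true] at h
  tauto

theorem tot_G (x y x' y' : ℕ) (v : M) : tot (G x y x' y' v) = tot v := by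
  rw [lin_G_apply, tot_Pr, tot_Pr]
theorem tot_Rc (x y x' y' : ℕ) (u : ℝ) (v : M) : tot (Rc x y x' y' u v) = s u * tot v := by
  rw [lin_Rc_apply, map_add, map_smul, map_smul, tot_G, smul_eq_mul, smul_eq_mul, ← s_zero_sub u]
  ring
theorem tot_Rh (x y x' y' : ℕ) (u : ℝ) (v : M) : tot (Rh x y x' y' u v) = s u * tot v := by
  rw [lin_Rh_apply, map_add, map_smul, map_smul, tot_G, tot_Rel, smul_eq_mul, smul_eq_mul,
    ← s_zero_sub u]
  ring
theorem G_flip {x y x' y' : ℕ} (h : D4 x y x' y') (v : M) : G x y x' y' v = G x' y' x y v := by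
  obtain ⟨h1, h2, h3, h4, h5, h6⟩ := h
  rw [lin_G_apply, lin_G_apply, Pr_disj h2 h3 h4 h5]
theorem G_G {x y x' y' : ℕ} (h : D4 x y x' y') (v : M) : G x y x' y' (G x y x' y' v) = G x y x' y' v := by
  obtain ⟨h1, h2, h3, h4, h5, h6⟩ := h
  simp only [lin_G_apply]
  rw [← Pr_disj h2 h3 h4 h5 (Pr x' y' v), Pr_Pr, Pr_Pr]
theorem Rel_G (e : Equiv.Perm ℕ) (x y x' y' : ℕ) (v : M) :
    Rel e (G x y x' y' v) = G (e x) (e y) (e x') (e y') (Rel e v) := by
  simp only [lin_G_apply]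
  rw [Rel_Pr, Rel_Pr]
theorem G_adj {x y z x' y' z' : ℕ} (h : D6 x y z x' y' z') (v : M) :
    G x y x' y' (G y z y' z' v) = Rel (gs x z x' z') (G y z y' z' v) := by
  obtain ⟨h1, h2, h3, h4, h5, h6, h7, h8, h9, h10, h11, h12, h13, h14, h15⟩ := lin_D6 h
  rw [lin_gs_Rel]
  simp only [lin_G_apply]
  rw [Pr_disj h3 h4 h7 h8, Pr_adj h1 h6 h2,
    ← lin_Rel_Pr_fix (Equiv.swap_apply_of_ne_of_ne h3.symm h10.symm)
      (Equiv.swap_apply_of_ne_of_ne h4.symm h11.symm),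
    Pr_disj (Ne.symm h7) (Ne.symm h10) (Ne.symm h8) (Ne.symm h11), Pr_adj h13 h15 h14,
    ← lin_Rel_Pr_fix (Equiv.swap_apply_of_ne_of_ne h7 h9)
      (Equiv.swap_apply_of_ne_of_ne h10 h12)]
theorem gs_G {x y x' y' : ℕ} (h : D4 x y x' y') (v : M) : Rel (gs x y x' y') (G x y x' y' v) = G x y x' y' v := by
  obtain ⟨h1, h2, h3, h4, h5, h6⟩ := h
  rw [lin_gs_Rel]
  simp only [lin_G_apply]
  rw [lin_Rel_Pr_fix (Equiv.swap_apply_of_ne_of_ne h2 h3) (Equiv.swap_apply_of_ne_of_ne h4 h5),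
    swap_Pr, swap_Pr]
theorem G_gs {x y x' y' : ℕ} (h : D4 x y x' y') (v : M) : G x y x' y' (Rel (gs x y x' y') v) = G x y x' y' v := by
  obtain ⟨h1, h2, h3, h4, h5, h6⟩ := h
  rw [lin_gs_Rel]
  simp only [lin_G_apply]
  rw [← lin_Rel_Pr_fix (Equiv.swap_apply_of_ne_of_ne h2.symm h4.symm)
      (Equiv.swap_apply_of_ne_of_ne h3.symm h5.symm), Pr_swap, Pr_swap]
theorem lin_G_symm (x y x' y' : ℕ) (v : M) : G x y x' y' v = G y x y' x' v := by
  simp only [lin_G_apply]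
  rw [Pr_comm x y, Pr_comm x' y']
theorem lin_gs_symm (x y x' y' : ℕ) : gs x y x' y' = gs y x y' x' := by
  unfold gs
  rw [Equiv.swap_comm x y, Equiv.swap_comm x' y']
theorem lin_gs_gs {x y x' y' : ℕ} (h : D4 x y x' y') (v : M) :
    Rel (gs x y x' y') (Rel (gs x y x' y') v) = v := by
  rw [Rel_Rel]
  conv_lhs => rw [show gs x y x' y' * gs x y x' y' = gs x y x' y' * gs x' y' x y by
    rw [← lin_gs_flip h]]
  unfold gs
  rw [mul_assoc, ← mul_assoc (Equiv.swap x' y'), Equiv.swap_mul_self, one_mul, Equiv.swap_mul_self,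
    Rel_one]
theorem G_braid {x y z x' y' z' : ℕ} (h : D6 x y z x' y' z') (v : M) :
    G x y x' y' (G y z y' z' (G x y x' y' v)) = G x y x' y' v := by
  have h' : D6 z y x z' y' x' := by
    obtain ⟨h1, h2, h3, h4, h5, h6, h7, h8, h9, h10, h11, h12, h13, h14, h15⟩ := lin_D6 h
    unfold D6
    simp only [List.nodup_cons, List.mem_cons, List.not_mem_nil, or_false, not_or, List.nodup_nil,
      and_true, not_false_eq_true]
    refine ⟨⟨h6.symm, h2.symm, h12, h11, h10⟩, ⟨h1.symm, h9, h8, h7⟩, ⟨h5, h4, h3⟩,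
      ⟨h15.symm, h14.symm⟩, h13.symm⟩
  have h4 : D4 x z x' z' := by
    obtain ⟨h1, h2, h3, h4, h5, h6, h7, h8, h9, h10, h11, h12, h13, h14, h15⟩ := lin_D6 h
    exact ⟨h2, h3, h5, h10, h12, h14⟩
  rw [G_adj h, lin_G_symm y z y' z', lin_G_symm x y x' y', G_adj h', lin_gs_symm z x z' x',
    lin_gs_gs h4]

theorem Rh_eq {x y x' y' : ℕ} (h : D4 x y x' y') (u : ℝ) (v : M) :
    Rh x y x' y' u v = Rel (gs x y x' y') (Rc x y x' y' u v) := by
  rw [lin_Rh_apply, lin_Rc_apply, map_add, map_smul, map_smul, gs_G h]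
theorem Rh_flip {x y x' y' : ℕ} (h : D4 x y x' y') (u : ℝ) (v : M) : Rh x y x' y' u v = Rh x' y' x y u v := by
  rw [lin_Rh_apply, lin_Rh_apply, G_flip h, lin_gs_flip h]
theorem lin2_G_apply (x y x' y' : ℕ) (v : M) : G x y x' y' v = Pr x y (Pr x' y' v) := rfl
theorem lin2_Rc_apply (x y x' y' : ℕ) (u : ℝ) (v : M) :
    Rc x y x' y' u v = s (-u) • v + Real.sin u • G x y x' y' v := rfl
theorem lin2_Rh_apply (x y x' y' : ℕ) (u : ℝ) (v : M) :
    Rh x y x' y' u v = s (-u) • Rel (gs x y x' y') v + Real.sin u • G x y x' y' v := rfl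

theorem lin2_mul_gs (e : Equiv.Perm ℕ) (x y x' y' : ℕ) :
    e * gs x y x' y' = gs (e x) (e y) (e x') (e y') * e := by
  unfold gs
  rw [← mul_assoc, Equiv.mul_swap_eq_swap_mul e x y, mul_assoc, Equiv.mul_swap_eq_swap_mul e x' y', mul_assoc]

theorem Rel_Rc (e : Equiv.Perm ℕ) (x y x' y' : ℕ) (u : ℝ) (v : M) :
    Rel e (Rc x y x' y' u v) = Rc (e x) (e y) (e x') (e y') u (Rel e v) := by
  simp only [lin2_Rc_apply, map_add, map_smul, Rel_G]
theorem Rel_Rh (e : Equiv.Perm ℕ) (x y x' y' : ℕ) (u : ℝ) (v : M) :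
    Rel e (Rh x y x' y' u v) = Rh (e x) (e y) (e x') (e y') u (Rel e v) := by
  simp only [lin2_Rh_apply, map_add, map_smul, Rel_G, Rel_Rel, lin2_mul_gs]

/-- sixteen inequalities from `Dj` -/
theorem lin2_Dj {x y x' y' z w z' w' : ℕ} (h : Dj x y x' y' z w z' w') :
    (x ≠ z ∧ x ≠ w ∧ x ≠ z' ∧ x ≠ w') ∧ (y ≠ z ∧ y ≠ w ∧ y ≠ z' ∧ y ≠ w') ∧
      (x' ≠ z ∧ x' ≠ w ∧ x' ≠ z' ∧ x' ≠ w') ∧ (y' ≠ z ∧ y' ≠ w ∧ y' ≠ z' ∧ y' ≠ w') := by
  unfold Dj at h
  simp only [List.disjoint_cons_left, List.mem_cons, List.not_mem_nil, or_false, not_or,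
    List.disjoint_nil_left, and_true] at h
  exact h

theorem lin2_gs_of_ne {z w z' w' x : ℕ} (h : x ≠ z ∧ x ≠ w ∧ x ≠ z' ∧ x ≠ w') : gs z w z' w' x = x := by
  unfold gs
  rw [Equiv.Perm.mul_apply, Equiv.swap_apply_of_ne_of_ne h.2.2.1 h.2.2.2,
    Equiv.swap_apply_of_ne_of_ne h.1 h.2.1]

theorem lin2_G_gs {x y x' y' z w z' w' : ℕ} (h : Dj x y x' y' z w z' w') (v : M) :
    Rel (gs z w z' w') (G x y x' y' v) = G x y x' y' (Rel (gs z w z' w') v) := by
  have H := lin2_Dj h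
  rw [Rel_G, lin2_gs_of_ne H.1, lin2_gs_of_ne H.2.1, lin2_gs_of_ne H.2.2.1, lin2_gs_of_ne H.2.2.2]

theorem lin2_G_comm {x y x' y' z w z' w' : ℕ} (h : Dj x y x' y' z w z' w') (v : M) :
    G x y x' y' (G z w z' w' v) = G z w z' w' (G x y x' y' v) := by
  obtain ⟨⟨a1, a2, a3, a4⟩, ⟨b1, b2, b3, b4⟩, ⟨c1, c2, c3, c4⟩, ⟨d1, d2, d3, d4⟩⟩ := lin2_Dj h
  simp only [lin2_G_apply]
  rw [Pr_disj c1 c2 d1 d2, Pr_disj c3 c4 d3 d4, Pr_disj a1 a2 b1 b2, Pr_disj a3 a4 b3 b4]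

theorem lin2_gs_gs {x y x' y' z w z' w' : ℕ} (h : Dj x y x' y' z w z' w') (v : M) :
    Rel (gs z w z' w') (Rel (gs x y x' y') v) = Rel (gs x y x' y') (Rel (gs z w z' w') v) := by
  have H := lin2_Dj h
  rw [Rel_Rel, Rel_Rel, lin2_mul_gs, lin2_gs_of_ne H.1, lin2_gs_of_ne H.2.1, lin2_gs_of_ne H.2.2.1,
    lin2_gs_of_ne H.2.2.2]

theorem lin2_Dj_symm {x y x' y' z w z' w' : ℕ} (h : Dj x y x' y' z w z' w') : Dj z w z' w' x y x' y' := by
  unfold Dj at *
  exact h.symm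

theorem Rc_Rc {x y x' y' z w z' w' : ℕ} (h : Dj x y x' y' z w z' w') (u t : ℝ) (v : M) :
    Rc x y x' y' u (Rc z w z' w' t v) = Rc z w z' w' t (Rc x y x' y' u v) := by
  simp only [lin2_Rc_apply, map_add, map_smul, smul_add, smul_smul, lin2_G_comm h]
  module
theorem Rc_Rh {x y x' y' z w z' w' : ℕ} (h : Dj x y x' y' z w z' w') (u t : ℝ) (v : M) :
    Rc x y x' y' u (Rh z w z' w' t v) = Rh z w z' w' t (Rc x y x' y' u v) := by
  simp only [lin2_Rc_apply, lin2_Rh_apply, map_add, map_smul, smul_add, smul_smul, lin2_G_comm h,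
    lin2_G_gs h]
  module
theorem Rh_Rh {x y x' y' z w z' w' : ℕ} (h : Dj x y x' y' z w z' w') (u t : ℝ) (v : M) :
    Rh x y x' y' u (Rh z w z' w' t v) = Rh z w z' w' t (Rh x y x' y' u v) := by
  simp only [lin2_Rh_apply, map_add, map_smul, smul_add, smul_smul, lin2_G_comm h, lin2_G_gs h,
    lin2_gs_gs h, lin2_G_gs (lin2_Dj_symm h)]
  module
theorem G_Rh {x y x' y' z w z' w' : ℕ} (h : Dj x y x' y' z w z' w') (t : ℝ) (v : M) :
    G x y x' y' (Rh z w z' w' t v) = Rh z w z' w' t (G x y x' y' v) := by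
  simp only [lin2_Rh_apply, map_add, map_smul, lin2_G_comm h, lin2_G_gs h]
theorem G_Rc {x y x' y' z w z' w' : ℕ} (h : Dj x y x' y' z w z' w') (t : ℝ) (v : M) :
    G x y x' y' (Rc z w z' w' t v) = Rc z w z' w' t (G x y x' y' v) := by
  simp only [lin2_Rc_apply, map_add, map_smul, lin2_G_comm h]
/-- unitarity -/
theorem unitarity {x y x' y' : ℕ} (h : D4 x y x' y') (u : ℝ) (v : M) :
    Rc x y x' y' u (Rc x y x' y' (-u) v) = (s u * s (-u)) • v := by
  have hs := s_zero_sub u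
  simp only [lin2_Rc_apply, map_add, map_smul, smul_add, smul_smul, G_G h, Real.sin_neg, neg_neg]
  match_scalars
  · ring
  · linear_combination (Real.sin u) * hs

/-- all inequalities from `D6` -/
theorem lin2_D6 {x y z x' y' z' : ℕ} (h : D6 x y z x' y' z') :
    (x ≠ y ∧ x ≠ z ∧ x ≠ x' ∧ x ≠ y' ∧ x ≠ z') ∧ (y ≠ z ∧ y ≠ x' ∧ y ≠ y' ∧ y ≠ z') ∧
      (z ≠ x' ∧ z ≠ y' ∧ z ≠ z') ∧ (x' ≠ y' ∧ x' ≠ z') ∧ y' ≠ z' := by
  unfold D6 at h
  simp only [List.nodup_cons, List.mem_cons, List.not_mem_nil, or_false, not_or, List.nodup_nil,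
    not_false_eq_true, and_true] at h
  exact h

theorem lin2_D6_of {x y z x' y' z' : ℕ} (h : (x ≠ y ∧ x ≠ z ∧ x ≠ x' ∧ x ≠ y' ∧ x ≠ z') ∧
    (y ≠ z ∧ y ≠ x' ∧ y ≠ y' ∧ y ≠ z') ∧
      (z ≠ x' ∧ z ≠ y' ∧ z ≠ z') ∧ (x' ≠ y' ∧ x' ≠ z') ∧ y' ≠ z') : D6 x y z x' y' z' := by
  unfold D6
  simp only [List.nodup_cons, List.mem_cons, List.not_mem_nil, or_false, not_or, List.nodup_nil,
    not_false_eq_true, and_true]
  exact h

/-- `D6` is invariant under simultaneous permutations: reversal `(x, y, z) ↦ (z, y, x)` -/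
theorem lin2_D6_rev {x y z x' y' z' : ℕ} (h : D6 x y z x' y' z') : D6 z y x z' y' x' := by
  obtain ⟨⟨a1, a2, a3, a4, a5⟩, ⟨b1, b2, b3, b4⟩, ⟨c1, c2, c3⟩, ⟨d1, d2⟩, e1⟩ := lin2_D6 h
  exact lin2_D6_of ⟨⟨b1.symm, a2.symm, c3, c2, c1⟩, ⟨a1.symm, b4, b3, b2⟩, ⟨a5, a4, a3⟩, ⟨e1.symm, d2.symm⟩,
    d1.symm⟩
/-- exchange of the first two -/
theorem lin2_D6_swap {x y z x' y' z' : ℕ} (h : D6 x y z x' y' z') : D6 y x z y' x' z' := by
  obtain ⟨⟨a1, a2, a3, a4, a5⟩, ⟨b1, b2, b3, b4⟩, ⟨c1, c2, c3⟩, ⟨d1, d2⟩, e1⟩ := lin2_D6 h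
  exact lin2_D6_of ⟨⟨a1.symm, b1, b3, b2, b4⟩, ⟨a2, a4, a3, a5⟩, ⟨c2, c1, c3⟩, ⟨d1.symm, e1⟩,
    d2⟩

theorem lin2_D4a {x y z x' y' z' : ℕ} (h : D6 x y z x' y' z') : D4 x y x' y' := by
  obtain ⟨⟨a1, a2, a3, a4, a5⟩, ⟨b1, b2, b3, b4⟩, ⟨c1, c2, c3⟩, ⟨d1, d2⟩, e1⟩ := lin2_D6 h
  exact ⟨a1, a3, a4, b2, b3, d1⟩
theorem lin2_D4b {x y z x' y' z' : ℕ} (h : D6 x y z x' y' z') : D4 y z y' z' := by
  obtain ⟨⟨a1, a2, a3, a4, a5⟩, ⟨b1, b2, b3, b4⟩, ⟨c1, c2, c3⟩, ⟨d1, d2⟩, e1⟩ := lin2_D6 h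
  exact ⟨b1, b3, b4, c2, c3, e1⟩
theorem lin2_D4c {x y z x' y' z' : ℕ} (h : D6 x y z x' y' z') : D4 x z x' z' :=
  lin2_D4b (lin2_D6_swap h)

theorem lin2_G_sym (x y x' y' : ℕ) (v : M) : G x y x' y' v = G y x y' x' v := by
  simp only [lin2_G_apply]
  rw [Pr_comm x y, Pr_comm x' y']
theorem lin2_gs_sym (x y x' y' : ℕ) : gs x y x' y' = gs y x y' x' := by
  unfold gs
  rw [Equiv.swap_comm x y, Equiv.swap_comm x' y']
theorem lin2_Rc_sym (x y x' y' : ℕ) (u : ℝ) (v : M) : Rc x y x' y' u v = Rc y x y' x' u v := by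
  simp only [lin2_Rc_apply]
  rw [lin2_G_sym]
theorem lin2_Rh_sym (x y x' y' : ℕ) (u : ℝ) (v : M) : Rh x y x' y' u v = Rh y x y' x' u v := by
  simp only [lin2_Rh_apply]
  rw [lin2_G_sym, lin2_gs_sym]

theorem lin2_G_braid' {x y z x' y' z' : ℕ} (h : D6 x y z x' y' z') (v : M) :
    G y z y' z' (G x y x' y' (G y z y' z' v)) = G y z y' z' v := by
  rw [lin2_G_sym y z, lin2_G_sym x y, lin2_G_sym y z]
  exact G_braid (lin2_D6_rev h) v

/-- braided Yang-Baxter equation (uses only `G_G`, `G_braid`) -/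
theorem yb {x y z x' y' z' : ℕ} (h : D6 x y z x' y' z') (u w : ℝ) (v : M) :
    Rc x y x' y' u (Rc y z y' z' (u + w) (Rc x y x' y' w v)) =
      Rc y z y' z' w (Rc x y x' y' (u + w) (Rc y z y' z' u v)) := by
  simp only [lin2_Rc_apply, map_add, map_smul, smul_add, smul_smul, G_G (lin2_D4a h), G_G (lin2_D4b h),
    G_braid h, lin2_G_braid' h]
  have h := yb_identity u w
  match_scalars
  · ring
  · linear_combination h
  · linear_combination (-1 : ℝ) * h
  · ring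
  · ring

theorem lin2_gs_left {x y x' y' : ℕ} (h : D4 x y x' y') : gs x y x' y' x = y := by
  obtain ⟨h1, h2, h3, h4, h5, h6⟩ := h
  unfold gs
  rw [Equiv.Perm.mul_apply, Equiv.swap_apply_of_ne_of_ne h2 h3, Equiv.swap_apply_left]
theorem lin2_gs_right {x y x' y' : ℕ} (h : D4 x y x' y') : gs x y x' y' y = x := by
  obtain ⟨h1, h2, h3, h4, h5, h6⟩ := h
  unfold gs
  rw [Equiv.Perm.mul_apply, Equiv.swap_apply_of_ne_of_ne h4 h5, Equiv.swap_apply_right]
theorem lin2_gs_left' {x y x' y' : ℕ} (h : D4 x y x' y') : gs x y x' y' x' = y' := by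
  obtain ⟨h1, h2, h3, h4, h5, h6⟩ := h
  unfold gs
  rw [Equiv.Perm.mul_apply, Equiv.swap_apply_left, Equiv.swap_apply_of_ne_of_ne h3.symm h5.symm]
theorem lin2_gs_right' {x y x' y' : ℕ} (h : D4 x y x' y') : gs x y x' y' y' = x' := by
  obtain ⟨h1, h2, h3, h4, h5, h6⟩ := h
  unfold gs
  rw [Equiv.Perm.mul_apply, Equiv.swap_apply_right, Equiv.swap_apply_of_ne_of_ne h2.symm h4.symm]

theorem lin2_gs_mul_self {x y x' y' : ℕ} (h : D4 x y x' y') : gs x y x' y' * gs x y x' y' = 1 := by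
  ext z
  rw [Equiv.Perm.mul_apply, Equiv.Perm.one_apply]
  by_cases z1 : z = x
  · rw [z1, lin2_gs_left h, lin2_gs_right h]
  by_cases z2 : z = y
  · rw [z2, lin2_gs_right h, lin2_gs_left h]
  by_cases z3 : z = x'
  · rw [z3, lin2_gs_left' h, lin2_gs_right' h]
  by_cases z4 : z = y'
  · rw [z4, lin2_gs_right' h, lin2_gs_left' h]
  rw [lin2_gs_of_ne ⟨z1, z2, z3, z4⟩, lin2_gs_of_ne ⟨z1, z2, z3, z4⟩]

/-- the third strand is not moved -/
theorem lin2_gs_third {x y z x' y' z' : ℕ} (h : D6 x y z x' y' z') : gs x y x' y' z = z := by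
  obtain ⟨⟨a1, a2, a3, a4, a5⟩, ⟨b1, b2, b3, b4⟩, ⟨c1, c2, c3⟩, ⟨d1, d2⟩, e1⟩ := lin2_D6 h
  exact lin2_gs_of_ne ⟨a2.symm, b1.symm, c1, c2⟩
theorem lin2_gs_third' {x y z x' y' z' : ℕ} (h : D6 x y z x' y' z') : gs x y x' y' z' = z' := by
  obtain ⟨⟨a1, a2, a3, a4, a5⟩, ⟨b1, b2, b3, b4⟩, ⟨c1, c2, c3⟩, ⟨d1, d2⟩, e1⟩ := lin2_D6 h
  exact lin2_gs_of_ne ⟨a5.symm, b4.symm, d2.symm, e1.symm⟩

/-- `Rel (gs x y) (G x z v) = G y z (Rel (gs x y) v)` -/
theorem lin2_Rel_G {x y z x' y' z' : ℕ} (h : D6 x y z x' y' z') (v : M) :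
    Rel (gs x y x' y') (G x z x' z' v) = G y z y' z' (Rel (gs x y x' y') v) := by
  have h4 := lin2_D4a h
  rw [Rel_G, lin2_gs_left h4, lin2_gs_left' h4, lin2_gs_third h, lin2_gs_third' h]
/-- `Rel (gs x y) (Rc x z v) = Rc y z (Rel (gs x y) v)` -/
theorem lin2_Rel_Rc {x y z x' y' z' : ℕ} (h : D6 x y z x' y' z') (u : ℝ) (v : M) :
    Rel (gs x y x' y') (Rc x z x' z' u v) = Rc y z y' z' u (Rel (gs x y x' y') v) := by
  have h4 := lin2_D4a h
  rw [Rel_Rc, lin2_gs_left h4, lin2_gs_left' h4, lin2_gs_third h, lin2_gs_third' h]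

/-- the form used for the transfer matrix: the line `a` crosses `j`, `k` -/
theorem yb_line {a j k a' j' k' : ℕ} (h : D6 a j k a' j' k') (x y : ℝ) (v : M) :
    Rc j k j' k' (x - y) (Rh a j a' j' x (Rh a k a' k' y v)) =
      Rh a j a' j' y (Rh a k a' k' x (Rc j k j' k' (x - y) v)) := by
  have haj := lin2_D4a h
  have hak := lin2_D4c h
  have hjk := lin2_D4b h
  -- `D6` for the other orders
  have hak_j : D6 a k j a' k' j' := lin2_D6_rev (lin2_D6_swap (lin2_D6_rev h))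
  have hka_j : D6 k a j k' a' j' := lin2_D6_swap hak_j
  have hja_k : D6 j a k j' a' k' := lin2_D6_swap h
  -- move the relabellings to the left
  have key : ∀ (t r : ℝ) (w : M), Rh a j a' j' t (Rh a k a' k' r w) =
      Rel (gs a j a' j') (Rel (gs a k a' k') (Rc k j k' j' t (Rc a k a' k' r w))) := by
    intro t r w
    rw [Rh_eq haj, Rh_eq hak, lin2_gs_sym a k, lin2_Rel_Rc hka_j, lin2_gs_sym k a]
  have e1 : ∀ (w : M), Rc j k j' k' (x - y) (Rel (gs a j a' j') w) =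
      Rel (gs a j a' j') (Rc a k a' k' (x - y) w) := fun w => (lin2_Rel_Rc h _ _).symm
  have e2 : ∀ (w : M), Rc a k a' k' (x - y) (Rel (gs a k a' k') w) =
      Rel (gs a k a' k') (Rc a k a' k' (x - y) w) := by
    intro w
    rw [Rel_Rc, lin2_gs_left hak, lin2_gs_right hak, lin2_gs_left' hak, lin2_gs_right' hak,
      lin2_Rc_sym k a]
  rw [key, key, e1, e2]
  have hyb := yb hak_j (x - y) y v
  rw [sub_add_cancel] at hyb
  rw [hyb, lin2_Rc_sym k j k' j' (x - y)]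

theorem lin2_s_sub (u : ℝ) : s (-(π / 3 - u)) = Real.sin u := by
  unfold s
  congr 1
  ring
theorem lin2_sin_sub (u : ℝ) : Real.sin (π / 3 - u) = s (-u) := by
  unfold s
  congr 1
/-- crossing symmetry: on vectors with the blocks `{a, c}`, `{a', c'}` the line `c` can cross instead of `a` -/
theorem cross1 {a c k a' c' k' : ℕ} (h : D6 a c k a' c' k') (u : ℝ) (v : M) :
    Rh c k c' k' (π / 3 - u) (G a c a' c' v) = Rh a k a' k' u (G a c a' c' v) := by
  have hkca : D6 k c a k' c' a' := lin2_D6_rev h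
  have hkac : D6 k a c k' a' c' := lin2_D6_rev (lin2_D6_swap h)
  rw [lin2_Rh_apply, lin2_Rh_apply, lin2_s_sub, lin2_sin_sub]
  have e1 : G c k c' k' (G a c a' c' v) = Rel (gs a k a' k') (G a c a' c' v) := by
    rw [lin2_G_sym c k, lin2_G_sym a c, G_adj hkca, lin2_gs_sym k a]
  have e2 : G a k a' k' (G a c a' c' v) = Rel (gs c k c' k') (G a c a' c' v) := by
    rw [lin2_G_sym a k, G_adj hkac, lin2_gs_sym k c]
  rw [e1, e2, add_comm]
theorem cross2 {a c k a' c' k' : ℕ} (h : D6 a c k a' c' k') (u : ℝ) (v : M) :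
    G a c a' c' (Rh c k c' k' (π / 3 - u) v) = G a c a' c' (Rh a k a' k' u v) := by
  have hakc : D6 a k c a' k' c' := lin2_D6_swap (lin2_D6_rev (lin2_D6_swap h))
  have hcak : D6 c a k c' a' k' := lin2_D6_swap h
  have hkca : D6 k c a k' c' a' := lin2_D6_rev h
  have hkac : D6 k a c k' a' c' := lin2_D6_swap hakc
  rw [lin2_Rh_apply, lin2_Rh_apply, lin2_s_sub, lin2_sin_sub, map_add, map_add, map_smul, map_smul,
    map_smul, map_smul]
  have e1 : G a c a' c' (G c k c' k' v) = G a c a' c' (Rel (gs a k a' k') v) := by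
    rw [G_adj h, lin2_G_sym c k, lin2_gs_sym a k, lin2_Rel_G hkac]
  have e2 : G a c a' c' (G a k a' k' v) = G a c a' c' (Rel (gs c k c' k') v) := by
    rw [lin2_G_sym a c, G_adj hcak, lin2_G_sym a k, lin2_gs_sym c k, lin2_Rel_G hkca,
      lin2_G_sym c a]
  rw [e1, e2, add_comm]
/-- an arc slides through a line -/
theorem slide {a j k a' j' k' : ℕ} (h : D6 a j k a' j' k') (u : ℝ) (v : M) :
    Rh a j a' j' u (Rh a k a' k' (u + π / 3) (G j k j' k' v)) = (s u * s (-u)) • G j k j' k' v := by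
  have haj := lin2_D4a h
  have hak := lin2_D4c h
  have hjk := lin2_D4b h
  have hakj : D6 a k j a' k' j' := lin2_D6_rev (lin2_D6_swap (lin2_D6_rev h))
  set w := G j k j' k' v with hw
  -- facts on `w`
  have w1 : Rel (gs j k j' k') w = w := gs_G hjk v
  have w2 : G j k j' k' w = w := G_G hjk v
  have w3 : G a k a' k' w = Rel (gs a j a' j') w := by
    rw [hw, lin2_G_sym j k, G_adj hakj]
  have w4 : G a j a' j' w = Rel (gs a k a' k') w := by
    rw [hw, G_adj h]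
  have w5 : G a j a' j' (Rel (gs a k a' k') w) = Rel (gs a k a' k') w := by
    have := lin2_Rel_G (lin2_D6_swap hakj) w
    rw [lin2_gs_sym k a] at this
    rw [← this, lin2_G_sym k j, w2]
  have w6 : Rel (gs a j a' j') (Rel (gs a k a' k') w) = Rel (gs a k a' k') w := by
    have hh : gs a j a' j' * gs a k a' k' = gs a k a' k' * gs j k j' k' := by
      have := lin2_mul_gs (gs a k a' k') j k j' k'
      rw [this, lin2_gs_right hak, lin2_gs_right' hak, lin2_gs_third hakj, lin2_gs_third' hakj,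
        lin2_gs_sym j a]
    rw [Rel_Rel, hh, ← Rel_Rel, w1]
  have w7 : Rel (gs a j a' j') (Rel (gs a j a' j') w) = w := by
    rw [Rel_Rel, lin2_gs_mul_self haj, Rel_one]
  have w8 : G a j a' j' (Rel (gs a j a' j') w) = Rel (gs a k a' k') w := by
    rw [G_gs haj, w4]
  have hs := s_zero_sub u
  simp only [lin2_Rh_apply, map_add, map_smul, smul_add, smul_smul, w3, w5, w6, w7, w8,
    s_neg_sub, sin_add_pi_third]
  match_scalars
  · linear_combination (Real.sin u) * hs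
  · ring

theorem Es_In (i : ℕ) (v : M) : Es i (In i v) = In i v := by
  unfold Es
  induction v using Finsupp.induction_linear with
  | zero => simp
  | add a b ha hb => simp only [map_add, ha, hb]
  | single σ c => rw [In_single, lin2_G_apply, Pr_single, Pr_single, pr_ins1, pr_ins0]
theorem Pr_In (i : ℕ) {j k : ℕ} (h : j ≠ k) (v : M) : Pr (sk i j) (sk i k) (In i v) = In i (Pr j k v) := by
  induction v using Finsupp.induction_linear with
  | zero => simp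
  | add a b ha hb => simp only [map_add, ha, hb]
  | single σ c => rw [In_single, Pr_single, Pr_single, In_single, pr_ins i h]
theorem lin2_swap_In (i j k : ℕ) (v : M) :
    Rel (Equiv.swap (sk i j) (sk i k)) (In i v) = In i (Rel (Equiv.swap j k) v) := by
  induction v using Finsupp.induction_linear with
  | zero => simp
  | add a b ha hb => simp only [map_add, ha, hb]
  | single σ c => rw [In_single, Rel_single, Rel_single, In_single, swap_ins]
theorem lin2_gs_In (i x y x' y' : ℕ) (v : M) :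
    Rel (gs (sk i x) (sk i y) (sk i x') (sk i y')) (In i v) = In i (Rel (gs x y x' y') v) := by
  unfold gs
  rw [← Rel_Rel, ← Rel_Rel, lin2_swap_In, lin2_swap_In]
theorem lin2_G_In (i : ℕ) {x y x' y' : ℕ} (h : x ≠ y) (h' : x' ≠ y') (v : M) :
    G (sk i x) (sk i y) (sk i x') (sk i y') (In i v) = In i (G x y x' y' v) := by
  rw [lin2_G_apply, lin2_G_apply, Pr_In i h', Pr_In i h]
theorem Rh_In (i : ℕ) {x y x' y' : ℕ} (h : D4 x y x' y') (u : ℝ) (v : M) :
    Rh (sk i x) (sk i y) (sk i x') (sk i y') u (In i v) = In i (Rh x y x' y' u v) := by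
  simp only [lin2_Rh_apply, map_add, map_smul, lin2_gs_In, lin2_G_In i h.1 h.2.2.2.2.2]
theorem Rc_In (i : ℕ) {x y x' y' : ℕ} (h : D4 x y x' y') (u : ℝ) (v : M) :
    Rc (sk i x) (sk i y) (sk i x') (sk i y') u (In i v) = In i (Rc x y x' y' u v) := by
  simp only [lin2_Rc_apply, map_add, map_smul, lin2_G_In i h.1 h.2.2.2.2.2]

/-! supports -/
theorem lin2_Es_eq (i : ℕ) (v : M) : Es i v = Finsupp.lmapDomain ℝ ℝ
    (fun σ => pr (2 * i + 4) (2 * i + 6) (pr (2 * i + 5) (2 * i + 7) σ)) v := by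
  unfold Es
  induction v using Finsupp.induction_linear with
  | zero => simp
  | add a b ha hb => simp only [map_add, ha, hb]
  | single σ c =>
    rw [lin2_G_apply, Pr_single, Pr_single, Finsupp.lmapDomain_apply, Finsupp.mapDomain_single]
theorem Es_Sup {L i : ℕ} (h : i + 1 < L) {v : M} (hv : v ∈ Sup (W L)) : Es i v ∈ Sup (W L) := by
  rw [lin2_Es_eq]
  exact lmap_Sup (fun _ hσ => Es_W h hσ) hv
theorem Rs_Sup {L i : ℕ} (h : i + 1 < L) (u : ℝ) {v : M} (hv : v ∈ Sup (W L)) : Rs i u v ∈ Sup (W L) := by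
  have : Rs i u v = s (-u) • v + Real.sin u • Es i v := rfl
  rw [this]
  exact add_mem (Submodule.smul_mem _ _ hv) (Submodule.smul_mem _ _ (Es_Sup h hv))
theorem Es_NCSup {L i : ℕ} (h : i + 1 < L) {v : M} (hv : v ∈ Sup (W L ∩ NC L)) : Es i v ∈ Sup (W L ∩ NC L) := by
  rw [lin2_Es_eq]
  exact lmap_Sup (B := W L ∩ NC L) (fun _ hσ => ⟨Es_W h hσ.1, Es_NC h hσ.1 hσ.2⟩) hv
/-- two linear maps agree on vectors supported on `A` if they agree on `A` -/
theorem lin2_ext {A : Set St} {f g : M →ₗ[ℝ] M}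
    (h : ∀ σ ∈ A, ∀ c, f (Finsupp.single σ c) = g (Finsupp.single σ c)) {v : M} (hv : v ∈ Sup A) : f v = g v := by
  unfold Sup at hv
  rw [Finsupp.mem_supported] at hv
  conv_lhs => rw [← Finsupp.sum_single v]
  conv_rhs => rw [← Finsupp.sum_single v]
  rw [Finsupp.sum, map_sum, map_sum]
  exact Finset.sum_congr rfl fun σ hσ => h σ (hv hσ) _
theorem G02 {L : ℕ} {v : M} (hv : v ∈ Sup (W L)) : G 0 2 1 3 v = v := by
  refine lin2_ext (g := LinearMap.id) (fun σ hσ c => ?_) hv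
  rw [lin2_G_apply, Pr_single, Pr_single, W_pr hσ, LinearMap.id_apply]
theorem rt_Sup {L : ℕ} {v : M} (hv : v ∈ Sup (W L)) : Rel (rtn L) v ∈ Sup (W L) :=
  lmap_Sup (fun _ hσ => rt_W hσ) hv
theorem rv_Sup {L : ℕ} {v : M} (hv : v ∈ Sup (W L)) : Rel (rvn L) v ∈ Sup (W L) :=
  lmap_Sup (fun _ hσ => rv_W hσ) hv
theorem rt_NCSup {L : ℕ} {v : M} (hv : v ∈ Sup (W L ∩ NC L)) : Rel (rtn L) v ∈ Sup (W L ∩ NC L) :=
  lmap_Sup (B := W L ∩ NC L) (fun _ hσ => ⟨rt_W hσ.1, rt_NC hσ.1 hσ.2⟩) hv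
theorem rv_NCSup {L : ℕ} {v : M} (hv : v ∈ Sup (W L ∩ NC L)) : Rel (rvn L) v ∈ Sup (W L ∩ NC L) :=
  lmap_Sup (B := W L ∩ NC L) (fun _ hσ => ⟨rv_W hσ.1, rv_NC hσ.1 hσ.2⟩) hv
theorem In_Sup {L i : ℕ} (h : i ≤ L) {v : M} (hv : v ∈ Sup (W L)) : In i v ∈ Sup (W (L + 2)) :=
  lmap_Sup (fun _ hσ => ins_W h hσ) hv
end IPC
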