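import Pool.Agent.Helper64.IPC.GenA
import Pool.Agent.Helper64.IPC.Lin
/-! MODULE GEN: all coordinates are generated from the coordinate `top L` by `l ↦ l ∘ E_i` (`i+1 < L`) and
`l ↦ l ∘ Rel (rtn L)`.  Induction on the area (descending, `ar_le`).  `Rel (rtn L)` has finite order `2L` on the
strand nodes (and fixes the other nodes), so all rotations (also backwards) are available.
If `σ` is a rotation of `top L`: clear.  Otherwise rotate to the normal form of `valley`, put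
`π = E_p σ`; for `v ∈ Sup (W ∩ NC)`: `(E_p v) π = Σ v α` over the `α ∈ W ∩ NC` with `E_p α = π`
(finite set), so `v σ = (l_π ∘ E_p) v - Σ_{α ≠ σ} v α`, all of `π`, `α` have larger area (`ar_lt`, `preim`). -/
namespace IPC
open IP Finset

/-- linear functionals generated from the coordinate `top L` -/
inductive Gen (L : ℕ) : (M →ₗ[ℝ] ℝ) → Prop
  | top : Gen L (Finsupp.lapply (top L))
  | es (i : ℕ) (hi : i + 1 < L) (l : M →ₗ[ℝ] ℝ) (h : Gen L l) : Gen L (l ∘ₗ Es i)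
  | rt (l : M →ₗ[ℝ] ℝ) (h : Gen L l) : Gen L (l ∘ₗ Rel (rtn L))
  | add (l l' : M →ₗ[ℝ] ℝ) (h : Gen L l) (h' : Gen L l') : Gen L (l + l')
  | smul (c : ℝ) (l : M →ₗ[ℝ] ℝ) (h : Gen L l) : Gen L (c • l)

theorem gen_rtn_out (L x : ℕ) (h : x < 4 ∨ 2 * L + 4 ≤ x) : rtn L x = x := by
  show (if x < 4 ∨ 2 * L + 4 ≤ x then x else if x < 2 * L + 2 then x + 2 else 2 * L + 7 - x) = x
  rw [if_pos h]

/-- the node at the position `p` (modulo `2L`) -/
def genNd (L p : ℕ) : ℕ := if p < L then 2 * p + 4 else 2 * (p - L) + 5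

theorem gen_rtn_nd {L p : ℕ} (h : p < 2 * L) :
    rtn L (genNd L p) = genNd L ((p + 1) % (2 * L)) := by
  have h0 : (p + 1) % (2 * L) = if p + 1 = 2 * L then 0 else p + 1 := by
    split_ifs with h1
    · rw [h1, Nat.mod_self]
    · exact Nat.mod_eq_of_lt (by omega)
  rw [h0]
  show (if genNd L p < 4 ∨ 2 * L + 4 ≤ genNd L p then genNd L p else
    if genNd L p < 2 * L + 2 then genNd L p + 2 else 2 * L + 7 - genNd L p) = _
  unfold genNd
  split_ifs <;> omega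

theorem gen_rtn_pow_nd (L k : ℕ) {p : ℕ} (h : p < 2 * L) :
    ((rtn L) ^ k) (genNd L p) = genNd L ((p + k) % (2 * L)) := by
  induction k with
  | zero =>
    rw [pow_zero, Equiv.Perm.one_apply, add_zero, Nat.mod_eq_of_lt h]
  | succ k ih =>
    rw [pow_succ', Equiv.Perm.mul_apply, ih, gen_rtn_nd (Nat.mod_lt _ (by omega)), Nat.mod_add_mod,
      add_assoc]

theorem rtn_pow (L : ℕ) : (rtn L) ^ (2 * L) = 1 := by
  ext x
  rw [Equiv.Perm.one_apply]
  by_cases h : x < 4 ∨ 2 * L + 4 ≤ x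
  · exact Equiv.Perm.pow_apply_eq_self_of_apply_eq_self (gen_rtn_out L x h) _
  · have h1 : ∃ p, p < 2 * L ∧ x = genNd L p := by
      rcases Nat.even_or_odd' x with ⟨y, rfl | rfl⟩
      · refine ⟨y - 2, by omega, ?_⟩
        unfold genNd
        rw [if_pos (by omega)]
        omega
      · refine ⟨y - 2 + L, by omega, ?_⟩
        unfold genNd
        rw [if_neg (by omega)]
        omega
    obtain ⟨p, hp, rfl⟩ := h1
    rw [gen_rtn_pow_nd L _ hp, Nat.add_mod_right, Nat.mod_eq_of_lt hp]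

theorem gen_Gen_zero (L : ℕ) : Gen L (0 : M →ₗ[ℝ] ℝ) := by
  have := Gen.smul (L := L) 0 _ Gen.top
  rwa [zero_smul] at this

theorem gen_Gen_neg {L : ℕ} {l : M →ₗ[ℝ] ℝ} (h : Gen L l) : Gen L (-l) := by
  have h1 := Gen.smul (L := L) (-1) _ h
  have h2 : (-1 : ℝ) • l = -l := by
    ext
    simp
  rwa [h2] at h1

theorem gen_Gen_sum {L : ℕ} {ι : Type*} (t : Finset ι) (f : ι → M →ₗ[ℝ] ℝ)
    (h : ∀ i ∈ t, Gen L (f i)) : Gen L (∑ i ∈ t, f i) := by
  classical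
  induction t using Finset.induction_on with
  | empty => rw [Finset.sum_empty]; exact gen_Gen_zero L
  | insert a t ha ih =>
    rw [Finset.sum_insert ha]
    exact Gen.add _ _ (h a (Finset.mem_insert_self _ _))
      (ih fun i hi => h i (Finset.mem_insert_of_mem hi))

theorem gen_Gen_pow {L : ℕ} (r : ℕ) : ∀ {l : M →ₗ[ℝ] ℝ}, Gen L l →
    Gen L (l ∘ₗ Rel ((rtn L) ^ r)) := by
  induction r with
  | zero =>
    intro l h
    have h1 : l ∘ₗ Rel ((rtn L) ^ 0) = l := by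
      apply LinearMap.ext
      intro v
      rw [LinearMap.comp_apply, pow_zero, Rel_one]
    rw [h1]
    exact h
  | succ r ih =>
    intro l h
    have h1 : l ∘ₗ Rel ((rtn L) ^ (r + 1)) = (l ∘ₗ Rel ((rtn L) ^ r)) ∘ₗ Rel (rtn L) := by
      apply LinearMap.ext
      intro v
      rw [LinearMap.comp_apply, LinearMap.comp_apply, LinearMap.comp_apply, Rel_Rel, pow_succ]
    rw [h1]
    exact Gen.rt _ (ih h)

theorem gen_rel_pow_succ (L r : ℕ) (σ : St) :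
    rel ((rtn L) ^ (r + 1)) σ = rel (rtn L) (rel ((rtn L) ^ r) σ) := by
  rw [rel_rel, pow_succ']

theorem gen_pow_W {L : ℕ} (r : ℕ) {σ : St} (h : σ ∈ W L) : rel ((rtn L) ^ r) σ ∈ W L := by
  induction r with
  | zero => rw [pow_zero, rel_one]; exact h
  | succ r ih => rw [gen_rel_pow_succ]; exact rt_W ih

theorem gen_pow_NC {L : ℕ} (r : ℕ) {σ : St} (h : σ ∈ W L) (h2 : σ ∈ NC L) :
    rel ((rtn L) ^ r) σ ∈ NC L := by
  induction r with
  | zero => rw [pow_zero, rel_one]; exact h2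
  | succ r ih => rw [gen_rel_pow_succ]; exact rt_NC (gen_pow_W r h) ih

theorem gen_pow_ar {L : ℕ} (r : ℕ) {σ : St} (h : σ ∈ W L) : ar L (rel ((rtn L) ^ r) σ) = ar L σ := by
  induction r with
  | zero => rw [pow_zero, rel_one]
  | succ r ih => rw [gen_rel_pow_succ, ar_rt (gen_pow_W r h), ih]

theorem gen_pow_Sup {L : ℕ} (r : ℕ) {v : M} (h : v ∈ Sup (W L ∩ NC L)) :
    Rel ((rtn L) ^ r) v ∈ Sup (W L ∩ NC L) := by
  induction r with
  | zero => rw [pow_zero, Rel_one]; exact h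
  | succ r ih =>
    have h1 : Rel ((rtn L) ^ (r + 1)) v = Rel (rtn L) (Rel ((rtn L) ^ r) v) := by
      rw [Rel_Rel, pow_succ']
    rw [h1]
    exact rt_NCSup ih

/-- the step of the induction -/
theorem gen_step {L p : ℕ} (hp : p + 1 < L) {σ : St}
    (hpi : ∃ l : M →ₗ[ℝ] ℝ, Gen L l ∧ ∀ v ∈ Sup (W L ∩ NC L),
      l v = v (pr (2 * p + 4) (2 * p + 6) (pr (2 * p + 5) (2 * p + 7) σ)))
    (hpre : ∀ τ : St, (τ ∈ W L ∧ τ ∈ NC L ∧
      pr (2 * p + 4) (2 * p + 6) (pr (2 * p + 5) (2 * p + 7) τ) =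
        pr (2 * p + 4) (2 * p + 6) (pr (2 * p + 5) (2 * p + 7) σ) ∧ τ ≠ σ) →
      ∃ l : M →ₗ[ℝ] ℝ, Gen L l ∧ ∀ v ∈ Sup (W L ∩ NC L), l v = v τ) :
    ∃ l : M →ₗ[ℝ] ℝ, Gen L l ∧ ∀ v ∈ Sup (W L ∩ NC L), l v = v σ := by
  classical
  set A : St → St := fun τ => pr (2 * p + 4) (2 * p + 6) (pr (2 * p + 5) (2 * p + 7) τ) with hA
  obtain ⟨lα, hlα1, hlα2⟩ := hpi
  have hfin : {τ : St | τ ∈ W L ∧ τ ∈ NC L ∧ A τ = A σ ∧ τ ≠ σ}.Finite :=
    (W_finite L).subset (fun τ hτ => hτ.1)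
  let F : St → M →ₗ[ℝ] ℝ := fun τ =>
    if hτ : τ ∈ W L ∧ τ ∈ NC L ∧ A τ = A σ ∧ τ ≠ σ then (hpre τ hτ).choose else 0
  have hF1 : ∀ τ ∈ hfin.toFinset, Gen L (F τ) := by
    intro τ hτ
    rw [Set.Finite.mem_toFinset] at hτ
    have hτ' : τ ∈ W L ∧ τ ∈ NC L ∧ A τ = A σ ∧ τ ≠ σ := hτ
    show Gen L (if hτ : τ ∈ W L ∧ τ ∈ NC L ∧ A τ = A σ ∧ τ ≠ σ then (hpre τ hτ).choose else 0)
    rw [dif_pos hτ']
    exact (hpre τ hτ').choose_spec.1
  have hF2 : ∀ τ ∈ hfin.toFinset, ∀ v ∈ Sup (W L ∩ NC L), F τ v = v τ := by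
    intro τ hτ
    rw [Set.Finite.mem_toFinset] at hτ
    have hτ' : τ ∈ W L ∧ τ ∈ NC L ∧ A τ = A σ ∧ τ ≠ σ := hτ
    show ∀ v ∈ Sup (W L ∩ NC L), (if hτ : τ ∈ W L ∧ τ ∈ NC L ∧ A τ = A σ ∧ τ ≠ σ then
      (hpre τ hτ).choose else 0) v = v τ
    rw [dif_pos hτ']
    exact (hpre τ hτ').choose_spec.2
  refine ⟨lα ∘ₗ Es p + -∑ τ ∈ hfin.toFinset, F τ,
    Gen.add _ _ (Gen.es p hp _ hlα1) (gen_Gen_neg (gen_Gen_sum _ _ hF1)), ?_⟩
  intro v hv
  have hsingle : ∀ τ ∈ W L ∩ NC L, ∀ a : ℝ,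
      (lα ∘ₗ Es p + -∑ τ ∈ hfin.toFinset, F τ) (Finsupp.single τ a) =
        (Finsupp.single τ a : M) σ := by
    intro τ hτ a
    have hs1 : (Finsupp.single τ a : M) ∈ Sup (W L ∩ NC L) :=
      Finsupp.single_mem_supported ℝ a hτ
    have hE : Es p (Finsupp.single τ a) = Finsupp.single (A τ) a := by
      unfold Es G
      rw [LinearMap.comp_apply, Pr_single, Pr_single]
    have hAτ : A τ ∈ W L ∩ NC L := ⟨Es_W hp hτ.1, Es_NC hp hτ.1 hτ.2⟩
    rw [LinearMap.add_apply, LinearMap.neg_apply, LinearMap.comp_apply, hE,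
      hlα2 _ (Finsupp.single_mem_supported ℝ a hAτ), LinearMap.sum_apply,
      Finset.sum_congr rfl (fun ρ hρ => hF2 ρ hρ _ hs1)]
    simp only [Finsupp.single_apply]
    rw [Finset.sum_ite_eq]
    by_cases hτσ : τ = σ
    · have hn : τ ∉ hfin.toFinset := by
        rw [Set.Finite.mem_toFinset]
        exact fun hh => hh.2.2.2 hτσ
      rw [if_neg hn, if_pos hτσ, if_pos (by rw [hτσ])]
      simp
    · rw [if_neg hτσ]
      by_cases hact : A τ = A σ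
      · have hn : τ ∈ hfin.toFinset := by
          rw [Set.Finite.mem_toFinset]
          exact ⟨hτ.1, hτ.2, hact, hτσ⟩
        rw [if_pos hn, if_pos hact]
        simp
      · have hn : τ ∉ hfin.toFinset := by
          rw [Set.Finite.mem_toFinset]
          exact fun hh => hact hh.2.2.1
        rw [if_neg hn, if_neg hact]
        simp
  conv_lhs => rw [← Finsupp.sum_single v]
  rw [Finsupp.sum, map_sum]
  rw [Finset.sum_congr rfl (fun τ hτ => hsingle τ (hv hτ) (v τ))]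
  rw [← Finsupp.finsetSum_apply]
  have := Finsupp.sum_single v
  rw [Finsupp.sum] at this
  rw [this]

theorem cyclic (L : ℕ) {σ : St} (h1 : σ ∈ W L) (h2 : σ ∈ NC L) :
    ∃ l : M →ₗ[ℝ] ℝ, Gen L l ∧ ∀ v ∈ Sup (W L ∩ NC L), l v = v σ := by
  suffices H : ∀ n : ℕ, ∀ σ : St, 2 * L * L - ar L σ = n → σ ∈ W L → σ ∈ NC L →
      ∃ l : M →ₗ[ℝ] ℝ, Gen L l ∧ ∀ v ∈ Sup (W L ∩ NC L), l v = v σ from H _ σ rfl h1 h2
  intro n
  induction n using Nat.strong_induction_on with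
  | _ n ih =>
  intro σ hn hW hN
  by_cases hr : ∃ r : ℕ, rel ((rtn L) ^ r) σ = top L
  · obtain ⟨r, hr⟩ := hr
    refine ⟨Finsupp.lapply (top L) ∘ₗ Rel ((rtn L) ^ r), gen_Gen_pow r Gen.top, ?_⟩
    intro v _
    rw [LinearMap.comp_apply, Finsupp.lapply_apply, ← hr, Rel_apply]
  · push Not at hr
    obtain ⟨r, p, d, hp, hpd, hd, h3, h4⟩ := valley hW hN hr
    set τ := rel ((rtn L) ^ r) σ with hτ
    have hτW : τ ∈ W L := gen_pow_W r hW
    have hτN : τ ∈ NC L := gen_pow_NC r hW hN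
    have hτar : ar L τ = ar L σ := gen_pow_ar r hW
    have hlt := ar_lt hτW hτN hp hpd hd h3 h4
    have hpL : p + 1 < L := by omega
    have hπW := Es_W hpL hτW
    have hπN := Es_NC hpL hτW hτN
    have hle := ar_le L hπW
    obtain ⟨l, hl1, hl2⟩ := gen_step hpL
      (ih _ (by omega) _ rfl hπW hπN) (by
        rintro α ⟨hα1, hα2, hα3, hα4⟩
        have h5 := preim hτW hτN hp hpd hd h3 h4 hα1 hα2 hα3
        have h6 := ar_le L hα1
        rcases h5 with h5 | h5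
        · exact absurd h5 hα4
        · exact ih _ (by omega) α rfl hα1 hα2)
    refine ⟨l ∘ₗ Rel ((rtn L) ^ r), gen_Gen_pow r hl1, ?_⟩
    intro v hv
    rw [LinearMap.comp_apply, hl2 _ (gen_pow_Sup r hv), hτ, Rel_apply]
end IPC
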