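import Pool.Agent.Helper64.IPC.GenA1
/-! MODULE GENA: combinatorics behind the generation of all coordinates from the top one.
`ps L x` = position of the node `x` on the circle of `2L` points, `cd` = circular distance, `ar` = area.
VALLEY: let `σ ∈ W L ∩ NC L`.  A position is an opener / closer if its partner is at distance `< L` ahead / behind,
or an end of the diameter (distance `L`, only `L` odd, then exactly one diameter).  The sequence of types is
`L`-periodic.  If a closer `p` (arc `(p-d1, p)`) is followed by an opener `p+1` (arc `(p+1, p+1+d2)`) and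
the second arc is not the translate by `L` of the first, then `d1 + d2 + 1 < L` (noncrossing with the translate
`(p-d1+L, p+L)` of the first arc).  Rotate so that `p - d1` is at the position `0`: all four points are in copy 0.
If there is no such pair: `L` odd: between the two ends of the diameter openers precede closers (word of
length `L-1`), so `σ` is a rotation of `top L`.  `L` even: there is a closer followed by an opener (the word is
cyclic, both types occur); then the two arcs are translates, of length `L-1` each, they cover the circle, and inside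
openers precede closers: `σ` is a rotation of `top L`.
PREIM: `π` has the arcs `(p,p+1)`, `(c,d) = (0,d)` (positions, and their translates).  If `α ∈ W ∩ NC` is mapped to `π`,
`α ≠ π`, let `x`, `y` be the partners of `p`, `p+1` in `α`.  If `{x,y}` meets `{p+L, p+1+L}` then `α` contains
`(c,d)` and a chord that crosses it.  Otherwise `π x y`; `{x,y} = {c,d}`: `α = σ` (the other order crosses);
`{x,y} = {c+L,d+L}`: crossing; else `α` contains `(c,d)`, so `c < x, y < d`; `x < p, p+1 < y`: `σ` would
have the crossing arcs `(x,y)`, `(c,p)`; both `< p` or both `> p+1`: the area of `α` is larger than that of `π`. -/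
namespace IPC
open IP Finset

/-- circular distance of two positions -/
def cd (L a b : ℕ) : ℕ := min (max a b - min a b) (2 * L - (max a b - min a b))

open Classical in
/-- area: sum of the circular distances of all points to their partners -/
noncomputable def ar (L : ℕ) (σ : St) : ℕ :=
  ∑ x ∈ Ico 4 (2 * L + 4), ∑ y ∈ Ico 4 (2 * L + 4), if σ x y then cd L (ps L x) (ps L y) else 0

theorem ga_pr {P : ℕ → ℕ} {σ : St} (hP : ∀ x, P (P x) = x) (h3 : ∀ x z, σ x z ↔ (z = x ∨ z = P x))
    {j k : ℕ} (hjk : j ≠ k) (hj1 : P j ≠ j) (hk1 : P k ≠ k) (x z : ℕ) :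
    (pr j k σ) x z ↔ (z = x ∨ z = if x = j then k else if x = k then j else if x = P j then P k
    else if x = P k then P j else P x) := by
  rw [pr_iff, h3, h3, h3, h3, h3]
  have hx := hP x
  have hz := hP z
  have hj := hP j
  have hk := hP k
  grind

theorem ga_partner {L : ℕ} {σ : St} (h : σ ∈ W L) : ∃ P : ℕ → ℕ, (∀ x, P (P x) = x) ∧
    (∀ x, 4 ≤ x → x < 2 * L + 4 → 4 ≤ P x ∧ P x < 2 * L + 4 ∧ P x ≠ x) ∧
    (∀ x z, σ x z ↔ (z = x ∨ z = P x)) ∧
    (∀ x, P (fl x) = fl (P x)) := by
  obtain ⟨P, hP, h1, h2, h3⟩ := bb_partner h.1.1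
  obtain ⟨g0, g1, g2, g3⟩ := W_blocks h
  refine ⟨P, hP, ?_, h3, ?_⟩
  · intro x hx hxL
    have hx' := h1 x hxL
    refine ⟨?_, hx'.1, hx'.2⟩
    have e0 := (g0 x)
    have e1 := (g1 x)
    have e2 := (g2 x)
    have e3 := (g3 x)
    rw [h3] at e0 e1 e2 e3
    have hxx := hP x
    by_contra hcon
    have : P x = 0 ∨ P x = 1 ∨ P x = 2 ∨ P x = 3 := by omega
    rcases this with h | h | h | h <;> rw [h] at hxx <;> grind
  · intro x
    have h4 := bb_fl_rel h.1 x (P x)
    have h5 : σ x (P x) := (h3 _ _).2 (Or.inr rfl)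
    have h6 := h4.2 h5
    rw [h3] at h6
    rcases h6 with h6 | h6
    · have h7 : P x = x := fl.injective h6
      have h8 : 2 * L + 4 ≤ x := by
        by_contra hcon
        exact (h1 x (by omega)).2 h7
      have h9 : 2 * L + 4 ≤ fl x := by
        by_contra hcon
        have := (bb_fl_lt L x).1 (by omega)
        omega
      rw [h7, h2 _ h9]
    · exact h6.symm

theorem ga_cd_self (L a : ℕ) : cd L a a = 0 := by
  unfold cd
  simp

theorem ga_cd_comm (L a b : ℕ) : cd L a b = cd L b a := by
  unfold cd
  rw [max_comm a b, min_comm a b]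

theorem ga_ar {L : ℕ} {σ : St} {P : ℕ → ℕ}
    (h1 : ∀ x, 4 ≤ x → x < 2 * L + 4 → 4 ≤ P x ∧ P x < 2 * L + 4)
    (h3 : ∀ x z, σ x z ↔ (z = x ∨ z = P x)) :
    ar L σ = ∑ x ∈ Ico 4 (2 * L + 4), cd L (ps L x) (ps L (P x)) := by
  classical
  unfold ar
  apply Finset.sum_congr rfl
  intro x hx
  rw [Finset.mem_Ico] at hx
  have h4 := h1 x hx.1 hx.2
  rw [Finset.sum_eq_single (P x)]
  · rw [if_pos ((h3 _ _).2 (Or.inr rfl))]
  · intro y _ hy
    by_cases h5 : σ x y
    · rcases (h3 _ _).1 h5 with h6 | h6
      · rw [if_pos h5, h6, ga_cd_self]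
      · exact absurd h6 hy
    · rw [if_neg h5]
  · intro h5
    exact absurd (Finset.mem_Ico.2 h4) h5

theorem ar_le (L : ℕ) {σ : St} (h1 : σ ∈ W L) : ar L σ ≤ 2 * L * L := by
  obtain ⟨P, hP, h2, h3, h4⟩ := ga_partner h1
  rw [ga_ar (fun x hx hx' => ⟨(h2 x hx hx').1, (h2 x hx hx').2.1⟩) h3]
  calc ∑ x ∈ Ico 4 (2 * L + 4), cd L (ps L x) (ps L (P x)) ≤ ∑ _x ∈ Ico 4 (2 * L + 4), L := by
        apply Finset.sum_le_sum
        intro x _
        unfold cd
        omega
    _ = 2 * L * L := by
        rw [Finset.sum_const, Nat.card_Ico, smul_eq_mul]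
        congr 1

theorem ga_cd_succ {L a b : ℕ} (ha : a < 2 * L) (hb : b < 2 * L) :
    cd L (if a + 1 = 2 * L then 0 else a + 1) (if b + 1 = 2 * L then 0 else b + 1) = cd L a b := by
  unfold cd
  split_ifs <;> omega

theorem ga_ps_rtn {L x : ℕ} (hx : 4 ≤ x) (hx' : x < 2 * L + 4) :
    ps L (rtn L x) = if ps L x + 1 = 2 * L then 0 else ps L x + 1 := by
  rw [bb_rtn_val]
  unfold ps
  split_ifs <;> omega

theorem ga_ps_lt {L x : ℕ} (hx : 4 ≤ x) (hx' : x < 2 * L + 4) : ps L x < 2 * L := by
  unfold ps
  split_ifs <;> omega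

theorem ar_rt {L : ℕ} {σ : St} (h1 : σ ∈ W L) : ar L (rel (rtn L) σ) = ar L σ := by
  obtain ⟨P, hP, h2, h3, h4⟩ := ga_partner h1
  rw [ga_ar (fun x hx hx' => ⟨(h2 x hx hx').1, (h2 x hx hx').2.1⟩) h3]
  have hr : ∀ x, 4 ≤ x → x < 2 * L + 4 → 4 ≤ rtn L x ∧ rtn L x < 2 * L + 4 := by
    intro x hx hx'
    rw [bb_rtn_val]
    split_ifs <;> omega
  have hrs : ∀ x, 4 ≤ x → x < 2 * L + 4 → 4 ≤ (rtn L).symm x ∧ (rtn L).symm x < 2 * L + 4 := by
    intro x hx hx'
    rw [bb_rtns_val]
    split_ifs <;> omega
  rw [ga_ar (P := fun x => rtn L (P ((rtn L).symm x)))]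
  · symm
    apply Finset.sum_nbij' (rtn L) (rtn L).symm
    · intro x hx
      rw [Finset.mem_Ico] at hx ⊢
      exact hr x hx.1 hx.2
    · intro x hx
      rw [Finset.mem_Ico] at hx ⊢
      exact hrs x hx.1 hx.2
    · intro x _; exact Equiv.symm_apply_apply _ _
    · intro x _; exact Equiv.apply_symm_apply _ _
    · intro x hx
      rw [Finset.mem_Ico] at hx
      have h5 := h2 x hx.1 hx.2
      rw [Equiv.symm_apply_apply, ga_ps_rtn hx.1 hx.2, ga_ps_rtn h5.1 h5.2.1,
        ga_cd_succ (ga_ps_lt hx.1 hx.2) (ga_ps_lt h5.1 h5.2.1)]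
  · intro x hx hx'
    have h5 := hrs x hx hx'
    have h6 := h2 _ h5.1 h5.2
    exact hr _ h6.1 h6.2.1
  · intro x z
    rw [rel_iff', h3]
    constructor
    · rintro (h | h)
      · exact Or.inl ((rtn L).symm.injective h)
      · right
        rw [← h, Equiv.apply_symm_apply]
    · rintro (h | h)
      · exact Or.inl (by rw [h])
      · right
        rw [h, Equiv.symm_apply_apply]

/-- change of the area -/
theorem ga_ar_pr {L : ℕ} {σ : St} {P : ℕ → ℕ} (hP : ∀ x, P (P x) = x)
    (h1 : ∀ x, 4 ≤ x → x < 2 * L + 4 → 4 ≤ P x ∧ P x < 2 * L + 4 ∧ P x ≠ x)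
    (h3 : ∀ x z, σ x z ↔ (z = x ∨ z = P x)) {j k : ℕ} (hj : 4 ≤ j) (hj' : j < 2 * L + 4)
    (hk : 4 ≤ k) (hk' : k < 2 * L + 4) (hjk : j ≠ k) (hjk' : P j ≠ k) :
    ar L (pr j k σ) + 2 * cd L (ps L j) (ps L (P j)) + 2 * cd L (ps L k) (ps L (P k)) =
      ar L σ + 2 * cd L (ps L j) (ps L k) + 2 * cd L (ps L (P j)) (ps L (P k)) := by
  have hPj := h1 j hj hj'
  have hPk := h1 k hk hk'
  have hjj := hP j
  have hkk := hP k
  have hjk2 : P k ≠ j := fun h => hjk' (by rw [← h, hkk])
  have hPP : P j ≠ P k := fun h => hjk (by rw [← hjj, h, hkk])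
  rw [ga_ar (fun x hx hx' => ⟨(h1 x hx hx').1, (h1 x hx hx').2.1⟩) h3]
  rw [ga_ar (P := fun x => if x = j then k else if x = k then j else if x = P j then P k
    else if x = P k then P j else P x) ?_ (ga_pr hP h3 hjk hPj.2.2 hPk.2.2)]
  · set S := Ico 4 (2 * L + 4) with hS
    set c : ℕ → ℕ → ℕ := fun a b => cd L (ps L a) (ps L b) with hc
    have hcomm : ∀ a b, c a b = c b a := fun a b => ga_cd_comm _ _ _
    have mj : j ∈ S := Finset.mem_Ico.2 ⟨hj, hj'⟩
    have mk : k ∈ S := Finset.mem_Ico.2 ⟨hk, hk'⟩
    have mPj : P j ∈ S := Finset.mem_Ico.2 ⟨hPj.1, hPj.2.1⟩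
    have mPk : P k ∈ S := Finset.mem_Ico.2 ⟨hPk.1, hPk.2.1⟩
    have key : ∑ x ∈ S, (c x (if x = j then k else if x = k then j else if x = P j then P k
        else if x = P k then P j else P x) + ((if x = j then c j (P j) else 0) +
        (if x = k then c k (P k) else 0) + (if x = P j then c (P j) j else 0) +
        (if x = P k then c (P k) k else 0))) =
        ∑ x ∈ S, (c x (P x) + ((if x = j then c j k else 0) +
        (if x = k then c k j else 0) + (if x = P j then c (P j) (P k) else 0) +
        (if x = P k then c (P k) (P j) else 0))) := by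
      apply Finset.sum_congr rfl
      intro x _
      by_cases e1 : x = j
      · subst e1
        rw [if_pos rfl, if_pos rfl, if_pos rfl, if_neg hjk, if_neg hjk, if_neg hPj.2.2.symm,
          if_neg hPj.2.2.symm, if_neg hjk2.symm, if_neg hjk2.symm]
        omega
      · by_cases e2 : x = k
        · subst e2
          simp only [if_neg e1, if_true, if_neg hjk'.symm, if_neg hPk.2.2.symm]
          omega
        · by_cases e3 : x = P j
          · subst e3
            simp only [if_neg e1, if_neg e2, if_true, if_neg hPP, hjj]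
            omega
          · by_cases e4 : x = P k
            · subst e4
              simp only [if_neg e1, if_neg e2, if_neg e3, if_true, hkk]
              omega
            · simp only [if_neg e1, if_neg e2, if_neg e3, if_neg e4]
    simp only [Finset.sum_add_distrib, Finset.sum_ite_eq', mj, mk, mPj, mPk, if_true] at key
    have g1 := hcomm (P j) j
    have g2 := hcomm (P k) k
    have g3 := hcomm k j
    have g4 := hcomm (P k) (P j)
    have key' : (∑ x ∈ S, c x (if x = j then k else if x = k then j else if x = P j then P k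
        else if x = P k then P j else P x)) + 2 * c j (P j) + 2 * c k (P k) =
        (∑ x ∈ S, c x (P x)) + 2 * c j k + 2 * c (P j) (P k) := by omega
    exact key'
  · intro x hx hx'
    have := h1 x hx hx'
    split_ifs <;> omega

theorem ga_inv {A : ℕ → ℕ} (hA : ∀ x, A (A x) = x) {j k : ℕ} (hjk : j ≠ k) (hj1 : A j ≠ j)
    (hk1 : A k ≠ k) (x : ℕ) :
    (fun x => if x = j then k else if x = k then j else if x = A j then A k
      else if x = A k then A j else A x) ((fun x => if x = j then k else if x = k then j
      else if x = A j then A k else if x = A k then A j else A x) x) = x := by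
  have h1 := hA x
  have h2 := hA j
  have h3 := hA k
  grind

/-- the block relation after the action of a generator -/
theorem ga_E {A : ℕ → ℕ} {α : St} (hA : ∀ x, A (A x) = x) (h3 : ∀ x z, α x z ↔ (z = x ∨ z = A x))
    {j0 k0 j1 k1 : ℕ} (e1 : j0 ≠ k0) (e2 : j1 ≠ k1) (e3 : j0 ≠ j1) (e4 : j0 ≠ k1) (e5 : k0 ≠ j1)
    (e6 : k0 ≠ k1) (a1 : A j0 ≠ j0) (a2 : A j0 ≠ k0) (a3 : A j0 ≠ j1) (a4 : A j0 ≠ k1)
    (b1 : A k0 ≠ k0) (b3 : A k0 ≠ j1) (b4 : A k0 ≠ k1) (c1 : A j1 ≠ j1) (c2 : A j1 ≠ k1)
    (d1 : A k1 ≠ k1) (u z : ℕ) :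
    (pr j0 k0 (pr j1 k1 α)) u z ↔ (z = u ∨ z = if u = j0 then k0 else if u = k0 then j0 else
      if u = j1 then k1 else if u = k1 then j1 else if u = A j0 then A k0 else if u = A k0 then A j0
      else if u = A j1 then A k1 else if u = A k1 then A j1 else A u) := by
  have q1 := hA j0
  have q2 := hA k0
  have q3 := hA j1
  have q4 := hA k1
  have q5 := hA u
  have r1 : A k0 ≠ j0 := fun h => a2 (by rw [← h, q2])
  have r2 : A j1 ≠ j0 := fun h => a3 (by rw [← h, q3])
  have r3 : A j1 ≠ k0 := fun h => b3 (by rw [← h, q3])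
  have r4 : A k1 ≠ j0 := fun h => a4 (by rw [← h, q4])
  have r5 : A k1 ≠ k0 := fun h => b4 (by rw [← h, q4])
  have r6 : A k1 ≠ j1 := fun h => c2 (by rw [← h, q4])
  have s1 : A j0 ≠ A k0 := fun h => e1 (by rw [← q1, h, q2])
  have s2 : A j1 ≠ A k1 := fun h => e2 (by rw [← q3, h, q4])
  have s3 : A j0 ≠ A j1 := fun h => e3 (by rw [← q1, h, q3])
  have s4 : A j0 ≠ A k1 := fun h => e4 (by rw [← q1, h, q4])
  have s5 : A k0 ≠ A j1 := fun h => e5 (by rw [← q2, h, q3])
  have s6 : A k0 ≠ A k1 := fun h => e6 (by rw [← q2, h, q4])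
  have v1 : (if j0 = j1 then k1 else if j0 = k1 then j1 else if j0 = A j1 then A k1
      else if j0 = A k1 then A j1 else A j0) = A j0 := by
    rw [if_neg e3, if_neg e4, if_neg r2.symm, if_neg r4.symm]
  have v2 : (if k0 = j1 then k1 else if k0 = k1 then j1 else if k0 = A j1 then A k1
      else if k0 = A k1 then A j1 else A k0) = A k0 := by
    rw [if_neg e5, if_neg e6, if_neg r3.symm, if_neg r5.symm]
  rw [ga_pr (ga_inv hA e2 c1 d1) (ga_pr hA h3 e2 c1 d1) e1 (by simp only [v1]; exact a1)
    (by simp only [v2]; exact b1)]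
  simp only [v1, v2]
  have : (if u = j0 then k0 else if u = k0 then j0 else if u = A j0 then A k0 else
      if u = A k0 then A j0 else if u = j1 then k1 else if u = k1 then j1 else if u = A j1 then A k1
      else if u = A k1 then A j1 else A u) = (if u = j0 then k0 else if u = k0 then j0 else
      if u = j1 then k1 else if u = k1 then j1 else if u = A j0 then A k0 else if u = A k0 then A j0
      else if u = A j1 then A k1 else if u = A k1 then A j1 else A u) := by
    by_cases t1 : u = j1
    · subst t1
      simp only [if_neg e3.symm, if_neg e5.symm, if_neg a3.symm, if_neg b3.symm, if_true]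
    · by_cases t2 : u = k1
      · subst t2
        simp only [if_neg e4.symm, if_neg e6.symm, if_neg a4.symm, if_neg b4.symm, if_neg t1,
          if_true]
      · simp only [if_neg t1, if_neg t2]
  rw [this]

theorem ga_ps_even (L i : ℕ) : ps L (2 * i + 4) = i := by
  unfold ps
  rw [if_pos (by omega)]
  omega

theorem ga_ps_odd (L i : ℕ) : ps L (2 * i + 5) = i + L := by
  unfold ps
  rw [if_neg (by omega)]
  omega

theorem ga_ps_4 (L : ℕ) : ps L 4 = 0 := ga_ps_even L 0
theorem ga_ps_5 (L : ℕ) : ps L 5 = L := by
  have := ga_ps_odd L 0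
  simpa using this

theorem ga_fl_even (i : ℕ) : fl (2 * i + 4) = 2 * i + 5 := by
  rw [bb_fl_val, if_pos (by omega)]
theorem ga_fl_odd (i : ℕ) : fl (2 * i + 5) = 2 * i + 4 := by
  rw [bb_fl_val, if_neg (by omega)]
  omega

/-- change of the area under a generator -/
theorem ga_ar_E {L : ℕ} {α : St} {A : ℕ → ℕ} (hA : ∀ x, A (A x) = x)
    (h1 : ∀ x, 4 ≤ x → x < 2 * L + 4 → 4 ≤ A x ∧ A x < 2 * L + 4 ∧ A x ≠ x)
    (h3 : ∀ x z, α x z ↔ (z = x ∨ z = A x)) (hfl : ∀ x, A (fl x) = fl (A x)) {p : ℕ}
    (hp : p + 1 < L) (a2 : A (2 * p + 4) ≠ 2 * p + 6) (a3 : A (2 * p + 4) ≠ 2 * p + 5)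
    (a4 : A (2 * p + 4) ≠ 2 * p + 7) (b4 : A (2 * p + 6) ≠ 2 * p + 7) :
    ar L (pr (2 * p + 4) (2 * p + 6) (pr (2 * p + 5) (2 * p + 7) α)) +
      2 * cd L p (ps L (A (2 * p + 4))) + 2 * cd L (p + 1) (ps L (A (2 * p + 6))) +
      2 * cd L (p + L) (ps L (fl (A (2 * p + 4)))) +
      2 * cd L (p + 1 + L) (ps L (fl (A (2 * p + 6)))) =
    ar L α + 2 * cd L p (p + 1) + 2 * cd L (ps L (A (2 * p + 4))) (ps L (A (2 * p + 6))) +
      2 * cd L (p + L) (p + 1 + L) + 2 * cd L (ps L (fl (A (2 * p + 4)))) (ps L (fl (A (2 * p + 6)))) := by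
  have f1 : fl (2 * p + 4) = 2 * p + 5 := ga_fl_even p
  have f2 : fl (2 * p + 6) = 2 * p + 7 := ga_fl_even (p + 1)
  have f3 := hfl (2 * p + 4)
  have f4 := hfl (2 * p + 6)
  rw [f1] at f3
  rw [f2] at f4
  have ps1 : ps L (2 * p + 4) = p := ga_ps_even L p
  have ps2 : ps L (2 * p + 6) = p + 1 := ga_ps_even L (p + 1)
  have ps3 : ps L (2 * p + 5) = p + L := ga_ps_odd L p
  have ps4 : ps L (2 * p + 7) = p + 1 + L := ga_ps_odd L (p + 1)
  have A0 := h1 (2 * p + 4) (by omega) (by omega)
  have B0 := h1 (2 * p + 6) (by omega) (by omega)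
  have A1 := h1 (2 * p + 5) (by omega) (by omega)
  have B1 := h1 (2 * p + 7) (by omega) (by omega)
  have q1 := hA (2 * p + 4)
  have q2 := hA (2 * p + 6)
  have q3 := hA (2 * p + 5)
  have q4 := hA (2 * p + 7)
  have c2 : A (2 * p + 5) ≠ 2 * p + 7 := by
    intro h
    rw [f3] at h
    have := congrArg fl h
    rw [bb_fl_fl, ← f2, bb_fl_fl] at this
    exact a2 this
  have b3 : A (2 * p + 6) ≠ 2 * p + 5 := by
    intro h
    rw [h, f3] at q2
    have := congrArg fl q2
    rw [bb_fl_fl, f2] at this
    exact a4 this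
  have r2 : A (2 * p + 5) ≠ 2 * p + 4 := fun h => a3 (by rw [← h, q3])
  have r3 : A (2 * p + 5) ≠ 2 * p + 6 := fun h => b3 (by rw [← h, q3])
  have r4 : A (2 * p + 7) ≠ 2 * p + 4 := fun h => a4 (by rw [← h, q4])
  have r5 : A (2 * p + 7) ≠ 2 * p + 6 := fun h => b4 (by rw [← h, q4])
  have g1 := ga_ar_pr hA h1 h3 (j := 2 * p + 5) (k := 2 * p + 7) (by omega) (by omega) (by omega)
    (by omega) (by omega) c2
  have v1 : (if 2 * p + 4 = 2 * p + 5 then 2 * p + 7 else if 2 * p + 4 = 2 * p + 7 then 2 * p + 5 else
      if 2 * p + 4 = A (2 * p + 5) then A (2 * p + 7)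
      else if 2 * p + 4 = A (2 * p + 7) then A (2 * p + 5) else A (2 * p + 4)) = A (2 * p + 4) := by
    rw [if_neg (by omega), if_neg (by omega), if_neg r2.symm, if_neg r4.symm]
  have v2 : (if 2 * p + 6 = 2 * p + 5 then 2 * p + 7 else if 2 * p + 6 = 2 * p + 7 then 2 * p + 5 else
      if 2 * p + 6 = A (2 * p + 5) then A (2 * p + 7)
      else if 2 * p + 6 = A (2 * p + 7) then A (2 * p + 5) else A (2 * p + 6)) = A (2 * p + 6) := by
    rw [if_neg (by omega), if_neg (by omega), if_neg r3.symm, if_neg r5.symm]
  have g2 := ga_ar_pr (L := L) (ga_inv hA (show 2 * p + 5 ≠ 2 * p + 7 by omega) A1.2.2 B1.2.2)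
    (by
      intro x hx hx'
      have := h1 x hx hx'
      have hxx := hA x
      have s2 : A (2 * p + 5) ≠ A (2 * p + 7) := fun h => by
        rw [h, q4] at q3
        omega
      split_ifs <;> grind)
    (ga_pr hA h3 (show 2 * p + 5 ≠ 2 * p + 7 by omega) A1.2.2 B1.2.2) (j := 2 * p + 4)
    (k := 2 * p + 6) (by omega) (by omega) (by omega) (by omega) (by omega)
    (by simp only [v1]; exact a2)
  simp only [v1, v2] at g2
  rw [ps1, ps2] at g2
  rw [ps3, ps4, f3, f4] at g1
  omega

theorem ar_lt {L p d : ℕ} {σ : St} (h1 : σ ∈ W L) (_h2 : σ ∈ NC L) (hp : 0 < p) (hpd : p + 1 < d) (hd : d < L)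
    (h3 : σ 4 (2 * p + 4)) (h4 : σ (2 * p + 6) (2 * d + 4)) :
    ar L σ < ar L (pr (2 * p + 4) (2 * p + 6) (pr (2 * p + 5) (2 * p + 7) σ)) := by
  obtain ⟨P, hP, g1, g3, hfl⟩ := ga_partner h1
  have e1 : P (2 * p + 4) = 4 := by
    have := (g3 _ _).1 (σ.symm h3)
    omega
  have e2 : P (2 * p + 6) = 2 * d + 4 := by
    have := (g3 _ _).1 h4
    omega
  have g := ga_ar_E (L := L) hP g1 g3 hfl (p := p) (by omega) (by omega) (by omega) (by omega)
    (by omega)
  rw [e1, e2, ga_fl_even d, show fl 4 = 5 from rfl, ga_ps_even, ga_ps_odd, ga_ps_4, ga_ps_5] at g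
  clear hP g1 g3 hfl e1 e2 h1 h3 h4
  have a1 : cd L p 0 = p := by unfold cd; omega
  have a2 : cd L (p + 1) d = d - (p + 1) := by unfold cd; omega
  have a3 : cd L (p + L) L = p := by unfold cd; omega
  have a4 : cd L (p + 1 + L) (d + L) = d - (p + 1) := by unfold cd; omega
  have a5 : cd L p (p + 1) = 1 := by unfold cd; omega
  have a6 : cd L 0 d = d := by unfold cd; omega
  have a7 : cd L (p + L) (p + 1 + L) = 1 := by unfold cd; omega
  have a8 : cd L L (d + L) = d := by unfold cd; omega
  rw [a1, a2, a3, a4, a5, a6, a7, a8] at g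
  omega

theorem ga_last1 {L p d q r X Y : ℕ} (hd : d < L) (hpd : p + 1 < d) (h6 : q < p) (h8 : r ≤ q)
    (h : X + 2 * cd L p q + 2 * cd L (p + 1) r + 2 * cd L (p + L) (q + L) + 2 * cd L (p + 1 + L) (r + L) =
      Y + 2 * cd L p (p + 1) + 2 * cd L q r + 2 * cd L (p + L) (p + 1 + L) + 2 * cd L (q + L) (r + L)) :
    X ≤ Y := by
  have a1 : cd L p q = p - q := by unfold cd; omega
  have a2 : cd L (p + 1) r = p + 1 - r := by unfold cd; omega
  have a3 : cd L (p + L) (q + L) = p - q := by unfold cd; omega
  have a4 : cd L (p + 1 + L) (r + L) = p + 1 - r := by unfold cd; omega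
  have a5 : cd L p (p + 1) = 1 := by unfold cd; omega
  have a6 : cd L q r = q - r := by unfold cd; omega
  have a7 : cd L (p + L) (p + 1 + L) = 1 := by unfold cd; omega
  have a8 : cd L (q + L) (r + L) = q - r := by unfold cd; omega
  rw [a1, a2, a3, a4, a5, a6, a7, a8] at h
  omega

theorem ga_last2 {L p d q r X Y : ℕ} (hd : d < L) (hpd : p + 1 < d) (hqd : q < d)
    (h6 : p < q) (h7 : p + 1 < r) (h8 : r ≤ q)
    (h : X + 2 * cd L p q + 2 * cd L (p + 1) r + 2 * cd L (p + L) (q + L) + 2 * cd L (p + 1 + L) (r + L) =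
      Y + 2 * cd L p (p + 1) + 2 * cd L q r + 2 * cd L (p + L) (p + 1 + L) + 2 * cd L (q + L) (r + L)) :
    X ≤ Y := by
  have a1 : cd L p q = q - p := by unfold cd; omega
  have a2 : cd L (p + 1) r = r - (p + 1) := by unfold cd; omega
  have a3 : cd L (p + L) (q + L) = q - p := by unfold cd; omega
  have a4 : cd L (p + 1 + L) (r + L) = r - (p + 1) := by unfold cd; omega
  have a5 : cd L p (p + 1) = 1 := by unfold cd; omega
  have a6 : cd L q r = q - r := by unfold cd; omega
  have a7 : cd L (p + L) (p + 1 + L) = 1 := by unfold cd; omega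
  have a8 : cd L (q + L) (r + L) = q - r := by unfold cd; omega
  rw [a1, a2, a3, a4, a5, a6, a7, a8] at h
  omega

set_option maxHeartbeats 4000000 in
theorem preim {L p d : ℕ} {σ : St} (h1 : σ ∈ W L) (h2 : σ ∈ NC L) (hp : 0 < p) (hpd : p + 1 < d) (hd : d < L)
    (h3 : σ 4 (2 * p + 4)) (h4 : σ (2 * p + 6) (2 * d + 4)) {α : St} (ha : α ∈ W L) (ha2 : α ∈ NC L)
    (h : pr (2 * p + 4) (2 * p + 6) (pr (2 * p + 5) (2 * p + 7) α) =
      pr (2 * p + 4) (2 * p + 6) (pr (2 * p + 5) (2 * p + 7) σ)) :
    α = σ ∨ ar L (pr (2 * p + 4) (2 * p + 6) (pr (2 * p + 5) (2 * p + 7) σ)) ≤ ar L α := by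
  obtain ⟨P, hP, g1, g3, hfl⟩ := ga_partner h1
  obtain ⟨A, hA, k1, k3, hfA⟩ := ga_partner ha
  -- noncrossing
  have nc : ∀ (β : St), β ∈ NC L → ∀ x y z w : ℕ, 4 ≤ x → 4 ≤ y → 4 ≤ z → 4 ≤ w →
      x < 2 * L + 4 → y < 2 * L + 4 → z < 2 * L + 4 → w < 2 * L + 4 → ps L x < ps L y →
      ps L y < ps L z → ps L z < ps L w → β x z → β y w → False :=
    fun β hβ x y z w u1 u2 u3 u4 u5 u6 u7 u8 u9 u10 u11 u12 u13 =>
      hβ x y z w u1 u2 u3 u4 u5 u6 u7 u8 u9 u10 u11 u12 u13
  have pse : ∀ i, ps L (2 * i + 4) = i := ga_ps_even L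
  have pso : ∀ i, ps L (2 * i + 5) = i + L := ga_ps_odd L
  have ps4 : ps L 4 = 0 := ga_ps_4 L
  have ps5 : ps L 5 = L := ga_ps_5 L
  have ps6 : ps L (2 * p + 6) = p + 1 := ga_ps_even L (p + 1)
  have ps7 : ps L (2 * p + 7) = p + 1 + L := ga_ps_odd L (p + 1)
  have f1 : fl (2 * p + 4) = 2 * p + 5 := ga_fl_even p
  have f2 : fl (2 * p + 6) = 2 * p + 7 := ga_fl_even (p + 1)
  have f3 := hfA (2 * p + 4)
  have f4 := hfA (2 * p + 6)
  rw [f1] at f3
  rw [f2] at f4
  have f5 : fl 4 = 5 := rfl
  have f5' : fl 5 = 4 := rfl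
  have f6 : fl (2 * d + 4) = 2 * d + 5 := ga_fl_even d
  have f6' : fl (2 * d + 5) = 2 * d + 4 := ga_fl_odd d
  -- partners in `σ`
  have e1 : P (2 * p + 4) = 4 := by
    have := (g3 _ _).1 (σ.symm h3)
    omega
  have e2 : P (2 * p + 6) = 2 * d + 4 := by
    have := (g3 _ _).1 h4
    omega
  have e3 : P (2 * p + 5) = 5 := by rw [← f1, hfl, e1, f5]
  have e4 : P (2 * p + 7) = 2 * d + 5 := by rw [← f2, hfl, e2, f6]
  have invP : ∀ u v, P u = v → P v = u := fun u v h => by rw [← h, hP]
  have inv : ∀ u v, A u = v → A v = u := fun u v h => by rw [← h, hA]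
  have e5 : P 4 = 2 * p + 4 := invP _ _ e1
  have e6 : P (2 * d + 4) = 2 * p + 6 := invP _ _ e2
  have e7 : P 5 = 2 * p + 5 := invP _ _ e3
  have e8 : P (2 * d + 5) = 2 * p + 7 := invP _ _ e4
  have hE := ga_E hP g3 (j0 := 2 * p + 4) (k0 := 2 * p + 6) (j1 := 2 * p + 5) (k1 := 2 * p + 7)
    (by omega) (by omega) (by omega) (by omega) (by omega) (by omega) (by omega) (by omega)
    (by omega) (by omega) (by omega) (by omega) (by omega) (by omega) (by omega) (by omega)
  rw [e1, e2, e3, e4] at hE
  -- partners in `α`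
  have A0 := k1 (2 * p + 4) (by omega) (by omega)
  have B0 := k1 (2 * p + 6) (by omega) (by omega)
  have A1 := k1 (2 * p + 5) (by omega) (by omega)
  have B1 := k1 (2 * p + 7) (by omega) (by omega)
  have A4 := k1 4 (by omega) (by omega)
  have Ad := k1 (2 * d + 4) (by omega) (by omega)
  have q1 := hA (2 * p + 4)
  have q2 := hA (2 * p + 6)
  have q3 := hA (2 * p + 5)
  have q4 := hA (2 * p + 7)
  have q5 := hA 4
  have q6 := hA (2 * d + 4)
  have αA : ∀ x, α x (A x) := fun x => (k3 _ _).2 (Or.inr rfl)
  have h4d : (pr (2 * p + 4) (2 * p + 6) (pr (2 * p + 5) (2 * p + 7) α)) 4 (2 * d + 4) := by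
    rw [h, hE]
    right
    rw [if_neg (by omega), if_neg (by omega), if_neg (by omega), if_neg (by omega), if_pos rfl]
  by_cases c0 : A (2 * p + 4) = 2 * p + 6
  · -- `α` is already in the image
    right
    have c1 : A (2 * p + 5) = 2 * p + 7 := by rw [f3, c0, f2]
    rw [← h, bb_pr_block (j := 2 * p + 5) (k := 2 * p + 7) (fun z => by rw [k3, c1]),
      bb_pr_block (fun z => by rw [k3, c0])]
  · by_cases cA : A (2 * p + 4) = 2 * p + 5 ∨ A (2 * p + 4) = 2 * p + 7 ∨ A (2 * p + 6) = 2 * p + 7
    · exfalso
      have l1 : (A (2 * p + 5) = A (2 * p + 4) + 1 ∧ A (2 * p + 4) % 2 = 0) ∨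
          (A (2 * p + 5) + 1 = A (2 * p + 4) ∧ A (2 * p + 4) % 2 = 1) := by
        rw [f3, bb_fl_val]
        split_ifs <;> omega
      have l2 : (A (2 * p + 7) = A (2 * p + 6) + 1 ∧ A (2 * p + 6) % 2 = 0) ∨
          (A (2 * p + 7) + 1 = A (2 * p + 6) ∧ A (2 * p + 6) % 2 = 1) := by
        rw [f4, bb_fl_val]
        split_ifs <;> omega
      have i1 := inv (2 * p + 4) 4
      have i2 := inv (2 * p + 6) 4
      have i3 := inv (2 * p + 5) 4
      have i4 := inv (2 * p + 7) 4
      have i1' := inv 4 (2 * p + 4)
      have i2' := inv 4 (2 * p + 6)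
      have i3' := inv 4 (2 * p + 5)
      have i4' := inv 4 (2 * p + 7)
      have i5 := inv (2 * p + 4) (2 * p + 5)
      have i6 := inv (2 * p + 4) (2 * p + 7)
      have i7 := inv (2 * p + 6) (2 * p + 7)
      have i8 := inv (2 * p + 5) (2 * p + 6)
      have h5 : A 4 = 2 * d + 4 := by
        simp only [pr_iff, k3] at h4d
        clear q1 q2 q3 q4 q5 q6 A0 B0 A1 B1 A4 Ad c0 f1 f2 f3 f4 f5 f5' f6 f6' e1 e2 e3 e4 e5 e6 e7 e8
          ps4 ps5 ps6 ps7 i1 i2 i3 i4 i5 i6 i7
        rcases h4d with h4d | h4d | ⟨-, -, h4d⟩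
        · exfalso
          clear l1 l2 i1' i2' i3' i4' i8 cA
          omega
        · exfalso
          clear l1 l2 i1' i2' i3' i4' i8 cA
          omega
        · rcases h4d with h4d | ⟨h4d, h4e⟩ | ⟨h4d, h4e⟩
          · clear i1' i2' i8
            rcases cA with cA | cA | cA <;> omega
          · exfalso
            clear i2' i8
            have j1 : A 4 = 2 * p + 4 ∨ (2 * p + 5 = A 4 ∧ 2 * p + 4 = A (2 * p + 7)) ∨
                (2 * p + 7 = A 4 ∧ 2 * p + 4 = A (2 * p + 5)) := by
              clear l1 l2 i1' i3' i4' h4e cA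
              omega
            have j2 : 2 * d + 4 = A (2 * p + 6) ∨ (2 * p + 5 = A (2 * p + 6) ∧ 2 * d + 4 = A (2 * p + 7)) ∨
                (2 * p + 7 = A (2 * p + 6) ∧ 2 * d + 4 = A (2 * p + 5)) := by
              clear l1 l2 i1' i3' i4' h4d j1 cA
              omega
            clear h4d h4e
            rcases j1 with j1 | j1 | j1 <;> rcases cA with cA | cA | cA <;> omega
          · exfalso
            clear i1'
            have j1 : A 4 = 2 * p + 6 ∨ (2 * p + 5 = A 4 ∧ 2 * p + 6 = A (2 * p + 7)) ∨
                (2 * p + 7 = A 4 ∧ 2 * p + 6 = A (2 * p + 5)) := by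
              clear l1 l2 i2' i3' i4' i8 h4e cA
              omega
            have j2 : 2 * d + 4 = A (2 * p + 4) ∨ (2 * p + 5 = A (2 * p + 4) ∧ 2 * d + 4 = A (2 * p + 7)) ∨
                (2 * p + 7 = A (2 * p + 4) ∧ 2 * d + 4 = A (2 * p + 5)) := by
              clear l1 l2 i2' i3' i4' i8 h4d j1 cA
              omega
            clear h4d h4e
            rcases j1 with j1 | j1 | j1 <;> rcases cA with cA | cA | cA <;> omega
      rcases cA with c | c | c
      · exact nc α ha2 4 (2 * p + 4) (2 * d + 4) (2 * p + 5) (by omega) (by omega) (by omega)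
          (by omega) (by omega) (by omega) (by omega) (by omega) (by rw [ps4, pse]; omega)
          (by rw [pse, pse]; omega) (by rw [pse, pso]; omega) (h5 ▸ αA 4) (c ▸ αA _)
      · exact nc α ha2 4 (2 * p + 4) (2 * d + 4) (2 * p + 7) (by omega) (by omega) (by omega)
          (by omega) (by omega) (by omega) (by omega) (by omega) (by rw [ps4, pse]; omega)
          (by rw [pse, pse]; omega) (by rw [pse, ps7]; omega) (h5 ▸ αA 4) (c ▸ αA _)
      · exact nc α ha2 4 (2 * p + 6) (2 * d + 4) (2 * p + 7) (by omega) (by omega) (by omega)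
          (by omega) (by omega) (by omega) (by omega) (by omega) (by rw [ps4, ps6]; omega)
          (by rw [ps6, pse]; omega) (by rw [pse, ps7]; omega) (h5 ▸ αA 4) (c ▸ αA _)
    · rw [not_or, not_or] at cA
      obtain ⟨cA1, cA2, cA3⟩ := cA
      have c2 : A (2 * p + 5) ≠ 2 * p + 7 := by
        intro h
        rw [f3] at h
        have := congrArg fl h
        rw [bb_fl_fl, ← f2, bb_fl_fl] at this
        exact c0 this
      have b3 : A (2 * p + 6) ≠ 2 * p + 5 := by
        intro h
        rw [h, f3] at q2
        have := congrArg fl q2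
        rw [bb_fl_fl, f2] at this
        exact cA2 this
      have hEA := ga_E hA k3 (j0 := 2 * p + 4) (k0 := 2 * p + 6) (j1 := 2 * p + 5)
        (k1 := 2 * p + 7) (by omega) (by omega) (by omega) (by omega) (by omega) (by omega)
        A0.2.2 c0 cA1 cA2 B0.2.2 b3 cA3 A1.2.2 c2 B1.2.2
      have harE := ga_ar_E (L := L) hA k1 k3 hfA (p := p) (by omega) c0 cA1 cA2 cA3
      rw [hEA, if_neg (by omega), if_neg (by omega), if_neg (by omega), if_neg (by omega)] at h4d
      by_cases d1 : 4 = A (2 * p + 4)
      · -- `α = σ`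
        rw [if_pos d1] at h4d
        left
        have m1 : A (2 * p + 4) = 4 := d1.symm
        have m2 : A (2 * p + 6) = 2 * d + 4 := by omega
        have m3 : A (2 * p + 5) = 5 := by rw [f3, m1]; exact f5
        have m4 : A (2 * p + 7) = 2 * d + 5 := by rw [f4, m2, f6]
        rw [m1, m2, m3, m4] at hEA
        apply Setoid.ext
        intro u z
        rw [k3, g3]
        have hAP : A u = P u := by
          by_cases n1 : u = 2 * p + 4
          · rw [n1, m1, e1]
          by_cases n2 : u = 2 * p + 6
          · rw [n2, m2, e2]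
          by_cases n3 : u = 2 * p + 5
          · rw [n3, m3, e3]
          by_cases n4 : u = 2 * p + 7
          · rw [n4, m4, e4]
          by_cases n5 : u = 4
          · rw [n5, e5]; exact inv _ _ m1
          by_cases n6 : u = 2 * d + 4
          · rw [n6, e6]; exact inv _ _ m2
          by_cases n7 : u = 5
          · rw [n7, e7]; exact inv _ _ m3
          by_cases n8 : u = 2 * d + 5
          · rw [n8, e8]; exact inv _ _ m4
          have key : ∀ z, (z = u ∨ z = A u) ↔ (z = u ∨ z = P u) := by
            intro z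
            have t1 := hEA u z
            have t2 := hE u z
            rw [if_neg n1, if_neg n2, if_neg n3, if_neg n4, if_neg n5, if_neg n6, if_neg n7,
              if_neg n8] at t1 t2
            rw [← t1, ← t2, h]
          rcases (key (A u)).1 (Or.inr rfl) with t | t
          · rcases (key (P u)).2 (Or.inr rfl) with t' | t'
            · rw [t, t']
            · exact t'.symm
          · exact t
        rw [hAP]
      · rw [if_neg d1] at h4d
        by_cases d2 : 4 = A (2 * p + 6)
        · exfalso
          rw [if_pos d2] at h4d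
          have m1 : A (2 * p + 4) = 2 * d + 4 := by omega
          exact nc α ha2 4 (2 * p + 4) (2 * p + 6) (2 * d + 4) (by omega) (by omega) (by omega)
            (by omega) (by omega) (by omega) (by omega) (by omega) (by rw [ps4, pse]; omega)
            (by rw [pse, ps6]; omega) (by rw [ps6, pse]; omega) (α.symm (d2 ▸ αA (2 * p + 6)))
            (m1 ▸ αA _)
        · rw [if_neg d2] at h4d
          by_cases d3 : 4 = A (2 * p + 5)
          · exfalso
            rw [if_pos d3] at h4d
            have m1 : A (2 * p + 7) = 2 * d + 4 := by omega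
            have m2 : A (2 * p + 4) = 5 := by
              have := congrArg fl f3
              rw [bb_fl_fl, ← d3] at this
              exact this.symm
            have m3 : A (2 * p + 6) = 2 * d + 5 := by
              have := congrArg fl f4
              rw [bb_fl_fl, m1, f6] at this
              exact this.symm
            exact nc α ha2 (2 * p + 4) (2 * p + 6) 5 (2 * d + 5) (by omega) (by omega) (by omega)
              (by omega) (by omega) (by omega) (by omega) (by omega) (by rw [ps6, pse]; omega)
              (by rw [ps5, ps6]; omega) (by rw [ps5, pso]; omega) (m2 ▸ αA _) (m3 ▸ αA _)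
          · rw [if_neg d3] at h4d
            by_cases d4 : 4 = A (2 * p + 7)
            · exfalso
              rw [if_pos d4] at h4d
              have m1 : A (2 * p + 5) = 2 * d + 4 := by omega
              have m2 : A (2 * p + 4) = 2 * d + 5 := by
                have := congrArg fl f3
                rw [bb_fl_fl, m1, f6] at this
                exact this.symm
              have m3 : A 4 = 2 * p + 7 := inv _ _ d4.symm
              exact nc α ha2 4 (2 * p + 4) (2 * p + 7) (2 * d + 5) (by omega) (by omega) (by omega)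
                (by omega) (by omega) (by omega) (by omega) (by omega) (by rw [ps4, pse]; omega)
                (by rw [ps7, pse]; omega) (by rw [ps7, pso]; omega) (m3 ▸ αA _) (m2 ▸ αA _)
            · rw [if_neg d4] at h4d
              right
              have m : A 4 = 2 * d + 4 := by omega
              have m' : A (2 * d + 4) = 4 := inv _ _ m
              have α4 : α 4 (2 * d + 4) := m ▸ αA 4
              obtain ⟨q, hq, hq0, hqd⟩ : ∃ q, A (2 * p + 4) = 2 * q + 4 ∧ 0 < q ∧ q < d := by
                obtain ⟨q, hq | hq⟩ : ∃ q, A (2 * p + 4) = 2 * q + 4 ∨ A (2 * p + 4) = 2 * q + 5 :=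
                  ⟨(A (2 * p + 4) - 4) / 2, by omega⟩
                · refine ⟨q, hq, ?_, ?_⟩
                  · by_contra hcon
                    have : q = 0 := by omega
                    subst this
                    have := inv _ _ hq
                    omega
                  · by_contra hcon
                    rcases Nat.lt_or_ge d q with h6 | h6
                    · exact nc α ha2 4 (2 * p + 4) (2 * d + 4) (2 * q + 4) (by omega) (by omega)
                        (by omega) (by omega) (by omega) (by omega) (by omega) (by omega)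
                        (by rw [ps4, pse]; omega) (by rw [pse, pse]; omega)
                        (by rw [pse, pse]; omega) α4 (hq ▸ αA _)
                    · have : q = d := by omega
                      subst this
                      have := inv _ _ hq
                      omega
                · exfalso
                  exact nc α ha2 4 (2 * p + 4) (2 * d + 4) (2 * q + 5) (by omega) (by omega)
                    (by omega) (by omega) (by omega) (by omega) (by omega) (by omega)
                    (by rw [ps4, pse]; omega) (by rw [pse, pse]; omega)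
                    (by rw [pse, pso]; omega) α4 (hq ▸ αA _)
              obtain ⟨r, hr, hr0, hrd⟩ : ∃ r, A (2 * p + 6) = 2 * r + 4 ∧ 0 < r ∧ r < d := by
                obtain ⟨r, hr | hr⟩ : ∃ r, A (2 * p + 6) = 2 * r + 4 ∨ A (2 * p + 6) = 2 * r + 5 :=
                  ⟨(A (2 * p + 6) - 4) / 2, by omega⟩
                · refine ⟨r, hr, ?_, ?_⟩
                  · by_contra hcon
                    have : r = 0 := by omega
                    subst this
                    have := inv _ _ hr
                    omega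
                  · by_contra hcon
                    rcases Nat.lt_or_ge d r with h6 | h6
                    · exact nc α ha2 4 (2 * p + 6) (2 * d + 4) (2 * r + 4) (by omega) (by omega)
                        (by omega) (by omega) (by omega) (by omega) (by omega) (by omega)
                        (by rw [ps4, ps6]; omega) (by rw [ps6, pse]; omega)
                        (by rw [pse, pse]; omega) α4 (hr ▸ αA _)
                    · have : r = d := by omega
                      subst this
                      have := inv _ _ hr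
                      omega
                · exfalso
                  exact nc α ha2 4 (2 * p + 6) (2 * d + 4) (2 * r + 5) (by omega) (by omega)
                    (by omega) (by omega) (by omega) (by omega) (by omega) (by omega)
                    (by rw [ps4, ps6]; omega) (by rw [ps6, pse]; omega)
                    (by rw [pse, pso]; omega) α4 (hr ▸ αA _)
              have hqr : q ≠ r := by
                intro he
                rw [he, ← hr] at hq
                have := inv _ _ hq
                rw [hA] at this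
                omega
              have hqp : q ≠ p := by
                intro he
                rw [he] at hq
                exact A0.2.2 hq
              have hqp1 : q ≠ p + 1 := by
                intro he
                rw [he] at hq
                exact c0 hq
              have hrp1 : r ≠ p + 1 := by
                intro he
                rw [he] at hr
                exact B0.2.2 hr
              have hrp : r ≠ p := by
                intro he
                rw [he] at hr
                exact c0 (inv _ _ hr)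
              have αq : α (2 * p + 4) (2 * q + 4) := hq ▸ αA _
              have αr : α (2 * p + 6) (2 * r + 4) := hr ▸ αA _
              rw [h, hq, hr, ga_fl_even q, ga_fl_even r, pse, pse, pso, pso] at harE
              rcases Nat.lt_or_ge q p with h6 | h6
              · rcases Nat.lt_or_ge r p with h7 | h7
                · rcases Nat.lt_or_ge q r with h8 | h8
                  · exfalso
                    exact nc α ha2 (2 * q + 4) (2 * r + 4) (2 * p + 4) (2 * p + 6) (by omega)
                      (by omega) (by omega) (by omega) (by omega) (by omega) (by omega) (by omega)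
                      (by rw [pse, pse]; omega) (by rw [pse, pse]; omega)
                      (by rw [pse, ps6]; omega) (α.symm αq) (α.symm αr)
                  · exact ga_last1 hd hpd h6 h8 harE
                · exfalso
                  have hσ : (pr (2 * p + 4) (2 * p + 6) (pr (2 * p + 5) (2 * p + 7) α))
                      (2 * q + 4) (2 * r + 4) := by
                    rw [hEA]
                    right
                    rw [if_neg (by omega), if_neg (by omega), if_neg (by omega),
                      if_neg (by omega), if_pos hq.symm, hr]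
                  rw [h, hE, if_neg (by omega), if_neg (by omega), if_neg (by omega),
                      if_neg (by omega), if_neg (by omega), if_neg (by omega), if_neg (by omega),
                      if_neg (by omega)] at hσ
                  exact nc σ h2 4 (2 * q + 4) (2 * p + 4) (2 * r + 4) (by omega)
                      (by omega) (by omega) (by omega) (by omega) (by omega) (by omega) (by omega)
                      (by rw [pse, ps4]; omega) (by rw [pse, pse]; omega)
                      (by rw [pse, pse]; omega) h3 ((g3 _ _).2 hσ)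
              · rcases Nat.lt_or_ge r p with h7 | h7
                · exfalso
                  exact nc α ha2 (2 * r + 4) (2 * p + 4) (2 * p + 6) (2 * q + 4) (by omega)
                      (by omega) (by omega) (by omega) (by omega) (by omega) (by omega) (by omega)
                      (by rw [pse, pse]; omega) (by rw [pse, ps6]; omega)
                      (by rw [pse, ps6]; omega) (α.symm αr) αq
                · rcases Nat.lt_or_ge q r with h8 | h8
                  · exfalso
                    exact nc α ha2 (2 * p + 4) (2 * p + 6) (2 * q + 4) (2 * r + 4) (by omega)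
                      (by omega) (by omega) (by omega) (by omega) (by omega) (by omega) (by omega)
                      (by rw [pse, ps6]; omega) (by rw [pse, ps6]; omega)
                      (by rw [pse, pse]; omega) αq αr
                  · exact ga_last2 hd hpd hqd (by clear * - h6 hqp; omega)
                      (by clear * - h7 hrp hrp1; omega) h8 harE

end IPC
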