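import Pool.Agent.Helper64.IPC.BC
/-! MODULE GENA1: the theorem `valley` (used by GENA).
Positions are integers modulo `2L`, `gv_nd L a` is the node at the position `a`.  `f a` = distance from `a` ahead to
its partner, `0 < f a < 2L`, `f (a + f a) = 2L - f a`, `f (a + L) = f a`.  No valley means
`L - 1 ≤ f a + f (a + f a + 1)` for all `a`.  Start from an arc `(c-1, c)` of length one (minimal length) and
extend the nest `(c-1-j, c+j)`, `j < k`: if `L ≤ 2k` by the period `L`, otherwise by the noncrossing property. -/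
namespace IPC
open IP Finset

theorem gv_core {L : ℤ} (f : ℤ → ℤ)
    (f1 : ∀ a, 0 < f a) (f1' : ∀ a, f a < 2 * L)
    (f2 : ∀ a, f (a + f a) = 2 * L - f a)
    (f3 : ∀ a, f (a + L) = f a)
    (f4 : ∀ a b, a < b → b < a + f a → b + f b < a + f a ∨ a + 2 * L < b + f b)
    (h : ∀ a, L - 1 ≤ f a + f (a + f a + 1)) :
    ∃ c, ∀ j, 0 ≤ j → j < L → f (c - 1 - j) = 2 * j + 1 := by
  have f3' : ∀ a, f (a + 2 * L) = f a := by
    intro a
    have e : a + 2 * L = (a + L) + L := by ring
    rw [e, f3, f3]
  have f3m : ∀ a, f (a - 2 * L) = f a := by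
    intro a
    have := f3' (a - 2 * L)
    rw [sub_add_cancel] at this
    exact this.symm
  -- an arc of length one
  obtain ⟨a, ha⟩ : ∃ a, ∀ b, f a ≤ f b := by
    let S : Set ℕ := Set.range fun a => (f a).toNat
    have hS : S.Nonempty := ⟨(f 0).toNat, 0, rfl⟩
    obtain ⟨a, ha⟩ := Nat.sInf_mem hS
    refine ⟨a, fun b => ?_⟩
    have h1 : sInf S ≤ (f b).toNat := Nat.sInf_le ⟨b, rfl⟩
    have h2 : (f a).toNat = sInf S := ha
    have := f1 a
    have := f1 b
    omega
  have ha1 : f a = 1 := by
    by_contra hne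
    have h0 := f1 a
    have h1 := ha (a + 1)
    have h2 := f1' (a + 1)
    rcases f4 a (a + 1) (by omega) (by omega) with h3 | h3 <;> omega
  refine ⟨a + 1, ?_⟩
  set c := a + 1 with hc
  have main : ∀ k : ℕ, 1 ≤ k → (k : ℤ) ≤ L → ∀ j : ℤ, 0 ≤ j → j < k → f (c - 1 - j) = 2 * j + 1 := by
    intro k
    induction k with
    | zero => intro h1; omega
    | succ k ih =>
      intro _ hkL j hj0 hj
      rcases Nat.eq_zero_or_pos k with hk0 | hk0
      · subst hk0
        have : j = 0 := by push_cast at hj; omega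
        subst this
        have e : c - 1 - 0 = a := by omega
        rw [e, ha1]
        norm_num
      · push_cast at hkL hj
        have hP := ih hk0 (by omega)
        rcases lt_or_ge j (k : ℤ) with hjk | hjk
        · exact hP j hj0 hjk
        have hjk' : j = k := by omega
        subst hjk'
        have hkp : (1 : ℤ) ≤ k := by exact_mod_cast hk0
        generalize (k : ℤ) = K at *
        have hQ : ∀ m, 0 ≤ m → m < K → f (c + m) = 2 * L - (2 * m + 1) := by
          intro m hm0 hmK
          have h1 := hP m hm0 hmK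
          have h2 := f2 (c - 1 - m)
          rw [h1] at h2
          have e : c - 1 - m + (2 * m + 1) = c + m := by ring
          rw [e] at h2
          exact h2
        by_cases hkL2 : L ≤ 2 * K
        · -- period
          have h1 := hQ (L - 1 - K) (by omega) (by omega)
          have h2 := f3 (c - 1 - K)
          have e : c - 1 - K + L = c + (L - 1 - K) := by ring
          rw [e, h1] at h2
          omega
        · push Not at hkL2
          by_contra hne
          -- the values in the nest
          have hin : ∀ m, -K ≤ m → m < K → (f (c + m) = -2 * m - 1 ∧ m < 0) ∨ (f (c + m) = 2 * L - 2 * m - 1 ∧ 0 ≤ m) := by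
            intro m h1 h2
            rcases lt_or_ge m 0 with h3 | h3
            · left
              refine ⟨?_, h3⟩
              have := hP (-1 - m) (by omega) (by omega)
              have e : c - 1 - (-1 - m) = c + m := by ring
              rw [e] at this
              omega
            · right
              refine ⟨?_, h3⟩
              have := hQ m h3 h2
              omega
          have hinL : ∀ m, -K ≤ m → m < K → (f (c + L + m) = -2 * m - 1 ∧ m < 0) ∨
              (f (c + L + m) = 2 * L - 2 * m - 1 ∧ 0 ≤ m) := by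
            intro m h1 h2
            have e : c + L + m = (c + m) + L := by ring
            rw [e, f3]
            exact hin m h1 h2
          set x := c + K with hx
          set y := c - 1 - K with hy
          have fck : f (c - K) = 2 * K - 1 := by
            have := hP (K - 1) (by omega) (by omega)
            have e : c - 1 - (K - 1) = c - K := by ring
            rw [e] at this
            omega
          -- f x ≥ L
          have hfx : L ≤ f x := by
            by_contra hlt
            push Not at hlt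
            have h1 := h (c - K)
            rw [fck] at h1
            have e : c - K + (2 * K - 1) + 1 = x := by rw [hx]; ring
            rw [e] at h1
            have h2 := hinL (f x + K - L) (by omega) (by omega)
            have e2 : c + L + (f x + K - L) = x + f x := by rw [hx]; ring
            rw [e2, f2] at h2
            have := f1 x
            omega
          -- f y ≤ L
          have hfy : f y ≤ L := by
            by_contra hlt
            push Not at hlt
            have h1 := h (y + f y - 2 * L)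
            have e1 : f (y + f y - 2 * L) = 2 * L - f y := by rw [f3m, f2]
            rw [e1] at h1
            have e : y + f y - 2 * L + (2 * L - f y) + 1 = c - K := by rw [hy]; ring
            rw [e, fck] at h1
            have h2 := hinL (f y - 1 - K - L) (by omega) (by omega)
            have e2 : c + L + (f y - 1 - K - L) = y + f y := by rw [hy]; ring
            rw [e2, f2] at h2
            have := f1' y
            omega
          -- the partner of y is not in the nest
          have hyn : ¬ (y + f y < x) := by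
            intro hlt
            have := f1 y
            have h2 := hin (f y - 1 - K) (by omega) (by omega)
            have e2 : c + (f y - 1 - K) = y + f y := by rw [hy]; ring
            rw [e2, f2] at h2
            omega
          have hyx : y + f y ≠ x := by
            intro he
            omega
          rcases eq_or_lt_of_le hfx with hfx1 | hfx1
          · rcases eq_or_lt_of_le hfy with hfy1 | hfy1
            · rcases f4 y x (by omega) (by omega) with h3 | h3 <;> omega
            · rcases f4 y x (by omega) (by omega) with h3 | h3 <;> omega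
          · -- partner of x behind
            have e1 : f (x + f x - 2 * L) = 2 * L - f x := by rw [f3m, f2]
            have hxn : ¬ (c - K ≤ x + f x - 2 * L) := by
              intro hge
              have := f1' x
              have h2 := hin (f x + K - 2 * L) (by omega) (by omega)
              have e2 : c + (f x + K - 2 * L) = x + f x - 2 * L := by rw [hx]; ring
              rw [e2, e1] at h2
              omega
            have hxy : x + f x - 2 * L ≠ y := by
              intro he
              rw [he] at e1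
              omega
            have := f1' x
            rcases f4 (x + f x - 2 * L) y (by omega) (by rw [e1]; omega) with h3 | h3
            · rw [e1] at h3
              omega
            · omega
  intro j hj0 hj
  have hLn : (L.toNat : ℤ) = L := Int.toNat_of_nonneg (by omega)
  refine main L.toNat (by omega) (by omega) j hj0 (by omega)

/-- the node at the position `a` (modulo `2L`) -/
def gv_nd (L : ℕ) (a : ℤ) : ℕ :=
  if (a % (2 * L)).toNat < L then 2 * (a % (2 * L)).toNat + 4 else 2 * ((a % (2 * L)).toNat - L) + 5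

theorem gv_mod {L : ℕ} (hL : 0 < L) (a : ℤ) : 0 ≤ a % (2 * L) ∧ a % (2 * L) < 2 * L :=
  ⟨Int.emod_nonneg _ (by positivity), Int.emod_lt_of_pos _ (by positivity)⟩

theorem gv_nd_eq {L : ℕ} {a : ℤ} (h0 : 0 ≤ a) (h1 : a < 2 * L) :
    gv_nd L a = if a.toNat < L then 2 * a.toNat + 4 else 2 * (a.toNat - L) + 5 := by
  unfold gv_nd
  rw [Int.emod_eq_of_lt h0 h1]

theorem gv_nd_congr {L : ℕ} {a b : ℤ} (h : a % (2 * L) = b % (2 * L)) : gv_nd L a = gv_nd L b := by
  unfold gv_nd
  rw [h]

theorem gv_nd_mod {L : ℕ} (a : ℤ) : gv_nd L (a % (2 * L)) = gv_nd L a :=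
  gv_nd_congr (Int.emod_emod_of_dvd a (dvd_refl _))

theorem gv_nd_per {L : ℕ} (a k : ℤ) : gv_nd L (a + 2 * L * k) = gv_nd L a :=
  gv_nd_congr (Int.add_mul_emod_self_left a (2 * L) k)

theorem gv_nd_lt {L : ℕ} (hL : 0 < L) (a : ℤ) : 4 ≤ gv_nd L a ∧ gv_nd L a < 2 * L + 4 := by
  rw [← gv_nd_mod]
  obtain ⟨h0, h1⟩ := gv_mod hL a
  rw [gv_nd_eq h0 h1]
  split_ifs <;> omega

theorem gv_nd_inj {L : ℕ} (hL : 0 < L) {a b : ℤ} (h : gv_nd L a = gv_nd L b) : a % (2 * L) = b % (2 * L) := by
  rw [← gv_nd_mod a, ← gv_nd_mod b] at h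
  obtain ⟨h0, h1⟩ := gv_mod hL a
  obtain ⟨h2, h3⟩ := gv_mod hL b
  rw [gv_nd_eq h0 h1, gv_nd_eq h2 h3] at h
  split_ifs at h <;> omega

theorem gv_ps {L : ℕ} {a : ℤ} (h0 : 0 ≤ a) (h1 : a < 2 * L) : (ps L (gv_nd L a) : ℤ) = a := by
  rw [gv_nd_eq h0 h1]
  unfold ps
  split_ifs <;> omega

theorem gv_nd_ps {L x : ℕ} (h4 : 4 ≤ x) (hx : x < 2 * L + 4) : gv_nd L (ps L x) = x ∧ ps L x < 2 * L := by
  have h1 : ps L x < 2 * L := by
    unfold ps
    split_ifs <;> omega
  refine ⟨?_, h1⟩
  rw [gv_nd_eq (by omega) (by exact_mod_cast h1), Int.toNat_natCast]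
  unfold ps at *
  split_ifs at * <;> omega

theorem gv_step {L : ℕ} (hL : 0 < L) (a : ℤ) :
    (a + 1) % (2 * L) = if a % (2 * L) = 2 * L - 1 then 0 else a % (2 * L) + 1 := by
  obtain ⟨h0, h1⟩ := gv_mod hL a
  rw [← Int.emod_add_emod]
  split_ifs with h
  · rw [h]
    have e : (2 * (L : ℤ) - 1 + 1) = 2 * L := by ring
    rw [e, Int.emod_self]
  · rw [Int.emod_eq_of_lt (by omega) (by omega)]

theorem gv_rtn_apply (L x : ℕ) : rtn L x =
    if x < 4 ∨ 2 * L + 4 ≤ x then x else if x < 2 * L + 2 then x + 2 else 2 * L + 7 - x := rfl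

theorem gv_fl_apply (x : ℕ) : fl x = if x % 2 = 0 then x + 1 else x - 1 := rfl

theorem gv_rtn {L : ℕ} (hL : 0 < L) (a : ℤ) : rtn L (gv_nd L a) = gv_nd L (a + 1) := by
  obtain ⟨h0, h1⟩ := gv_mod hL a
  have e := gv_step hL a
  obtain ⟨t, ht⟩ : ∃ t : ℕ, (t : ℤ) = a % (2 * L) := ⟨(a % (2 * L)).toNat, Int.toNat_of_nonneg h0⟩
  have e2 : ((a + 1) % (2 * L)).toNat = if t = 2 * L - 1 then 0 else t + 1 := by
    rw [e]
    split_ifs <;> omega
  unfold gv_nd
  rw [e2, ← ht, Int.toNat_natCast, gv_rtn_apply]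
  have : t < 2 * L := by omega
  split_ifs <;> omega

theorem gv_rtn_pow {L : ℕ} (hL : 0 < L) (r : ℕ) (a : ℤ) : ((rtn L) ^ r) (gv_nd L a) = gv_nd L (a + r) := by
  induction r with
  | zero => simp
  | succ r ih =>
    rw [pow_succ', Equiv.Perm.mul_apply, ih, gv_rtn hL]
    congr 1
    push_cast
    ring

theorem gv_fl {L : ℕ} (hL : 0 < L) (a : ℤ) : fl (gv_nd L a) = gv_nd L (a + L) := by
  obtain ⟨h0, h1⟩ := gv_mod hL a
  have e : (a + L) % (2 * L) = if a % (2 * L) < L then a % (2 * L) + L else a % (2 * L) - L := by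
    rw [← Int.emod_add_emod]
    split_ifs with h
    · rw [Int.emod_eq_of_lt (by omega) (by omega)]
    · have e2 : a % (2 * L) + L = (a % (2 * L) - L) + 2 * L * 1 := by ring
      rw [e2, Int.add_mul_emod_self_left, Int.emod_eq_of_lt (by omega) (by omega)]
  obtain ⟨t, ht⟩ : ∃ t : ℕ, (t : ℤ) = a % (2 * L) := ⟨(a % (2 * L)).toNat, Int.toNat_of_nonneg h0⟩
  have e2 : ((a + L) % (2 * L)).toNat = if t < L then t + L else t - L := by
    rw [e]
    split_ifs <;> omega
  unfold gv_nd
  rw [e2, ← ht, Int.toNat_natCast, gv_fl_apply]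
  have : t < 2 * L := by omega
  split_ifs <;> omega

/-- the forward distance to the partner -/
theorem gv_f {L : ℕ} (hL : 0 < L) {σ : St} (h1 : σ ∈ W L) (a : ℤ) :
    ∃ t : ℤ, 0 < t ∧ t < 2 * L ∧ ∀ b : ℤ, σ (gv_nd L a) (gv_nd L b) ↔
      (b % (2 * L) = a % (2 * L) ∨ b % (2 * L) = (a + t) % (2 * L)) := by
  obtain ⟨h4, h5⟩ := gv_nd_lt hL a
  obtain ⟨y, hy, hya, hyz⟩ := h1.1.1.1 _ h5
  have hW := W_blocks h1
  have hay : σ y (gv_nd L a) := σ.symm ((hyz y).2 (Or.inr rfl))
  have hy4 : 4 ≤ y := by
    by_contra hlt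
    have : y = 0 ∨ y = 1 ∨ y = 2 ∨ y = 3 := by omega
    rcases this with rfl | rfl | rfl | rfl
    · rcases (hW.1 _).1 hay with h | h <;> omega
    · rcases (hW.2.1 _).1 hay with h | h <;> omega
    · rcases (hW.2.2.1 _).1 hay with h | h <;> omega
    · rcases (hW.2.2.2 _).1 hay with h | h <;> omega
  obtain ⟨hp1, hp2⟩ := gv_nd_ps hy4 hy
  obtain ⟨hm0, hm1⟩ := gv_mod hL ((ps L y : ℤ) - a)
  have key : (a + ((ps L y : ℤ) - a) % (2 * L)) % (2 * L) = (ps L y : ℤ) % (2 * L) := by
    rw [Int.add_emod_emod]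
    congr 1
    ring
  refine ⟨((ps L y : ℤ) - a) % (2 * L), ?_, hm1, fun b => ?_⟩
  · rcases eq_or_lt_of_le hm0 with h | h
    · exfalso
      rw [← h, add_zero] at key
      apply hya
      rw [← hp1]
      exact (gv_nd_congr key).symm
    · exact h
  · rw [hyz, key]
    constructor
    · rintro (h | h)
      · exact Or.inl (gv_nd_inj hL h)
      · right
        rw [← hp1] at h
        exact gv_nd_inj hL h
    · rintro (h | h)
      · exact Or.inl (gv_nd_congr h)
      · right
        rw [← hp1]
        exact gv_nd_congr h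

theorem gv_emod_ne {L : ℕ} {a t : ℤ} (h0 : 0 < t) (h1 : t < 2 * L) : (a + t) % (2 * L) ≠ a % (2 * L) := by
  intro h
  have h2 : (2 * (L : ℤ)) ∣ t := by
    have := Int.ModEq.dvd (n := 2 * (L : ℤ)) (a := a) (b := a + t) h.symm
    rwa [add_sub_cancel_left] at this
  have := Int.le_of_dvd h0 h2
  omega

/-- noncrossing in the cyclic order -/
theorem gv_nc {L : ℕ} (hL : 0 < L) {σ : St} (h2 : σ ∈ NC L) {a b c d : ℤ} (hab : a < b) (hbc : b < c)
    (hcd : c < d) (hda : d < a + 2 * L) (h : σ (gv_nd L a) (gv_nd L c)) : ¬ σ (gv_nd L b) (gv_nd L d) := by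
  -- reduce to 0 ≤ a < 2L
  obtain ⟨m0, m1⟩ := gv_mod hL a
  have hdiv := Int.emod_add_mul_ediv a (2 * L)
  set q := a / (2 * L) with hq
  set a' := a % (2 * L) with ha'
  have e : ∀ z : ℤ, gv_nd L z = gv_nd L (z - 2 * L * q) := by
    intro z
    have := gv_nd_per (L := L) (z - 2 * L * q) q
    rw [sub_add_cancel] at this
    exact this
  have e' : ∀ z : ℤ, gv_nd L z = gv_nd L (z - 2 * L) := by
    intro z
    have := gv_nd_per (L := L) (z - 2 * L) 1
    rw [mul_one, sub_add_cancel] at this
    exact this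
  rw [e a, e c] at h
  rw [e b, e d]
  have ea : a - 2 * L * q = a' := by rw [← hdiv]; ring
  rw [ea] at h
  have hb' : a' < b - 2 * L * q := by omega
  have hc' : b - 2 * L * q < c - 2 * L * q := by omega
  have hd' : c - 2 * L * q < d - 2 * L * q := by omega
  have hda' : d - 2 * L * q < a' + 2 * L := by omega
  generalize b - 2 * L * q = B at *
  generalize c - 2 * L * q = C at *
  generalize d - 2 * L * q = D at *
  generalize a' = A at *
  clear e
  -- values
  have key : ∀ x y z w : ℤ, 0 ≤ x → x < y → y < z → z < w → w < 2 * L → σ (gv_nd L x) (gv_nd L z) →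
      ¬ σ (gv_nd L y) (gv_nd L w) := by
    intro x y z w hx hxy hyz hzw hw
    have l1 := gv_nd_lt hL x
    have l2 := gv_nd_lt hL y
    have l3 := gv_nd_lt hL z
    have l4 := gv_nd_lt hL w
    have p1 := gv_ps (L := L) (a := x) (by omega) (by omega)
    have p2 := gv_ps (L := L) (a := y) (by omega) (by omega)
    have p3 := gv_ps (L := L) (a := z) (by omega) (by omega)
    have p4 := gv_ps (L := L) (a := w) (by omega) (by omega)
    exact h2 _ _ _ _ l1.1 l2.1 l3.1 l4.1 l1.2 l2.2 l3.2 l4.2 (by omega) (by omega) (by omega)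
  rcases lt_or_ge D (2 * L) with hD | hD
  · exact key A B C D m0 hb' hc' hd' hD h
  rcases lt_or_ge C (2 * L) with hC | hC
  · intro hbd
    rw [e' D] at hbd
    exact key (D - 2 * L) A B C (by omega) (by omega) (by omega) (by omega) (by omega) (σ.symm hbd) h
  rcases lt_or_ge B (2 * L) with hB | hB
  · intro hbd
    rw [e' D] at hbd
    rw [e' C] at h
    exact key (C - 2 * L) (D - 2 * L) A B (by omega) (by omega) (by omega) (by omega) (by omega)
      (σ.symm h) (σ.symm hbd)
  · intro hbd
    rw [e' D, e' B] at hbd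
    rw [e' C] at h
    exact key (B - 2 * L) (C - 2 * L) (D - 2 * L) A (by omega) (by omega) (by omega) (by omega) (by omega)
      hbd (σ.symm h)

theorem gv_pow_W {L : ℕ} {σ : St} (h1 : σ ∈ W L) (r : ℕ) : rel ((rtn L) ^ r) σ ∈ W L := by
  induction r with
  | zero => rw [pow_zero, rel_one]; exact h1
  | succ r ih =>
    rw [pow_succ', ← rel_rel]
    exact rt_W ih

theorem gv_eq_top {L : ℕ} (hL : 0 < L) {τ : St} (h : τ ∈ W L)
    (h2 : ∀ j : ℤ, 0 ≤ j → j < L → τ (gv_nd L (-1 - j)) (gv_nd L j)) : τ = top L := by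
  have h3 : ∀ x y : ℕ, 4 ≤ x → x < 2 * L + 4 → x + y = 2 * L + 7 → τ x y := by
    have h4 : ∀ x y : ℕ, 4 ≤ x → x % 2 = 0 → x < 2 * L + 4 → x + y = 2 * L + 7 → τ x y := by
      intro x y hx hx2 hx3 hxy
      have h5 := h2 ((x - 4) / 2 : ℕ) (by omega) (by omega)
      rw [gv_nd_eq (a := ((x - 4) / 2 : ℕ)) (by omega) (by omega)] at h5
      have e : gv_nd L (-1 - ((x - 4) / 2 : ℕ)) = gv_nd L (2 * L - 1 - ((x - 4) / 2 : ℕ)) := by
        have := gv_nd_per (L := L) (-1 - ((x - 4) / 2 : ℕ)) 1
        rw [← this]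
        congr 1
        ring
      rw [e, gv_nd_eq (by omega) (by omega)] at h5
      have e1 : (2 * (L : ℤ) - 1 - ((x - 4) / 2 : ℕ)).toNat = 2 * L - 1 - (x - 4) / 2 := by omega
      rw [e1, Int.toNat_natCast, if_neg (by omega), if_pos (by omega)] at h5
      have e2 : 2 * (2 * L - 1 - (x - 4) / 2 - L) + 5 = y := by omega
      have e3 : 2 * ((x - 4) / 2) + 4 = x := by omega
      rw [e2, e3] at h5
      exact τ.symm h5
    intro x y hx hx3 hxy
    rcases Nat.mod_two_eq_zero_or_one x with h6 | h6
    · exact h4 x y hx h6 hx3 hxy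
    · exact τ.symm (h4 y x (by omega) (by omega) (by omega) (by omega))
  have hW := W_blocks h
  ext x z
  rcases lt_or_ge x 4 with hx | hx
  · have hx' : x = 0 ∨ x = 1 ∨ x = 2 ∨ x = 3 := by omega
    show τ x z ↔ (x = z ∨ (x + z = 2 ∧ x ≠ 1) ∨ (x + z = 4 ∧ (x = 1 ∨ x = 3)) ∨
      (x + z = 2 * L + 7 ∧ 4 ≤ x ∧ 4 ≤ z))
    rcases hx' with rfl | rfl | rfl | rfl
    · rw [hW.1]; omega
    · rw [hW.2.1]; omega
    · rw [hW.2.2.1]; omega
    · rw [hW.2.2.2]; omega
  rcases lt_or_ge x (2 * L + 4) with hx2 | hx2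
  · obtain ⟨y, hy, hyx, hyz⟩ := h.1.1.1 x hx2
    have h5 := h3 x (2 * L + 7 - x) hx hx2 (by omega)
    have hy2 : y = 2 * L + 7 - x := by
      rcases (hyz _).1 h5 with h6 | h6
      · omega
      · exact h6.symm
    show τ x z ↔ (x = z ∨ (x + z = 2 ∧ x ≠ 1) ∨ (x + z = 4 ∧ (x = 1 ∨ x = 3)) ∨
      (x + z = 2 * L + 7 ∧ 4 ≤ x ∧ 4 ≤ z))
    rw [hyz]
    omega
  · show τ x z ↔ (x = z ∨ (x + z = 2 ∧ x ≠ 1) ∨ (x + z = 4 ∧ (x = 1 ∨ x = 3)) ∨
      (x + z = 2 * L + 7 ∧ 4 ≤ x ∧ 4 ≤ z))
    rw [h.1.1.2 x hx2]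
    omega

theorem valley {L : ℕ} {σ : St} (h1 : σ ∈ W L) (h2 : σ ∈ NC L)
    (h3 : ∀ r : ℕ, rel ((rtn L) ^ r) σ ≠ top L) : ∃ r p d : ℕ, 0 < p ∧ p + 1 < d ∧ d < L ∧
      (rel ((rtn L) ^ r) σ) 4 (2 * p + 4) ∧ (rel ((rtn L) ^ r) σ) (2 * p + 6) (2 * d + 4) := by
  rcases Nat.eq_zero_or_pos L with hL | hL
  · subst hL
    exact absurd (W_zero h1) (by
      have := h3 0
      rwa [pow_zero, rel_one] at this)
  choose f f1 f1' hf using gv_f hL h1
  have hself : ∀ a, σ (gv_nd L a) (gv_nd L (a + f a)) := fun a => (hf a _).2 (Or.inr rfl)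
  have hLZ : (0 : ℤ) < L := by exact_mod_cast hL
  have emod_eq : ∀ {u v : ℤ}, u % (2 * L) = v % (2 * L) → ∃ k : ℤ, v = u + 2 * L * k := by
    intro u v h
    obtain ⟨k, hk⟩ := Int.ModEq.dvd (n := 2 * (L : ℤ)) h
    exact ⟨k, by rw [← hk]; ring⟩
  have small : ∀ {t k : ℤ}, t = 2 * L * k → -(2 * L) < t → t < 2 * L → k = 0 := by
    intro t k h h4 h5
    by_contra hk
    rcases lt_or_gt_of_ne hk with h6 | h6
    · have : 2 * (L : ℤ) * k ≤ 2 * L * (-1) := by
        apply mul_le_mul_of_nonneg_left _ (by positivity)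
        omega
      omega
    · have : 2 * (L : ℤ) * 1 ≤ 2 * L * k := by
        apply mul_le_mul_of_nonneg_left _ (by positivity)
        omega
      omega
  have f2 : ∀ a, f (a + f a) = 2 * L - f a := by
    intro a
    have h4 := (hf (a + f a) a).1 (σ.symm (hself a))
    rcases h4 with h4 | h4
    · exact absurd h4.symm (gv_emod_ne (f1 a) (f1' a))
    · obtain ⟨k, hk⟩ := emod_eq h4
      have h5 := f1 a
      have h6 := f1' a
      have h7 := f1 (a + f a)
      have h8 := f1' (a + f a)
      have h9 : f a + f (a + f a) - 2 * L = 2 * L * (k - 1) := by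
        have : f a + f (a + f a) = 2 * L * k := by omega
        rw [this]; ring
      have := small h9 (by omega) (by omega)
      rw [this] at h9
      omega
  have f3 : ∀ a, f (a + L) = f a := by
    intro a
    have h4 : σ (gv_nd L (a + L)) (gv_nd L (a + f a + L)) := by
      rw [← gv_fl hL, ← gv_fl hL]
      have := (rel_iff fl σ (gv_nd L a) (gv_nd L (a + f a))).2 (hself a)
      rwa [h1.1.2] at this
    rcases (hf _ _).1 h4 with h5 | h5
    · exfalso
      have e : a + f a + L = (a + L) + f a := by ring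
      rw [e] at h5
      exact gv_emod_ne (f1 a) (f1' a) h5
    · obtain ⟨k, hk⟩ := emod_eq h5
      have h9 : f (a + L) - f a = 2 * L * k := by omega
      have h5 := f1 a
      have h6 := f1' a
      have h7 := f1 (a + L)
      have h8 := f1' (a + L)
      have := small h9 (by omega) (by omega)
      rw [this] at h9
      omega
  have hno : ∀ a b : ℤ, a < b → b < a + f a → ¬ σ (gv_nd L a) (gv_nd L b) := by
    intro a b hab hb h4
    have := f1' a
    rcases (hf a b).1 h4 with h5 | h5
    · obtain ⟨k, hk⟩ := emod_eq h5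
      have h9 : a - b = 2 * L * k := by omega
      have := small h9 (by omega) (by omega)
      rw [this] at h9
      omega
    · obtain ⟨k, hk⟩ := emod_eq h5
      have h9 : a + f a - b = 2 * L * k := by omega
      have := small h9 (by omega) (by omega)
      rw [this] at h9
      omega
  have f4 : ∀ a b, a < b → b < a + f a → b + f b < a + f a ∨ a + 2 * L < b + f b := by
    intro a b hab hb
    by_contra hcon
    rw [not_or, not_lt, not_lt] at hcon
    obtain ⟨h4, h5⟩ := hcon
    have h6 := hno a b hab hb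
    rcases eq_or_lt_of_le h4 with h7 | h7
    · apply h6
      refine σ.trans (hself a) (σ.symm ?_)
      rw [h7]
      exact hself b
    rcases eq_or_lt_of_le h5 with h8 | h8
    · apply h6
      have h9 := hself b
      rw [h8] at h9
      have e := gv_nd_per (L := L) a 1
      rw [mul_one] at e
      rw [e] at h9
      exact σ.symm h9
    · exact gv_nc hL h2 hab hb h7 h8 (hself a) (hself b)
  by_cases hv : ∀ a, (L : ℤ) - 1 ≤ f a + f (a + f a + 1)
  · exfalso
    obtain ⟨c, hc⟩ := gv_core (L := (L : ℤ)) f f1 f1' f2 f3 f4 hv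
    obtain ⟨m0, m1⟩ := gv_mod hL (-c)
    apply h3 ((-c) % (2 * L)).toNat
    have hr : (((-c) % (2 * L)).toNat : ℤ) = (-c) % (2 * L) := Int.toNat_of_nonneg m0
    have hdiv := Int.emod_add_mul_ediv (-c) (2 * L)
    apply gv_eq_top hL (gv_pow_W h1 _)
    intro j hj0 hj
    have h4 := hself (c - 1 - j)
    rw [hc j hj0 hj] at h4
    have h5 := (rel_iff ((rtn L) ^ ((-c) % (2 * L)).toNat) σ _ _).2 h4
    rw [gv_rtn_pow hL, gv_rtn_pow hL, hr] at h5
    have e1 : gv_nd L (c - 1 - j + (-c) % (2 * L)) = gv_nd L (-1 - j) := by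
      rw [← gv_nd_per (L := L) (c - 1 - j + (-c) % (2 * L)) ((-c) / (2 * L))]
      congr 1
      rw [add_assoc, hdiv]
      ring
    have e2 : gv_nd L (c - 1 - j + (2 * j + 1) + (-c) % (2 * L)) = gv_nd L j := by
      rw [← gv_nd_per (L := L) (c - 1 - j + (2 * j + 1) + (-c) % (2 * L)) ((-c) / (2 * L))]
      congr 1
      rw [add_assoc, hdiv]
      ring
    rw [e1, e2] at h5
    exact h5
  · push Not at hv
    obtain ⟨a, ha⟩ := hv
    obtain ⟨m0, m1⟩ := gv_mod hL (-a)
    have hr : (((-a) % (2 * L)).toNat : ℤ) = (-a) % (2 * L) := Int.toNat_of_nonneg m0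
    have hdiv := Int.emod_add_mul_ediv (-a) (2 * L)
    have shift : ∀ z : ℤ, gv_nd L (a + z + (-a) % (2 * L)) = gv_nd L z := by
      intro z
      rw [← gv_nd_per (L := L) (a + z + (-a) % (2 * L)) ((-a) / (2 * L))]
      congr 1
      rw [add_assoc, hdiv]
      ring
    have hp := f1 a
    have he := f1 (a + f a + 1)
    refine ⟨((-a) % (2 * L)).toNat, (f a).toNat, (f a + 1 + f (a + f a + 1)).toNat, by omega, by omega, by omega,
      ?_, ?_⟩
    · have h4 := (rel_iff ((rtn L) ^ ((-a) % (2 * L)).toNat) σ _ _).2 (hself a)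
      rw [gv_rtn_pow hL, gv_rtn_pow hL, hr, shift] at h4
      have e0 := shift 0
      rw [add_zero] at e0
      rw [e0, gv_nd_eq (by omega) (by omega), gv_nd_eq (by omega) (by omega), if_pos (by omega),
        if_pos (by omega)] at h4
      simpa using h4
    · have h4 := (rel_iff ((rtn L) ^ ((-a) % (2 * L)).toNat) σ _ _).2 (hself (a + f a + 1))
      rw [gv_rtn_pow hL, gv_rtn_pow hL, hr] at h4
      have e1 : a + f a + 1 + (-a) % (2 * L) = a + (f a + 1) + (-a) % (2 * L) := by ring
      have e2 : a + f a + 1 + f (a + f a + 1) + (-a) % (2 * L) =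
        a + (f a + 1 + f (a + f a + 1)) + (-a) % (2 * L) := by ring
      rw [e1, e2, shift, shift, gv_nd_eq (by omega) (by omega), gv_nd_eq (by omega) (by omega),
        if_pos (by omega), if_pos (by omega)] at h4
      have e3 : 2 * (f a + 1).toNat + 4 = 2 * (f a).toNat + 6 := by omega
      rw [e3] at h4
      exact h4

end IPC
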