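import Pool.Agent.Helper64.IPC.Doeblin
import Pool.Agent.Helper64.IPC.Bil
import Pool.Agent.Helper81.Tile.Rows
/-! MODULE ROWMAP: the homogeneous transfer matrix is the average over tile configurations. -/
namespace IPC
open IP Finset Real H81Tile

theorem rm_ract_congr {b b' : ℕ → Bool} {n : ℕ} (h : ∀ i < n, b i = b' i) (σ : St) :
    ract b n σ = ract b' n σ := by
  induction n generalizing σ with
  | zero => rfl
  | succ n ih =>
    show ract b n (tact (b n) n σ) = ract b' n (tact (b' n) n σ)
    rw [h n (by omega), ih (fun i hi => h i (by omega))]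

theorem rm_lact_congr {L : ℕ} {b b' : ℕ → Bool} (h : ∀ i < L, b i = b' i) (σ : St) :
    lact L b σ = lact L b' σ := by
  unfold lact
  rw [rm_ract_congr h]

theorem rm_mact_congr {L N : ℕ} {b b' : ℕ → ℕ → Bool} (h : ∀ j < N, ∀ i < L, b j i = b' j i) (σ : St) :
    mact L b N σ = mact L b' N σ := by
  induction N generalizing σ with
  | zero => rfl
  | succ n ih =>
    show mact L b n (lact L (b n) σ) = mact L b' n (lact L (b' n) σ)
    rw [rm_lact_congr (h n (by omega)), ih (fun j hj => h j (by omega))]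

theorem rm_row_append (l l' : List (ℕ × ℕ × ℝ)) : row (l ++ l') = row l ∘ₗ row l' := by
  induction l with
  | nil => rfl
  | cons q l ih =>
    obtain ⟨y, y', β⟩ := q
    show Rh 0 y 1 y' (β + Real.pi / 6) ∘ₗ row (l ++ l') = _
    rw [ih]
    rfl

theorem rm_lst_succ (n : ℕ) (b : ℕ → ℝ) : lst (n + 1) b = lst n b ++ [(2 * n + 4, 2 * n + 5, b n)] := by
  unfold lst
  rw [List.range_succ, List.map_append]
  rfl

theorem rm_s : s (-(0 + π / 6)) = 1 / 2 := by
  unfold s
  rw [show π / 3 + -(0 + π / 6) = π / 6 by ring, Real.sin_pi_div_six]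

theorem rm_Rh_single (n : ℕ) (σ : St) (c : ℝ) :
    Rh 0 (2 * n + 4) 1 (2 * n + 5) (0 + π / 6) (Finsupp.single σ c) =
      (1 / 2 : ℝ) • (Finsupp.single (tact false n σ) c + Finsupp.single (tact true n σ) c) := by
  unfold Rh G Pr Rel
  rw [LinearMap.add_apply, LinearMap.smul_apply, LinearMap.smul_apply, LinearMap.comp_apply]
  rw [Finsupp.lmapDomain_apply, Finsupp.lmapDomain_apply, Finsupp.lmapDomain_apply,
    Finsupp.mapDomain_single, Finsupp.mapDomain_single, Finsupp.mapDomain_single, rm_s, zero_add,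
    Real.sin_pi_div_six, smul_add, add_comm]
  rfl

theorem rm_row (n : ℕ) (σ : St) (c : ℝ) : row (lst n (fun _ => 0)) (Finsupp.single σ c) =
    ((1 / 2 : ℝ) ^ n) • ∑ A ∈ (range n).powerset, Finsupp.single (ract (fun i => decide (i ∈ A)) n σ) c := by
  induction n generalizing σ with
  | zero =>
    rw [range_zero, powerset_empty, sum_singleton, pow_zero, one_smul]
    rfl
  | succ n ih =>
    have hn : n ∉ range n := by simp
    rw [rm_lst_succ, rm_row_append, LinearMap.comp_apply]
    have e : row [(2 * n + 4, 2 * n + 5, (0 : ℝ))] (Finsupp.single σ c) =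
        (1 / 2 : ℝ) • (Finsupp.single (tact false n σ) c + Finsupp.single (tact true n σ) c) :=
      rm_Rh_single n σ c
    rw [e, map_smul, map_add, ih, ih, range_add_one, sum_powerset_insert hn, ← smul_add, smul_smul,
      pow_succ, mul_comm ((1 / 2 : ℝ) ^ n)]
    congr 2
    · refine sum_congr rfl fun A hA => ?_
      have hA' : n ∉ A := fun h => hn (mem_powerset.1 hA h)
      show _ = Finsupp.single (ract (fun i => decide (i ∈ A)) n (tact (decide (n ∈ A)) n σ)) c
      rw [decide_eq_false hA']
    · refine sum_congr rfl fun A hA => ?_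
      show _ = Finsupp.single (ract (fun i => decide (i ∈ insert n A)) n
        (tact (decide (n ∈ insert n A)) n σ)) c
      rw [decide_eq_true (mem_insert_self n A)]
      congr 1
      refine rm_ract_congr (fun i hi => ?_) _
      have : i ≠ n := by omega
      simp [this]

theorem rm_nrm (L : ℕ) : nrm L (fun _ => 0) = 1 := by
  unfold nrm s
  refine prod_eq_one fun j _ => ?_
  rw [show π / 3 + (0 + π / 6) = π / 2 by ring, Real.sin_pi_div_two]

/-- one row -/
theorem T_lact (L : ℕ) (σ : St) (c : ℝ) : T L (fun _ => 0) (Finsupp.single σ c) =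
    ((1 / 2 : ℝ) ^ L) • ∑ A ∈ (range L).powerset, Finsupp.single (lact L (fun i => decide (i ∈ A)) σ) c := by
  unfold T Tt TtL
  rw [rm_nrm, inv_one, one_smul, LinearMap.comp_apply, LinearMap.comp_apply, rm_row, map_smul, map_smul,
    map_sum, map_sum]
  congr 1
  refine sum_congr rfl fun A _ => ?_
  unfold G Pr Rel
  rw [LinearMap.comp_apply, Finsupp.lmapDomain_apply, Finsupp.lmapDomain_apply, Finsupp.lmapDomain_apply,
    Finsupp.mapDomain_single, Finsupp.mapDomain_single, Finsupp.mapDomain_single]
  rfl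

theorem rm_powerset (N L : ℕ) {X : Type*} [AddCommMonoid X] (F : Finset (ℕ × ℕ) → X) :
    ∑ A ∈ (range (N + 1) ×ˢ range L).powerset, F A =
      ∑ B ∈ (range L).powerset, ∑ A ∈ (range N ×ˢ range L).powerset, F (A ∪ {N} ×ˢ B) := by
  rw [← sum_product']
  symm
  refine sum_bij' (fun q _ => q.2 ∪ {N} ×ˢ q.1)
    (fun A _ => ((range L).filter (fun i => (N, i) ∈ A), A.filter (fun q => q.1 < N))) ?_ ?_ ?_ ?_ ?_
  · rintro ⟨B, A⟩ h
    rw [mem_product, mem_powerset, mem_powerset] at h
    rw [mem_powerset]
    intro q hq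
    rw [mem_union, mem_product, mem_singleton] at hq
    rw [mem_product, mem_range]
    rcases hq with hq | hq
    · have := mem_product.1 (h.2 hq)
      rw [mem_range] at this
      exact ⟨by omega, this.2⟩
    · exact ⟨by omega, h.1 hq.2⟩
  · intro A h
    rw [mem_powerset] at h
    rw [mem_product, mem_powerset, mem_powerset]
    refine ⟨filter_subset _ _, fun q hq => ?_⟩
    rw [mem_filter] at hq
    have := mem_product.1 (h hq.1)
    rw [mem_product, mem_range]
    exact ⟨hq.2, this.2⟩
  · rintro ⟨B, A⟩ h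
    rw [mem_product, mem_powerset, mem_powerset] at h
    have h1 : ∀ q ∈ A, q.1 < N := fun q hq => by
      have := mem_product.1 (h.2 hq)
      rw [mem_range] at this
      exact this.1
    refine Prod.ext ?_ ?_
    · ext i
      simp only [mem_filter, mem_union, mem_product, mem_singleton, mem_range]
      constructor
      · rintro ⟨_, h2 | h2⟩
        · exact absurd (h1 _ h2) (lt_irrefl _)
        · exact h2.2
      · intro h2
        exact ⟨mem_range.1 (h.1 h2), Or.inr ⟨trivial, h2⟩⟩
    · ext q
      simp only [mem_filter, mem_union, mem_product, mem_singleton]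
      constructor
      · rintro ⟨h2 | h2, h3⟩
        · exact h2
        · omega
      · intro h2
        exact ⟨Or.inl h2, h1 q h2⟩
  · intro A h
    rw [mem_powerset] at h
    ext q
    obtain ⟨j, i⟩ := q
    simp only [mem_filter, mem_union, mem_product, mem_singleton, mem_range]
    constructor
    · rintro (h2 | ⟨rfl, _, h2⟩)
      · exact h2.1
      · exact h2
    · intro h2
      have h3 := mem_product.1 (h h2)
      simp only [mem_range] at h3
      by_cases h4 : j < N
      · exact Or.inl ⟨h2, h4⟩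
      · have h5 : j = N := by omega
        subst h5
        exact Or.inr ⟨rfl, h3.2, h2⟩
  · rintro ⟨B, A⟩ h
    rfl

/-- `N` rows -/
theorem T_mact (L N : ℕ) (σ : St) (c : ℝ) : ((T L (fun _ => 0)) ^ N) (Finsupp.single σ c) =
    ((1 / 2 : ℝ) ^ (L * N)) • ∑ A ∈ (range N ×ˢ range L).powerset,
      Finsupp.single (mact L (fun j i => decide ((j, i) ∈ A)) N σ) c := by
  induction N generalizing σ with
  | zero =>
    rw [range_zero, empty_product, powerset_empty, sum_singleton, mul_zero, pow_zero, pow_zero, one_smul]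
    rfl
  | succ N ih =>
    rw [pow_succ, Module.End.mul_apply, T_lact, map_smul, map_sum, rm_powerset]
    have e : (1 / 2 : ℝ) ^ (L * (N + 1)) = (1 / 2 : ℝ) ^ L * (1 / 2 : ℝ) ^ (L * N) := by
      rw [← pow_add]
      congr 1
      ring
    rw [e, ← smul_smul]
    congr 1
    rw [smul_sum]
    refine sum_congr rfl fun B hB => ?_
    rw [mem_powerset] at hB
    rw [ih]
    congr 1
    refine sum_congr rfl fun A hA => ?_
    rw [mem_powerset] at hA
    show _ = Finsupp.single (mact L (fun j i => decide ((j, i) ∈ A ∪ {N} ×ˢ B)) N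
      (lact L (fun i => decide ((N, i) ∈ A ∪ {N} ×ˢ B)) σ)) c
    congr 1
    have h1 : lact L (fun i => decide (i ∈ B)) σ = lact L (fun i => decide ((N, i) ∈ A ∪ {N} ×ˢ B)) σ := by
      refine rm_lact_congr (fun i _ => ?_) σ
      have h2 : (N, i) ∉ A := fun h => by
        have := mem_product.1 (hA h)
        rw [mem_range] at this
        exact lt_irrefl _ this.1
      simp [h2]
    rw [h1]
    refine rm_mact_congr (fun j hj i _ => ?_) _
    have h2 : N ≠ j := by omega
    simp [h2]

/-- forms of `N` rows above and `N'` rows below -/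
theorem bil_mact (f : St → St → ℝ) (L L' N N' : ℕ) (σ τ : St) :
    bil f (((T L (fun _ => 0)) ^ N) (Finsupp.single σ 1)) (((T L' (fun _ => 0)) ^ N') (Finsupp.single τ 1)) =
      (1 / 2 : ℝ) ^ (L * N + L' * N') * ∑ A ∈ (range N ×ˢ range L).powerset,
        ∑ B ∈ (range N' ×ˢ range L').powerset, f (mact L (fun j i => decide ((j, i) ∈ A)) N σ)
          (mact L' (fun j i => decide ((j, i) ∈ B)) N' τ) := by
  rw [T_mact, T_mact, bil_smul_left, bil_smul_right, bil_sum_left, pow_add, mul_assoc]
  congr 2
  refine sum_congr rfl fun A _ => ?_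
  rw [bil_sum_right]
  refine sum_congr rfl fun B _ => ?_
  rw [bil_single]
  ring

theorem zero_Cube : (fun _ => (0 : ℝ)) ∈ Cube := by
  intro j
  rw [abs_zero]
  positivity

theorem T_Sup (L : ℕ) (b : ℕ → ℝ) {v : M} (hv : v ∈ Sup (W L)) : T L b v ∈ Sup (W L) := by
  unfold T
  rw [LinearMap.smul_apply]
  exact Submodule.smul_mem _ _ (Tt_Sup L b hv)

theorem T_pow_Sup (L : ℕ) (b : ℕ → ℝ) (N : ℕ) {v : M} (hv : v ∈ Sup (W L)) :
    ((T L b) ^ N) v ∈ Sup (W L) := by
  induction N generalizing v with
  | zero => exact hv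
  | succ N ih =>
    rw [pow_succ, Module.End.mul_apply]
    exact ih (T_Sup L b hv)

theorem single_Sup {L : ℕ} {σ : St} (hσ : σ ∈ W L) : (Finsupp.single σ (1 : ℝ)) ∈ Sup (W L) :=
  Finsupp.single_mem_supported ℝ 1 hσ

/-- the limit of infinitely many rows -/
theorem bil_limit (f : St → St → ℝ) {L L' : ℕ} {σ τ : St} (hσ : σ ∈ W L) (hτ : τ ∈ W L') :
    Filter.Tendsto (fun N : ℕ => bil f (((T L (fun _ => 0)) ^ N) (Finsupp.single σ 1))
      (((T L' (fun _ => 0)) ^ N) (Finsupp.single τ 1))) Filter.atTop
      (nhds (bil f (P L (fun _ => 0)) (P L' (fun _ => 0)))) := by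
  refine bil_tendsto f (W_finite L) (W_finite L') _ _ _ _ _ (fun N => T_pow_Sup L _ N (single_Sup hσ))
    (fun N => T_pow_Sup L' _ N (single_Sup hτ)) (P_Sup L _) (P_Sup L' _) ?_ ?_
  · intro ρ
    have h := P_tendsto L zero_Cube (single_Sup hσ) ρ
    have e : tot (Finsupp.single σ (1 : ℝ)) = 1 := by
      unfold tot
      simp
    rw [e, one_mul] at h
    exact h
  · intro ρ
    have h := P_tendsto L' zero_Cube (single_Sup hτ) ρ
    have e : tot (Finsupp.single τ (1 : ℝ)) = 1 := by
      unfold tot
      simp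
    rw [e, one_mul] at h
    exact h

/-- THE LINK: normalised numbers of configurations converge to the form of the stationary vectors -/
theorem count_limit (f : St → St → ℝ) {L L' : ℕ} {σ τ : St} (hσ : σ ∈ W L) (hτ : τ ∈ W L') :
    Filter.Tendsto (fun N : ℕ => (1 / 2 : ℝ) ^ (L * N + L' * N) * ∑ A ∈ (range N ×ˢ range L).powerset,
        ∑ B ∈ (range N ×ˢ range L').powerset, f (mact L (fun j i => decide ((j, i) ∈ A)) N σ)
          (mact L' (fun j i => decide ((j, i) ∈ B)) N τ)) Filter.atTop
      (nhds (bil f (P L (fun _ => 0)) (P L' (fun _ => 0)))) := by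
  have h := bil_limit f hσ hτ
  simp only [bil_mact] at h
  exact h
end IPC
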