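import Pool.Agent.Lead.IP.Defs
/-! Schur functions with exponents `0,1,3,4,6,7,...` and `0,2,3,5,6,8,...`: definitions. -/
namespace IPC
open IP Finset
noncomputable section

/-- exponents `0, 1, 3, 4, 6, 7, ...` -/
def hh (j : ℕ) : ℕ := 3 * (j / 2) + j % 2
/-- exponents `0, 2, 3, 5, 6, 8, ...` -/
def hd (j : ℕ) : ℕ := 3 * ((j + 1) / 2) - j % 2

/-- complete homogeneous symmetric polynomial of degree `k` in `z 0, ..., z l` -/
def HH : ℕ → ℕ → (ℕ → ℂ) → ℂ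
  | 0, _, _ => 1
  | k + 1, 0, z => z 0 ^ (k + 1)
  | k + 1, l + 1, z => HH (k + 1) l z + z (l + 1) * HH k (l + 1) z

/-- Schur function with exponents `h j`, `m` variables -/
def SG (h : ℕ → ℕ) (m : ℕ) (z : ℕ → ℂ) : ℂ :=
  Matrix.det (Matrix.of fun l j : Fin m => if (l : ℕ) ≤ h j then HH (h j - l) l z else 0)

def SS (m : ℕ) (z : ℕ → ℂ) : ℂ := SG hh m z
def SD (m : ℕ) (z : ℕ → ℂ) : ℂ := SG hd m z

/-- value at `1` of the Schur function with exponents `h` -/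
def cG (h : ℕ → ℕ) (m : ℕ) : ℝ := ∏ j ∈ range m, ∏ i ∈ range j, ((h j : ℝ) - h i) / ((j : ℝ) - i)

/-- `e^{2 i b}` -/
def ee (b : ℕ → ℝ) : ℕ → ℂ := fun j => Complex.exp (2 * b j * Complex.I)

/-- the normalised function of `2m` variables -/
def FF (m : ℕ) (y : ℕ → ℝ) : ℂ := (4 : ℂ)⁻¹ ^ (m * (m - 1) / 2) *
  Complex.exp (-((m : ℂ) - 1) * (∑ j ∈ range (2 * m), (y j : ℂ)) * Complex.I) * SS (2 * m) (ee y)

/-- every variable doubled -/
def dbl (b : ℕ → ℝ) : ℕ → ℝ := fun j => b (j / 2)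

/-- exponent of `1/4` in the closed form of `Z L`: `0, 0, 0, 1, 2, 4, 6, ...` -/
def e4 (L : ℕ) : ℕ := (L - 1) ^ 2 / 4

/-- the exact value of the bulk two-arm (hull) probability on the cylinder with `L` strands:
`1, 1/2, 7/9, 21/50, 429/625, ...` for `L = 1, 2, 3, 4, 5, ...` -/
def RB (L : ℕ) : ℝ := cG hh (2 * L) / (3 ^ (L / 2) * (cG hh L * cG hd L) ^ 2)

end
end IPC
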