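import Pool.Agent.Helper64.IPC.TransferA
/-! MODULE TRANSFER, second part: relabelling, cyclicity, reversal, exchange of the copies. -/
namespace IPC
open IP Finset Real

/-- entries of the lists: distinct strand nodes -/
def Ok (l : List (ℕ × ℕ × ℝ)) : Prop :=
  (l.flatMap fun q => [q.1, q.2.1]).Nodup ∧ ∀ q ∈ l, 4 ≤ q.1 ∧ 4 ≤ q.2.1

theorem trb_TtL (l : List (ℕ × ℕ × ℝ)) (v : M) :
    TtL l v = Rel (Equiv.swap 2 3) (G 0 3 1 2 (row l v)) := rfl

theorem trb_row_rel (e : Equiv.Perm ℕ) (h : ∀ x < 4, e x = x) (l : List (ℕ × ℕ × ℝ)) (v : M) :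
    Rel e (row l v) = row (l.map fun q => (e q.1, e q.2.1, q.2.2)) (Rel e v) := by
  induction l with
  | nil => rfl
  | cons q l ih =>
    obtain ⟨y, y', β⟩ := q
    rw [List.map_cons, tra_row_cons, tra_row_cons, Rel_Rh, ih, h 0 (by omega), h 1 (by omega)]

theorem TtL_rel (e : Equiv.Perm ℕ) (h : ∀ x < 4, e x = x) (l : List (ℕ × ℕ × ℝ)) (v : M) :
    Rel e (TtL l v) = TtL (l.map fun q => (e q.1, e q.2.1, q.2.2)) (Rel e v) := by
  rw [trb_TtL, trb_TtL, Rel_Rel, Equiv.mul_swap_eq_swap_mul, ← Rel_Rel, Rel_G, trb_row_rel e h,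
    h 0 (by omega), h 1 (by omega), h 2 (by omega), h 3 (by omega)]

/-! ### entries -/

theorem trb_Ok_cons {q : ℕ × ℕ × ℝ} {l : List (ℕ × ℕ × ℝ)} (h : Ok (q :: l)) :
    Ok l ∧ 4 ≤ q.1 ∧ 4 ≤ q.2.1 ∧ q.1 ≠ q.2.1 ∧
      ∀ p ∈ l, q.1 ≠ p.1 ∧ q.1 ≠ p.2.1 ∧ q.2.1 ≠ p.1 ∧ q.2.1 ≠ p.2.1 := by
  obtain ⟨h1, h2⟩ := h
  rw [List.flatMap_cons, List.nodup_append] at h1
  obtain ⟨h3, h4, h5⟩ := h1
  refine ⟨⟨h4, fun p hp => h2 p (List.mem_cons_of_mem _ hp)⟩, (h2 q List.mem_cons_self).1,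
    (h2 q List.mem_cons_self).2, ?_, fun p hp => ?_⟩
  · simpa using h3
  · have hp1 : p.1 ∈ l.flatMap fun q => [q.1, q.2.1] :=
      List.mem_flatMap.mpr ⟨p, hp, by simp⟩
    have hp2 : p.2.1 ∈ l.flatMap fun q => [q.1, q.2.1] :=
      List.mem_flatMap.mpr ⟨p, hp, by simp⟩
    exact ⟨h5 _ (by simp) _ hp1, h5 _ (by simp) _ hp2, h5 _ (by simp) _ hp1, h5 _ (by simp) _ hp2⟩

/-- the line `c` instead of `a` commutes with the row -/
theorem trb_comm (y y' : ℕ) (u : ℝ) {l : List (ℕ × ℕ × ℝ)} (h0 : 4 ≤ y ∧ 4 ≤ y')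
    (hl : ∀ p ∈ l, 4 ≤ p.1 ∧ 4 ≤ p.2.1 ∧ y ≠ p.1 ∧ y ≠ p.2.1 ∧ y' ≠ p.1 ∧ y' ≠ p.2.1) (v : M) :
    Rh 3 y 2 y' u (row l v) = row l (Rh 3 y 2 y' u v) := by
  induction l with
  | nil => rfl
  | cons q l ih =>
    obtain ⟨z, z', β⟩ := q
    have hq := hl (z, z', β) List.mem_cons_self
    simp only at hq
    obtain ⟨g1, g2, g3, g4, g5, g6⟩ := hq
    have hD : Dj 3 y 2 y' 0 z 1 z' := by
      unfold Dj
      simp only [List.disjoint_cons_left, List.mem_cons, List.not_mem_nil, or_false, not_or,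
        List.disjoint_nil_left, and_true]
      refine ⟨⟨?_, ?_, ?_, ?_⟩, ⟨?_, ?_, ?_, ?_⟩, ⟨?_, ?_, ?_, ?_⟩, ⟨?_, ?_, ?_, ?_⟩⟩ <;> omega
    rw [tra_row_cons, tra_row_cons, Rh_Rh hD, ih fun p hp => hl p (List.mem_cons_of_mem _ hp)]

theorem trb_D6a {y y' : ℕ} (h : 4 ≤ y ∧ 4 ≤ y' ∧ y ≠ y') : D6 0 3 y 1 2 y' := by
  refine lin2_D6_of ⟨⟨?_, ?_, ?_, ?_, ?_⟩, ⟨?_, ?_, ?_, ?_⟩, ⟨?_, ?_, ?_⟩, ⟨?_, ?_⟩, ?_⟩ <;> omega
theorem trb_D6b {y y' : ℕ} (h : 4 ≤ y ∧ 4 ≤ y' ∧ y ≠ y') : D6 1 3 y 0 2 y' := by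
  refine lin2_D6_of ⟨⟨?_, ?_, ?_, ?_, ?_⟩, ⟨?_, ?_, ?_, ?_⟩, ⟨?_, ?_, ?_⟩, ⟨?_, ?_⟩, ?_⟩ <;> omega

theorem TtL_rotate {y y' : ℕ} {β : ℝ} {l : List (ℕ × ℕ × ℝ)} (hl : Ok ((y, y', β) :: l)) {v : M}
    (hv : G 0 2 1 3 v = v) : TtL ((y, y', β) :: l) v = TtL (l ++ [(y', y, β)]) v := by
  obtain ⟨hl', h1, h2, h3, h4⟩ := trb_Ok_cons hl
  simp only at h1 h2 h3 h4
  rw [trb_TtL, trb_TtL, tra_row_cons, ← cross2 (trb_D6a ⟨h1, h2, h3⟩),
    trb_comm y y' _ ⟨h1, h2⟩ (fun p hp => ⟨(hl'.2 p hp).1, (hl'.2 p hp).2, h4 p hp⟩),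
    tra_row_append, tra_row_single]
  congr 3
  have hv' : G 1 3 0 2 v = v := by
    rw [G_flip ⟨by omega, by omega, by omega, by omega, by omega, by omega⟩, hv]
  calc Rh 3 y 2 y' (π / 3 - (β + π / 6)) v = Rh 3 y 2 y' (π / 3 - (β + π / 6)) (G 1 3 0 2 v) := by
        rw [hv']
    _ = Rh 1 y 0 y' (β + π / 6) (G 1 3 0 2 v) := cross1 (trb_D6b ⟨h1, h2, h3⟩) _ _
    _ = Rh 1 y 0 y' (β + π / 6) v := by rw [hv']
    _ = Rh 0 y' 1 y (β + π / 6) v := Rh_flip ⟨by omega, by omega, by omega, by omega, by omega,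
        by omega⟩ _ _

/-! ### reversal -/

/-- the row of the line `c` -/
noncomputable def row3 : List (ℕ × ℕ × ℝ) → M → M
  | [], v => v
  | (y, y', β) :: l, v => Rh 3 y 2 y' (π / 3 - (β + π / 6)) (row3 l v)

theorem trb_row3_append (l l' : List (ℕ × ℕ × ℝ)) (v : M) : row3 (l ++ l') v = row3 l (row3 l' v) := by
  induction l with
  | nil => rfl
  | cons q l ih =>
    obtain ⟨y, y', β⟩ := q
    rw [List.cons_append]
    show Rh 3 y 2 y' _ (row3 (l ++ l') v) = Rh 3 y 2 y' _ (row3 l (row3 l' v))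
    rw [ih]

theorem trb_G_row {l : List (ℕ × ℕ × ℝ)} (hl : Ok l) (v : M) :
    G 0 3 1 2 (row l v) = G 0 3 1 2 (row3 l.reverse v) := by
  induction l generalizing v with
  | nil => rfl
  | cons q l ih =>
    obtain ⟨y, y', β⟩ := q
    obtain ⟨hl', h1, h2, h3, h4⟩ := trb_Ok_cons hl
    simp only at h1 h2 h3 h4
    rw [tra_row_cons, ← cross2 (trb_D6a ⟨h1, h2, h3⟩),
      trb_comm y y' _ ⟨h1, h2⟩ (fun p hp => ⟨(hl'.2 p hp).1, (hl'.2 p hp).2, h4 p hp⟩), ih hl',
      List.reverse_cons, trb_row3_append]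
    rfl

/-- the permutation `(0 3)(1 2)` -/
theorem trb_g_val : gs 0 3 1 2 0 = 3 ∧ gs 0 3 1 2 1 = 2 ∧ gs 0 3 1 2 2 = 1 ∧ gs 0 3 1 2 3 = 0 := by
  have hD : D4 0 3 1 2 := ⟨by omega, by omega, by omega, by omega, by omega, by omega⟩
  exact ⟨lin2_gs_left hD, lin2_gs_left' hD, lin2_gs_right' hD, lin2_gs_right hD⟩

theorem trb_g_ge {x : ℕ} (h : 4 ≤ x) : gs 0 3 1 2 x = x :=
  lin2_gs_of_ne ⟨by omega, by omega, by omega, by omega⟩

theorem trb_rel_row3 {l : List (ℕ × ℕ × ℝ)} (hl : ∀ q ∈ l, 4 ≤ q.1 ∧ 4 ≤ q.2.1) (v : M) :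
    Rel (gs 0 3 1 2) (row3 l v) =
      row (l.map fun q => (q.1, q.2.1, -q.2.2)) (Rel (gs 0 3 1 2) v) := by
  induction l with
  | nil => rfl
  | cons q l ih =>
    obtain ⟨y, y', β⟩ := q
    have hq := hl (y, y', β) List.mem_cons_self
    simp only at hq
    rw [List.map_cons, tra_row_cons, ← ih fun p hp => hl p (List.mem_cons_of_mem _ hp)]
    show Rel (gs 0 3 1 2) (Rh 3 y 2 y' (π / 3 - (β + π / 6)) (row3 l v)) = _
    rw [Rel_Rh, trb_g_val.2.2.2, trb_g_val.2.2.1, trb_g_ge hq.1, trb_g_ge hq.2]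
    congr 2
    ring

theorem trb_blocks (σ : St) (x y : ℕ) : (pr 0 2 (pr 1 3 σ)) x y ↔
    x = y ∨ ((x = 0 ∨ x = 2) ∧ (y = 0 ∨ y = 2)) ∨ ((x = 1 ∨ x = 3) ∧ (y = 1 ∨ y = 3)) ∨
      (4 ≤ x ∧ 4 ≤ y ∧ (pr 0 2 (pr 1 3 σ)) x y) := by
  constructor
  · intro h
    by_cases hxy : x = y
    · exact Or.inl hxy
    rcases (pr_iff _ _ _ _ _).mp h with h | h | ⟨hx, hy, h'⟩
    · exact Or.inl h
    · exact Or.inr (Or.inl h)
    · right
      right
      -- the block of `1` and `3`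
      have key : ∀ z, (pr 1 3 σ) 1 z → z = 1 ∨ z = 3 := by
        intro z hz
        rcases (pr_iff _ _ _ _ _).mp hz with h | h | ⟨h, _⟩
        · exact Or.inl h.symm
        · exact h.2
        · exact absurd rfl h.1
      have key3 : ∀ z, (pr 1 3 σ) 3 z → z = 1 ∨ z = 3 := by
        intro z hz
        rcases (pr_iff _ _ _ _ _).mp hz with h | h | ⟨h, _⟩
        · exact Or.inr h.symm
        · exact h.2
        · exact absurd rfl h.2
      have hx4 : x = 1 ∨ x = 3 ∨ 4 ≤ x := by omega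
      have hy4 : y = 1 ∨ y = 3 ∨ 4 ≤ y := by omega
      by_cases hx' : x = 1 ∨ x = 3
      · left
        refine ⟨hx', ?_⟩
        have kx : ∀ z, (pr 1 3 σ) x z → z = 1 ∨ z = 3 := by
          rcases hx' with rfl | rfl
          · exact key
          · exact key3
        rcases h' with h' | ⟨h', _⟩ | ⟨h', _⟩
        · exact kx y h'
        · have := kx 0 h'; omega
        · have := kx 2 h'; omega
      · by_cases hy' : y = 1 ∨ y = 3
        · left
          refine ⟨?_, hy'⟩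
          have ky : ∀ z, (pr 1 3 σ) y z → z = 1 ∨ z = 3 := by
            rcases hy' with rfl | rfl
            · exact key
            · exact key3
          rcases h' with h' | ⟨_, h'⟩ | ⟨_, h'⟩
          · exact ky x ((pr 1 3 σ).symm h')
          · have := ky 2 ((pr 1 3 σ).symm h'); omega
          · have := ky 0 ((pr 1 3 σ).symm h'); omega
        · right
          exact ⟨by omega, by omega, h⟩
  · rintro (rfl | h | h | h)
    · exact (pr 0 2 (pr 1 3 σ)).iseqv.refl x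
    · exact (pr_iff _ _ _ _ _).mpr (Or.inr (Or.inl h))
    · refine (pr_iff _ _ _ _ _).mpr (Or.inr (Or.inr ⟨by omega, by omega, Or.inl ?_⟩))
      exact (pr_iff _ _ _ _ _).mpr (Or.inr (Or.inl h))
    · exact h.2.2

theorem trb_g_symm (x : ℕ) : (gs 0 3 1 2).symm x =
    if x = 0 then 3 else if x = 1 then 2 else if x = 2 then 1 else if x = 3 then 0 else x := by
  rw [Equiv.symm_apply_eq]
  obtain ⟨g0, g1, g2, g3⟩ := trb_g_val
  split_ifs with h0 h1 h2 h3
  · rw [g3, h0]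
  · rw [g2, h1]
  · rw [g1, h2]
  · rw [g0, h3]
  · rw [trb_g_ge (by omega)]

theorem trb_small (σ : St) {x : ℕ} (hx : x < 4) (y : ℕ) : (pr 0 2 (pr 1 3 σ)) x y ↔
    (x = y ∨ ((x = 0 ∨ x = 2) ∧ (y = 0 ∨ y = 2)) ∨ ((x = 1 ∨ x = 3) ∧ (y = 1 ∨ y = 3))) := by
  rw [trb_blocks]
  constructor
  · rintro (h | h | h | h)
    · exact Or.inl h
    · exact Or.inr (Or.inl h)
    · exact Or.inr (Or.inr h)
    · omega
  · rintro (h | h | h)
    · exact Or.inl h
    · exact Or.inr (Or.inl h)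
    · exact Or.inr (Or.inr (Or.inl h))

theorem trb_rel_g (σ : St) : rel (gs 0 3 1 2) (pr 0 2 (pr 1 3 σ)) = pr 0 2 (pr 1 3 σ) := by
  have small : ∀ x y, x < 4 → ((rel (gs 0 3 1 2) (pr 0 2 (pr 1 3 σ))) x y ↔
      (pr 0 2 (pr 1 3 σ)) x y) := by
    intro x y hx
    rw [rel_iff', trb_g_symm, trb_g_symm, trb_small σ hx, trb_small σ (by split_ifs <;> omega)]
    by_cases hy : 4 ≤ y
    · rw [if_neg (by omega : ¬ y = 0), if_neg (by omega : ¬ y = 1), if_neg (by omega : ¬ y = 2),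
        if_neg (by omega : ¬ y = 3)]
      interval_cases x
      · rw [if_pos rfl]
        omega
      · rw [if_neg (by omega), if_pos rfl]
        omega
      · rw [if_neg (by omega), if_neg (by omega), if_pos rfl]
        omega
      · rw [if_neg (by omega), if_neg (by omega), if_neg (by omega), if_pos rfl]
        omega
    · have hy' : y < 4 := by omega
      interval_cases x <;> interval_cases y <;> decide
  apply Setoid.ext
  intro x y
  by_cases hx : 4 ≤ x
  · by_cases hy : 4 ≤ y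
    · rw [rel_iff', trb_g_symm, trb_g_symm, if_neg (by omega : ¬ x = 0), if_neg (by omega : ¬ x = 1),
        if_neg (by omega : ¬ x = 2), if_neg (by omega : ¬ x = 3), if_neg (by omega : ¬ y = 0),
        if_neg (by omega : ¬ y = 1), if_neg (by omega : ¬ y = 2), if_neg (by omega : ¬ y = 3)]
    · have h := small y x (by omega)
      constructor
      · intro h1
        exact (pr 0 2 (pr 1 3 σ)).symm (h.mp ((rel (gs 0 3 1 2) (pr 0 2 (pr 1 3 σ))).symm h1))
      · intro h1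
        exact (rel (gs 0 3 1 2) (pr 0 2 (pr 1 3 σ))).symm (h.mpr ((pr 0 2 (pr 1 3 σ)).symm h1))
  · exact small x y (by omega)

theorem trb_Rel_g {v : M} (hv : G 0 2 1 3 v = v) : Rel (gs 0 3 1 2) v = v := by
  have key : ∀ w : M, Rel (gs 0 3 1 2) (G 0 2 1 3 w) = G 0 2 1 3 w := by
    intro w
    induction w using Finsupp.induction_linear with
    | zero => simp
    | add a b ha hb => simp only [map_add, ha, hb]
    | single σ c => rw [lin2_G_apply, Pr_single, Pr_single, Rel_single, trb_rel_g]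
  rw [← hv]
  exact key v

theorem TtL_reverse {l : List (ℕ × ℕ × ℝ)} (hl : Ok l) {v : M} (hv : G 0 2 1 3 v = v) :
    TtL l v = TtL (l.reverse.map fun q => (q.1, q.2.1, -q.2.2)) v := by
  have hD : D4 0 3 1 2 := ⟨by omega, by omega, by omega, by omega, by omega, by omega⟩
  rw [trb_TtL, trb_TtL, trb_G_row hl, ← gs_G hD (row3 l.reverse v), Rel_G, trb_rel_row3
    (fun q hq => hl.2 q (List.mem_reverse.mp hq)), trb_Rel_g hv, trb_g_val.1, trb_g_val.2.1,
    trb_g_val.2.2.1, trb_g_val.2.2.2, ← lin2_G_sym]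

/-! ### exchange of the copies -/

theorem trb_Ok_rot {q : ℕ × ℕ × ℝ} {l1 l2 : List (ℕ × ℕ × ℝ)} (h : Ok (q :: l1 ++ l2)) :
    Ok (l1 ++ (l2 ++ [(q.2.1, q.1, q.2.2)])) := by
  obtain ⟨h1, h2⟩ := h
  refine ⟨?_, ?_⟩
  · refine (List.Perm.nodup_iff ?_).mp h1
    have e1 : (q :: l1 ++ l2).flatMap (fun q => [q.1, q.2.1]) =
        [q.1, q.2.1] ++ (l1.flatMap (fun q => [q.1, q.2.1]) ++ l2.flatMap fun q => [q.1, q.2.1]) := by
      simp
    have e2 : (l1 ++ (l2 ++ [(q.2.1, q.1, q.2.2)])).flatMap (fun q => [q.1, q.2.1]) =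
        (l1.flatMap (fun q => [q.1, q.2.1]) ++ l2.flatMap fun q => [q.1, q.2.1]) ++
          [q.2.1, q.1] := by
      simp
    rw [e1, e2]
    refine List.perm_append_comm.trans ?_
    refine List.Perm.append_left _ ?_
    exact List.Perm.swap _ _ _
  · intro p hp
    rcases List.mem_append.mp hp with hp | hp
    · exact h2 p (by simp [hp])
    rcases List.mem_append.mp hp with hp | hp
    · exact h2 p (by simp [hp])
    · have hp' : p = (q.2.1, q.1, q.2.2) := by simpa using hp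
      have := h2 q (by simp)
      rw [hp']
      exact ⟨this.2, this.1⟩

theorem trb_flip_aux (l1 : List (ℕ × ℕ × ℝ)) : ∀ (l2 : List (ℕ × ℕ × ℝ)), Ok (l1 ++ l2) → ∀ {v : M},
    G 0 2 1 3 v = v → TtL (l1 ++ l2) v = TtL (l2 ++ l1.map fun q => (q.2.1, q.1, q.2.2)) v := by
  induction l1 with
  | nil => intro l2 _ v _; simp
  | cons q l1 ih =>
    intro l2 hl v hv
    have h1 := trb_Ok_rot hl
    have h2 := ih (l2 ++ [(q.2.1, q.1, q.2.2)]) h1 hv
    have h3 : TtL (q :: l1 ++ l2) v = TtL (l1 ++ l2 ++ [(q.2.1, q.1, q.2.2)]) v := by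
      obtain ⟨y, y', β⟩ := q
      exact TtL_rotate hl hv
    rw [h3, List.append_assoc, h2, List.append_assoc]
    rfl

/-- exchange of the two copies in all entries -/
theorem TtL_flip (l : List (ℕ × ℕ × ℝ)) (hl : Ok l) {v : M} (hv : G 0 2 1 3 v = v) :
    TtL (l.map fun q => (q.2.1, q.1, q.2.2)) v = TtL l v := by
  have h := trb_flip_aux l [] (by simpa using hl) hv
  rw [List.append_nil, List.nil_append] at h
  exact h.symm

/-! ### rotation and reversal of the transfer matrix -/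

theorem trb_lst_Ok (L : ℕ) (b : ℕ → ℝ) : Ok (lst L b) := by
  induction L with
  | zero => exact ⟨by simp [lst], by simp [lst]⟩
  | succ n ih =>
    obtain ⟨h1, h2⟩ := ih
    have hlt : ∀ z ∈ (lst n b).flatMap fun q => [q.1, q.2.1], z < 2 * n + 4 := by
      intro z hz
      obtain ⟨q, hq, hz⟩ := List.mem_flatMap.mp hz
      unfold lst at hq
      obtain ⟨i, hi, rfl⟩ := List.mem_map.mp hq
      have := List.mem_range.mp hi
      simp only [List.mem_cons, List.not_mem_nil, or_false] at hz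
      omega
    rw [tra_lst_succ]
    refine ⟨?_, ?_⟩
    · rw [List.flatMap_append, List.nodup_append]
      refine ⟨h1, by simp, ?_⟩
      intro a ha c hc hac
      have := hlt a ha
      simp only [List.flatMap_cons, List.flatMap_nil, List.append_nil, List.mem_cons,
        List.not_mem_nil, or_false] at hc
      omega
    · intro q hq
      rcases List.mem_append.mp hq with hq | hq
      · exact h2 q hq
      · have : q = (2 * n + 4, 2 * n + 5, b n) := by simpa using hq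
        rw [this]
        exact ⟨by simp, by simp⟩

theorem trb_G_rel {e : Equiv.Perm ℕ} (h : ∀ x < 4, e x = x) {v : M} (hv : G 0 2 1 3 v = v) :
    G 0 2 1 3 (Rel e v) = Rel e v := by
  have h1 := Rel_G e 0 2 1 3 v
  rw [hv, h 0 (by omega), h 1 (by omega), h 2 (by omega), h 3 (by omega)] at h1
  exact h1.symm

theorem trb_rtn_val (L x : ℕ) : rtn L x =
    if x < 4 ∨ 2 * L + 4 ≤ x then x else if x < 2 * L + 2 then x + 2 else 2 * L + 7 - x := rfl
theorem trb_rvn_val (L x : ℕ) : rvn L x =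
    if x < 4 ∨ 2 * L + 4 ≤ x then x else 2 * L + 7 - x := rfl

theorem Tt_rt (L : ℕ) (b : ℕ → ℝ) {v : M} (hv : G 0 2 1 3 v = v) :
    Rel (rtn L) (Tt L b v) = Tt L (rb L b) (Rel (rtn L) v) := by
  have he : ∀ x < 4, rtn L x = x := fun x hx => by rw [trb_rtn_val, if_pos (Or.inl hx)]
  have hw := trb_G_rel he hv
  have h1 : Rel (rtn L) (Tt L b v) = TtL ((lst L b).map fun q => (rtn L q.1, rtn L q.2.1, q.2.2))
      (Rel (rtn L) v) := TtL_rel _ he _ _
  rw [h1]
  cases L with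
  | zero => rfl
  | succ m =>
    have h2 : (lst (m + 1) b).map (fun q => (rtn (m + 1) q.1, rtn (m + 1) q.2.1, q.2.2)) =
        ((List.range m).map fun i => (2 * i + 6, 2 * i + 7, b i)) ++ [(5, 4, b m)] := by
      rw [tra_lst_succ, List.map_append]
      congr 1
      · unfold lst
        rw [List.map_map]
        refine List.map_congr_left fun i hi => ?_
        have := List.mem_range.mp hi
        simp only [Function.comp_apply]
        rw [trb_rtn_val, if_neg (by omega), if_pos (by omega), trb_rtn_val, if_neg (by omega),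
          if_pos (by omega)]
      · simp only [List.map_cons, List.map_nil]
        rw [trb_rtn_val, if_neg (by omega), if_neg (by omega), trb_rtn_val, if_neg (by omega),
          if_neg (by omega)]
        have e1 : 2 * (m + 1) + 7 - (2 * m + 4) = 5 := by omega
        have e2 : 2 * (m + 1) + 7 - (2 * m + 5) = 4 := by omega
        rw [e1, e2]
    have h3 : lst (m + 1) (rb (m + 1) b) = (4, 5, b m) ::
        ((List.range m).map fun i => (2 * i + 6, 2 * i + 7, b i)) := by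
      unfold lst
      rw [List.range_succ_eq_map, List.map_cons, List.map_map]
      congr 1
      refine List.map_congr_left fun i hi => ?_
      have := List.mem_range.mp hi
      simp only [Function.comp_apply]
      unfold rb
      rw [if_pos (by omega), if_neg (by omega)]
      rfl
    have hOk : Ok ((4, 5, b m) :: ((List.range m).map fun i => (2 * i + 6, 2 * i + 7, b i))) := by
      rw [← h3]; exact trb_lst_Ok _ _
    rw [h2, ← TtL_rotate hOk hw, ← h3]
    rfl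

theorem Tt_rv (L : ℕ) (b : ℕ → ℝ) {v : M} (hv : G 0 2 1 3 v = v) :
    Rel (rvn L) (Tt L b v) = Tt L (vb L b) (Rel (rvn L) v) := by
  have he : ∀ x < 4, rvn L x = x := fun x hx => by rw [trb_rvn_val, if_pos (Or.inl hx)]
  have hw := trb_G_rel he hv
  have h1 : Rel (rvn L) (Tt L b v) = TtL ((lst L b).map fun q => (rvn L q.1, rvn L q.2.1, q.2.2))
      (Rel (rvn L) v) := TtL_rel _ he _ _
  rw [h1]
  have h2 : (lst L b).map (fun q => (rvn L q.1, rvn L q.2.1, q.2.2)) =
      ((lst L fun j => b (L - 1 - j)).map fun q => (q.2.1, q.1, q.2.2)).reverse := by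
    unfold lst
    rw [List.map_map, List.map_map, ← List.map_reverse]
    apply List.ext_getElem
    · simp
    · intro i hi1 hi2
      have hi : i < L := by simpa using hi1
      simp only [List.getElem_map, List.getElem_range, List.getElem_reverse, List.length_range,
        Function.comp_apply]
      rw [trb_rvn_val, trb_rvn_val, if_neg (by omega), if_neg (by omega)]
      refine Prod.ext ?_ (Prod.ext ?_ ?_)
      · simp only; omega
      · simp only; omega
      · simp only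
        congr 1
        omega
  have hOk : Ok ((lst L b).map (fun q => (rvn L q.1, rvn L q.2.1, q.2.2))) := by
    obtain ⟨k1, k2⟩ := trb_lst_Ok L b
    refine ⟨?_, ?_⟩
    · have : ((lst L b).map (fun q => (rvn L q.1, rvn L q.2.1, q.2.2))).flatMap
          (fun q => [q.1, q.2.1]) = ((lst L b).flatMap fun q => [q.1, q.2.1]).map (rvn L) := by
        rw [List.flatMap_map, List.map_flatMap]
        rfl
      rw [this]
      exact List.Nodup.map (rvn L).injective k1
    · intro q hq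
      obtain ⟨p, hp, rfl⟩ := List.mem_map.mp hq
      have h3 := k2 p hp
      have key : ∀ x, 4 ≤ x → 4 ≤ rvn L x := by
        intro x hx
        rw [trb_rvn_val]
        split_ifs <;> omega
      exact ⟨key _ h3.1, key _ h3.2⟩
  rw [TtL_reverse hOk hw, h2, List.reverse_reverse, List.map_map]
  have h4 : (lst L fun j => b (L - 1 - j)).map ((fun q : ℕ × ℕ × ℝ => (q.1, q.2.1, -q.2.2)) ∘
      fun q => (q.2.1, q.1, q.2.2)) = (lst L (vb L b)).map fun q => (q.2.1, q.1, q.2.2) := by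
    unfold lst
    rw [List.map_map, List.map_map]
    refine List.map_congr_left fun i hi => ?_
    have := List.mem_range.mp hi
    simp only [Function.comp_apply]
    unfold vb
    rw [if_pos this]
  rw [h4, TtL_flip _ (trb_lst_Ok _ _) hw]
  rfl
end IPC
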