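import Pool.Agent.Helper64.IPC.TransferA
import Pool.Agent.Helper64.IPC.TransferB
/-! MODULE TRANSFER: the transfer matrix on the cylinder (double cover).
The closing operator is `G 0 3 1 2` (`a_0` with `c_1`, `a_1` with `c_0`), the initial blocks are `{0,2}`, `{1,3}`
(`G 0 2 1 3 v = v`).
Cyclicity: `G 0 3 1 2 ∘ Rh 0 y 1 y' u = G 0 3 1 2 ∘ Rh 3 y 2 y' (π/3-u)` (`cross2`), `Rh 3 y 2 y'` commutes with the
other factors `Rh 0 _ 1 _`, and on `G 0 2 1 3 v` it is `Rh 1 y 0 y' u = Rh 0 y' 1 y u` (`cross1`, the pairs are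
`{3,1}`, `{2,0}`).
Reversal: replace all factors by `Rh 3 y 2 y' (π/3 - u)` (from the left), the order is reversed;
then relabel by `gs 0 3 1 2` (it fixes `G 0 3 1 2`, maps the blocks `{0,2}`, `{1,3}` to `{3,1}`, `{2,0}`).
Note `s (x + π/6) = cos x` is even.
The first part (`TransferA`: mass, supports, exchange, insertion) is by helper74, the second part (`TransferB`:
relabelling, rotation, reversal, flip) by helper72. -/
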