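import Pool.Agent.Helper64.IPC.Lin
/-! MODULE TRANSFER, first part: mass, supports, exchange, insertion, normalisation. -/
namespace IPC
open IP Finset Real

theorem tra_row_cons (y y' : ℕ) (β : ℝ) (l : List (ℕ × ℕ × ℝ)) (v : M) :
    row ((y, y', β) :: l) v = Rh 0 y 1 y' (β + π / 6) (row l v) := rfl
theorem tra_row_append (l l' : List (ℕ × ℕ × ℝ)) (v : M) : row (l ++ l') v = row l (row l' v) := by
  induction l with
  | nil => rfl
  | cons q l ih =>
    obtain ⟨y, y', β⟩ := q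
    rw [List.cons_append, tra_row_cons, ih, tra_row_cons]
theorem tra_row_single (y y' : ℕ) (β : ℝ) (v : M) : row [(y, y', β)] v = Rh 0 y 1 y' (β + π / 6) v := rfl
theorem tra_lst_succ (n : ℕ) (b : ℕ → ℝ) : lst (n + 1) b = lst n b ++ [(2 * n + 4, 2 * n + 5, b n)] := by
  unfold lst
  rw [List.range_succ, List.map_append]
  rfl
theorem tra_lst_zero (b : ℕ → ℝ) : lst 0 b = [] := rfl
theorem tra_row_lst_succ (n : ℕ) (b : ℕ → ℝ) (v : M) :
    row (lst (n + 1) b) v = row (lst n b) (Rh 0 (2 * n + 4) 1 (2 * n + 5) (b n + π / 6) v) := by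
  rw [tra_lst_succ, tra_row_append, tra_row_single]
theorem tra_Tt (L : ℕ) (b : ℕ → ℝ) (v : M) :
    Tt L b v = Rel (Equiv.swap 2 3) (G 0 3 1 2 (row (lst L b) v)) := rfl

theorem tra_tot_row (L : ℕ) (b : ℕ → ℝ) (v : M) : tot (row (lst L b) v) = nrm L b * tot v := by
  induction L generalizing v with
  | zero => simp [lst, row, nrm]
  | succ n ih =>
    rw [tra_row_lst_succ, ih, tot_Rh]
    unfold nrm
    rw [prod_range_succ]
    ring

theorem tot_Tt (L : ℕ) (b : ℕ → ℝ) (v : M) : tot (Tt L b v) = nrm L b * tot v := by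
  rw [tra_Tt, tot_Rel, tot_G, tra_tot_row]

theorem tra_G_eq (x y x' y' : ℕ) (v : M) :
    G x y x' y' v = Finsupp.lmapDomain ℝ ℝ (fun σ => pr x y (pr x' y' σ)) v := by
  induction v using Finsupp.induction_linear with
  | zero => simp
  | add a b ha hb => simp only [map_add, ha, hb]
  | single σ c =>
    rw [lin2_G_apply, Pr_single, Pr_single, Finsupp.lmapDomain_apply, Finsupp.mapDomain_single]

theorem tra_Rh_Sup {A B : Set St} {x y x' y' : ℕ} (h1 : ∀ σ ∈ A, rel (gs x y x' y') σ ∈ B)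
    (h2 : ∀ σ ∈ A, pr x y (pr x' y' σ) ∈ B) (u : ℝ) {v : M} (hv : v ∈ Sup A) :
    Rh x y x' y' u v ∈ Sup B := by
  rw [lin2_Rh_apply, tra_G_eq]
  exact add_mem (Submodule.smul_mem _ _ (lmap_Sup h1 hv)) (Submodule.smul_mem _ _ (lmap_Sup h2 hv))

theorem tra_close_Sup {A B : Set St} (h : ∀ σ ∈ A, rel (Equiv.swap 2 3) (pr 0 3 (pr 1 2 σ)) ∈ B)
    {v : M} (hv : v ∈ Sup A) : Rel (Equiv.swap 2 3) (G 0 3 1 2 v) ∈ Sup B := by
  have e : ∀ w : M, Rel (Equiv.swap 2 3) (G 0 3 1 2 w) =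
      Finsupp.lmapDomain ℝ ℝ (fun σ => rel (Equiv.swap 2 3) (pr 0 3 (pr 1 2 σ))) w := by
    intro w
    induction w using Finsupp.induction_linear with
    | zero => simp
    | add a b ha hb => simp only [map_add, ha, hb]
    | single σ c =>
      rw [lin2_G_apply, Pr_single, Pr_single, Rel_single, Finsupp.lmapDomain_apply,
        Finsupp.mapDomain_single]
  rw [e]
  exact lmap_Sup h hv

theorem tra_gs_fl {k : ℕ} (x : ℕ) :
    gs 0 (2 * k + 4) 1 (2 * k + 5) (fl x) = fl (gs 0 (2 * k + 4) 1 (2 * k + 5) x) := by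
  have e0 : gs 0 (2 * k + 4) 1 (2 * k + 5) 0 = 2 * k + 4 := by
    rw [bc_gs_apply, if_pos rfl]
  have e4 : gs 0 (2 * k + 4) 1 (2 * k + 5) (2 * k + 4) = 0 := by
    rw [bc_gs_apply, if_neg (by omega), if_pos rfl]
  have e1 : gs 0 (2 * k + 4) 1 (2 * k + 5) 1 = 2 * k + 5 := by
    rw [bc_gs_apply, if_neg (by omega), if_neg (by omega), if_pos rfl]
  have e5 : gs 0 (2 * k + 4) 1 (2 * k + 5) (2 * k + 5) = 1 := by
    rw [bc_gs_apply, if_neg (by omega), if_neg (by omega), if_neg (by omega), if_pos rfl]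
  have en : ∀ y, y ≠ 0 → y ≠ 2 * k + 4 → y ≠ 1 → y ≠ 2 * k + 5 →
      gs 0 (2 * k + 4) 1 (2 * k + 5) y = y := by
    intro y h1 h2 h3 h4
    rw [bc_gs_apply, if_neg h1, if_neg h2, if_neg h3, if_neg h4]
  have f0 : fl 0 = 1 := by rw [bb_fl_val, if_pos (by omega)]
  have f1 : fl 1 = 0 := by rw [bb_fl_val, if_neg (by omega)]
  have f4 : fl (2 * k + 4) = 2 * k + 5 := by rw [bb_fl_val, if_pos (by omega)]
  have f5 : fl (2 * k + 5) = 2 * k + 4 := by
    rw [bb_fl_val, if_neg (by omega)]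
    omega
  by_cases h0 : x = 0
  · rw [h0, f0, e1, e0, f4]
  by_cases h1 : x = 1
  · rw [h1, f1, e0, e1, f5]
  by_cases h4 : x = 2 * k + 4
  · rw [h4, f4, e5, e4, f0]
  by_cases h5 : x = 2 * k + 5
  · rw [h5, f5, e4, e5, f1]
  have hv := bb_fl_val x
  have : x % 2 = 0 ∨ x % 2 = 1 := by omega
  rw [en x h0 h4 h1 h5, en]
  · rcases this with h | h
    · rw [if_pos h] at hv; omega
    · rw [if_neg (by omega)] at hv; omega
  · rcases this with h | h
    · rw [if_pos h] at hv; omega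
    · rw [if_neg (by omega)] at hv; omega
  · rcases this with h | h
    · rw [if_pos h] at hv; omega
    · rw [if_neg (by omega)] at hv; omega
  · rcases this with h | h
    · rw [if_pos h] at hv; omega
    · rw [if_neg (by omega)] at hv; omega

theorem tra_fl0 : fl 0 = 1 := by decide
theorem tra_fl4 (k : ℕ) : fl (2 * k + 4) = 2 * k + 5 := by
  rw [bb_fl_val, if_pos (by omega)]

theorem tra_gs_PW {L k : ℕ} (hk : k < L) {σ : St} (hσ : σ ∈ PW L) :
    rel (gs 0 (2 * k + 4) 1 (2 * k + 5)) σ ∈ PW L := by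
  refine rel_PW ?_ tra_gs_fl hσ
  intro x
  rw [bc_gs_apply]
  split_ifs <;> omega
theorem tra_pr_PW {L k : ℕ} (hk : k < L) {σ : St} (hσ : σ ∈ PW L) :
    pr 0 (2 * k + 4) (pr 1 (2 * k + 5) σ) ∈ PW L :=
  prpr_PW (by omega) (by omega) (by omega) (by omega) tra_fl0 (tra_fl4 k) hσ

theorem tra_row_PW {L : ℕ} (n : ℕ) (hn : n ≤ L) (b : ℕ → ℝ) {v : M} (hv : v ∈ Sup (PW L)) :
    row (lst n b) v ∈ Sup (PW L) := by
  induction n generalizing v with
  | zero => exact hv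
  | succ n ih =>
    rw [tra_row_lst_succ]
    exact ih (by omega) (tra_Rh_Sup (fun σ hσ => tra_gs_PW (by omega) hσ)
      (fun σ hσ => tra_pr_PW (by omega) hσ) _ hv)

theorem tra_row_NC {L : ℕ} (n : ℕ) (hn : n ≤ L) (b : ℕ → ℝ) {v : M}
    (hv : v ∈ Sup (PW L ∩ NCp 0 (2 * L + 4) (pk L n))) :
    row (lst n b) v ∈ Sup (PW L ∩ NCp 0 (2 * L + 4) (pk L 0)) := by
  induction n generalizing v with
  | zero => exact hv
  | succ n ih =>
    rw [tra_row_lst_succ]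
    exact ih (by omega) (tra_Rh_Sup (A := PW L ∩ NCp 0 (2 * L + 4) (pk L (n + 1)))
      (B := PW L ∩ NCp 0 (2 * L + 4) (pk L n))
      (fun σ hσ => ⟨tra_gs_PW (by omega) hσ.1, swap_NC (by omega) hσ.1 hσ.2⟩)
      (fun σ hσ => ⟨tra_pr_PW (by omega) hσ.1, gen_NC (by omega) hσ.1 hσ.2⟩) _ hv)

theorem Tt_Sup (L : ℕ) (b : ℕ → ℝ) {v : M} (hv : v ∈ Sup (W L)) : Tt L b v ∈ Sup (W L) := by
  rw [tra_Tt]
  refine tra_close_Sup (A := PW L) (fun σ hσ => close_W hσ) (tra_row_PW L le_rfl b ?_)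
  exact Finsupp.supported_mono (fun σ hσ => hσ.1) hv
theorem Tt_NCSup (L : ℕ) (b : ℕ → ℝ) {v : M} (hv : v ∈ Sup (W L ∩ NC L)) : Tt L b v ∈ Sup (W L ∩ NC L) := by
  rw [tra_Tt]
  refine tra_close_Sup (A := PW L ∩ NCp 0 (2 * L + 4) (pk L 0)) (B := W L ∩ NC L)
    (fun σ hσ => ⟨close_W hσ.1, close_NC hσ.1 hσ.2⟩) (tra_row_NC L le_rfl b ?_)
  have hsub : W L ∩ NC L ⊆ PW L ∩ NCp 0 (2 * L + 4) (pk L L) :=
    fun σ hσ => ⟨hσ.1.1, start_NC hσ.1 hσ.2⟩
  exact Finsupp.supported_mono hsub hv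
theorem tra_lst_congr (L : ℕ) {b b' : ℕ → ℝ} (h : ∀ j < L, b j = b' j) : lst L b = lst L b' := by
  unfold lst
  refine List.map_congr_left fun i hi => ?_
  rw [h i (List.mem_range.1 hi)]
theorem Tt_congr (L : ℕ) {b b' : ℕ → ℝ} (h : ∀ j < L, b j = b' j) : Tt L b = Tt L b' := by
  unfold Tt
  rw [tra_lst_congr L h]

theorem tra_Dj (i n : ℕ) (h : n < i ∨ i + 1 < n) :
    Dj (2 * i + 4) (2 * i + 6) (2 * i + 5) (2 * i + 7) 0 (2 * n + 4) 1 (2 * n + 5) := by
  unfold Dj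
  simp only [List.disjoint_cons_left, List.mem_cons, List.not_mem_nil, or_false, not_or,
    List.disjoint_nil_left, and_true]
  refine ⟨⟨?_, ?_, ?_, ?_⟩, ⟨?_, ?_, ?_, ?_⟩, ⟨?_, ?_, ?_, ?_⟩, ⟨?_, ?_, ?_, ?_⟩⟩ <;> omega

theorem tra_Rs_row (i n : ℕ) (hn : n ≤ i) (u : ℝ) (b : ℕ → ℝ) (v : M) :
    Rs i u (row (lst n b) v) = row (lst n b) (Rs i u v) := by
  induction n generalizing v with
  | zero => rfl
  | succ n ih =>
    rw [tra_row_lst_succ, tra_row_lst_succ, ih (by omega)]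
    unfold Rs
    rw [Rc_Rh (tra_Dj i n (Or.inl (by omega)))]

theorem tra_sw_left (i : ℕ) (b : ℕ → ℝ) : sw i b i = b (i + 1) := by
  unfold sw; rw [Equiv.swap_apply_left]
theorem tra_sw_right (i : ℕ) (b : ℕ → ℝ) : sw i b (i + 1) = b i := by
  unfold sw; rw [Equiv.swap_apply_right]
theorem tra_sw_of_ne {i j : ℕ} (b : ℕ → ℝ) (h1 : j ≠ i) (h2 : j ≠ i + 1) : sw i b j = b j := by
  unfold sw; rw [Equiv.swap_apply_of_ne_of_ne h1 h2]

theorem tra_D6 (i : ℕ) : D6 0 (2 * i + 4) (2 * i + 6) 1 (2 * i + 5) (2 * i + 7) := by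
  refine lin2_D6_of ⟨⟨?_, ?_, ?_, ?_, ?_⟩, ⟨?_, ?_, ?_, ?_⟩, ⟨?_, ?_, ?_⟩, ⟨?_, ?_⟩, ?_⟩ <;> omega

theorem tra_row_sw (i k : ℕ) (b : ℕ → ℝ) (v : M) :
    Rs i (b i - b (i + 1)) (row (lst (i + 2 + k) b) v) =
      row (lst (i + 2 + k) (sw i b)) (Rs i (b i - b (i + 1)) v) := by
  induction k generalizing v with
  | zero =>
    have h := yb_line (tra_D6 i) (b i + π / 6) (b (i + 1) + π / 6) v
    rw [show b i + π / 6 - (b (i + 1) + π / 6) = b i - b (i + 1) by ring] at h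
    have hl : lst i (sw i b) = lst i b :=
      tra_lst_congr i (fun j hj => tra_sw_of_ne b (by omega) (by omega))
    have e1 : row (lst (i + 2 + 0) b) v = row (lst i b) (Rh 0 (2 * i + 4) 1 (2 * i + 5) (b i + π / 6)
        (Rh 0 (2 * i + 6) 1 (2 * i + 7) (b (i + 1) + π / 6) v)) := by
      rw [show i + 2 + 0 = i + 1 + 1 by omega, tra_row_lst_succ, tra_row_lst_succ]
      rfl
    have e2 : ∀ w, row (lst (i + 2 + 0) (sw i b)) w = row (lst i b) (Rh 0 (2 * i + 4) 1 (2 * i + 5) (b (i + 1) + π / 6)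
        (Rh 0 (2 * i + 6) 1 (2 * i + 7) (b i + π / 6) w)) := by
      intro w
      rw [show i + 2 + 0 = i + 1 + 1 by omega, tra_row_lst_succ, tra_row_lst_succ, tra_sw_left,
        tra_sw_right, hl]
      rfl
    rw [e1, e2, tra_Rs_row i i le_rfl]
    exact congrArg _ h
  | succ k ih =>
    rw [show i + 2 + (k + 1) = (i + 2 + k) + 1 by omega, tra_row_lst_succ, tra_row_lst_succ, ih,
      tra_sw_of_ne b (by omega) (by omega)]
    unfold Rs
    rw [Rc_Rh (tra_Dj i (i + 2 + k) (Or.inr (by omega)))]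

theorem Tt_sw {L i : ℕ} (h : i + 1 < L) (b : ℕ → ℝ) (v : M) :
    Rs i (b i - b (i + 1)) (Tt L b v) = Tt L (sw i b) (Rs i (b i - b (i + 1)) v) := by
  obtain ⟨k, rfl⟩ : ∃ k, L = i + 2 + k := ⟨L - (i + 2), by omega⟩
  rw [tra_Tt, tra_Tt, ← tra_row_sw]
  have hD : Dj 0 3 1 2 (2 * i + 4) (2 * i + 6) (2 * i + 5) (2 * i + 7) := by
    unfold Dj
    simp only [List.disjoint_cons_left, List.mem_cons, List.not_mem_nil, or_false, not_or,
      List.disjoint_nil_left, and_true]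
    refine ⟨⟨?_, ?_, ?_, ?_⟩, ⟨?_, ?_, ?_, ?_⟩, ⟨?_, ?_, ?_, ?_⟩, ⟨?_, ?_, ?_, ?_⟩⟩ <;> omega
  unfold Rs
  rw [G_Rc hD, Rel_Rc]
  have e : ∀ x, 4 ≤ x → Equiv.swap 2 3 x = x := fun x hx =>
    Equiv.swap_apply_of_ne_of_ne (by omega) (by omega)
  rw [e _ (by omega), e _ (by omega), e _ (by omega), e _ (by omega)]

theorem tra_lst_two (L : ℕ) (b : ℕ → ℝ) : lst (L + 2) b = (4, 5, b 0) :: (6, 7, b 1) ::
    (List.range L).map fun i => (2 * (i + 2) + 4, 2 * (i + 2) + 5, b (i + 2)) := by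
  unfold lst
  rw [List.range_succ_eq_map, List.range_succ_eq_map]
  simp only [List.map_cons, List.map_map, Function.comp_def]

theorem tra_row_In (L : ℕ) (b : ℕ → ℝ) (v : M) :
    row ((List.range L).map fun i => (2 * (i + 2) + 4, 2 * (i + 2) + 5, b (i + 2))) (In 0 v) =
      In 0 (row (lst L (fun j => b (j + 2))) v) := by
  induction L generalizing v with
  | zero => rfl
  | succ n ih =>
    rw [List.range_succ, List.map_append, tra_row_append, tra_row_lst_succ, ← ih]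
    congr 1
    have hD : D4 0 (2 * n + 4) 1 (2 * n + 5) := ⟨by omega, by omega, by omega, by omega, by omega, by omega⟩
    have h := Rh_In 0 hD (b (n + 2) + π / 6) v
    have e : ∀ x, 4 ≤ x → sk 0 x = x + 4 := by
      intro x hx
      unfold sk
      rw [if_neg (by omega)]
    have e0 : sk 0 0 = 0 := by unfold sk; rw [if_pos (by omega)]
    have e1 : sk 0 1 = 1 := by unfold sk; rw [if_pos (by omega)]
    rw [e0, e1, e _ (by omega), e _ (by omega)] at h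
    rw [← h]
    rfl

theorem Tt_In (L : ℕ) (b : ℕ → ℝ) (h : b 1 = b 0 + π / 3) (v : M) :
    Tt (L + 2) b (In 0 v) = (s (b 0 + π / 6) * s (b 1 + π / 6)) • In 0 (Tt L (fun j => b (j + 2)) v) := by
  rw [tra_Tt, tra_Tt, tra_lst_two, tra_row_cons, tra_row_cons, tra_row_In]
  set w := row (lst L (fun j => b (j + 2))) v with hw
  have e1 : In 0 w = G 4 6 5 7 (In 0 w) := (Es_In 0 w).symm
  have hs := slide (tra_D6 0) (b 0 + π / 6) (In 0 w)
  rw [show 2 * 0 + 4 = 4 by rfl, show 2 * 0 + 5 = 5 by rfl, show 2 * 0 + 6 = 6 by rfl,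
    show 2 * 0 + 7 = 7 by rfl, ← e1] at hs
  have e2 : b 1 + π / 6 = b 0 + π / 6 + π / 3 := by rw [h]; ring
  rw [e2, hs, s_add_pi_third, map_smul, map_smul]
  congr 1
  have hG := lin2_G_In 0 (x := 0) (y := 3) (x' := 1) (y' := 2) (by omega) (by omega) w
  have k0 : sk 0 0 = 0 := by unfold sk; rw [if_pos (by omega)]
  have k1 : sk 0 1 = 1 := by unfold sk; rw [if_pos (by omega)]
  have k2 : sk 0 2 = 2 := by unfold sk; rw [if_pos (by omega)]
  have k3 : sk 0 3 = 3 := by unfold sk; rw [if_pos (by omega)]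
  rw [k0, k1, k2, k3] at hG
  have hR := lin2_swap_In 0 2 3 (G 0 3 1 2 w)
  rw [k2, k3] at hR
  rw [hG, hR]

theorem tra_s_cos (x : ℝ) : s (x + π / 6) = Real.cos x := by
  unfold s
  rw [show π / 3 + (x + π / 6) = x + π / 2 by ring, Real.sin_add_pi_div_two]
theorem nrm_eq (L : ℕ) (b : ℕ → ℝ) : nrm L b = ∏ j ∈ range L, Real.cos (b j) := by
  unfold nrm
  exact prod_congr rfl fun j _ => tra_s_cos _
theorem nrm_sw {L i : ℕ} (h : i + 1 < L) (b : ℕ → ℝ) : nrm L (sw i b) = nrm L b := by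
  unfold nrm sw
  refine Equiv.Perm.prod_comp (Equiv.swap i (i + 1)) (range L) (fun x => s (b x + π / 6)) ?_
  intro x hx
  rw [mem_coe, mem_range]
  by_contra hc
  exact hx (Equiv.swap_apply_of_ne_of_ne (by omega) (by omega))
theorem nrm_rb (L : ℕ) (b : ℕ → ℝ) : nrm L (rb L b) = nrm L b := by
  rw [nrm_eq, nrm_eq]
  cases L with
  | zero => rfl
  | succ m =>
    rw [prod_range_succ', prod_range_succ]
    congr 1
    refine prod_congr rfl fun j hj => ?_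
    rw [mem_range] at hj
    unfold rb
    rw [if_pos (by omega), if_neg (by omega), Nat.add_sub_cancel]
theorem nrm_vb (L : ℕ) (b : ℕ → ℝ) : nrm L (vb L b) = nrm L b := by
  rw [nrm_eq, nrm_eq, ← Finset.prod_range_reflect (fun j => Real.cos (b j))]
  refine prod_congr rfl fun j hj => ?_
  rw [mem_range] at hj
  unfold vb
  rw [if_pos hj, Real.cos_neg]
theorem nrm_In (L : ℕ) (b : ℕ → ℝ) : nrm (L + 2) b =
    s (b 0 + π / 6) * s (b 1 + π / 6) * nrm L (fun j => b (j + 2)) := by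
  unfold nrm
  rw [prod_range_succ', prod_range_succ']
  ring
end IPC
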