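import Pool.Agent.Helper64.IPC.Exch
import Pool.Agent.Helper64.IPC.Gen
import Pool.Agent.Lead.IP.Trig
/-! MODULE VSOL: the polynomial solution `V L b`.
For `l` with `Gen L l` there is `F_l ∈ Sep L (L-1)` with `l (P L b) = phi L b * F_l b` on the cube
(induction: `top`: `P_top`, `f0 ∈ Sep L (L-1)`; `es`: `Es_P` + `phi_sw` + `Sep.divdiff` (or the name in `IP.Trig`), first
for `b i ≠ b (i+1)`, then by continuity; `rt`: `P_rb` + `phi_rb`, `Sep` is stable under permutations of the
variables).  With `cyclic` this gives all coordinates.  All other identities hold on the cube and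
extend by `Sep.eq_zero`.  `phi ≠ 0` on the cube since `tot P = 1`.
`V L b := Σ_{σ ∈ W ∩ NC} F_σ(b) single σ`. -/
namespace IPC
open IP Finset Real

/-! ### linear maps on `Sup (W L)` -/

theorem vs_lin_eq (L : ℕ) {N : Type*} [AddCommMonoid N] [Module ℝ N] (l : M →ₗ[ℝ] N) {v : M}
    (hv : v ∈ Sup (W L)) :
    l v = ∑ σ ∈ (W_finite L).toFinset, v σ • l (Finsupp.single σ 1) := by
  classical
  have h1 : v = ∑ σ ∈ (W_finite L).toFinset, Finsupp.single σ (v σ) := by
    have h2 : v.support ⊆ (W_finite L).toFinset := by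
      intro σ hσ
      rw [Set.Finite.mem_toFinset]
      exact (Finsupp.mem_supported ℝ v).1 hv (Finset.mem_coe.2 hσ)
    conv_lhs => rw [← Finsupp.sum_single v]
    exact Finsupp.sum_of_support_subset _ h2 _ (fun σ _ => Finsupp.single_zero σ)
  conv_lhs => rw [h1]
  rw [map_sum]
  apply sum_congr rfl
  intro σ _
  rw [← map_smul, Finsupp.smul_single, smul_eq_mul, mul_one]

theorem vs_contOn (L : ℕ) (l : M →ₗ[ℝ] ℝ) : ContinuousOn (fun b => l (P L b)) Cube := by
  have h1 : (fun b => l (P L b)) =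
      fun b => ∑ σ ∈ (W_finite L).toFinset, P L b σ • l (Finsupp.single σ 1) := by
    funext b
    exact vs_lin_eq L l (P_Sup L b)
  rw [h1]
  exact continuousOn_finsetSum _ (fun σ _ => (P_continuousOn L σ).smul continuousOn_const)

theorem vs_mem_Sup {A : Set St} {v : M} : v ∈ Sup A ↔ ∀ σ, σ ∉ A → v σ = 0 :=
  Finsupp.mem_supported' ℝ v

/-! ### extension from `b i ≠ b (i+1)` -/

theorem vs_ext {i : ℕ} {f g : (ℕ → ℝ) → ℝ} (hf : ContinuousOn f Cube) (hg : ContinuousOn g Cube)
    (h : ∀ b ∈ Cube, b i ≠ b (i + 1) → f b = g b) : ∀ b ∈ Cube, f b = g b := by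
  intro b hb
  by_cases hne : b i = b (i + 1)
  · have hc : Continuous (fun t : ℝ => Function.update b i (b i + t)) :=
      continuous_const.update i (continuous_const.add continuous_id)
    have hc0 : Function.update b i (b i + 0) = b := by
      rw [add_zero, Function.update_eq_self]
    have ht : Filter.Tendsto (fun t : ℝ => Function.update b i (b i + t)) (nhdsWithin 0 {0}ᶜ) (nhds b) := by
      have := hc.tendsto 0
      rw [hc0] at this
      exact this.mono_left nhdsWithin_le_nhds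
    have hCube : ∀ᶠ t : ℝ in nhdsWithin 0 {0}ᶜ, Function.update b i (b i + t) ∈ Cube := by
      have hpos : 0 < π / 6 - |b i| := sub_pos.2 (hb i)
      have h2 : ∀ᶠ t : ℝ in nhds 0, |t| < π / 6 - |b i| := by
        have h3 : Filter.Tendsto (fun t : ℝ => |t|) (nhds 0) (nhds |(0:ℝ)|) :=
          continuous_abs.tendsto 0
        rw [abs_zero] at h3
        exact h3.eventually (gt_mem_nhds hpos)
      filter_upwards [nhdsWithin_le_nhds h2] with t ht2 j
      rcases eq_or_ne j i with rfl | hj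
      · rw [Function.update_self]
        have := abs_add_le (b j) t
        linarith
      · rw [Function.update_of_ne hj]
        exact hb j
    have hW : Filter.Tendsto (fun t : ℝ => Function.update b i (b i + t)) (nhdsWithin 0 {0}ᶜ)
        (nhdsWithin b Cube) := tendsto_nhdsWithin_iff.2 ⟨ht, hCube⟩
    have hF := (hf b hb).tendsto.comp hW
    have hG := (hg b hb).tendsto.comp hW
    refine tendsto_nhds_unique_of_eventuallyEq hF hG ?_
    filter_upwards [hCube, self_mem_nhdsWithin] with t ht1 ht2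
    refine h _ ht1 ?_
    show Function.update b i (b i + t) i ≠ Function.update b i (b i + t) (i + 1)
    rw [Function.update_self, Function.update_of_ne (by omega), hne]
    intro h3
    exact ht2 (by simpa using h3)
  · exact h b hb hne

theorem vs_sin_ne {b : ℕ → ℝ} (hb : b ∈ Cube) {i j : ℕ} (hne : b i ≠ b j) :
    Real.sin (b i - b j) ≠ 0 := by
  intro h
  have h1 := abs_lt.1 (hb i)
  have h2 := abs_lt.1 (hb j)
  have hpi := Real.pi_pos
  have h3 := (Real.sin_eq_zero_iff_of_lt_of_lt (by linarith) (by linarith)).1 h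
  exact hne (sub_eq_zero.1 h3)

/-! ### separately trigonometric polynomials -/

/-- the divided difference operator preserves `Sep L m` (the proof of `IP.Sep.divdiff`, without parity) -/
theorem vs_divdiff {L m i : ℕ} (hi : i + 1 < L) {F : (ℕ → ℝ) → ℝ} (hF : Sep L m F) :
    ∃ G : (ℕ → ℝ) → ℝ, Sep L m G ∧ ∀ b, Real.sin (b i - b (i + 1)) * G b =
      s (b i - b (i + 1)) * F (sw i b) - s (-(b i - b (i + 1))) * F b := by
  rcases m with _ | m
  · refine ⟨F, hF, fun b => ?_⟩
    rw [hF.tb_sw_of_zero hi, tb_s_eq, tb_s_neg_eq]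
    ring
  · have hA := hF.tb_asym hi
    refine ⟨fun b => Real.sin (π / 3) *
      (Real.cos (b i - b (i + 1)) * tb_dd m i (fun b => F (sw i b) - F b) b) +
      1 / 2 * (F (sw i b) + F b), ((tb_cos_dd_Sep hi hA).smul _).add
        (((hF.comp_sw hi).add hF).smul _), fun b => ?_⟩
    have h := tb_dd_id hi hA (fun b hb => by show F (sw i b) - F b = 0; rw [tb_sw_self hb, sub_self]) b
    rw [tb_s_eq, tb_s_neg_eq]
    show Real.sin (b i - b (i + 1)) * (Real.sin (π / 3) *
      (Real.cos (b i - b (i + 1)) * tb_dd m i (fun b => F (sw i b) - F b) b) +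
      1 / 2 * (F (sw i b) + F b)) = _
    linear_combination (-Real.sin (π / 3) * Real.cos (b i - b (i + 1))) * h

theorem vs_comp_perm {L m : ℕ} {F : (ℕ → ℝ) → ℝ} (hF : Sep L m F) (e : Equiv.Perm ℕ)
    (he : ∀ j, j < L → e j < L) (he' : ∀ j, j < L → e.symm j < L) :
    Sep L m (fun b => F (fun j => b (e j))) := by
  refine ⟨fun b k hk => ?_, fun b b' h => hF.2 _ _ fun j hj => h _ (he j hj)⟩
  have h1 : ∀ x, (fun j => Function.update b k x (e j)) =
      Function.update (fun j => b (e j)) (e.symm k) x := by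
    intro x
    funext j
    by_cases hj : j = e.symm k
    · subst hj
      rw [Equiv.apply_symm_apply, Function.update_self, Function.update_self]
    · rw [Function.update_of_ne hj, Function.update_of_ne]
      intro h
      exact hj (by rw [← h, Equiv.symm_apply_apply])
  have h2 := hF.1 (fun j => b (e j)) (e.symm k) (he' k hk)
  have h3 : (fun x => F (fun j => Function.update b k x (e j))) =
      fun x => F (Function.update (fun j => b (e j)) (e.symm k) x) := by
    funext x
    rw [h1]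
  rw [h3]
  exact h2

theorem vs_rb_eq (L : ℕ) (b : ℕ → ℝ) : rb L b = fun j => b (exch_rot L j) := by
  funext j
  show (if j < L then (if j = 0 then b (L - 1) else b (j - 1)) else b j) =
    b (if j < L then (if j = 0 then L - 1 else j - 1) else j)
  split_ifs <;> rfl

theorem vs_comp_rb {L m : ℕ} {F : (ℕ → ℝ) → ℝ} (hF : Sep L m F) : Sep L m (fun b => F (rb L b)) := by
  have h1 : (fun b => F (rb L b)) = fun b => F (fun j => b (exch_rot L j)) := by
    funext b
    rw [vs_rb_eq]
  rw [h1]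
  refine vs_comp_perm hF _ ?_ ?_
  · intro j hj
    show (if j < L then (if j = 0 then L - 1 else j - 1) else j) < L
    split_ifs <;> omega
  · intro j hj
    show (if j < L then (if j = L - 1 then 0 else j + 1) else j) < L
    split_ifs <;> omega

theorem vs_comp_vb {L m : ℕ} {F : (ℕ → ℝ) → ℝ} (hF : Sep L m F) : Sep L m (fun b => F (vb L b)) := by
  have h1 : (fun b => F (vb L b)) = fun b => (fun b => F (fun j => -b j)) (fun j => b (exch_rev L j)) := by
    funext b
    refine hF.2 _ _ fun j hj => ?_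
    show (if j < L then -b (L - 1 - j) else b j) = -b (if j < L then L - 1 - j else j)
    rw [if_pos hj, if_pos hj]
  rw [h1]
  refine vs_comp_perm hF.comp_neg _ ?_ ?_
  · intro j hj
    show (if j < L then L - 1 - j else j) < L
    split_ifs; omega
  · intro j hj
    show (if j < L then L - 1 - j else j) < L
    split_ifs; omega

theorem vs_f0_Sep (L : ℕ) : Sep L (L - 1) (f0 L) := by
  induction L with
  | zero =>
    refine ⟨fun b j hj => absurd hj (by omega), fun b b' h => exch_f0_congr 0 h⟩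
  | succ L ih =>
    refine ⟨fun b k hk => ?_, fun b b' h => exch_f0_congr (L + 1) h⟩
    rw [Nat.add_sub_cancel]
    rcases Nat.lt_or_ge k L with h | h
    · have h1 : (fun x => f0 (L + 1) (Function.update b k x)) = fun x =>
          f0 L (Function.update b k x) *
            ((∏ i ∈ (range L).erase k, s (b i - b L)) * s (x + (-b L))) := by
        funext x
        rw [exch_f0_succ, ← Finset.mul_prod_erase _ _ (mem_range.2 h), Function.update_self,
          Function.update_of_ne (by omega : L ≠ k), ← sub_eq_add_neg]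
        have : ∏ i ∈ (range L).erase k, s (Function.update b k x i - b L) =
            ∏ i ∈ (range L).erase k, s (b i - b L) := prod_congr rfl fun i hi => by
          rw [Function.update_of_ne (ne_of_mem_erase hi)]
        rw [this]
        ring
      rw [h1]
      have h2 := (ih.1 b k h).mul ((TP.s_add (-b L)).smul (∏ i ∈ (range L).erase k, s (b i - b L)))
      rwa [show L - 1 + 1 = L by omega] at h2
    · obtain rfl : k = L := by omega
      have h1 : (fun x => f0 (k + 1) (Function.update b k x)) = fun x =>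
          f0 k b * ∏ i ∈ range k, s (b i - x) := by
        funext x
        rw [exch_f0_succ, Function.update_self]
        congr 1
        · exact exch_f0_congr k fun j hj => Function.update_of_ne (by omega) _ _
        · refine prod_congr rfl fun i hi => ?_
          rw [mem_range] at hi
          rw [Function.update_of_ne (by omega)]
      rw [h1]
      have h2 := TP.prod (range k) (m := fun _ => 1) (F := fun i x => s (b i - x))
        fun i _ => TP.s_sub (b i)
      rw [sum_const, card_range, smul_eq_mul, mul_one] at h2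
      exact h2.smul _

/-! ### polynomial functions for generated functionals -/

theorem vs_gen (L : ℕ) {l : M →ₗ[ℝ] ℝ} (hl : Gen L l) :
    ∃ F : (ℕ → ℝ) → ℝ, Sep L (L - 1) F ∧ ∀ b ∈ Cube, l (P L b) = phi L b * F b := by
  induction hl with
  | top => exact ⟨f0 L, vs_f0_Sep L, fun b hb => by rw [Finsupp.lapply_apply, P_top L hb, mul_comm]⟩
  | es i hi l h ih =>
    obtain ⟨F, hF, hlF⟩ := ih
    obtain ⟨G, hG, hGF⟩ := vs_divdiff hi hF
    refine ⟨G, hG, ?_⟩
    apply vs_ext (i := i) (vs_contOn L (l ∘ₗ Es i))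
      ((phi_continuousOn L).mul hG.continuous.continuousOn)
    intro b hb hne
    have hs := vs_sin_ne hb hne
    have h1 := Es_P hi hb l
    rw [hlF _ (sw_Cube i hb), hlF b hb, phi_sw hi hb] at h1
    have h2 := hGF b
    show l (Es i (P L b)) = phi L b * G b
    apply mul_left_cancel₀ hs
    rw [h1]
    linear_combination (-phi L b) * h2
  | rt l h ih =>
    obtain ⟨F, hF, hlF⟩ := ih
    refine ⟨fun b => F (rb L b), vs_comp_rb hF, ?_⟩
    intro b hb
    rw [LinearMap.comp_apply, ← P_rb L hb, hlF _ (rb_Cube L hb), phi_rb L hb]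
  | add l l' h h' ih ih' =>
    obtain ⟨F, hF, hlF⟩ := ih
    obtain ⟨G, hG, hlG⟩ := ih'
    refine ⟨fun b => F b + G b, hF.add hG, ?_⟩
    intro b hb
    rw [LinearMap.add_apply, hlF b hb, hlG b hb]
    ring
  | smul c l h ih =>
    obtain ⟨F, hF, hlF⟩ := ih
    refine ⟨fun b => c * F b, hF.smul c, ?_⟩
    intro b hb
    rw [LinearMap.smul_apply, hlF b hb, smul_eq_mul]
    ring

theorem vs_zero_Sep (L m : ℕ) : Sep L m (fun _ => (0 : ℝ)) :=
  ⟨fun _ _ _ => TP.zero m, fun _ _ _ => rfl⟩

theorem vs_coord (L : ℕ) (σ : St) : ∃ F : (ℕ → ℝ) → ℝ, Sep L (L - 1) F ∧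
    (σ = top L → F = f0 L) ∧ (¬ (σ ∈ W L ∩ NC L) → F = fun _ => 0) ∧
    ∀ b ∈ Cube, P L b σ = phi L b * F b := by
  by_cases h0 : σ = top L
  · refine ⟨f0 L, vs_f0_Sep L, fun _ => rfl, ?_, ?_⟩
    · intro h
      exact absurd (h0 ▸ ⟨top_W L, top_NC L⟩) h
    · intro b hb
      rw [h0, P_top L hb, mul_comm]
  by_cases h1 : σ ∈ W L ∩ NC L
  · obtain ⟨l, hl, hlv⟩ := cyclic L h1.1 h1.2
    obtain ⟨F, hF, hFl⟩ := vs_gen L hl
    refine ⟨F, hF, fun h => absurd h h0, fun h => absurd h1 h, ?_⟩
    intro b hb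
    rw [← hFl b hb, hlv _ (P_NCSup L b)]
  · refine ⟨fun _ => 0, vs_zero_Sep L _, fun h => absurd h h0, fun _ => rfl, ?_⟩
    intro b _
    rw [mul_zero]
    exact vs_mem_Sup.1 (P_NCSup L b) σ h1

theorem exists_V (L : ℕ) : ∃ V : (ℕ → ℝ) → M, (∀ b, V b ∈ Sup (W L ∩ NC L)) ∧
    (∀ σ, Sep L (L - 1) (fun b => V b σ)) ∧
    (∀ b, V b (top L) = f0 L b) ∧
    (∀ b ∈ Cube, phi L b ≠ 0 ∧ P L b = phi L b • V b) := by
  classical
  choose F hF1 hF2 hF3 hF4 using vs_coord L
  set V : (ℕ → ℝ) → M := fun b => ∑ σ ∈ (W_finite L).toFinset, Finsupp.single σ (F σ b) with hV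
  have hVF : ∀ b σ, V b σ = F σ b := by
    intro b σ
    rw [hV]
    simp only
    rw [Finsupp.finsetSum_apply]
    by_cases h : σ ∈ W L
    · rw [sum_eq_single σ]
      · rw [Finsupp.single_eq_same]
      · intro τ _ hτ
        rw [Finsupp.single_apply, if_neg hτ]
      · intro h'
        exact absurd ((Set.Finite.mem_toFinset _).2 h) h'
    · rw [hF3 σ (fun h' => h h'.1)]
      apply sum_eq_zero
      intro τ hτ
      rw [Finsupp.single_apply, if_neg]
      rintro rfl
      exact h ((Set.Finite.mem_toFinset _).1 hτ)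
  have hPV : ∀ b ∈ Cube, P L b = phi L b • V b := by
    intro b hb
    ext σ
    rw [Finsupp.smul_apply, hVF, hF4 σ b hb, smul_eq_mul]
  refine ⟨V, ?_, ?_, ?_, ?_⟩
  · intro b
    rw [vs_mem_Sup]
    intro σ hσ
    rw [hVF, hF3 σ hσ]
  · intro σ
    have : (fun b => V b σ) = F σ := funext (fun b => hVF b σ)
    rw [this]
    exact hF1 σ
  · intro b
    rw [hVF, hF2 (top L) rfl]
  · intro b hb
    refine ⟨?_, hPV b hb⟩
    intro h0
    have h1 := tot_P L hb
    rw [hPV b hb, h0, zero_smul, map_zero] at h1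
    exact zero_ne_one h1

noncomputable def V (L : ℕ) : (ℕ → ℝ) → M := (exists_V L).choose

/-- total mass of `V` -/
noncomputable def Z (L : ℕ) (b : ℕ → ℝ) : ℝ := tot (V L b)

theorem V_NCSup (L : ℕ) (b : ℕ → ℝ) : V L b ∈ Sup (W L ∩ NC L) := (exists_V L).choose_spec.1 b
theorem V_Sup (L : ℕ) (b : ℕ → ℝ) : V L b ∈ Sup (W L) :=
  vs_mem_Sup.2 fun σ hσ => vs_mem_Sup.1 (V_NCSup L b) σ fun h => hσ h.1
theorem V_Sep (L : ℕ) (σ : St) : Sep L (L - 1) (fun b => V L b σ) := (exists_V L).choose_spec.2.1 σ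
theorem V_top (L : ℕ) (b : ℕ → ℝ) : V L b (top L) = f0 L b := (exists_V L).choose_spec.2.2.1 b
theorem V_continuous (L : ℕ) (σ : St) : Continuous (fun b => V L b σ) := (V_Sep L σ).continuous
theorem V_congr (L : ℕ) {b b' : ℕ → ℝ} (h : ∀ j < L, b j = b' j) : V L b = V L b' := by
  ext σ
  exact (V_Sep L σ).2 b b' h
theorem vs_phi_ne (L : ℕ) {b : ℕ → ℝ} (hb : b ∈ Cube) : phi L b ≠ 0 :=
  ((exists_V L).choose_spec.2.2.2 b hb).1
theorem vs_P (L : ℕ) {b : ℕ → ℝ} (hb : b ∈ Cube) : P L b = phi L b • V L b :=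
  ((exists_V L).choose_spec.2.2.2 b hb).2

/-! ### separately trigonometric polynomials with different degrees -/

/-- separately trigonometric polynomials of degree `m j` in the coordinate `j` -/
def vs_SepD (L : ℕ) (m : ℕ → ℕ) (F : (ℕ → ℝ) → ℝ) : Prop :=
  (∀ b j, j < L → TP (m j) (fun x => F (Function.update b j x))) ∧
  ∀ b b', (∀ j < L, b j = b' j) → F b = F b'

theorem vs_toD {L m : ℕ} {F : (ℕ → ℝ) → ℝ} (hF : Sep L m F) : vs_SepD L (fun _ => m) F := hF

theorem vs_SepD.sub {L : ℕ} {m : ℕ → ℕ} {F G : (ℕ → ℝ) → ℝ} (hF : vs_SepD L m F) (hG : vs_SepD L m G) :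
    vs_SepD L m (fun b => F b - G b) :=
  ⟨fun b j hj => (hF.1 b j hj).sub (hG.1 b j hj), fun b b' h => by
    show F b - G b = F b' - G b'
    rw [hF.2 b b' h, hG.2 b b' h]⟩

theorem vs_SepD.add {L : ℕ} {m : ℕ → ℕ} {F G : (ℕ → ℝ) → ℝ} (hF : vs_SepD L m F) (hG : vs_SepD L m G) :
    vs_SepD L m (fun b => F b + G b) :=
  ⟨fun b j hj => (hF.1 b j hj).add (hG.1 b j hj), fun b b' h => by
    show F b + G b = F b' + G b'
    rw [hF.2 b b' h, hG.2 b b' h]⟩

theorem vs_SepD.smul {L : ℕ} {m : ℕ → ℕ} {F : (ℕ → ℝ) → ℝ} (c : ℝ) (hF : vs_SepD L m F) :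
    vs_SepD L m (fun b => c * F b) :=
  ⟨fun b j hj => (hF.1 b j hj).smul c, fun b b' h => by
    show c * F b = c * F b'
    rw [hF.2 b b' h]⟩

theorem vs_SepD.mul {L : ℕ} {m k : ℕ → ℕ} {F G : (ℕ → ℝ) → ℝ} (hF : vs_SepD L m F) (hG : vs_SepD L k G) :
    vs_SepD L (fun j => m j + k j) (fun b => F b * G b) :=
  ⟨fun b j hj => (hF.1 b j hj).mul (hG.1 b j hj), fun b b' h => by
    show F b * G b = F b' * G b'
    rw [hF.2 b b' h, hG.2 b b' h]⟩

theorem vs_SepD.sum {ι : Type*} (t : Finset ι) {L : ℕ} {m : ℕ → ℕ} {F : ι → (ℕ → ℝ) → ℝ}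
    (h : ∀ i ∈ t, vs_SepD L m (F i)) : vs_SepD L m (fun b => ∑ i ∈ t, F i b) :=
  ⟨fun b j hj => TP.sum t (fun i hi => (h i hi).1 b j hj), fun b b' hb => by
    show ∑ i ∈ t, F i b = ∑ i ∈ t, F i b'
    exact sum_congr rfl (fun i hi => (h i hi).2 b b' hb)⟩

theorem vs_SepD.congr {L : ℕ} {m k : ℕ → ℕ} {F : (ℕ → ℝ) → ℝ} (hF : vs_SepD L m F)
    (h : ∀ j < L, m j = k j) : vs_SepD L k F :=
  ⟨fun b j hj => h j hj ▸ hF.1 b j hj, hF.2⟩

theorem vs_SepD.eq_zero {L : ℕ} {m : ℕ → ℕ} {F : (ℕ → ℝ) → ℝ} (hF : vs_SepD L m F)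
    (h0 : ∀ b ∈ Cube, F b = 0) : ∀ b, F b = 0 := by
  have hpi := Real.pi_pos
  have key : ∀ k, ∀ b : ℕ → ℝ, (∀ j, k ≤ j → |b j| < π / 6) → F b = 0 := by
    intro k
    induction k with
    | zero => exact fun b hb => h0 b (fun j => hb j (Nat.zero_le j))
    | succ k ih =>
      intro b hb
      by_cases hk : k < L
      · have h1 := (hF.1 b k hk).eq_zero_of_interval (a := -(π / 6)) (b := π / 6) (by linarith) ?_ (b k)
        · rw [Function.update_eq_self] at h1
          exact h1
        · intro x hx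
          apply ih
          intro j hj
          rcases eq_or_ne j k with rfl | hne
          · rw [Function.update_self]
            exact abs_lt.2 ⟨hx.1, hx.2⟩
          · rw [Function.update_of_ne hne]
            exact hb j (by omega)
      · have h1 := hF.2 b (Function.update b k 0) (fun j hj => by
          rw [Function.update_of_ne (by omega)])
        rw [h1]
        apply ih
        intro j hj
        rcases eq_or_ne j k with rfl | hne
        · rw [Function.update_self, abs_zero]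
          linarith
        · rw [Function.update_of_ne hne]
          exact hb j (by omega)
  intro b
  have h1 := hF.2 b (fun j => if j < L then b j else 0) (fun j hj => by
    simp only [if_pos hj])
  rw [h1]
  apply key L
  intro j hj
  simp only [if_neg (not_lt.2 hj), abs_zero]
  linarith

theorem vs_Sep_lin (L : ℕ) (l : M →ₗ[ℝ] ℝ) : Sep L (L - 1) (fun b => l (V L b)) := by
  have h1 : (fun b => l (V L b)) =
      fun b => ∑ σ ∈ (W_finite L).toFinset, l (Finsupp.single σ 1) * V L b σ := by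
    funext b
    rw [vs_lin_eq L l (V_Sup L b)]
    exact sum_congr rfl (fun σ _ => by rw [smul_eq_mul, mul_comm])
  rw [h1]
  exact Sep.sum _ (fun σ _ => (V_Sep L σ).smul _)

/-- degree one in the coordinate `k` -/
theorem vs_coord_TP {L k : ℕ} (hk : k < L) {f : ℝ → ℝ} (hf : TP 1 f) :
    vs_SepD L (fun j => if j = k then 1 else 0) (fun b => f (b k)) := by
  refine ⟨?_, ?_⟩
  · intro b j hj
    by_cases h : j = k
    · subst h
      simp only [Function.update_self, if_true]
      exact hf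
    · simp only [if_neg h, Function.update_of_ne (Ne.symm h)]
      exact TP.const _
  · intro b b' h
    show f (b k) = f (b' k)
    rw [h k hk]

theorem vs_s_neg (k : ℝ) : TP 1 (fun x => s (-(x + k))) := by
  have h := TP.s_sub (-k)
  have h1 : (fun x => s (-(x + k))) = fun x => s (-k - x) := by
    funext x
    congr 1
    ring
  rw [h1]
  exact h

/-- functionals of a product of R-matrices -/
theorem vs_row (L : ℕ) (js : List ℕ) (hn : js.Nodup) (hL : ∀ j ∈ js, j < L) (l : M →ₗ[ℝ] ℝ) (v : M) :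
    vs_SepD L (fun j => if j ∈ js then 1 else 0)
      (fun b => l (row (js.map fun i => (2 * i + 4, 2 * i + 5, b i)) v)) := by
  induction js generalizing l with
  | nil =>
    refine ⟨fun b j hj => ?_, fun b b' h => rfl⟩
    simp only [List.not_mem_nil, if_false, List.map_nil]
    exact TP.const _
  | cons i js ih =>
    have hi : i < L := hL i List.mem_cons_self
    have hn' := (List.nodup_cons.1 hn)
    have ih' := ih hn'.2 (fun j hj => hL j (List.mem_cons_of_mem _ hj))
    have h1 : (fun b : ℕ → ℝ => l (row ((i :: js).map fun i => (2 * i + 4, 2 * i + 5, b i)) v)) =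
        fun b => s (-(b i + π / 6)) *
            (l ∘ₗ Rel (gs 0 (2 * i + 4) 1 (2 * i + 5))) (row (js.map fun i => (2 * i + 4, 2 * i + 5, b i)) v) +
          Real.sin (b i + π / 6) *
            (l ∘ₗ G 0 (2 * i + 4) 1 (2 * i + 5)) (row (js.map fun i => (2 * i + 4, 2 * i + 5, b i)) v) := by
      funext b
      simp only [List.map_cons, row, Rh, LinearMap.comp_apply, LinearMap.add_apply,
        LinearMap.smul_apply, map_add, map_smul, smul_eq_mul]
    rw [h1]
    have h2 := ((vs_coord_TP hi (vs_s_neg (π / 6))).mul (ih' (l ∘ₗ Rel (gs 0 (2 * i + 4) 1 (2 * i + 5))))).add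
      ((vs_coord_TP hi (TP.sin_add (π / 6))).mul (ih' (l ∘ₗ G 0 (2 * i + 4) 1 (2 * i + 5))))
    refine h2.congr fun j _ => ?_
    by_cases hj : j = i
    · subst hj
      simp [hn'.1]
    · simp [hj]

theorem vs_Tt (L : ℕ) (l : M →ₗ[ℝ] ℝ) (v : M) : vs_SepD L (fun _ => 1) (fun b => l (Tt L b v)) := by
  have h := vs_row L (List.range L) List.nodup_range (fun j hj => List.mem_range.1 hj)
    (l ∘ₗ Rel (Equiv.swap 2 3) ∘ₗ G 0 3 1 2) v
  refine vs_SepD.congr h fun j hj => ?_
  rw [if_pos (List.mem_range.2 hj)]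

theorem vs_nrm (L : ℕ) : vs_SepD L (fun _ => 1) (nrm L) := by
  refine ⟨?_, ?_⟩
  · intro b j hj
    have h1 : ∀ k ∈ range L, TP (if k = j then 1 else 0)
        (fun x => s (Function.update b j x k + π / 6)) := by
      intro k _
      by_cases h : k = j
      · subst h
        simp only [Function.update_self, if_true]
        exact TP.s_add (π / 6)
      · simp only [if_neg h, Function.update_of_ne h]
        exact TP.const _
    have h2 := TP.prod (range L) h1
    rw [Finset.sum_ite_eq' (range L) j (fun _ => 1), if_pos (mem_range.2 hj)] at h2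
    exact h2
  · intro b b' h
    unfold nrm
    exact prod_congr rfl fun j hj => by rw [h j (mem_range.1 hj)]

theorem vs_Rs_apply (i : ℕ) (u : ℝ) (v : M) (σ : St) :
    Rs i u v σ = s (-u) * v σ + Real.sin u * (Finsupp.lapply σ ∘ₗ Es i : M →ₗ[ℝ] ℝ) v := by
  rw [exch_Rs_apply, Finsupp.add_apply, Finsupp.smul_apply, Finsupp.smul_apply, smul_eq_mul,
    smul_eq_mul]
  rfl

/-! ### the statements of the module -/

theorem V_sw {L i : ℕ} (h : i + 1 < L) (b : ℕ → ℝ) :
    s (b i - b (i + 1)) • V L (sw i b) = Rs i (b i - b (i + 1)) (V L b) := by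
  have hdiff : ∀ f : ℝ → ℝ, (∀ c, TP 1 (fun x => f (x - c))) → (∀ c, TP 1 (fun x => f (c - x))) →
      vs_SepD L (fun j => if j = i ∨ j = i + 1 then 1 else 0)
        (fun b => f (b i - b (i + 1))) := by
    intro f h1 h2
    refine ⟨?_, ?_⟩
    · intro b j hj
      by_cases hj1 : j = i
      · subst hj1
        simp only [Function.update_self, Function.update_of_ne (Nat.succ_ne_self j), true_or, if_true]
        exact h1 _
      by_cases hj2 : j = i + 1
      · subst hj2
        simp only [Function.update_self, Function.update_of_ne (Nat.succ_ne_self i).symm, or_true, if_true]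
        exact h2 _
      · simp only [Function.update_of_ne (Ne.symm hj1), Function.update_of_ne (Ne.symm hj2), hj1, hj2,
          or_self, if_false]
        exact TP.const _
    · intro b b' hb
      show f (b i - b (i + 1)) = f (b' i - b' (i + 1))
      rw [hb i (by omega), hb (i + 1) (by omega)]
  ext σ
  rw [Finsupp.smul_apply, smul_eq_mul, ← sub_eq_zero]
  have e1 : ∀ c : ℝ, TP 1 (fun x => s (x - c)) := by
    intro c
    simpa only [sub_eq_add_neg] using TP.s_add (-c)
  have e2 : ∀ c : ℝ, TP 1 (fun x => s (c - x)) := fun c => TP.s_sub c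
  have key : vs_SepD L (fun j => (if j = i ∨ j = i + 1 then 1 else 0) + (L - 1))
      (fun b => s (b i - b (i + 1)) * V L (sw i b) σ - Rs i (b i - b (i + 1)) (V L b) σ) := by
    simp only [vs_Rs_apply]
    refine vs_SepD.sub ((hdiff s e1 e2).mul (vs_toD ((V_Sep L σ).comp_sw (by omega)))) (vs_SepD.add ?_ ?_)
    · refine (hdiff (fun x => s (-x)) ?_ ?_).mul (vs_toD (V_Sep L σ))
      · intro c
        simp only [neg_sub]
        exact e2 c
      · intro c
        simp only [neg_sub]
        exact e1 c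
    · refine (hdiff Real.sin ?_ ?_).mul (vs_toD (vs_Sep_lin L _))
      · intro c
        simpa only [sub_eq_add_neg] using TP.sin_add (-c)
      · exact fun c => TP.sin_sub c
  refine key.eq_zero ?_ b
  intro b hb
  have h1 := P_sw h hb
  rw [vs_P L (sw_Cube i hb), vs_P L hb, phi_sw h hb, map_smul, smul_comm] at h1
  have h2 := smul_right_injective M (vs_phi_ne L hb) h1
  have h3 := DFunLike.congr_fun h2 σ
  rw [Finsupp.smul_apply, smul_eq_mul] at h3
  rw [h3, sub_self]

theorem V_rb (L : ℕ) (b : ℕ → ℝ) : V L (rb L b) = Rel (rtn L) (V L b) := by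
  ext σ
  rw [← sub_eq_zero]
  refine Sep.eq_zero ((vs_comp_rb (V_Sep L σ)).sub
    (vs_Sep_lin L (Finsupp.lapply σ ∘ₗ Rel (rtn L)))) ?_ b
  intro b hb
  show V L (rb L b) σ - Rel (rtn L) (V L b) σ = 0
  have h1 := P_rb L hb
  rw [vs_P L (rb_Cube L hb), vs_P L hb, phi_rb L hb, map_smul] at h1
  have h2 := smul_right_injective M (vs_phi_ne L hb) h1
  rw [h2, sub_self]

theorem V_vb (L : ℕ) (b : ℕ → ℝ) : V L (vb L b) = Rel (rvn L) (V L b) := by
  ext σ
  rw [← sub_eq_zero]
  refine Sep.eq_zero ((vs_comp_vb (V_Sep L σ)).sub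
    (vs_Sep_lin L (Finsupp.lapply σ ∘ₗ Rel (rvn L)))) ?_ b
  intro b hb
  show V L (vb L b) σ - Rel (rvn L) (V L b) σ = 0
  have h1 := P_vb L hb
  rw [vs_P L (vb_Cube L hb), vs_P L hb, phi_vb L hb, map_smul] at h1
  have h2 := smul_right_injective M (vs_phi_ne L hb) h1
  rw [h2, sub_self]

theorem V_Tt (L : ℕ) (b : ℕ → ℝ) : Tt L b (V L b) = nrm L b • V L b := by
  ext σ
  rw [Finsupp.smul_apply, smul_eq_mul, ← sub_eq_zero]
  have h1 : (fun b => Tt L b (V L b) σ) = fun b => ∑ τ ∈ (W_finite L).toFinset,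
      (Finsupp.lapply σ : M →ₗ[ℝ] ℝ) (Tt L b (Finsupp.single τ 1)) * V L b τ := by
    funext b
    have h2 := vs_lin_eq L (Finsupp.lapply σ ∘ₗ Tt L b) (V_Sup L b)
    rw [LinearMap.comp_apply, Finsupp.lapply_apply] at h2
    rw [h2]
    refine sum_congr rfl fun τ _ => ?_
    rw [smul_eq_mul, mul_comm]
    rfl
  have h3 : vs_SepD L (fun _ => 1 + (L - 1)) (fun b => Tt L b (V L b) σ) := by
    rw [h1]
    exact vs_SepD.sum _ fun τ _ => (vs_Tt L (Finsupp.lapply σ) (Finsupp.single τ 1)).mul
      (vs_toD (V_Sep L τ))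
  have key := h3.sub ((vs_nrm L).mul (vs_toD (V_Sep L σ)))
  refine key.eq_zero ?_ b
  intro b hb
  have h4 := Tt_P L hb
  rw [vs_P L hb, map_smul, smul_comm] at h4
  have h5 := smul_right_injective M (vs_phi_ne L hb) h4
  have h6 := DFunLike.congr_fun h5 σ
  rw [Finsupp.smul_apply, smul_eq_mul] at h6
  rw [h6, sub_self]

theorem Z_Sep (L : ℕ) : Sep L (L - 1) (Z L) := vs_Sep_lin L tot
theorem Z_congr (L : ℕ) {b b' : ℕ → ℝ} (h : ∀ j < L, b j = b' j) : Z L b = Z L b' :=
  (Z_Sep L).2 b b' h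

theorem vs_phi_Z (L : ℕ) {b : ℕ → ℝ} (hb : b ∈ Cube) : phi L b * Z L b = 1 := by
  have h := tot_P L hb
  rw [vs_P L hb, map_smul, smul_eq_mul] at h
  exact h

/-- symmetries of `phi` give symmetries of `Z` -/
theorem vs_Z_sym (L : ℕ) (g : (ℕ → ℝ) → ℕ → ℝ) (hg : ∀ b ∈ Cube, g b ∈ Cube)
    (hphi : ∀ b ∈ Cube, phi L (g b) = phi L b) (hS : Sep L (L - 1) (fun b => Z L (g b)))
    (b : ℕ → ℝ) : Z L (g b) = Z L b := by
  rw [← sub_eq_zero]
  refine Sep.eq_zero (hS.sub (Z_Sep L)) ?_ b
  intro b hb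
  have h1 := vs_phi_Z L (hg b hb)
  rw [hphi b hb, ← vs_phi_Z L hb] at h1
  rw [mul_left_cancel₀ (vs_phi_ne L hb) h1, sub_self]

theorem Z_sw {L i : ℕ} (h : i + 1 < L) (b : ℕ → ℝ) : Z L (sw i b) = Z L b :=
  vs_Z_sym L (sw i) (fun _ hb => sw_Cube i hb) (fun _ hb => phi_sw h hb) ((Z_Sep L).comp_sw (by omega)) b

theorem Z_perm (L : ℕ) (e : Equiv.Perm ℕ) (he : ∀ j, L ≤ j → e j = j) (b : ℕ → ℝ) :
    Z L (fun j => b (e j)) = Z L b := by
  have h1 : ∀ j, j < L → e j < L := by
    intro j hj
    by_contra hc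
    have h2 := he (e j) (by omega)
    have h3 := e.injective h2
    omega
  have h2 : ∀ j, j < L → e.symm j < L := by
    intro j hj
    by_contra hc
    have h2 := he (e.symm j) (by omega)
    rw [Equiv.apply_symm_apply] at h2
    omega
  exact vs_Z_sym L (fun b j => b (e j)) (fun _ hb => comp_Cube _ hb) (fun _ hb => phi_perm L e he hb)
    (vs_comp_perm (Z_Sep L) e h1 h2) b

theorem Z_neg (L : ℕ) (b : ℕ → ℝ) : Z L (fun j => -b j) = Z L b :=
  vs_Z_sym L (fun b j => -b j) (fun _ hb => neg_Cube hb) (fun _ hb => phi_neg L hb)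
    (Z_Sep L).comp_neg b

theorem Z_ne (L : ℕ) {b : ℕ → ℝ} (hb : b ∈ Cube) : Z L b ≠ 0 := by
  intro h
  have h1 := vs_phi_Z L hb
  rw [h, mul_zero] at h1
  exact zero_ne_one h1

theorem P_eq (L : ℕ) {b : ℕ → ℝ} (hb : b ∈ Cube) : P L b = (Z L b)⁻¹ • V L b := by
  rw [vs_P L hb, eq_inv_of_mul_eq_one_left (vs_phi_Z L hb)]

theorem V_zero (b : ℕ → ℝ) : V 0 b = Finsupp.single (top 0) 1 := by
  classical
  ext σ
  by_cases h : σ = top 0
  · rw [h, V_top, Finsupp.single_eq_same]
    simp [f0]
  · rw [vs_mem_Sup.1 (V_Sup 0 b) σ (fun h' => h (W_zero h')), Finsupp.single_apply,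
      if_neg (Ne.symm h)]

theorem V_one (b : ℕ → ℝ) : V 1 b = Finsupp.single (top 1) 1 := by
  classical
  ext σ
  by_cases h : σ = top 1
  · rw [h, V_top, Finsupp.single_eq_same]
    simp [f0]
  · rw [vs_mem_Sup.1 (V_Sup 1 b) σ (fun h' => h (W_one h')), Finsupp.single_apply,
      if_neg (Ne.symm h)]
end IPC
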